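import Pool.Agent.Lib.MP_1a91b9_ntMC.A0
import Pool.Agent.Lib.MP_1a91b9_ntCR.RBase2

/-!
# MP_1a91b9_nt (random (Z/3)^r-extensions), block A: the definitions of the result file
-/

set_option autoImplicit false

namespace Pool.Agent.Lib.MP_1a91b9_ntMC.Fin

open NumberField IsDedekindDomain Pool.Agent.Lib.MP_1a91b9_nuT.S9 Pool.Agent.Lib.MP_1a91b9_nuT3.S9

/-- The condition on the ramification of `L / F`, for the curve `V` over `F` and the prime number `q`. -/
def RamOK (K : Type) [Field K] [NumberField K] {F : Type} [Field F] [NumberField F] [Algebra K F]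
    (V : WeierstrassCurve F) (q : ℕ) (L : Type) [Field L] [NumberField L] [Algebra F L] : Prop :=
  ∀ (v : HeightOneSpectrum (𝓞 F)) (w : HeightOneSpectrum (𝓞 L)),
    v.asIdeal.map (algebraMap (𝓞 F) (𝓞 L)) ≤ w.asIdeal ^ 2 →
      ((q : 𝓞 F) ∈ v.asIdeal →
        Ideal.absNorm (v.asIdeal.comap (algebraMap (𝓞 K) (𝓞 F))) = q) ∧
      ((q : 𝓞 F) ∉ v.asIdeal → ∀ (V₀ : WeierstrassCurve (𝓞 F))
        (C₀ : WeierstrassCurve.VariableChange F),
        C₀ • V = V₀.map (algebraMap (𝓞 F) F) → V₀.Δ ∉ v.asIdeal →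
          ¬ q ∣ Nat.card (V₀.map (Ideal.Quotient.mk v.asIdeal)).toAffine.Point)

open Classical in
/-- The `q`-part of the relative conjecture for the curves `W` over `L` and `W'` over `L'`. -/
def RelBSD (q : ℕ) [Fact q.Prime] {L L' : Type} [Field L] [NumberField L] [Field L'] [NumberField L']
    [Algebra L L'] (W : WeierstrassCurve L) (W' : WeierstrassCurve L') : Prop :=
  (∃ g : ℂ → ℂ, Differentiable ℂ g ∧ g 1 ≠ 0 ∧
    (∀ s : ℂ, 3 / 2 < s.re → W'.LSeries s = W.LSeries s * g s) ∧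
    ∃ r : ℚ, (IsCoprime r.num (q : ℤ) ∧ r.den.Coprime q) ∧
      g 1 * ((√|(discr L' : ℝ)| / period W' : ℝ) : ℂ) =
        (r : ℂ) * ((√|(discr L : ℝ)| / period W : ℝ) : ℂ)) ∧
  Module.finrank ℤ W'.toAffine.Point = Module.finrank ℤ W.toAffine.Point ∧
  ((AddSubgroup.closure {P : W'.toAffine.Point | ∃ (x y : L)
    (h : W'.toAffine.Nonsingular (algebraMap L L' x) (algebraMap L L' y)),
    P = WeierstrassCurve.Affine.Point.some _ _ h}).index).Coprime q ∧
  (∀ v : HeightOneSpectrum (𝓞 L), (tam W v).Coprime q) ∧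
  (∀ v : HeightOneSpectrum (𝓞 L'), (tam W' v).Coprime q) ∧
  Nonempty (ShaP q W' ≃+ ShaP q W)

/-- The twist of `E : y² + a₃ y = x³` by `∛e`, over `F`. -/
def tw {K : Type} [Field K] (E : WeierstrassCurve K) (F : Type) [Field F] [Algebra K F] (e : K) :
    WeierstrassCurve F :=
  ⟨0, 0, algebraMap K F (E.a₃ * e), 0, 0⟩

open Classical in
/-- The property (A) of `F' / F` for the curve `E` over `K`. -/
def NoNewPoints {K : Type} [Field K] (E : WeierstrassCurve K) (F F' : Type) [Field F] [Algebra K F]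
    [Field F'] [NumberField F'] [Algebra F F'] : Prop :=
  (∀ x' y' : F', ((E.baseChange F).baseChange F').toAffine.Equation x' y' →
    ∃ x y : F, algebraMap F F' x = x' ∧ algebraMap F F' y = y') ∧
  (Module.finrank K F = 1 →
    (E = ⟨0, 0, 3, 0, 0⟩ →
      (∃ h : ℂ → ℂ, Differentiable ℂ h ∧
        (∀ s : ℂ, 3 / 2 < s.re → h s = ((E.baseChange F).baseChange F').LSeries s) ∧ h 1 ≠ 0) ∧
      Finite ((E.baseChange F).baseChange F').toAffine.Point) ∧
    (E.a₃ ^ 2 = -3 →
      (∃ h : ℂ → ℂ, Differentiable ℂ h ∧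
        (∀ s : ℂ, 3 / 2 < s.re → h s = ((E.baseChange F).baseChange F').LSeries s) ∧
        analyticOrderAt h 1 = 2) ∧
      Module.finrank ℤ ((E.baseChange F).baseChange F').toAffine.Point = 2))

/-- The property `R` of `e` in `K`. -/
def PropR {K : Type} [Field K] [NumberField K] (E : WeierstrassCurve K) (F : Type) [Field F] [NumberField F]
    [Algebra K F] (e : K) : Prop :=
  (∀ (F' : Type) [Field F'] [NumberField F'] [Algebra F F'] (x : F'),
    x ^ 3 = algebraMap F F' (algebraMap K F e) → IntermediateField.adjoin F {x} = ⊤ →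
    NoNewPoints E F F') ∧
  ∃ S : Finset ℕ, ∀ (q : ℕ) [Fact q.Prime], q ∉ S →
    ∀ (k : ℕ) (L M : Type) [Field L] [NumberField L] [Field M] [NumberField M]
      [Algebra F L] [Algebra L M] [Algebra F M] [IsScalarTower F L M] [IsGalois F M],
      Module.finrank F M = q ^ k → RamOK K (tw E F e) q L → RamOK K (tw E F (e ^ 2)) q L →
    ∀ (L' : Type) [Field L'] [NumberField L'] [Algebra L L'] (y : L'),
      y ^ 3 = algebraMap L L' (algebraMap F L (algebraMap K F e)) →
      IntermediateField.adjoin L {y} = ⊤ →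
      RelBSD q ((E.baseChange F).baseChange L) (((E.baseChange F).baseChange L).baseChange L')

/-- The property `M` of the tuple `e`. -/
def PropM {K : Type} [Field K] [NumberField K] (E : WeierstrassCurve K) (F : Type) [Field F]
    [NumberField F] [Algebra K F] {r : ℕ} (e : Fin r → K) : Prop :=
  ∀ (N : Type) [Field N] [NumberField N] [Algebra F N] (x : Fin r → N),
    (∀ i, x i ^ 3 = algebraMap F N (algebraMap K F (e i))) →
    IntermediateField.adjoin F (Set.range x) = ⊤ →
    Module.finrank F N = 3 ^ r ∧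
    ∀ (F' : Type) [Field F'] [NumberField F'] [Algebra K F'] [Algebra F F'] [IsScalarTower K F F']
      [Algebra F' N] [IsScalarTower F F' N],
      NoNewPoints E F F' ∧
      (∃ g : ℂ → ℂ, Differentiable ℂ g ∧ g 1 ≠ 0 ∧ ∀ s : ℂ, 3 / 2 < s.re →
        (E.baseChange F').LSeries s = (E.baseChange F).LSeries s * g s) ∧
      (∀ (F'' : Type) [Field F''] [NumberField F''] [Algebra F F''] [Algebra F' F'']
        [IsScalarTower F F' F''] [Algebra F'' N] [IsScalarTower F' F'' N],
        Module.finrank F' F'' ≠ 1 →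
        ∃ S : Finset ℕ, ∀ (q : ℕ) [Fact q.Prime], q ∉ S →
          RelBSD q (E.baseChange F') ((E.baseChange F').baseChange F'')) ∧
      ∀ χ : Fin r → Fin 3, (¬ ∃ y : F', y ^ 3 = algebraMap K F' (∏ i, e i ^ (χ i : ℕ))) →
        PropR E F' (∏ i, e i ^ (χ i : ℕ))

/-- The property `R` from the property of the towers. -/
theorem propR_of {K : Type} [Field K] [NumberField K] (hK : Module.finrank ℚ K = 2)
    (h3 : ∃ s : K, s ^ 2 = -3) (a : K) (F : Type) [Field F] [NumberField F] [Algebra K F] {e : K}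
    (he : Pool.Agent.Lib.MP_1a91b9_ntCC.StbC a F e) : PropR ⟨0, 0, a, 0, 0⟩ F e := by
  refine ⟨fun F' _ _ _ x hx hgen => ⟨he.1 F' x hx hgen,
    fun hF1 => ⟨fun h3E => ?_, fun ha2 => ?_⟩⟩, he.2⟩
  · have ha3 : a = 3 := congrArg WeierstrassCurve.a₃ h3E
    subst ha3
    exact Pool.Agent.Lib.MP_1a91b9_ntCC.rbase hK h3 hF1 he F' x hx hgen
  · exact Pool.Agent.Lib.MP_1a91b9_ntCR.rbase2 hK ha2 hF1 he F' x hx hgen

open Classical in
/-- If no point is new then the rank is the same. -/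
theorem finrank_of_nonew {K F F' : Type} [Field K] [Field F] [Field F'] [Algebra K F] [Algebra K F']
    [Algebra F F'] [IsScalarTower K F F'] (E : WeierstrassCurve K)
    (h : ∀ x' y' : F', (E.baseChange F').toAffine.Equation x' y' →
      ∃ x y : F, algebraMap F F' x = x' ∧ algebraMap F F' y = y') :
    Module.finrank ℤ (E.baseChange F').toAffine.Point =
      Module.finrank ℤ (E.baseChange F).toAffine.Point := by
  have hinj : Function.Injective (WeierstrassCurve.Affine.Point.map (W' := E)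
      (IsScalarTower.toAlgHom K F F')) := WeierstrassCurve.Affine.Point.map_injective _
  have hsur : Function.Surjective (WeierstrassCurve.Affine.Point.map (W' := E)
      (IsScalarTower.toAlgHom K F F')) := by
    rintro (_ | ⟨x', y', hP⟩)
    · exact ⟨0, map_zero _⟩
    · obtain ⟨x, y, rfl, rfl⟩ := h x' y' hP.1
      have h1 : (E.baseChange F).toAffine.Nonsingular x y :=
        (WeierstrassCurve.Affine.baseChange_nonsingular E
          (f := IsScalarTower.toAlgHom K F F') (IsScalarTower.toAlgHom K F F').injective x y).1 hP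
      exact ⟨.some x y h1, rfl⟩
  exact (AddEquiv.toIntLinearEquiv (AddEquiv.ofBijective _ ⟨hinj, hsur⟩)).finrank_eq.symm

open Classical in
/-- **The property `M` in the language of the result file.** -/
theorem propM_of3 {K : Type} [Field K] [NumberField K] (hK : Module.finrank ℚ K = 2)
    (h3 : ∃ s : K, s ^ 2 = -3) (a : K) (F : Type) [Field F] [NumberField F] [Algebra K F] {r : ℕ}
    {e : Fin r → K} (h : PropM3 a F e) : PropM ⟨0, 0, a, 0, 0⟩ F e := by
  intro N _ _ _ x hx hgen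
  obtain ⟨hdeg, hF⟩ := h N x hx hgen
  refine ⟨hdeg, fun F' _ _ _ _ _ _ _ => ?_⟩
  obtain ⟨c1, ⟨g, g1, g2, g3⟩, c3, c4⟩ := hF F'
  have e0 : ((⟨0, 0, a, 0, 0⟩ : WeierstrassCurve K).baseChange F).baseChange F' =
      (⟨0, 0, a, 0, 0⟩ : WeierstrassCurve K).baseChange F' := by
    show ((⟨0, 0, a, 0, 0⟩ : WeierstrassCurve K).map (algebraMap K F)).map (algebraMap F F') =
      (⟨0, 0, a, 0, 0⟩ : WeierstrassCurve K).map (algebraMap K F')
    rw [WeierstrassCurve.map_map, ← IsScalarTower.algebraMap_eq]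
  refine ⟨⟨?_, fun hF1 => ?_⟩, ⟨g, g1, g2, g3⟩, fun F'' _ _ _ _ _ _ _ hne => c3 F'' hne,
    fun χ hχ => propR_of hK h3 a F' (c4 χ hχ)⟩
  · rw [e0]
    exact c1
  have hFQ : Module.finrank ℚ F = 2 := by
    rw [← Module.finrank_mul_finrank ℚ K F, hK, hF1]
  refine ⟨fun h3E => ?_, fun ha2 => ?_⟩
  · have ha3 : a = 3 := congrArg WeierstrassCurve.a₃ h3E
    subst ha3
    have h3F : ∃ s : F, s ^ 2 = -3 := by
      obtain ⟨s, hs⟩ := h3
      refine ⟨algebraMap K F s, ?_⟩
      rw [← map_pow, hs, map_neg, map_ofNat]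
    obtain ⟨⟨g0, d0, l0, n0⟩, hfin⟩ := Pool.Agent.Lib.MP_1a91b9_ntCC.base3 hFQ h3F
    have e1 : (⟨0, 0, 3, 0, 0⟩ : WeierstrassCurve K).baseChange F =
        (⟨0, 0, 3, 0, 0⟩ : WeierstrassCurve F) :=
      WeierstrassCurve.ext (map_zero _) (map_zero _) (map_ofNat _ 3) (map_zero _) (map_zero _)
    refine ⟨⟨fun s => g0 s * g s, d0.mul g1, fun s hs => ?_, mul_ne_zero n0 g2⟩, ?_⟩
    · rw [e0]
      show g0 s * g s = _
      rw [l0 s hs, ← e1]
      exact (g3 s hs).symm
    · rw [e1]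
      refine Pool.Agent.Lib.MP_1a91b9_ntCC.finite_of_nonew hfin fun x' y' hxy => c1 x' y' ?_
      have e2 : (⟨0, 0, 3, 0, 0⟩ : WeierstrassCurve F).map (algebraMap F F') =
          (⟨0, 0, 3, 0, 0⟩ : WeierstrassCurve K).map (algebraMap K F') := by
        rw [← e1]
        exact e0
      rw [← e2]
      exact hxy
  · have haF : (algebraMap K F a) ^ 2 = -3 := by
      rw [← map_pow, ha2, map_neg, map_ofNat]
    obtain ⟨⟨g0, d0, l0, n0⟩, hrk⟩ := Pool.Agent.Lib.MP_1a91b9_ntCR.base2 hFQ haF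
    have e1 : (⟨0, 0, a, 0, 0⟩ : WeierstrassCurve K).baseChange F =
        (⟨0, 0, algebraMap K F a, 0, 0⟩ : WeierstrassCurve F) :=
      WeierstrassCurve.ext (map_zero _) (map_zero _) rfl (map_zero _) (map_zero _)
    refine ⟨⟨fun s => g0 s * g s, d0.mul g1, fun s hs => ?_, ?_⟩, ?_⟩
    · rw [e0]
      show g0 s * g s = _
      rw [l0 s hs, ← e1]
      exact (g3 s hs).symm
    · have h6 := analyticOrderAt_mul (d0.analyticAt 1) (g1.analyticAt 1)
      have h7 : analyticOrderAt g 1 = 0 := ((g1.analyticAt 1).analyticOrderAt_eq_zero).2 g2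
      rw [n0, h7, add_zero] at h6
      exact h6
    · rw [e0, finrank_of_nonew (F := F) _ c1, e1]
      exact hrk

end Pool.Agent.Lib.MP_1a91b9_ntMC.Fin
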