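import Pool.Agent.Lib.MP_1a91b9_ntMC.J1
import Pool.Agent.Lib.MP_1a91b9_ntMN.MNG
import Pool.Agent.Lib.MP_1a91b9_ntS3.G.Dich9

/-!
# MP_1a91b9_nt (all the multicubic fields): the classes of the colourings have a positive proportion
-/

set_option autoImplicit false
set_option linter.unusedSectionVars false

namespace Pool.Agent.Lib.MP_1a91b9_ntS3.G

open NumberField Finset Pool.Agent.Lib.MP_1a91b9_ntT Pool.Agent.Lib.MP_1a91b9_ntK
open Pool.Agent.Lib.MP_1a91b9_ntH (PS nm one_le_nm pr Sx discE nE_eq)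
open Pool.Agent.Lib.MP_1a91b9_ntQ (Mz)

/-- The mean value of a nontrivial character of the classes is zero. -/
theorem mz9 {n : ℕ} (ψ : AddChar (G9 n) ℂ) (hψ : ψ ≠ 1) : Mz ∅ fun q => ψ (c9 n q) := by
  classical
  obtain ⟨g, hg⟩ : ∃ g, ψ g ≠ 1 := by
    by_contra h
    push Not at h
    exact hψ (DFunLike.ext _ _ fun g => (h g).trans (AddChar.one_apply g).symm)
  obtain ⟨x, hx, rfl⟩ := g9_surj n g
  obtain ⟨u, hu, h1, -, v, w, hvw⟩ := exists_res9 n ∅ hx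
  have hz : W9 ψ ∅ (fun _ => 0) 0 0 u ≠ 1 := by
    unfold W9
    rw [w9_congr ψ hu h1, w9_of hx, chBb_of hu (fun p hp => absurd hp (notMem_empty p))]
    unfold cxb
    rw [zero_mul, zero_mul, sum_empty, add_zero, add_zero, e3_zero, mul_one]
    exact hg
  intro ε hε
  have h0 : ¬ prm3.P 0 := fun h => In3.ne_zero h rfl
  obtain ⟨X₀, hX₀⟩ := prm3.mean_zero h0 (W9 ψ ∅ (fun _ => 0) 0 0) (W9_mulC ψ ∅ (fun _ => 0) 0 0)
    (B := 20 * Real.sqrt (Pool.Agent.Lib.MP_1a91b9_ntH.Nz (Q9 n * DD3 ∅) : ℕ)) (by positivity)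
    (fun X hX => by
      have h4 := sum_discEC' (Q9 n * DD3 ∅) (mul_ne_zero (Q9_ne n) (DD3_in3 ∅).ne_zero)
        (W9 ψ ∅ (fun _ => 0) 0 0) (W9_norm ψ ∅ (fun _ => 0) 0 0)
        (fun x y => W9_congr ψ ∅ (fun _ => 0) 0 0 ⟨y, by ring⟩) u v w hvw _ hz
        (fun x => W9_mul ψ ∅ (fun _ => 0) 0 0 hu x) X hX
      rw [nE_eq, Real.sqrt_mul (Nat.cast_nonneg _)] at h4
      rw [mul_assoc]
      exact h4) ε hε
  refine ⟨X₀, fun X hX => ?_⟩
  have h1 := hX₀ X hX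
  have h2 : ∑ S ∈ Sx P3 X, W9 ψ ∅ (fun _ => 0) 0 0 (prm3.dd S) =
      ∑ S ∈ (Sx P3 X).filter (fun S => Disjoint S ∅), ∏ q ∈ S, ψ (c9 n q) := by
    rw [sum_filter]
    refine sum_congr rfl fun S _ => ?_
    have h3 : W9 ψ ∅ (fun _ => 0) 0 0 (prm3.dd S) = W9 ψ ∅ (fun _ => 0) 0 0 (DD3 S) := rfl
    rw [h3, W9_DD3, if_pos (disjoint_empty_right S), if_pos (disjoint_empty_right S)]
    refine prod_congr rfl fun q _ => ?_
    have h4 : d3b.exb ∅ (fun _ => 0) 0 0 q = 0 := by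
      unfold Dat3b.exb
      rw [zero_mul, zero_mul, sum_empty, add_zero, add_zero]
    rw [h4, e3_zero, mul_one]
  rw [h2] at h1
  exact h1

end Pool.Agent.Lib.MP_1a91b9_ntS3.G

namespace Pool.Agent.Lib.MP_1a91b9_ntMC

open Finset Pool.Agent.Lib.MP_1a91b9_ntK Pool.Agent.Lib.MP_1a91b9_ntK.Da
open Pool.Agent.Lib.MP_1a91b9_ntH (PS nm Sx Cheb Zt mem_Sx)
open Pool.Agent.Lib.MP_1a91b9_ntQ (Mz)
open Pool.Agent.Lib.MP_1a91b9_ntS3.G (G9 c9 mz9)
open Pool.Agent.Lib.MP_1a91b9_ntMN (Yh Yh_nonneg mz_mean norm_wsumC)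

noncomputable section

variable {I ι : Type} [Fintype I] [DecidableEq I] [DecidableEq ι]

private theorem CP_psi {G α : Type} [AddCommGroup G] (ψ : AddChar G ℂ) (s : Finset α) (f : α → G) :
    ψ (∑ x ∈ s, f x) = ∏ x ∈ s, ψ (f x) := by
  classical
  induction s using Finset.induction_on with
  | empty => rw [sum_empty, prod_empty, AddChar.map_zero_eq_one]
  | insert a S ha ih => rw [sum_insert ha, prod_insert ha, AddChar.map_add_eq_mul, ih]

private theorem CP_clb {G : Type} [AddCommGroup G] (a : ι → G) (S : Finset ι) (f : S → Nz I) (i : I) :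
    clb a (⟨S, f⟩ : Cb ι I) i = ∑ q : S, ((f q).1 i).val • a q := by
  unfold clb
  show ∑ q ∈ S, (cz (⟨S, f⟩ : Cb ι I) q i).val • a q = _
  rw [← sum_coe_sort S fun q => (cz (⟨S, f⟩ : Cb ι I) q i).val • a q]
  refine sum_congr rfl fun q _ => ?_
  have h : cz (⟨S, f⟩ : Cb ι I) q.1 = (f q).1 := dif_pos q.2
  rw [h]

private theorem CP_cardNz (I : Type) [Fintype I] [DecidableEq I] : Fintype.card (Nz I) = hN I := by
  classical
  unfold Nz hN
  rw [Fintype.card_subtype_compl, Fintype.card_subtype_eq, Fintype.card_fun, ZMod.card]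

/-- The factor of a prime. -/
private def CP_f {G : Type} [AddCommGroup G] (a : ι → G) (Ψ : I → AddChar G ℂ) (q : ι) : ℂ :=
  ∑ v : Nz I, ∏ i, Ψ i ((v.1 i).val • a q)

/-- The characters of the classes. -/
private theorem CP_card {G : Type} [AddCommGroup G] [Fintype G] (a : ι → G) (g : I → G) (S : Finset ι)
    [DecidablePred fun f : S → Nz I => ∀ i, clb a (⟨S, f⟩ : Cb ι I) i = g i] :
    (Fintype.card G : ℂ) ^ Fintype.card I *
        (((univ : Finset (S → Nz I)).filter fun f => ∀ i, clb a (⟨S, f⟩ : Cb ι I) i = g i).card : ℂ) =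
      ∑ Ψ : I → AddChar G ℂ, (∏ i, Ψ i (-g i)) * ∏ q ∈ S, CP_f a Ψ q := by
  classical
  have h1 : ∀ Ψ : I → AddChar G ℂ, (∏ i, Ψ i (-g i)) * ∏ q ∈ S, CP_f a Ψ q =
      ∑ f : S → Nz I, ∏ i, Ψ i (-g i + clb a (⟨S, f⟩ : Cb ι I) i) := by
    intro Ψ
    rw [← prod_coe_sort S fun q => CP_f a Ψ q]
    unfold CP_f
    rw [prod_univ_sum, Fintype.piFinset_univ, mul_sum]
    refine sum_congr rfl fun f _ => ?_
    rw [prod_comm, ← prod_mul_distrib]
    refine prod_congr rfl fun i _ => ?_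
    rw [AddChar.map_add_eq_mul, CP_clb, CP_psi]
  rw [sum_congr rfl fun Ψ _ => h1 Ψ, sum_comm]
  have h2 : ∀ f : S → Nz I, ∑ Ψ : I → AddChar G ℂ, ∏ i, Ψ i (-g i + clb a (⟨S, f⟩ : Cb ι I) i) =
      if ∀ i, clb a (⟨S, f⟩ : Cb ι I) i = g i then (Fintype.card G : ℂ) ^ Fintype.card I else 0 := by
    intro f
    have h3 : ∑ Ψ : I → AddChar G ℂ, ∏ i, Ψ i (-g i + clb a (⟨S, f⟩ : Cb ι I) i) =
        ∏ i, ∑ ψ : AddChar G ℂ, ψ (-g i + clb a (⟨S, f⟩ : Cb ι I) i) := by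
      rw [prod_univ_sum, Fintype.piFinset_univ]
    rw [h3]
    have h4 : ∀ i, ∑ ψ : AddChar G ℂ, ψ (-g i + clb a (⟨S, f⟩ : Cb ι I) i) =
        if clb a (⟨S, f⟩ : Cb ι I) i = g i then (Fintype.card G : ℂ) else 0 := by
      intro i
      rw [AddChar.sum_apply_eq_ite]
      by_cases h3 : clb a (⟨S, f⟩ : Cb ι I) i = g i
      · rw [if_pos h3, if_pos (by rw [h3, neg_add_cancel])]
      · rw [if_neg h3, if_neg (fun h4 => h3 (by rwa [neg_add_eq_zero, eq_comm] at h4))]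
    rw [prod_congr rfl fun i _ => h4 i]
    by_cases h5 : ∀ i, clb a (⟨S, f⟩ : Cb ι I) i = g i
    · rw [if_pos h5, prod_congr rfl fun i _ => if_pos (h5 i), prod_const, card_univ]
    · rw [if_neg h5]
      push Not at h5
      obtain ⟨k, hk⟩ := h5
      exact prod_eq_zero (mem_univ k) (if_neg hk)
  rw [sum_congr rfl fun f _ => h2 f, ← sum_filter, sum_const, nsmul_eq_mul, mul_comm]

/-- **The sums with a nontrivial character.** -/
private theorem CP_small {G : Type} [PS ι] [AddCommGroup G] [Finite G] {a : ι → G} {C1 C2 : ℝ}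
    (h1 : Cheb ι C1) (h2 : Zt ι C2)
    (hz : ∀ ψ : AddChar G ℂ, ψ ≠ 1 → Mz ∅ fun q => ψ (a q)) [Nonempty I]
    (Ψ : I → AddChar G ℂ) (hΨ : Ψ ≠ 1) (ε : ℝ) (hε : 0 < ε) : ∃ X₀ : ℕ, ∀ X : ℕ, X₀ ≤ X →
      ‖∑ S ∈ Sx ι X, ∏ q ∈ S, CP_f a Ψ q‖ ≤ ε * Yh (hN I) X := by
  classical
  obtain ⟨k, hk⟩ : ∃ k, Ψ k ≠ 1 := by
    by_contra h
    push Not at h
    exact hΨ (funext h)
  have hmz := hz (Ψ k) hk
  have hH : 1 ≤ hN I := by
    unfold hN
    have h3 : 3 ^ 1 ≤ 3 ^ Fintype.card I := Nat.pow_le_pow_right (by norm_num) Fintype.card_pos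
    omega
  obtain ⟨X₀, hX₀⟩ := mz_mean h1 h2 (hN I) 2 hH (by norm_num) (χ := fun q => Ψ k (a q))
    (fun q => (AddChar.norm_apply _ _).le) hmz ε hε
  refine ⟨X₀, fun X hX => ?_⟩
  refine (norm_sum_le _ _).trans ?_
  have h3 := hX₀ (fun q => ‖CP_f a Ψ q‖) (fun q => ?_) X hX
  · refine le_trans (le_of_eq (sum_congr rfl fun S _ => ?_)) h3
    rw [norm_prod]
  · have hu : ∀ v : Nz I, ‖∏ i, Ψ i ((v.1 i).val • a q)‖ = 1 := by
      intro v
      rw [norm_prod]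
      exact prod_eq_one fun k _ => AddChar.norm_apply _ _
    have hc : ((univ : Finset (Nz I)).card : ℝ) = hN I := by rw [card_univ, CP_cardNz]
    refine ⟨norm_nonneg _, ?_, ?_⟩
    · refine (norm_sum_le _ _).trans (le_of_eq ?_)
      rw [sum_congr rfl fun v _ => hu v, sum_const, nsmul_eq_mul, mul_one, hc]
    · have hv : ∀ c : ZMod 3, c ≠ 0 → (Pi.single k c : I → ZMod 3) ≠ 0 := by
        intro c hc h
        have := congrFun h k
        rw [Pi.single_eq_same] at this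
        exact hc this
      have hp : ∀ (c : ZMod 3), ∏ i, Ψ i (((Pi.single k c : I → ZMod 3) i).val • a q) =
          Ψ k (c.val • a q) := by
        intro c
        rw [prod_eq_single k]
        · rw [Pi.single_eq_same]
        · intro i _ hi
          rw [Pi.single_eq_of_ne hi, ZMod.val_zero, zero_smul, AddChar.map_zero_eq_one]
        · intro h
          exact absurd (mem_univ k) h
      have h4 := norm_wsumC (univ : Finset (Nz I)) (fun _ => (1 : ℝ))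
        (fun _ => zero_le_one) (fun v => ∏ i, Ψ i ((v.1 i).val • a q)) hu (a := 1) zero_le_one
        (l := ⟨Pi.single k 2, hv 2 (by decide)⟩) (l' := ⟨Pi.single k 1, hv 1 (by decide)⟩)
        (mem_univ _) (mem_univ _) (fun h => by
          have h5 := congrFun (congrArg Subtype.val h) k
          simp only [Pi.single_eq_same] at h5
          exact absurd h5 (by decide)) le_rfl le_rfl
      have h6 : Ψ k ((2 : ZMod 3).val • a q) * (starRingEnd ℂ) (Ψ k ((1 : ZMod 3).val • a q)) =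
          Ψ k (a q) := by
        have e2 : (2 : ZMod 3).val = 2 := rfl
        have e1 : (1 : ZMod 3).val = 1 := rfl
        rw [e2, e1, one_smul, two_smul, AddChar.map_add_eq_mul, mul_assoc, Complex.mul_conj,
          Complex.normSq_eq_norm_sq, AddChar.norm_apply]
        simp
      simp only [Complex.ofReal_one, one_mul] at h4
      rw [hp, hp, h6, sum_const, nsmul_eq_mul, mul_one, hc] at h4
      refine h4.trans (le_of_eq ?_)
      push_cast
      ring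

/-- **The classes have a positive proportion.** -/
theorem covPos3_of {G : Type} [PS ι] [AddCommGroup G] [Finite G] {a : ι → G}
    (hc : ∃ C, Cheb ι C) (hz2 : ∃ C, Zt ι C)
    (hz : ∀ ψ : AddChar G ℂ, ψ ≠ 1 → Mz ∅ fun q => ψ (a q))
    (hlow : Nonempty I → ∃ c : ℝ, 0 < c ∧ ∃ X₀ : ℕ, ∀ X : ℕ, X₀ ≤ X →
      c * Yh (hN I) X ≤ ((BX I (SxT (∅ : Finset ι)) X).card : ℝ)) : CovPos3 a I := by
  classical
  obtain ⟨C1, h1⟩ := hc
  obtain ⟨C2, h2⟩ := hz2
  let _ : Fintype G := Fintype.ofFinite G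
  intro g
  rcases isEmpty_or_nonempty I with hI | hI
  · refine ⟨1, one_pos, 0, fun X _ => ?_⟩
    rw [one_mul, filter_true_of_mem fun b _ => ?_]
    intro i
    exact hI.elim i
  obtain ⟨c, hc, X₁, hX₁⟩ := hlow hI
  obtain ⟨n, hn⟩ : ∃ n : ℝ, n = (Fintype.card (I → AddChar G ℂ) : ℝ) + 1 := ⟨_, rfl⟩
  have hn0 : 0 < n := by
    rw [hn]
    positivity
  obtain ⟨N, hNd⟩ : ∃ N : ℝ, N = (Fintype.card G : ℝ) ^ Fintype.card I := ⟨_, rfl⟩
  have hN0 : 0 < N := by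
    rw [hNd]
    have : 0 < Fintype.card G := Fintype.card_pos
    positivity
  have hε : 0 < c / (2 * n) := by positivity
  have h3 : ∀ Ψ : I → AddChar G ℂ, ∃ X₀ : ℕ, ∀ X : ℕ, X₀ ≤ X → Ψ ≠ 1 →
      ‖∑ S ∈ Sx ι X, ∏ q ∈ S, CP_f a Ψ q‖ ≤ c / (2 * n) * Yh (hN I) X := by
    intro Ψ
    by_cases hΨ : Ψ = 1
    · exact ⟨0, fun X _ h => absurd hΨ h⟩
    · obtain ⟨X₀, h4⟩ := CP_small h1 h2 hz Ψ hΨ _ hε
      exact ⟨X₀, fun X hX _ => h4 X hX⟩
  choose X₂ h3 using h3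
  refine ⟨1 / (2 * N), by positivity, X₁ + ∑ Ψ, X₂ Ψ, fun X hX => ?_⟩
  have hX2 : ∀ Ψ, X₂ Ψ ≤ X := fun Ψ =>
    (single_le_sum (fun _ _ => Nat.zero_le _) (mem_univ Ψ)).trans ((Nat.le_add_left _ _).trans hX)
  have h4 := hX₁ X (by omega)
  have hSx : SxT (∅ : Finset ι) X = Sx ι X := by
    unfold SxT
    exact filter_true_of_mem fun S _ => disjoint_empty_right S
  obtain ⟨A, hA⟩ : ∃ A : ℝ, A = ((BX I (SxT (∅ : Finset ι)) X).card : ℝ) := ⟨_, rfl⟩
  obtain ⟨B, hB⟩ : ∃ B : ℝ, B = (((BX I (SxT (∅ : Finset ι)) X).filter fun b =>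
    ∀ i, clb a b i = g i).card : ℝ) := ⟨_, rfl⟩
  obtain ⟨Y, hY⟩ : ∃ Y : ℝ, Y = Yh (hN I) X := ⟨_, rfl⟩
  have hYA : c * Y ≤ A := by
    rw [hY, hA]
    exact h4
  have hA2 : (A : ℂ) = ∑ S ∈ Sx ι X, ∏ q ∈ S, CP_f a (1 : I → AddChar G ℂ) q := by
    have h5 := sum_BX (Z := SxT (∅ : Finset ι)) (X := X) (fun _ : Cb ι I => (1 : ℂ))
    rw [sum_const, nsmul_eq_mul, mul_one, hSx] at h5
    rw [hA, Complex.ofReal_natCast, h5]
    refine sum_congr rfl fun S _ => ?_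
    rw [sum_const, card_univ, Fintype.card_fun, Fintype.card_coe, CP_cardNz, nsmul_eq_mul, mul_one]
    have h6 : ∀ q ∈ S, CP_f a (1 : I → AddChar G ℂ) q = (hN I : ℂ) := by
      intro q _
      unfold CP_f
      have h7 : ∀ v : Nz I, ∏ i, (1 : I → AddChar G ℂ) i ((v.1 i).val • a q) = 1 :=
        fun v => prod_eq_one fun i _ => AddChar.one_apply _
      rw [sum_congr rfl fun v _ => h7 v, sum_const, card_univ, CP_cardNz, nsmul_eq_mul, mul_one]
    rw [prod_congr rfl h6, prod_const]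
    push_cast
    rfl
  have e : ((N * B : ℝ) : ℂ) = (A : ℂ) + ∑ Ψ ∈ (univ : Finset (I → AddChar G ℂ)).erase 1,
      (∏ i, Ψ i (-g i)) * ∑ S ∈ Sx ι X, ∏ q ∈ S, CP_f a Ψ q := by
    have h5 : ((N * B : ℝ) : ℂ) = ∑ S ∈ Sx ι X, (Fintype.card G : ℂ) ^ Fintype.card I *
        (((univ : Finset (S → Nz I)).filter fun f =>
          ∀ i, clb a (⟨S, f⟩ : Cb ι I) i = g i).card : ℂ) := by
      have h6 := sum_BX (Z := SxT (∅ : Finset ι)) (X := X)
        (fun b : Cb ι I => if ∀ i, clb a b i = g i then (1 : ℂ) else 0)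
      rw [← sum_filter, sum_const, nsmul_eq_mul, mul_one, hSx] at h6
      rw [hB, hNd, ← mul_sum, Complex.ofReal_mul, Complex.ofReal_natCast]
      push_cast
      congr 1
      rw [← hSx] at h6 ⊢
      rw [h6]
      refine sum_congr rfl fun S _ => ?_
      rw [← sum_filter, sum_const, nsmul_eq_mul, mul_one]
    rw [h5, sum_congr rfl fun S _ => CP_card a g S, sum_comm]
    have h6 : ∀ Ψ : I → AddChar G ℂ, ∑ S ∈ Sx ι X, (∏ i, Ψ i (-g i)) *
        ∏ q ∈ S, CP_f a Ψ q = (∏ i, Ψ i (-g i)) * ∑ S ∈ Sx ι X, ∏ q ∈ S, CP_f a Ψ q :=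
      fun Ψ => (mul_sum _ _ _).symm
    rw [sum_congr rfl fun Ψ _ => h6 Ψ, ← add_sum_erase _ _ (mem_univ (1 : I → AddChar G ℂ)), hA2]
    congr 1
    have h7 : ∏ i, (1 : I → AddChar G ℂ) i (-g i) = 1 := prod_eq_one fun i _ => AddChar.one_apply _
    rw [h7, one_mul]
  have hrest : ‖∑ Ψ ∈ (univ : Finset (I → AddChar G ℂ)).erase 1,
      (∏ i, Ψ i (-g i)) * ∑ S ∈ Sx ι X, ∏ q ∈ S, CP_f a Ψ q‖ ≤ n * (c / (2 * n) * Y) := by
    refine (norm_sum_le _ _).trans ?_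
    have h5 : ∀ Ψ ∈ (univ : Finset (I → AddChar G ℂ)).erase 1,
        ‖(∏ i, Ψ i (-g i)) * ∑ S ∈ Sx ι X, ∏ q ∈ S, CP_f a Ψ q‖ ≤ c / (2 * n) * Y := by
      intro Ψ hΨ
      have h6 : ‖∏ i, Ψ i (-g i)‖ = 1 := by
        rw [norm_prod]
        exact prod_eq_one fun i _ => AddChar.norm_apply _ _
      rw [norm_mul, h6, one_mul, hY]
      exact h3 Ψ X (hX2 Ψ) (mem_erase.1 hΨ).1
    refine (sum_le_sum h5).trans ?_
    rw [sum_const, nsmul_eq_mul]
    have h7 : ((univ : Finset (I → AddChar G ℂ)).erase 1).card ≤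
        Fintype.card (I → AddChar G ℂ) := card_le_card (erase_subset _ _)
    have h8 : (((univ : Finset (I → AddChar G ℂ)).erase 1).card : ℝ) ≤ n := by
      rw [hn]
      have : (((univ : Finset (I → AddChar G ℂ)).erase 1).card : ℝ) ≤
        (Fintype.card (I → AddChar G ℂ) : ℝ) := by exact_mod_cast h7
      linarith
    have h9 : 0 ≤ Y := by
      rw [hY]
      exact Yh_nonneg _ _
    exact mul_le_mul_of_nonneg_right h8 (by positivity)
  have hfin : A ≤ N * B + n * (c / (2 * n) * Y) := by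
    have h5 : ‖(A : ℂ)‖ ≤ ‖((N * B : ℝ) : ℂ)‖ + n * (c / (2 * n) * Y) := by
      have h7 : (A : ℂ) = ((N * B : ℝ) : ℂ) - ∑ Ψ ∈ (univ : Finset (I → AddChar G ℂ)).erase 1,
          (∏ i, Ψ i (-g i)) * ∑ S ∈ Sx ι X, ∏ q ∈ S, CP_f a Ψ q := by
        rw [e]
        ring
      rw [h7]
      refine (norm_sub_le _ _).trans ?_
      linarith
    have hA0 : 0 ≤ A := by
      rw [hA]
      exact Nat.cast_nonneg _
    have hB0 : 0 ≤ N * B := by
      rw [hB]
      exact mul_nonneg hN0.le (Nat.cast_nonneg _)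
    rw [Complex.norm_real, Complex.norm_real, Real.norm_of_nonneg hA0, Real.norm_of_nonneg hB0] at h5
    exact h5
  have h10 : n * (c / (2 * n) * Y) = c * Y / 2 := by
    field_simp
  rw [h10] at hfin
  rw [← hA, ← hB]
  have h11 : A ≤ 2 * (N * B) := by linarith
  rw [div_mul_eq_mul_div, one_mul, div_le_iff₀ (by positivity)]
  linarith

/-- **The classes of the colourings have a positive proportion.** -/
theorem covPos3M (n r : ℕ) : CovPos3 (c9 n) (Fin r) :=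
  covPos3_of ⟨_, cheb3.choose_spec⟩ ⟨_, zt3.choose_spec⟩ (fun ψ hψ => mz9 ψ hψ)
    fun _ => BX_ge (Fin r)

end

end Pool.Agent.Lib.MP_1a91b9_ntMC
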