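import Pool.Agent.Lib.MP_1a91b9_ntMC.J3

/-!
# MP_1a91b9_nt (all the multicubic fields): the joint law for the colourings
-/

set_option autoImplicit false
set_option linter.unusedSectionVars false

namespace Pool.Agent.Lib.MP_1a91b9_ntMC

open NumberField Finset Pool.Agent.Lib.MP_1a91b9_ntT Pool.Agent.Lib.MP_1a91b9_ntK
  Pool.Agent.Lib.MP_1a91b9_ntK.Da Pool.Agent.Lib.MP_1a91b9_ntK2 Pool.Agent.Lib.MP_1a91b9_ntK2.D9
  Pool.Agent.Lib.MP_1a91b9_ntN Pool.Agent.Lib.MP_1a91b9_ntN.H Pool.Agent.Lib.MP_1a91b9_ntZ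
  Pool.Agent.Lib.MP_1a91b9_ntCC
open Pool.Agent.Lib.MP_1a91b9_ntH (PS nm Sx mem_Sx)
open Pool.Agent.Lib.MP_1a91b9_ntS3.G (G9 c9 dich3_9)
open Pool.Agent.Lib.MP_1a91b9_ntS3.DG (Dich3)
open Pool.Agent.Lib.MP_1a91b9_ntMN (Yh)

noncomputable section

/-! ### The vectors up to the sign -/

theorem mem_Rp {r : ℕ} {χ : Fin r → ZMod 3} : χ ∈ Rp r ↔ ∃ i, χ i = 1 ∧ ∀ j, j < i → χ j = 0 := by
  classical
  unfold Rp
  rw [mem_filter]
  exact ⟨fun h => h.2, fun h => ⟨mem_univ _, h⟩⟩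

theorem Rp_ne {r : ℕ} {χ : Fin r → ZMod 3} (h : χ ∈ Rp r) : χ ≠ 0 := by
  obtain ⟨i, h1, _⟩ := mem_Rp.1 h
  intro h2
  rw [h2] at h1
  have h3 : (0 : ZMod 3) = 1 := h1
  exact absurd h3 (by decide)

theorem Rp_neg {r : ℕ} {χ χ' : Fin r → ZMod 3} (h : χ ∈ Rp r) (h' : χ' ∈ Rp r) : χ ≠ -χ' := by
  obtain ⟨i, h1, h2⟩ := mem_Rp.1 h
  obtain ⟨i', h1', h2'⟩ := mem_Rp.1 h'
  intro he
  have hz : ∀ j, χ j = -χ' j := fun j => by
    rw [he]
    rfl
  rcases lt_trichotomy i i' with hl | hl | hl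
  · have h3 := hz i
    rw [h1, h2' i hl] at h3
    exact absurd h3 (by decide)
  · subst hl
    have h3 := hz i
    rw [h1, h1'] at h3
    exact absurd h3 (by decide)
  · have h3 := hz i'
    rw [h2 i' hl, h1'] at h3
    exact absurd h3 (by decide)

/-! ### The decomposition into the fine classes -/

section Dec

variable {I A : Type} [Fintype I] [DecidableEq I] [Fintype A] [DecidableEq A] {ι : Type} [DecidableEq ι]
  {κ : Type} [Fintype κ] [DecidableEq κ]

open Classical in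
theorem card_NR_fine (D : Dt ι κ) (Z : ℕ → Finset (Finset ι)) (phi : A → I → ZMod 3) {G : Type}
    [AddCommGroup G] (cl : ι → G) (g : I → G) (Q : Cb ι I → Prop) (X : ℕ) :
    ∑ γ : I → κ → ZMod 3, ((NR phi (ClM cl g (SGM D Z γ X))).filter Q).card =
      ((NR phi (ClM cl g (BX I Z X))).filter Q).card := by
  obtain ⟨fc, hfc⟩ : ∃ fc : Cb ι I → I → κ → ZMod 3, fc = fun b i j => ∑ q ∈ b.1, cz b q i * D.a q j :=
    ⟨_, rfl⟩
  rw [card_eq_sum_card_fiberwise (f := fc) (t := univ) fun _ _ => mem_coe.2 (mem_univ _)]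
  refine sum_congr rfl fun γ _ => congrArg card ?_
  ext b
  rw [mem_filter, mem_filter, mem_filter, mem_NR, mem_NR, mem_ClM, mem_ClM, mem_SGM, mem_BX]
  have h1 : fc b = γ ↔ ∀ i j, ∑ q ∈ b.1, cz b q i * D.a q j = γ i j := by
    rw [hfc]
    constructor
    · intro h i j
      exact congrFun (congrFun h i) j
    · intro h
      funext i j
      exact h i j
  rw [h1]
  tauto

open Classical in
theorem covL3_of [PS ι] {G : Type} [AddCommGroup G] (cl : ι → G) (B : Finset ι) (c : ℝ) (Q : Cb ι I → Prop)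
    (h : ∀ (g : I → G) (ε : ℝ), 0 < ε → ∃ X₀ : ℕ, ∀ X : ℕ, X₀ ≤ X →
      c * ((ClM cl g (BX I (SxT B) X)).card : ℝ) - ε * ((BX I (SxT (∅ : Finset ι)) X).card : ℝ) ≤
        (((ClM cl g (BX I (SxT B) X)).filter Q).card : ℝ)) : CovL3 cl I B c Q := by
  intro g ε hε
  obtain ⟨X₀, h0⟩ := h g ε hε
  refine ⟨X₀, fun X hX => ?_⟩
  have h1 := h0 X hX
  have e1 : ((BX I (SxT B) X).filter fun b => ∀ i, clb cl b i = g i) = ClM cl g (BX I (SxT B) X) := by
    ext b
    rw [mem_filter, mem_ClM]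
  have e2 : ((BX I (SxT B) X).filter fun b => (∀ i, clb cl b i = g i) ∧ Q b) =
      (ClM cl g (BX I (SxT B) X)).filter Q := by
    ext b
    rw [mem_filter, mem_filter, mem_ClM, and_assoc]
  rw [e1, e2]
  exact h1

end Dec

open Classical in
/-- **The joint law for the colourings.** -/
theorem jm3 : JM3 := by
  intro n r k N _ ty kk jj P T B hP hT hPT hinj t w hw0 hw1 hw
  rcases Nat.eq_zero_or_pos r with hr | hr
  · subst hr
    have h0 : Rp 0 = ∅ := by
      rw [eq_empty_iff_forall_notMem]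
      intro χ hχ
      obtain ⟨i, _⟩ := mem_Rp.1 hχ
      exact i.elim0
    have h1 : bn k t ((w * cinf3) ^ (N * (Rp 0).card)) = if t ≤ k then 1 else 0 := by
      rw [h0, card_empty, mul_zero, pow_zero]
      have h2 := bts_const (univ : Finset (Fin k)) t 1
      rw [card_univ, Fintype.card_fin] at h2
      rw [← h2]
      have h3 := bts_ind (fun _ : Fin k => True) univ t
      simp only [if_true, filter_true, card_univ, Fintype.card_fin] at h3
      exact h3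
    refine covL3_of _ _ _ _ fun g ε hε => ⟨0, fun X _ => ?_⟩
    rw [h1]
    have h2 : (0 : ℝ) ≤ ε * ((BX (Fin 0) (SxT (∅ : Finset P3)) X).card : ℝ) := by positivity
    split_ifs with ht
    · rw [one_mul]
      refine (sub_le_self _ h2).trans ?_
      have h3 : ClM (c9 n) g (BX (Fin 0) (SxT B) X) ⊆
          (ClM (c9 n) g (BX (Fin 0) (SxT B) X)).filter fun b =>
            Atl t fun i => ∀ χ ∈ Rp 0, ∀ l, GdT (ty i χ l) (kk i χ l) (jj i χ l)
              (Rv 1 χ b ∪ P i χ l) (Rv 2 χ b ∪ T i χ l) := by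
        intro b hb
        rw [mem_filter]
        refine ⟨hb, ?_⟩
        have h4 : Atl t fun _ : Fin k => True := by
          unfold Atl
          rw [filter_true, card_univ, Fintype.card_fin]
          exact ht
        refine h4.mono fun i _ χ hχ => ?_
        rw [h0] at hχ
        exact absurd hχ (notMem_empty _)
      exact_mod_cast card_le_card h3
    · rw [zero_mul, zero_sub]
      exact (neg_nonpos.2 h2).trans (Nat.cast_nonneg _)
  · have hne : Nonempty (Fin r) := ⟨⟨0, hr⟩⟩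
    obtain ⟨phi, hphi⟩ : ∃ phi : Fin k × (↥(Rp r) × Fin N) → Fin r → ZMod 3, phi = fun a => a.2.1.1 :=
      ⟨_, rfl⟩
    obtain ⟨Pa, hPa⟩ : ∃ Pa : Fin k × (↥(Rp r) × Fin N) → Finset P3, Pa = fun a => P a.1 a.2.1.1 a.2.2 :=
      ⟨_, rfl⟩
    obtain ⟨Ta, hTa⟩ : ∃ Ta : Fin k × (↥(Rp r) × Fin N) → Finset P3, Ta = fun a => T a.1 a.2.1.1 a.2.2 :=
      ⟨_, rfl⟩
    obtain ⟨ka, hka⟩ : ∃ ka : Fin k × (↥(Rp r) × Fin N) → Fin 3, ka = fun a => kk a.1 a.2.1.1 a.2.2 :=
      ⟨_, rfl⟩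
    obtain ⟨ja, hja⟩ : ∃ ja : Fin k × (↥(Rp r) × Fin N) → Fin 3, ja = fun a => jj a.1 a.2.1.1 a.2.2 :=
      ⟨_, rfl⟩
    obtain ⟨tya, htya⟩ : ∃ tya : Fin k × (↥(Rp r) × Fin N) → Fin 3, tya = fun a => ty a.1 a.2.1.1 a.2.2 :=
      ⟨_, rfl⟩
    have hPa' : ∀ a, Pa a ⊆ B := fun a => by rw [hPa]; exact hP _ _ _
    have hTa' : ∀ a, Ta a ⊆ B := fun a => by rw [hTa]; exact hT _ _ _
    have hPTa : ∀ a, Disjoint (Pa a) (Ta a) := fun a => by rw [hPa, hTa]; exact hPT _ _ _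
    have hs : Sp3 phi fun a => cO (ka a) (ja a) (Pa a) (Ta a) B := by
      refine ⟨fun a => ?_, fun a b => ?_, fun a b hab hph hc => hab ?_⟩
      · rw [hphi]
        exact Rp_ne a.2.1.2
      · rw [hphi]
        exact Rp_neg a.2.1.2 b.2.1.2
      · obtain ⟨h1, h2, h3, h4⟩ := cJ_inj (hPa' a) (hTa' a) (hPa' b) (hTa' b) (hPTa a) (hPTa b) hc
        obtain ⟨a1, a2, a3⟩ := a
        obtain ⟨b1, b2, b3⟩ := b
        have h5 : a2 = b2 := by
          rw [hphi] at hph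
          exact Subtype.ext hph
        subst h5
        rw [hka] at h1
        rw [hja] at h2
        rw [hPa] at h3
        rw [hTa] at h4
        have h6 := hinj a2.1 a2.2 (a₁ := (a1, a3)) (a₂ := (b1, b3)) (by
          show (kk a1 a2.1 a3, jj a1 a2.1 a3, P a1 a2.1 a3, T a1 a2.1 a3) =
            (kk b1 a2.1 b3, jj b1 a2.1 b3, P b1 a2.1 b3, T b1 a2.1 b3)
          rw [show kk a1 a2.1 a3 = kk b1 a2.1 b3 from h1, show jj a1 a2.1 a3 = jj b1 a2.1 b3 from h2,
            show P a1 a2.1 a3 = P b1 a2.1 b3 from h3, show T a1 a2.1 a3 = T b1 a2.1 b3 from h4])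
        rw [Prod.mk.injEq] at h6
        rw [h6.1, h6.2]
    have hcQ : N * (Rp r).card = Fintype.card (↥(Rp r) × Fin N) := by
      rw [Fintype.card_prod, Fintype.card_coe, Fintype.card_fin, mul_comm]
    obtain ⟨v, hv⟩ : ∃ v : ℝ, v = bn k t ((w * cinf3) ^ Fintype.card (↥(Rp r) × Fin N)) := ⟨_, rfl⟩
    rw [hcQ, ← hv]
    refine covL3_of _ _ _ _ fun g ε hε => ?_
    obtain ⟨c, hc, X1, hX1⟩ := BX_ge (Fin r)
    have hM : (0 : ℝ) < Fintype.card (Fin r → Bool ⊕ B → ZMod 3) := by exact_mod_cast Fintype.card_pos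
    obtain ⟨Qp, hQp⟩ : ∃ Qp : Cb P3 (Fin r) → Prop, Qp = fun b => Atl t fun i => ∀ q,
        GdT (tya (i, q)) (ka (i, q)) (ja (i, q)) (Rv 1 (phi (i, q)) b ∪ Pa (i, q))
          (Rv 2 (phi (i, q)) b ∪ Ta (i, q)) := ⟨_, rfl⟩
    choose X2 hX2 using fun γ : Fin r → Bool ⊕ B → ZMod 3 =>
      gd_fineQ n phi tya ka ja Pa Ta hPa' hTa' hPTa hs γ g t hw0 hw1
        (fun a ha => hw a.1 a.2.1.1 a.2.2 (by rw [htya] at ha; exact ha))
        (κ₀ := v - ε / 3) (by linarith)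
        (c * ε / (3 * Fintype.card (Fin r → Bool ⊕ B → ZMod 3))) (by positivity)
    obtain ⟨X3, hX3⟩ := rareM_off (phi := phi) d3b_OK card_P3 B hs
      (fun a => PO (Pa a) (Ta a) B none) (fun a => RO (ka a) (ja a) (Pa a) (Ta a) B 0 none)
      (fun _ => 0)
      (fun X => ClM (c9 n) g (BX (Fin r) (SxT B) X)) (fun X b hb => (mem_ClM.1 hb).1)
      (fun _ => 1) (fun b => zero_le_one)
      (fun b => by
        rw [kPM]
        simp only [pow_zero, prod_const_one, Nat.cast_one, le_refl]) (c * ε / (3 * (|v| + 1)))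
      (by positivity)
    refine ⟨X1 + ∑ γ, X2 γ + X3, fun X hX => ?_⟩
    have hXt : ∀ γ, X2 γ ≤ X := fun γ => by
      have h1 : X2 γ ≤ ∑ γ, X2 γ := single_le_sum (fun _ _ => Nat.zero_le _) (mem_univ γ)
      omega
    have e1 := hX1 X (by omega)
    have e3' := hX3 X (by omega)
    simp only [sum_const, nsmul_eq_mul, mul_one] at e3'
    obtain ⟨y, hy⟩ : ∃ y : ℝ, y = Yh (hN (Fin r)) X := ⟨_, rfl⟩
    obtain ⟨b0, hb0⟩ : ∃ b0 : ℝ, b0 = ((BX (Fin r) (SxT (∅ : Finset P3)) X).card : ℝ) := ⟨_, rfl⟩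
    obtain ⟨nr, hnr⟩ : ∃ nr : ℝ, nr = ((NR phi (ClM (c9 n) g (BX (Fin r) (SxT B) X))).card : ℝ) :=
      ⟨_, rfl⟩
    obtain ⟨fu, hfu⟩ : ∃ fu : ℝ, fu = ((ClM (c9 n) g (BX (Fin r) (SxT B) X)).card : ℝ) := ⟨_, rfl⟩
    rw [← hy, ← hb0] at e1
    rw [← hy, ← hnr, ← hfu] at e3'
    have hy0 : 0 ≤ y := by
      rw [hy]
      exact Pool.Agent.Lib.MP_1a91b9_ntMN.Yh_nonneg _ _
    have e2 : (v - ε / 3) * nr - c * ε / 3 * y ≤
        (((NR phi (ClM (c9 n) g (BX (Fin r) (SxT B) X))).filter Qp).card : ℝ) := by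
      have h1 : ∑ γ : Fin r → Bool ⊕ B → ZMod 3,
          ((v - ε / 3) * ((NR phi (ClM (c9 n) g (SGM (dtB d3b B) (SxT B) γ X))).card : ℝ) -
            c * ε / (3 * Fintype.card (Fin r → Bool ⊕ B → ZMod 3)) * y) ≤
          ∑ γ : Fin r → Bool ⊕ B → ZMod 3,
            (((NR phi (ClM (c9 n) g (SGM (dtB d3b B) (SxT B) γ X))).filter Qp).card : ℝ) := by
        refine sum_le_sum fun γ _ => ?_
        rw [hy, hQp]
        exact hX2 γ X (hXt γ)
      rw [sum_sub_distrib, sum_const, nsmul_eq_mul, card_univ, ← mul_sum, ← Nat.cast_sum,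
        ← Nat.cast_sum, card_NR_fine] at h1
      have h2 := card_NR_fine (dtB d3b B) (SxT B) phi (c9 n) g (fun _ => True) X
      simp only [filter_true] at h2
      rw [h2, ← hnr] at h1
      have h3 : (Fintype.card (Fin r → Bool ⊕ B → ZMod 3) : ℝ) *
          (c * ε / (3 * Fintype.card (Fin r → Bool ⊕ B → ZMod 3)) * y) = c * ε / 3 * y := by
        field_simp
      linarith
    have e5 : nr ≤ b0 := by
      rw [hnr, hb0]
      have h1 : NR phi (ClM (c9 n) g (BX (Fin r) (SxT B) X)) ⊆ BX (Fin r) (SxT (∅ : Finset P3)) X := by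
        intro b hb
        rw [mem_NR, mem_ClM, mem_BX, mem_SxT] at hb
        rw [mem_BX, mem_SxT]
        exact ⟨hb.1.1.1, disjoint_empty_right _⟩
      exact_mod_cast card_le_card h1
    have e6 : v * fu ≤ v * nr + c * ε / 3 * y := by
      have h1 : |v * (fu - nr)| ≤ |v| * (c * ε / (3 * (|v| + 1)) * y) := by
        rw [abs_mul]
        exact mul_le_mul_of_nonneg_left e3' (abs_nonneg _)
      have h2 : |v| * (c * ε / (3 * (|v| + 1)) * y) ≤ c * ε / 3 * y := by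
        rw [← mul_assoc]
        refine mul_le_mul_of_nonneg_right ?_ hy0
        rw [mul_div_assoc', div_le_div_iff₀ (by positivity) (by positivity)]
        have h4 : 0 ≤ |v| := abs_nonneg v
        have h5 : 0 < c * ε := by positivity
        nlinarith
      have h3 := (abs_le.1 (h1.trans h2)).2
      linarith
    refine le_trans ?_ (e2.trans ?_)
    swap
    · refine Nat.cast_le.2 (card_le_card fun b hb => ?_)
      rw [mem_filter, mem_NR] at hb
      rw [mem_filter]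
      refine ⟨hb.1.1, ?_⟩
      have h2 := hb.2
      rw [hQp] at h2
      refine h2.mono fun i hi χ hχ l => ?_
      have h3 := hi (⟨χ, hχ⟩, l)
      rw [htya, hka, hja, hphi, hPa, hTa] at h3
      exact h3
    rw [← hfu, ← hb0]
    have h8 : c * ε / 3 * y ≤ ε / 3 * b0 := by
      have h9 : ε / 3 * (c * y) ≤ ε / 3 * b0 := mul_le_mul_of_nonneg_left e1 (by positivity)
      linarith
    have h10 : ε / 3 * nr ≤ ε / 3 * b0 := mul_le_mul_of_nonneg_left e5 (by positivity)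
    linarith

end

end Pool.Agent.Lib.MP_1a91b9_ntMC
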