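import Pool.Agent.Lib.MP_1a91b9_ntMC.A7
import Pool.Agent.Lib.MP_1a91b9_ntMC.J4
import Pool.Agent.Lib.MP_1a91b9_ntMC.CP

/-!
# MP_1a91b9_nt (random (Z/3)^r-extensions): the law, final form
-/

set_option autoImplicit false

namespace Pool.Agent.Lib.MP_1a91b9_ntMC.Fin

open NumberField WeierstrassCurve

noncomputable section

open Classical in
/-- **The law.** -/
theorem fin_den3 (K : Type) [Field K]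
    [NumberField K] (hK : Module.finrank ℚ K = 2)
    (h3 : ∃ s : K, s ^ 2 = -3) (E : WeierstrassCurve K)
    (hE : E.a₁ = 0 ∧ E.a₂ = 0 ∧ E.a₄ = 0 ∧ E.a₆ = 0) (hΔ : E.Δ ≠ 0)
    (F : Type) [Field F] [NumberField F] [Algebra K F]
    (hF : IntermediateField.adjoin K {x : F | ∃ c : K, x ^ 3 = algebraMap K F c} = ⊤) (r : ℕ)
    (T : Set (Fin r → 𝓞 K)) (h0 : ∀ δ ∈ T, ∀ i, δ i ≠ 0)
    (hT : ∀ δ ∈ T, ∀ δ' ∈ T, δ ≠ δ' → ∀ χ : Fin r → Fin 3, χ ≠ 0 →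
      ∀ e ∈ ({1, E.a₃, E.a₃ ^ 2} : Set K), ∀ x : F, x ≠ 0 →
      x ^ 3 * algebraMap K F ((∏ i, δ' i ^ (χ i : ℕ) : 𝓞 K) : K) ≠
        algebraMap K F (e * ((∏ i, δ i ^ (χ i : ℕ) : 𝓞 K) : K)))
    (n : ℕ) (m : 𝓞 K) (u : Fin r → 𝓞 K) (hm : m ∣ 3 ^ n)
    (hu : ∀ i p, Prime p → ¬ (p ^ 3 ∣ m ∧ p ^ 3 ∣ u i)) (c : ℝ)
    (hc : c = ∏' i : ℕ, (1 + 1 / (3 : ℝ) ^ (i + 1))⁻¹) (t : ℕ) (v : ℝ)
    (hv : v = if T.Infinite then 1 else ∑ j ∈ Finset.Icc t T.ncard, (T.ncard.choose j : ℝ) *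
      (c ^ ((3 ^ r - 1) * Module.finrank K F)) ^ j *
        (1 - c ^ ((3 ^ r - 1) * Module.finrank K F)) ^ (T.ncard - j))
    (ε : ℝ) (hε : 0 < ε) :
    ∀ᶠ X : ℝ in Filter.atTop, v - ε ≤
      (Nat.card {d : Fin r → 𝓞 K // (∀ i, (∀ x, x ^ 3 ∣ d i → IsUnit x) ∧ m ∣ d i - u i) ∧
        (∃ A, A ≠ 0 ∧ |Algebra.norm ℤ A| ≤ X ∧ ∀ i, d i ∣ A ^ 2) ∧
        t ≤ {δ ∈ T | PropM E F (fun i => ((δ i * d i : 𝓞 K) : K))}.encard} : ℝ) /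
        (Nat.card {d : Fin r → 𝓞 K // (∀ i, (∀ x, x ^ 3 ∣ d i → IsUnit x) ∧ m ∣ d i - u i) ∧
          ∃ A, A ≠ 0 ∧ |Algebra.norm ℤ A| ≤ X ∧ ∀ i, d i ∣ A ^ 2} : ℝ) :=
  fin_den3J jm3 covPos3M K hK h3 E hE hΔ F hF r T h0 hT n m u hm hu c hc t v hv ε hε

end

end Pool.Agent.Lib.MP_1a91b9_ntMC.Fin
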