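import Pool.Agent.Lib.MP_1a91b9_ntMC.A0

/-!
# MP_1a91b9_nt (random (Z/3)^r-extensions), block A2: the fields `N = F(∛e_1, .., ∛e_r)`
-/

set_option autoImplicit false
set_option linter.unusedSectionVars false

namespace Pool.Agent.Lib.MP_1a91b9_ntMC

open NumberField

noncomputable section

/-! ### Third roots of unity -/

section Root

/-- The powers of an element of order three. -/
def wp {R : Type} [Monoid R] (w : R) (t : ZMod 3) : R := w ^ t.val

theorem wp_zero {R : Type} [Monoid R] (w : R) : wp w 0 = 1 := pow_zero w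

theorem wp_one {R : Type} [Monoid R] (w : R) : wp w 1 = w := pow_one w

theorem wp_add {R : Type} [Monoid R] {w : R} (hw : w ^ 3 = 1) (s t : ZMod 3) :
    wp w (s + t) = wp w s * wp w t := by
  unfold wp
  rw [ZMod.val_add, ← pow_add, ← pow_eq_pow_mod _ hw]

theorem wp_sum_all {R : Type} [Semiring R] (w : R) : ∑ t : ZMod 3, wp w t = 1 + w + w ^ 2 := by
  have e : (Finset.univ : Finset (ZMod 3)) = {0, 1, 2} := by decide
  rw [e, Finset.sum_insert (by decide), Finset.sum_insert (by decide), Finset.sum_singleton]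
  unfold wp
  have h1 : (1 : ZMod 3).val = 1 := rfl
  have h2 : (2 : ZMod 3).val = 2 := rfl
  rw [ZMod.val_zero, h1, h2, pow_zero, pow_one, add_assoc]

theorem w3_of {R : Type} [Ring R] {w : R} (hw : 1 + w + w ^ 2 = 0) : w ^ 3 = 1 := by
  have h : w ^ 3 - 1 = (w - 1) * (1 + w + w ^ 2) := by noncomm_ring
  rw [hw, mul_zero] at h
  exact sub_eq_zero.1 h

/-- **Orthogonality.** -/
theorem sum_wp_dot {R : Type} [Ring R] {w : R} (hw : 1 + w + w ^ 2 = 0) {r : ℕ} (c : Fin r → ZMod 3) :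
    ∑ ω : Fin r → ZMod 3, wp w (-(ω ⬝ᵥ c)) = if c = 0 then 3 ^ r else 0 := by
  split_ifs with h
  · subst h
    simp only [dotProduct_zero, neg_zero, wp_zero, Finset.sum_const, Finset.card_univ, Fintype.card_fun,
      ZMod.card, Fintype.card_fin, nsmul_eq_mul, mul_one]
    push_cast
    rfl
  · obtain ⟨i, hi⟩ := Function.ne_iff.1 h
    have hi' : c i ≠ 0 := hi
    have hcard : ∀ v : ZMod 3, ((Finset.univ : Finset (Fin r → ZMod 3)).filter fun ω => -(ω ⬝ᵥ c) = v).card =
        ((Finset.univ : Finset (Fin r → ZMod 3)).filter fun ω => -(ω ⬝ᵥ c) = 0).card := by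
      intro v
      refine Finset.card_bij' (fun ω _ => ω + Pi.single i (v * (c i)⁻¹))
        (fun ω _ => ω - Pi.single i (v * (c i)⁻¹)) ?_ ?_ ?_ ?_
      · intro ω hω
        rw [Finset.mem_filter] at hω ⊢
        refine ⟨Finset.mem_univ _, ?_⟩
        rw [add_dotProduct, single_dotProduct, mul_assoc, inv_mul_cancel₀ hi', mul_one, neg_add, hω.2,
          add_neg_cancel]
      · intro ω hω
        rw [Finset.mem_filter] at hω ⊢
        refine ⟨Finset.mem_univ _, ?_⟩
        rw [sub_dotProduct, single_dotProduct, mul_assoc, inv_mul_cancel₀ hi', mul_one, neg_sub,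
          sub_eq_add_neg, hω.2, add_zero]
      · intro ω _
        exact add_sub_cancel_right _ _
      · intro ω _
        exact sub_add_cancel _ _
    have h1 : ∑ ω : Fin r → ZMod 3, wp w (-(ω ⬝ᵥ c)) =
        ∑ v : ZMod 3, ((Finset.univ : Finset (Fin r → ZMod 3)).filter fun ω => -(ω ⬝ᵥ c) = v).card •
          wp w v := by
      rw [← Finset.sum_fiberwise (Finset.univ : Finset (Fin r → ZMod 3)) (fun ω => -(ω ⬝ᵥ c))
        fun ω => wp w (-(ω ⬝ᵥ c))]
      refine Finset.sum_congr rfl fun v _ => ?_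
      rw [← Finset.sum_const]
      exact Finset.sum_congr rfl fun ω hω => by rw [(Finset.mem_filter.1 hω).2]
    rw [h1, Finset.sum_congr rfl fun v _ => by rw [hcard v], ← Finset.smul_sum, wp_sum_all, hw, smul_zero]

theorem one_of_prim {L : Type} [Field L] {w : L} (hw : IsPrimitiveRoot w 3) : 1 + w + w ^ 2 = 0 := by
  have hw3 : w ^ 3 = 1 := hw.pow_eq_one
  have hw1 : w ≠ 1 := hw.ne_one (by norm_num)
  have h3 : (w - 1) * (1 + w + w ^ 2) = 0 := by linear_combination hw3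
  exact (mul_eq_zero.1 h3).resolve_left (sub_ne_zero.2 hw1)

/-- The third roots of unity are different. -/
theorem wp_inj {L : Type} [Field L] [CharZero L] {w : L} (hw : 1 + w + w ^ 2 = 0) {s t : ZMod 3}
    (h : wp w s = wp w t) : s = t := by
  have hw3 := w3_of hw
  have h1 : wp w (s - t) = 1 := by
    have h2 : wp w (s - t) * wp w t = wp w t := by rw [← wp_add hw3, sub_add_cancel, h]
    have h3 : wp w t ≠ 0 := by
      intro h0
      have h4 := wp_add hw3 t (-t)
      rw [h0, zero_mul, add_neg_cancel, wp_zero] at h4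
      exact one_ne_zero h4
    exact (mul_eq_right₀ h3).1 h2
  have hw1 : w ≠ 1 := by
    rintro rfl
    have h3 : (3 : L) = 0 := by linear_combination hw
    exact three_ne_zero h3
  have h2 : ∀ u : ZMod 3, wp w u = 1 → u = 0 := by
    intro u hu
    have h3 : ∀ u : ZMod 3, u = 0 ∨ u = 1 ∨ u = 2 := by decide
    rcases h3 u with rfl | rfl | rfl
    · rfl
    · rw [wp_one] at hu
      exact absurd hu hw1
    · exfalso
      have h4 : w ^ 2 = 1 := hu
      apply hw1
      have h5 : w ^ 3 = w := by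
        rw [pow_succ, h4, one_mul]
      rw [← h5, hw3]
  exact sub_eq_zero.1 (h2 _ h1)

theorem wp_ne {L : Type} [Field L] [CharZero L] {w : L} (hw : 1 + w + w ^ 2 = 0) (t : ZMod 3) :
    wp w t ≠ 0 := by
  intro h0
  have h4 := wp_add (w3_of hw) t (-t)
  rw [h0, zero_mul, add_neg_cancel, wp_zero] at h4
  exact one_ne_zero h4

/-- The third roots of a third power. -/
theorem cube_eq {L : Type} [Field L] {w : L} (hw : 1 + w + w ^ 2 = 0) {y z : L} (h : y ^ 3 = z ^ 3) :
    ∃ t : ZMod 3, y = wp w t * z := by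
  have hw3 := w3_of hw
  have h1 : (y - z) * ((y - w * z) * (y - w ^ 2 * z)) = 0 := by
    linear_combination h + (-y ^ 2 * z + y * z ^ 2) * hw + (y * z ^ 2 - z ^ 3) * hw3
  rcases mul_eq_zero.1 h1 with h2 | h2
  · exact ⟨0, by rw [wp_zero, one_mul]; exact sub_eq_zero.1 h2⟩
  · rcases mul_eq_zero.1 h2 with h3 | h3
    · exact ⟨1, by rw [wp_one]; exact sub_eq_zero.1 h3⟩
    · exact ⟨2, sub_eq_zero.1 h3⟩

theorem wp_pow3 {R : Type} [CommMonoid R] {w : R} (hw : w ^ 3 = 1) (t : ZMod 3) : wp w t ^ 3 = 1 := by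
  unfold wp
  rw [← pow_mul, mul_comm, pow_mul, hw, one_pow]

end Root

/-- `N = F(x_1, .., x_r)`, `x_i ^ 3 = e_i`. -/
structure MCx {F N : Type} [Field F] [Field N] [Algebra F N] {r : ℕ} (e : Fin r → F)
    (x : Fin r → N) : Prop where
  cu : ∀ i, x i ^ 3 = algebraMap F N (e i)
  gen : IntermediateField.adjoin F (Set.range x) = ⊤

/-! ### The Galois group -/

section Gal

variable {F N : Type} [Field F] [NumberField F] [Field N] [NumberField N] [Algebra F N] {w : F}
  {r : ℕ} {e : Fin r → F} {x : Fin r → N}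

theorem MCx.x_ne (h : MCx e x) (he : ∀ i, e i ≠ 0) (i : Fin r) : x i ≠ 0 := by
  intro h0
  have h1 := h.cu i
  rw [h0, zero_pow three_ne_zero] at h1
  exact he i ((map_eq_zero (algebraMap F N)).1 h1.symm)

theorem wN_one (hw : IsPrimitiveRoot w 3) :
    1 + algebraMap F N w + algebraMap F N w ^ 2 = 0 := by
  rw [← map_pow, ← map_one (algebraMap F N), ← map_add, ← map_add, one_of_prim hw, map_zero]

theorem map_wp (t : ZMod 3) : algebraMap F N (wp w t) = wp (algebraMap F N w) t := by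
  unfold wp
  rw [map_pow]

theorem MCx.galois (hw : IsPrimitiveRoot w 3) (h : MCx e x) : IsGalois F N := by
  have hwN := wN_one (N := N) hw
  have hw3 := w3_of hwN
  have hn : Normal F N := by
    refine normal_iff.2 fun z => ⟨Algebra.IsIntegral.isIntegral z, ?_⟩
    have hz : z ∈ IntermediateField.adjoin F (Set.range x) := by
      rw [h.gen]
      exact IntermediateField.mem_top
    refine IntermediateField.splits_of_mem_adjoin F N (S := Set.range x) ?_ hz
    rintro _ ⟨i, rfl⟩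
    refine ⟨Algebra.IsIntegral.isIntegral _, ?_⟩
    have hd : minpoly F (x i) ∣ Polynomial.X ^ 3 - Polynomial.C (e i) := by
      refine minpoly.dvd F (x i) ?_
      rw [map_sub, map_pow, Polynomial.aeval_X, Polynomial.aeval_C, h.cu i, sub_self]
    have hee : (Polynomial.X ^ 3 - Polynomial.C (e i)).map (algebraMap F N) =
        (Polynomial.X - Polynomial.C (x i)) *
          ((Polynomial.X - Polynomial.C (algebraMap F N w * x i)) *
            (Polynomial.X - Polynomial.C (algebraMap F N w ^ 2 * x i))) := by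
      rw [Polynomial.map_sub, Polynomial.map_pow, Polynomial.map_X, Polynomial.map_C, ← h.cu i]
      simp only [map_mul, map_pow]
      have h1 : 1 + Polynomial.C (algebraMap F N w) + Polynomial.C (algebraMap F N w) ^ 2 = 0 := by
        rw [← map_pow, ← map_one Polynomial.C, ← map_add, ← map_add, hwN, map_zero]
      have h3 : Polynomial.C (algebraMap F N w) ^ 3 = 1 := by
        rw [← map_pow, hw3, map_one]
      linear_combination (Polynomial.X ^ 2 * Polynomial.C (x i) -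
        Polynomial.X * Polynomial.C (x i) ^ 2) * h1 -
        (Polynomial.X * Polynomial.C (x i) ^ 2 - Polynomial.C (x i) ^ 3) * h3
    have hs : ((Polynomial.X ^ 3 - Polynomial.C (e i)).map (algebraMap F N)).Splits := by
      rw [hee]
      exact (Polynomial.Splits.X_sub_C _).mul
        ((Polynomial.Splits.X_sub_C _).mul (Polynomial.Splits.X_sub_C _))
    refine Polynomial.Splits.of_dvd hs ?_ (Polynomial.map_dvd _ hd)
    rw [hee]
    exact mul_ne_zero (Polynomial.X_sub_C_ne_zero _)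
      (mul_ne_zero (Polynomial.X_sub_C_ne_zero _) (Polynomial.X_sub_C_ne_zero _))
  exact { to_isSeparable := inferInstance, to_normal := hn }

open Classical in
/-- The exponents of an automorphism. -/
def cs (w : F) (x : Fin r → N) (σ : N ≃ₐ[F] N) (i : Fin r) : ZMod 3 :=
  if σ (x i) = x i then 0 else if σ (x i) = algebraMap F N w * x i then 1 else 2

theorem MCx.cs_spec (hw : IsPrimitiveRoot w 3) (h : MCx e x) (σ : N ≃ₐ[F] N) (i : Fin r) :
    σ (x i) = wp (algebraMap F N w) (cs w x σ i) * x i := by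
  obtain ⟨t, ht⟩ := cube_eq (wN_one (N := N) hw) (y := σ (x i)) (z := x i) (by
    rw [← map_pow, h.cu i, σ.commutes])
  unfold cs
  by_cases h0 : σ (x i) = x i
  · rw [if_pos h0, wp_zero, one_mul, h0]
  · rw [if_neg h0]
    by_cases h1 : σ (x i) = algebraMap F N w * x i
    · rw [if_pos h1, wp_one, h1]
    · rw [if_neg h1]
      have h3 : ∀ u : ZMod 3, u = 0 ∨ u = 1 ∨ u = 2 := by decide
      rcases h3 t with rfl | rfl | rfl
      · rw [wp_zero, one_mul] at ht
        exact absurd ht h0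
      · rw [wp_one] at ht
        exact absurd ht h1
      · exact ht

theorem act_w (σ : N ≃ₐ[F] N) (t : ZMod 3) :
    σ (wp (algebraMap F N w) t) = wp (algebraMap F N w) t := by
  rw [← map_wp, σ.commutes]

theorem MCx.cs_mul (hw : IsPrimitiveRoot w 3) (h : MCx e x) (he : ∀ i, e i ≠ 0) (σ τ : N ≃ₐ[F] N) :
    cs w x (σ * τ) = cs w x σ + cs w x τ := by
  funext i
  have hwN := wN_one (N := N) hw
  have h1 := h.cs_spec hw (σ * τ) i
  rw [AlgEquiv.mul_apply, h.cs_spec hw τ i, map_mul, act_w, h.cs_spec hw σ i, ← mul_assoc,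
    ← wp_add (w3_of hwN)] at h1
  have h2 := wp_inj hwN (mul_right_cancel₀ (h.x_ne he i) h1)
  rw [Pi.add_apply, ← h2, add_comm]

theorem MCx.ext_cs (hw : IsPrimitiveRoot w 3) (h : MCx e x) {σ τ : N ≃ₐ[F] N}
    (hh : cs w x σ = cs w x τ) : σ = τ := by
  refine AlgEquiv.ext fun z => ?_
  have hz : z ∈ IntermediateField.adjoin F (Set.range x) := by
    rw [h.gen]
    exact IntermediateField.mem_top
  induction hz using IntermediateField.adjoin_induction with
  | mem z hz =>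
    obtain ⟨i, rfl⟩ := hz
    rw [h.cs_spec hw σ i, h.cs_spec hw τ i, hh]
  | algebraMap c => rw [σ.commutes, τ.commutes]
  | add a b _ _ ha hb => rw [map_add, map_add, ha, hb]
  | inv a _ ha => rw [map_inv₀, map_inv₀, ha]
  | mul a b _ _ ha hb => rw [map_mul, map_mul, ha, hb]

theorem MCx.cs_one (hw : IsPrimitiveRoot w 3) (h : MCx e x) (he : ∀ i, e i ≠ 0) :
    cs w x (1 : N ≃ₐ[F] N) = 0 := by
  have h1 := h.cs_mul hw he 1 1
  rw [one_mul] at h1
  exact left_eq_add.1 h1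

/-- The action on a product. -/
theorem MCx.act_chp (hw : IsPrimitiveRoot w 3) (h : MCx e x) (σ : N ≃ₐ[F] N) (ω : Fin r → ZMod 3) :
    σ (chp ω x) = wp (algebraMap F N w) (ω ⬝ᵥ cs w x σ) * chp ω x := by
  have hw3 := w3_of (wN_one (N := N) hw)
  have h1 : ∀ (s : Finset (Fin r)) (f : Fin r → ZMod 3),
      wp (algebraMap F N w) (∑ i ∈ s, f i) = ∏ i ∈ s, wp (algebraMap F N w) (f i) := by
    intro s f
    induction s using Finset.induction_on with
    | empty => rw [Finset.sum_empty, Finset.prod_empty, wp_zero]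
    | insert a s ha ih => rw [Finset.sum_insert ha, Finset.prod_insert ha, wp_add hw3, ih]
  have h2 : ∀ s t : ZMod 3, wp (algebraMap F N w) (s * t) = wp (algebraMap F N w) t ^ s.val := by
    intro s t
    unfold wp
    rw [← pow_mul, ZMod.val_mul, ← pow_eq_pow_mod _ hw3, mul_comm]
  unfold chp dotProduct
  rw [map_prod, h1, ← Finset.prod_mul_distrib]
  refine Finset.prod_congr rfl fun i _ => ?_
  rw [map_pow, h.cs_spec hw σ i, mul_pow, h2]

/-- The projection to the part of the character `ω`. -/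
def prX {M : Type} [AddCommGroup M] (w : F) (x : Fin r → N) (μ : AddMonoid.End M)
    (S : (N ≃ₐ[F] N) → AddMonoid.End M) (ω : Fin r → ZMod 3) (P : M) : M :=
  ∑ σ : N ≃ₐ[F] N, wp μ (-(ω ⬝ᵥ cs w x σ)) (S σ P)

theorem MCx.sum_prX (hw : IsPrimitiveRoot w 3) (h : MCx e x) (he : ∀ i, e i ≠ 0) {M : Type}
    [AddCommGroup M] {μ : AddMonoid.End M} (hμ : 1 + μ + μ ^ 2 = 0)
    (S : (N ≃ₐ[F] N) → AddMonoid.End M) (h1 : S 1 = 1) (P : M) :
    ∑ ω : Fin r → ZMod 3, prX w x μ S ω P = 3 ^ r • P := by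
  classical
  unfold prX
  rw [Finset.sum_comm]
  have h2 : ∀ σ : N ≃ₐ[F] N, ∑ ω : Fin r → ZMod 3, wp μ (-(ω ⬝ᵥ cs w x σ)) (S σ P) =
      if σ = 1 then 3 ^ r • P else 0 := by
    intro σ
    have h3 : ∑ ω : Fin r → ZMod 3, wp μ (-(ω ⬝ᵥ cs w x σ)) (S σ P) =
        (∑ ω : Fin r → ZMod 3, wp μ (-(ω ⬝ᵥ cs w x σ))) (S σ P) :=
      (map_sum (AddMonoidHom.eval (S σ P) : AddMonoid.End M →+ M)
        (fun ω => wp μ (-(ω ⬝ᵥ cs w x σ))) Finset.univ).symm
    rw [h3, sum_wp_dot hμ]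
    by_cases hσ : σ = 1
    · rw [if_pos hσ, hσ, h.cs_one hw he, if_pos rfl, h1]
      show ((3 ^ r : AddMonoid.End M)) P = _
      have h4 : ((3 : AddMonoid.End M) ^ r) = ((3 ^ r : ℕ) : AddMonoid.End M) := by
        push_cast
        rfl
      rw [h4, AddMonoid.End.natCast_apply]
    · rw [if_neg hσ, if_neg fun h0 => hσ (h.ext_cs hw (by rw [h0, h.cs_one hw he]))]
      rfl
  rw [Finset.sum_congr rfl fun σ _ => h2 σ, Finset.sum_ite_eq' Finset.univ (1 : N ≃ₐ[F] N),
    if_pos (Finset.mem_univ _)]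

theorem MCx.act_prX (hw : IsPrimitiveRoot w 3) (h : MCx e x) (he : ∀ i, e i ≠ 0) {M : Type}
    [AddCommGroup M] {μ : AddMonoid.End M} (hμ : 1 + μ + μ ^ 2 = 0)
    (S : (N ≃ₐ[F] N) → AddMonoid.End M) (hm : ∀ σ τ, S (σ * τ) = S σ * S τ)
    (hc : ∀ σ, S σ * μ = μ * S σ) (ω : Fin r → ZMod 3) (τ : N ≃ₐ[F] N) (P : M) :
    S τ (prX w x μ S ω P) = wp μ (ω ⬝ᵥ cs w x τ) (prX w x μ S ω P) := by
  have hμ3 := w3_of hμ
  have hcw : ∀ (σ : N ≃ₐ[F] N) (t : ZMod 3), S σ * wp μ t = wp μ t * S σ := by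
    intro σ t
    exact ((show Commute (S σ) μ from hc σ).pow_right t.val).eq
  unfold prX
  rw [map_sum, map_sum]
  have h1 : ∀ σ : N ≃ₐ[F] N, S τ (wp μ (-(ω ⬝ᵥ cs w x σ)) (S σ P)) =
      wp μ (ω ⬝ᵥ cs w x τ) (wp μ (-(ω ⬝ᵥ cs w x (τ * σ))) (S (τ * σ) P)) := by
    intro σ
    have e1 : S τ (wp μ (-(ω ⬝ᵥ cs w x σ)) (S σ P)) =
        (S τ * wp μ (-(ω ⬝ᵥ cs w x σ)) * S σ) P := rfl
    have e2 : wp μ (ω ⬝ᵥ cs w x τ) (wp μ (-(ω ⬝ᵥ cs w x (τ * σ))) (S (τ * σ) P)) =
        (wp μ (ω ⬝ᵥ cs w x τ) * wp μ (-(ω ⬝ᵥ cs w x (τ * σ))) * S (τ * σ)) P := rfl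
    rw [e1, e2, hm, ← wp_add hμ3, h.cs_mul hw he, dotProduct_add, hcw]
    have e3 : ω ⬝ᵥ cs w x τ + -(ω ⬝ᵥ cs w x τ + ω ⬝ᵥ cs w x σ) = -(ω ⬝ᵥ cs w x σ) := by ring
    rw [e3, mul_assoc]
  rw [Finset.sum_congr rfl fun σ _ => h1 σ]
  exact Fintype.sum_equiv (Equiv.mulLeft τ) _
    (fun σ => wp μ (ω ⬝ᵥ cs w x τ) (wp μ (-(ω ⬝ᵥ cs w x σ)) (S σ P))) fun σ => rfl

/-- The multiplication with the root of unity. -/
def muN (w : F) (N : Type) [Field N] [Algebra F N] : AddMonoid.End N :=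
  AddMonoidHom.mulLeft (algebraMap F N w)

theorem muN_apply (z : N) : muN w N z = algebraMap F N w * z := rfl

theorem wp_muN (t : ZMod 3) (z : N) : wp (muN w N) t z = wp (algebraMap F N w) t * z := by
  unfold wp
  generalize t.val = n
  induction n generalizing z with
  | zero => rw [pow_zero, pow_zero, one_mul]; rfl
  | succ n ih =>
    rw [pow_succ, pow_succ]
    show (muN w N ^ n) (muN w N z) = _
    rw [ih, muN_apply, mul_assoc]

theorem muN_one (hw : IsPrimitiveRoot w 3) : 1 + muN w N + muN w N ^ 2 = 0 := by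
  refine AddMonoidHom.ext fun z => ?_
  have h1 : (1 + muN w N + muN w N ^ 2 : AddMonoid.End N) z = z + algebraMap F N w * z +
      algebraMap F N w * (algebraMap F N w * z) := by
    rw [sq]
    rfl
  have h2 := wN_one (N := N) hw
  have h3 : z + algebraMap F N w * z + algebraMap F N w * (algebraMap F N w * z) =
      (1 + algebraMap F N w + algebraMap F N w ^ 2) * z := by ring
  rw [h3, h2, zero_mul] at h1
  exact h1

/-- The automorphisms as additive maps. -/
def SN (σ : N ≃ₐ[F] N) : AddMonoid.End N := (σ : N →+* N).toAddMonoidHom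

theorem SN_apply (σ : N ≃ₐ[F] N) (z : N) : SN σ z = σ z := rfl

theorem SN_comm (σ : N ≃ₐ[F] N) : SN σ * muN w N = muN w N * SN σ := by
  refine AddMonoidHom.ext fun z => ?_
  show σ (algebraMap F N w * z) = algebraMap F N w * σ z
  rw [map_mul, σ.commutes]

/-- An eigenvector. -/
theorem MCx.mem_chi (hw : IsPrimitiveRoot w 3) (h : MCx e x) (he : ∀ i, e i ≠ 0)
    {ω : Fin r → ZMod 3} {z : N} (hz : ∀ σ : N ≃ₐ[F] N, σ z = wp (algebraMap F N w) (ω ⬝ᵥ cs w x σ) * z) :
    ∃ c : F, z = algebraMap F N c * chp ω x := by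
  have hg := h.galois hw
  have hP0 : chp ω x ≠ 0 := chp_ne_zero ω (h.x_ne he)
  have h1 : z / chp ω x ∈ Set.range (algebraMap F N) := by
    rw [IsGalois.mem_range_algebraMap_iff_fixed]
    intro σ
    rw [map_div₀, hz σ, h.act_chp hw σ ω]
    exact mul_div_mul_left _ _ (wp_ne (wN_one (N := N) hw) _)
  obtain ⟨c, hc⟩ := h1
  exact ⟨c, by rw [hc, div_mul_cancel₀ _ hP0]⟩

/-- The projections of an element. -/
theorem MCx.prN (hw : IsPrimitiveRoot w 3) (h : MCx e x) (he : ∀ i, e i ≠ 0) (ω : Fin r → ZMod 3)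
    (z : N) : ∃ c : F, prX w x (muN w N) SN ω z = algebraMap F N c * chp ω x := by
  refine h.mem_chi hw he fun σ => ?_
  have h1 := h.act_prX hw he (μ := muN w N) (muN_one (N := N) hw) SN (fun _ _ => rfl) SN_comm ω σ z
  rw [SN_apply, wp_muN] at h1
  exact h1

/-- A product which is fixed comes from a cube. -/
theorem MCx.cube_of (hw : IsPrimitiveRoot w 3) (h : MCx e x) {ω : Fin r → ZMod 3}
    (hz : ∀ σ : N ≃ₐ[F] N, ω ⬝ᵥ cs w x σ = 0) : ∃ c : F, c ^ 3 = chp ω e := by
  have hg := h.galois hw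
  have h1 : chp ω x ∈ Set.range (algebraMap F N) := by
    rw [IsGalois.mem_range_algebraMap_iff_fixed]
    intro σ
    rw [h.act_chp hw σ ω, hz σ, wp_zero, one_mul]
  obtain ⟨c, hc⟩ := h1
  refine ⟨c, (algebraMap F N).injective ?_⟩
  rw [map_pow, hc, ← chp_pow]
  have h2 : (fun i => x i ^ 3) = fun i => (algebraMap F N : F →* N) (e i) := funext fun i => h.cu i
  rw [h2, chp_map]
  rfl

/-- **Kummer theory.** -/
theorem MCx.kum {F N : Type} [Field F] [NumberField F] [Field N] [NumberField N] [Algebra F N] {w : F}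
    (hw : IsPrimitiveRoot w 3) {r : ℕ} {e : Fin r → F} {x : Fin r → N} (h : MCx e x)
    (he : ∀ i, e i ≠ 0) {b : F} (hb : b ≠ 0) (hy : ∃ y : N, y ^ 3 = algebraMap F N b) :
    ∃ (ψ : Fin r → ZMod 3) (c : F), b = chp ψ e * c ^ 3 := by
  obtain ⟨y, hy⟩ := hy
  have hwN := wN_one (N := N) hw
  have hy0 : y ≠ 0 := by
    rintro rfl
    rw [zero_pow three_ne_zero] at hy
    exact hb ((map_eq_zero (algebraMap F N)).1 hy.symm)
  have h1 := h.sum_prX hw he (muN_one (N := N) hw) SN rfl y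
  obtain ⟨ω, hω⟩ : ∃ ω, prX w x (muN w N) SN ω y ≠ 0 := by
    by_contra hcon
    push Not at hcon
    rw [Finset.sum_eq_zero fun ω _ => hcon ω, nsmul_eq_mul] at h1
    refine mul_ne_zero ?_ hy0 h1.symm
    rw [Nat.cast_ne_zero]
    positivity
  have ht : ∀ σ : N ≃ₐ[F] N, ∃ t : ZMod 3, σ y = wp (algebraMap F N w) t * y := by
    intro σ
    refine cube_eq hwN ?_
    rw [← map_pow, hy, σ.commutes]
  choose t ht using ht
  obtain ⟨s, hs⟩ : ∃ s : F, prX w x (muN w N) SN ω y = algebraMap F N s * y := by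
    refine ⟨∑ σ : N ≃ₐ[F] N, wp w (-(ω ⬝ᵥ cs w x σ)) * wp w (t σ), ?_⟩
    unfold prX
    rw [map_sum, Finset.sum_mul]
    refine Finset.sum_congr rfl fun σ _ => ?_
    rw [wp_muN, SN_apply, ht σ, map_mul, map_wp, map_wp, mul_assoc]
  obtain ⟨c, hc⟩ := h.prN hw he ω y
  have hs0 : s ≠ 0 := by
    rintro rfl
    rw [map_zero, zero_mul] at hs
    exact hω hs
  have hs0' : algebraMap F N s ≠ 0 := (map_ne_zero _).2 hs0
  refine ⟨ω, c / s, (algebraMap F N).injective ?_⟩
  have h2 : y = algebraMap F N (c / s) * chp ω x := by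
    rw [map_div₀, div_mul_eq_mul_div, ← hc, hs, mul_div_cancel_left₀ _ hs0']
  have h3 : (fun i => x i ^ 3) = fun i => (algebraMap F N : F →* N) (e i) := funext fun i => h.cu i
  have h4 : chp ω x ^ 3 = algebraMap F N (chp ω e) := by
    rw [← chp_pow, h3, chp_map]
    rfl
  rw [← hy, h2, mul_pow, h4, map_mul, map_pow, mul_comm]

/-- The order of the Galois group. -/
theorem MCx.card_gal (hw : IsPrimitiveRoot w 3) (h : MCx e x)
    (he : ∀ i, e i ≠ 0) (hind : ∀ χ : Fin r → ZMod 3, χ ≠ 0 → ¬ ∃ c : F, c ^ 3 = chp χ e) :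
    Fintype.card (N ≃ₐ[F] N) = 3 ^ r := by
  classical
  have hwN := wN_one (N := N) hw
  have hw3 := w3_of hwN
  have hA : ∑ σ : N ≃ₐ[F] N, ∑ ω : Fin r → ZMod 3, wp (algebraMap F N w) (-(ω ⬝ᵥ cs w x σ)) =
      (3 : N) ^ r := by
    have h2 : ∀ σ : N ≃ₐ[F] N, ∑ ω : Fin r → ZMod 3, wp (algebraMap F N w) (-(ω ⬝ᵥ cs w x σ)) =
        if σ = 1 then (3 : N) ^ r else 0 := by
      intro σ
      rw [sum_wp_dot hwN]
      refine if_congr ⟨fun h0 => h.ext_cs hw (by rw [h0, h.cs_one hw he]), fun h0 => ?_⟩ rfl rfl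
      rw [h0, h.cs_one hw he]
    rw [Finset.sum_congr rfl fun σ _ => h2 σ, Finset.sum_ite_eq' Finset.univ (1 : N ≃ₐ[F] N),
      if_pos (Finset.mem_univ _)]
  have hB : ∀ ω : Fin r → ZMod 3, ω ≠ 0 →
      ∑ σ : N ≃ₐ[F] N, wp (algebraMap F N w) (-(ω ⬝ᵥ cs w x σ)) = 0 := by
    intro ω hω
    obtain ⟨τ, hτ⟩ : ∃ τ : N ≃ₐ[F] N, ω ⬝ᵥ cs w x τ ≠ 0 := by
      by_contra hcon
      push Not at hcon
      exact hind ω hω (h.cube_of hw hcon)
    obtain ⟨T, hT⟩ : ∃ T, T = ∑ σ : N ≃ₐ[F] N, wp (algebraMap F N w) (-(ω ⬝ᵥ cs w x σ)) := ⟨_, rfl⟩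
    have h2 : T = wp (algebraMap F N w) (-(ω ⬝ᵥ cs w x τ)) * T := by
      rw [hT, Finset.mul_sum]
      refine (Fintype.sum_equiv (Equiv.mulLeft τ) _ _ fun σ => ?_).symm
      show wp (algebraMap F N w) (-(ω ⬝ᵥ cs w x τ)) * wp (algebraMap F N w) (-(ω ⬝ᵥ cs w x σ)) =
        wp (algebraMap F N w) (-(ω ⬝ᵥ cs w x (τ * σ)))
      rw [← wp_add hw3, h.cs_mul hw he, dotProduct_add, neg_add]
    rw [← hT]
    by_contra hT0
    have h3 : wp (algebraMap F N w) (-(ω ⬝ᵥ cs w x τ)) = wp (algebraMap F N w) 0 := by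
      rw [wp_zero]
      exact (mul_eq_right₀ hT0).1 h2.symm
    have h4 := wp_inj hwN h3
    exact hτ (neg_eq_zero.1 h4)
  rw [Finset.sum_comm, Finset.sum_eq_single 0 (fun ω _ hω => hB ω hω)
    fun h0 => absurd (Finset.mem_univ _) h0] at hA
  simp only [zero_dotProduct, neg_zero, wp_zero, Finset.sum_const, Finset.card_univ, nsmul_eq_mul,
    mul_one] at hA
  exact_mod_cast hA

/-- **The degree.** -/
theorem MCx.deg {F N : Type} [Field F] [NumberField F] [Field N] [NumberField N] [Algebra F N] {w : F}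
    (hw : IsPrimitiveRoot w 3) {r : ℕ} {e : Fin r → F} {x : Fin r → N} (h : MCx e x)
    (he : ∀ i, e i ≠ 0) (hind : ∀ χ : Fin r → ZMod 3, χ ≠ 0 → ¬ ∃ c : F, c ^ 3 = chp χ e) :
    Module.finrank F N = 3 ^ r := by
  have hg := h.galois hw
  rw [← IsGalois.card_aut_eq_finrank, Nat.card_eq_fintype_card]
  exact h.card_gal hw he hind

/-- **The automorphisms.** -/
theorem MCx.gal {F N : Type} [Field F] [NumberField F] [Field N] [NumberField N] [Algebra F N] {w : F}
    (hw : IsPrimitiveRoot w 3) {r : ℕ} {e : Fin r → F} {x : Fin r → N} (h : MCx e x)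
    (he : ∀ i, e i ≠ 0) (hind : ∀ χ : Fin r → ZMod 3, χ ≠ 0 → ¬ ∃ c : F, c ^ 3 = chp χ e) :
    ∃ σ : (Fin r → ZMod 3) → (N ≃ₐ[F] N), (∀ a b z, σ (a + b) z = σ a (σ b z)) ∧
      (∀ a i, σ a (x i) = algebraMap F N w ^ (a i).val * x i) ∧
      ∀ z : N, (∀ a, σ a z = z) → ∃ y : F, algebraMap F N y = z := by
  classical
  have hg := h.galois hw
  have hbij : Function.Bijective (cs w x : (N ≃ₐ[F] N) → Fin r → ZMod 3) := by
    rw [Fintype.bijective_iff_injective_and_card]
    refine ⟨fun σ τ hst => h.ext_cs hw hst, ?_⟩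
    rw [h.card_gal hw he hind, Fintype.card_fun, ZMod.card, Fintype.card_fin]
  obtain ⟨σ, hσ⟩ := hbij.2.hasRightInverse
  have hσ' : ∀ a, cs w x (σ a) = a := hσ
  refine ⟨σ, fun a b z => ?_, fun a i => ?_, fun z hz => ?_⟩
  · rw [← AlgEquiv.mul_apply]
    refine AlgEquiv.congr_fun (h.ext_cs hw ?_) z
    rw [hσ', h.cs_mul hw he, hσ', hσ']
  · rw [h.cs_spec hw (σ a) i, hσ']
    rfl
  · have h1 : z ∈ Set.range (algebraMap F N) := by
      rw [IsGalois.mem_range_algebraMap_iff_fixed]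
      intro τ
      have h2 : σ (cs w x τ) = τ := hbij.1 (hσ' _)
      rw [← h2]
      exact hz _
    exact h1

/-- The fields between `F` and `N` (no condition of independence). -/
theorem MCx.inter' (hw : IsPrimitiveRoot w 3) (h : MCx e x) (he : ∀ i, e i ≠ 0)
    (F' : Type) [Field F'] [Algebra F F'] [Algebra F' N] [IsScalarTower F F' N] :
    IntermediateField.adjoin F {y : F' | ∃ χ : Fin r → ZMod 3, y ^ 3 = algebraMap F F' (chp χ e)} =
      ⊤ := by
  have hg := h.galois hw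
  rw [eq_top_iff]
  intro z' _
  obtain ⟨A, hA⟩ : ∃ A : IntermediateField F F', A = IntermediateField.adjoin F
      {y : F' | ∃ χ : Fin r → ZMod 3, y ^ 3 = algebraMap F F' (chp χ e)} := ⟨_, rfl⟩
  rw [← hA]
  obtain ⟨M, hM⟩ : ∃ M : IntermediateField F N, M = (IsScalarTower.toAlgHom F F' N).fieldRange :=
    ⟨_, rfl⟩
  have hMm : ∀ z : N, z ∈ M ↔ ∃ w : F', algebraMap F' N w = z := by
    intro z
    rw [hM]
    exact Iff.rfl
  obtain ⟨z, hz⟩ : ∃ z : N, z = algebraMap F' N z' := ⟨_, rfl⟩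
  have hzM : z ∈ M := (hMm z).2 ⟨z', hz.symm⟩
  have hmem : ∀ ω, prX w x (muN w N) SN ω z ∈ M := by
    intro ω
    rw [← IsGalois.fixedField_fixingSubgroup M, IntermediateField.mem_fixedField_iff]
    intro τ hτ
    have hτz : τ z = z := (IntermediateField.mem_fixingSubgroup_iff _ _).1 hτ z hzM
    unfold prX
    rw [map_sum]
    refine Finset.sum_congr rfl fun σ _ => ?_
    rw [wp_muN, SN_apply, map_mul, act_w]
    have hc : τ (σ z) = σ (τ z) := by
      have h1 : τ * σ = σ * τ := h.ext_cs hw (by rw [h.cs_mul hw he, h.cs_mul hw he, add_comm])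
      exact AlgEquiv.congr_fun h1 z
    rw [hc, hτz]
  have h3c : ∀ ω, chp ω x ^ 3 = algebraMap F N (chp ω e) := by
    intro ω
    have h3 : (fun i => x i ^ 3) = fun i => (algebraMap F N : F →* N) (e i) := funext fun i => h.cu i
    rw [← chp_pow, h3, chp_map]
    rfl
  have key : ∀ ω, ∃ u ∈ A, algebraMap F' N u = prX w x (muN w N) SN ω z := by
    intro ω
    by_cases h0 : prX w x (muN w N) SN ω z = 0
    · exact ⟨0, zero_mem A, by rw [map_zero, h0]⟩
    obtain ⟨c, hc⟩ := h.prN hw he ω z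
    have hc0 : algebraMap F N c ≠ 0 := by
      intro h1
      rw [h1, zero_mul] at hc
      exact h0 hc
    have h1 : chp ω x ∈ M := by
      have h2 : chp ω x = prX w x (muN w N) SN ω z / algebraMap F N c := by
        rw [hc, mul_div_cancel_left₀ _ hc0]
      rw [h2]
      exact div_mem (hmem ω) (IntermediateField.algebraMap_mem _ c)
    obtain ⟨y, hy⟩ := (hMm _).1 h1
    have hyA : y ∈ A := by
      rw [hA]
      refine IntermediateField.subset_adjoin F _ ⟨ω, ?_⟩
      refine (algebraMap F' N).injective ?_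
      rw [map_pow, hy, ← IsScalarTower.algebraMap_apply F F' N, h3c]
    refine ⟨algebraMap F F' c * y, mul_mem (IntermediateField.algebraMap_mem A c) hyA, ?_⟩
    rw [map_mul, hy, ← IsScalarTower.algebraMap_apply F F' N, hc]
  choose u huA hu using key
  have h1 : algebraMap F' N (∑ ω, u ω) = algebraMap F' N ((3 ^ r : ℕ) * z') := by
    rw [map_sum, Finset.sum_congr rfl fun ω _ => hu ω,
      h.sum_prX hw he (muN_one (N := N) hw) SN rfl z, map_mul, map_natCast, ← hz, nsmul_eq_mul]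
  have h2 : ∑ ω, u ω = (3 ^ r : ℕ) * z' := (algebraMap F' N).injective h1
  have h3 : ((3 ^ r : ℕ) : F') ≠ 0 := by
    intro h4
    have h5 : ((3 ^ r : ℕ) : N) = 0 := by
      rw [← map_natCast (algebraMap F' N), h4, map_zero]
    exact pow_ne_zero r (three_ne_zero (α := ℕ)) (Nat.cast_eq_zero.1 h5)
  have h4 : z' = (∑ ω, u ω) / ((3 ^ r : ℕ) : F') := by
    rw [h2, mul_div_cancel_left₀ _ h3]
  rw [h4]
  exact div_mem (sum_mem fun ω _ => huA ω) (natCast_mem A _)

/-- **The intermediate fields.** -/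
theorem MCx.inter {F N : Type} [Field F] [NumberField F] [Field N] [NumberField N] [Algebra F N] {w : F}
    (hw : IsPrimitiveRoot w 3) {r : ℕ} {e : Fin r → F} {x : Fin r → N} (h : MCx e x)
    (he : ∀ i, e i ≠ 0) (_hind : ∀ χ : Fin r → ZMod 3, χ ≠ 0 → ¬ ∃ c : F, c ^ 3 = chp χ e)
    (F' : Type) [Field F'] [Algebra F F'] [Algebra F' N] [IsScalarTower F F' N] :
    IntermediateField.adjoin F {y : F' | ∃ χ : Fin r → ZMod 3, y ^ 3 = algebraMap F F' (chp χ e)} =
      ⊤ :=
  h.inter' hw he F'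

end Gal

end

end Pool.Agent.Lib.MP_1a91b9_ntMC
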