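import Pool.Agent.Lib.MP_1a91b9_ntCC.DDen

/-!
# MP_1a91b9_nt (all the multicubic fields, ordered by the ramified primes): definitions

A colouring is a finite set of primes with a colour, a nonzero vector `v : I → ZMod 3`, for each of its primes. For
`I = Fin r` the colourings are the `r`-tuples of cube-free products of the primes: `cz b q i` is the exponent of the
prime `q` in the `i`-th product. For a vector `χ` the exponent of `q` in the product of the `χ i`-th powers is
`cx χ b q`. `Rp r` are representatives of the nonzero vectors up to the sign.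
-/

set_option autoImplicit false
set_option linter.unusedSectionVars false

namespace Pool.Agent.Lib.MP_1a91b9_ntMC

open NumberField Finset Pool.Agent.Lib.MP_1a91b9_ntT Pool.Agent.Lib.MP_1a91b9_ntK
  Pool.Agent.Lib.MP_1a91b9_ntK.Da
open Pool.Agent.Lib.MP_1a91b9_ntH (PS nm Sx)
open Pool.Agent.Lib.MP_1a91b9_ntZ (Atl bn)
open Pool.Agent.Lib.MP_1a91b9_ntS3.G (G9 c9)
open Pool.Agent.Lib.MP_1a91b9_ntCC (GdT)

noncomputable section

/-! ### Colourings -/

/-- The colours: the vectors different from zero. -/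
abbrev Nz (I : Type) : Type := {v : I → ZMod 3 // v ≠ 0}

/-- The number of the colours. -/
def hN (I : Type) [Fintype I] : ℕ := 3 ^ Fintype.card I - 1

/-- The colourings: a finite set of primes and a colour for each of them. -/
abbrev Cb (ι I : Type) : Type := Σ S : Finset ι, (S → Nz I)

section Col

variable {ι I : Type} [DecidableEq ι]

/-- The colour of a prime, zero outside of the set. -/
def cz (b : Cb ι I) (q : ι) : I → ZMod 3 := if h : q ∈ b.1 then (b.2 ⟨q, h⟩).1 else 0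

variable [Fintype I]

/-- The exponent of `q` for the vector `χ`. -/
def cx (χ : I → ZMod 3) (b : Cb ι I) (q : ι) : ZMod 3 := χ ⬝ᵥ cz b q

/-- The primes with the exponent `e` for the vector `χ`. -/
def Rv (e : ZMod 3) (χ : I → ZMod 3) (b : Cb ι I) : Finset ι := b.1.filter fun q => cx χ b q = e

/-- The primes with an exponent different from zero for the vector `χ`. -/
def Rx (χ : I → ZMod 3) (b : Cb ι I) : Finset ι := b.1.filter fun q => cx χ b q ≠ 0

/-- The class of the `i`-th product. -/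
def clb {G : Type} [AddCommGroup G] (a : ι → G) (b : Cb ι I) (i : I) : G :=
  ∑ q ∈ b.1, (cz b q i).val • a q

variable [DecidableEq I]

/-- The colourings of the sets in `Z X`. -/
def BX (I : Type) [Fintype I] [DecidableEq I] (Z : ℕ → Finset (Finset ι)) (X : ℕ) : Finset (Cb ι I) :=
  (Z X).sigma fun _ => univ

theorem mem_BX {Z : ℕ → Finset (Finset ι)} {X : ℕ} {b : Cb ι I} : b ∈ BX I Z X ↔ b.1 ∈ Z X := by
  unfold BX
  rw [mem_sigma]
  exact ⟨fun h => h.1, fun h => ⟨h, mem_univ _⟩⟩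

theorem sum_BX {M : Type} [AddCommMonoid M] {Z : ℕ → Finset (Finset ι)} {X : ℕ} (F : Cb ι I → M) :
    ∑ b ∈ BX I Z X, F b = ∑ S ∈ Z X, ∑ f : S → Nz I, F ⟨S, f⟩ := by
  unfold BX
  rw [sum_sigma]

open Classical in
/-- Among the colourings of the sets of norm at most `X` prime to `B` with given classes at least the share `c` has
the property `P`. -/
def CovL3 [PS ι] {G : Type} [AddCommGroup G] (a : ι → G) (I : Type) [Fintype I] [DecidableEq I]
    (B : Finset ι) (c : ℝ) (P : Cb ι I → Prop) : Prop :=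
  ∀ (g : I → G) (ε : ℝ), 0 < ε → ∃ X₀ : ℕ, ∀ X : ℕ, X₀ ≤ X →
    c * (((BX I (SxT B) X).filter fun b => ∀ i, clb a b i = g i).card : ℝ) -
      ε * ((BX I (SxT (∅ : Finset ι)) X).card : ℝ) ≤
    (((BX I (SxT B) X).filter fun b => (∀ i, clb a b i = g i) ∧ P b).card : ℝ)

open Classical in
/-- All the classes have a positive proportion. -/
def CovPos3 [PS ι] {G : Type} [AddCommGroup G] (a : ι → G) (I : Type) [Fintype I] [DecidableEq I] :
    Prop :=
  ∀ g : I → G, ∃ κ : ℝ, 0 < κ ∧ ∃ X₀ : ℕ, ∀ X : ℕ, X₀ ≤ X →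
    κ * ((BX I (SxT (∅ : Finset ι)) X).card : ℝ) ≤
      (((BX I (SxT (∅ : Finset ι)) X).filter fun b => ∀ i, clb a b i = g i).card : ℝ)

end Col

/-! ### The vectors up to the sign -/

open Classical in
/-- The vectors whose first coordinate different from zero is `1`. -/
def Rp (r : ℕ) : Finset (Fin r → ZMod 3) :=
  univ.filter fun χ => ∃ i, χ i = 1 ∧ ∀ j, j < i → χ j = 0

/-! ### The joint law for the sets of primes -/

/-- **The joint law for the colourings.** -/
def JM3 : Prop :=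
  ∀ (n r k N : ℕ), 0 < N → ∀ (ty kk jj : Fin k → (Fin r → ZMod 3) → Fin N → Fin 3)
    (P T : Fin k → (Fin r → ZMod 3) → Fin N → Finset P3) (B : Finset P3),
    (∀ b χ l, P b χ l ⊆ B) → (∀ b χ l, T b χ l ⊆ B) → (∀ b χ l, Disjoint (P b χ l) (T b χ l)) →
    (∀ χ ∈ Rp r, Function.Injective fun p : Fin k × Fin N =>
      (kk p.1 χ p.2, jj p.1 χ p.2, P p.1 χ p.2, T p.1 χ p.2)) →
    ∀ (t : ℕ) (w : ℝ), 0 ≤ w → w ≤ 1 → (∀ b χ l, ty b χ l = 2 → w ≤ 2 / 3) →
    CovL3 (c9 n) (Fin r) B (bn k t ((w * cinf3) ^ (N * (Rp r).card))) fun b =>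
      Atl t fun i => ∀ χ ∈ Rp r, ∀ l, GdT (ty i χ l) (kk i χ l) (jj i χ l)
        (Rv 1 χ b ∪ P i χ l) (Rv 2 χ b ∪ T i χ l)

/-! ### The law for the tuples of elements -/

/-- Among the `r`-tuples of cube-free elements `d` with `d k ≡ u k` modulo `m` whose prime factors all divide one
element of norm at most `X`, at least the share `c` has the property `P`. -/
def CovG3 (R : Type) [CommRing R] (r : ℕ) (m : R) (u : Fin r → R) (P : (Fin r → R) → Prop)
    (c : ℝ) : Prop :=
  ∀ ε : ℝ, 0 < ε → ∀ᶠ X : ℝ in Filter.atTop, c - ε ≤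
    (Nat.card {d : Fin r → R // ((∀ i, ∀ p, Prime p → ¬ p ^ 3 ∣ d i) ∧ ∃ A : R, A ≠ 0 ∧
      |Algebra.norm ℤ A| ≤ X ∧ ∀ i, d i ∣ A ^ 2) ∧ (∀ i, m ∣ d i - u i) ∧ P d} : ℝ) /
    (Nat.card {d : Fin r → R // ((∀ i, ∀ p, Prime p → ¬ p ^ 3 ∣ d i) ∧ ∃ A : R, A ≠ 0 ∧
      |Algebra.norm ℤ A| ≤ X ∧ ∀ i, d i ∣ A ^ 2) ∧ ∀ i, m ∣ d i - u i} : ℝ)

end

end Pool.Agent.Lib.MP_1a91b9_ntMC
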