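import Pool.Agent.Lib.MP_1a91b9_ntCC.RFin
import Pool.Agent.Lib.MP_1a91b9_ntMC.C0

/-!
# MP_1a91b9_nt (random (Z/3)^r-extensions), block A: definitions
-/

set_option autoImplicit false

namespace Pool.Agent.Lib.MP_1a91b9_ntMC

open NumberField IsDedekindDomain WeierstrassCurve
open Pool.Agent.Lib.MP_1a91b9_ntZ (Rk AtF bn)
open Pool.Agent.Lib.MP_1a91b9_ntC.Sh (RelQ)
open Pool.Agent.Lib.MP_1a91b9_ntCC (StbC)

noncomputable section

/-- `∏ e_i ^ χ_i`. -/
def chp {R : Type} [CommMonoid R] {r : ℕ} (χ : Fin r → ZMod 3) (e : Fin r → R) : R :=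
  ∏ i, e i ^ (χ i).val

theorem chp_zero {R : Type} [CommMonoid R] {r : ℕ} (e : Fin r → R) : chp 0 e = 1 := by
  unfold chp
  refine Finset.prod_eq_one fun i _ => ?_
  rw [Pi.zero_apply, ZMod.val_zero, pow_zero]

theorem chp_map {R S : Type} [CommMonoid R] [CommMonoid S] {r : ℕ} (f : R →* S)
    (χ : Fin r → ZMod 3) (e : Fin r → R) : chp χ (fun i => f (e i)) = f (chp χ e) := by
  unfold chp
  rw [map_prod]
  refine Finset.prod_congr rfl fun i _ => ?_
  rw [map_pow]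

theorem chp_ne_zero {R : Type} [CommMonoidWithZero R] [NoZeroDivisors R] [Nontrivial R] {r : ℕ}
    (χ : Fin r → ZMod 3) {e : Fin r → R} (he : ∀ i, e i ≠ 0) : chp χ e ≠ 0 := by
  unfold chp
  exact Finset.prod_ne_zero_iff.2 fun i _ => pow_ne_zero _ (he i)

theorem chp_pow {R : Type} [CommMonoid R] {r : ℕ} (χ : Fin r → ZMod 3) (e : Fin r → R) (n : ℕ) :
    chp χ (fun i => e i ^ n) = chp χ e ^ n := by
  unfold chp
  rw [← Finset.prod_pow]
  refine Finset.prod_congr rfl fun i _ => ?_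
  rw [← pow_mul, ← pow_mul, mul_comm]

/-- The product of two products, up to the third power of a product of the `e_i`. -/
theorem chp_mul {R : Type} [CommMonoid R] {r : ℕ} (χ ψ : Fin r → ZMod 3) (e : Fin r → R) :
    ∃ k : Fin r → ℕ, chp χ e * chp ψ e = chp (χ + ψ) e * (∏ i, e i ^ k i) ^ 3 := by
  have h : ∀ a b : ZMod 3, ∃ k : ℕ, a.val + b.val = (a + b).val + k * 3 := by
    intro a b
    rw [ZMod.val_add]
    exact ⟨(a.val + b.val) / 3, by omega⟩
  choose k hk using h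
  refine ⟨fun i => k (χ i) (ψ i), ?_⟩
  unfold chp
  rw [← Finset.prod_mul_distrib, ← Finset.prod_pow, ← Finset.prod_mul_distrib]
  refine Finset.prod_congr rfl fun i _ => ?_
  rw [← pow_add, hk, pow_add, Pi.add_apply, pow_mul]

/-- The same over a field: up to a cube. -/
theorem chp_mul' {F : Type} [Field F] {r : ℕ} (χ ψ : Fin r → ZMod 3) {e : Fin r → F}
    (he : ∀ i, e i ≠ 0) : ∃ c : F, c ≠ 0 ∧ chp χ e * chp ψ e = chp (χ + ψ) e * c ^ 3 := by
  obtain ⟨k, hk⟩ := chp_mul χ ψ e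
  exact ⟨_, Finset.prod_ne_zero_iff.2 fun i _ => pow_ne_zero _ (he i), hk⟩

/-- The tuples of `Δ` are different modulo cubes in `F` and powers of `α`, for all the vectors. -/
def Sep3M {K : Type} [Field K] [NumberField K] (F : Type) [Field F] [Algebra K F] (α : K) {r : ℕ}
    (Δ : Finset (Fin r → 𝓞 K)) : Prop :=
  ∀ δ ∈ Δ, ∀ δ' ∈ Δ, δ ≠ δ' → ∀ χ : Fin r → ZMod 3, χ ≠ 0 → ∀ i : ℕ, ∀ x : F, x ≠ 0 →
    x ^ 3 * algebraMap K F ((chp χ δ' : 𝓞 K) : K) ≠ algebraMap K F (α ^ i * ((chp χ δ : 𝓞 K) : K))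

/-- The curves `y² + b α e^χ y = x³` over `K` have rank zero, for all the `b` which are cubes in `F` and all the
`χ ≠ 0`. -/
def RkA {K : Type} [Field K] [NumberField K] (F : Type) [Field F] [Algebra K F] (α : 𝓞 K) {r : ℕ}
    (e : Fin r → 𝓞 K) : Prop :=
  ∀ χ : Fin r → ZMod 3, χ ≠ 0 → ∀ b : 𝓞 K, b ≠ 0 → (∃ y : F, y ^ 3 = algebraMap K F (b : K)) →
    Rk (⟨0, 0, ((b * (α * chp χ e) : 𝓞 K) : K), 0, 0⟩ : WeierstrassCurve K)

/-- The law over `K` for the cubic twists by all the products. -/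
def KBM (K : Type) [Field K] [NumberField K] (α : 𝓞 K) : Prop :=
  ∀ (F : Type) [Field F] [NumberField F] [Algebra K F],
    IntermediateField.adjoin K {x : F | ∃ c : K, x ^ 3 = algebraMap K F c} = ⊤ →
    ∀ (r n : ℕ) (m : 𝓞 K) (u : Fin r → 𝓞 K), m ∣ 3 ^ n →
    (∀ i, ∀ p, Prime p → ¬ (p ^ 3 ∣ m ∧ p ^ 3 ∣ u i)) →
    ∀ Δ : Finset (Fin r → 𝓞 K), (∀ δ ∈ Δ, ∀ i, δ i ≠ 0) → Sep3M F (α : K) Δ → ∀ t : ℕ,
      CovG3 (𝓞 K) r m u (fun d => AtF Δ t fun δ => RkA F α (fun i => δ i * d i))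
        (bn Δ.card t ((∏' i : ℕ, (1 + 1 / (3 : ℝ) ^ (i + 1))⁻¹) ^
          ((3 ^ r - 1) * Module.finrank K F)))

/-- **The property `M` of the tuple `e`.** -/
def PropM3 {K : Type} [Field K] [NumberField K] (a : K) (F : Type) [Field F] [NumberField F]
    [Algebra K F] {r : ℕ} (e : Fin r → K) : Prop :=
  ∀ (N : Type) [Field N] [NumberField N] [Algebra F N] (x : Fin r → N),
    (∀ i, x i ^ 3 = algebraMap F N (algebraMap K F (e i))) →
    IntermediateField.adjoin F (Set.range x) = ⊤ →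
    Module.finrank F N = 3 ^ r ∧
    ∀ (F' : Type) [Field F'] [NumberField F'] [Algebra K F'] [Algebra F F'] [IsScalarTower K F F']
      [Algebra F' N] [IsScalarTower F F' N],
      (∀ x' y' : F', ((⟨0, 0, a, 0, 0⟩ : WeierstrassCurve K).map
        (algebraMap K F')).toAffine.Equation x' y' →
        ∃ x y : F, algebraMap F F' x = x' ∧ algebraMap F F' y = y') ∧
      (∃ g : ℂ → ℂ, Differentiable ℂ g ∧ g 1 ≠ 0 ∧ ∀ s : ℂ, 3 / 2 < s.re →
        ((⟨0, 0, a, 0, 0⟩ : WeierstrassCurve K).map (algebraMap K F')).LSeries s =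
          ((⟨0, 0, a, 0, 0⟩ : WeierstrassCurve K).map (algebraMap K F)).LSeries s * g s) ∧
      (∀ (F'' : Type) [Field F''] [NumberField F''] [Algebra F F''] [Algebra F' F'']
        [IsScalarTower F F' F''] [Algebra F'' N] [IsScalarTower F' F'' N],
        Module.finrank F' F'' ≠ 1 →
        ∃ S : Finset ℕ, ∀ (q : ℕ) [Fact q.Prime], q ∉ S →
          RelQ q ((⟨0, 0, a, 0, 0⟩ : WeierstrassCurve K).map (algebraMap K F'))
            (((⟨0, 0, a, 0, 0⟩ : WeierstrassCurve K).map (algebraMap K F')).map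
              (algebraMap F' F''))) ∧
      ∀ χ : Fin r → ZMod 3, (¬ ∃ c : F', c ^ 3 = algebraMap K F' (chp χ e)) →
        StbC a F' (chp χ e)

end

end Pool.Agent.Lib.MP_1a91b9_ntMC
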