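import Pool.Agent.Lib.MP_1a91b9_ntMC.C0
import Pool.Agent.Lib.MP_1a91b9_ntW.J.Mono
import Pool.Agent.Lib.MP_1a91b9_ntZ.Hund

/-!
# MP_1a91b9_nt (all the multicubic fields): the rules for the law of the tuples of elements

`lc3 R r X`: the tuples of cube-free elements whose prime factors divide one element of norm at most `X`. `Sm3`: the
tuples with an entry `1` have proportion zero among those of the class.
-/

set_option autoImplicit false
set_option linter.unusedSectionVars false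

namespace Pool.Agent.Lib.MP_1a91b9_ntMC

open Finset NumberField
open Pool.Agent.Lib.MP_1a91b9_ntW.J (norm_mapRingEquiv)
open Pool.Agent.Lib.MP_1a91b9_ntZ (bn bn_tendsto)

noncomputable section

/-- Cube-free elements. -/
def CFr {R : Type} [CommRing R] (x : R) : Prop := ∀ p, Prime p → ¬ p ^ 3 ∣ x

/-- The `r`-tuples of cube-free elements whose prime factors all divide one element of norm at most `X`. -/
def lc3 (R : Type) [CommRing R] (r : ℕ) (X : ℝ) : Set (Fin r → R) :=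
  {d | (∀ i, ∀ p, Prime p → ¬ p ^ 3 ∣ d i) ∧ ∃ A : R, A ≠ 0 ∧
      |Algebra.norm ℤ A| ≤ X ∧ ∀ i, d i ∣ A ^ 2}

/-- **The tuples with an entry `1`.** -/
def Sm3 (R : Type) [CommRing R] (r : ℕ) (m : R) (u : Fin r → R) : Prop :=
  ∀ (i : Fin r) (ε : ℝ), 0 < ε → ∀ᶠ X : ℝ in Filter.atTop,
    ({d : Fin r → R | d ∈ lc3 R r X ∧ d i = 1}.ncard : ℝ) ≤
      ε * ({d : Fin r → R | d ∈ lc3 R r X ∧ ∀ k, m ∣ d k - u k}.ncard : ℝ)

/-- The fibers of the map which replaces the entry `i` by `1`. -/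
theorem ncard_upd3 {R : Type} [CommRing R] {r : ℕ} (X : ℝ) (hfin : (lc3 R r X).Finite)
    (Z : (Fin r → R) → Prop) (i : Fin r) (C : ℕ)
    (hZ : ∀ d : Fin r → R, {x : R | CFr x ∧ Z (Function.update d i x)}.Finite ∧
      {x : R | CFr x ∧ Z (Function.update d i x)}.ncard ≤ C) :
    {d : Fin r → R | d ∈ lc3 R r X ∧ Z d}.ncard ≤
      C * {d : Fin r → R | d ∈ lc3 R r X ∧ d i = 1}.ncard := by
  classical
  have hf1 : {d : Fin r → R | d ∈ lc3 R r X ∧ Z d}.Finite := hfin.subset fun d hd => hd.1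
  have hf2 : {d : Fin r → R | d ∈ lc3 R r X ∧ d i = 1}.Finite := hfin.subset fun d hd => hd.1
  rw [Set.ncard_eq_toFinset_card _ hf1, Set.ncard_eq_toFinset_card _ hf2]
  have h1 : hf1.toFinset.card ≤ C * (hf1.toFinset.image fun d => Function.update d i 1).card := by
    refine card_le_mul_card_image hf1.toFinset C fun b _ => ?_
    obtain ⟨hf, hc⟩ := hZ b
    refine le_trans ?_ hc
    rw [Set.ncard_eq_toFinset_card _ hf]
    refine card_le_card_of_injOn (fun d => d i) (fun d hd => ?_) (fun d hd d' hd' hdd => ?_)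
    · rw [mem_coe, mem_filter, Set.Finite.mem_toFinset] at hd
      obtain ⟨hd1, hd2⟩ := hd
      rw [mem_coe, Set.Finite.mem_toFinset]
      refine ⟨hd1.1.1 i, ?_⟩
      rw [← hd2, Function.update_idem, Function.update_eq_self]
      exact hd1.2
    · rw [mem_coe, mem_filter] at hd hd'
      have e1 : d = Function.update b i (d i) := by
        rw [← hd.2, Function.update_idem, Function.update_eq_self]
      have e2 : d' = Function.update b i (d' i) := by
        rw [← hd'.2, Function.update_idem, Function.update_eq_self]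
      have e3 : d i = d' i := hdd
      rw [e1, e2, e3]
  refine h1.trans (Nat.mul_le_mul_left _ (card_le_card fun x hx => ?_))
  obtain ⟨d, hd, rfl⟩ := mem_image.1 hx
  rw [Set.Finite.mem_toFinset] at hd ⊢
  obtain ⟨⟨hc, A, hA1, hA2, hA3⟩, -⟩ := hd
  refine ⟨⟨fun k => ?_, A, hA1, hA2, fun k => ?_⟩, Function.update_self _ _ _⟩
  · by_cases hk : k = i
    · rw [hk, Function.update_self]
      intro p hp h3
      exact hp.not_isUnit (isUnit_of_dvd_one ((dvd_pow_self p three_ne_zero).trans h3))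
    · rw [Function.update_of_ne hk]
      exact hc k
  · by_cases hk : k = i
    · rw [hk, Function.update_self]
      exact one_dvd _
    · rw [Function.update_of_ne hk]
      exact hA3 k

/-- **Removing the exceptional tuples.** -/
theorem CovG3.exc {R : Type} [CommRing R] {r : ℕ} {m : R} {u : Fin r → R}
    {P Q : (Fin r → R) → Prop} {c : ℝ} (hfin : ∀ X : ℝ, (lc3 R r X).Finite)
    (h : CovG3 R r m u P c) {τ : Type} (s : Finset τ) (Z : τ → (Fin r → R) → Prop) (C : ℕ)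
    (hPQ : ∀ d : Fin r → R, (∀ i, CFr (d i)) → P d → Q d ∨ ∃ a ∈ s, Z a d)
    (hZ : ∀ a ∈ s, ∃ i : Fin r, ∀ d : Fin r → R,
      {x : R | CFr x ∧ Z a (Function.update d i x)}.Finite ∧
      {x : R | CFr x ∧ Z a (Function.update d i x)}.ncard ≤ C)
    (hsm : s.Nonempty → Sm3 R r m u) : CovG3 R r m u Q c := by
  classical
  intro ε hε
  obtain ⟨n, hn⟩ : ∃ n : ℝ, n = (s.card : ℝ) * C + 1 := ⟨_, rfl⟩
  have hn0 : 0 < n := by
    rw [hn]
    positivity
  have hη : 0 < ε / (2 * n) := by positivity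
  have hsm' : ∀ᶠ X : ℝ in Filter.atTop, ∀ a ∈ s,
      ({d : Fin r → R | d ∈ lc3 R r X ∧ Z a d}.ncard : ℝ) ≤
        C * (ε / (2 * n) * ({d : Fin r → R | d ∈ lc3 R r X ∧ ∀ k, m ∣ d k - u k}.ncard : ℝ)) := by
    rw [Filter.eventually_all_finset]
    intro a ha
    obtain ⟨i, hi⟩ := hZ a ha
    filter_upwards [hsm ⟨a, ha⟩ i (ε / (2 * n)) hη] with X hX
    have h1 := ncard_upd3 X (hfin X) (Z a) i C hi
    have h2 : ({d : Fin r → R | d ∈ lc3 R r X ∧ Z a d}.ncard : ℝ) ≤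
        C * ({d : Fin r → R | d ∈ lc3 R r X ∧ d i = 1}.ncard : ℝ) := by exact_mod_cast h1
    exact h2.trans (mul_le_mul_of_nonneg_left hX (Nat.cast_nonneg _))
  filter_upwards [h (ε / 2) (by positivity), hsm'] with X hX hX2
  obtain ⟨D, hD⟩ : ∃ D : Set (Fin r → R), D = {d | d ∈ lc3 R r X ∧ ∀ k, m ∣ d k - u k} := ⟨_, rfl⟩
  have hDf : D.Finite := (hfin X).subset fun d hd => by
    rw [hD] at hd
    exact hd.1
  have e1 : Nat.card {d : Fin r → R // ((∀ i, ∀ p, Prime p → ¬ p ^ 3 ∣ d i) ∧ ∃ A : R, A ≠ 0 ∧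
      |Algebra.norm ℤ A| ≤ X ∧ ∀ i, d i ∣ A ^ 2) ∧ ∀ i, m ∣ d i - u i} = D.ncard := by
    rw [hD]
    rfl
  have e2 : ∀ P : (Fin r → R) → Prop, Nat.card {d : Fin r → R //
      ((∀ i, ∀ p, Prime p → ¬ p ^ 3 ∣ d i) ∧ ∃ A : R, A ≠ 0 ∧
      |Algebra.norm ℤ A| ≤ X ∧ ∀ i, d i ∣ A ^ 2) ∧ (∀ i, m ∣ d i - u i) ∧ P d} =
      {d | d ∈ D ∧ P d}.ncard := by
    intro P
    have e3 : {d | d ∈ D ∧ P d} = {d : Fin r → R | ((∀ i, ∀ p, Prime p → ¬ p ^ 3 ∣ d i) ∧
      ∃ A : R, A ≠ 0 ∧ |Algebra.norm ℤ A| ≤ X ∧ ∀ i, d i ∣ A ^ 2) ∧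
        (∀ i, m ∣ d i - u i) ∧ P d} := by
      rw [hD]
      ext d
      exact and_assoc
    rw [e3]
    rfl
  rw [e2, e1] at hX ⊢
  have hsub : {d | d ∈ D ∧ P d} ⊆ {d | d ∈ D ∧ Q d} ∪ ⋃ a ∈ s, {d | d ∈ lc3 R r X ∧ Z a d} := by
    rintro d ⟨h1, h2⟩
    have h1' : d ∈ lc3 R r X := by
      rw [hD] at h1
      exact h1.1
    rcases hPQ d h1'.1 h2 with h3 | ⟨a, ha, h3⟩
    · exact Or.inl ⟨h1, h3⟩
    · exact Or.inr (Set.mem_biUnion (show a ∈ (s : Set τ) from ha) ⟨h1', h3⟩)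
  have hfU : (⋃ a ∈ s, {d | d ∈ lc3 R r X ∧ Z a d}).Finite :=
    (hfin X).subset (Set.iUnion₂_subset fun a _ d hd => hd.1)
  have hle : {d | d ∈ D ∧ P d}.ncard ≤ {d | d ∈ D ∧ Q d}.ncard +
      ∑ a ∈ s, {d | d ∈ lc3 R r X ∧ Z a d}.ncard := by
    refine (Set.ncard_le_ncard hsub ((hDf.subset fun d hd => hd.1).union hfU)).trans ?_
    refine (Set.ncard_union_le _ _).trans (Nat.add_le_add_left ?_ _)
    exact Finset.set_ncard_biUnion_le s _
  have hle' : ({d | d ∈ D ∧ P d}.ncard : ℝ) ≤ ({d | d ∈ D ∧ Q d}.ncard : ℝ) +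
      ∑ a ∈ s, ({d | d ∈ lc3 R r X ∧ Z a d}.ncard : ℝ) := by exact_mod_cast hle
  have hD' : {d : Fin r → R | d ∈ lc3 R r X ∧ ∀ k, m ∣ d k - u k} = D := hD.symm
  rw [hD'] at hX2
  have hsum : ∑ a ∈ s, ({d | d ∈ lc3 R r X ∧ Z a d}.ncard : ℝ) ≤ ε / 2 * (D.ncard : ℝ) := by
    refine (sum_le_sum hX2).trans ?_
    rw [sum_const, nsmul_eq_mul]
    have h1 : (s.card : ℝ) * (C * (ε / (2 * n) * (D.ncard : ℝ))) =
        ((s.card : ℝ) * C) / n * (ε / 2 * (D.ncard : ℝ)) := by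
      field_simp
    rw [h1]
    have h2 : ((s.card : ℝ) * C) / n ≤ 1 := by
      rw [div_le_one hn0, hn]
      linarith
    have h3 : 0 ≤ ε / 2 * (D.ncard : ℝ) := by positivity
    nlinarith
  by_cases hD0 : D.ncard = 0
  · rw [hD0] at hX ⊢
    simp only [Nat.cast_zero, div_zero] at hX ⊢
    linarith
  have hDp : (0 : ℝ) < D.ncard := by exact_mod_cast Nat.pos_of_ne_zero hD0
  rw [le_div_iff₀ hDp] at hX ⊢
  have h4 : (c - ε) * (D.ncard : ℝ) = (c - ε / 2) * (D.ncard : ℝ) - ε / 2 * (D.ncard : ℝ) := by ring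
  rw [h4]
  linarith

theorem CovG3.mono {R : Type} [CommRing R] {r : ℕ} {m : R} {u : Fin r → R}
    {P Q : (Fin r → R) → Prop} {c : ℝ} (hfin : ∀ X : ℝ, (lc3 R r X).Finite)
    (h : CovG3 R r m u P c) (hPQ : ∀ d : Fin r → R, (∀ i, CFr (d i)) → P d → Q d) :
    CovG3 R r m u Q c :=
  CovG3.exc hfin h (∅ : Finset Unit) (fun _ _ => False) 0 (fun d hd hp => Or.inl (hPQ d hd hp))
    (fun a ha => absurd ha (notMem_empty a)) (fun h => absurd h not_nonempty_empty)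

theorem CovG3.anti {R : Type} [CommRing R] {r : ℕ} {m : R} {u : Fin r → R}
    {P : (Fin r → R) → Prop} {c c' : ℝ} (h : CovG3 R r m u P c) (hc : c' ≤ c) :
    CovG3 R r m u P c' := by
  intro ε hε
  filter_upwards [h ε hε] with X hX
  linarith

/-- The finiteness over a field with finitely many units. -/
theorem lc3_finite {K : Type} [Field K] [NumberField K] [Finite (𝓞 K)ˣ] (r : ℕ) (X : ℝ) :
    (lc3 (𝓞 K) r X).Finite := by
  have h1 : {x : 𝓞 K | x ≠ 0 ∧ |Algebra.norm ℤ x| ≤ X ^ 2}.Finite :=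
    Pool.Agent.Lib.MP_1a91b9_ntW.J.finite_norm_le (K := K) (X ^ 2)
  refine (Set.Finite.pi fun _ : Fin r => h1).subset ?_
  rintro d ⟨-, A, hA1, hA2, hA3⟩
  rw [Set.mem_pi]
  intro k _
  have hA0 : A ^ 2 ≠ 0 := pow_ne_zero 2 hA1
  have hk0 : d k ≠ 0 := fun h => hA0 (by
    have h2 := hA3 k
    rw [h] at h2
    exact zero_dvd_iff.1 h2)
  refine ⟨hk0, ?_⟩
  obtain ⟨e, he⟩ := hA3 k
  have hnA : Algebra.norm ℤ A ^ 2 = Algebra.norm ℤ (d k) * Algebra.norm ℤ e := by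
    rw [← map_pow, he, map_mul]
  have hne : Algebra.norm ℤ e ≠ 0 := by
    intro h
    rw [h, mul_zero] at hnA
    exact hA1 (Algebra.norm_eq_zero_iff.1 (pow_eq_zero_iff two_ne_zero |>.1 hnA))
  have h3 : |Algebra.norm ℤ (d k)| ≤ |Algebra.norm ℤ A| ^ 2 := by
    rw [← abs_pow, hnA, abs_mul]
    exact le_mul_of_one_le_right (abs_nonneg _) (Int.one_le_abs hne)
  have h4 : ((|Algebra.norm ℤ (d k)| : ℤ) : ℝ) ≤ ((|Algebra.norm ℤ A| : ℤ) : ℝ) ^ 2 := by
    exact_mod_cast h3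
  refine h4.trans (pow_le_pow_left₀ ?_ hA2 2)
  exact_mod_cast abs_nonneg (Algebra.norm ℤ A)

/-- The cube-free elements under an isomorphism. -/
theorem CFr.equiv {R S : Type} [CommRing R] [CommRing S] (e : R ≃+* S) {x : R} :
    CFr (e x) ↔ CFr x := by
  constructor
  · intro h p hp hd
    refine h (e p) ((MulEquiv.prime_iff e.toMulEquiv).2 hp) ?_
    rw [← map_pow]
    exact map_dvd e hd
  · intro h p hp hd
    refine h (e.symm p) ((MulEquiv.prime_iff e.symm.toMulEquiv).2 hp) ?_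
    rw [← map_pow]
    have h1 := map_dvd e.symm hd
    rwa [RingEquiv.symm_apply_apply] at h1

/-- The tuples under an isomorphism. -/
theorem lc3_equiv {K K' : Type} [Field K] [NumberField K] [Field K'] [NumberField K']
    (e : K' ≃+* K) {r : ℕ} {X : ℝ} (d : Fin r → 𝓞 K') :
    (fun i => RingOfIntegers.mapRingEquiv e (d i)) ∈ lc3 (𝓞 K) r X ↔ d ∈ lc3 (𝓞 K') r X := by
  have hdvd : ∀ d D : 𝓞 K', d ∣ D ↔
      RingOfIntegers.mapRingEquiv e d ∣ RingOfIntegers.mapRingEquiv e D := by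
    intro d D
    constructor
    · intro h
      exact map_dvd (RingOfIntegers.mapRingEquiv e) h
    · intro h
      have h1 := map_dvd (RingOfIntegers.mapRingEquiv e).symm h
      rwa [RingEquiv.symm_apply_apply, RingEquiv.symm_apply_apply] at h1
  refine and_congr (forall_congr' fun i => CFr.equiv (RingOfIntegers.mapRingEquiv e)) ?_
  constructor
  · rintro ⟨A, h1, h2, h3⟩
    obtain ⟨A, rfl⟩ := (RingOfIntegers.mapRingEquiv e).surjective A
    refine ⟨A, fun h => h1 (by rw [h, map_zero]), ?_, fun i => (hdvd _ _).2 ?_⟩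
    · rw [norm_mapRingEquiv] at h2
      exact h2
    · rw [map_pow]
      exact h3 i
  · rintro ⟨A, h1, h2, h3⟩
    refine ⟨RingOfIntegers.mapRingEquiv e A,
      (map_ne_zero_iff _ (RingOfIntegers.mapRingEquiv e).injective).2 h1, ?_, fun i => ?_⟩
    · rw [norm_mapRingEquiv]
      exact h2
    · rw [← map_pow]
      exact (hdvd _ _).1 (h3 i)

/-- The classes under an isomorphism. -/
theorem T5_cls {K K' : Type} [Field K] [NumberField K] [Field K'] [NumberField K']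
    (e : K' ≃+* K) {m : 𝓞 K} (d : 𝓞 K') (v : 𝓞 K) : (RingOfIntegers.mapRingEquiv e).symm m ∣
      d - (RingOfIntegers.mapRingEquiv e).symm v ↔ m ∣ RingOfIntegers.mapRingEquiv e d - v := by
  constructor
  · intro h
    have h1 := map_dvd (RingOfIntegers.mapRingEquiv e) h
    rwa [map_sub, RingEquiv.apply_symm_apply, RingEquiv.apply_symm_apply] at h1
  · intro h
    have h1 := map_dvd (RingOfIntegers.mapRingEquiv e).symm h
    rwa [map_sub, RingEquiv.symm_apply_apply] at h1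

/-- **Transport along an isomorphism of fields.** -/
theorem CovG3.tr {K K' : Type} [Field K] [NumberField K] [Field K'] [NumberField K']
    (e : K' ≃+* K) {r : ℕ} {m : 𝓞 K} {u : Fin r → 𝓞 K} {P : (Fin r → 𝓞 K) → Prop} {c : ℝ}
    (h : CovG3 (𝓞 K') r ((RingOfIntegers.mapRingEquiv e).symm m)
      (fun i => (RingOfIntegers.mapRingEquiv e).symm (u i))
      (fun d => P (fun i => RingOfIntegers.mapRingEquiv e (d i))) c) : CovG3 (𝓞 K) r m u P c := by
  intro ε hε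
  filter_upwards [h ε hε] with X hX
  have h1 : Nat.card {d : Fin r → 𝓞 K' // ((∀ i, ∀ p, Prime p → ¬ p ^ 3 ∣ d i) ∧
      ∃ A : 𝓞 K', A ≠ 0 ∧ |Algebra.norm ℤ A| ≤ X ∧ ∀ i, d i ∣ A ^ 2) ∧
      (∀ i, (RingOfIntegers.mapRingEquiv e).symm m ∣
        d i - (RingOfIntegers.mapRingEquiv e).symm (u i)) ∧
        P (fun i => RingOfIntegers.mapRingEquiv e (d i))} =
      Nat.card {d : Fin r → 𝓞 K // ((∀ i, ∀ p, Prime p → ¬ p ^ 3 ∣ d i) ∧
      ∃ A : 𝓞 K, A ≠ 0 ∧ |Algebra.norm ℤ A| ≤ X ∧ ∀ i, d i ∣ A ^ 2) ∧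
      (∀ i, m ∣ d i - u i) ∧ P d} :=
    Nat.card_congr ((Equiv.piCongrRight fun _ : Fin r =>
      (RingOfIntegers.mapRingEquiv e).toEquiv).subtypeEquiv fun d =>
        and_congr (lc3_equiv e d).symm
          (and_congr (forall_congr' fun i => T5_cls e (d i) (u i)) Iff.rfl))
  have h2 : Nat.card {d : Fin r → 𝓞 K' // ((∀ i, ∀ p, Prime p → ¬ p ^ 3 ∣ d i) ∧
      ∃ A : 𝓞 K', A ≠ 0 ∧ |Algebra.norm ℤ A| ≤ X ∧ ∀ i, d i ∣ A ^ 2) ∧
      ∀ i, (RingOfIntegers.mapRingEquiv e).symm m ∣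
        d i - (RingOfIntegers.mapRingEquiv e).symm (u i)} =
      Nat.card {d : Fin r → 𝓞 K // ((∀ i, ∀ p, Prime p → ¬ p ^ 3 ∣ d i) ∧
      ∃ A : 𝓞 K, A ≠ 0 ∧ |Algebra.norm ℤ A| ≤ X ∧ ∀ i, d i ∣ A ^ 2) ∧
      ∀ i, m ∣ d i - u i} :=
    Nat.card_congr ((Equiv.piCongrRight fun _ : Fin r =>
      (RingOfIntegers.mapRingEquiv e).toEquiv).subtypeEquiv fun d =>
        and_congr (lc3_equiv e d).symm (forall_congr' fun i => T5_cls e (d i) (u i)))
  rw [h1, h2] at hX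
  exact hX

/-- **Transport along an isomorphism of fields.** -/
theorem Sm3.tr {K K' : Type} [Field K] [NumberField K] [Field K'] [NumberField K']
    (e : K' ≃+* K) {r : ℕ} {m : 𝓞 K} {u : Fin r → 𝓞 K}
    (h : Sm3 (𝓞 K') r ((RingOfIntegers.mapRingEquiv e).symm m)
      (fun i => (RingOfIntegers.mapRingEquiv e).symm (u i))) : Sm3 (𝓞 K) r m u := by
  intro i ε hε
  filter_upwards [h i ε hε] with X hX
  have h1 : Nat.card {d : Fin r → 𝓞 K' // d ∈ lc3 (𝓞 K') r X ∧ d i = 1} =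
      Nat.card {d : Fin r → 𝓞 K // d ∈ lc3 (𝓞 K) r X ∧ d i = 1} :=
    Nat.card_congr ((Equiv.piCongrRight fun _ : Fin r =>
      (RingOfIntegers.mapRingEquiv e).toEquiv).subtypeEquiv fun d =>
        and_congr (lc3_equiv e d).symm
          (map_eq_one_iff (RingOfIntegers.mapRingEquiv e)
            (RingOfIntegers.mapRingEquiv e).injective).symm)
  have h2 : Nat.card {d : Fin r → 𝓞 K' // d ∈ lc3 (𝓞 K') r X ∧
      ∀ i, (RingOfIntegers.mapRingEquiv e).symm m ∣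
        d i - (RingOfIntegers.mapRingEquiv e).symm (u i)} =
      Nat.card {d : Fin r → 𝓞 K // d ∈ lc3 (𝓞 K) r X ∧ ∀ i, m ∣ d i - u i} :=
    Nat.card_congr ((Equiv.piCongrRight fun _ : Fin r =>
      (RingOfIntegers.mapRingEquiv e).toEquiv).subtypeEquiv fun d =>
        and_congr (lc3_equiv e d).symm (forall_congr' fun i => T5_cls e (d i) (u i)))
  have hX' : (Nat.card {d : Fin r → 𝓞 K' // d ∈ lc3 (𝓞 K') r X ∧ d i = 1} : ℝ) ≤
      ε * (Nat.card {d : Fin r → 𝓞 K' // d ∈ lc3 (𝓞 K') r X ∧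
      ∀ i, (RingOfIntegers.mapRingEquiv e).symm m ∣
        d i - (RingOfIntegers.mapRingEquiv e).symm (u i)} : ℝ) := hX
  rw [h1, h2] at hX'
  exact hX'

open Classical in
/-- **From finite sets to sets of multipliers.** -/
theorem set_cov3 {R α : Type} [CommRing R] {r : ℕ} {m : R} {u : Fin r → R}
    (hfin : ∀ X : ℝ, (lc3 R r X).Finite)
    {Q : α → (Fin r → R) → Prop} {T : Set α} {t : ℕ} {g v : ℝ} (hg0 : 0 < g) (hg1 : g ≤ 1)
    (hv : v = if T.Infinite then 1 else bn T.ncard t g)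
    (h : ∀ S : Finset α, (S : Set α) ⊆ T →
      CovG3 R r m u (fun d => t ≤ (S.filter fun δ => Q δ d).card) (bn S.card t g)) :
    CovG3 R r m u (fun d => (t : ℕ∞) ≤ {δ ∈ T | Q δ d}.encard) v := by
  have hle : ∀ (S : Finset α) (d : Fin r → R), (S : Set α) ⊆ T →
      t ≤ (S.filter fun δ => Q δ d).card → (t : ℕ∞) ≤ {δ ∈ T | Q δ d}.encard := by
    intro S d hS h1
    have h2 : (((S.filter fun δ => Q δ d) : Finset α) : Set α) ⊆ {δ ∈ T | Q δ d} := by
      intro δ hδ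
      have h3 := Finset.mem_filter.1 (Finset.mem_coe.1 hδ)
      exact ⟨hS (Finset.mem_coe.2 h3.1), h3.2⟩
    have h4 := Set.encard_le_encard h2
    rw [Set.encard_coe_eq_coe_finsetCard] at h4
    exact le_trans (by exact_mod_cast h1) h4
  rcases T.finite_or_infinite with hT | hT
  · have hv' : v = bn T.ncard t g := by rw [hv, if_neg (Set.not_infinite.2 hT)]
    have h1 := h hT.toFinset (by rw [hT.coe_toFinset])
    rw [← Set.ncard_eq_toFinset_card T hT, ← hv'] at h1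
    exact h1.mono hfin fun d _ h2 => hle _ d (by rw [hT.coe_toFinset]) h2
  · have hv' : v = 1 := by rw [hv, if_pos hT]
    intro ε hε
    obtain ⟨k, hk⟩ := ((bn_tendsto hg0 hg1 t).eventually
      (lt_mem_nhds (show 1 - ε / 2 < 1 by linarith))).exists
    obtain ⟨S, hST, hSk⟩ := hT.exists_subset_card_eq k
    have h1 := (h S hST).mono hfin fun d _ h2 => hle S d hST h2
    rw [hSk] at h1
    filter_upwards [h1 (ε / 2) (by positivity)] with X hX
    rw [hv']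
    linarith

end

end Pool.Agent.Lib.MP_1a91b9_ntMC
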