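import Pool.Agent.Lib.MP_1a91b9_ntMC.T3

/-!
# MP_1a91b9_nt (all the multicubic fields): the law for the tuples of elements
-/

set_option autoImplicit false
set_option linter.unusedSectionVars false

namespace Pool.Agent.Lib.MP_1a91b9_ntMC

open NumberField Finset Pool.Agent.Lib.MP_1a91b9_ntT Pool.Agent.Lib.MP_1a91b9_ntK
  Pool.Agent.Lib.MP_1a91b9_ntK.Da Pool.Agent.Lib.MP_1a91b9_ntK2 Pool.Agent.Lib.MP_1a91b9_ntK2.D9
  Pool.Agent.Lib.MP_1a91b9_ntZ Pool.Agent.Lib.MP_1a91b9_ntN Pool.Agent.Lib.MP_1a91b9_ntN.H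
open Pool.Agent.Lib.MP_1a91b9_ntH (wO s3 Sx prime_s3)
open Pool.Agent.Lib.MP_1a91b9_ntS3.G (G9 c9 Q9)
open Pool.Agent.Lib.MP_1a91b9_ntCC (GdT GdET gdET_of)

noncomputable section

/-! ### Elements up to cubes -/

/-- `x` is `± w ^ k s3 ^ j ∏ q ^ e q` times a cube. -/
def Rl (R : Finset P3) (x : 𝓞 K) (k j : Fin 3) (e : P3 → ZMod 3) : Prop :=
  ∃ (b : Bool) (t : 𝓞 K), t ≠ 0 ∧ x = pf b k j (PE e R) * t ^ 3

theorem Rl.one (R : Finset P3) : Rl R 1 0 0 0 := by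
  refine ⟨false, 1, one_ne_zero, ?_⟩
  have h1 : PE 0 R = 1 := prod_eq_one fun q _ => by
    rw [Pi.zero_apply, ZMod.val_zero, pow_zero]
  rw [h1]
  unfold pf un
  simp

theorem Rl.mul {R : Finset P3} {x x' : 𝓞 K} {k k' j j' : Fin 3} {e e' : P3 → ZMod 3}
    (h : Rl R x k j e) (h' : Rl R x' k' j' e') : Rl R (x * x') (k + k') (j + j') (e + e') := by
  obtain ⟨b, t, ht, rfl⟩ := h
  obtain ⟨b', t', ht', rfl⟩ := h'
  obtain ⟨s, hs, h1⟩ := PE_mul e e' R
  obtain ⟨s', hs', h2⟩ := pf_mul b b' k k' j j' hs h1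
  refine ⟨b, s' * t * t', mul_ne_zero (mul_ne_zero hs' ht) ht', ?_⟩
  have h3 : (fun q => e q + e' q) = e + e' := rfl
  rw [h3] at h2
  linear_combination (t * t') ^ 3 * h2

theorem Rl.pow {R : Finset P3} {x : 𝓞 K} {k j : Fin 3} {e : P3 → ZMod 3} (h : Rl R x k j e)
    (m : ℕ) : Rl R (x ^ m) (m • k) (m • j) (m • e) := by
  induction m with
  | zero =>
    rw [pow_zero, zero_nsmul, zero_nsmul, zero_nsmul]
    exact Rl.one R
  | succ m ih =>
    rw [pow_succ, succ_nsmul, succ_nsmul, succ_nsmul]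
    exact ih.mul h

theorem Rl.prod {α : Type} {R : Finset P3} {x : α → 𝓞 K} {k j : α → Fin 3} {e : α → P3 → ZMod 3}
    (h : ∀ i, Rl R (x i) (k i) (j i) (e i)) (m : α → ℕ) (s : Finset α) :
    Rl R (∏ i ∈ s, x i ^ m i) (∑ i ∈ s, m i • k i) (∑ i ∈ s, m i • j i) (∑ i ∈ s, m i • e i) := by
  classical
  induction s using Finset.induction_on with
  | empty =>
    rw [prod_empty, sum_empty, sum_empty, sum_empty]
    exact Rl.one R
  | insert i s hi ih =>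
    rw [prod_insert hi, sum_insert hi, sum_insert hi, sum_insert hi]
    exact ((h i).pow (m i)).mul ih

theorem Rl.congr {R : Finset P3} {x : 𝓞 K} {k j : Fin 3} {e e' : P3 → ZMod 3} (h : Rl R x k j e)
    (he : ∀ q ∈ R, e q = e' q) : Rl R x k j e' := by
  obtain ⟨b, t, ht, h1⟩ := h
  exact ⟨b, t, ht, by rw [h1, PE_congr he]⟩

variable {r : ℕ}

/-- The product of the powers of the entries. -/
theorem prod_pe (jt : Fin r → TT) (b : Cb P3 (Fin r)) (χ : Fin r → ZMod 3) {R : Finset P3}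
    (hR : b.1 ⊆ R) :
    Rl R (∏ i, pe jt b i ^ (χ i).val) (∑ i, (χ i).val • (jt i).2.1) (∑ i, (χ i).val • (jt i).2.2)
      (cx χ b) := by
  have h1 : ∀ i, Rl R (pe jt b i) (jt i).2.1 (jt i).2.2 (fun q => cz b q i) := by
    intro i
    refine ⟨(jt i).1, 1, one_ne_zero, ?_⟩
    unfold pe
    rw [one_pow, mul_one, PE_sub hR fun q _ hq => by rw [cz_of_not hq]; rfl]
  refine (Rl.prod h1 (fun i => (χ i).val) univ).congr fun q _ => ?_
  rw [Finset.sum_apply]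
  unfold cx dotProduct
  refine sum_congr rfl fun i _ => ?_
  rw [Pi.smul_apply, nsmul_eq_mul, ZMod.natCast_zmod_val]

/-- **The law for the tuples of elements of the model of `ℚ(√-3)`.** -/
theorem den_allM (J : JM3) (hpos : ∀ n r, CovPos3 (c9 n) (Fin r)) {n r k N : ℕ} (hN : 0 < N)
    (ty : Fin k → (Fin r → ZMod 3) → Fin N → Fin 3) (a : Fin k → (Fin r → ZMod 3) → Fin N → 𝓞 K)
    (hne : ∀ b χ l, a b χ l ≠ 0)
    (hdis : ∀ χ ∈ Rp r, ∀ p p' : Fin k × Fin N, p ≠ p' →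
      ¬ ∃ y : K, y ^ 3 * (a p'.1 χ p'.2 : K) = a p.1 χ p.2)
    {w : ℝ} (hw0 : 0 ≤ w) (hw1 : w ≤ 1) (hw : ∀ b χ l, ty b χ l = 2 → w ≤ 2 / 3)
    {m : 𝓞 K} {u : Fin r → 𝓞 K} (hm : m ∣ Q9 n) (hu : ∀ i, ¬ (s3 ^ 3 ∣ m ∧ s3 ^ 3 ∣ u i)) (t : ℕ) :
    CovG3 (𝓞 K) r m u (fun d => Atl t fun b => ∀ χ ∈ Rp r, ∀ l,
        GdET (ty b χ l) (a b χ l * ∏ j, d j ^ (χ j).val))
      (bn k t ((w * ∏' i : ℕ, (1 + 1 / (3 : ℝ) ^ (i + 1))⁻¹) ^ (N * (Rp r).card))) := by
  classical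
  rw [cinf3_form]
  have h1 : ∀ b χ l, ∃ (bb : Bool) (k j : Fin 3) (P V : Finset P3) (s : 𝓞 K), Disjoint P V ∧
      s ≠ 0 ∧ a b χ l = pf bb k j (DD3 P * DD3 V ^ 2) * s ^ 3 :=
    fun b χ l => exists_sf (a b χ l) (hne b χ l)
  choose bb kk jk P V s hPV hs hT using h1
  obtain ⟨B, hB⟩ : ∃ B : Finset P3, B = univ.biUnion fun b : Fin k =>
      univ.biUnion fun χ : Fin r → ZMod 3 => univ.biUnion fun l : Fin N => P b χ l ∪ V b χ l :=
    ⟨_, rfl⟩
  have hPVB : ∀ b χ l, P b χ l ∪ V b χ l ⊆ B := fun b χ l => by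
    rw [hB]
    exact (subset_biUnion_of_mem (fun l => P b χ l ∪ V b χ l) (mem_univ l)).trans
      ((subset_biUnion_of_mem (fun χ : Fin r → ZMod 3 =>
        univ.biUnion fun l : Fin N => P b χ l ∪ V b χ l) (mem_univ χ)).trans
        (subset_biUnion_of_mem (fun b : Fin k => univ.biUnion fun χ : Fin r → ZMod 3 =>
          univ.biUnion fun l : Fin N => P b χ l ∪ V b χ l) (mem_univ b)))
  have hPB : ∀ b χ l, P b χ l ⊆ B := fun b χ l => subset_union_left.trans (hPVB b χ l)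
  have hVB : ∀ b χ l, V b χ l ⊆ B := fun b χ l => subset_union_right.trans (hPVB b χ l)
  have hinj : ∀ χ ∈ Rp r, ∀ p p' : Fin k × Fin N, kk p.1 χ p.2 = kk p'.1 χ p'.2 →
      jk p.1 χ p.2 = jk p'.1 χ p'.2 → P p.1 χ p.2 = P p'.1 χ p'.2 → V p.1 χ p.2 = V p'.1 χ p'.2 →
      p = p' := by
    intro χ hχ p p' e1 e2 e3 e4
    by_contra hpp
    apply hdis χ hχ p p' hpp
    obtain ⟨t, ht, h2⟩ := pf_sgn (bb p.1 χ p.2) (bb p'.1 χ p'.2) (kk p.1 χ p.2) (jk p.1 χ p.2)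
      (DD3 (P p.1 χ p.2) * DD3 (V p.1 χ p.2) ^ 2)
    have hs0 : ((s p'.1 χ p'.2 : 𝓞 K) : K) ≠ 0 := by exact_mod_cast hs p'.1 χ p'.2
    refine ⟨((t * s p.1 χ p.2 : 𝓞 K) : K) / ((s p'.1 χ p'.2 : 𝓞 K) : K), ?_⟩
    have h3 : (t * s p.1 χ p.2) ^ 3 * a p'.1 χ p'.2 = a p.1 χ p.2 * (s p'.1 χ p'.2) ^ 3 := by
      rw [hT p.1 χ p.2, hT p'.1 χ p'.2, ← e1, ← e2, ← e3, ← e4, h2]
      ring
    have h4 : ((t * s p.1 χ p.2 : 𝓞 K) : K) ^ 3 * ((a p'.1 χ p'.2 : 𝓞 K) : K) =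
        ((a p.1 χ p.2 : 𝓞 K) : K) * ((s p'.1 χ p'.2 : 𝓞 K) : K) ^ 3 := by exact_mod_cast h3
    rw [div_pow, div_mul_eq_mul_div, h4, mul_div_assoc, div_self (pow_ne_zero 3 hs0), mul_one]
  refine lawC3 (hpos n r) hm hu _ _ fun jt => ?_
  refine CovL3.glue (B := B) fun z => ?_
  obtain ⟨ex, hex⟩ : ∃ ex : Fin k → (Fin r → ZMod 3) → Fin N → P3 → ZMod 3, ∀ b χ l q,
      ex b χ l q = ez (P b χ l) (V b χ l) q + cx χ (wB z) q :=
    ⟨fun b χ l q => ez (P b χ l) (V b χ l) q + cx χ (wB z) q, fun _ _ _ _ => rfl⟩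
  have hdj : ∀ b χ l, Disjoint (B.filter fun q => ex b χ l q = 1) (B.filter fun q => ex b χ l q = 2) :=
    fun b χ l => T2_disj _ _
  refine (J n r k N hN ty (fun b χ l => kk b χ l + ∑ i, (χ i).val • (jt i).2.1)
    (fun b χ l => jk b χ l + ∑ i, (χ i).val • (jt i).2.2)
    (fun b χ l => B.filter fun q => ex b χ l q = 1) (fun b χ l => B.filter fun q => ex b χ l q = 2) B
    (fun b χ l => filter_subset _ _) (fun b χ l => filter_subset _ _) hdj
    (fun χ hχ p p' h => ?_) t w hw0 hw1 hw).mono fun b hb h => ?_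
  · simp only [Prod.mk.injEq] at h
    obtain ⟨e1, e2, e3, e4⟩ := h
    have e5 : ∀ q ∈ B, ez (P p.1 χ p.2) (V p.1 χ p.2) q = ez (P p'.1 χ p'.2) (V p'.1 χ p'.2) q := by
      intro q hq
      have h1 : ex p.1 χ p.2 q = ex p'.1 χ p'.2 q := by
        refine z3_ext ?_ ?_
        · have h2 := Finset.ext_iff.1 e3 q
          simp only [mem_filter, hq, true_and] at h2
          exact h2
        · have h2 := Finset.ext_iff.1 e4 q
          simp only [mem_filter, hq, true_and] at h2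
          exact h2
      rw [hex, hex] at h1
      exact add_right_cancel h1
    refine hinj χ hχ p p' (add_right_cancel e1) (add_right_cancel e2) ?_ ?_
    · ext q
      constructor
      · intro h1
        have h2 := e5 q (hPB _ _ _ h1)
        rw [ez_eq_one.2 h1] at h2
        exact ez_eq_one.1 h2.symm
      · intro h1
        have h2 := e5 q (hPB _ _ _ h1)
        rw [ez_eq_one.2 h1] at h2
        exact ez_eq_one.1 h2
    · ext q
      constructor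
      · intro h1
        have h2 := e5 q (hVB _ _ _ h1)
        rw [(ez_eq_two (hPV _ _ _)).2 h1] at h2
        exact (ez_eq_two (hPV _ _ _)).1 h2.symm
      · intro h1
        have h2 := e5 q (hVB _ _ _ h1)
        rw [(ez_eq_two (hPV _ _ _)).2 h1] at h2
        exact (ez_eq_two (hPV _ _ _)).1 h2
  · refine h.mono fun i hi χ hχ l => ?_
    have hG := hi χ hχ l
    have hR : (gl z b).1 ⊆ b.1 ∪ B := by
      rw [gl_fst z hb]
      exact union_subset_union_right (wB_sub z)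
    have h2 := prod_pe jt (gl z b) χ hR
    have h3 : Rl (b.1 ∪ B) (a i χ l) (kk i χ l) (jk i χ l) (ez (P i χ l) (V i χ l)) := by
      refine ⟨bb i χ l, s i χ l, hs i χ l, ?_⟩
      rw [PE_pair (hPV i χ l) ((hPB i χ l).trans subset_union_right)
        ((hVB i χ l).trans subset_union_right)]
      exact hT i χ l
    obtain ⟨b', t', ht', h4⟩ := h3.mul h2
    rw [PE_split] at h4
    have hout : ∀ q ∈ b.1, (ez (P i χ l) (V i χ l) + cx χ (gl z b)) q = cx χ b q := by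
      intro q hq
      have hqB : q ∉ B := disjoint_left.1 hb hq
      rw [Pi.add_apply, ez_zero (fun h => hqB (hPB i χ l h)) (fun h => hqB (hVB i χ l h)), zero_add]
      unfold cx
      rw [cz_gl, dif_neg hqB]
    have hin : ∀ q ∈ B, (ez (P i χ l) (V i χ l) + cx χ (gl z b)) q = ex i χ l q := by
      intro q hq
      rw [Pi.add_apply, hex]
      unfold cx
      rw [cz_gl, cz_wB, dif_pos hq, dif_pos hq]
    have hf : ∀ e : ZMod 3, ((b.1 ∪ B).filter fun q =>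
        (ez (P i χ l) (V i χ l) + cx χ (gl z b)) q = e) =
        Rv e χ b ∪ B.filter fun q => ex i χ l q = e := by
      intro e
      ext q
      rw [mem_filter, mem_union, mem_union, mem_Rv, mem_filter]
      constructor
      · rintro ⟨h5 | h5, h6⟩
        · rw [hout q h5] at h6
          exact Or.inl ⟨h5, h6⟩
        · rw [hin q h5] at h6
          exact Or.inr ⟨h5, h6⟩
      · rintro (⟨h5, h6⟩ | ⟨h5, h6⟩)
        · exact ⟨Or.inl h5, (hout q h5).trans h6⟩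
        · exact ⟨Or.inr h5, (hin q h5).trans h6⟩
    have hdd := T2_disj (ez (P i χ l) (V i χ l) + cx χ (gl z b)) (b.1 ∪ B)
    rw [hf 1, hf 2] at hdd h4
    exact gdET_of hdd ht' h4 hG

end

end Pool.Agent.Lib.MP_1a91b9_ntMC
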