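import Pool.Agent.Lib.MP_1a91b9_ntMC.A0
import Pool.Agent.Lib.MP_1a91b9_ntMC.TM
import Pool.Agent.Lib.MP_1a91b9_ntMC.T5
import Pool.Agent.Lib.MP_1a91b9_ntCC.DRk
import Pool.Agent.Lib.MP_1a91b9_ntI.TrLs

/-!
# MP_1a91b9_nt (all the multicubic fields): the rank part for all the products

The law over `K` for the curves `y² + b α (∏ (δ_i d_i) ^ χ_i) y = x³`, all `χ ≠ 0` and all the `b` which are cubes in the
multicubic field `F` of `K`. Model: `ntCC/DRk`.
-/

set_option autoImplicit false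
set_option linter.unusedSectionVars false

namespace Pool.Agent.Lib.MP_1a91b9_ntMC

open NumberField IsDedekindDomain Finset WeierstrassCurve Pool.Agent.Lib.MP_1a91b9_ntN.H
  Pool.Agent.Lib.MP_1a91b9_ntZ
open Pool.Agent.Lib.MP_1a91b9_ntCC (mct_full cinf3_le)
open Pool.Agent.Lib.MP_1a91b9_ntK.Da (cinf3)
open Pool.Agent.Lib.MP_1a91b9_ntN (MCT chain3 Wt_good lfree_iff norm_ringEquiv adjoin_top)
open Pool.Agent.Lib.MP_1a91b9_ntH (s3 prime_s3 s3_sq)
open Pool.Agent.Lib.MP_1a91b9_ntS3.G (G9 c9 Q9)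

/-! ### The products -/

theorem chp_mulr {R : Type} [CommMonoid R] {r : ℕ} (χ : Fin r → ZMod 3) (e e' : Fin r → R) :
    chp χ (fun i => e i * e' i) = chp χ e * chp χ e' := by
  unfold chp
  rw [← prod_mul_distrib]
  exact prod_congr rfl fun i _ => mul_pow _ _ _

private theorem A1_chp_ne {R : Type} [CommRing R] [IsDomain R] {r : ℕ} {χ : Fin r → ZMod 3} {e : Fin r → R}
    (h : ∀ i, e i ≠ 0) : chp χ e ≠ 0 :=
  prod_ne_zero_iff.2 fun i _ => pow_ne_zero _ (h i)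

private theorem A1_map_chp {R S : Type} [CommSemiring R] [CommSemiring S] (f : R →+* S) {r : ℕ}
    (χ : Fin r → ZMod 3) (e : Fin r → R) : f (chp χ e) = chp χ fun i => f (e i) := by
  unfold chp
  rw [map_prod]
  exact prod_congr rfl fun i _ => map_pow f _ _

/-- The square is the product for `-χ`, up to a cube. -/
theorem chp_neg {R : Type} [CommRing R] [IsDomain R] {r : ℕ} (χ : Fin r → ZMod 3) {e : Fin r → R}
    (h : ∀ i, e i ≠ 0) : ∃ s : R, s ≠ 0 ∧ chp χ e ^ 2 = chp (-χ) e * s ^ 3 := by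
  classical
  refine ⟨∏ i, if χ i = 2 then e i else 1, prod_ne_zero_iff.2 fun i _ => ?_, ?_⟩
  · split_ifs
    · exact h i
    · exact one_ne_zero
  · unfold chp
    rw [← prod_pow, ← prod_pow, ← prod_mul_distrib]
    refine prod_congr rfl fun i _ => ?_
    have h3 : ∀ x : ZMod 3, x = 0 ∨ x = 1 ∨ x = 2 := by decide
    have v0 : (0 : ZMod 3).val = 0 := rfl
    have v1 : (1 : ZMod 3).val = 1 := rfl
    have v2 : (2 : ZMod 3).val = 2 := rfl
    have n0 : (-(0 : ZMod 3)).val = 0 := rfl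
    have n1 : (-(1 : ZMod 3)).val = 2 := rfl
    have n2 : (-(2 : ZMod 3)).val = 1 := rfl
    rw [Pi.neg_apply]
    rcases h3 (χ i) with h4 | h4 | h4
    · rw [h4, v0, n0, if_neg (by decide)]
      ring
    · rw [h4, v1, n1, if_neg (by decide)]
      ring
    · rw [h4, v2, n2, if_pos rfl]
      ring

/-! ### The vectors up to the sign -/

theorem mem_Rp {r : ℕ} {χ : Fin r → ZMod 3} : χ ∈ Rp r ↔ ∃ i, χ i = 1 ∧ ∀ j, j < i → χ j = 0 := by
  classical
  unfold Rp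
  rw [mem_filter]
  exact ⟨fun h => h.2, fun h => ⟨mem_univ _, h⟩⟩

theorem Rp_ne {r : ℕ} {χ : Fin r → ZMod 3} (h : χ ∈ Rp r) : χ ≠ 0 := by
  obtain ⟨i, h1, -⟩ := mem_Rp.1 h
  intro h0
  rw [h0, Pi.zero_apply] at h1
  exact absurd h1 (by decide)

theorem Rp_or {r : ℕ} {χ : Fin r → ZMod 3} (h : χ ≠ 0) : χ ∈ Rp r ∨ -χ ∈ Rp r := by
  classical
  have hne : ((univ : Finset (Fin r)).filter fun i => χ i ≠ 0).Nonempty := by
    by_contra h1
    rw [not_nonempty_iff_eq_empty, filter_eq_empty_iff] at h1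
    exact h (funext fun i => not_not.1 (h1 (mem_univ i)))
  obtain ⟨i, hi, hmin⟩ := exists_min_image _ (fun i : Fin r => i) hne
  rw [mem_filter] at hi
  have hz : ∀ j, j < i → χ j = 0 := by
    intro j hj
    by_contra h1
    exact absurd (hmin j (mem_filter.2 ⟨mem_univ _, h1⟩)) (not_le.2 hj)
  have h3 : ∀ x : ZMod 3, x ≠ 0 → x = 1 ∨ -x = 1 := by decide
  rcases h3 (χ i) hi.2 with h4 | h4
  · exact Or.inl (mem_Rp.2 ⟨i, h4, hz⟩)
  · exact Or.inr (mem_Rp.2 ⟨i, h4, fun j hj => by rw [Pi.neg_apply, hz j hj, neg_zero]⟩)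

theorem Rp_not {r : ℕ} {χ : Fin r → ZMod 3} (h : χ ∈ Rp r) : -χ ∉ Rp r := by
  intro h'
  obtain ⟨i, h1, h2⟩ := mem_Rp.1 h
  obtain ⟨j, h3, h4⟩ := mem_Rp.1 h'
  rw [Pi.neg_apply] at h3
  rcases lt_trichotomy i j with hij | hij | hij
  · have h5 := h4 i hij
    rw [Pi.neg_apply, h1] at h5
    exact absurd h5 (by decide)
  · rw [← hij, h1] at h3
    exact absurd h3 (by decide)
  · rw [h2 j hij] at h3
    exact absurd h3 (by decide)

theorem two_card_Rp (r : ℕ) : 2 * (Rp r).card = 3 ^ r - 1 := by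
  classical
  have h1 : (univ : Finset (Fin r → ZMod 3)).filter (fun χ => χ ≠ 0) =
      Rp r ∪ (Rp r).image fun χ => -χ := by
    ext χ
    rw [mem_filter, mem_union, mem_image]
    constructor
    · rintro ⟨-, h⟩
      rcases Rp_or h with h1 | h1
      · exact Or.inl h1
      · exact Or.inr ⟨_, h1, neg_neg χ⟩
    · rintro (h | ⟨χ', h, rfl⟩)
      · exact ⟨mem_univ _, Rp_ne h⟩
      · exact ⟨mem_univ _, neg_ne_zero.2 (Rp_ne h)⟩
  have h2 : Disjoint (Rp r) ((Rp r).image fun χ => -χ) := by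
    rw [disjoint_left]
    intro χ h h'
    obtain ⟨χ', h3, rfl⟩ := mem_image.1 h'
    exact Rp_not h3 h
  have h3 := congrArg Finset.card h1
  rw [card_union_of_disjoint h2, card_image_of_injective _ neg_injective, filter_ne' univ (0 : Fin r → ZMod 3),
    card_erase_of_mem (mem_univ _), card_univ, Fintype.card_fun, ZMod.card, Fintype.card_fin] at h3
  omega

/-! ### The proof for the model -/

private theorem A1_alg1 {F : Type} [Field F] {b g z x : F} (hz : z ≠ 0) (h : b = g * z ^ 3) :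
    g * x = b * x * z⁻¹ ^ 3 := by
  have h1 : z ^ 3 * z⁻¹ ^ 3 = 1 := by rw [← mul_pow, mul_inv_cancel₀ hz, one_pow]
  rw [h]
  linear_combination -(g * x) * h1

private theorem A1_alg2 {F : Type} [Field F] {b g z x w : F} (hz : z ≠ 0) (h : b = g * z ^ 3) :
    g * x * w ^ 3 = b * x * (w * z⁻¹) ^ 3 := by
  have h1 : z ^ 3 * z⁻¹ ^ 3 = 1 := by rw [← mul_pow, mul_inv_cancel₀ hz, one_pow]
  rw [h]
  linear_combination -(g * x * w ^ 3) * h1

open Pool.Agent.Lib.MP_1a91b9_ntT (K) in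
/-- The curves `Y² + x Y = X³` and `Y² + y Y = X³` with `x = y s³` are isomorphic. -/
private theorem A1_Wt_congr {x y : 𝓞 K} {s : K} (hs : s ≠ 0) (h : (x : K) = (y : K) * s ^ 3)
    (h1 : Pool.Agent.Lib.MP_1a91b9_nuX.LG.LConcl (Pool.Agent.Lib.MP_1a91b9_ntN.Wt K x) ∧
      Finite (Pool.Agent.Lib.MP_1a91b9_ntN.Wt K x).toAffine.Point) :
    Pool.Agent.Lib.MP_1a91b9_nuX.LG.LConcl (Pool.Agent.Lib.MP_1a91b9_ntN.Wt K y) ∧
      Finite (Pool.Agent.Lib.MP_1a91b9_ntN.Wt K y).toAffine.Point := by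
  obtain ⟨C, hC⟩ : ∃ C : VariableChange K, C • Pool.Agent.Lib.MP_1a91b9_ntN.Wt K x =
      Pool.Agent.Lib.MP_1a91b9_ntN.Wt K y := by
    refine ⟨⟨Units.mk0 s hs, 0, 0, 0⟩, ?_⟩
    rw [Pool.Agent.Lib.MP_1a91b9_ntN.Wt_K, Pool.Agent.Lib.MP_1a91b9_ntN.Wt_K, h]
    ext
    · simp [variableChange_a₁]
    · simp [variableChange_a₂]
    · simp only [variableChange_a₃, Units.val_inv_eq_inv_val, Units.val_mk0]
      field_simp
      ring
    · simp [variableChange_a₄]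
    · simp [variableChange_a₆]
  refine ⟨?_, ?_⟩
  · obtain ⟨g, hg, hg1, hg2⟩ := h1.1
    refine ⟨g, hg, fun z hz => ?_, hg2⟩
    rw [hg1 z hz, Pool.Agent.Lib.MP_1a91b9_ntN.LSer_congr fun v =>
      Pool.Agent.Lib.MP_1a91b9_nuX.LG.locPoly_iso hC v (Pool.Agent.Lib.MP_1a91b9_ntN.Wt_ji y v)]
  · have h2 := h1.2
    rw [← hC]
    exact Finite.of_injective _ (Pool.Agent.Lib.MP_1a91b9_nt.vcFun_bijective
      (Pool.Agent.Lib.MP_1a91b9_ntN.Wt K x) C).1

open Pool.Agent.Lib.MP_1a91b9_ntT (K) in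
/-- The curve of a good element. -/
private theorem A1_Wt_GdE {x : 𝓞 K} (h : GdE x) :
    Pool.Agent.Lib.MP_1a91b9_nuX.LG.LConcl (Pool.Agent.Lib.MP_1a91b9_ntN.Wt K x) ∧
      Finite (Pool.Agent.Lib.MP_1a91b9_ntN.Wt K x).toAffine.Point := by
  have h2 := Wt_good (a := x) (d := 1) (by
    obtain ⟨b, k, j, S, T, s, e1, e2, e3, e4⟩ := h
    exact ⟨b, k, j, S, T, s, e1, e2, by rw [mul_one]; exact e3, e4⟩)
  rw [mul_one] at h2
  exact h2

open Pool.Agent.Lib.MP_1a91b9_ntT (K) in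
private theorem A1_toRk {y : 𝓞 K}
    (h : Pool.Agent.Lib.MP_1a91b9_nuX.LG.LConcl (Pool.Agent.Lib.MP_1a91b9_ntN.Wt K y) ∧
      Finite (Pool.Agent.Lib.MP_1a91b9_ntN.Wt K y).toAffine.Point) :
    Rk (⟨0, 0, (y : K), 0, 0⟩ : WeierstrassCurve K) := by
  rw [Pool.Agent.Lib.MP_1a91b9_ntN.Wt_K] at h
  exact h

/-- The probability of at least `t` successes is monotone. -/
private theorem A1_bn_mono (n t : ℕ) {g g' : ℝ} (h0 : 0 ≤ g) (h1 : g ≤ g') (h2 : g' ≤ 1) :
    bn n t g ≤ bn n t g' := by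
  have e1 := bts_const (Finset.univ : Finset (Fin n)) t g
  have e2 := bts_const (Finset.univ : Finset (Fin n)) t g'
  rw [card_univ, Fintype.card_fin] at e1 e2
  rw [← e1, ← e2]
  exact bts_mono _ t (fun _ _ => h0) (fun _ _ => h1) (fun _ _ => h2)

open Pool.Agent.Lib.MP_1a91b9_ntT (K) in
/-- The elements of the list are different modulo cubes. -/
private theorem A1_dis {F : Type} [Field F] [Algebra K F] {A : List (𝓞 K)}
    (hok : Pool.Agent.Lib.MP_1a91b9_ntN.MCok F A) (l l' : Fin A.length) (hl : l ≠ l') :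
    ¬ ∃ y : K, y ^ 3 * ((A.get l' : 𝓞 K) : K) = ((A.get l : 𝓞 K) : K) := by
  have hpw := List.pairwise_iff_get.1 hok.pw
  rcases lt_or_gt_of_ne hl with h | h
  · exact hpw l l' h
  · rintro ⟨y, hy⟩
    refine hpw l' l h ⟨y⁻¹, ?_⟩
    have hy0 : y ≠ 0 := by
      rintro rfl
      rw [zero_pow three_ne_zero, zero_mul] at hy
      exact hok.ne _ (List.get_mem A l) (by exact_mod_cast hy.symm)
    rw [← hy, ← mul_assoc, ← mul_pow, inv_mul_cancel₀ hy0, one_pow, one_mul]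

open Pool.Agent.Lib.MP_1a91b9_ntT (K) in
/-- Elements of `Δ` times cubes in `F`. -/
private theorem A1_sep {F : Type} [Field F] [Algebra K F] {α : K} {r : ℕ} {Δ : Finset (Fin r → 𝓞 K)}
    (hsep : Sep3M F α Δ) {δ δ' : Fin r → 𝓞 K} (hδ : δ ∈ Δ) (hδ' : δ' ∈ Δ) (hne : δ ≠ δ')
    {χ : Fin r → ZMod 3} (hχ : χ ≠ 0) (i : ℕ) {β γ : F} (hβ : β ≠ 0) (hγ : γ ≠ 0)
    (h : γ ^ 3 * algebraMap K F ((chp χ δ' : 𝓞 K) : K) =
      β ^ 3 * algebraMap K F (α ^ i * ((chp χ δ : 𝓞 K) : K))) : False := by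
  refine hsep δ hδ δ' hδ' hne χ hχ i (γ / β) (div_ne_zero hγ hβ) ?_
  rw [div_pow, div_mul_eq_mul_div, h, mul_div_cancel_left₀ _ (pow_ne_zero 3 hβ)]

/-- The blocks as a finite set. -/
private theorem A1_AtF {A : Type} {Δ : Finset A} {k t : ℕ} (e : Fin k ≃ Δ) {P : Fin k → Prop}
    {Q : A → Prop} (h : ∀ i, P i → Q (e i).1) (hP : Atl t P) : AtF Δ t Q := by
  classical
  refine hP.trans (card_le_card_of_injOn (fun i => (e i).1) (fun i hi => ?_)
    fun i _ j _ h => e.injective (Subtype.ext h))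
  rw [mem_coe, mem_filter] at hi ⊢
  exact ⟨(e i).2, h i hi.2⟩

open Pool.Agent.Lib.MP_1a91b9_ntT (K) in
/-- The model has finitely many units. -/
private theorem A1_fin (r : ℕ) (X : ℝ) : (lc3 (𝓞 K) r X).Finite := by
  have hs : ((s3 : 𝓞 K) : K) ^ 2 = ((-3 : ℤ) : K) := by
    have h := congrArg (fun z : 𝓞 K => (z : K)) s3_sq
    push_cast at h ⊢
    exact h
  have hfu : Finite (𝓞 K)ˣ := Pool.Agent.Lib.MP_1a91b9_ntW.J.finite_units
    Pool.Agent.Lib.MP_1a91b9_ntH.finrank_K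
    (Pool.Agent.Lib.MP_1a91b9_ntW.J.no_real hs (by norm_num))
  exact lc3_finite r X

open Pool.Agent.Lib.MP_1a91b9_ntT (K) in
/-- Case 1: `α` is not a cube in `F`. -/
private theorem A1_case1 (J : JM3) (hpos : ∀ n r, CovPos3 (c9 n) (Fin r)) {α : 𝓞 K} (hα : α ≠ 0)
    {F : Type} [Field F] [NumberField F] [Algebra K F] {A : List (𝓞 K)} (hA : MCT F A)
    (hcu : ¬ ∃ y : F, y ^ 3 = algebraMap K F (α : K)) {r n : ℕ} {m : 𝓞 K} {u : Fin r → 𝓞 K}
    (hm : m ∣ 3 ^ n) (hu : ∀ i, ¬ (s3 ^ 3 ∣ m ∧ s3 ^ 3 ∣ u i)) (Δ : Finset (Fin r → 𝓞 K))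
    (h0 : ∀ δ ∈ Δ, ∀ i, δ i ≠ 0) (hsep : Sep3M F (α : K) Δ) (t : ℕ) :
    CovG3 (𝓞 K) r m u (fun d => AtF Δ t fun δ => RkA F α (fun i => δ i * d i))
        (bn Δ.card t ((∏' i : ℕ, (1 + 1 / (3 : ℝ) ^ (i + 1))⁻¹) ^
          ((3 ^ r - 1) * Module.finrank K F))) := by
  classical
  have hok := hA.ok
  have hα' : ((α : 𝓞 K) : K) ≠ 0 := by exact_mod_cast hα
  have hN : 0 < A.length * 2 := by
    rw [hok.len]
    exact Nat.mul_pos Module.finrank_pos two_pos
  have hΔ0 : ∀ (δ : Δ) (χ : Fin r → ZMod 3), chp χ δ.1 ≠ 0 := fun δ χ => A1_chp_ne (h0 δ.1 δ.2)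
  have hget : ∀ l : Fin A.length, A.get l ∈ A := fun l => List.get_mem A l
  have hget0 : ∀ l : Fin A.length, A.get l ≠ 0 := fun l => hok.ne _ (hget l)
  have hgetK : ∀ l : Fin A.length, ((A.get l : 𝓞 K) : K) ≠ 0 := fun l => by
    exact_mod_cast hget0 l
  have hcube : ∀ l : Fin A.length, ∃ β : F, β ≠ 0 ∧ β ^ 3 = algebraMap K F (A.get l : K) := by
    intro l
    obtain ⟨β, hβ⟩ := hok.cu _ (hget l)
    refine ⟨β, ?_, hβ⟩
    rintro rfl
    rw [zero_pow three_ne_zero, eq_comm, map_eq_zero] at hβ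
    exact hgetK l hβ
  -- the element of the label
  obtain ⟨el, hel⟩ : ∃ el : (Fin r → ZMod 3) → (Fin r → 𝓞 K) → Fin A.length × Fin 2 → 𝓞 K,
      ∀ χ δ q, el χ δ q =
      if q.2 = 0 then α * chp χ δ * A.get q.1 else α ^ 2 * chp χ δ * A.get q.1 ^ 2 :=
    ⟨_, fun _ _ _ => rfl⟩
  have el0 : ∀ χ δ l, el χ δ (l, 0) = α * chp χ δ * A.get l := fun χ δ l => by
    rw [hel, if_pos rfl]
  have el1 : ∀ χ δ l, el χ δ (l, 1) = α ^ 2 * chp χ δ * A.get l ^ 2 := fun χ δ l => by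
    rw [hel, if_neg (by decide : ¬ ((1 : Fin 2) = 0))]
  -- mixed labels
  have hmix : ∀ χ : Fin r → ZMod 3, χ ≠ 0 → ∀ (δ δ' : Δ) (l l' : Fin A.length),
      ¬ ∃ y : K, y ^ 3 * (el χ δ'.1 (l', 1) : K) = (el χ δ.1 (l, 0) : K) := by
    rintro χ hχ δ δ' l l' ⟨y, hy⟩
    rw [el0, el1] at hy
    push_cast at hy
    obtain ⟨β, hβ0, hβ⟩ := hcube l
    obtain ⟨β', hβ0', hβ'⟩ := hcube l'
    have hδ : (((chp χ δ.1 : 𝓞 K) : K)) ≠ 0 := by exact_mod_cast hΔ0 δ χ
    have hy1 : y ^ 3 * ((α : K) * (((chp χ δ'.1 : 𝓞 K) : K)) * ((A.get l' : 𝓞 K) : K) ^ 2) =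
        (((chp χ δ.1 : 𝓞 K) : K)) * ((A.get l : 𝓞 K) : K) := by
      refine mul_left_cancel₀ hα' ?_
      linear_combination hy
    have hy0 : y ≠ 0 := by
      rintro rfl
      rw [zero_pow three_ne_zero, zero_mul] at hy1
      exact mul_ne_zero hδ (hgetK l) hy1.symm
    have hyF : algebraMap K F y ≠ 0 := by rwa [map_ne_zero]
    have h1 := congrArg (algebraMap K F) hy1
    simp only [map_mul, map_pow] at h1
    rw [← hβ, ← hβ'] at h1
    by_cases hd : δ = δ'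
    · subst hd
      apply hcu
      have hδF : algebraMap K F ((chp χ δ.1 : 𝓞 K) : K) ≠ 0 := by rwa [map_ne_zero]
      refine ⟨β / (algebraMap K F y * β' ^ 2), ?_⟩
      rw [div_pow, div_eq_iff (pow_ne_zero 3 (mul_ne_zero hyF (pow_ne_zero 2 hβ0')))]
      refine mul_left_cancel₀ hδF ?_
      linear_combination -h1
    · refine A1_sep hsep δ'.2 δ.2 (fun h => hd (Subtype.ext h).symm) hχ 1
        (β := algebraMap K F y * β' ^ 2) (γ := β)
        (mul_ne_zero hyF (pow_ne_zero 2 hβ0')) hβ0 ?_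
      rw [pow_one, map_mul]
      linear_combination -h1
  obtain ⟨e, -⟩ : ∃ e : Fin Δ.card ≃ Δ, True := ⟨Δ.equivFin.symm, trivial⟩
  have key := den_allM J hpos (n := n) (r := r) (k := Δ.card) (N := A.length * 2) hN
    (fun _ _ x => if (finProdFinEquiv.symm x).2 = 0 then 0 else 1)
    (fun b χ x => el χ (e b).1 (finProdFinEquiv.symm x)) ?_ ?_ (w := 1) zero_le_one le_rfl ?_
    (hm.trans (pow3_dvd_Q9 n)) hu t
  · have hex : (3 ^ r - 1) * Module.finrank K F = A.length * 2 * (Rp r).card := by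
      rw [← two_card_Rp, hok.len]
      ring
    rw [hex]
    rw [one_mul] at key
    refine key.mono (A1_fin r) fun d hd h => A1_AtF e (fun b hb => ?_) h
    have hd0 : ∀ i, d i ≠ 0 := fun i h1 => by
      refine hd i s3 prime_s3 ?_
      rw [h1]
      exact dvd_zero _
    have hde0 : ∀ i, (e b).1 i * d i ≠ 0 := fun i => mul_ne_zero (h0 _ (e b).2 i) (hd0 i)
    intro χ hχ b' hb' hcb
    have hbK : ((b' : 𝓞 K) : K) ≠ 0 := by exact_mod_cast hb'
    obtain ⟨a, ha, z, hz⟩ := mct_full hA (b' : K) hbK hcb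
    obtain ⟨l, rfl⟩ := List.mem_iff_get.1 ha
    have hz0 : z ≠ 0 := by
      rintro rfl
      rw [zero_pow three_ne_zero, mul_zero] at hz
      exact hbK hz
    rcases Rp_or hχ with hR | hR
    · have h1 := hb χ hR (finProdFinEquiv (l, 0))
      simp only [Equiv.symm_apply_apply, if_pos] at h1
      rw [el0] at h1
      have h2 := A1_Wt_GdE (h1.1 (by decide))
      have h3 : α * chp χ (e b).1 * A.get l * ∏ j, d j ^ (χ j).val =
          A.get l * (α * chp χ fun i => (e b).1 i * d i) := by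
        rw [chp_mulr]
        unfold chp
        ring
      rw [h3] at h2
      refine A1_toRk <| A1_Wt_congr (s := z⁻¹) (inv_ne_zero hz0) ?_ h2
      push_cast
      exact A1_alg1 hz0 hz
    · have h1 := hb (-χ) hR (finProdFinEquiv (l, 1))
      simp only [Equiv.symm_apply_apply, if_neg (by decide : ¬ ((1 : Fin 2) = 0))] at h1
      rw [el1] at h1
      have h2 := A1_Wt_GdE (h1.2 (by decide))
      obtain ⟨s, hs0, hs⟩ := chp_neg (-χ) hde0
      rw [neg_neg] at hs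
      have hsK : ((s : 𝓞 K) : K) ≠ 0 := by exact_mod_cast hs0
      have h3 : (chp (-χ) (e b).1 * ∏ j, d j ^ ((-χ) j).val : 𝓞 K) =
          chp (-χ) fun i => (e b).1 i * d i := by
        rw [chp_mulr]
        rfl
      refine A1_toRk <| A1_Wt_congr (s := (α : K) * (A.get l : K) * (s : K) * z⁻¹)
        (mul_ne_zero (mul_ne_zero (mul_ne_zero hα' (hgetK l)) hsK) (inv_ne_zero hz0)) ?_ h2
      have h4 : (α ^ 2 * chp (-χ) (e b).1 * A.get l ^ 2 * ∏ j, d j ^ ((-χ) j).val) ^ 2 =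
          A.get l * (α * chp χ fun i => (e b).1 i * d i) * (α * A.get l * s) ^ 3 := by
        have h5 : α ^ 2 * chp (-χ) (e b).1 * A.get l ^ 2 * ∏ j, d j ^ ((-χ) j).val =
            α ^ 2 * A.get l ^ 2 * (chp (-χ) (e b).1 * ∏ j, d j ^ ((-χ) j).val) := by ring
        rw [h5, h3]
        linear_combination (α ^ 4 * A.get l ^ 4) * hs
      rw [h4]
      push_cast
      exact A1_alg2 hz0 hz
  · -- the elements are different from zero
    rintro b χ l
    rw [hel]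
    split_ifs
    · exact mul_ne_zero (mul_ne_zero hα (hΔ0 _ _)) (hget0 _)
    · exact mul_ne_zero (mul_ne_zero (pow_ne_zero 2 hα) (hΔ0 _ _)) (pow_ne_zero 2 (hget0 _))
  · -- different modulo cubes
    rintro χ hR ⟨b, l⟩ ⟨b', l'⟩ hne ⟨y, hy⟩
    have hχ := Rp_ne hR
    obtain ⟨δ, hδe⟩ : ∃ δ : Δ, δ = e b := ⟨_, rfl⟩
    obtain ⟨δ', hδe'⟩ : ∃ δ' : Δ, δ' = e b' := ⟨_, rfl⟩
    have hne' : ¬ (δ = δ' ∧ l = l') := by
      rintro ⟨h1, h2⟩
      apply hne
      rw [hδe, hδe'] at h1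
      rw [e.injective h1, h2]
    dsimp only at hy
    rw [← hδe, ← hδe'] at hy
    obtain ⟨⟨l, i⟩, rfl⟩ := finProdFinEquiv.surjective l
    obtain ⟨⟨l', i'⟩, rfl⟩ := finProdFinEquiv.surjective l'
    simp only [Equiv.symm_apply_apply] at hy
    have hδ : (((chp χ δ.1 : 𝓞 K) : K)) ≠ 0 := by exact_mod_cast hΔ0 δ χ
    have hδ' : (((chp χ δ'.1 : 𝓞 K) : K)) ≠ 0 := by exact_mod_cast hΔ0 δ' χ
    obtain ⟨β, hβ0, hβ⟩ := hcube l
    obtain ⟨β', hβ0', hβ'⟩ := hcube l'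
    have hi : i = 0 ∨ i = 1 := by
      fin_cases i
      · exact Or.inl rfl
      · exact Or.inr rfl
    have hi' : i' = 0 ∨ i' = 1 := by
      fin_cases i'
      · exact Or.inl rfl
      · exact Or.inr rfl
    have hy0 : y ≠ 0 := by
      rintro rfl
      rw [zero_pow three_ne_zero, zero_mul, eq_comm] at hy
      rcases hi with rfl | rfl
      · rw [el0] at hy
        exact mul_ne_zero (mul_ne_zero hα (hΔ0 δ χ)) (hget0 l) (by exact_mod_cast hy)
      · rw [el1] at hy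
        exact mul_ne_zero (mul_ne_zero (pow_ne_zero 2 hα) (hΔ0 δ χ)) (pow_ne_zero 2 (hget0 l))
          (by exact_mod_cast hy)
    have hyF : algebraMap K F y ≠ 0 := by rwa [map_ne_zero]
    rcases hi with rfl | rfl <;> rcases hi' with rfl | rfl
    · rw [el0, el0] at hy
      push_cast at hy
      have hy1 : y ^ 3 * ((((chp χ δ'.1 : 𝓞 K) : K)) * ((A.get l' : 𝓞 K) : K)) =
          (((chp χ δ.1 : 𝓞 K) : K)) * ((A.get l : 𝓞 K) : K) := by
        refine mul_left_cancel₀ hα' ?_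
        linear_combination hy
      by_cases hd : δ = δ'
      · subst hd
        have hl : l ≠ l' := fun h => hne' ⟨rfl, by rw [h]⟩
        refine A1_dis hok l l' hl ⟨y, mul_left_cancel₀ hδ ?_⟩
        linear_combination hy1
      · have h1 := congrArg (algebraMap K F) hy1
        simp only [map_mul, map_pow] at h1
        rw [← hβ, ← hβ'] at h1
        refine A1_sep hsep δ.2 δ'.2 (fun h => hd (Subtype.ext h)) hχ 0
          (β := β) (γ := algebraMap K F y * β') hβ0 (mul_ne_zero hyF hβ0') ?_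
        rw [pow_zero, one_mul]
        linear_combination h1
    · exact hmix χ hχ δ δ' l l' ⟨y, hy⟩
    · refine hmix χ hχ δ' δ l' l ⟨y⁻¹, ?_⟩
      rw [← hy, ← mul_assoc, ← mul_pow, inv_mul_cancel₀ hy0, one_pow, one_mul]
    · rw [el1, el1] at hy
      push_cast at hy
      have hy1 : y ^ 3 * ((((chp χ δ'.1 : 𝓞 K) : K)) * ((A.get l' : 𝓞 K) : K) ^ 2) =
          (((chp χ δ.1 : 𝓞 K) : K)) * ((A.get l : 𝓞 K) : K) ^ 2 := by
        refine mul_left_cancel₀ (pow_ne_zero 2 hα') ?_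
        linear_combination hy
      by_cases hd : δ = δ'
      · subst hd
        have hl : l ≠ l' := fun h => hne' ⟨rfl, by rw [h]⟩
        have hy2 : y ^ 3 * ((A.get l' : 𝓞 K) : K) ^ 2 = ((A.get l : 𝓞 K) : K) ^ 2 := by
          refine mul_left_cancel₀ hδ ?_
          linear_combination hy1
        -- `b = (b / (b' y)) ^ 3 * b'`
        refine A1_dis hok l l' hl ⟨((A.get l : 𝓞 K) : K) / (((A.get l' : 𝓞 K) : K) * y), ?_⟩
        have hb := hgetK l
        have hb' := hgetK l'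
        rw [div_pow, div_mul_eq_mul_div, div_eq_iff (pow_ne_zero 3 (mul_ne_zero hb' hy0))]
        linear_combination -((A.get l : 𝓞 K) : K) * ((A.get l' : 𝓞 K) : K) * hy2
      · have h1 := congrArg (algebraMap K F) hy1
        simp only [map_mul, map_pow] at h1
        rw [← hβ, ← hβ'] at h1
        refine A1_sep hsep δ.2 δ'.2 (fun h => hd (Subtype.ext h)) hχ 0
          (β := β ^ 2) (γ := algebraMap K F y * β' ^ 2) (pow_ne_zero 2 hβ0)
          (mul_ne_zero hyF (pow_ne_zero 2 hβ0')) ?_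
        rw [pow_zero, one_mul]
        linear_combination h1
  · -- no label of type `2`
    intro b χ l hl
    exfalso
    split_ifs at hl
    · exact absurd hl (by decide)
    · exact absurd hl (by decide)

open Pool.Agent.Lib.MP_1a91b9_ntT (K) in
/-- Case 2: `α` is a cube in `F`. -/
private theorem A1_case2 (J : JM3) (hpos : ∀ n r, CovPos3 (c9 n) (Fin r)) {α : 𝓞 K} (hα : α ≠ 0)
    {F : Type} [Field F] [NumberField F] [Algebra K F] {A : List (𝓞 K)} (hA : MCT F A)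
    (hcu : ∃ y : F, y ^ 3 = algebraMap K F (α : K)) {r n : ℕ} {m : 𝓞 K} {u : Fin r → 𝓞 K}
    (hm : m ∣ 3 ^ n) (hu : ∀ i, ¬ (s3 ^ 3 ∣ m ∧ s3 ^ 3 ∣ u i)) (Δ : Finset (Fin r → 𝓞 K))
    (h0 : ∀ δ ∈ Δ, ∀ i, δ i ≠ 0) (hsep : Sep3M F (α : K) Δ) (t : ℕ) :
    CovG3 (𝓞 K) r m u (fun d => AtF Δ t fun δ => RkA F α (fun i => δ i * d i))
        (bn Δ.card t ((∏' i : ℕ, (1 + 1 / (3 : ℝ) ^ (i + 1))⁻¹) ^
          ((3 ^ r - 1) * Module.finrank K F))) := by
  classical
  have hok := hA.ok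
  have hα' : ((α : 𝓞 K) : K) ≠ 0 := by exact_mod_cast hα
  have hN : 0 < A.length := by
    rw [hok.len]
    exact Module.finrank_pos
  have hΔ0 : ∀ (δ : Δ) (χ : Fin r → ZMod 3), chp χ δ.1 ≠ 0 := fun δ χ => A1_chp_ne (h0 δ.1 δ.2)
  have hget : ∀ l : Fin A.length, A.get l ∈ A := fun l => List.get_mem A l
  have hget0 : ∀ l : Fin A.length, A.get l ≠ 0 := fun l => hok.ne _ (hget l)
  have hgetK : ∀ l : Fin A.length, ((A.get l : 𝓞 K) : K) ≠ 0 := fun l => by
    exact_mod_cast hget0 l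
  have hcube : ∀ l : Fin A.length, ∃ β : F, β ≠ 0 ∧ β ^ 3 = algebraMap K F (A.get l : K) := by
    intro l
    obtain ⟨β, hβ⟩ := hok.cu _ (hget l)
    refine ⟨β, ?_, hβ⟩
    rintro rfl
    rw [zero_pow three_ne_zero, eq_comm, map_eq_zero] at hβ
    exact hgetK l hβ
  obtain ⟨e, -⟩ : ∃ e : Fin Δ.card ≃ Δ, True := ⟨Δ.equivFin.symm, trivial⟩
  have key := den_allM J hpos (n := n) (r := r) (k := Δ.card) (N := A.length) hN (fun _ _ _ => 2)
    (fun b χ l => α * chp χ (e b).1 * A.get l)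
    (fun b χ l => mul_ne_zero (mul_ne_zero hα (hΔ0 _ _)) (hget0 _)) ?_ (w := 2 / 3)
    (by norm_num) (by norm_num) (fun _ _ _ _ => le_rfl) (hm.trans (pow3_dvd_Q9 n)) hu t
  · have hc0 : (0 : ℝ) ≤ ∏' i : ℕ, (1 + 1 / (3 : ℝ) ^ (i + 1))⁻¹ := by
      rw [Pool.Agent.Lib.MP_1a91b9_ntK.cinf3_form]
      exact cinf3_pos.le
    have hc1 : ∏' i : ℕ, (1 + 1 / (3 : ℝ) ^ (i + 1))⁻¹ ≤ 2 / 3 := by
      rw [Pool.Agent.Lib.MP_1a91b9_ntK.cinf3_form]
      exact cinf3_le
    have hex : (3 ^ r - 1) * Module.finrank K F = 2 * (A.length * (Rp r).card) := by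
      rw [← two_card_Rp, hok.len]
      ring
    have hbn : bn Δ.card t ((∏' i : ℕ, (1 + 1 / (3 : ℝ) ^ (i + 1))⁻¹) ^
          ((3 ^ r - 1) * Module.finrank K F)) ≤
        bn Δ.card t ((2 / 3 * ∏' i : ℕ, (1 + 1 / (3 : ℝ) ^ (i + 1))⁻¹) ^
          (A.length * (Rp r).card)) := by
      refine A1_bn_mono _ _ (pow_nonneg hc0 _) ?_ ?_
      · rw [hex, pow_mul]
        refine pow_le_pow_left₀ (pow_nonneg hc0 2) ?_ _
        rw [pow_two]
        exact mul_le_mul_of_nonneg_right hc1 hc0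
      · refine pow_le_one₀ (mul_nonneg (by norm_num) hc0) ?_
        linarith
    refine (key.anti hbn).mono (A1_fin r) fun d hd h => A1_AtF e (fun b hb => ?_) h
    have hd0 : ∀ i, d i ≠ 0 := fun i h1 => by
      refine hd i s3 prime_s3 ?_
      rw [h1]
      exact dvd_zero _
    have hde0 : ∀ i, (e b).1 i * d i ≠ 0 := fun i => mul_ne_zero (h0 _ (e b).2 i) (hd0 i)
    intro χ hχ a ha hca
    have ha0 : ((a : 𝓞 K) : K) ≠ 0 := by exact_mod_cast ha
    rcases Rp_or hχ with hR | hR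
    · obtain ⟨a', ha', z, hz⟩ := mct_full hA (a : K) ha0 hca
      obtain ⟨l, rfl⟩ := List.mem_iff_get.1 ha'
      have hz0 : z ≠ 0 := by
        rintro rfl
        rw [zero_pow three_ne_zero, mul_zero] at hz
        exact ha0 hz
      have h2 := A1_Wt_GdE ((hb χ hR l).1 (by decide))
      have h3 : α * chp χ (e b).1 * A.get l * ∏ j, d j ^ (χ j).val =
          A.get l * (α * chp χ fun i => (e b).1 i * d i) := by
        rw [chp_mulr]
        unfold chp
        ring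
      rw [h3] at h2
      refine A1_toRk <| A1_Wt_congr (s := z⁻¹) (inv_ne_zero hz0) ?_ h2
      push_cast
      exact A1_alg1 hz0 hz
    · obtain ⟨y, hy⟩ := hcu
      obtain ⟨β, hβ⟩ := hca
      obtain ⟨a', ha', z, hz⟩ := mct_full hA ((α : K) * (a : K) ^ 2)
        (mul_ne_zero hα' (pow_ne_zero 2 ha0)) ⟨y * β ^ 2, by
          rw [map_mul, map_pow, ← hy, ← hβ]
          ring⟩
      obtain ⟨l, rfl⟩ := List.mem_iff_get.1 ha'
      have hz0 : z ≠ 0 := by
        rintro rfl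
        rw [zero_pow three_ne_zero, mul_zero] at hz
        exact mul_ne_zero hα' (pow_ne_zero 2 ha0) hz
      have h2 := A1_Wt_GdE ((hb (-χ) hR l).2 (by decide))
      obtain ⟨s, hs0, hs⟩ := chp_neg (-χ) hde0
      rw [neg_neg] at hs
      have hsK : ((s : 𝓞 K) : K) ≠ 0 := by exact_mod_cast hs0
      have h3 : (chp (-χ) (e b).1 * ∏ j, d j ^ ((-χ) j).val : 𝓞 K) =
          chp (-χ) fun i => (e b).1 i * d i := by
        rw [chp_mulr]
        rfl
      refine A1_toRk <| A1_Wt_congr (s := (α : K) * (a : K) * (s : K) / z ^ 2)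
        (div_ne_zero (mul_ne_zero (mul_ne_zero hα' ha0) hsK) (pow_ne_zero 2 hz0)) ?_ h2
      have h5 : α * chp (-χ) (e b).1 * A.get l * ∏ j, d j ^ ((-χ) j).val =
          α * A.get l * (chp (-χ) fun i => (e b).1 i * d i) := by
        rw [← h3]
        ring
      rw [h5]
      have hsK2 : (((chp (-χ) fun i => (e b).1 i * d i : 𝓞 K)) : K) ^ 2 =
          (((chp χ fun i => (e b).1 i * d i : 𝓞 K)) : K) * (s : K) ^ 3 := by exact_mod_cast hs
      have hz6 : (z ^ 2) ^ 3 ≠ 0 := pow_ne_zero 3 (pow_ne_zero 2 hz0)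
      rw [div_pow, mul_div_assoc', eq_div_iff hz6]
      push_cast
      linear_combination ((α : K) ^ 2 * (A.get l : K) ^ 2 * z ^ 6) * hsK2 -
        ((α : K) ^ 2 * (((chp χ fun i => (e b).1 i * d i : 𝓞 K)) : K) * (s : K) ^ 3) *
        ((α : K) * (a : K) ^ 2 + (A.get l : K) * z ^ 3) * hz
  · rintro χ hR ⟨b, l⟩ ⟨b', l'⟩ hne ⟨y, hy⟩
    have hχ := Rp_ne hR
    obtain ⟨δ, hδe⟩ : ∃ δ : Δ, δ = e b := ⟨_, rfl⟩
    obtain ⟨δ', hδe'⟩ : ∃ δ' : Δ, δ' = e b' := ⟨_, rfl⟩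
    have hne' : ¬ (δ = δ' ∧ l = l') := by
      rintro ⟨h1, h2⟩
      apply hne
      rw [hδe, hδe'] at h1
      rw [e.injective h1, h2]
    dsimp only at hy
    rw [← hδe, ← hδe'] at hy
    push_cast at hy
    obtain ⟨β, hβ0, hβ⟩ := hcube l
    obtain ⟨β', hβ0', hβ'⟩ := hcube l'
    have hδ : (((chp χ δ.1 : 𝓞 K) : K)) ≠ 0 := by exact_mod_cast hΔ0 δ χ
    have hy1 : y ^ 3 * ((((chp χ δ'.1 : 𝓞 K) : K)) * ((A.get l' : 𝓞 K) : K)) =
        (((chp χ δ.1 : 𝓞 K) : K)) * ((A.get l : 𝓞 K) : K) := by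
      refine mul_left_cancel₀ hα' ?_
      linear_combination hy
    have hy0 : y ≠ 0 := by
      rintro rfl
      rw [zero_pow three_ne_zero, zero_mul] at hy1
      exact mul_ne_zero hδ (hgetK l) hy1.symm
    have hyF : algebraMap K F y ≠ 0 := by rwa [map_ne_zero]
    by_cases hd : δ = δ'
    · subst hd
      have hl : l ≠ l' := fun h => hne' ⟨rfl, h⟩
      refine A1_dis hok l l' hl ⟨y, mul_left_cancel₀ hδ ?_⟩
      linear_combination hy1
    · have h1 := congrArg (algebraMap K F) hy1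
      simp only [map_mul, map_pow] at h1
      rw [← hβ, ← hβ'] at h1
      refine A1_sep hsep δ.2 δ'.2 (fun h => hd (Subtype.ext h)) hχ 0
        (β := β) (γ := algebraMap K F y * β') hβ0 (mul_ne_zero hyF hβ0') ?_
      rw [pow_zero, one_mul]
      linear_combination h1

open Pool.Agent.Lib.MP_1a91b9_ntT (K) in
/-- **The rank part for all the products, for the model of `ℚ(√-3)`.** -/
theorem kbM_main (J : JM3) (hpos : ∀ n r, CovPos3 (c9 n) (Fin r)) {α : 𝓞 K} (hα : α ≠ 0) :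
    KBM K α := by
  intro F _ _ _ hF r n m u hm hu Δ h0 hsep t
  obtain ⟨A, hA⟩ := MCT.exists_of hF
  by_cases hcu : ∃ y : F, y ^ 3 = algebraMap K F (α : K)
  · exact A1_case2 J hpos hα hA hcu hm (fun i => hu i _ prime_s3) Δ h0 hsep t
  · exact A1_case1 J hpos hα hA hcu hm (fun i => hu i _ prime_s3) Δ h0 hsep t

/-- Rank zero over a field isomorphic to `K`. -/
theorem Rk_equiv {K K' : Type} [Field K] [NumberField K] [Field K'] [NumberField K']
    (e : K ≃+* K') {x : K} (h : Rk (⟨0, 0, x, 0, 0⟩ : WeierstrassCurve K)) :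
    Rk (⟨0, 0, e x, 0, 0⟩ : WeierstrassCurve K') := by
  have hW : (⟨0, 0, x, 0, 0⟩ : WeierstrassCurve K).map (e : K →+* K') =
      (⟨0, 0, e x, 0, 0⟩ : WeierstrassCurve K') :=
    WeierstrassCurve.ext (map_zero _) (map_zero _) rfl (map_zero _) (map_zero _)
  have hj : Pool.Agent.Lib.MP_1a91b9_nuI.HasJ (⟨0, 0, x, 0, 0⟩ : WeierstrassCurve K) 0 := by
    unfold Pool.Agent.Lib.MP_1a91b9_nuI.HasJ WeierstrassCurve.c₄ WeierstrassCurve.b₂ WeierstrassCurve.b₄
    push_cast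
    ring
  rw [← hW]
  refine ⟨?_, ?_⟩
  · obtain ⟨g, h1, h2, h3⟩ := h.1
    exact ⟨g, h1, fun s hs => (h2 s hs).trans
      (Pool.Agent.Lib.MP_1a91b9_ntI.ls_e_hasJ e hj s).symm, h3⟩
  · have h1 := h.2
    exact Finite.of_surjective _ (Pool.Agent.Lib.MP_1a91b9_ntI.ptMap_bij e _).2

/-- The rank part over a field isomorphic to `K`. -/
private theorem A1_RkA {K K' : Type} [Field K] [NumberField K] [Field K'] [NumberField K']
    (e : K ≃+* K') {F : Type} [Field F] [Algebra K F] [Algebra K' F]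
    (hal : ∀ x : K, algebraMap K F x = algebraMap K' F (e x)) {α : 𝓞 K} {r : ℕ}
    {w : Fin r → 𝓞 K} (h : RkA F α w) :
    RkA F (RingOfIntegers.mapRingEquiv e α) (fun i => RingOfIntegers.mapRingEquiv e (w i)) := by
  rintro χ hχ b' hb' ⟨y, hy⟩
  obtain ⟨E, hE⟩ : ∃ E : 𝓞 K ≃+* 𝓞 K', E = RingOfIntegers.mapRingEquiv e := ⟨_, rfl⟩
  have hEe : ∀ d : 𝓞 K, ((E d : 𝓞 K') : K') = e (d : K) := fun d => by
    rw [hE]
    rfl
  rw [← hE]
  obtain ⟨b, rfl⟩ := E.surjective b'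
  have h1 := h χ hχ b (fun h0 => hb' (by rw [h0, map_zero])) ⟨y, by rw [hy, hal, hEe]⟩
  have h2 := Rk_equiv e h1
  have h4 : E (chp χ w) = chp χ (fun i => E (w i)) := A1_map_chp (E : 𝓞 K →+* 𝓞 K') χ w
  have h3 : e ((b * (α * chp χ w) : 𝓞 K) : K) =
      ((E b * (E α * chp χ fun i => E (w i)) : 𝓞 K') : K') := by
    rw [← hEe, map_mul, map_mul, h4]
  rw [h3] at h2
  exact h2

/-- The same, in both directions. -/
private theorem A1_RkA_iff {K K' : Type} [Field K] [NumberField K] [Field K'] [NumberField K']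
    (e : K ≃+* K') {F : Type} [Field F] [Algebra K F] [Algebra K' F]
    (hal : ∀ x : K, algebraMap K F x = algebraMap K' F (e x)) (α : 𝓞 K) {r : ℕ}
    (w : Fin r → 𝓞 K) :
    RkA F α w ↔
    RkA F (RingOfIntegers.mapRingEquiv e α) (fun i => RingOfIntegers.mapRingEquiv e (w i)) := by
  refine ⟨A1_RkA e hal, fun h => ?_⟩
  have h1 := A1_RkA e.symm (fun x => by rw [hal, e.apply_symm_apply]) h
  have h2 : ∀ x : 𝓞 K, RingOfIntegers.mapRingEquiv e.symm (RingOfIntegers.mapRingEquiv e x) = x :=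
    fun x => RingOfIntegers.ext (e.symm_apply_apply (x : K))
  simp only [h2] at h1
  exact h1

/-- The law over a field isomorphic to `K`. -/
theorem KBM.equiv {K K' : Type} [Field K] [NumberField K] [Field K'] [NumberField K'] (e : K ≃+* K')
    {α : 𝓞 K} (H : KBM K α) : KBM K' (RingOfIntegers.mapRingEquiv e α) := by
  intro F _ _ _ hF r n m' u' hm hu Δ' h0 hsep t
  refine CovG3.tr e ?_
  obtain ⟨E, hE⟩ : ∃ E : 𝓞 K ≃+* 𝓞 K', E = RingOfIntegers.mapRingEquiv e := ⟨_, rfl⟩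
  have hEe : ∀ d : 𝓞 K, ((E d : 𝓞 K') : K') = e (d : K) := fun d => by
    rw [hE]
    rfl
  rw [← hE] at hsep ⊢
  obtain ⟨EE, hEE⟩ : ∃ EE : (Fin r → 𝓞 K) ≃ (Fin r → 𝓞 K'), ∀ d i, EE d i = E (d i) :=
    ⟨Equiv.piCongrRight fun _ => E.toEquiv, fun _ _ => rfl⟩
  obtain ⟨Δ, rfl⟩ : ∃ Δ : Finset (Fin r → 𝓞 K), Δ.map EE.toEmbedding = Δ' := by
    refine ⟨Δ'.map EE.symm.toEmbedding, ?_⟩
    rw [Finset.map_map]
    ext x
    rw [Finset.mem_map]
    constructor
    · rintro ⟨y, hy, rfl⟩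
      show EE (EE.symm y) ∈ Δ'
      rw [EE.apply_symm_apply]
      exact hy
    · intro hx
      exact ⟨x, hx, EE.apply_symm_apply x⟩
  let _ : Algebra K F := ((algebraMap K' F).comp (e : K →+* K')).toAlgebra
  have hal : ∀ x : K, algebraMap K F x = algebraMap K' F (e x) := fun _ => rfl
  have hr : Set.range (algebraMap K F) = Set.range (algebraMap K' F) := by
    ext y
    constructor
    · rintro ⟨x, rfl⟩
      exact ⟨e x, (hal x).symm⟩
    · rintro ⟨x, rfl⟩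
      exact ⟨e.symm x, by rw [hal, e.apply_symm_apply]⟩
  have hset : {x : F | ∃ c : K, x ^ 3 = algebraMap K F c} =
      {x : F | ∃ c : K', x ^ 3 = algebraMap K' F c} := by
    ext x
    constructor
    · rintro ⟨c, hc⟩
      exact ⟨e c, hc⟩
    · rintro ⟨c, hc⟩
      exact ⟨e.symm c, by rw [hal, e.apply_symm_apply]; exact hc⟩
  have hmem : ∀ δ : Fin r → 𝓞 K, δ ∈ Δ → EE δ ∈ Δ.map EE.toEmbedding := fun δ hδ =>
    Finset.mem_map.2 ⟨δ, hδ, rfl⟩
  have hchp : ∀ (χ : Fin r → ZMod 3) (δ : Fin r → 𝓞 K),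
      ((chp χ (EE δ) : 𝓞 K') : K') = e ((chp χ δ : 𝓞 K) : K) := by
    intro χ δ
    rw [← hEe]
    have h1 : E (chp χ δ) = chp χ (EE δ) := by
      have h2 := A1_map_chp (E : 𝓞 K →+* 𝓞 K') χ δ
      have h3 : (fun i => (E : 𝓞 K →+* 𝓞 K') (δ i)) = EE δ := funext fun i => (hEE δ i).symm
      rw [h3] at h2
      exact h2
    rw [h1]
  have h1 := H F (adjoin_top hr (by rw [hset]; exact hF)) r n (E.symm m')
    (fun i => E.symm (u' i)) ?_ ?_ Δ ?_ ?_ t
  · have hfin : Module.finrank K F = Module.finrank K' F :=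
      Algebra.finrank_eq_of_equiv_equiv e (RingEquiv.refl F) (by ext x; rfl)
    rw [hfin] at h1
    rw [Finset.card_map]
    have h2 : (fun d : Fin r → 𝓞 K => AtF Δ t fun δ => RkA F α (fun i => δ i * d i)) =
        fun d : Fin r → 𝓞 K => AtF (Δ.map EE.toEmbedding) t fun δ =>
          RkA F (E α) (fun i => δ i * E (d i)) := by
      funext d
      rw [AtF_map]
      refine propext (AtF.congr fun δ _ => ?_)
      have h3 := A1_RkA_iff e hal α (fun i => δ i * d i)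
      have h4 : (fun i => RingOfIntegers.mapRingEquiv e (δ i * d i)) =
          fun i => EE δ i * E (d i) := by
        funext i
        rw [← hE, hEE, map_mul]
      rw [h4, ← hE] at h3
      exact h3
    rw [h2] at h1
    exact h1
  · have h2 := map_dvd E.symm hm
    rw [map_pow, map_ofNat] at h2
    exact h2
  · rintro i p hp ⟨h2, h3⟩
    refine hu i (E p) ((MulEquiv.prime_iff E.toMulEquiv).2 hp) ⟨?_, ?_⟩
    · have h4 := map_dvd E h2
      rw [map_pow, E.apply_symm_apply] at h4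
      exact h4
    · have h4 := map_dvd E h3
      rw [map_pow, E.apply_symm_apply] at h4
      exact h4
  · intro δ hδ i h2
    refine h0 (EE δ) (hmem δ hδ) i ?_
    rw [hEE, h2, map_zero]
  · intro δ hδ δ' hδ' hne χ hχ i x hx h
    refine hsep (EE δ) (hmem δ hδ) (EE δ') (hmem δ' hδ') (fun h => hne (EE.injective h)) χ hχ i x
      hx ?_
    rw [hchp, hchp, hEe, ← map_pow e, ← map_mul e, ← hal, ← hal]
    exact h

end Pool.Agent.Lib.MP_1a91b9_ntMC
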