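import Pool.Agent.Lib.MP_1a91b9_ntMC.T5
import Pool.Agent.Lib.MP_1a91b9_ntCC.RXa

/-!
# MP_1a91b9_nt (all the multicubic fields): the exceptional tuples
-/

set_option autoImplicit false

namespace Pool.Agent.Lib.MP_1a91b9_ntMC

open NumberField

noncomputable section

/-- An element different from zero which is divisible by no cube of a prime is divisible by no cube of a non-unit. -/
theorem CFr.isUnit {K : Type} [Field K] [NumberField K] [IsPrincipalIdealRing (𝓞 K)] {x : 𝓞 K}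
    (hx : CFr x) (h0 : x ≠ 0) : ∀ y, y ^ 3 ∣ x → IsUnit y := by
  intro y hy
  by_contra hu
  have hy0 : y ≠ 0 := by
    rintro rfl
    rw [zero_pow three_ne_zero, zero_dvd_iff] at hy
    exact h0 hy
  obtain ⟨p, hp, hpy⟩ := WfDvdMonoid.exists_irreducible_factor hu hy0
  exact hx p hp.prime ((pow_dvd_pow_of_dvd hpy 3).trans hy)

/-- If the square of an element different from zero is a cube, so is the element. -/
theorem cube_of_sq {F : Type} [Field F] {a c : F} (ha : a ≠ 0) (h : c ^ 3 = a ^ 2) :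
    ∃ y : F, y ^ 3 = a := by
  have hc : c ≠ 0 := by
    rintro rfl
    rw [zero_pow three_ne_zero, eq_comm] at h
    exact ha (pow_eq_zero_iff two_ne_zero |>.1 h)
  refine ⟨a / c, ?_⟩
  rw [div_pow, h, div_eq_iff (pow_ne_zero 2 ha)]
  ring

/-- **The exceptional elements**: their number is bounded, for all the factors. -/
theorem fin_exC3 (K F : Type) [Field K] [NumberField K] [IsPrincipalIdealRing (𝓞 K)]
    [Finite (𝓞 K)ˣ] [Field F] [NumberField F] [Algebra K F] (hz : ∃ z : K, z ^ 2 + z + 1 = 0) :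
    ∃ C : ℕ, ∀ (e : ℕ) (γ : F), e = 1 ∨ e = 2 → γ ≠ 0 →
      {x : 𝓞 K | CFr x ∧ x ≠ 0 ∧ ∃ c : F, c ^ 3 = algebraMap K F (x : K) ^ e * γ}.Finite ∧
      {x : 𝓞 K | CFr x ∧ x ≠ 0 ∧ ∃ c : F, c ^ 3 = algebraMap K F (x : K) ^ e * γ}.ncard ≤ C := by
  classical
  obtain ⟨z, hz⟩ := hz
  have hz1 : z ≠ 1 := by
    rintro rfl
    have h3 : (3 : K) ≠ 0 := by norm_num
    apply h3
    linear_combination hz
  have hz3 : z ^ 3 = 1 := by linear_combination (z - 1) * hz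
  have hp : IsPrimitiveRoot z 3 := by
    rw [← orderOf_eq_prime hz3 hz1]
    exact IsPrimitiveRoot.orderOf z
  obtain ⟨Ck, hCf, hCK⟩ := Pool.Agent.Lib.MP_1a91b9_ntCC.kum3_fin (F := F) hp
  refine ⟨Ck.ncard * Nat.card (𝓞 K)ˣ, fun e γ he hγ => ?_⟩
  obtain ⟨S, hS⟩ : ∃ S : Set (𝓞 K), S = {x : 𝓞 K | CFr x ∧ x ≠ 0 ∧
    ∃ c : F, c ^ 3 = algebraMap K F (x : K) ^ e * γ} := ⟨_, rfl⟩
  rw [← hS]
  have nK : ∀ x : 𝓞 K, x ≠ 0 → (x : K) ≠ 0 := fun x hx => by exact_mod_cast hx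
  have nF : ∀ x : 𝓞 K, x ≠ 0 → algebraMap K F (x : K) ≠ 0 := fun x hx =>
    (map_ne_zero (algebraMap K F)).2 (nK x hx)
  -- the quotients are cubes in `F`
  have hq : ∀ x ∈ S, ∀ x' ∈ S, ∃ y : F, y ^ 3 = algebraMap K F ((x : K) / (x' : K)) := by
    intro x hx x' hx'
    rw [hS] at hx hx'
    obtain ⟨-, hx0, c, hc⟩ := hx
    obtain ⟨-, hx0', c', hc'⟩ := hx'
    have h1 : (c / c') ^ 3 = algebraMap K F ((x : K) / (x' : K)) ^ e := by
      rw [div_pow, hc, hc', map_div₀, div_pow, mul_div_mul_right _ _ hγ]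
    rcases he with rfl | rfl
    · exact ⟨c / c', by rw [h1, pow_one]⟩
    · refine cube_of_sq ?_ h1
      rw [map_div₀]
      exact div_ne_zero (nF x hx0) (nF x' hx0')
  rcases S.eq_empty_or_nonempty with h0 | ⟨x₀, hx₀⟩
  · rw [h0, Set.ncard_empty]
    exact ⟨Set.finite_empty, Nat.zero_le _⟩
  have hx₀0 : x₀ ≠ 0 := by
    rw [hS] at hx₀
    exact hx₀.2.1
  have h1 : ∀ x ∈ S, ∃ b ∈ Ck, ∃ y : K, (x : K) / (x₀ : K) = b * y ^ 3 := by
    intro x hx
    have hx0 : x ≠ 0 := by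
      rw [hS] at hx
      exact hx.2.1
    exact hCK _ (div_ne_zero (nK x hx0) (nK x₀ hx₀0)) (hq x hx x₀ hx₀)
  -- a representative for each class
  have hrep : ∀ b : K, ∃ D : 𝓞 K, (∃ x ∈ S, ∃ y : K, (x : K) / (x₀ : K) = b * y ^ 3) →
      (D ∈ S ∧ ∃ y : K, (D : K) / (x₀ : K) = b * y ^ 3) := by
    intro b
    by_cases h : ∃ x ∈ S, ∃ y : K, (x : K) / (x₀ : K) = b * y ^ 3
    · obtain ⟨x, hx, h2⟩ := h
      exact ⟨x, fun _ => ⟨hx, h2⟩⟩
    · exact ⟨0, fun h2 => absurd h2 h⟩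
  choose D hD using hrep
  have hsub : S ⊆ (fun p : K × (𝓞 K)ˣ => D p.1 * (p.2 : 𝓞 K)) '' (Ck ×ˢ Set.univ) := by
    intro x hx
    obtain ⟨b, hb, y, hy⟩ := h1 x hx
    obtain ⟨hDS, y', hy'⟩ := hD b ⟨x, hx, y, hy⟩
    have hx2 := hx
    have hD2 := hDS
    rw [hS] at hx2 hD2
    have n₀ := nK x₀ hx₀0
    have n := nK x hx2.2.1
    have n' := nK (D b) hD2.2.1
    have hby : b * y ^ 3 ≠ 0 := by
      rw [← hy]
      exact div_ne_zero n n₀
    have hby' : b * y' ^ 3 ≠ 0 := by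
      rw [← hy']
      exact div_ne_zero n' n₀
    have hb0 : b ≠ 0 := left_ne_zero_of_mul hby
    have hy0 : y ≠ 0 := by
      rintro rfl
      exact hby (by ring)
    have hy0' : y' ≠ 0 := by
      rintro rfl
      exact hby' (by ring)
    obtain ⟨u, hu⟩ := Pool.Agent.Lib.MP_1a91b9_ntCC.assoc_of_cb (hx2.1.isUnit hx2.2.1)
      (hD2.1.isUnit hD2.2.1) (y := y / y') (div_ne_zero hy0 hy0') (by
        rw [div_eq_iff n₀] at hy hy'
        rw [hy, hy']
        field_simp)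
    exact ⟨(b, u), ⟨hb, Set.mem_univ _⟩, hu⟩
  have hfin : (Ck ×ˢ (Set.univ : Set (𝓞 K)ˣ)).Finite := hCf.prod Set.finite_univ
  refine ⟨(hfin.image _).subset hsub, ?_⟩
  refine (Set.ncard_le_ncard hsub (hfin.image _)).trans ((Set.ncard_image_le hfin).trans (le_of_eq ?_))
  rw [Set.ncard_prod, Set.ncard_univ]

/-- **The exceptional tuples.** For `χ ≠ 0` and an index `i` with `χ i ≠ 0` the number of the `x` which are exceptional
as entry `i` is bounded. -/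
theorem exc_bound3 (K F : Type) [Field K] [NumberField K] [IsPrincipalIdealRing (𝓞 K)]
    [Finite (𝓞 K)ˣ] [Field F] [NumberField F] [Algebra K F] (hz : ∃ z : K, z ^ 2 + z + 1 = 0)
    {r : ℕ} {δ : Fin r → 𝓞 K} (hδ : ∀ i, δ i ≠ 0) :
    ∃ C : ℕ, ∀ (χ : Fin r → ZMod 3) (β : F), χ ≠ 0 → β ≠ 0 →
      ∃ i : Fin r, ∀ d : Fin r → 𝓞 K,
        {x : 𝓞 K | CFr x ∧ (∀ k, Function.update d i x k ≠ 0) ∧ ∃ c : F, c ^ 3 =
          algebraMap K F ((∏ k, (δ k * Function.update d i x k) ^ (χ k).val : 𝓞 K) : K) * β}.Finite ∧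
        {x : 𝓞 K | CFr x ∧ (∀ k, Function.update d i x k ≠ 0) ∧ ∃ c : F, c ^ 3 =
          algebraMap K F ((∏ k, (δ k * Function.update d i x k) ^ (χ k).val : 𝓞 K) : K) * β}.ncard ≤
          C := by
  classical
  obtain ⟨C, hC⟩ := fin_exC3 K F hz
  refine ⟨C, fun χ β hχ hβ => ?_⟩
  obtain ⟨i, hi⟩ := Function.ne_iff.1 hχ
  rw [Pi.zero_apply] at hi
  have hv : (χ i).val = 1 ∨ (χ i).val = 2 := by
    revert hi
    generalize χ i = w
    revert w
    decide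
  refine ⟨i, fun d => ?_⟩
  by_cases hd : ∀ k, k ≠ i → d k ≠ 0
  · obtain ⟨y, hy⟩ : ∃ y : 𝓞 K, y = δ i ^ (χ i).val *
      ∏ k ∈ Finset.univ.erase i, (δ k * d k) ^ (χ k).val := ⟨_, rfl⟩
    have hy0 : y ≠ 0 := by
      rw [hy]
      exact mul_ne_zero (pow_ne_zero _ (hδ i)) (Finset.prod_ne_zero_iff.2 fun k hk =>
        pow_ne_zero _ (mul_ne_zero (hδ k) (hd k (Finset.ne_of_mem_erase hk))))
    have hyK : (y : K) ≠ 0 := by exact_mod_cast hy0
    have hγ : algebraMap K F (y : K) * β ≠ 0 := mul_ne_zero ((map_ne_zero (algebraMap K F)).2 hyK) hβ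
    obtain ⟨h1, h2⟩ := hC (χ i).val _ hv hγ
    have hsub : {x : 𝓞 K | CFr x ∧ (∀ k, Function.update d i x k ≠ 0) ∧ ∃ c : F, c ^ 3 =
          algebraMap K F ((∏ k, (δ k * Function.update d i x k) ^ (χ k).val : 𝓞 K) : K) * β} ⊆
        {x : 𝓞 K | CFr x ∧ x ≠ 0 ∧ ∃ c : F, c ^ 3 =
          algebraMap K F (x : K) ^ (χ i).val * (algebraMap K F (y : K) * β)} := by
      rintro x ⟨hx1, hx2, c, hx3⟩
      have hx0 : x ≠ 0 := by
        have h := hx2 i
        rwa [Function.update_self] at h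
      refine ⟨hx1, hx0, c, ?_⟩
      have h4 : ∏ k, (δ k * Function.update d i x k) ^ (χ k).val = x ^ (χ i).val * y := by
        have h5 : ∏ k ∈ Finset.univ.erase i, (δ k * Function.update d i x k) ^ (χ k).val =
            ∏ k ∈ Finset.univ.erase i, (δ k * d k) ^ (χ k).val :=
          Finset.prod_congr rfl fun k hk => by rw [Function.update_of_ne (Finset.ne_of_mem_erase hk)]
        rw [← Finset.mul_prod_erase Finset.univ _ (Finset.mem_univ i), Function.update_self, h5, hy,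
          mul_pow]
        ring
      have h6 : ((x ^ (χ i).val * y : 𝓞 K) : K) = (x : K) ^ (χ i).val * (y : K) := by
        rw [← map_pow, ← map_mul]
      rw [hx3, h4, h6, map_mul, map_pow, mul_assoc]
    exact ⟨h1.subset hsub, (Set.ncard_le_ncard hsub h1).trans h2⟩
  · push Not at hd
    obtain ⟨k, hk1, hk2⟩ := hd
    have he : {x : 𝓞 K | CFr x ∧ (∀ k, Function.update d i x k ≠ 0) ∧ ∃ c : F, c ^ 3 =
          algebraMap K F ((∏ k, (δ k * Function.update d i x k) ^ (χ k).val : 𝓞 K) : K) * β} = ∅ := by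
      refine Set.eq_empty_of_forall_notMem fun x hx => ?_
      refine hx.2.1 k ?_
      rw [Function.update_of_ne hk1, hk2]
    rw [he, Set.ncard_empty]
    exact ⟨Set.finite_empty, Nat.zero_le _⟩

end

end Pool.Agent.Lib.MP_1a91b9_ntMC
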