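import Pool.Agent.Lib.MP_1a91b9_ntCC.RXa

/-!
# MP_1a91b9_nt (all the multicubic fields): the elements of `F` which become cubes
-/

set_option autoImplicit false

namespace Pool.Agent.Lib.MP_1a91b9_ntMC

open NumberField

/-- **Finitely many classes of `F* / F*³` become cubes in a finite extension.** -/
theorem ker_fin3 {F M : Type} [Field F] [NumberField F] [Field M] [NumberField M] [Algebra F M]
    {w : F} (hw : IsPrimitiveRoot w 3) : ∃ B : Finset F, (∀ β ∈ B, β ≠ 0) ∧
      ∀ α : F, α ≠ 0 → (∃ y : M, y ^ 3 = algebraMap F M α) → ∃ β ∈ B, ∃ c : F, c ^ 3 = α * β := by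
  classical
  obtain ⟨C, hC, h⟩ := Pool.Agent.Lib.MP_1a91b9_ntCC.kum3_fin (F := M) hw
  refine ⟨(hC.toFinset.image fun b => b ^ 2).filter fun b => b ≠ 0, fun β hβ =>
    (Finset.mem_filter.1 hβ).2, fun α hα hy => ?_⟩
  obtain ⟨b, hb, y, hy⟩ := h α hα hy
  have hb0 : b ≠ 0 := by
    rintro rfl
    exact hα (by rw [hy, zero_mul])
  refine ⟨b ^ 2, Finset.mem_filter.2 ⟨Finset.mem_image.2 ⟨b, hC.mem_toFinset.2 hb, rfl⟩,
    pow_ne_zero 2 hb0⟩, b * y, ?_⟩
  rw [hy]
  ring

/-- **The elements which become cubes in the field of one of finitely many numbers.** -/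
theorem ker_adj3 {F : Type} [Field F] [NumberField F] {w : F} (hw : IsPrimitiveRoot w 3)
    {C : Set (AlgebraicClosure F)} (hC : C.Finite) : ∃ B : Finset F, (∀ β ∈ B, β ≠ 0) ∧
      ∀ (F' : Type) [Field F'] [Algebra F F'] (φ : F' →ₐ[F] AlgebraicClosure F) (z : F') (α : F),
        φ z ∈ C → α ≠ 0 → (∃ y ∈ IntermediateField.adjoin F {z}, y ^ 3 = algebraMap F F' α) →
        ∃ β ∈ B, ∃ c : F, c ^ 3 = α * β := by
  classical
  have hM : ∀ u : AlgebraicClosure F, ∃ B : Finset F, (∀ β ∈ B, β ≠ 0) ∧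
      ∀ α : F, α ≠ 0 → (∃ y : IntermediateField.adjoin F {u},
        y ^ 3 = algebraMap F (IntermediateField.adjoin F {u}) α) →
        ∃ β ∈ B, ∃ c : F, c ^ 3 = α * β := by
    intro u
    have h1 : FiniteDimensional F (IntermediateField.adjoin F {u}) :=
      IntermediateField.adjoin.finiteDimensional (Algebra.IsIntegral.isIntegral u)
    have h2 : NumberField (IntermediateField.adjoin F {u}) := NumberField.of_module_finite F _
    exact ker_fin3 hw
  choose B hB0 hB using hM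
  refine ⟨hC.toFinset.biUnion B, ?_, ?_⟩
  · intro β hβ
    rw [Finset.mem_biUnion] at hβ
    obtain ⟨u, _, hu⟩ := hβ
    exact hB0 u β hu
  · intro F' _ _ φ z α hz hα hy
    obtain ⟨y, hy1, hy2⟩ := hy
    have h1 : φ y ∈ IntermediateField.adjoin F {φ z} := by
      have h2 : φ y ∈ (IntermediateField.adjoin F {z}).map φ :=
        (IntermediateField.mem_map _).2 ⟨y, hy1, rfl⟩
      rw [IntermediateField.adjoin_map, Set.image_singleton] at h2
      exact h2
    obtain ⟨β, hβ, hs⟩ := hB (φ z) α hα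
      ⟨⟨φ y, h1⟩, by
        apply Subtype.ext
        change φ y ^ 3 = algebraMap F (AlgebraicClosure F) α
        rw [← map_pow, hy2, AlgHom.commutes]⟩
    refine ⟨β, ?_, hs⟩
    rw [Finset.mem_biUnion]
    exact ⟨φ z, (Set.Finite.mem_toFinset hC).2 hz, hβ⟩

end Pool.Agent.Lib.MP_1a91b9_ntMC
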