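import Pool.Agent.Lib.MP_1a91b9_ntMC.T6
import Pool.Agent.Lib.MP_1a91b9_ntMC.A3

/-!
# MP_1a91b9_nt (all the multicubic fields): from the law for the twists to the form of the result
-/

set_option autoImplicit false
set_option linter.unusedSectionVars false

namespace Pool.Agent.Lib.MP_1a91b9_ntMC

open NumberField
open Pool.Agent.Lib.MP_1a91b9_ntH (s3 prime_s3 pidO)
open Pool.Agent.Lib.MP_1a91b9_ntS3.G (c9 Q9)
open Pool.Agent.Lib.MP_1a91b9_ntZ (bn)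

noncomputable section

section Gen

variable {K : Type} [Field K] [NumberField K]

/-- There is a prime element. -/
theorem exists_prime3 [IsPrincipalIdealRing (𝓞 K)] : ∃ p : 𝓞 K, Prime p := by
  have h1 : ¬ IsField (𝓞 K) := RingOfIntegers.not_isField K
  obtain ⟨x, hx0, hx⟩ : ∃ x : 𝓞 K, x ≠ 0 ∧ ¬ IsUnit x := by
    by_contra h
    push Not at h
    exact h1 ⟨⟨0, 1, zero_ne_one⟩, mul_comm, fun {a} ha => by
      obtain ⟨b, hb⟩ := (h a ha).exists_right_inv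
      exact ⟨b, hb⟩⟩
  obtain ⟨p, hp, -⟩ := WfDvdMonoid.exists_irreducible_factor hx hx0
  exact ⟨p, hp.prime⟩

/-- A cube-free element is different from zero. -/
theorem CFr.ne_zero [IsPrincipalIdealRing (𝓞 K)] {x : 𝓞 K} (hx : CFr x) : x ≠ 0 := by
  rintro rfl
  obtain ⟨p, hp⟩ := exists_prime3 (K := K)
  exact hx p hp (dvd_zero _)

/-- The two forms of the definition of the cube-free elements. -/
theorem CFr_iff [IsPrincipalIdealRing (𝓞 K)] {x : 𝓞 K} :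
    (∀ p, Prime p → ¬ p ^ 3 ∣ x) ↔ ∀ y, y ^ 3 ∣ x → IsUnit y := by
  constructor
  · intro h
    have h' : CFr x := h
    exact h'.isUnit h'.ne_zero
  · intro h p hp hd
    exact hp.not_isUnit (h p hd)

/-- **The form of the result.** -/
theorem CovG3.form [IsPrincipalIdealRing (𝓞 K)] {r : ℕ} {m : 𝓞 K} {u : Fin r → 𝓞 K}
    {P : (Fin r → 𝓞 K) → Prop} {v : ℝ} (h : CovG3 (𝓞 K) r m u P v) (ε : ℝ) (hε : 0 < ε) :
    ∀ᶠ X : ℝ in Filter.atTop, v - ε ≤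
      (Nat.card {d : Fin r → 𝓞 K // (∀ i, (∀ x, x ^ 3 ∣ d i → IsUnit x) ∧ m ∣ d i - u i) ∧
        (∃ A, A ≠ 0 ∧ |Algebra.norm ℤ A| ≤ X ∧ ∀ i, d i ∣ A ^ 2) ∧ P d} : ℝ) /
        (Nat.card {d : Fin r → 𝓞 K // (∀ i, (∀ x, x ^ 3 ∣ d i → IsUnit x) ∧ m ∣ d i - u i) ∧
          ∃ A, A ≠ 0 ∧ |Algebra.norm ℤ A| ≤ X ∧ ∀ i, d i ∣ A ^ 2} : ℝ) := by
  filter_upwards [h ε hε] with X hX
  have e1 : Nat.card {d : Fin r → 𝓞 K // ((∀ i, ∀ p, Prime p → ¬ p ^ 3 ∣ d i) ∧ ∃ A : 𝓞 K, A ≠ 0 ∧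
      |Algebra.norm ℤ A| ≤ X ∧ ∀ i, d i ∣ A ^ 2) ∧ (∀ i, m ∣ d i - u i) ∧ P d} =
      Nat.card {d : Fin r → 𝓞 K // (∀ i, (∀ x, x ^ 3 ∣ d i → IsUnit x) ∧ m ∣ d i - u i) ∧
        (∃ A, A ≠ 0 ∧ |Algebra.norm ℤ A| ≤ X ∧ ∀ i, d i ∣ A ^ 2) ∧ P d} := by
    refine Nat.card_congr (Equiv.subtypeEquivRight fun d => ?_)
    constructor
    · rintro ⟨⟨h1, h2⟩, h3, h4⟩
      exact ⟨fun i => ⟨CFr_iff.1 (h1 i), h3 i⟩, h2, h4⟩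
    · rintro ⟨h1, h2, h3⟩
      exact ⟨⟨fun i => CFr_iff.2 (h1 i).1, h2⟩, fun i => (h1 i).2, h3⟩
  have e2 : Nat.card {d : Fin r → 𝓞 K // ((∀ i, ∀ p, Prime p → ¬ p ^ 3 ∣ d i) ∧ ∃ A : 𝓞 K, A ≠ 0 ∧
      |Algebra.norm ℤ A| ≤ X ∧ ∀ i, d i ∣ A ^ 2) ∧ ∀ i, m ∣ d i - u i} =
      Nat.card {d : Fin r → 𝓞 K // (∀ i, (∀ x, x ^ 3 ∣ d i → IsUnit x) ∧ m ∣ d i - u i) ∧
        ∃ A, A ≠ 0 ∧ |Algebra.norm ℤ A| ≤ X ∧ ∀ i, d i ∣ A ^ 2} := by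
    refine Nat.card_congr (Equiv.subtypeEquivRight fun d => ?_)
    constructor
    · rintro ⟨⟨h1, h2⟩, h3⟩
      exact ⟨fun i => ⟨CFr_iff.1 (h1 i), h3 i⟩, h2⟩
    · rintro ⟨h1, h2⟩
      exact ⟨⟨fun i => CFr_iff.2 (h1 i).1, h2⟩, fun i => (h1 i).2⟩
  rw [e1, e2] at hX
  exact hX

open Classical in
/-- **All the properties for the tuples.** `B` are the exceptional classes. -/
theorem dstabM [IsPrincipalIdealRing (𝓞 K)] [Finite (𝓞 K)ˣ] (hz : ∃ z : K, z ^ 2 + z + 1 = 0)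
    {F : Type} [Field F] [NumberField F] [Algebra K F] {r : ℕ} {S : Finset (Fin r → 𝓞 K)}
    (h0 : ∀ δ ∈ S, ∀ i, δ i ≠ 0) {m : 𝓞 K} {u : Fin r → 𝓞 K} (hsm : Sm3 (𝓞 K) r m u)
    {B : Finset F} (hB0 : ∀ β ∈ B, β ≠ 0) {P Q : (Fin r → 𝓞 K) → Prop}
    (hB : ∀ e : Fin r → 𝓞 K, (∀ i, e i ≠ 0) → P e →
      (∀ β ∈ B, ∀ χ : Fin r → ZMod 3, χ ≠ 0 →
        ¬ ∃ c : F, c ^ 3 = algebraMap K F ((∏ k, e k ^ (χ k).val : 𝓞 K) : K) * β) → Q e)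
    {c : ℝ} {t : ℕ}
    (h : CovG3 (𝓞 K) r m u (fun d => t ≤ (S.filter fun δ => P fun i => δ i * d i).card) c) :
    CovG3 (𝓞 K) r m u (fun d => t ≤ (S.filter fun δ => Q fun i => δ i * d i).card) c := by
  have hC : ∀ δ ∈ S, ∃ C : ℕ, ∀ (χ : Fin r → ZMod 3) (β : F), χ ≠ 0 → β ≠ 0 →
      ∃ i : Fin r, ∀ d : Fin r → 𝓞 K,
        {x : 𝓞 K | CFr x ∧ (∀ k, Function.update d i x k ≠ 0) ∧ ∃ c : F, c ^ 3 =
          algebraMap K F ((∏ k, (δ k * Function.update d i x k) ^ (χ k).val : 𝓞 K) : K) * β}.Finite ∧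
        {x : 𝓞 K | CFr x ∧ (∀ k, Function.update d i x k ≠ 0) ∧ ∃ c : F, c ^ 3 =
          algebraMap K F ((∏ k, (δ k * Function.update d i x k) ^ (χ k).val : 𝓞 K) : K) * β}.ncard ≤
          C :=
    fun δ hδ => exc_bound3 K F hz (h0 δ hδ)
  choose! C hC using hC
  refine CovG3.exc (fun X => lc3_finite r X) h (τ := (Fin r → 𝓞 K) × (Fin r → ZMod 3) × F)
    (S ×ˢ ((Finset.univ : Finset (Fin r → ZMod 3)).filter fun χ => χ ≠ 0) ×ˢ B)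
    (fun p d => (∀ k, d k ≠ 0) ∧ ∃ c : F, c ^ 3 =
      algebraMap K F ((∏ k, (p.1 k * d k) ^ (p.2.1 k).val : 𝓞 K) : K) * p.2.2)
    (S.sup C) (fun d hd hP => ?_) (fun p hp => ?_) (fun _ => hsm)
  · by_cases hex : ∃ p ∈ S ×ˢ ((Finset.univ : Finset (Fin r → ZMod 3)).filter fun χ => χ ≠ 0) ×ˢ B,
        (∀ k, d k ≠ 0) ∧ ∃ c : F, c ^ 3 =
          algebraMap K F ((∏ k, (p.1 k * d k) ^ (p.2.1 k).val : 𝓞 K) : K) * p.2.2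
    · exact Or.inr hex
    · left
      refine hP.trans (Finset.card_le_card fun δ hδ => ?_)
      rw [Finset.mem_filter] at hδ ⊢
      refine ⟨hδ.1, hB (fun i => δ i * d i) (fun i => mul_ne_zero (h0 δ hδ.1 i) (hd i).ne_zero)
        hδ.2 fun β hβ χ hχ hcu => hex ⟨(δ, χ, β), ?_, fun k => (hd k).ne_zero, hcu⟩⟩
      rw [Finset.mem_product, Finset.mem_product, Finset.mem_filter]
      exact ⟨hδ.1, ⟨Finset.mem_univ _, hχ⟩, hβ⟩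
  · rw [Finset.mem_product, Finset.mem_product, Finset.mem_filter] at hp
    obtain ⟨i, hi⟩ := hC p.1 hp.1 p.2.1 p.2.2 hp.2.1.2 (hB0 _ hp.2.2)
    exact ⟨i, fun d => ⟨(hi d).1, (hi d).2.trans (Finset.le_sup hp.1)⟩⟩

end Gen

section Iso

variable {K : Type} [Field K] [NumberField K]

/-- The ring of integers is principal. -/
theorem pid3 (f : Pool.Agent.Lib.MP_1a91b9_ntT.K ≃+* K) : IsPrincipalIdealRing (𝓞 K) := by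
  have _ : IsPrincipalIdealRing (𝓞 Pool.Agent.Lib.MP_1a91b9_ntT.K) := pidO
  exact IsPrincipalIdealRing.of_surjective (RingOfIntegers.mapRingEquiv f).toRingHom
    (RingOfIntegers.mapRingEquiv f).surjective

/-- **The tuples with an entry `1` have proportion zero.** -/
theorem sm3_gen (hpos : ∀ n r, CovPos3 (c9 n) (Fin r)) (f : Pool.Agent.Lib.MP_1a91b9_ntT.K ≃+* K)
    {r n : ℕ} {m : 𝓞 K} {u : Fin r → 𝓞 K} (hm : m ∣ 3 ^ n)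
    (hu : ∀ i p, Prime p → ¬ (p ^ 3 ∣ m ∧ p ^ 3 ∣ u i)) : Sm3 (𝓞 K) r m u := by
  obtain ⟨E, hE⟩ : ∃ E : 𝓞 Pool.Agent.Lib.MP_1a91b9_ntT.K ≃+* 𝓞 K,
    E = RingOfIntegers.mapRingEquiv f := ⟨_, rfl⟩
  refine Sm3.tr f ?_
  rw [← hE]
  refine sm3_of hpos (n := n) ?_ fun i h => ?_
  · have h1 : E.symm m ∣ E.symm (3 ^ n) := map_dvd E.symm hm
    rw [map_pow, map_ofNat] at h1
    refine h1.trans ⟨3 ^ 2, ?_⟩
    unfold Q9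
    ring
  · refine hu i (E s3) ((MulEquiv.prime_iff E.toMulEquiv).2 prime_s3) ⟨?_, ?_⟩
    · have h1 : E (s3 ^ 3) ∣ E (E.symm m) := map_dvd E h.1
      rwa [map_pow, RingEquiv.apply_symm_apply] at h1
    · have h1 : E (s3 ^ 3) ∣ E (E.symm (u i)) := map_dvd E h.2
      rwa [map_pow, RingEquiv.apply_symm_apply] at h1

/-- A primitive cube root of unity. -/
theorem zeta_of_sq {K : Type} [Field K] [CharZero K] {s : K} (hs : s ^ 2 = -3) :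
    ∃ z : K, z ^ 2 + z + 1 = 0 := by
  refine ⟨(-1 + s) / 2, ?_⟩
  field_simp
  linear_combination hs

open Classical in
/-- **The shell**: from the law for `P` and finite sets of multipliers to the form of the result for `Q`. -/
theorem shell3 (hpos : ∀ n r, CovPos3 (c9 n) (Fin r)) (hK : Module.finrank ℚ K = 2)
    (h3 : ∃ s : K, s ^ 2 = -3) (f : Pool.Agent.Lib.MP_1a91b9_ntT.K ≃+* K)
    {F : Type} [Field F] [NumberField F] [Algebra K F] {r : ℕ}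
    {T : Set (Fin r → 𝓞 K)} (h0 : ∀ δ ∈ T, ∀ i, δ i ≠ 0)
    {n : ℕ} {m : 𝓞 K} {u : Fin r → 𝓞 K} (hm : m ∣ 3 ^ n)
    (hu : ∀ i p, Prime p → ¬ (p ^ 3 ∣ m ∧ p ^ 3 ∣ u i))
    {B : Finset F} (hB0 : ∀ β ∈ B, β ≠ 0) {P Q : (Fin r → 𝓞 K) → Prop}
    (hB : ∀ e : Fin r → 𝓞 K, (∀ i, e i ≠ 0) → P e →
      (∀ β ∈ B, ∀ χ : Fin r → ZMod 3, χ ≠ 0 →
        ¬ ∃ c : F, c ^ 3 = algebraMap K F ((∏ k, e k ^ (χ k).val : 𝓞 K) : K) * β) → Q e)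
    {t : ℕ} {g v : ℝ} (hg0 : 0 < g) (hg1 : g ≤ 1)
    (hv : v = if T.Infinite then 1 else bn T.ncard t g)
    (hlaw : ∀ S : Finset (Fin r → 𝓞 K), (S : Set (Fin r → 𝓞 K)) ⊆ T →
      CovG3 (𝓞 K) r m u (fun d => t ≤ (S.filter fun δ => P fun i => δ i * d i).card)
        (bn S.card t g)) (ε : ℝ) (hε : 0 < ε) :
    ∀ᶠ X : ℝ in Filter.atTop, v - ε ≤
      (Nat.card {d : Fin r → 𝓞 K // (∀ i, (∀ x, x ^ 3 ∣ d i → IsUnit x) ∧ m ∣ d i - u i) ∧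
        (∃ A, A ≠ 0 ∧ |Algebra.norm ℤ A| ≤ X ∧ ∀ i, d i ∣ A ^ 2) ∧
        t ≤ {δ ∈ T | Q fun i => δ i * d i}.encard} : ℝ) /
        (Nat.card {d : Fin r → 𝓞 K // (∀ i, (∀ x, x ^ 3 ∣ d i → IsUnit x) ∧ m ∣ d i - u i) ∧
          ∃ A, A ≠ 0 ∧ |Algebra.norm ℤ A| ≤ X ∧ ∀ i, d i ∣ A ^ 2} : ℝ) := by
  obtain ⟨s, hs⟩ := h3
  have hs' : s ^ 2 = ((-3 : ℤ) : K) := by
    rw [hs]
    push_cast
    rfl
  have hfu : Finite (𝓞 K)ˣ := Pool.Agent.Lib.MP_1a91b9_ntW.J.finite_units hK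
    (Pool.Agent.Lib.MP_1a91b9_ntW.J.no_real hs' (by norm_num))
  have hpir : IsPrincipalIdealRing (𝓞 K) := pid3 f
  have hsm := sm3_gen hpos f hm hu
  refine CovG3.form (set_cov3 (fun X => lc3_finite r X) hg0 hg1 hv fun S hS => ?_) ε hε
  exact dstabM (zeta_of_sq hs) (fun δ hδ => h0 δ (hS (Finset.mem_coe.2 hδ))) hsm hB0 hB (hlaw S hS)

open Classical in
/-- **The shell**, for the exceptional classes in the form `c ^ 3 * e^χ ≠ β`. -/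
theorem shell3' (hpos : ∀ n r, CovPos3 (c9 n) (Fin r)) (hK : Module.finrank ℚ K = 2)
    (h3 : ∃ s : K, s ^ 2 = -3) (f : Pool.Agent.Lib.MP_1a91b9_ntT.K ≃+* K)
    {F : Type} [Field F] [NumberField F] [Algebra K F] {r : ℕ}
    {T : Set (Fin r → 𝓞 K)} (h0 : ∀ δ ∈ T, ∀ i, δ i ≠ 0)
    {n : ℕ} {m : 𝓞 K} {u : Fin r → 𝓞 K} (hm : m ∣ 3 ^ n)
    (hu : ∀ i p, Prime p → ¬ (p ^ 3 ∣ m ∧ p ^ 3 ∣ u i))
    {B : Finset F} (hB0 : ∀ β ∈ B, β ≠ 0) {P Q : (Fin r → 𝓞 K) → Prop}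
    (hB : ∀ e : Fin r → 𝓞 K, (∀ i, e i ≠ 0) → P e →
      (∀ χ : Fin r → ZMod 3, χ ≠ 0 → ∀ β ∈ B, ∀ c : F,
        c ^ 3 * algebraMap K F ((∏ k, e k ^ (χ k).val : 𝓞 K) : K) ≠ β) → Q e)
    {t : ℕ} {g v : ℝ} (hg0 : 0 < g) (hg1 : g ≤ 1)
    (hv : v = if T.Infinite then 1 else bn T.ncard t g)
    (hlaw : ∀ S : Finset (Fin r → 𝓞 K), (S : Set (Fin r → 𝓞 K)) ⊆ T →
      CovG3 (𝓞 K) r m u (fun d => t ≤ (S.filter fun δ => P fun i => δ i * d i).card)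
        (bn S.card t g)) (ε : ℝ) (hε : 0 < ε) :
    ∀ᶠ X : ℝ in Filter.atTop, v - ε ≤
      (Nat.card {d : Fin r → 𝓞 K // (∀ i, (∀ x, x ^ 3 ∣ d i → IsUnit x) ∧ m ∣ d i - u i) ∧
        (∃ A, A ≠ 0 ∧ |Algebra.norm ℤ A| ≤ X ∧ ∀ i, d i ∣ A ^ 2) ∧
        t ≤ {δ ∈ T | Q fun i => δ i * d i}.encard} : ℝ) /
        (Nat.card {d : Fin r → 𝓞 K // (∀ i, (∀ x, x ^ 3 ∣ d i → IsUnit x) ∧ m ∣ d i - u i) ∧
          ∃ A, A ≠ 0 ∧ |Algebra.norm ℤ A| ≤ X ∧ ∀ i, d i ∣ A ^ 2} : ℝ) := by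
  refine shell3 hpos hK h3 f h0 hm hu (B := B.image fun β => β ^ 2) (fun β hβ => ?_) (Q := Q)
    (fun e he hP hno => hB e he hP fun χ hχ β hβ c hc => ?_) hg0 hg1 hv hlaw ε hε
  · obtain ⟨γ, hγ, rfl⟩ := Finset.mem_image.1 hβ
    exact pow_ne_zero 2 (hB0 γ hγ)
  · have hβ0 := hB0 β hβ
    have hc0 : c ≠ 0 := by
      rintro rfl
      exact hβ0 (by rw [← hc, zero_pow three_ne_zero, zero_mul])
    refine hno (β ^ 2) (Finset.mem_image.2 ⟨β, hβ, rfl⟩) χ hχ ⟨β / c, ?_⟩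
    rw [div_pow, div_eq_iff (pow_ne_zero 3 hc0)]
    have h2 : β ^ 3 = β ^ 2 * β := by ring
    rw [h2]
    nth_rewrite 2 [← hc]
    ring

end Iso

end

end Pool.Agent.Lib.MP_1a91b9_ntMC
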