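import Pool.Agent.Lib.MP_1a91b9_ntMC.A2

/-!
# MP_1a91b9_nt (random (Z/3)^r-extensions), block A6a: the relative conjecture between all the intermediate fields
-/

set_option autoImplicit false

namespace Pool.Agent.Lib.MP_1a91b9_ntMC

open NumberField IsDedekindDomain WeierstrassCurve
open Pool.Agent.Lib.MP_1a91b9_ntC.Sh (RelQ UnitQ IdxQ)
open Pool.Agent.Lib.MP_1a91b9_ntCC (StbC)
open Pool.Agent.Lib.MP_1a91b9_ntCS.S (RamV)

noncomputable section

/-- **The relative conjecture is transitive**, if the upper field gives no new points. -/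
theorem relQ_trans {q : ℕ} [Fact q.Prime] {L L' L'' : Type} [Field L] [NumberField L] [Field L']
    [NumberField L'] [Field L''] [NumberField L''] [Algebra L L'] [Algebra L' L''] [Algebra L L'']
    {W : WeierstrassCurve L} {W' : WeierstrassCurve L'} {W'' : WeierstrassCurve L''}
    (h1 : RelQ q W W') (h2 : RelQ q W' W'')
    (hp : ∀ x' y' : L'', W''.toAffine.Equation x' y' →
      ∃ x y : L, algebraMap L L'' x = x' ∧ algebraMap L L'' y = y') : RelQ q W W'' := by
  classical
  obtain ⟨⟨g, hg, hg1, hg2, r, hr, hr2⟩, a1, a2, a3, a4, ⟨a5⟩⟩ := h1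
  obtain ⟨⟨g', hg', hg1', hg2', r', hr', hr2'⟩, b1, b2, b3, b4, ⟨b5⟩⟩ := h2
  refine ⟨⟨fun s => g s * g' s, hg.mul hg', mul_ne_zero hg1 hg1', fun s hs => ?_, r * r',
    UnitQ.mul hr hr', ?_⟩, b1.trans a1, ?_, a3, b4, ⟨b5.trans a5⟩⟩
  · rw [hg2' s hs, hg2 s hs, mul_assoc]
  · have e : ((r * r' : ℚ) : ℂ) = (r : ℂ) * r' := by push_cast; rfl
    rw [e, mul_assoc, hr2', mul_left_comm, hr2]
    ring
  · have h : AddSubgroup.closure {P : W''.toAffine.Point | ∃ (x y : L)
        (h : W''.toAffine.Nonsingular (algebraMap L L'' x) (algebraMap L L'' y)),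
        P = WeierstrassCurve.Affine.Point.some _ _ h} = ⊤ := by
      rw [eq_top_iff]
      intro P _
      cases P with
      | zero => exact AddSubgroup.zero_mem _
      | some x' y' h =>
        obtain ⟨x, y, rfl, rfl⟩ := hp x' y' h.1
        exact AddSubgroup.subset_closure ⟨x, y, h, rfl⟩
    unfold IdxQ
    rw [h, AddSubgroup.index_top]
    exact Nat.coprime_one_left q

/-- The condition on the ramification is empty for `L = F`. -/
private theorem a6a_ram (K : Type) [Field K] [NumberField K] {F : Type} [Field F] [NumberField F]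
    [Algebra K F] (V : WeierstrassCurve F) (q : ℕ) : RamV K V q F := by
  intro v w hvw
  exfalso
  have h0 : v.asIdeal ≤ w.asIdeal ^ 2 := fun x hx => hvw (Ideal.mem_map_of_mem _ hx)
  have h1 : v.asIdeal = w.asIdeal :=
    v.isMaximal.eq_of_le w.isPrime.ne_top (h0.trans (Ideal.pow_le_self two_ne_zero))
  rw [h1] at h0
  exact absurd (Ideal.pow_lt_self w.asIdeal w.ne_bot w.isPrime.ne_top 2 le_rfl)
    (not_lt_of_ge h0)

/-- The relative conjecture for one cubic step. -/
theorem rel_step3 {K : Type} [Field K] [NumberField K] {a : K} (F : Type) [Field F]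
    [NumberField F] [Algebra K F] {e : K} (h : StbC a F e) (F₁ : Type) [Field F₁] [NumberField F₁]
    [Algebra F F₁] (y : F₁) (hy : y ^ 3 = algebraMap F F₁ (algebraMap K F e))
    (hg : IntermediateField.adjoin F {y} = ⊤) :
    ∃ S : Finset ℕ, ∀ (q : ℕ) [Fact q.Prime], q ∉ S →
      RelQ q ((⟨0, 0, a, 0, 0⟩ : WeierstrassCurve K).map (algebraMap K F))
        (((⟨0, 0, a, 0, 0⟩ : WeierstrassCurve K).map (algebraMap K F)).map
          (algebraMap F F₁)) := by
  obtain ⟨S, hS⟩ := h.2
  refine ⟨S, fun q _ hq => ?_⟩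
  have h1 := hS q hq 0 F F (by rw [Module.finrank_self, pow_zero]) (a6a_ram K _ q)
    (a6a_ram K _ q) F₁ y hy hg
  have h2 : ((⟨0, 0, a, 0, 0⟩ : WeierstrassCurve K).map (algebraMap K F)).map (algebraMap F F) =
      (⟨0, 0, a, 0, 0⟩ : WeierstrassCurve K).map (algebraMap K F) := WeierstrassCurve.map_id _
  rw [h2] at h1
  exact h1

private theorem a6a_up {F F' N : Type} [Field F] [Field F'] [Field N] [Algebra F F'] [Algebra F N]
    [Algebra F' N] [IsScalarTower F F' N] {s : Set N} (h : IntermediateField.adjoin F s = ⊤) :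
    IntermediateField.adjoin F' s = ⊤ := by
  rw [eq_top_iff]
  intro z _
  have h1 : IntermediateField.adjoin F s ≤
      (IntermediateField.adjoin F' s).restrictScalars F := by
    rw [IntermediateField.adjoin_le_iff]
    exact IntermediateField.subset_adjoin F' s
  rw [h] at h1
  exact h1 (IntermediateField.mem_top (x := z))

/-- A cube root of a cube is in the field. -/
private theorem a6a_bot {F F' : Type} [Field F] [Field F'] [Algebra F F'] {z : F}
    (hz : IsPrimitiveRoot z 3) {y : F'} {c : F} (h : y ^ 3 = algebraMap F F' (c ^ 3)) :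
    y ∈ (⊥ : IntermediateField F F') := by
  by_cases hc : c = 0
  · rw [hc, zero_pow three_ne_zero, map_zero] at h
    rw [pow_eq_zero_iff three_ne_zero] at h
    rw [h]
    exact zero_mem _
  · have hc' : algebraMap F F' c ≠ 0 := (map_ne_zero _).2 hc
    have h1 : (y / algebraMap F F' c) ^ 3 = 1 := by
      rw [div_pow, h, map_pow, div_self (pow_ne_zero 3 hc')]
    have hz' : IsPrimitiveRoot (algebraMap F F' z) 3 :=
      hz.map_of_injective (algebraMap F F').injective
    obtain ⟨i, -, hi⟩ := hz'.eq_pow_of_pow_eq_one h1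
    have h2 : y = algebraMap F F' (z ^ i * c) := by
      rw [map_mul, map_pow, hi, div_mul_cancel₀ _ hc']
    rw [h2]
    exact IntermediateField.algebraMap_mem _ _

/-- **The relative conjecture between all the intermediate fields.** -/
theorem rel_chain3 {K : Type} [Field K] [NumberField K] (a : K) (F : Type) [Field F] [NumberField F]
    [Algebra K F] {z : F} (hz : IsPrimitiveRoot z 3) {r : ℕ} (e : Fin r → K) (he : ∀ i, e i ≠ 0)
    (hind : ∀ χ : Fin r → ZMod 3, χ ≠ 0 → ¬ ∃ c : F, c ^ 3 = algebraMap K F (chp χ e))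
    (N : Type) [Field N] [NumberField N] [Algebra F N] (x : Fin r → N)
    (hx : MCx (fun i => algebraMap K F (e i)) x)
    (hD : ∀ (F' : Type) [Field F'] [NumberField F'] [Algebra K F'] [Algebra F F']
      [IsScalarTower K F F'] [Algebra F' N] [IsScalarTower F F' N],
      (∀ x' y' : F', ((⟨0, 0, a, 0, 0⟩ : WeierstrassCurve K).map
        (algebraMap K F')).toAffine.Equation x' y' →
        ∃ x y : F, algebraMap F F' x = x' ∧ algebraMap F F' y = y') ∧
      ∀ χ : Fin r → ZMod 3, (¬ ∃ c : F', c ^ 3 = algebraMap K F' (chp χ e)) →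
        StbC a F' (chp χ e)) (n : ℕ) :
    ∀ (F' : Type) [Field F'] [NumberField F'] [Algebra K F'] [Algebra F F'] [IsScalarTower K F F']
      [Algebra F' N] [IsScalarTower F F' N]
      (F'' : Type) [Field F''] [NumberField F''] [Algebra F F''] [Algebra F' F'']
      [IsScalarTower F F' F''] [Algebra F'' N] [IsScalarTower F' F'' N],
      Module.finrank F' F'' = n → n ≠ 1 →
      ∃ S : Finset ℕ, ∀ (q : ℕ) [Fact q.Prime], q ∉ S →
        RelQ q ((⟨0, 0, a, 0, 0⟩ : WeierstrassCurve K).map (algebraMap K F'))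
          (((⟨0, 0, a, 0, 0⟩ : WeierstrassCurve K).map (algebraMap K F')).map
            (algebraMap F' F'')) := by
  induction n using Nat.strong_induction_on with
  | _ n ih =>
  intro F' _ _ _ _ _ _ _ F'' _ _ _ _ _ _ _ hn hn1
  obtain ⟨E, hE⟩ : ∃ E : WeierstrassCurve K, E = ⟨0, 0, a, 0, 0⟩ := ⟨_, rfl⟩
  simp only [← hE] at ih hD ⊢
  have hKF : ∀ w : K, algebraMap K F' w = algebraMap F F' (algebraMap K F w) := fun w =>
    IsScalarTower.algebraMap_apply K F F' w
  have hFN : ∀ w : F, algebraMap F N w = algebraMap F'' N (algebraMap F F'' w) := fun w => by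
    rw [IsScalarTower.algebraMap_apply F F' N, IsScalarTower.algebraMap_apply F' F'' N,
      ← IsScalarTower.algebraMap_apply F F' F'']
  have t2 : IsScalarTower F F'' N := IsScalarTower.of_algebraMap_eq hFN
  have hchp : ∀ χ : Fin r → ZMod 3, chp χ (fun i => algebraMap K F (e i)) =
      algebraMap K F (chp χ e) := fun χ => chp_map (algebraMap K F).toMonoidHom χ e
  have hgen0 := hx.inter hz (fun i => (map_ne_zero _).2 (he i)) (fun χ hχ => by
    rw [hchp]
    exact hind χ hχ) F''
  have hgen := a6a_up (F' := F') hgen0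
  have hzF : IsPrimitiveRoot (algebraMap F F' z) 3 :=
    hz.map_of_injective (algebraMap F F').injective
  -- a generator
  obtain ⟨y, χ, hy, hyb⟩ : ∃ (y : F'') (χ : Fin r → ZMod 3),
      y ^ 3 = algebraMap F' F'' (algebraMap K F' (chp χ e)) ∧
      y ∉ (⊥ : IntermediateField F' F'') := by
    by_contra hcon
    push Not at hcon
    have h1 : (⊤ : IntermediateField F' F'') ≤ ⊥ := by
      rw [← hgen, IntermediateField.adjoin_le_iff]
      rintro y ⟨χ, hy⟩
      refine hcon y χ ?_
      rw [hy, hchp, hKF, IsScalarTower.algebraMap_apply F F' F'']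
    have h2 : (⊥ : IntermediateField F' F'') = ⊤ := le_antisymm bot_le h1
    refine hn1 ?_
    rw [← hn, ← IntermediateField.finrank_top', ← h2, IntermediateField.finrank_bot]
  have hns : ¬ ∃ c : F', c ^ 3 = algebraMap K F' (chp χ e) := by
    rintro ⟨c, hc⟩
    rw [← hc] at hy
    exact hyb (a6a_bot hzF hy)
  obtain ⟨-, hR⟩ := hD F'
  obtain ⟨F₁, hF₁⟩ : ∃ F₁ : IntermediateField F' F'', F₁ = IntermediateField.adjoin F' {y} :=
    ⟨_, rfl⟩
  have hyF : y ∈ F₁ := by
    rw [hF₁]
    exact IntermediateField.mem_adjoin_simple_self F' y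
  by_cases h1 : Module.finrank F₁ F'' = 1
  · rw [hE]
    refine rel_step3 F' (hR χ hns) F'' y hy ?_
    rw [← hF₁]
    exact IntermediateField.finrank_eq_one_iff_eq_top.1 h1
  have hgy : IntermediateField.adjoin F' {(⟨y, hyF⟩ : F₁)} = ⊤ := by
    apply IntermediateField.lift_injective F₁
    rw [IntermediateField.lift_adjoin_simple, IntermediateField.lift_top]
    exact hF₁.symm
  obtain ⟨S₁, hS₁⟩ := rel_step3 F' (hR χ hns) F₁ ⟨y, hyF⟩ (Subtype.ext hy) hgy
  let _ : Algebra K F'' := ((algebraMap F' F'').comp (algebraMap K F')).toAlgebra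
  have t1 : IsScalarTower K F' F'' := IsScalarTower.of_algebraMap_eq fun _ => rfl
  have t3 : IsScalarTower K F F'' := IsScalarTower.of_algebraMap_eq fun w => by
    rw [IsScalarTower.algebraMap_apply K F' F'', hKF, ← IsScalarTower.algebraMap_apply F F' F'']
  have t4 : IsScalarTower K F F₁ := IsScalarTower.of_algebraMap_eq fun w => Subtype.ext
    (IsScalarTower.algebraMap_apply K F F'' w)
  have t5 : IsScalarTower F F₁ N := IsScalarTower.of_algebraMap_eq hFN
  have t6 : IsScalarTower F F₁ F'' := IsScalarTower.of_algebraMap_eq fun _ => rfl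
  have hmul : Module.finrank F' F₁ * Module.finrank F₁ F'' = n := by
    rw [← hn]
    exact Module.finrank_mul_finrank F' F₁ F''
  have h2 : Module.finrank F' F₁ ≠ 1 := by
    intro h3
    rw [IntermediateField.finrank_eq_one_iff] at h3
    rw [h3] at hyF
    exact hyb hyF
  have h3 : 0 < Module.finrank F₁ F'' := Module.finrank_pos
  have h4 : 0 < Module.finrank F' F₁ := Module.finrank_pos
  have hlt : Module.finrank F₁ F'' < n := by
    rw [← hmul]
    nlinarith [Nat.lt_of_le_of_ne (Nat.succ_le_of_lt h4) (Ne.symm h2)]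
  obtain ⟨S₂, hS₂⟩ := ih _ hlt F₁ F'' rfl h1
  refine ⟨S₁ ∪ S₂, fun q _ hq => ?_⟩
  have r1 := hS₁ q fun h => hq (Finset.mem_union_left _ h)
  have r2 := hS₂ q fun h => hq (Finset.mem_union_right _ h)
  rw [← hE] at r1
  have e1 : (E.map (algebraMap K F')).map (algebraMap F' F₁) = E.map (algebraMap K F₁) := by
    rw [WeierstrassCurve.map_map]
    exact congrArg E.map (RingHom.ext fun w => Subtype.ext rfl)
  have e2 : (E.map (algebraMap K F₁)).map (algebraMap F₁ F'') =
      (E.map (algebraMap K F')).map (algebraMap F' F'') := by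
    rw [← e1, WeierstrassCurve.map_map]
    exact congrArg (E.map (algebraMap K F')).map (RingHom.ext fun w => rfl)
  have e3 : (E.map (algebraMap K F')).map (algebraMap F' F'') = E.map (algebraMap K F'') :=
    WeierstrassCurve.map_map _ _ _
  rw [e1] at r1
  rw [e2] at r2
  refine relQ_trans r1 r2 fun x' y' hxy => ?_
  rw [e3] at hxy
  obtain ⟨x, y, rfl, rfl⟩ := (hD F'').1 x' y' hxy
  exact ⟨algebraMap F F' x, algebraMap F F' y, (IsScalarTower.algebraMap_apply F F' F'' x).symm,
    (IsScalarTower.algebraMap_apply F F' F'' y).symm⟩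

end

end Pool.Agent.Lib.MP_1a91b9_ntMC
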