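import Pool.Agent.Lib.MP_1a91b9_ntMC.A0
import Pool.Agent.Lib.MP_1a91b9_ntN.F.Fin3
import Pool.Agent.Lib.MP_1a91b9_ntI.TrLs
import Pool.Agent.Lib.MP_1a91b9_ntI.IsoQ

/-!
# MP_1a91b9_nt (random (Z/3)^r-extensions), block R5a: rank zero over the fields generated by cube roots
-/

set_option autoImplicit false

namespace Pool.Agent.Lib.MP_1a91b9_ntMC

open NumberField WeierstrassCurve
open Pool.Agent.Lib.MP_1a91b9_ntZ (Rk)
open Pool.Agent.Lib.MP_1a91b9_ntN (MCT chain3 chainHyp3 adjoin_top)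
open Pool.Agent.Lib.MP_1a91b9_nuI (HasJ)
open Pool.Agent.Lib.MP_1a91b9_ntH (s3)

noncomputable section

/-- Transport along an isomorphism. -/
private theorem r5a_tr {K₀ K : Type} [Field K₀] [NumberField K₀] [Field K] [NumberField K]
    (e : K₀ ≃+* K) {c : K₀} (h : Rk (⟨0, 0, e c, 0, 0⟩ : WeierstrassCurve K)) :
    Rk (⟨0, 0, c, 0, 0⟩ : WeierstrassCurve K₀) := by
  obtain ⟨W, hW⟩ : ∃ W : WeierstrassCurve K₀, W = ⟨0, 0, c, 0, 0⟩ := ⟨_, rfl⟩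
  have e1 : (⟨0, 0, e c, 0, 0⟩ : WeierstrassCurve K) = W.map (e : K₀ →+* K) := by
    rw [hW]
    exact WeierstrassCurve.ext (map_zero _).symm (map_zero _).symm rfl (map_zero _).symm
      (map_zero _).symm
  have hj : HasJ W 0 := by
    rw [hW]
    unfold HasJ WeierstrassCurve.c₄ WeierstrassCurve.b₂ WeierstrassCurve.b₄
    simp
  rw [← hW]
  rw [e1] at h
  obtain ⟨⟨g, hg, hg2, hg1⟩, hf⟩ := h
  refine ⟨⟨g, hg, fun s hs => ?_, hg1⟩, ?_⟩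
  · rw [hg2 s hs]
    exact Pool.Agent.Lib.MP_1a91b9_ntI.ls_e_hasJ e hj s
  · exact Finite.of_injective _
      (Pool.Agent.Lib.MP_1a91b9_nuT.TW.locMap_injective (e : K₀ →+* K) W)

/-- **Rank zero over `F'`** from the curves over `K` (`chain3` over the model, transported). -/
theorem rk_up {K : Type} [Field K] [NumberField K] (hK : Module.finrank ℚ K = 2)
    (h3 : ∃ s : K, s ^ 2 = -3) (F' : Type) [Field F'] [NumberField F'] [Algebra K F']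
    (hF' : IntermediateField.adjoin K {x : F' | ∃ c : K, x ^ 3 = algebraMap K F' c} = ⊤) {x : 𝓞 K}
    (hx : x ≠ 0) (H : ∀ b : 𝓞 K, b ≠ 0 → (∃ y : F', y ^ 3 = algebraMap K F' (b : K)) →
      Rk (⟨0, 0, ((b * x : 𝓞 K) : K), 0, 0⟩ : WeierstrassCurve K)) :
    Rk (⟨0, 0, algebraMap K F' (x : K), 0, 0⟩ : WeierstrassCurve F') := by
  obtain ⟨s, hs⟩ := h3
  have hK2 : Module.finrank ℚ Pool.Agent.Lib.MP_1a91b9_ntT.K = 2 :=
    Pool.Agent.Lib.MP_1a91b9_ntH.finrank_K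
  have hs3 : ((s3 : 𝓞 Pool.Agent.Lib.MP_1a91b9_ntT.K) : Pool.Agent.Lib.MP_1a91b9_ntT.K) ^ 2 =
      ((-3 : ℤ) : Pool.Agent.Lib.MP_1a91b9_ntT.K) := by
    have h := congrArg (fun z : 𝓞 Pool.Agent.Lib.MP_1a91b9_ntT.K =>
      (z : Pool.Agent.Lib.MP_1a91b9_ntT.K)) Pool.Agent.Lib.MP_1a91b9_ntH.s3_sq
    push_cast at h ⊢
    exact h
  obtain ⟨e, -⟩ := Pool.Agent.Lib.MP_1a91b9_ntI.iso_sq (a := -3) hK2 hK
    (x := ((s3 : 𝓞 Pool.Agent.Lib.MP_1a91b9_ntT.K) : Pool.Agent.Lib.MP_1a91b9_ntT.K))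
    (x' := s) hs3 (by
      rw [hs]
      push_cast
      rfl) (by
      rintro ⟨r, hr⟩
      nlinarith [mul_self_nonneg r])
  obtain ⟨E, hE⟩ : ∃ E : 𝓞 Pool.Agent.Lib.MP_1a91b9_ntT.K ≃+* 𝓞 K,
    E = RingOfIntegers.mapRingEquiv e := ⟨_, rfl⟩
  have hEe : ∀ d : 𝓞 Pool.Agent.Lib.MP_1a91b9_ntT.K, ((E d : 𝓞 K) : K) =
      e (d : Pool.Agent.Lib.MP_1a91b9_ntT.K) := fun d => by
    rw [hE]
    rfl
  obtain ⟨x₀, rfl⟩ := E.surjective x
  let _ : Algebra Pool.Agent.Lib.MP_1a91b9_ntT.K F' :=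
    ((algebraMap K F').comp (e : Pool.Agent.Lib.MP_1a91b9_ntT.K →+* K)).toAlgebra
  have hal : ∀ z : Pool.Agent.Lib.MP_1a91b9_ntT.K,
      algebraMap Pool.Agent.Lib.MP_1a91b9_ntT.K F' z = algebraMap K F' (e z) := fun _ => rfl
  have hr : Set.range (algebraMap Pool.Agent.Lib.MP_1a91b9_ntT.K F') =
      Set.range (algebraMap K F') := by
    ext y
    constructor
    · rintro ⟨z, rfl⟩
      exact ⟨e z, (hal z).symm⟩
    · rintro ⟨z, rfl⟩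
      exact ⟨e.symm z, by rw [hal, e.apply_symm_apply]⟩
  have hset : {z : F' | ∃ c : Pool.Agent.Lib.MP_1a91b9_ntT.K,
        z ^ 3 = algebraMap Pool.Agent.Lib.MP_1a91b9_ntT.K F' c} =
      {z : F' | ∃ c : K, z ^ 3 = algebraMap K F' c} := by
    ext z
    constructor
    · rintro ⟨c, hc⟩
      exact ⟨e c, hc⟩
    · rintro ⟨c, hc⟩
      exact ⟨e.symm c, by rw [hal, e.apply_symm_apply]; exact hc⟩
  obtain ⟨A, hA⟩ := MCT.exists_of (adjoin_top hr (by rw [hset]; exact hF'))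
  have hok := hA.ok
  have hx₀ : x₀ ≠ 0 := by
    rintro rfl
    exact hx (map_zero E)
  have h1 := chain3 chainHyp3 hA x₀ hx₀ fun b hb => by
    have hb0 : E b ≠ 0 := (map_ne_zero_iff E E.injective).2 (hok.ne b hb)
    obtain ⟨β, hβ⟩ := hok.cu b hb
    have h2 := H (E b) hb0 ⟨β, by rw [hβ, hal, hEe]⟩
    have h3 : ((E b * E x₀ : 𝓞 K) : K) =
        e ((b * x₀ : 𝓞 Pool.Agent.Lib.MP_1a91b9_ntT.K) : Pool.Agent.Lib.MP_1a91b9_ntT.K) := by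
      rw [← hEe, map_mul]
    rw [h3] at h2
    exact r5a_tr e h2
  rw [hEe, ← hal]
  exact h1

end

end Pool.Agent.Lib.MP_1a91b9_ntMC
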