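import Pool.Agent.Lib.MP_1a91b9_ntMC.A2
import Pool.Agent.Lib.MP_1a91b9_ntMC.R5a

/-!
# MP_1a91b9_nt (random (Z/3)^r-extensions), block A: the towers property over the intermediate fields
-/

set_option autoImplicit false

namespace Pool.Agent.Lib.MP_1a91b9_ntMC

open NumberField WeierstrassCurve
open Pool.Agent.Lib.MP_1a91b9_ntZ (Rk star_three)
open Pool.Agent.Lib.MP_1a91b9_ntJ (TowP exists_e6)

noncomputable section

/-- Rank zero for the curves `y² + x y = x³` does not depend on `x` modulo cubes. -/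
private theorem R5_congr {K : Type} [Field K] [NumberField K] {x y s : K} (hs : s ≠ 0)
    (h : x = y * s ^ 3) (h1 : Rk (⟨0, 0, x, 0, 0⟩ : WeierstrassCurve K)) :
    Rk (⟨0, 0, y, 0, 0⟩ : WeierstrassCurve K) := by
  obtain ⟨C, hC⟩ : ∃ C : VariableChange K, C • (⟨0, 0, x, 0, 0⟩ : WeierstrassCurve K) =
      ⟨0, 0, y, 0, 0⟩ := by
    refine ⟨⟨Units.mk0 s hs, 0, 0, 0⟩, ?_⟩
    rw [h]
    ext
    · simp [variableChange_a₁]
    · simp [variableChange_a₂]
    · simp only [variableChange_a₃, Units.val_inv_eq_inv_val, Units.val_mk0]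
      field_simp
      ring
    · simp [variableChange_a₄]
    · simp [variableChange_a₆]
  have hj : Pool.Agent.Lib.MP_1a91b9_nuI.HasJ (⟨0, 0, x, 0, 0⟩ : WeierstrassCurve K) 0 := by
    unfold Pool.Agent.Lib.MP_1a91b9_nuI.HasJ WeierstrassCurve.c₄ WeierstrassCurve.b₂
      WeierstrassCurve.b₄
    push_cast
    ring
  have h2 := (Pool.Agent.Lib.MP_1a91b9_ntW.J.RkZ.vc hj C).2 h1
  rw [hC] at h2
  exact h2

/-- The rank part over `F'` for the twist by `e^χ` and by its square. -/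
private theorem R5_rk {K : Type} [Field K] [NumberField K] (hK : Module.finrank ℚ K = 2)
    (h3 : ∃ s : K, s ^ 2 = -3) {α : 𝓞 K} (hα : α ≠ 0) {F : Type} [Field F] [NumberField F]
    [Algebra K F] {r : ℕ}
    {e : Fin r → 𝓞 K} (he : ∀ i, e i ≠ 0) (hR : RkA F α e) {N : Type} [Field N] [NumberField N]
    [Algebra F N] {x : Fin r → N} (hx : MCx (fun i => algebraMap K F (e i : K)) x) (F' : Type)
    [Field F'] [NumberField F'] [Algebra K F'] [Algebra F F'] [IsScalarTower K F F'] [Algebra F' N]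
    [IsScalarTower F F' N]
    (hF' : IntermediateField.adjoin K {x : F' | ∃ c : K, x ^ 3 = algebraMap K F' c} = ⊤)
    {χ : Fin r → ZMod 3} (hχ : ¬ ∃ c : F', c ^ 3 = algebraMap K F' ((chp χ e : 𝓞 K) : K)) :
    Rk (⟨0, 0, algebraMap K F' ((α * chp χ e : 𝓞 K) : K), 0, 0⟩ : WeierstrassCurve F') := by
  have hχe : chp χ e ≠ 0 := chp_ne_zero χ he
  refine rk_up hK h3 F' hF' (mul_ne_zero hα hχe) fun b hb hy => ?_
  obtain ⟨y, hy⟩ := hy
  obtain ⟨z, hz⟩ : ∃ z : K, z ^ 2 + z + 1 = 0 := by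
    obtain ⟨s, hs⟩ := h3
    refine ⟨(-1 + s) / 2, ?_⟩
    field_simp
    linear_combination hs
  have hw : IsPrimitiveRoot (algebraMap K F z) 3 := by
    have hz1 : z ≠ 1 := by
      rintro rfl
      have h3 : (3 : K) ≠ 0 := by norm_num
      apply h3
      linear_combination hz
    have hz3 : z ^ 3 = 1 := by linear_combination (z - 1) * hz
    have hp : IsPrimitiveRoot z 3 := by
      rw [← orderOf_eq_prime hz3 hz1]
      exact IsPrimitiveRoot.orderOf z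
    exact hp.map_of_injective (algebraMap K F).injective
  have hbK : (b : K) ≠ 0 := by exact_mod_cast hb
  have hbF : algebraMap K F (b : K) ≠ 0 := (map_ne_zero _).2 hbK
  have heK : ∀ i, ((e i : 𝓞 K) : K) ≠ 0 := fun i => by exact_mod_cast he i
  obtain ⟨ψ, c, hc⟩ := hx.kum hw (fun i => (map_ne_zero _).2 (heK i)) hbF ⟨algebraMap F' N y, by
    rw [← map_pow, hy, IsScalarTower.algebraMap_apply K F F', ← IsScalarTower.algebraMap_apply F F' N]⟩
  have hcF : chp ψ (fun i => algebraMap K F ((e i : 𝓞 K) : K)) =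
      algebraMap K F ((chp ψ e : 𝓞 K) : K) := by
    rw [show (algebraMap K F ((chp ψ e : 𝓞 K) : K)) =
      ((algebraMap K F : K →* F).comp (algebraMap (𝓞 K) K : 𝓞 K →* K)) (chp ψ e) from rfl,
      ← chp_map]
    rfl
  rw [hcF] at hc
  have hψ0 : chp ψ e ≠ 0 := chp_ne_zero ψ he
  have hψK : ((chp ψ e : 𝓞 K) : K) ≠ 0 := by exact_mod_cast hψ0
  have hc0 : c ≠ 0 := by
    rintro rfl
    rw [zero_pow three_ne_zero, mul_zero] at hc
    exact hbF hc
  obtain ⟨k, hk⟩ := chp_mul χ ψ e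
  obtain ⟨κ, hκ⟩ : ∃ κ : 𝓞 K, κ = ∏ i, e i ^ k i := ⟨_, rfl⟩
  have hκ0 : κ ≠ 0 := by
    rw [hκ]
    exact Finset.prod_ne_zero_iff.2 fun i _ => pow_ne_zero _ (he i)
  have hκK : (κ : K) ≠ 0 := by exact_mod_cast hκ0
  rw [← hκ] at hk
  have hkK : ((chp χ e : 𝓞 K) : K) * ((chp ψ e : 𝓞 K) : K) =
      ((chp (χ + ψ) e : 𝓞 K) : K) * (κ : K) ^ 3 := by
    have h := congrArg (fun t : 𝓞 K => (t : K)) hk
    push_cast at h
    exact h
  have hne : χ + ψ ≠ 0 := by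
    intro h0
    rw [h0, chp_zero] at hkK
    apply hχ
    have hyc : algebraMap K F' (b : K) ≠ 0 := (map_ne_zero _).2 hbK
    have hy0 : y ≠ 0 := by
      rintro rfl
      rw [zero_pow three_ne_zero] at hy
      exact hyc hy.symm
    have hψF : algebraMap K F' ((chp ψ e : 𝓞 K) : K) ≠ 0 := (map_ne_zero _).2 hψK
    have h1 := congrArg (algebraMap F F') hc
    rw [map_mul, map_pow, ← IsScalarTower.algebraMap_apply K F F',
      ← IsScalarTower.algebraMap_apply K F F', ← hy] at h1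
    have h2 := congrArg (algebraMap K F') hkK
    rw [map_mul, map_mul, map_pow] at h2
    refine ⟨algebraMap K F' (κ : K) * algebraMap F F' c / y, ?_⟩
    rw [div_pow, div_eq_iff (pow_ne_zero 3 hy0), mul_pow, h1]
    refine mul_right_cancel₀ hψF ?_
    rw [show ((1 : 𝓞 K) : K) = 1 from rfl, map_one, one_mul] at h2
    linear_combination (-(algebraMap F F' c) ^ 3 * algebraMap K F' ((chp ψ e : 𝓞 K) : K)) * h2
  have key := hR (χ + ψ) hne (b * chp ψ e ^ 2) (mul_ne_zero hb (pow_ne_zero 2 hψ0))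
    ⟨algebraMap K F ((chp ψ e : 𝓞 K) : K) * c, by
      rw [show ((b * chp ψ e ^ 2 : 𝓞 K) : K) = (b : K) * ((chp ψ e : 𝓞 K) : K) ^ 2 from rfl,
        map_mul, hc, map_pow]
      ring⟩
  refine R5_congr (s := ((chp ψ e : 𝓞 K) : K) / (κ : K)) (div_ne_zero hψK hκK) ?_ key
  rw [show ((b * chp ψ e ^ 2 * (α * chp (χ + ψ) e) : 𝓞 K) : K) =
      (b : K) * ((chp ψ e : 𝓞 K) : K) ^ 2 * ((α : K) * ((chp (χ + ψ) e : 𝓞 K) : K)) from rfl,
    show ((b * (α * chp χ e) : 𝓞 K) : K) = (b : K) * ((α : K) * ((chp χ e : 𝓞 K) : K)) from rfl,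
    div_pow, mul_div_assoc', eq_div_iff (pow_ne_zero 3 hκK)]
  linear_combination (-(b : K) * (α : K) * ((chp ψ e : 𝓞 K) : K) ^ 2) * hkK

/-- **The towers property over `F'`** for the twists by `e^χ` and its square. -/
theorem towP_mid {K : Type} [Field K] [NumberField K] (hK : Module.finrank ℚ K = 2)
    (h3 : ∃ s : K, s ^ 2 = -3) {a : K} {α t₀ : 𝓞 K} (hα : α ≠ 0) (ht₀ : t₀ ≠ 0)
    (hαt : (α : K) = a * (t₀ : K) ^ 3) {F : Type} [Field F] [NumberField F] [Algebra K F] {r : ℕ}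
    {e : Fin r → 𝓞 K} (he : ∀ i, e i ≠ 0) (hR : RkA F α e) {N : Type} [Field N] [NumberField N]
    [Algebra F N] {x : Fin r → N} (hx : MCx (fun i => algebraMap K F (e i : K)) x) (F' : Type)
    [Field F'] [NumberField F'] [Algebra K F'] [Algebra F F'] [IsScalarTower K F F'] [Algebra F' N]
    [IsScalarTower F F' N]
    (hF' : IntermediateField.adjoin K {x : F' | ∃ c : K, x ^ 3 = algebraMap K F' c} = ⊤)
    {χ : Fin r → ZMod 3} (hχ : ¬ ∃ c : F', c ^ 3 = algebraMap K F' ((chp χ e : 𝓞 K) : K)) :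
    TowP K (⟨0, 0, algebraMap K F' (a * ((chp χ e : 𝓞 K) : K)), 0, 0⟩ : WeierstrassCurve F') ∧
    TowP K (⟨0, 0, algebraMap K F' (a * ((chp χ e : 𝓞 K) : K) ^ 2), 0, 0⟩ : WeierstrassCurve F') := by
  obtain ⟨s, hs⟩ := h3
  obtain ⟨e6⟩ := exists_e6 hK hs
  have hχe : chp χ e ≠ 0 := chp_ne_zero χ he
  have hχK : ((chp χ e : 𝓞 K) : K) ≠ 0 := by exact_mod_cast hχe
  have key : ∀ χ : Fin r → ZMod 3, (¬ ∃ c : F', c ^ 3 = algebraMap K F' ((chp χ e : 𝓞 K) : K)) →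
      ∀ d k : 𝓞 K, k ≠ 0 → (d : K) = ((chp χ e : 𝓞 K) : K) * (k : K) ^ 3 →
      TowP K (⟨0, 0, algebraMap K F' (a * (d : K)), 0, 0⟩ : WeierstrassCurve F') := by
    intro χ hχ d k hk0 hd
    have hkK : (k : K) ≠ 0 := by exact_mod_cast hk0
    have hd0 : d ≠ 0 := by
      rintro rfl
      have h1 : ((chp χ e : 𝓞 K) : K) * (k : K) ^ 3 ≠ 0 := mul_ne_zero (by
        exact_mod_cast chp_ne_zero χ he) (pow_ne_zero 3 hkK)
      exact h1 hd.symm
    refine star_three e6 hF' hs hα ht₀ hαt hd0 ?_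
    have h1 := R5_rk hK ⟨s, hs⟩ hα he hR hx F' hF' hχ
    refine R5_congr (s := (algebraMap K F' (k : K))⁻¹) (inv_ne_zero ((map_ne_zero _).2 hkK)) ?_ h1
    have hkF : algebraMap K F' (k : K) ≠ 0 := (map_ne_zero _).2 hkK
    rw [hd, show ((α * chp χ e : 𝓞 K) : K) = (α : K) * ((chp χ e : 𝓞 K) : K) from rfl, map_mul,
      map_mul, map_pow]
    field_simp
  refine ⟨key χ hχ _ 1 one_ne_zero (by rw [show ((1 : 𝓞 K) : K) = 1 from rfl]; ring), ?_⟩
  obtain ⟨k, hk⟩ := chp_mul χ χ e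
  obtain ⟨κ, hκ⟩ : ∃ κ : 𝓞 K, κ = ∏ i, e i ^ k i := ⟨_, rfl⟩
  have hκ0 : κ ≠ 0 := by
    rw [hκ]
    exact Finset.prod_ne_zero_iff.2 fun i _ => pow_ne_zero _ (he i)
  have hκK : (κ : K) ≠ 0 := by exact_mod_cast hκ0
  rw [← hκ] at hk
  have hkK : ((chp χ e : 𝓞 K) : K) * ((chp χ e : 𝓞 K) : K) =
      ((chp (χ + χ) e : 𝓞 K) : K) * (κ : K) ^ 3 := by
    have h := congrArg (fun t : 𝓞 K => (t : K)) hk
    push_cast at h
    exact h
  have h2 := key (χ + χ) (by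
    rintro ⟨c, hc⟩
    apply hχ
    have h2 := congrArg (algebraMap K F') hkK
    rw [map_mul, map_mul, map_pow, ← hc] at h2
    have hχF : algebraMap K F' ((chp χ e : 𝓞 K) : K) ≠ 0 := (map_ne_zero _).2 hχK
    have hcκ : c * algebraMap K F' (κ : K) ≠ 0 := by
      intro h0
      rw [← mul_pow, h0] at h2
      exact mul_ne_zero hχF hχF (by rw [h2]; ring)
    refine ⟨algebraMap K F' ((chp χ e : 𝓞 K) : K) / (c * algebraMap K F' (κ : K)), ?_⟩
    rw [div_pow, div_eq_iff (pow_ne_zero 3 hcκ)]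
    linear_combination (algebraMap K F' ((chp χ e : 𝓞 K) : K)) * h2) ((chp χ e) ^ 2) κ hκ0 (by
      push_cast
      rw [← hkK]
      ring)
  have e2 : (((chp χ e ^ 2 : 𝓞 K)) : K) = ((chp χ e : 𝓞 K) : K) ^ 2 := by push_cast; rfl
  rw [e2] at h2
  exact h2

end

end Pool.Agent.Lib.MP_1a91b9_ntMC
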