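import Pool.Agent.Lib.MP_1a91b9_ntMC.P4
import Pool.Agent.Lib.MP_1a91b9_ntMC.R5
import Pool.Agent.Lib.MP_1a91b9_ntMC.A6a
import Pool.Agent.Lib.MP_1a91b9_ntI.TrLs

/-!
# MP_1a91b9_nt (random (Z/3)^r-extensions), block A6: the property `M` of a tuple
-/

set_option autoImplicit false

namespace Pool.Agent.Lib.MP_1a91b9_ntMC

open NumberField WeierstrassCurve
open Pool.Agent.Lib.MP_1a91b9_ntC.Sh (RelQ)
open Pool.Agent.Lib.MP_1a91b9_ntCC (StbC fin_of_towP)
open Pool.Agent.Lib.MP_1a91b9_ntCS.S (tow_step3)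

noncomputable section

/-- `chp` of a tuple of integers, in a field. -/
private theorem A6_chp {K : Type} [Field K] [NumberField K] {L : Type} [Field L] [Algebra K L] {r : ℕ}
    (χ : Fin r → ZMod 3) (e : Fin r → 𝓞 K) :
    chp χ (fun i => algebraMap K L ((e i : 𝓞 K) : K)) = algebraMap K L ((chp χ e : 𝓞 K) : K) := by
  rw [show (algebraMap K L ((chp χ e : 𝓞 K) : K)) =
      ((algebraMap K L : K →* L).comp (algebraMap (𝓞 K) K : 𝓞 K →* K)) (chp χ e) from rfl,
      ← chp_map]
  rfl

private theorem A6_chpK {K : Type} [Field K] [NumberField K] {r : ℕ}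
    (χ : Fin r → ZMod 3) (e : Fin r → 𝓞 K) :
    chp χ (fun i => ((e i : 𝓞 K) : K)) = ((chp χ e : 𝓞 K) : K) := by
  rw [show ((chp χ e : 𝓞 K) : K) = (algebraMap (𝓞 K) K : 𝓞 K →* K) (chp χ e) from rfl, ← chp_map]
  rfl

/-- The intermediate fields are generated over `K` by cube roots. -/
private theorem A6_gen {K : Type} [Field K] [NumberField K] {F : Type} [Field F] [NumberField F]
    [Algebra K F] (hF : IntermediateField.adjoin K {x : F | ∃ c : K, x ^ 3 = algebraMap K F c} = ⊤)
    {r : ℕ} (e : Fin r → K) (F' : Type) [Field F'] [NumberField F'] [Algebra K F'] [Algebra F F']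
    [IsScalarTower K F F']
    (h : IntermediateField.adjoin F {y : F' | ∃ χ : Fin r → ZMod 3, y ^ 3 =
      algebraMap F F' (chp χ fun i => algebraMap K F (e i))} = ⊤) :
    IntermediateField.adjoin K {x : F' | ∃ c : K, x ^ 3 = algebraMap K F' c} = ⊤ := by
  obtain ⟨A, hA⟩ : ∃ A : IntermediateField K F', A =
      IntermediateField.adjoin K {x : F' | ∃ c : K, x ^ 3 = algebraMap K F' c} := ⟨_, rfl⟩
  rw [← hA, eq_top_iff]
  have h1 : ∀ z : F, algebraMap F F' z ∈ A := by
    intro z
    have hz : z ∈ IntermediateField.adjoin K {x : F | ∃ c : K, x ^ 3 = algebraMap K F c} := by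
      rw [hF]
      trivial
    refine IntermediateField.adjoin_induction (F := K) (p := fun z _ => algebraMap F F' z ∈ A)
      ?_ ?_ ?_ ?_ ?_ hz
    · rintro x ⟨c, hc⟩
      rw [hA]
      refine IntermediateField.subset_adjoin K _ ⟨c, ?_⟩
      rw [← map_pow, hc, ← IsScalarTower.algebraMap_apply]
    · intro c
      rw [← IsScalarTower.algebraMap_apply K F F']
      exact A.algebraMap_mem c
    · intro x y _ _ hx hy
      rw [map_add]
      exact A.add_mem hx hy
    · intro x _ hx
      rw [map_inv₀]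
      exact A.inv_mem hx
    · intro x y _ _ hx hy
      rw [map_mul]
      exact A.mul_mem hx hy
  intro z _
  have hz : z ∈ IntermediateField.adjoin F {y : F' | ∃ χ : Fin r → ZMod 3, y ^ 3 =
      algebraMap F F' (chp χ fun i => algebraMap K F (e i))} := by
    rw [h]
    trivial
  refine IntermediateField.adjoin_induction (F := F) (p := fun z _ => z ∈ A)
    ?_ ?_ ?_ ?_ ?_ hz
  · rintro y ⟨χ, hy⟩
    rw [hA]
    refine IntermediateField.subset_adjoin K _ ⟨chp χ e, ?_⟩
    rw [hy, IsScalarTower.algebraMap_apply K F F']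
    congr 1
    exact chp_map (algebraMap K F : K →* F) χ e
  · exact h1
  · intro x y _ _ hx hy
    exact A.add_mem hx hy
  · intro x _ hx
    exact A.inv_mem hx
  · intro x y _ _ hx hy
    exact A.mul_mem hx hy

/-- A field generated by a cube root embeds in a field which contains such a root and the third roots of unity. -/
private theorem A6_emb {L N E : Type} [Field L] [Field N] [Algebra L N] [Field E] [Algebra L E]
    {w : L} (hw : w ^ 2 + w + 1 = 0) {b : L} {θ : N} (hθ : θ ^ 3 = algebraMap L N b) {y : E}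
    (hy : y ^ 3 = algebraMap L E b) (hgen : IntermediateField.adjoin L {y} = ⊤) :
    Nonempty (E →ₐ[L] N) := by
  have hint : IsIntegral L y := by
    refine ⟨Polynomial.X ^ 3 - Polynomial.C b, Polynomial.monic_X_pow_sub_C b three_ne_zero, ?_⟩
    simp [hy]
  have hspl : ((minpoly L y).map (algebraMap L N)).Splits := by
    have h1 : minpoly L y ∣ Polynomial.X ^ 3 - Polynomial.C b := by
      refine minpoly.dvd L y ?_
      simp [hy]
    have h2 : ((Polynomial.X ^ 3 - Polynomial.C b : Polynomial L).map (algebraMap L N)) =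
        (Polynomial.X - Polynomial.C θ) * (Polynomial.X - Polynomial.C (algebraMap L N w * θ)) *
          (Polynomial.X - Polynomial.C (algebraMap L N w ^ 2 * θ)) := by
      have hw' : algebraMap L N w ^ 2 + algebraMap L N w + 1 = 0 := by
        rw [← map_pow, ← map_add, ← map_one (algebraMap L N), ← map_add, hw, map_zero]
      have e1 : (Polynomial.C (algebraMap L N w)) ^ 2 + Polynomial.C (algebraMap L N w) + 1 =
          (0 : Polynomial N) := by
        rw [← map_pow, ← map_add, ← map_one Polynomial.C, ← map_add, hw', map_zero]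
      rw [Polynomial.map_sub, Polynomial.map_pow, Polynomial.map_X, Polynomial.map_C, ← hθ]
      simp only [map_mul, map_pow]
      linear_combination (Polynomial.X * Polynomial.C θ ^ 2 * (-Polynomial.C (algebraMap L N w)) +
        Polynomial.X ^ 2 * Polynomial.C θ + Polynomial.C θ ^ 3 * (Polynomial.C (algebraMap L N w) - 1)) * e1
    have h3 : ((Polynomial.X ^ 3 - Polynomial.C b : Polynomial L).map (algebraMap L N)).Splits := by
      rw [h2]
      exact ((Polynomial.Splits.X_sub_C _).mul (Polynomial.Splits.X_sub_C _)).mul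
        (Polynomial.Splits.X_sub_C _)
    refine h3.of_dvd ?_ (Polynomial.map_dvd _ h1)
    exact (Polynomial.map_ne_zero (Polynomial.X_pow_sub_C_ne_zero three_pos b))
  obtain ⟨f⟩ := IntermediateField.nonempty_algHom_adjoin_of_splits (F := L) (E := E) (K := N)
    (S := {y}) (by
      rintro s rfl
      exact ⟨hint, hspl⟩)
  exact ⟨f.comp ((IntermediateField.equivOfEq hgen).symm.toAlgHom.comp
    IntermediateField.topEquiv.symm.toAlgHom)⟩

/-- The points over a field which embeds in `N` over `F`. -/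
private theorem A6_pt {F N : Type} [Field F] [Field N] [Algebra F N] {c : F}
    (hN : ∀ x' y' : N, ((⟨0, 0, c, 0, 0⟩ : WeierstrassCurve F).map (algebraMap F N)).toAffine.Equation x' y' →
        ∃ x₀ y₀ : F, algebraMap F N x₀ = x' ∧ algebraMap F N y₀ = y')
    (L : Type) [Field L] [Algebra F L] (φ : L →ₐ[F] N) (x' y' : L)
    (h : ((⟨0, 0, c, 0, 0⟩ : WeierstrassCurve F).map (algebraMap F L)).toAffine.Equation x' y') :
    ∃ x₀ y₀ : F, algebraMap F L x₀ = x' ∧ algebraMap F L y₀ = y' := by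
  have h1 : (((⟨0, 0, c, 0, 0⟩ : WeierstrassCurve F).map (algebraMap F L)).map
      (φ : L →+* N)).toAffine.Equation (φ x') (φ y') := (WeierstrassCurve.Affine.map_equation
    ((⟨0, 0, c, 0, 0⟩ : WeierstrassCurve F).map (algebraMap F L)) (f := (φ : L →+* N))
    φ.toRingHom.injective x' y').2 h
  have e1 : ((⟨0, 0, c, 0, 0⟩ : WeierstrassCurve F).map (algebraMap F L)).map (φ : L →+* N) =
      (⟨0, 0, c, 0, 0⟩ : WeierstrassCurve F).map (algebraMap F N) := by
    rw [WeierstrassCurve.map_map]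
    congr 1
    exact φ.comp_algebraMap
  rw [e1] at h1
  obtain ⟨x₀, y₀, hx, hy⟩ := hN _ _ h1
  exact ⟨x₀, y₀, φ.toRingHom.injective ((φ.commutes x₀).trans hx),
    φ.toRingHom.injective ((φ.commutes y₀).trans hy)⟩

/-- Extensions of degree one: the `L`-series is the same. -/
private theorem A6_one {K F F' : Type} [Field K] [Field F] [NumberField F] [Field F'] [NumberField F']
    [Algebra K F] [Algebra K F'] [Algebra F F'] [IsScalarTower K F F'] (a : K)
    (h : Module.finrank F F' = 1) (s : ℂ) :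
    ((⟨0, 0, a, 0, 0⟩ : WeierstrassCurve K).map (algebraMap K F')).LSeries s =
      ((⟨0, 0, a, 0, 0⟩ : WeierstrassCurve K).map (algebraMap K F)).LSeries s := by
  have hb : Function.Bijective (algebraMap F F') := by
    refine ⟨(algebraMap F F').injective, ?_⟩
    have h1 := Subalgebra.bot_eq_top_iff_finrank_eq_one.2 h
    exact Algebra.surjective_algebraMap_iff.2 h1.symm
  obtain ⟨f, hf⟩ : ∃ f : F ≃+* F', (f : F →+* F') = algebraMap F F' :=
    ⟨RingEquiv.ofBijective _ hb, by
      ext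
      rfl⟩
  have hj : Pool.Agent.Lib.MP_1a91b9_nuI.HasJ
      ((⟨0, 0, a, 0, 0⟩ : WeierstrassCurve K).map (algebraMap K F)) 0 := by
    unfold Pool.Agent.Lib.MP_1a91b9_nuI.HasJ WeierstrassCurve.c₄ WeierstrassCurve.b₂
      WeierstrassCurve.b₄
    simp
  have h2 := Pool.Agent.Lib.MP_1a91b9_ntI.ls_e_hasJ f hj s
  rw [hf, WeierstrassCurve.map_map, ← IsScalarTower.algebraMap_eq] at h2
  exact h2

/-- **A6** (file A6.lean). The property `M` of a tuple outside of the exceptional classes. -/
theorem propM3_of {K : Type} [Field K] [NumberField K] (hK : Module.finrank ℚ K = 2)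
    (h3 : ∃ s : K, s ^ 2 = -3) {a : K} (ha : a ≠ 0) (F : Type) [Field F] [NumberField F] [Algebra K F]
    (hF : IntermediateField.adjoin K {x : F | ∃ c : K, x ^ 3 = algebraMap K F c} = ⊤) (r : ℕ) :
    ∃ B : Finset F, (∀ β ∈ B, β ≠ 0) ∧ ∀ α t₀ : 𝓞 K, α ≠ 0 → t₀ ≠ 0 → (α : K) = a * (t₀ : K) ^ 3 →
      ∀ e : Fin r → 𝓞 K, (∀ i, e i ≠ 0) → RkA F α e →
      (∀ β ∈ B, ∀ χ : Fin r → ZMod 3, χ ≠ 0 →
        ¬ ∃ c : F, c ^ 3 = algebraMap K F ((∏ k, e k ^ (χ k).val : 𝓞 K) : K) * β) →
      PropM3 a F (fun i => ((e i : 𝓞 K) : K)) := by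
  classical
  obtain ⟨z, hz⟩ : ∃ z : K, z ^ 2 + z + 1 = 0 := by
    obtain ⟨s, hs⟩ := h3
    refine ⟨(-1 + s) / 2, ?_⟩
    field_simp
    linear_combination hs
  have hw : IsPrimitiveRoot (algebraMap K F z) 3 := by
    have hz1 : z ≠ 1 := by
      rintro rfl
      have h3 : (3 : K) ≠ 0 := by norm_num
      apply h3
      linear_combination hz
    have hz3 : z ^ 3 = 1 := by linear_combination (z - 1) * hz
    have hp : IsPrimitiveRoot z 3 := by
      rw [← orderOf_eq_prime hz3 hz1]
      exact IsPrimitiveRoot.orderOf z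
    exact hp.map_of_injective (algebraMap K F).injective
  have haF : algebraMap K F a ≠ 0 := (map_ne_zero _).2 ha
  obtain ⟨B, hB0, hB1, hB⟩ := nn_mc hw haF r
  refine ⟨B.image fun β => β⁻¹, ?_, ?_⟩
  · intro β hβ
    obtain ⟨γ, hγ, rfl⟩ := Finset.mem_image.1 hβ
    exact inv_ne_zero (hB0 γ hγ)
  intro α t₀ hα ht₀ hαt e he hR hex N _ _ _ x hx hgen
  have hM : MCx (fun i => algebraMap K F ((e i : 𝓞 K) : K)) x := ⟨hx, hgen⟩
  have heK : ∀ i, ((e i : 𝓞 K) : K) ≠ 0 := fun i => by exact_mod_cast he i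
  have heF : ∀ i, algebraMap K F ((e i : 𝓞 K) : K) ≠ 0 := fun i => (map_ne_zero _).2 (heK i)
  have hchp0 : ∀ χ : Fin r → ZMod 3, chp χ (fun i => algebraMap K F ((e i : 𝓞 K) : K)) ≠ 0 :=
    fun χ => chp_ne_zero χ heF
  have hex' : ∀ χ : Fin r → ZMod 3, χ ≠ 0 → ∀ β ∈ B, ∀ c : F,
      c ^ 3 * chp χ (fun i => algebraMap K F ((e i : 𝓞 K) : K)) ≠ β := by
    intro χ hχ β hβ c hc
    have hβ0 := hB0 β hβ
    have hc0 : c ≠ 0 := by
      rintro rfl
      rw [zero_pow three_ne_zero, zero_mul] at hc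
      exact hβ0 hc.symm
    refine hex β⁻¹ (Finset.mem_image_of_mem _ hβ) χ hχ ⟨c⁻¹, ?_⟩
    have h1 : algebraMap K F ((∏ k, e k ^ (χ k).val : 𝓞 K) : K) =
        chp χ (fun i => algebraMap K F ((e i : 𝓞 K) : K)) := (A6_chp χ e).symm
    rw [h1, ← hc]
    have h2 := hchp0 χ
    field_simp
  have hind : ∀ χ : Fin r → ZMod 3, χ ≠ 0 →
      ¬ ∃ c : F, c ^ 3 = chp χ (fun i => algebraMap K F ((e i : 𝓞 K) : K)) := by
    rintro χ hχ ⟨c, hc⟩
    have hc0 : c ≠ 0 := by
      rintro rfl
      rw [zero_pow three_ne_zero] at hc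
      exact hchp0 χ hc.symm
    refine hex' χ hχ 1 hB1 c⁻¹ ?_
    rw [← hc, inv_pow, inv_mul_cancel₀ (pow_ne_zero 3 hc0)]
  have hfin : ∀ χ : Fin r → ZMod 3, χ ≠ 0 → Finite (⟨0, 0, chp χ (fun i =>
      algebraMap K F ((e i : 𝓞 K) : K)) * algebraMap K F a, 0, 0⟩ :
        WeierstrassCurve F).toAffine.Point := by
    intro χ hχ
    have h1 := (towP_mid hK h3 hα ht₀ hαt he hR hM F hF (χ := χ) (by
      rintro ⟨c, hc⟩
      exact hind χ hχ ⟨c, by rw [hc, A6_chp]⟩)).1
    have h2 := fin_of_towP h1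
    rw [map_mul, mul_comm, ← A6_chp] at h2
    exact h2
  have hN := hB N (fun i => algebraMap K F ((e i : 𝓞 K) : K)) x heF hM hfin hex'
  -- the intermediate fields
  have hD : ∀ (F' : Type) [Field F'] [NumberField F'] [Algebra K F'] [Algebra F F']
      [IsScalarTower K F F'] [Algebra F' N] [IsScalarTower F F' N],
      (∀ x' y' : F', ((⟨0, 0, a, 0, 0⟩ : WeierstrassCurve K).map
        (algebraMap K F')).toAffine.Equation x' y' →
        ∃ x y : F, algebraMap F F' x = x' ∧ algebraMap F F' y = y') ∧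
      ∀ χ : Fin r → ZMod 3, (¬ ∃ c : F', c ^ 3 = algebraMap K F' (chp χ fun i => ((e i : 𝓞 K) : K))) →
        StbC a F' (chp χ fun i => ((e i : 𝓞 K) : K)) := by
    intro F' _ _ _ _ _ _ _
    have hF' := A6_gen hF (fun i => ((e i : 𝓞 K) : K)) F' (hM.inter hw heF hind F')
    refine ⟨fun x' y' h => ?_, fun χ hχ => ?_⟩
    · refine A6_pt hN F' (IsScalarTower.toAlgHom F F' N) x' y' ?_
      have e1 : (⟨0, 0, a, 0, 0⟩ : WeierstrassCurve K).map (algebraMap K F') =
          (⟨0, 0, algebraMap K F a, 0, 0⟩ : WeierstrassCurve F).map (algebraMap F F') :=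
        WeierstrassCurve.ext (by simp) (by simp) (IsScalarTower.algebraMap_apply K F F' a) (by simp)
          (by simp)
      rw [← e1]
      exact h
    · rw [A6_chpK] at hχ ⊢
      obtain ⟨t1, t2⟩ := towP_mid hK h3 hα ht₀ hαt he hR hM F' hF' hχ
      refine ⟨?_, tow_step3 hK h3 ha hF' (chp_ne_zero χ he) hχ t1 t2⟩
      intro F'' _ _ _ y hy hgen' x' y' h
      let _ : Algebra F F'' := ((algebraMap F' F'').comp (algebraMap F F')).toAlgebra
      have _ : IsScalarTower F F' F'' := IsScalarTower.of_algebraMap_eq fun _ => rfl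
      obtain ⟨φ⟩ := A6_emb (L := F') (N := N) (w := algebraMap K F' z)
        (θ := chp χ x) (b := algebraMap K F' ((chp χ e : 𝓞 K) : K)) (by
          rw [← map_pow, ← map_add, ← map_one (algebraMap K F'), ← map_add, hz, map_zero]) (by
          rw [← chp_pow]
          have e1 : (fun i => x i ^ 3) = fun i => (algebraMap F N : F →* N)
              (algebraMap K F ((e i : 𝓞 K) : K)) := funext hx
          rw [e1, chp_map, A6_chp]
          show algebraMap F N (algebraMap K F _) = _
          rw [IsScalarTower.algebraMap_apply F F' N, ← IsScalarTower.algebraMap_apply K F F']) hy hgen'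
      obtain ⟨x₀, y₀, h1, h2⟩ := A6_pt hN F'' (φ.restrictScalars F) x' y' (by
        have e1 : ((⟨0, 0, a, 0, 0⟩ : WeierstrassCurve K).map (algebraMap K F')).map
            (algebraMap F' F'') =
            (⟨0, 0, algebraMap K F a, 0, 0⟩ : WeierstrassCurve F).map (algebraMap F F'') :=
          WeierstrassCurve.ext (by simp) (by simp) (by
            show algebraMap F' F'' (algebraMap K F' a) = algebraMap F F'' (algebraMap K F a)
            rw [IsScalarTower.algebraMap_apply F F' F'', ← IsScalarTower.algebraMap_apply K F F'])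
            (by simp) (by simp)
        rw [← e1]
        exact h)
      exact ⟨algebraMap F F' x₀, algebraMap F F' y₀, by
        rw [← IsScalarTower.algebraMap_apply F F' F'', h1], by
        rw [← IsScalarTower.algebraMap_apply F F' F'', h2]⟩
  have hind' : ∀ χ : Fin r → ZMod 3, χ ≠ 0 →
      ¬ ∃ c : F, c ^ 3 = algebraMap K F (chp χ fun i => ((e i : 𝓞 K) : K)) := by
    rintro χ hχ ⟨c, hc⟩
    exact hind χ hχ ⟨c, by rw [hc, A6_chpK, A6_chp]⟩
  have hrel := fun n => rel_chain3 a F hw (fun i => ((e i : 𝓞 K) : K)) heK hind' N x hM hD n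
  refine ⟨hM.deg hw heF hind, ?_⟩
  intro F' _ _ _ _ _ _ _
  refine ⟨(hD F').1, ?_, ?_, (hD F').2⟩
  · by_cases h1 : Module.finrank F F' = 1
    · exact ⟨fun _ => 1, differentiable_const _, one_ne_zero, fun s _ => by
        rw [mul_one]
        exact A6_one a h1 s⟩
    · obtain ⟨S, hS⟩ := hrel _ F F' rfl h1
      obtain ⟨q, hq1, hq⟩ := Nat.exists_infinite_primes (S.sup id + 1)
      have hqS : q ∉ S := fun h => by
        have h1 : id q ≤ S.sup id := Finset.le_sup h
        rw [id] at h1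
        omega
      have _ : Fact q.Prime := ⟨hq⟩
      obtain ⟨⟨g, g1, g2, g3, -⟩, -⟩ := hS q hqS
      refine ⟨g, g1, g2, fun s hs => ?_⟩
      have h4 := g3 s hs
      rw [WeierstrassCurve.map_map, ← IsScalarTower.algebraMap_eq] at h4
      exact h4
  · intro F'' _ _ _ _ _ _ _ h1
    exact hrel _ F' F'' rfl h1

end

end Pool.Agent.Lib.MP_1a91b9_ntMC
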