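import Pool.Agent.Lib.MP_1a91b9_ntMC.A1
import Pool.Agent.Lib.MP_1a91b9_ntMC.A5
import Pool.Agent.Lib.MP_1a91b9_ntMC.A6
import Pool.Agent.Lib.MP_1a91b9_ntMC.D1

/-!
# MP_1a91b9_nt (random (Z/3)^r-extensions), block A7: the law
-/

set_option autoImplicit false

namespace Pool.Agent.Lib.MP_1a91b9_ntMC.Fin

open NumberField WeierstrassCurve
open Pool.Agent.Lib.MP_1a91b9_ntS3.G (c9)
open Pool.Agent.Lib.MP_1a91b9_ntZ (bn AtF CB cb_three)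
open Pool.Agent.Lib.MP_1a91b9_ntJ (exists_e6 exists_cube_mul)

noncomputable section

/-- The condition on the set `T`, for the tuples. -/
private theorem A7_sep {K : Type} [Field K] [NumberField K] {a : K} (ha : a ≠ 0) {α t₀ : 𝓞 K}
    (ht₀ : t₀ ≠ 0) (hαt : (α : K) = a * (t₀ : K) ^ 3) {F : Type} [Field F] [NumberField F]
    [Algebra K F] {r : ℕ} {T : Set (Fin r → 𝓞 K)}
    (hT : ∀ δ ∈ T, ∀ δ' ∈ T, δ ≠ δ' → ∀ χ : Fin r → Fin 3, χ ≠ 0 →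
      ∀ e ∈ ({1, a, a ^ 2} : Set K), ∀ x : F, x ≠ 0 →
      x ^ 3 * algebraMap K F ((∏ i, δ' i ^ (χ i : ℕ) : 𝓞 K) : K) ≠
        algebraMap K F (e * ((∏ i, δ i ^ (χ i : ℕ) : 𝓞 K) : K)))
    {S : Finset (Fin r → 𝓞 K)} (hS : (S : Set (Fin r → 𝓞 K)) ⊆ T) : Sep3M F (α : K) S := by
  intro δ hδ δ' hδ' hne χ hχ i x hx h
  have ht : algebraMap K F (t₀ : K) ≠ 0 := (map_ne_zero _).2 (by exact_mod_cast ht₀)
  have hti : algebraMap K F (t₀ : K) ^ i ≠ 0 := pow_ne_zero i ht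
  have hr : i % 3 < 3 := Nat.mod_lt _ (by norm_num)
  have haF : algebraMap K F a ≠ 0 := (map_ne_zero _).2 ha
  obtain ⟨l, hl⟩ : ∃ l, l = i % 3 := ⟨_, rfl⟩
  obtain ⟨k, hk⟩ : ∃ k, k = i / 3 := ⟨_, rfl⟩
  have hi : i = 3 * k + l := by omega
  have hak : algebraMap K F a ^ k ≠ 0 := pow_ne_zero k haF
  have he : a ^ l ∈ ({1, a, a ^ 2} : Set K) := by
    have : l = 0 ∨ l = 1 ∨ l = 2 := by omega
    rcases this with h | h | h <;> rw [h]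
    · exact Or.inl (pow_zero a)
    · exact Or.inr (Or.inl (pow_one a))
    · exact Or.inr (Or.inr rfl)
  refine hT δ (hS (Finset.mem_coe.2 hδ)) δ' (hS (Finset.mem_coe.2 hδ')) hne χ hχ (a ^ l) he
    (x / (algebraMap K F (t₀ : K) ^ i * algebraMap K F a ^ k))
    (div_ne_zero hx (mul_ne_zero hti hak)) ?_
  have e1 : (∏ i, δ' i ^ (χ i : ZMod 3).val : 𝓞 K) = chp χ δ' := rfl
  have e2 : (∏ i, δ i ^ (χ i : ZMod 3).val : 𝓞 K) = chp χ δ := rfl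
  change (x / (algebraMap K F (t₀ : K) ^ i * algebraMap K F a ^ k)) ^ 3 *
    algebraMap K F ((chp χ δ' : 𝓞 K) : K) = algebraMap K F (a ^ l * ((chp χ δ : 𝓞 K) : K))
  have e3 : algebraMap K F ((α : K) ^ i * ((chp χ δ : 𝓞 K) : K)) =
      (algebraMap K F (t₀ : K) ^ i * algebraMap K F a ^ k) ^ 3 *
        algebraMap K F (a ^ l * ((chp χ δ : 𝓞 K) : K)) := by
    have e4 : algebraMap K F a ^ i = (algebraMap K F a ^ k) ^ 3 * algebraMap K F a ^ l := by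
      rw [hi, pow_add, mul_comm 3 k, pow_mul]
    have e5 : (algebraMap K F (t₀ : K) ^ 3) ^ i = (algebraMap K F (t₀ : K) ^ i) ^ 3 := by
      rw [← pow_mul, ← pow_mul, mul_comm]
    rw [hαt]
    simp only [map_mul, map_pow]
    rw [mul_pow, e4, e5]
    ring
  rw [div_pow, div_mul_eq_mul_div, h, e3,
    mul_div_cancel_left₀ _ (pow_ne_zero 3 (mul_ne_zero hti hak))]

open Classical in
/-- **The law**, from the law for the symbols. -/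
theorem fin_den3J (J : JM3) (hpos : ∀ n r, CovPos3 (c9 n) (Fin r)) (K : Type) [Field K]
    [NumberField K] (hK : Module.finrank ℚ K = 2)
    (h3 : ∃ s : K, s ^ 2 = -3) (E : WeierstrassCurve K)
    (hE : E.a₁ = 0 ∧ E.a₂ = 0 ∧ E.a₄ = 0 ∧ E.a₆ = 0) (hΔ : E.Δ ≠ 0)
    (F : Type) [Field F] [NumberField F] [Algebra K F]
    (hF : IntermediateField.adjoin K {x : F | ∃ c : K, x ^ 3 = algebraMap K F c} = ⊤) (r : ℕ)
    (T : Set (Fin r → 𝓞 K)) (h0 : ∀ δ ∈ T, ∀ i, δ i ≠ 0)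
    (hT : ∀ δ ∈ T, ∀ δ' ∈ T, δ ≠ δ' → ∀ χ : Fin r → Fin 3, χ ≠ 0 →
      ∀ e ∈ ({1, E.a₃, E.a₃ ^ 2} : Set K), ∀ x : F, x ≠ 0 →
      x ^ 3 * algebraMap K F ((∏ i, δ' i ^ (χ i : ℕ) : 𝓞 K) : K) ≠
        algebraMap K F (e * ((∏ i, δ i ^ (χ i : ℕ) : 𝓞 K) : K)))
    (n : ℕ) (m : 𝓞 K) (u : Fin r → 𝓞 K) (hm : m ∣ 3 ^ n)
    (hu : ∀ i p, Prime p → ¬ (p ^ 3 ∣ m ∧ p ^ 3 ∣ u i)) (c : ℝ)
    (hc : c = ∏' i : ℕ, (1 + 1 / (3 : ℝ) ^ (i + 1))⁻¹) (t : ℕ) (v : ℝ)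
    (hv : v = if T.Infinite then 1 else ∑ j ∈ Finset.Icc t T.ncard, (T.ncard.choose j : ℝ) *
      (c ^ ((3 ^ r - 1) * Module.finrank K F)) ^ j *
        (1 - c ^ ((3 ^ r - 1) * Module.finrank K F)) ^ (T.ncard - j))
    (ε : ℝ) (hε : 0 < ε) :
    ∀ᶠ X : ℝ in Filter.atTop, v - ε ≤
      (Nat.card {d : Fin r → 𝓞 K // (∀ i, (∀ x, x ^ 3 ∣ d i → IsUnit x) ∧ m ∣ d i - u i) ∧
        (∃ A, A ≠ 0 ∧ |Algebra.norm ℤ A| ≤ X ∧ ∀ i, d i ∣ A ^ 2) ∧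
        t ≤ {δ ∈ T | PropM E F (fun i => ((δ i * d i : 𝓞 K) : K))}.encard} : ℝ) /
        (Nat.card {d : Fin r → 𝓞 K // (∀ i, (∀ x, x ^ 3 ∣ d i → IsUnit x) ∧ m ∣ d i - u i) ∧
          ∃ A, A ≠ 0 ∧ |Algebra.norm ℤ A| ≤ X ∧ ∀ i, d i ∣ A ^ 2} : ℝ) := by
  obtain ⟨h1, h2, h4, h6⟩ := hE
  have ha : E.a₃ ≠ 0 := by
    intro h
    apply hΔ
    unfold WeierstrassCurve.Δ WeierstrassCurve.b₂ WeierstrassCurve.b₄ WeierstrassCurve.b₆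
      WeierstrassCurve.b₈
    rw [h1, h2, h4, h6, h]
    ring
  have hE : E = ⟨0, 0, E.a₃, 0, 0⟩ := WeierstrassCurve.ext h1 h2 rfl h4 h6
  obtain ⟨a, haE⟩ : ∃ a, a = E.a₃ := ⟨_, rfl⟩
  rw [← haE] at ha hE hT
  subst hE
  obtain ⟨s, hs⟩ := h3
  obtain ⟨e⟩ := exists_e6 hK hs
  obtain ⟨e'⟩ := Pool.Agent.Lib.MP_1a91b9_ntN.exists_iso36
  obtain ⟨f, -⟩ : ∃ f : Pool.Agent.Lib.MP_1a91b9_ntT.K ≃+* K, True :=
    ⟨(e' : Pool.Agent.Lib.MP_1a91b9_ntT.K ≃+* _).trans e, trivial⟩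
  obtain ⟨α, t₀, hα, ht₀, hαt⟩ := exists_cube_mul ha
  obtain ⟨Eo, hEo⟩ : ∃ Eo : 𝓞 (Pool.Agent.Lib.MP_1a91b9_ntT.K) ≃+* 𝓞 K,
    Eo = RingOfIntegers.mapRingEquiv f := ⟨_, rfl⟩
  obtain ⟨α', hα'⟩ := Eo.surjective α
  have hα0 : α' ≠ 0 := by
    rintro rfl
    exact hα (by rw [← hα', map_zero])
  have H : KBM K α := by
    rw [← hα', hEo]
    exact KBM.equiv f (kbM_main J hpos hα0)
  obtain ⟨B, hB0, hB⟩ := propM3_of hK ⟨s, hs⟩ ha F hF r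
  have hcb : CB (c ^ ((3 ^ r - 1) * Module.finrank K F)) := by
    rw [hc]
    exact cb_three.pow _
  have key := shell3 (P := RkA F α)
    (Q := fun e : Fin r → 𝓞 K => PropM ⟨0, 0, a, 0, 0⟩ F (fun i => ((e i : 𝓞 K) : K)))
    hpos hK ⟨s, hs⟩ f h0 hm hu hB0
    (fun e he hP hβ => propM_of3 hK ⟨s, hs⟩ a F (hB α t₀ hα ht₀ hαt e he hP hβ)) (t := t)
    hcb.1 hcb.2 (v := v) (hv.trans rfl) (fun S hS => ?_) ε hε
  · exact key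
  · have h5 := H F hF r n m u hm hu S (fun δ hδ => h0 δ (hS (Finset.mem_coe.2 hδ)))
      (A7_sep ha ht₀ hαt hT hS) t
    rw [← hc] at h5
    exact h5

end

end Pool.Agent.Lib.MP_1a91b9_ntMC.Fin
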