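import Pool.Agent.Lib.MP_1a91b9_ntMC.C0
import Pool.Agent.Lib.MP_1a91b9_ntMN.UBh

/-!
# MP_1a91b9_nt (all the multicubic fields): definitions of the engine and of the labels

`EngMD D Z`: the engine for the total weight `h`. `EngMV D Z τ`: the same sums with the twist `τ v q` for the colour
`v` of the label of `q` are small. `LbM phi k`: the labels, a colour and an element of `Lab3 (k a)` for every `a` with
`phi a ⬝ᵥ v ≠ 0`.
-/

set_option autoImplicit false
set_option linter.unusedSectionVars false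

namespace Pool.Agent.Lib.MP_1a91b9_ntMC

open Finset Pool.Agent.Lib.MP_1a91b9_ntH Pool.Agent.Lib.MP_1a91b9_ntK Pool.Agent.Lib.MP_1a91b9_ntK.Da
open Pool.Agent.Lib.MP_1a91b9_ntN
open Pool.Agent.Lib.MP_1a91b9_ntMN (Yh)

noncomputable section

/-! ### The engine with the total weight `h` -/

section Eng

variable {ι κ : Type} [DecidableEq ι] [Fintype κ] [DecidableEq κ]

/-- The sum of `h ^ #S` over the sets in `Z X`. -/
def NZ (Z : ℕ → Finset (Finset ι)) (h X : ℕ) : ℝ := ∑ S ∈ Z X, (h : ℝ) ^ S.card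

/-- The hypotheses on the exponents `Phi`, the weights `n` with the total size `h`, the set `Us` of the maximal unlinked
sets and the colours `col`. -/
structure WS3 {L C : Type} [Fintype L] [DecidableEq L] (col : L → C) (Phi : L → L → ZMod 3) (n : L → ℝ)
    (h M : ℕ) (Us : Finset (Finset L)) : Prop where
  self : ∀ x, Phi x x = 0
  pos : ∀ x, 2 / (M : ℝ) ≤ n x
  le_one : ∀ x, n x ≤ 1
  two : 2 ≤ M
  hp : 1 ≤ h
  unl : ∀ U ∈ Us, ∀ x ∈ U, ∀ y ∈ U, Phi x y + Phi y x = 0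
  sum : ∀ U ∈ Us, ∑ x ∈ U, n x = h
  small : ∀ Z : Finset L, (∀ x ∈ Z, ∀ y ∈ Z, Phi x y + Phi y x = 0) → Z ∉ Us →
    ∑ x ∈ Z, n x ≤ h - 1 / (M : ℝ)
  ex : ∀ U ∈ Us, ∀ m, m ∉ U → ∃ x ∈ U, ∃ x' ∈ U, col x = col x' ∧ Phi x m + Phi m x ≠ Phi x' m + Phi m x'

open Classical in
/-- The conclusion of the engine for the sets `Z`. -/
def EngMD (D : Dt ι κ) (Z : ℕ → Finset (Finset ι)) : Prop :=
  ∀ (L C : Type) [Fintype L] [DecidableEq L] (col : L → C) (Phi : L → L → ZMod 3) (n : L → ℝ) (h M : ℕ)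
    (Us : Finset (Finset L)) (c : L → κ → ZMod 3), WS3 col Phi n h M Us →
    ∀ ε : ℝ, 0 < ε → ∃ X₀ : ℕ, ∀ X : ℕ, X₀ ≤ X →
      ‖∑ S ∈ Z X, ∑ f : S → L, (∏ j : S, (n (f j) : ℂ)) * e3 (D.eL Phi c S f) -
        ((Us.filter fun U => ∀ x ∈ U, c x = 0).card : ℂ) * (NZ Z h X : ℂ)‖ ≤ ε * Yh h X

/-- The sums with the twist `τ v q` for the colour `v` of the label of `q` are small. -/
def EngMV (D : Dt ι κ) (Z : ℕ → Finset (Finset ι)) {C : Type} (τ : C → ι → ℂ) : Prop :=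
  ∀ (L : Type) [Fintype L] [DecidableEq L] (col : L → C) (Phi : L → L → ZMod 3) (n : L → ℝ) (h M : ℕ)
    (Us : Finset (Finset L)) (c : L → κ → ZMod 3), WS3 col Phi n h M Us →
    (∀ U ∈ Us, ∀ v, ∃ x ∈ U, col x = v) →
    ∀ ε : ℝ, 0 < ε → ∃ X₀ : ℕ, ∀ X : ℕ, X₀ ≤ X →
      ‖∑ S ∈ Z X, ∑ f : S → L, (∏ j : S, (n (f j) : ℂ) * τ (col (f j)) j) * e3 (D.eL Phi c S f)‖ ≤
        ε * Yh h X

end Eng

/-! ### The labels -/

section Lbl

variable {I A : Type} [Fintype I] [DecidableEq I] [Fintype A] [DecidableEq A]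

/-- The labels. -/
def LbM (phi : A → I → ZMod 3) (k : A → ℕ) : Type :=
  {z : Nz I × LabP k // ∀ a, phi a ⬝ᵥ z.1.1 = 0 → z.2 a = 0}

open Classical in
instance fintypeLbM (phi : A → I → ZMod 3) (k : A → ℕ) : Fintype (LbM phi k) := by
  unfold LbM
  infer_instance

instance decLbM (phi : A → I → ZMod 3) (k : A → ℕ) : DecidableEq (LbM phi k) := Classical.decEq _

variable {phi : A → I → ZMod 3} {k : A → ℕ}

/-- The colour of a label. -/
def LbM.col (z : LbM phi k) : Nz I := z.1.1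

/-- The element of `Lab3 (k a)` of a label. -/
def LbM.v (z : LbM phi k) (a : A) : Lab3 (k a) := z.1.2 a

/-- The exponents of the pairs. -/
def PM (z y : LbM phi k) : ZMod 3 :=
  ∑ a, (phi a ⬝ᵥ z.col.1) * (phi a ⬝ᵥ y.col.1) * Phi3 (z.v a) (y.v a)

/-- The weights. -/
def nM (z : LbM phi k) : ℝ := ∏ a, if phi a ⬝ᵥ z.col.1 = 0 then 1 else ((3 : ℝ) ^ k a)⁻¹

/-- The bound for the denominators of the weights. -/
def MM (k : A → ℕ) : ℕ := 2 * 3 ^ ∑ a, k a

open Classical in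
/-- The maximal unlinked sets: the unlinked sets with the full weight. -/
def UsM (phi : A → I → ZMod 3) (k : A → ℕ) : Finset (Finset (LbM phi k)) :=
  univ.filter fun U => (∀ x ∈ U, ∀ y ∈ U, PM x y + PM y x = 0) ∧ ∑ x ∈ U, nM x = (hN I : ℝ)

theorem mem_UsM {U : Finset (LbM phi k)} : U ∈ UsM phi k ↔
    (∀ x ∈ U, ∀ y ∈ U, PM x y + PM y x = 0) ∧ ∑ x ∈ U, nM x = (hN I : ℝ) := by
  classical
  unfold UsM
  rw [mem_filter]
  exact ⟨fun h => h.2, fun h => ⟨mem_univ _, h⟩⟩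

variable {κ : Type} [Fintype κ] [DecidableEq κ] {E : A → Type} [∀ a, Fintype (E a)]
  [∀ a, DecidableEq (E a)]

/-- The class vector of a label, with a character `ψ i` of the classes for every coordinate. -/
def cM (phi : A → I → ZMod 3) (c : A → κ → ZMod 3) (P : ∀ a, κ → E a → ZMod 3)
    (m : ∀ a, E a → Lab3 (k a)) (ψ : I → κ → ZMod 3) (z : LbM phi k) (j : κ) : ZMod 3 :=
  ∑ a, (phi a ⬝ᵥ z.col.1) * cE (c a) (P a) (m a) (z.v a) j + ∑ i, z.col.1 i * ψ i j

open Classical in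
/-- The sets of the main terms. -/
def MsM (phi : A → I → ZMod 3) (k : A → ℕ) (c : A → κ → ZMod 3) (P : ∀ a, κ → E a → ZMod 3)
    (m : ∀ a, E a → Lab3 (k a)) (ψ : I → κ → ZMod 3) : Finset (Finset (LbM phi k)) :=
  (UsM phi k).filter fun U => ∀ x ∈ U, cM phi c P m ψ x = 0

/-- The vectors are different from zero, different vectors are different up to the sign, and the class vectors of equal
vectors are different. -/
structure Sp3 (phi : A → I → ZMod 3) (c : A → κ → ZMod 3) : Prop where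
  ne : ∀ a, phi a ≠ 0
  neg : ∀ a b, phi a ≠ -phi b
  inj : ∀ a b, a ≠ b → phi a = phi b → c a ≠ c b

end Lbl

end

end Pool.Agent.Lib.MP_1a91b9_ntMC
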