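import Pool.Agent.Lib.MP_1a91b9_ntMC.C1
import Pool.Agent.Lib.MP_1a91b9_ntN.DJ.Dens

/-!
# MP_1a91b9_nt (all the multicubic fields): the matrices of a colouring

For a vector `χ` the exponents `e q = cx χ b q` are signs on the primes of `Rx χ b`; the matrix for `χ` is the matrix
of these primes for the symbols `e q * e p * s q p` and the class coordinates `e q * a q j`.
-/

set_option autoImplicit false
set_option linter.unusedSectionVars false

namespace Pool.Agent.Lib.MP_1a91b9_ntMC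

open Finset Pool.Agent.Lib.MP_1a91b9_ntH Pool.Agent.Lib.MP_1a91b9_ntK Pool.Agent.Lib.MP_1a91b9_ntK.Da
open Pool.Agent.Lib.MP_1a91b9_ntN
open Pool.Agent.Lib.MP_1a91b9_ntMN (Yh)

noncomputable section

/-- The symbols and the class coordinates with the signs `e`. -/
def sgD {ι κ : Type} (D : Dt ι κ) (e : ι → ZMod 3) : Dt ι κ where
  s := fun q p => e q * e p * D.s q p
  a := fun q j => e q * D.a q j

section Mat

variable {I A : Type} [Fintype I] [DecidableEq I] [Fintype A] [DecidableEq A] {ι : Type} [DecidableEq ι]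
  {κ : Type} [Fintype κ] [DecidableEq κ] {E : A → Type} [∀ a, Fintype (E a)] [∀ a, DecidableEq (E a)]

/-- The size of the kernel of the `a`-th matrix. -/
def kBM (D : Dt ι κ) (phi : A → I → ZMod 3) (c : A → κ → ZMod 3) (P : ∀ a, κ → E a → ZMod 3)
    (R : ∀ a, Matrix (E a) (E a) (ZMod 3)) (a : A) (b : Cb ι I) : ℕ :=
  (sgD D (cx (phi a) b)).kB (c a) (P a) (R a) (Rx (phi a) b)

/-- The class of the product for the vector `phi a`. -/
def ga (phi : A → I → ZMod 3) (γ : I → κ → ZMod 3) (a : A) (j : κ) : ZMod 3 := ∑ i, phi a i * γ i j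

/-- The normalised size of the kernel of the `a`-th matrix. -/
def xPM (D : Dt ι κ) (phi : A → I → ZMod 3) (c : A → κ → ZMod 3) (P : ∀ a, κ → E a → ZMod 3)
    (R : ∀ a, Matrix (E a) (E a) (ZMod 3)) (γ : I → κ → ZMod 3) (a : A) (b : Cb ι I) : ℕ :=
  xP (sgD D (cx (phi a) b)) c P R (ga phi γ a) a (Rx (phi a) b)

open Classical in
/-- The colourings in the fine class `γ`. -/
def SGM (D : Dt ι κ) (Z : ℕ → Finset (Finset ι)) (γ : I → κ → ZMod 3) (X : ℕ) : Finset (Cb ι I) :=
  (BX I Z X).filter fun b => ∀ i j, ∑ q ∈ b.1, cz b q i * D.a q j = γ i j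

theorem mem_SGM {D : Dt ι κ} {Z : ℕ → Finset (Finset ι)} {γ : I → κ → ZMod 3} {X : ℕ} {b : Cb ι I} :
    b ∈ SGM D Z γ X ↔ b.1 ∈ Z X ∧ ∀ i j, ∑ q ∈ b.1, cz b q i * D.a q j = γ i j := by
  unfold SGM
  rw [mem_filter, mem_BX]

/-- The exponent of the twist by the characters `ψ i` of the classes. -/
def twM (D : Dt ι κ) (ψ : I → κ → ZMod 3) (b : Cb ι I) : ZMod 3 :=
  ∑ q ∈ b.1, ∑ i, cz b q i * D.lin (ψ i) q

end Mat

end

end Pool.Agent.Lib.MP_1a91b9_ntMC
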