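import Pool.Agent.Lib.MP_1a91b9_ntMC.C2
import Pool.Agent.Lib.MP_1a91b9_ntN.H.DensJ

/-!
# MP_1a91b9_nt (all the multicubic fields): mean values over the colourings
-/

set_option autoImplicit false
set_option linter.unusedSectionVars false

namespace Pool.Agent.Lib.MP_1a91b9_ntMC

open Finset Pool.Agent.Lib.MP_1a91b9_ntH Pool.Agent.Lib.MP_1a91b9_ntK Pool.Agent.Lib.MP_1a91b9_ntK.Da
open Pool.Agent.Lib.MP_1a91b9_ntN
open Pool.Agent.Lib.MP_1a91b9_ntMN (Yh)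

noncomputable section

/-- The mean value of `f` over the finite sets `B X` is `v`, up to `o(Yh h X) / #(B X)`. -/
def MVY {β : Type} (h : ℕ) (B : ℕ → Finset β) (f : β → ℝ) (v : ℝ) : Prop :=
  ∀ ε : ℝ, 0 < ε → ∃ X₀ : ℕ, ∀ X : ℕ, X₀ ≤ X → |∑ b ∈ B X, f b - v * (B X).card| ≤ ε * Yh h X

/-- The sums over `B X` are small. -/
def SmY {β : Type} (h : ℕ) (B : ℕ → Finset β) (f : β → ℂ) : Prop :=
  ∀ ε : ℝ, 0 < ε → ∃ X₀ : ℕ, ∀ X : ℕ, X₀ ≤ X → ‖∑ b ∈ B X, f b‖ ≤ ε * Yh h X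

section

variable {I A : Type} [Fintype I] [DecidableEq I] [Fintype A] [DecidableEq A] {ι : Type} [DecidableEq ι]
  {κ : Type} [Fintype κ] [DecidableEq κ] {E : A → Type} [∀ a, Fintype (E a)] [∀ a, DecidableEq (E a)]

/-- The weight of a colouring for the twist `τ`. -/
def wT (τ : Nz I → ι → ℂ) (b : Cb ι I) : ℂ := ∏ q : b.1, τ (b.2 q) q

/-- The product of the powers of the sizes of the kernels. -/
def kPM (D : Dt ι κ) (phi : A → I → ZMod 3) (c : A → κ → ZMod 3) (P : ∀ a, κ → E a → ZMod 3)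
    (R : ∀ a, Matrix (E a) (E a) (ZMod 3)) (k : A → ℕ) (b : Cb ι I) : ℕ :=
  ∏ a, kBM D phi c P R a b ^ k a

open Classical in
/-- The colourings of a family with the classes `g`. -/
def ClM {G : Type} [AddCommGroup G] (cl : ι → G) (g : I → G) (Y : Finset (Cb ι I)) : Finset (Cb ι I) :=
  Y.filter fun b => ∀ i, clb cl b i = g i

open Classical in
theorem mem_ClM {G : Type} [AddCommGroup G] {cl : ι → G} {g : I → G} {Y : Finset (Cb ι I)} {b : Cb ι I} :
    b ∈ ClM cl g Y ↔ b ∈ Y ∧ ∀ i, clb cl b i = g i := by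
  unfold ClM
  rw [mem_filter]

end

end

end Pool.Agent.Lib.MP_1a91b9_ntMC
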