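import Pool.Agent.Lib.MP_1a91b9_ntMC.C3

/-!
# MP_1a91b9_nt (all the multicubic fields): sums over the classes from sums with characters
-/

set_option autoImplicit false
set_option linter.unusedSectionVars false

namespace Pool.Agent.Lib.MP_1a91b9_ntMC

open Finset Pool.Agent.Lib.MP_1a91b9_ntH Pool.Agent.Lib.MP_1a91b9_ntK Pool.Agent.Lib.MP_1a91b9_ntK.Da
open Pool.Agent.Lib.MP_1a91b9_ntN
open Pool.Agent.Lib.MP_1a91b9_ntMN (Yh)

noncomputable section

variable {I : Type} [Fintype I] [DecidableEq I] {ι : Type} [DecidableEq ι] {G : Type} [AddCommGroup G]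

/-- The twist of the characters `ψ i`. -/
def twc (cl : ι → G) (ψ : I → AddChar G ℂ) (v : Nz I) (q : ι) : ℂ := ∏ i, ψ i ((v.1 i).val • cl q)

private theorem CS_sum {T : Type} (ψ : AddChar G ℂ) (s : Finset T) (f : T → G) :
    ψ (∑ q ∈ s, f q) = ∏ q ∈ s, ψ (f q) := by
  classical
  induction s using Finset.induction_on with
  | empty => rw [sum_empty, prod_empty, AddChar.map_zero_eq_one]
  | insert a s ha ih => rw [sum_insert ha, prod_insert ha, AddChar.map_add_eq_mul, ih]

theorem wT_twc (cl : ι → G) (ψ : I → AddChar G ℂ) (b : Cb ι I) :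
    wT (twc cl ψ) b = ∏ i, ψ i (clb cl b i) := by
  classical
  unfold wT twc clb
  rw [prod_comm]
  refine prod_congr rfl fun i _ => ?_
  have h1 : ∑ q ∈ b.1, (cz b q i).val • cl q = ∑ q : b.1, ((b.2 q).1 i).val • cl q := by
    rw [← sum_coe_sort b.1]
    refine sum_congr rfl fun q _ => ?_
    have h2 : cz b (q : ι) = (b.2 q).1 := by
      unfold cz
      rw [dif_pos q.2]
    rw [h2]
  rw [h1]
  exact (CS_sum (ψ i) (univ : Finset b.1) fun q => ((b.2 q).1 i).val • cl q).symm

variable [Fintype G]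

theorem sum_ClM (cl : ι → G) (Y : Finset (Cb ι I)) (g : I → G) (F : Cb ι I → ℂ) :
    ∑ b ∈ ClM cl g Y, F b = (∑ ψ : I → AddChar G ℂ, (∏ i, ψ i (-g i)) *
      ∑ b ∈ Y, wT (twc cl ψ) b * F b) / (Fintype.card G : ℂ) ^ Fintype.card I := by
  classical
  have hG : (Fintype.card G : ℂ) ≠ 0 := Nat.cast_ne_zero.2 Fintype.card_ne_zero
  have h1 : ∀ (ψ : I → AddChar G ℂ) (b : Cb ι I), (∏ i, ψ i (-g i)) * (wT (twc cl ψ) b * F b) =
      (∏ i, ψ i (clb cl b i - g i)) * F b := by
    intro ψ b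
    rw [wT_twc, ← mul_assoc, ← prod_mul_distrib]
    congr 1
    refine prod_congr rfl fun i _ => ?_
    rw [sub_eq_add_neg, AddChar.map_add_eq_mul, mul_comm]
  have h3 : ∀ b : Cb ι I, ∑ ψ : I → AddChar G ℂ, ∏ i, ψ i (clb cl b i - g i) =
      if ∀ i, clb cl b i = g i then (Fintype.card G : ℂ) ^ Fintype.card I else 0 := by
    intro b
    have h4 := prod_univ_sum (fun _ : I => (univ : Finset (AddChar G ℂ)))
      (fun i ψ => ψ (clb cl b i - g i))
    rw [Fintype.piFinset_univ] at h4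
    rw [← h4]
    have h5 : ∀ i, ∑ ψ : AddChar G ℂ, ψ (clb cl b i - g i) =
        if clb cl b i = g i then (Fintype.card G : ℂ) else 0 := by
      intro i
      rw [AddChar.sum_apply_eq_ite]
      by_cases h : clb cl b i = g i
      · rw [if_pos (sub_eq_zero.2 h), if_pos h]
      · rw [if_neg fun h' => h (sub_eq_zero.1 h'), if_neg h]
    rw [prod_congr rfl fun i _ => h5 i]
    by_cases h : ∀ i, clb cl b i = g i
    · rw [if_pos h, prod_congr rfl fun i _ => if_pos (h i), prod_const, card_univ]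
    · rw [if_neg h]
      push Not at h
      obtain ⟨i, hi⟩ := h
      exact prod_eq_zero (mem_univ i) (if_neg hi)
  have h2 : ∑ ψ : I → AddChar G ℂ, (∏ i, ψ i (-g i)) * ∑ b ∈ Y, wT (twc cl ψ) b * F b =
      ∑ b ∈ Y, if ∀ i, clb cl b i = g i then (Fintype.card G : ℂ) ^ Fintype.card I * F b else 0 := by
    simp only [mul_sum, h1]
    rw [sum_comm]
    refine sum_congr rfl fun b _ => ?_
    rw [← sum_mul, h3]
    by_cases h : ∀ i, clb cl b i = g i
    · rw [if_pos h, if_pos h]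
    · rw [if_neg h, if_neg h, zero_mul]
  rw [h2, ← sum_filter, ClM, ← mul_sum, mul_div_cancel_left₀ _ (pow_ne_zero _ hG)]

/-- A bound for the sums over the classes from bounds for the sums with the characters. -/
theorem norm_ClM (cl : ι → G) (Y : Finset (Cb ι I)) (g : I → G) (F : Cb ι I → ℂ) {C : ℝ}
    (h : ∀ ψ : I → AddChar G ℂ, ‖∑ b ∈ Y, wT (twc cl ψ) b * F b‖ ≤ C) :
    ‖∑ b ∈ ClM cl g Y, F b‖ ≤ C := by
  classical
  have hG : (0 : ℝ) < Fintype.card G := Nat.cast_pos.2 Fintype.card_pos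
  rw [sum_ClM, norm_div, norm_pow, Complex.norm_natCast, div_le_iff₀ (pow_pos hG _)]
  refine (norm_sum_le _ _).trans ?_
  have hcard : (Fintype.card (I → AddChar G ℂ) : ℝ) = (Fintype.card G : ℝ) ^ Fintype.card I := by
    rw [Fintype.card_fun, AddChar.card_eq]
    push_cast
    rfl
  calc _ ≤ ∑ _ψ : I → AddChar G ℂ, C := by
        refine sum_le_sum fun ψ _ => ?_
        rw [norm_mul, norm_prod, prod_congr rfl fun i _ => AddChar.norm_apply (ψ i) (-g i),
          prod_const_one, one_mul]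
        exact h ψ
    _ = C * (Fintype.card G : ℝ) ^ Fintype.card I := by
        rw [sum_const, card_univ, nsmul_eq_mul, hcard, mul_comm]

/-- The sums over the classes are small if the sums with the characters are. -/
theorem SmY_ClM {h : ℕ} {cl : ι → G} {B : ℕ → Finset (Cb ι I)} {f : Cb ι I → ℂ}
    (H : ∀ ψ : I → AddChar G ℂ, SmY h B fun b => wT (twc cl ψ) b * f b) (g : I → G) :
    SmY h (fun X => ClM cl g (B X)) f := by
  classical
  intro ε hε
  choose X1 h1 using fun ψ : I → AddChar G ℂ => H ψ ε hε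
  refine ⟨∑ ψ, X1 ψ, fun X hX => norm_ClM cl (B X) g f fun ψ => h1 ψ X ?_⟩
  exact (single_le_sum (fun _ _ => Nat.zero_le _) (mem_univ ψ)).trans hX

/-- The mean values in the classes from the sums with the characters. -/
theorem MVY_ClM {h : ℕ} {cl : ι → G} {B : ℕ → Finset (Cb ι I)} {f : Cb ι I → ℝ} {v : ℝ}
    (H : ∀ ψ : I → AddChar G ℂ, SmY h B fun b => wT (twc cl ψ) b * ((f b : ℂ) - v)) (g : I → G) :
    MVY h (fun X => ClM cl g (B X)) f v := by
  classical
  intro ε hε
  obtain ⟨X₀, h0⟩ := SmY_ClM (f := fun b => (f b : ℂ) - v) H g ε hε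
  refine ⟨X₀, fun X hX => ?_⟩
  have h2 := h0 X hX
  have h3 : ∑ b ∈ ClM cl g (B X), ((f b : ℂ) - v) =
      ((∑ b ∈ ClM cl g (B X), f b - v * (ClM cl g (B X)).card : ℝ) : ℂ) := by
    rw [sum_sub_distrib, sum_const, nsmul_eq_mul]
    push_cast
    ring
  rw [h3, Complex.norm_real, Real.norm_eq_abs] at h2
  exact h2

end

end Pool.Agent.Lib.MP_1a91b9_ntMC
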