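import Pool.Agent.Lib.MP_1a91b9_ntMC.C1
import Pool.Agent.Lib.MP_1a91b9_ntMN.M3
import Pool.Agent.Lib.MP_1a91b9_ntMN.MNG

/-!
# MP_1a91b9_nt (all the multicubic fields): the contribution of the maximal sets of labels

`main_small`: the contribution of a maximal unlinked set is small if one of its labels has mean value zero.
-/

set_option autoImplicit false
set_option linter.unusedSectionVars false

namespace Pool.Agent.Lib.MP_1a91b9_ntMC

open Finset Pool.Agent.Lib.MP_1a91b9_ntH Pool.Agent.Lib.MP_1a91b9_ntK Pool.Agent.Lib.MP_1a91b9_ntK.Da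
open Pool.Agent.Lib.MP_1a91b9_ntN
open Pool.Agent.Lib.MP_1a91b9_ntMN (Yh norm_wsumC mz_mean mz_pow)
open Pool.Agent.Lib.MP_1a91b9_ntQ (Mz)
open Pool.Agent.Lib.MP_1a91b9_ntS3.DG (Mz3)

noncomputable section

variable {ι : Type} [DecidableEq ι] [PS ι]

/-- The ratios of the twists by the twist `σ` are cubic characters of the system or have mean value zero. -/
def Tdi (D : Dat3b ι) {C : Type} (τ : C → ι → ℂ) (σ : ι → ℂ) : Prop :=
  ∀ v : C, (∃ c c' : ZMod 3, ∀ q, τ v q = σ q * e3 (c * D.a q + c' * D.b q)) ∨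
    Mz3 D (fun q => τ v q * (starRingEnd ℂ) (σ q))

theorem mul_conj_one {z : ℂ} (h : ‖z‖ = 1) : z * (starRingEnd ℂ) z = 1 := by
  rw [Complex.mul_conj, Complex.normSq_eq_norm_sq, h]
  norm_num

theorem conj_e3 (x : ZMod 3) : (starRingEnd ℂ) (e3 x) = e3 (-x) := by
  have h1 : e3 x * e3 (-x) = 1 := by rw [← e3_add, add_neg_cancel, e3_zero]
  have h2 : e3 x * (starRingEnd ℂ) (e3 x) = 1 := mul_conj_one (norm_e3 x)
  have h3 : e3 x ≠ 0 := fun h => by rw [h, zero_mul] at h1; exact zero_ne_one h1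
  exact mul_left_cancel₀ h3 (h2.trans h1.symm)

theorem dtB_lin_sub (D : Dat3b ι) (B : Finset ι) (c c' : Bool ⊕ B → ZMod 3) (q : ι) :
    (dtB D B).lin c q + -(dtB D B).lin c' q = (dtB D B).lin (c - c') q := by
  unfold Dt.lin
  rw [← sum_neg_distrib, ← sum_add_distrib]
  refine sum_congr rfl fun j _ => ?_
  rw [Pi.sub_apply]
  ring

/-- The function outside `B`. -/
def offB (B : Finset ι) (χ : ι → ℂ) (q : ι) : ℂ := if q ∈ B then 0 else χ q

theorem sum_offB (B : Finset ι) (χ : ι → ℂ) (X : ℕ) :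
    ∑ S ∈ Sx ι X, ∏ q ∈ S, offB B χ q = ∑ S ∈ SxT B X, ∏ q ∈ S, χ q := by
  unfold SxT
  rw [sum_filter]
  refine sum_congr rfl fun S _ => ?_
  by_cases h : Disjoint S B
  · rw [if_pos h]
    refine prod_congr rfl fun q hq => ?_
    unfold offB
    rw [if_neg (disjoint_left.1 h hq)]
  · rw [if_neg h]
    rw [not_disjoint_iff] at h
    obtain ⟨q, h1, h2⟩ := h
    refine prod_eq_zero h1 ?_
    unfold offB
    rw [if_pos h2]

theorem mz_offB {B : Finset ι} {χ : ι → ℂ} (h : ∀ ε : ℝ, 0 < ε → ∃ X₀ : ℕ, ∀ X : ℕ, X₀ ≤ X →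
    ‖∑ S ∈ SxT B X, ∏ q ∈ S, χ q‖ ≤ ε * X) : Mz ∅ (offB B χ) := by
  intro δ hδ
  obtain ⟨X₀, h1⟩ := h δ hδ
  refine ⟨X₀, fun X hX => ?_⟩
  rw [filter_true_of_mem fun S _ => disjoint_empty_right S, sum_offB]
  exact h1 X hX

/-- The nontrivial cubic characters have mean value zero. -/
theorem mz_exb {D : Dat3b ι} (hD : D.OKb) (B : Finset ι) (t : ι → ZMod 3) (a b : ZMod 3)
    (h : (∃ p ∈ B, t p ≠ 0) ∨ a ≠ 0 ∨ b ≠ 0) : Mz ∅ (offB B (fun q => e3 (D.exb B t a b q))) := by
  classical
  refine mz_offB fun δ hδ => ?_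
  obtain ⟨X₀, h3⟩ := hD.h3b B (B.filter fun p => t p ≠ 0) t a b (filter_subset _ _)
    (fun p hp => (mem_filter.1 hp).2) (h.imp_left fun ⟨p, hp, hp2⟩ => nonempty_iff_ne_empty.1
      ⟨p, mem_filter.2 ⟨hp, hp2⟩⟩) δ hδ
  refine ⟨X₀, fun X hX => ?_⟩
  refine le_trans (le_of_eq ?_) (h3 X hX)
  unfold SxT
  refine congrArg norm (sum_congr (filter_congr fun _ _ => Iff.rfl) fun S _ => prod_congr rfl fun q _ => ?_)
  refine congrArg e3 ?_
  unfold Dat3b.exb
  refine congrArg (fun z => a * D.a q + b * D.b q + z) ?_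
  rw [sum_filter]
  refine sum_congr rfl fun p _ => ?_
  split_ifs with h8
  · rfl
  · rw [not_not.1 h8, zero_mul]

/-- The nontrivial class vectors have mean value zero. -/
theorem mz_lin {D : Dat3b ι} (hD : D.OKb) (B : Finset ι) {c : Bool ⊕ B → ZMod 3} (hc : c ≠ 0) :
    Mz ∅ (offB B (fun q => e3 ((dtB D B).lin c q))) := by
  have h : (fun q => e3 ((dtB D B).lin c q)) =
      fun q => e3 (D.exb B (xB B c) (c (Sum.inl false)) (c (Sum.inl true)) q) := by
    funext q
    rw [dtB_lin]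
  rw [h]
  refine mz_exb hD B _ _ _ ?_
  by_contra hcon
  push Not at hcon
  obtain ⟨e1, e2, e3'⟩ := hcon
  refine hc (funext fun j => ?_)
  rcases j with j | p
  · cases j
    · exact e2
    · exact e3'
  · have h4 := e1 p p.2
    rw [xB_coe] at h4
    exact h4

variable {L C : Type} [Fintype L] [DecidableEq L] {col : L → C} {Phi : L → L → ZMod 3} {n : L → ℝ}
  {h M : ℕ} {Us : Finset (Finset L)}

/-- **The contribution of a maximal unlinked set.** -/
theorem main_small {D : Dat3b ι} (hD : D.OKb) (B : Finset ι) (c : L → Bool ⊕ B → ZMod 3)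
    (hW : WS3 col Phi n h M Us) {τ : C → ι → ℂ} (hn : ∀ v q, ‖τ v q‖ = 1)
    {U : Finset L} (hU : U ∈ Us) {x₀ : L} (hx₀ : x₀ ∈ U) (hdi : Tdi D τ (τ (col x₀)))
    (hz : Mz ∅ (offB B (fun q => τ (col x₀) q * e3 ((dtB D B).lin (c x₀) q)))) (ε : ℝ) (hε : 0 < ε) :
    ∃ X₀ : ℕ, ∀ X : ℕ, X₀ ≤ X →
      ‖∑ S ∈ SxT B X, ∏ q ∈ S, ∑ l ∈ U, (n l : ℂ) * (τ (col l) q * e3 ((dtB D B).lin (c l) q))‖ ≤
        ε * Yh h X := by
  classical
  obtain ⟨C1, h1⟩ := hD.ok.cheb
  obtain ⟨C2, h2⟩ := hD.ok.zt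
  have hM2 := hW.two
  have hM0 : (0 : ℝ) < M := by exact_mod_cast (by omega : 0 < M)
  have hhM : (1 : ℝ) ≤ h * M := by
    have := Nat.one_le_iff_ne_zero.2 (Nat.mul_ne_zero (by have := hW.hp; omega : h ≠ 0) (by omega : M ≠ 0))
    exact_mod_cast this
  set u : L → ι → ℂ := fun l q => τ (col l) q * e3 ((dtB D B).lin (c l) q) with hu
  have hun : ∀ l q, ‖u l q‖ = 1 := fun l q => by
    rw [hu]
    dsimp only
    rw [norm_mul, hn, norm_e3, one_mul]
  have hm : Mz ∅ (offB B (u x₀)) := hz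
  by_cases hA : ∀ l ∈ U, ∀ q, q ∉ B → u l q = u x₀ q
  · obtain ⟨X₀, h3⟩ := mz_pow h1 h2 hW.hp (ψ := offB B (u x₀)) (fun q => by
      unfold offB
      split_ifs
      · rw [norm_zero]
        exact zero_le_one
      · exact (hun x₀ q).le) hm ε hε
    refine ⟨X₀, fun X hX => ?_⟩
    refine le_trans (le_of_eq (congrArg norm ?_)) (h3 X hX)
    have e1 : ∀ S ∈ SxT B X, ∏ q ∈ S, ∑ l ∈ U, (n l : ℂ) * u l q = ∏ q ∈ S, ((h : ℂ) * u x₀ q) := by
      intro S hS
      refine prod_congr rfl fun q hq => ?_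
      have hqB : q ∉ B := disjoint_left.1 (mem_SxT.1 hS).2 hq
      rw [sum_congr rfl fun l hl => congrArg (fun z => (n l : ℂ) * z) (hA l hl q hqB), ← sum_mul]
      refine congrArg (fun z : ℂ => z * u x₀ q) ?_
      rw [← Complex.ofReal_sum, hW.sum U hU, Complex.ofReal_natCast]
    refine (sum_congr rfl e1).trans ?_
    have e2 := sum_offB B (fun q => (h : ℂ) * u x₀ q) X
    refine e2.symm.trans (sum_congr rfl fun S _ => prod_congr rfl fun q _ => ?_)
    unfold offB
    split_ifs
    · rw [mul_zero]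
    · rfl
  · push Not at hA
    obtain ⟨l, hl, q₀, hq₀, hne⟩ := hA
    have hlx : x₀ ≠ l := fun e => hne (by rw [e])
    -- the ratio
    have hr : ∀ q, u l q * (starRingEnd ℂ) (u x₀ q) =
        (τ (col l) q * (starRingEnd ℂ) (τ (col x₀) q)) * e3 ((dtB D B).lin (c l - c x₀) q) := by
      intro q
      rw [hu]
      dsimp only
      rw [map_mul, conj_e3, ← dtB_lin_sub, e3_add]
      ring
    have hm2 : Mz ∅ (offB B (fun q => u l q * (starRingEnd ℂ) (u x₀ q))) := by
      rcases hdi (col l) with ⟨a, b, hab⟩ | hd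
      · -- a cubic character of the system, different from one
        set t := xB B (c l - c x₀) with ht
        set a' := a + (c l - c x₀) (Sum.inl false) with ha'
        set b' := b + (c l - c x₀) (Sum.inl true) with hb'
        have hx : ∀ q, u l q * (starRingEnd ℂ) (u x₀ q) = e3 (D.exb B t a' b' q) := by
          intro q
          rw [hr, hab, dtB_lin]
          calc τ (col x₀) q * e3 (a * D.a q + b * D.b q) * (starRingEnd ℂ) (τ (col x₀) q) *
              e3 (D.exb B (xB B (c l - c x₀)) ((c l - c x₀) (Sum.inl false)) ((c l - c x₀) (Sum.inl true)) q)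
              = (τ (col x₀) q * (starRingEnd ℂ) (τ (col x₀) q)) * (e3 (a * D.a q + b * D.b q) *
              e3 (D.exb B (xB B (c l - c x₀)) ((c l - c x₀) (Sum.inl false)) ((c l - c x₀) (Sum.inl true)) q)) := by
                ring
            _ = e3 (D.exb B t a' b' q) := by
              rw [mul_conj_one (hn _ _), one_mul, ← e3_add]
              refine congrArg e3 ?_
              unfold Dat3b.exb
              rw [ha', hb', ht]
              ring
        have ht0 : (∃ p ∈ B, t p ≠ 0) ∨ a' ≠ 0 ∨ b' ≠ 0 := by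
          by_contra hcon
          push Not at hcon
          obtain ⟨e1, e2, e3'⟩ := hcon
          refine hne ?_
          have h5 : u l q₀ * (starRingEnd ℂ) (u x₀ q₀) = 1 := by
            rw [hx]
            have h6 : D.exb B t a' b' q₀ = 0 := by
              unfold Dat3b.exb
              rw [e2, e3', zero_mul, zero_mul, add_zero, zero_add]
              exact sum_eq_zero fun p hp => by rw [e1 p hp, zero_mul]
            rw [h6, e3_zero]
          calc u l q₀ = u l q₀ * 1 := (mul_one _).symm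
            _ = u l q₀ * (u x₀ q₀ * (starRingEnd ℂ) (u x₀ q₀)) := by rw [mul_conj_one (hun _ _)]
            _ = (u l q₀ * (starRingEnd ℂ) (u x₀ q₀)) * u x₀ q₀ := by ring
            _ = u x₀ q₀ := by rw [h5, one_mul]
        rw [funext hx]
        exact mz_exb hD B t a' b' ht0
      · refine mz_offB fun δ hδ => ?_
        obtain ⟨X₀, h3⟩ := hd B (xB B (c l - c x₀)) ((c l - c x₀) (Sum.inl false))
          ((c l - c x₀) (Sum.inl true)) δ hδ
        refine ⟨X₀, fun X hX => ?_⟩
        refine le_trans (le_of_eq ?_) (h3 X hX)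
        unfold SxT
        refine congrArg norm (sum_congr (filter_congr fun _ _ => Iff.rfl) fun S _ => prod_congr rfl fun q _ => ?_)
        rw [hr, dtB_lin]
    obtain ⟨X₀, h3⟩ := mz_mean h1 h2 h M hW.hp (by omega) (χ := offB B (fun q => u l q * (starRingEnd ℂ) (u x₀ q)))
      (fun q => by
        unfold offB
        split_ifs
        · rw [norm_zero]
          exact zero_le_one
        · rw [norm_mul, RCLike.norm_conj, hun, hun, one_mul]) hm2 ε hε
    refine ⟨X₀, fun X hX => ?_⟩
    set w : ι → ℝ := fun q => if q ∈ B then 0 else ‖∑ l ∈ U, (n l : ℂ) * u l q‖ with hw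
    have hpos : ∀ x, 0 ≤ n x := fun x => le_trans (by positivity) (hW.pos x)
    have h4 := h3 w (fun q => ?_) X hX
    · refine le_trans ((norm_sum_le _ _).trans (le_of_eq ?_)) h4
      unfold SxT
      rw [sum_filter]
      refine sum_congr rfl fun S _ => ?_
      by_cases hS : Disjoint S B
      · rw [if_pos hS, norm_prod]
        refine prod_congr rfl fun q hq => ?_
        rw [hw]
        dsimp only
        rw [if_neg (disjoint_left.1 hS hq)]
      · rw [if_neg hS]
        rw [not_disjoint_iff] at hS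
        obtain ⟨q, h5, h6⟩ := hS
        refine (prod_eq_zero h5 ?_).symm
        rw [hw]
        dsimp only
        rw [if_pos h6]
    · rw [hw]
      unfold offB
      dsimp only
      split_ifs with hq
      · refine ⟨le_rfl, Nat.cast_nonneg _, ?_⟩
        rw [Complex.zero_re]
        exact div_nonneg (by linarith) hM0.le
      · have h5 : ‖∑ l ∈ U, (n l : ℂ) * u l q‖ ≤ h := by
          refine (norm_sum_le _ _).trans (le_of_eq ?_)
          rw [← hW.sum U hU]
          refine sum_congr rfl fun x _ => ?_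
          rw [norm_mul, hun, mul_one, Complex.norm_real, Real.norm_of_nonneg (hpos x)]
        refine ⟨norm_nonneg _, h5, ?_⟩
        have h6 := norm_wsumC U n hpos (fun x => u x q) (fun x => hun x q)
          (a := 2 / (M : ℝ)) (by positivity) hl hx₀ hlx.symm (hW.pos l) (hW.pos x₀)
        rw [hW.sum U hU] at h6
        refine h6.trans (le_of_eq ?_)
        field_simp
        ring

end

end Pool.Agent.Lib.MP_1a91b9_ntMC
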