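import Pool.Agent.Lib.MP_1a91b9_ntMC.EM0
import Pool.Agent.Lib.MP_1a91b9_ntMC.EW
import Pool.Agent.Lib.MP_1a91b9_ntK.D.InnerB

/-!
# MP_1a91b9_nt (all the multicubic fields): the label system of the engine satisfies the hypotheses
-/

set_option autoImplicit false
set_option linter.unusedSectionVars false

namespace Pool.Agent.Lib.MP_1a91b9_ntMC

open Finset Pool.Agent.Lib.MP_1a91b9_ntH Pool.Agent.Lib.MP_1a91b9_ntK Pool.Agent.Lib.MP_1a91b9_ntK.Da
open Pool.Agent.Lib.MP_1a91b9_ntN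
open Pool.Agent.Lib.MP_1a91b9_ntV (SumB)
open Pool.Agent.Lib.MP_1a91b9_ntMN (Yh norm_wsumC)

noncomputable section

variable {ι : Type} [DecidableEq ι] {L C : Type} [Fintype L] [DecidableEq L] {col : L → C}
  {Phi : L → L → ZMod 3} {n : L → ℝ} {h M : ℕ} {Us : Finset (Finset L)}

theorem LSB_g (D : Dat3b ι) (B : Finset ι) (c : L → Bool ⊕ B → ZMod 3) (τ : C → ι → ℂ) (l : L) (q : ι) :
    (LSB D B col Phi n c τ).g l q =
      if q ∈ B then 0 else (n l : ℂ) * (τ (col l) q * e3 ((dtB D B).lin (c l) q)) := by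
  unfold LSB
  dsimp only

theorem LSB_norm (D : Dat3b ι) (B : Finset ι) (c : L → Bool ⊕ B → ZMod 3) {τ : C → ι → ℂ}
    (hn : ∀ v q, ‖τ v q‖ = 1) (hpos : ∀ x, 0 ≤ n x) (l : L) (q : ι) :
    ‖(LSB D B col Phi n c τ).g l q‖ = if q ∈ B then 0 else n l := by
  rw [LSB_g]
  split_ifs
  · exact norm_zero
  · rw [norm_mul, norm_mul, hn, norm_e3, mul_one, mul_one, Complex.norm_real, Real.norm_of_nonneg (hpos l)]

/-- The exponents of the character attached to two labels. -/
def t3 (lk : L → L → ZMod 3) (B : Finset ι) (c₁ : Bool ⊕ B → ZMod 3) (b : L → Finset ι) (l l' : L) (p : ι) :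
    ZMod 3 :=
  xB B c₁ p + ∑ m, if p ∈ b m then lk l m - lk l' m else 0

open Classical in
/-- The primes of the character attached to two labels. -/
def T3 (lk : L → L → ZMod 3) (B : Finset ι) (c₁ : Bool ⊕ B → ZMod 3) (b : L → Finset ι) (l l' : L) :
    Finset ι :=
  (B ∪ uni b).filter fun p => t3 lk B c₁ b l l' p ≠ 0

theorem T3_sub (lk : L → L → ZMod 3) (B : Finset ι) (c₁ : Bool ⊕ B → ZMod 3) (b : L → Finset ι) (l l' : L) :
    T3 lk B c₁ b l l' ⊆ B ∪ uni b := filter_subset _ _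

theorem xg3_gen (D : Dat3 ι) (hD : D.Sym) (Λ : LG3 L ι) (b : L → Finset ι) (l : L) (q : ι)
    (hq : q ∉ uni b) : xg3 D Λ b l q = ∑ m, Λ.lk l m * ∑ p ∈ b m, D.s q p := by
  unfold xg3
  refine sum_congr rfl fun m _ => ?_
  have hdis : Disjoint (b m) ({q} : Finset ι) :=
    disjoint_singleton_right.2 fun hm => hq (mem_uni.2 ⟨m, hm⟩)
  have h1 : D.ss {q} (b m) = ∑ p ∈ b m, D.s q p := sum_singleton _ _
  rw [Pool.Agent.Lib.MP_1a91b9_ntK.D.ss_symm D hD hdis, h1, LG3.lk]
  ring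

theorem sum_T3 (lk : L → L → ZMod 3) (D : Dat3b ι) (B : Finset ι) (c₁ : Bool ⊕ B → ZMod 3)
    (b : L → Finset ι) (l l' : L) (q : ι) :
    D.exb (T3 lk B c₁ b l l') (t3 lk B c₁ b l l') (c₁ (Sum.inl false)) (c₁ (Sum.inl true)) q =
      (dtB D B).lin c₁ q + (∑ m, lk l m * ∑ p ∈ b m, D.s q p - ∑ m, lk l' m * ∑ p ∈ b m, D.s q p) := by
  classical
  have h1 : ∑ p ∈ T3 lk B c₁ b l l', t3 lk B c₁ b l l' p * D.s q p =
      ∑ p ∈ B ∪ uni b, t3 lk B c₁ b l l' p * D.s q p := by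
    refine sum_subset (T3_sub lk B c₁ b l l') fun p hp hp2 => ?_
    have h2 : t3 lk B c₁ b l l' p = 0 := by
      by_contra h
      refine hp2 ?_
      unfold T3
      exact mem_filter.2 ⟨hp, h⟩
    rw [h2, zero_mul]
  have h3 : ∑ p ∈ B ∪ uni b, xB B c₁ p * D.s q p = ∑ p ∈ B, xB B c₁ p * D.s q p := by
    symm
    refine sum_subset subset_union_left fun p _ hp2 => ?_
    unfold xB
    rw [dif_neg hp2, zero_mul]
  have h5 : ∑ p ∈ B ∪ uni b, (∑ m, if p ∈ b m then lk l m - lk l' m else 0) * D.s q p =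
      ∑ m, (lk l m - lk l' m) * ∑ p ∈ b m, D.s q p := by
    rw [sum_congr rfl fun p _ => sum_mul _ _ _, sum_comm]
    refine sum_congr rfl fun m _ => ?_
    rw [mul_sum]
    symm
    have h4 : ∀ p ∈ b m, (lk l m - lk l' m) * D.s q p =
        (if p ∈ b m then lk l m - lk l' m else 0) * D.s q p := fun p hp => by rw [if_pos hp]
    rw [sum_congr rfl h4]
    refine sum_subset ((sub_uni b m).trans subset_union_right) fun p _ hp2 => ?_
    rw [if_neg hp2, zero_mul]
  rw [dtB_lin]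
  unfold Dat3b.exb
  rw [h1]
  unfold t3
  rw [sum_congr rfl fun p _ => add_mul _ _ _, sum_add_distrib, h3, h5]
  simp only [sub_mul, sum_sub_distrib]
  ring

variable [PS ι]

/-- The middle estimate. -/
theorem LSB_mid {D : Dat3b ι} (hD : D.OKb) (B : Finset ι) (hW : WS3 col Phi n h M Us)
    (c : L → Bool ⊕ B → ZMod 3) {τ : C → ι → ℂ} (hn : ∀ v q, ‖τ v q‖ = 1) :
    ∃ C₀ : ℝ, ∀ U ∈ Us, ∀ b : L → Finset ι, PD b → (∀ l ∈ U, b l = ∅) → uni b ≠ ∅ →
    (∀ l, ∀ q ∈ b l, (LSB D B col Phi n c τ).g l q ≠ 0) →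
    ∃ ψ : ι → ℝ, SumB ψ ((C₀ * (1 + Real.log (nm (uni b)))) ^ M) ∧
      (∀ q, 0 ≤ (h * M - 1 : ℝ) + ψ q) ∧ ∀ q, q ∉ uni b →
        ‖HG3 D.toDat3 (LSB D B col Phi n c τ) U b q‖ ≤ h ∧
          ‖HG3 D.toDat3 (LSB D B col Phi n c τ) U b q‖ ≤ ((h * M - 1 : ℝ) + ψ q) / M := by
  classical
  obtain ⟨C, hC⟩ := hD.cbb
  have hMP : (2 : ℝ) ≤ (M : ℝ) := by exact_mod_cast hW.two
  have hh : (1 : ℝ) ≤ (h : ℝ) := by exact_mod_cast hW.hp
  have hn0 : ∀ z, 0 ≤ n z := fun z => le_trans (by positivity) (hW.pos z)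
  have hMP0 : (0 : ℝ) < (M : ℝ) := by linarith
  set LB : ℝ := Real.log (nm B) with hLB
  have hLB0 : 0 ≤ LB := Real.log_nonneg (by exact_mod_cast one_le_nm B)
  refine ⟨(|C| + 1) * (1 + LB), fun U hU b hb hbU hne hg => ?_⟩
  obtain ⟨p0, hp0⟩ := nonempty_iff_ne_empty.2 hne
  obtain ⟨m0, hm0⟩ := mem_uni.1 hp0
  have hm0U : m0 ∉ U := fun hm => by
    rw [hbU m0 hm] at hm0
    exact absurd hm0 (notMem_empty _)
  have hp0B : p0 ∉ B := fun hp => hg m0 p0 hm0 (by rw [LSB_g, if_pos hp])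
  have hdisB : Disjoint B (uni b) := by
    rw [disjoint_right]
    intro q hq hqB
    obtain ⟨m, hm⟩ := mem_uni.1 hq
    exact hg m q hm (by rw [LSB_g, if_pos hqB])
  obtain ⟨l, hl, l', hl', hcol, hll⟩ := hW.ex U hU m0 hm0U
  have hnl := hW.pos l
  have hnl' := hW.pos l'
  have hne' : l ≠ l' := fun e => hll (by rw [e])
  set lk : L → L → ZMod 3 := (LSB D B col Phi n c τ).lk with hlk
  set c₁ : Bool ⊕ B → ZMod 3 := c l - c l' with hc1
  set T := T3 lk B c₁ b l l' with hT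
  set t := t3 lk B c₁ b l l' with ht
  have hTs : T ⊆ B ∪ uni b := T3_sub lk B c₁ b l l'
  have htT : ∀ p ∈ T, t p ≠ 0 := by
    intro p hp
    rw [hT] at hp
    unfold T3 at hp
    exact (mem_filter.1 hp).2
  have hTne : T ≠ ∅ := by
    refine nonempty_iff_ne_empty.1 ⟨p0, ?_⟩
    rw [hT, T3]
    refine mem_filter.2 ⟨mem_union_right _ hp0, ?_⟩
    have h1 : t3 lk B c₁ b l l' p0 = lk l m0 - lk l' m0 := by
      unfold t3 xB
      rw [dif_neg hp0B, zero_add, sum_eq_single m0, if_pos hm0]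
      · intro m _ hm
        exact if_neg fun h => (disjoint_left.1 (hb m m0 hm)) h hm0
      · intro h
        exact absurd (mem_univ _) h
    rw [h1]
    exact sub_ne_zero.2 hll
  have hCT := SumB.of (hC T t (c₁ (Sum.inl false)) (c₁ (Sum.inl true)) htT (Or.inl hTne))
  have hTn : (1 : ℝ) ≤ nm T := by exact_mod_cast one_le_nm T
  have hbn : (1 : ℝ) ≤ nm (uni b) := by exact_mod_cast one_le_nm (uni b)
  have hBn : (1 : ℝ) ≤ nm B := by exact_mod_cast one_le_nm B
  have hlT : 0 ≤ Real.log (nm T) := Real.log_nonneg hTn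
  have hlb : 0 ≤ Real.log (nm (uni b)) := Real.log_nonneg hbn
  have hlog : Real.log (nm T) ≤ LB + Real.log (nm (uni b)) := by
    rw [hLB, ← Real.log_mul (by linarith) (by linarith)]
    refine Real.log_le_log (by linarith) ?_
    have h1 := Pool.Agent.Lib.MP_1a91b9_ntK.D.nm_mono hTs
    rw [nm_union hdisB] at h1
    exact_mod_cast h1
  have hre : ∀ q, |(D.chb T t (c₁ (Sum.inl false)) (c₁ (Sum.inl true)) q).re| ≤ 1 := by
    intro q
    unfold Dat3b.chb
    split_ifs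
    · simp
    · exact (Complex.abs_re_le_norm _).trans (norm_e3 _).le
  have hch := fun q => abs_le.1 (hre q)
  have hhM : (2 : ℝ) ≤ h * M := by nlinarith
  refine ⟨fun q => (D.chb T t (c₁ (Sum.inl false)) (c₁ (Sum.inl true)) q).re, hCT.mono ?_, fun q => ?_,
    fun q hq => ?_⟩
  · calc C * (1 + Real.log (nm T)) ≤ (|C| + 1) * (1 + Real.log (nm T)) := by
          refine mul_le_mul_of_nonneg_right ?_ (by linarith)
          have := le_abs_self C
          linarith
      _ ≤ (|C| + 1) * ((1 + LB) * (1 + Real.log (nm (uni b)))) := by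
          refine mul_le_mul_of_nonneg_left ?_ (by positivity)
          nlinarith [mul_nonneg hLB0 hlb]
      _ = (|C| + 1) * (1 + LB) * (1 + Real.log (nm (uni b))) := by ring
      _ ≤ ((|C| + 1) * (1 + LB) * (1 + Real.log (nm (uni b)))) ^ M := by
          refine le_self_pow₀ ?_ ?_
          · have h1 : (1 : ℝ) ≤ |C| + 1 := by linarith [abs_nonneg C]
            have h2 : (1 : ℝ) ≤ 1 + Real.log (nm (uni b)) := by linarith
            have h3 : (1 : ℝ) ≤ 1 + LB := by linarith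
            exact one_le_mul_of_one_le_of_one_le (one_le_mul_of_one_le_of_one_le h1 h3) h2
          · have := hW.two
            omega
  · have h1 := (hch q).1
    linarith
  · have h1 := (hch q).1
    by_cases hqB : q ∈ B
    · have h0 : HG3 D.toDat3 (LSB D B col Phi n c τ) U b q = 0 := by
        unfold HG3
        exact sum_eq_zero fun z _ => by rw [LSB_g, if_pos hqB, zero_mul]
      rw [h0, norm_zero]
      exact ⟨by linarith, div_nonneg (by linarith) hMP0.le⟩
    · have hH : HG3 D.toDat3 (LSB D B col Phi n c τ) U b q =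
          ∑ z ∈ U, (n z : ℂ) * (τ (col z) q *
            e3 ((dtB D B).lin (c z) q + xg3 D.toDat3 (LSB D B col Phi n c τ) b z q)) := by
        unfold HG3
        refine sum_congr rfl fun z _ => ?_
        rw [e3_add, LSB_g, if_neg hqB]
        ring
      have hTq : q ∉ T := fun h => by
        rcases mem_union.1 (hTs h) with h1 | h1
        · exact hqB h1
        · exact hq h1
      have hsg : (τ (col l) q * e3 ((dtB D B).lin (c l) q + xg3 D.toDat3 (LSB D B col Phi n c τ) b l q)) *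
          (starRingEnd ℂ) (τ (col l') q *
            e3 ((dtB D B).lin (c l') q + xg3 D.toDat3 (LSB D B col Phi n c τ) b l' q)) =
          D.chb T t (c₁ (Sum.inl false)) (c₁ (Sum.inl true)) q := by
        rw [map_mul, conj_e3, hcol]
        unfold Dat3b.chb
        rw [if_neg hTq, hT, ht, sum_T3, hc1, ← dtB_lin_sub,
          xg3_gen D.toDat3 hD.ok.sym (LSB D B col Phi n c τ) b l q hq,
          xg3_gen D.toDat3 hD.ok.sym (LSB D B col Phi n c τ) b l' q hq]
        calc _ = (τ (col l') q * (starRingEnd ℂ) (τ (col l') q)) *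
            (e3 ((dtB D B).lin (c l) q + ∑ m, lk l m * ∑ p ∈ b m, D.s q p) *
              e3 (-((dtB D B).lin (c l') q + ∑ m, lk l' m * ∑ p ∈ b m, D.s q p))) := by ring
          _ = _ := by
            rw [mul_conj_one (hn _ _), one_mul, ← e3_add]
            refine congrArg e3 ?_
            ring
      have hns := norm_wsumC U n hn0
        (fun z => τ (col z) q * e3 ((dtB D B).lin (c z) q + xg3 D.toDat3 (LSB D B col Phi n c τ) b z q))
        (fun z => by rw [norm_mul, hn, norm_e3, mul_one]) (a := 2 / (M : ℝ))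
        (by positivity) hl hl' hne' hnl hnl'
      rw [hsg, hW.sum U hU] at hns
      have e1 : (h : ℝ) - 2 / (M : ℝ) / 2 *
          (1 - (D.chb T t (c₁ (Sum.inl false)) (c₁ (Sum.inl true)) q).re) =
          ((h * M - 1 : ℝ) + (D.chb T t (c₁ (Sum.inl false)) (c₁ (Sum.inl true)) q).re) / M := by
        field_simp
        ring
      rw [← hH, e1] at hns
      refine ⟨hns.trans ?_, hns⟩
      rw [div_le_iff₀ hMP0]
      have := (hch q).2
      linarith

/-- **The hypotheses of the engine.** -/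
theorem LSB_OK {D : Dat3b ι} (hD : D.OKb) (B : Finset ι) (hW : WS3 col Phi n h M Us)
    (c : L → Bool ⊕ B → ZMod 3) {τ : C → ι → ℂ} (hn : ∀ v q, ‖τ v q‖ = 1) {mU : Finset L → ℂ} {N : ℕ → ℂ}
    (hmain : ∀ U ∈ Us, ∀ ε : ℝ, 0 < ε → ∃ X₀ : ℕ, ∀ X : ℕ, X₀ ≤ X →
      ‖∑ S ∈ SxT B X, ∏ q ∈ S, ∑ l ∈ U, (n l : ℂ) * (τ (col l) q * e3 ((dtB D B).lin (c l) q)) -
        mU U * N X‖ ≤ ε * Yh h X) :
    OKh3 (LSB D B col Phi n c τ) D.toDat3 h M Us mU N := by
  have hn0 : ∀ z, 0 ≤ n z := fun z => le_trans (by positivity) (hW.pos z)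
  have hMP : (2 : ℝ) ≤ (M : ℝ) := by exact_mod_cast hW.two
  have hMP0 : (0 : ℝ) < (M : ℝ) := by linarith
  have hnl : ∀ (Z : Finset L) (q : ι), ∑ l ∈ Z, ‖(LSB D B col Phi n c τ).g l q‖ ≤ ∑ l ∈ Z, n l := by
    intro Z q
    refine sum_le_sum fun l _ => ?_
    rw [LSB_norm D B c hn hn0]
    split_ifs
    · exact hn0 l
    · exact le_rfl
  refine { diag := hW.self, nrm := ?_, two := hW.two, pos := hW.hp, unl := hW.unl, er := ?_, small := ?_,
           mid := LSB_mid hD B hW c hn, main := ?_ }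
  · intro l q
    rw [LSB_norm D B c hn hn0]
    split_ifs
    · exact zero_le_one
    · exact hW.le_one l
  · intro U hU l hl hU2
    have h1 := hW.sum U hU
    have h2 := hW.sum _ hU2
    rw [← add_sum_erase U n hl, h2] at h1
    have h3 := hW.pos l
    have h4 : 0 < 2 / (M : ℝ) := by positivity
    linarith
  · refine ⟨1, fun Z hZ hZU => ⟨fun _ => 0, SumB.zero, fun q => ?_⟩⟩
    have h1 := hW.small Z hZ hZU
    have h2 := hnl Z q
    have h3 : (0 : ℝ) < 1 / M := by positivity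
    refine ⟨by linarith, ?_⟩
    rw [add_zero]
    refine (h2.trans h1).trans (le_of_eq ?_)
    field_simp
  · intro U hU ε hε
    obtain ⟨X₀, h1⟩ := hmain U hU ε hε
    refine ⟨X₀, fun X hX => ?_⟩
    refine le_trans (le_of_eq (congrArg (fun z => ‖z - mU U * N X‖) ?_)) (h1 X hX)
    rw [← sum_offB]
    refine sum_congr rfl fun S _ => prod_congr rfl fun q _ => ?_
    unfold offB
    split_ifs with hq
    · exact sum_eq_zero fun l _ => by rw [LSB_g, if_pos hq]
    · exact sum_congr rfl fun l _ => by rw [LSB_g, if_neg hq]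

/-- The sums of the label system. -/
theorem LSB_sum {D : Dat3b ι} (B : Finset ι) (c : L → Bool ⊕ B → ZMod 3) (τ : C → ι → ℂ) (X : ℕ) :
    ∑ S ∈ Sx ι X, ∑ f : S → L, (∏ j : S, (LSB D B col Phi n c τ).g (f j) j) *
        e3 (∑ j : S, ∑ k : S, (LSB D B col Phi n c τ).Phi (f j) (f k) * D.s j k) =
      ∑ S ∈ SxT B X, ∑ f : S → L, (∏ j : S, (n (f j) : ℂ) * τ (col (f j)) j) *
        e3 ((dtB D B).eL Phi c S f) := by
  unfold SxT
  rw [sum_filter]
  refine sum_congr rfl fun S _ => ?_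
  by_cases hS : Disjoint S B
  · rw [if_pos hS]
    refine sum_congr rfl fun f _ => ?_
    unfold Dt.eL
    rw [e3_add, e3_sum univ fun j : S => (dtB D B).lin (c (f j)) j, ← mul_assoc, ← prod_mul_distrib]
    refine congrArg₂ (· * ·) (prod_congr rfl fun j _ => ?_) rfl
    rw [LSB_g, if_neg (disjoint_left.1 hS j.2), mul_assoc]
  · rw [if_neg hS]
    rw [not_disjoint_iff] at hS
    obtain ⟨q, h1, h2⟩ := hS
    refine sum_eq_zero fun f _ => ?_
    rw [prod_eq_zero (mem_univ (⟨q, h1⟩ : S)) (by rw [LSB_g, if_pos h2]), zero_mul]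

end

end Pool.Agent.Lib.MP_1a91b9_ntMC
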