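import Pool.Agent.Lib.MP_1a91b9_ntK.D.Exp
import Pool.Agent.Lib.MP_1a91b9_ntK.D.FamC
import Pool.Agent.Lib.MP_1a91b9_ntMN.UBh
import Pool.Agent.Lib.MP_1a91b9_ntN.DJ.Eng

/-!
# MP_1a91b9_nt (all the multicubic fields): the engine for general weights, definitions

A label system with general weights `g l q`, the symbols have values in `ZMod 3` and are symmetric. `OKh3`: the
hypotheses for the total size `h` of the weights. `LSB`: the label system of the engine of `C1`.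
-/

set_option autoImplicit false
set_option linter.unusedSectionVars false

namespace Pool.Agent.Lib.MP_1a91b9_ntMC

open Finset Pool.Agent.Lib.MP_1a91b9_ntH Pool.Agent.Lib.MP_1a91b9_ntK Pool.Agent.Lib.MP_1a91b9_ntK.Da
open Pool.Agent.Lib.MP_1a91b9_ntN
open Pool.Agent.Lib.MP_1a91b9_ntV (SumB)
open Pool.Agent.Lib.MP_1a91b9_ntMN (Yh Yh_nonneg Yh_div le_Yh ubh)

noncomputable section

/-- A label system: `Phi l m` is the exponent of the symbol `(d_l / d_m)`, `g l q` is the weight of the label `l` at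
the prime `q`. -/
structure LG3 (L ι : Type) where
  Phi : L → L → ZMod 3
  g : L → ι → ℂ

section Sys

variable {ι : Type} [DecidableEq ι] {L : Type}

/-- Two labels are linked if this is not `0`. -/
def LG3.lk (Λ : LG3 L ι) (l m : L) : ZMod 3 := Λ.Phi l m + Λ.Phi m l

/-- Unlinked sets of labels. -/
def LG3.Unl (Λ : LG3 L ι) (U : Finset L) : Prop := ∀ l ∈ U, ∀ m ∈ U, Λ.lk l m = 0

variable [Fintype L] [DecidableEq L]

/-- The exponent of a family. -/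
def eg3 (D : Dat3 ι) (Λ : LG3 L ι) (d : L → Finset ι) : ZMod 3 :=
  ∑ l, ∑ m, Λ.Phi l m * D.ss (d l) (d m)

/-- The weight of a family. -/
def wg3 (Λ : LG3 L ι) (d : L → Finset ι) : ℂ := ∏ l, ∏ q ∈ d l, Λ.g l q

/-- The summand after expansion. -/
def FG3 (D : Dat3 ι) (Λ : LG3 L ι) (d : L → Finset ι) : ℂ := wg3 Λ d * e3 (eg3 D Λ d)

/-- The exponent of the local factor. -/
def xg3 (D : Dat3 ι) (Λ : LG3 L ι) (b : L → Finset ι) (l : L) (q : ι) : ZMod 3 :=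
  ∑ m, (Λ.Phi l m * D.ss {q} (b m) + Λ.Phi m l * D.ss (b m) {q})

/-- The local factor of the inner sum. -/
def HG3 (D : Dat3 ι) (Λ : LG3 L ι) (U : Finset L) (b : L → Finset ι) (q : ι) : ℂ :=
  ∑ l ∈ U, Λ.g l q * e3 (xg3 D Λ b l q)

/-- The hypotheses on a label system with weights of the total size `h`; `Us` is the set of the maximal unlinked sets,
`mU U` is the mean value for the set `U`. -/
structure OKh3 (Λ : LG3 L ι) [PS ι] (D : Dat3 ι) (h M : ℕ) (Us : Finset (Finset L))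
    (mU : Finset L → ℂ) (N : ℕ → ℂ) : Prop where
  diag : ∀ l, Λ.Phi l l = 0
  nrm : ∀ l q, ‖Λ.g l q‖ ≤ 1
  two : 2 ≤ M
  pos : 1 ≤ h
  unl : ∀ U ∈ Us, Λ.Unl U
  er : ∀ U ∈ Us, ∀ l ∈ U, U.erase l ∉ Us
  small : ∃ B, ∀ Z, Λ.Unl Z → Z ∉ Us → ∃ ψ : ι → ℝ, SumB ψ B ∧ ∀ q,
    ∑ l ∈ Z, ‖Λ.g l q‖ ≤ h ∧ ∑ l ∈ Z, ‖Λ.g l q‖ ≤ ((h * M - 1 : ℝ) + ψ q) / M
  mid : ∃ C : ℝ, ∀ U ∈ Us, ∀ b : L → Finset ι, PD b → (∀ l ∈ U, b l = ∅) → uni b ≠ ∅ →
    (∀ l, ∀ q ∈ b l, Λ.g l q ≠ 0) →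
    ∃ ψ : ι → ℝ, SumB ψ ((C * (1 + Real.log (nm (uni b)))) ^ M) ∧
      (∀ q, 0 ≤ (h * M - 1 : ℝ) + ψ q) ∧ ∀ q, q ∉ uni b →
        ‖HG3 D Λ U b q‖ ≤ h ∧ ‖HG3 D Λ U b q‖ ≤ ((h * M - 1 : ℝ) + ψ q) / M
  main : ∀ U ∈ Us, ∀ ε : ℝ, 0 < ε → ∃ X₀ : ℕ, ∀ X : ℕ, X₀ ≤ X →
    ‖∑ S ∈ Sx ι X, ∏ q ∈ S, ∑ l ∈ U, Λ.g l q - mU U * N X‖ ≤ ε * Yh h X

open Classical in
/-- The label system over the primes outside of `B`, with the twists `τ`. -/
def LSB (D : Dat3b ι) (B : Finset ι) {C : Type} (col : L → C) (Phi : L → L → ZMod 3) (n : L → ℝ)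
    (c : L → Bool ⊕ B → ZMod 3) (τ : C → ι → ℂ) : LG3 L ι where
  Phi := Phi
  g := fun l q => if q ∈ B then 0 else (n l : ℂ) * (τ (col l) q * e3 ((dtB D B).lin (c l) q))

end Sys

end

end Pool.Agent.Lib.MP_1a91b9_ntMC
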