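import Pool.Agent.Lib.MP_1a91b9_ntK.D.HBound
import Pool.Agent.Lib.MP_1a91b9_ntK.D.PL3
import Pool.Agent.Lib.MP_1a91b9_ntMC.EM0

/-!
# MP_1a91b9_nt (all the multicubic fields): the inner sum, linked labels
-/

set_option autoImplicit false
set_option linter.unusedSectionVars false

namespace Pool.Agent.Lib.MP_1a91b9_ntMC

open Finset Pool.Agent.Lib.MP_1a91b9_ntH Pool.Agent.Lib.MP_1a91b9_ntK Pool.Agent.Lib.MP_1a91b9_ntK.Da
open Pool.Agent.Lib.MP_1a91b9_ntK.D (ss_union_left ss_union_right ss_empty_left ss_empty_right ss_symm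
  uni_union famU_prodC uni_empty sum_splitC sum_boxC sum_fun_eq_famC pl3c)
open Pool.Agent.Lib.MP_1a91b9_ntN
open Pool.Agent.Lib.MP_1a91b9_ntV (SumB)
open Pool.Agent.Lib.MP_1a91b9_ntMN (Yh Yh_nonneg Yh_div le_Yh ubh)

noncomputable section

variable {ι : Type} [DecidableEq ι] {L : Type} [Fintype L] [DecidableEq L]

/-! ### The inner sum -/

theorem eg3_unl (D : Dat3 ι) (hD : D.Sym) (Λ : LG3 L ι) (hdiag : ∀ l, Λ.Phi l l = 0) (U : Finset L)
    (hU : Λ.Unl U) (d : L → Finset ι) (hd : PD d) (h0 : ∀ l, l ∉ U → d l = ∅) : eg3 D Λ d = 0 := by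
  have h1 : ∑ l, ∑ m, Λ.Phi l m * D.ss (d l) (d m) +
      ∑ l, ∑ m, Λ.Phi l m * D.ss (d l) (d m) = 0 := by
    have h2 : ∑ l, ∑ m, Λ.Phi l m * D.ss (d l) (d m) =
        ∑ l, ∑ m, Λ.Phi m l * D.ss (d m) (d l) := sum_comm
    nth_rewrite 2 [h2]
    rw [← sum_add_distrib]
    refine sum_eq_zero fun l _ => ?_
    rw [← sum_add_distrib]
    refine sum_eq_zero fun m _ => ?_
    by_cases hlm : l = m
    · rw [hlm, hdiag]
      ring
    · rw [ss_symm D hD (hd m l (Ne.symm hlm)), ← add_mul]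
      by_cases hl : l ∈ U
      · by_cases hm : m ∈ U
        · have h3 : Λ.Phi l m + Λ.Phi m l = 0 := hU l hl m hm
          rw [h3, zero_mul]
        · rw [h0 m hm, ss_empty_right, mul_zero]
      · rw [h0 l hl, ss_empty_left, mul_zero]
  have h4 : ∀ x : ZMod 3, x + x = 0 → x = 0 := by decide
  exact h4 _ h1

theorem eg3_union (D : Dat3 ι) (Λ : LG3 L ι) (b d : L → Finset ι)
    (h : Disjoint (uni b) (uni d)) :
    eg3 D Λ (fun l => b l ∪ d l) = eg3 D Λ b + eg3 D Λ d +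
      ∑ l, ∑ m, Λ.Phi l m * (D.ss (b l) (d m) + D.ss (d l) (b m)) := by
  have hdis : ∀ l m, Disjoint (b l) (d m) := fun l m =>
    disjoint_of_subset_left (sub_uni b l) (disjoint_of_subset_right (sub_uni d m) h)
  unfold eg3
  rw [← sum_add_distrib, ← sum_add_distrib]
  refine sum_congr rfl fun l _ => ?_
  rw [← sum_add_distrib, ← sum_add_distrib]
  refine sum_congr rfl fun m _ => ?_
  show Λ.Phi l m * D.ss (b l ∪ d l) (b m ∪ d m) = _
  rw [ss_union_left D (hdis l l), ss_union_right D (hdis m m), ss_union_right D (hdis m m)]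
  ring

omit [DecidableEq ι] in
private theorem EM1_ss_left (D : Dat3 ι) (S T : Finset ι) : D.ss S T = ∑ q ∈ S, D.ss {q} T := by
  unfold Dat3.ss
  refine sum_congr rfl fun q _ => ?_
  rw [sum_singleton]

omit [DecidableEq ι] in
private theorem EM1_ss_right (D : Dat3 ι) (S T : Finset ι) :
    D.ss S T = ∑ q ∈ T, D.ss S {q} := by
  unfold Dat3.ss
  rw [sum_comm]
  refine sum_congr rfl fun q _ => ?_
  refine sum_congr rfl fun p _ => ?_
  rw [sum_singleton]

omit [DecidableEq ι] [DecidableEq L] in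
private theorem EM1_cross (D : Dat3 ι) (Λ : LG3 L ι) (b d : L → Finset ι) :
    ∑ l, ∑ m, Λ.Phi l m * (D.ss (b l) (d m) + D.ss (d l) (b m)) =
      ∑ l, ∑ q ∈ d l, xg3 D Λ b l q := by
  have h1 : ∑ l, ∑ m, Λ.Phi l m * (D.ss (b l) (d m) + D.ss (d l) (b m)) =
      ∑ l, ∑ m, Λ.Phi m l * D.ss (b m) (d l) + ∑ l, ∑ m, Λ.Phi l m * D.ss (d l) (b m) := by
    rw [sum_comm (f := fun l m => Λ.Phi m l * D.ss (b m) (d l)), ← sum_add_distrib]
    refine sum_congr rfl fun l _ => ?_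
    rw [← sum_add_distrib]
    exact sum_congr rfl fun m _ => mul_add _ _ _
  rw [h1, ← sum_add_distrib]
  refine sum_congr rfl fun l _ => ?_
  unfold xg3
  rw [← sum_add_distrib, sum_comm]
  refine sum_congr rfl fun m _ => ?_
  rw [sum_add_distrib, ← mul_sum, ← mul_sum, ← EM1_ss_left, ← EM1_ss_right, add_comm]

theorem wg3_union (Λ : LG3 L ι) (b d : L → Finset ι) (h : Disjoint (uni b) (uni d)) :
    wg3 Λ (fun l => b l ∪ d l) = wg3 Λ b * wg3 Λ d := by
  unfold wg3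
  rw [← prod_mul_distrib]
  refine prod_congr rfl fun l _ => ?_
  exact prod_union (disjoint_of_subset_left (sub_uni b l) (disjoint_of_subset_right (sub_uni d l) h))

private theorem EM1_term (D : Dat3 ι) (hD : D.Sym) (Λ : LG3 L ι) (hdiag : ∀ l, Λ.Phi l l = 0)
    (U : Finset L) (hU : Λ.Unl U) (b : L → Finset ι) (S : Finset ι)
    (hS : Disjoint S (uni b)) (d : L → Finset ι) (hd : d ∈ FamU U S) :
    FG3 D Λ (fun l => b l ∪ d l) =
      wg3 Λ b * e3 (eg3 D Λ b) * ∏ l, ∏ q ∈ d l, (Λ.g l q * e3 (xg3 D Λ b l q)) := by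
  obtain ⟨h1, h2, h3⟩ := mem_FamU.1 hd
  have h4 : Disjoint (uni b) (uni d) := by
    rw [h2]
    exact hS.symm
  have h5 : ∏ l, ∏ q ∈ d l, (Λ.g l q * e3 (xg3 D Λ b l q)) =
      wg3 Λ d * e3 (∑ l, ∑ q ∈ d l, xg3 D Λ b l q) := by
    rw [e3_sum]
    unfold wg3
    rw [← prod_mul_distrib]
    refine prod_congr rfl fun l _ => ?_
    rw [e3_sum, ← prod_mul_distrib]
  unfold FG3
  rw [wg3_union Λ b d h4, eg3_union D Λ b d h4, eg3_unl D hD Λ hdiag U hU d h1 h3, add_zero, h5,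
    EM1_cross, e3_add]
  ring

theorem inner_eq3 (D : Dat3 ι) (hD : D.Sym) (Λ : LG3 L ι) (hdiag : ∀ l, Λ.Phi l l = 0) (U : Finset L)
    (hU : Λ.Unl U) (b : L → Finset ι) (S : Finset ι) (hS : Disjoint S (uni b)) :
    ∑ d ∈ FamU U S, FG3 D Λ (fun l => b l ∪ d l) =
      wg3 Λ b * e3 (eg3 D Λ b) * ∏ q ∈ S, HG3 D Λ U b q := by
  rw [sum_congr rfl (EM1_term D hD Λ hdiag U hU b S hS), ← mul_sum,
    famU_prodC U S (fun l q => Λ.g l q * e3 (xg3 D Λ b l q))]
  rfl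

omit [DecidableEq ι] in
theorem xg3_empty (D : Dat3 ι) (Λ : LG3 L ι) (l : L) (q : ι) :
    xg3 D Λ (fun _ => ∅) l q = 0 := by
  unfold xg3
  simp only [ss_empty_left, ss_empty_right, mul_zero, add_zero, sum_const_zero]

omit [DecidableEq ι] [DecidableEq L] in
theorem eg3_empty (D : Dat3 ι) (Λ : LG3 L ι) : eg3 D Λ (fun _ : L => (∅ : Finset ι)) = 0 := by
  unfold eg3
  simp only [ss_empty_left, mul_zero, sum_const_zero]

omit [DecidableEq ι] [DecidableEq L] in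
theorem wg3_empty (Λ : LG3 L ι) : wg3 Λ (fun _ : L => (∅ : Finset ι)) = 1 := by
  unfold wg3
  simp only [prod_empty, prod_const_one]

theorem innerT_sum3 [PS ι] (D : Dat3 ι) (hD : D.Sym) (Λ : LG3 L ι) (hdiag : ∀ l, Λ.Phi l l = 0)
    (X : ℕ) (U : Finset L) (hU : Λ.Unl U) :
    ∑ S ∈ Sx ι X, ∑ d ∈ FamU U S, FG3 D Λ d = ∑ S ∈ Sx ι X, ∏ q ∈ S, ∑ l ∈ U, Λ.g l q := by
  refine sum_congr rfl fun S _ => ?_
  have h2 := inner_eq3 D hD Λ hdiag U hU (fun _ => ∅) S
    (by rw [uni_empty]; exact disjoint_empty_right _)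
  rw [eg3_empty, wg3_empty, e3_zero, one_mul, one_mul] at h2
  simp only [empty_union] at h2
  rw [h2]
  refine prod_congr rfl fun q _ => ?_
  unfold HG3
  refine sum_congr rfl fun l _ => ?_
  rw [xg3_empty, e3_zero, mul_one]

/-- The weight of a small family is at most `1`. -/
theorem norm_wg3_le (Λ : LG3 L ι) (hn : ∀ l q, ‖Λ.g l q‖ ≤ 1) (b : L → Finset ι) :
    ‖wg3 Λ b‖ ≤ 1 := by
  unfold wg3
  rw [norm_prod]
  refine prod_le_one (fun _ _ => norm_nonneg _) fun l _ => ?_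
  rw [norm_prod]
  exact prod_le_one (fun _ _ => norm_nonneg _) fun q _ => hn l q

theorem wg3_zero (Λ : LG3 L ι) (b : L → Finset ι) (h : ¬ ∀ l, ∀ q ∈ b l, Λ.g l q ≠ 0) :
    wg3 Λ b = 0 := by
  push Not at h
  obtain ⟨l, q, hq, h0⟩ := h
  unfold wg3
  exact prod_eq_zero (mem_univ l) (prod_eq_zero hq h0)

/-! ### Expansion -/

omit [DecidableEq ι] in
private theorem EM1_fib {M : Type} [AddCommMonoid M] (S : Finset ι) (f : S → L)
    (H : L → ι → M) : ∑ j : S, H (f j) j = ∑ l, ∑ q ∈ famOf S f l, H l q := by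
  have h1 : ∀ l, ∑ q ∈ famOf S f l, H l q =
      ∑ j ∈ univ.filter (fun j : S => f j = l), H (f j) j := by
    intro l
    unfold famOf
    rw [sum_map]
    refine sum_congr rfl fun j hj => ?_
    rw [(mem_filter.1 hj).2]
    rfl
  rw [sum_congr rfl fun l _ => h1 l]
  exact (sum_fiberwise univ f fun j => H (f j) j).symm

omit [DecidableEq ι] in
private theorem EM1_fibP {M : Type} [CommMonoid M] (S : Finset ι) (f : S → L)
    (H : L → ι → M) : ∏ j : S, H (f j) j = ∏ l, ∏ q ∈ famOf S f l, H l q := by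
  have h1 : ∀ l, ∏ q ∈ famOf S f l, H l q =
      ∏ j ∈ univ.filter (fun j : S => f j = l), H (f j) j := by
    intro l
    unfold famOf
    rw [prod_map]
    refine prod_congr rfl fun j hj => ?_
    rw [(mem_filter.1 hj).2]
    rfl
  rw [prod_congr rfl fun l _ => h1 l]
  exact (prod_fiberwise univ f fun j => H (f j) j).symm

private theorem EM1_term_eq (D : Dat3 ι) (Λ : LG3 L ι) (S : Finset ι) (f : S → L) :
    (∏ j : S, Λ.g (f j) j) * e3 (∑ j : S, ∑ k : S, Λ.Phi (f j) (f k) * D.s j k) =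
      FG3 D Λ (famOf S f) := by
  have h2 : ∑ j : S, ∑ k : S, Λ.Phi (f j) (f k) * D.s j k =
      ∑ l, ∑ m, Λ.Phi l m * D.ss (famOf S f l) (famOf S f m) := by
    have h3 : ∀ j : S, ∑ k : S, Λ.Phi (f j) (f k) * D.s j k =
        ∑ m, ∑ p ∈ famOf S f m, Λ.Phi (f j) m * D.s j p :=
      fun j => EM1_fib S f fun m p => Λ.Phi (f j) m * D.s j p
    rw [sum_congr rfl fun j _ => h3 j,
      EM1_fib S f fun l q => ∑ m, ∑ p ∈ famOf S f m, Λ.Phi l m * D.s q p]
    refine sum_congr rfl fun l _ => ?_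
    rw [sum_comm]
    refine sum_congr rfl fun m _ => ?_
    unfold Dat3.ss
    rw [mul_sum]
    refine sum_congr rfl fun q _ => ?_
    rw [mul_sum]
  unfold FG3 wg3 eg3
  rw [h2, EM1_fibP S f fun l q => Λ.g l q]

theorem expand3 [PS ι] (D : Dat3 ι) (Λ : LG3 L ι) (X : ℕ) :
    ∑ S ∈ Sx ι X, ∑ f : S → L,
      (∏ j : S, Λ.g (f j) j) * e3 (∑ j : S, ∑ k : S, Λ.Phi (f j) (f k) * D.s j k) =
      ∑ d ∈ Box ι L X, FG3 D Λ d := by
  rw [sum_boxC]
  refine sum_congr rfl fun S _ => ?_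
  rw [← sum_fun_eq_famC S fun d => FG3 D Λ d]
  exact sum_congr rfl fun f _ => EM1_term_eq D Λ S f

/-! ### Linked labels -/

variable [PS ι]

private theorem linked_base_apply (l0 l1 : L) (d : L → Finset ι) (l : L) :
    base l0 l1 d l = if l = l1 then ∅ else if l = l0 then ∅ else d l := by
  unfold base
  rw [Function.update_apply, Function.update_apply]

private theorem linked_sum {M : Type} [AddCommMonoid M] {l0 l1 : L} (hne : l0 ≠ l1) (d : L → Finset ι)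
    (f : L → Finset ι → M) (h0 : ∀ l, f l ∅ = 0) :
    ∑ l, f l (d l) = f l0 (d l0) + f l1 (d l1) + ∑ l, f l (base l0 l1 d l) := by
  have key : ∀ l, f l (d l) = (if l = l0 then f l0 (d l0) else 0) + (if l = l1 then f l1 (d l1) else 0) +
      f l (base l0 l1 d l) := by
    intro l
    rw [linked_base_apply]
    by_cases h1 : l = l1
    · subst h1
      simp [hne.symm, h0]
    · by_cases h2 : l = l0
      · subst h2
        simp [h1, h0]
      · simp [h1, h2]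
  rw [sum_congr rfl fun l _ => key l, sum_add_distrib, sum_add_distrib]
  simp

private theorem linked_mul {l0 l1 : L} (hne : l0 ≠ l1) (d : L → Finset ι)
    (f : L → Finset ι → ℂ) (h0 : ∀ l, f l ∅ = 1) :
    ∏ l, f l (d l) = f l0 (d l0) * f l1 (d l1) * ∏ l, f l (base l0 l1 d l) := by
  have key : ∀ l, f l (d l) = (if l = l0 then f l0 (d l0) else 1) * (if l = l1 then f l1 (d l1) else 1) *
      f l (base l0 l1 d l) := by
    intro l
    rw [linked_base_apply]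
    by_cases h1 : l = l1
    · subst h1
      simp [hne.symm, h0]
    · by_cases h2 : l = l0
      · subst h2
        simp [h1, h0]
      · simp [h1, h2]
  rw [prod_congr rfl fun l _ => key l, prod_mul_distrib, prod_mul_distrib]
  simp

private theorem linked_PD_base (l0 l1 : L) {d : L → Finset ι} (hd : PD d) : PD (base l0 l1 d) := by
  intro l m hlm
  rw [linked_base_apply, linked_base_apply]
  split_ifs <;> simp [hd l m hlm]

private theorem linked_disj0 (l0 l1 : L) {d : L → Finset ι} (hd : PD d) :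
    Disjoint (d l0) (uni (base l0 l1 d)) := by
  unfold uni
  rw [disjoint_biUnion_right]
  intro l _
  rw [linked_base_apply]
  split_ifs with h1 h2
  · simp
  · simp
  · exact hd l0 l fun h => h2 h.symm

private theorem linked_disj1 (l0 l1 : L) {d : L → Finset ι} (hd : PD d) :
    Disjoint (d l1) (uni (base l0 l1 d)) := by
  unfold uni
  rw [disjoint_biUnion_right]
  intro l _
  rw [linked_base_apply]
  split_ifs with h1 h2
  · simp
  · simp
  · exact hd l1 l fun h => h1 h.symm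

/-- The exponent of the pairs between `S`, with the label `l`, and the family `b`. -/
private def xg3S (D : Dat3 ι) (Λ : LG3 L ι) (b : L → Finset ι) (l : L) (S : Finset ι) : ZMod 3 :=
  ∑ k, (Λ.Phi l k * D.ss S (b k) + Λ.Phi k l * D.ss (b k) S)

private theorem linked_eg {l0 l1 : L} (hne : l0 ≠ l1) (D : Dat3 ι) (hR : D.Sym) (Λ : LG3 L ι)
    (hdiag : ∀ l, Λ.Phi l l = 0) {d : L → Finset ι} (hd : PD d) :
    eg3 D Λ d = eg3 D Λ (base l0 l1 d) + xg3S D Λ (base l0 l1 d) l0 (d l0) +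
      xg3S D Λ (base l0 l1 d) l1 (d l1) + Λ.lk l0 l1 * D.ss (d l0) (d l1) := by
  have e6 : ∑ l, ∑ m, Λ.Phi l m * D.ss (d l) (d m) =
      ∑ m, Λ.Phi l0 m * D.ss (d l0) (d m) + ∑ m, Λ.Phi l1 m * D.ss (d l1) (d m) +
        ∑ l, ∑ m, Λ.Phi l m * D.ss (base l0 l1 d l) (d m) :=
    linked_sum hne d (fun l S => ∑ m, Λ.Phi l m * D.ss S (d m)) fun l => by
      show ∑ m, Λ.Phi l m * D.ss ∅ (d m) = 0
      exact sum_eq_zero fun m _ => by rw [ss_empty_left, mul_zero]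
  have e5 : ∀ (l : L) (R : Finset ι), ∑ m, Λ.Phi l m * D.ss R (d m) =
      Λ.Phi l l0 * D.ss R (d l0) + Λ.Phi l l1 * D.ss R (d l1) +
        ∑ m, Λ.Phi l m * D.ss R (base l0 l1 d m) := fun l R =>
    linked_sum hne d (fun m S => Λ.Phi l m * D.ss R S) fun m => by
      show Λ.Phi l m * D.ss R ∅ = 0
      rw [ss_empty_right, mul_zero]
  have e4 : D.ss (d l1) (d l0) = D.ss (d l0) (d l1) := ss_symm D hR (hd l1 l0 hne.symm)
  unfold eg3 xg3S LG3.lk
  rw [e6, e5 l0 (d l0), e5 l1 (d l1), sum_congr rfl fun l _ => e5 l (base l0 l1 d l), e4, hdiag l0,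
    hdiag l1]
  simp only [sum_add_distrib]
  ring

open Classical in
private def linked_al (D : Dat3 ι) (Λ : LG3 L ι) (V : ℕ) (Z : Finset L) (l0 l1 : L)
    (b : L → Finset ι) (S : Finset ι) : ℂ :=
  if PD b ∧ Disjoint S (uni b) ∧ (∀ l, l ≠ l0 → l ≠ l1 → (l ∈ Z ↔ V < nm (b l))) then
    (wg3 Λ b * e3 (eg3 D Λ b)) * ((∏ q ∈ S, Λ.g l0 q) * e3 (xg3S D Λ b l0 S))
  else 0

open Classical in
private def linked_be (D : Dat3 ι) (Λ : LG3 L ι) (l1 : L) (b : L → Finset ι) (T : Finset ι) : ℂ :=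
  if Disjoint T (uni b) then (∏ q ∈ T, Λ.g l1 q) * e3 (xg3S D Λ b l1 T) else 0

private theorem linked_term_le (Λ : LG3 L ι) (hn : ∀ l q, ‖Λ.g l q‖ ≤ 1) (l : L)
    (S : Finset ι) (x : ZMod 3) : ‖(∏ q ∈ S, Λ.g l q) * e3 x‖ ≤ 1 := by
  rw [norm_mul, norm_e3, mul_one, norm_prod]
  exact prod_le_one (fun q _ => norm_nonneg _) fun q _ => hn l q

private theorem linked_al_le (D : Dat3 ι) (Λ : LG3 L ι) (hn : ∀ l q, ‖Λ.g l q‖ ≤ 1)
    (V : ℕ) (Z : Finset L) (l0 l1 : L)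
    (b : L → Finset ι) (S : Finset ι) : ‖linked_al D Λ V Z l0 l1 b S‖ ≤ 1 := by
  unfold linked_al
  split_ifs with h
  · rw [norm_mul]
    refine mul_le_one₀ ?_ (norm_nonneg _) (linked_term_le Λ hn _ _ _)
    rw [norm_mul, norm_e3, mul_one]
    exact norm_wg3_le Λ hn b
  · rw [norm_zero]
    exact zero_le_one

private theorem linked_be_le (D : Dat3 ι) (Λ : LG3 L ι) (hn : ∀ l q, ‖Λ.g l q‖ ≤ 1) (l1 : L)
    (b : L → Finset ι) (T : Finset ι) : ‖linked_be D Λ l1 b T‖ ≤ 1 := by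
  unfold linked_be
  split_ifs with h
  · exact linked_term_le Λ hn _ _ _
  · rw [norm_zero]
    exact zero_le_one

private theorem linked_al_supp (D : Dat3 ι) (Λ : LG3 L ι) (V : ℕ) (Z : Finset L) (l0 l1 : L)
    (b : L → Finset ι) (S : Finset ι) (h : linked_al D Λ V Z l0 l1 b S ≠ 0) :
    PD b ∧ Disjoint S (uni b) := by
  unfold linked_al at h
  have c := by_contra fun h' => h (if_neg h')
  exact ⟨c.1, c.2.1⟩

private theorem linked_be_supp (D : Dat3 ι) (Λ : LG3 L ι) (l1 : L)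
    (b : L → Finset ι) (T : Finset ι) (h : linked_be D Λ l1 b T ≠ 0) : Disjoint T (uni b) := by
  unfold linked_be at h
  exact by_contra fun h' => h (if_neg h')

open Classical in
private theorem linked_main {l0 l1 : L} (hne : l0 ≠ l1) (D : Dat3 ι) (hR : D.Sym) (Λ : LG3 L ι)
    (hdiag : ∀ l, Λ.Phi l l = 0) (V : ℕ) (Z : Finset L) {d : L → Finset ι} (hd : PD d) :
    linked_al D Λ V Z l0 l1 (base l0 l1 d) (d l0) * linked_be D Λ l1 (base l0 l1 d) (d l1) *
        e3 (Λ.lk l0 l1 * D.ss (d l0) (d l1)) =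
      if ∀ l, l ≠ l0 → l ≠ l1 → (l ∈ Z ↔ V < nm (d l)) then FG3 D Λ d else 0 := by
  have hb : (∀ l, l ≠ l0 → l ≠ l1 → (l ∈ Z ↔ V < nm (base l0 l1 d l))) ↔
      ∀ l, l ≠ l0 → l ≠ l1 → (l ∈ Z ↔ V < nm (d l)) := by
    refine forall_congr' fun l => forall_congr' fun h0 => forall_congr' fun h1 => ?_
    rw [linked_base_apply, if_neg h1, if_neg h0]
  by_cases h2 : ∀ l, l ≠ l0 → l ≠ l1 → (l ∈ Z ↔ V < nm (d l))
  · rw [if_pos h2]
    unfold linked_al linked_be
    rw [if_pos ⟨linked_PD_base l0 l1 hd, linked_disj0 l0 l1 hd, hb.2 h2⟩,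
      if_pos (linked_disj1 l0 l1 hd)]
    unfold FG3
    have hw : wg3 Λ d = (∏ q ∈ d l0, Λ.g l0 q) * (∏ q ∈ d l1, Λ.g l1 q) * wg3 Λ (base l0 l1 d) :=
      linked_mul hne d (fun l S => ∏ q ∈ S, Λ.g l q) fun l => prod_empty
    rw [linked_eg hne D hR Λ hdiag hd, hw]
    simp only [e3_add]
    ring
  · rw [if_neg h2]
    have : linked_al D Λ V Z l0 l1 (base l0 l1 d) (d l0) = 0 := by
      unfold linked_al
      exact if_neg fun h => h2 (hb.1 h.2.2)
    rw [this, zero_mul, zero_mul]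

theorem linked_bound3 (D : Dat3 ι) (hD : D.OK) (Λ : LG3 L ι) (hdiag : ∀ l, Λ.Phi l l = 0)
    (hnrm : ∀ l q, ‖Λ.g l q‖ ≤ 1) :
    ∃ (C : ℝ) (K : ℕ) (c : ℝ), 0 < C ∧ 0 < c ∧ ∀ (X V : ℕ) (Z : Finset L) (l0 l1 : L), 2 ≤ X → 1 ≤ V →
      l0 ∈ Z → l1 ∈ Z → Λ.lk l0 l1 ≠ 0 →
      ‖∑ d ∈ BoxZ ι X V Z, FG3 D Λ d‖ ≤ C * X * (1 + Real.log X) ^ K * (V : ℝ) ^ (-c) := by
  obtain ⟨C0, K0, c0, hc0, hBL⟩ := hD.bl
  obtain ⟨C2, hZ⟩ := hD.zt
  obtain ⟨H, hH1, hH⟩ := harm hZ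
  obtain ⟨C, hC, hpl⟩ := pl3c (L := L) D hBL hH1 hH
  refine ⟨C, K0 + Fintype.card L, c0, hC, hc0, ?_⟩
  intro X V Z l0 l1 hX hV h0 h1 hlk
  have hne : l0 ≠ l1 := by
    intro h
    apply hlk
    rw [h]
    unfold LG3.lk
    rw [hdiag, add_zero]
  classical
  have key : ∑ d ∈ BoxZ ι X V Z, FG3 D Λ d =
      ∑ d ∈ (Box ι L X).filter (fun d => V < nm (d l0) ∧ V < nm (d l1)),
        linked_al D Λ V Z l0 l1 (base l0 l1 d) (d l0) * linked_be D Λ l1 (base l0 l1 d) (d l1) *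
          e3 (Λ.lk l0 l1 * D.ss (d l0) (d l1)) := by
    have e1 : ∑ d ∈ (Box ι L X).filter (fun d => V < nm (d l0) ∧ V < nm (d l1)),
        linked_al D Λ V Z l0 l1 (base l0 l1 d) (d l0) * linked_be D Λ l1 (base l0 l1 d) (d l1) *
          e3 (Λ.lk l0 l1 * D.ss (d l0) (d l1)) =
        ∑ d ∈ (Box ι L X).filter (fun d => V < nm (d l0) ∧ V < nm (d l1)),
          if ∀ l, l ≠ l0 → l ≠ l1 → (l ∈ Z ↔ V < nm (d l)) then FG3 D Λ d else 0 := by
      refine sum_congr rfl fun d hd => ?_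
      exact linked_main hne D hD.sym Λ hdiag V Z (mem_Box.1 (mem_filter.1 hd).1).1
    rw [e1, ← sum_filter, filter_filter]
    refine sum_congr ?_ fun _ _ => rfl
    ext d
    rw [mem_BoxZ, mem_filter, mem_Box, and_assoc]
    refine and_congr_right fun _ => and_congr_right fun _ => ⟨fun h => ⟨⟨(h l0).1 h0, (h l1).1 h1⟩,
      fun l _ _ => h l⟩, fun h l => ?_⟩
    by_cases e0 : l = l0
    · subst e0
      exact ⟨fun _ => h.1.1, fun _ => h0⟩
    · by_cases e1 : l = l1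
      · subst e1
        exact ⟨fun _ => h.1.2, fun _ => h1⟩
      · exact h.2 l e0 e1
  rw [key]
  refine (le_of_eq ?_).trans (hpl (Λ.lk l0 l1) l0 l1 (fun d => linked_al D Λ V Z l0 l1 (base l0 l1 d) (d l0) *
      linked_be D Λ l1 (base l0 l1 d) (d l1) * e3 (Λ.lk l0 l1 * D.ss (d l0) (d l1)))
      (linked_al D Λ V Z l0 l1) (linked_be D Λ l1) V X hlk hne hV hX
      (fun b S => linked_al_le D Λ hnrm V Z l0 l1 b S)
      (fun b S => linked_be_le D Λ hnrm l1 b S)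
      (fun b S h => linked_al_supp D Λ V Z l0 l1 b S h)
      (fun b S h => linked_be_supp D Λ l1 b S h) (fun d _ => rfl))
  refine congrArg norm (sum_congr ?_ fun _ _ => rfl)
  ext d
  simp only [mem_filter]

end

end Pool.Agent.Lib.MP_1a91b9_ntMC
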