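import Pool.Agent.Lib.MP_1a91b9_ntMC.EL
import Pool.Agent.Lib.MP_1a91b9_ntMC.EM5

/-!
# MP_1a91b9_nt (all the multicubic fields): the engine for the total weight `h`
-/

set_option autoImplicit false
set_option linter.unusedSectionVars false
set_option linter.unusedVariables false

namespace Pool.Agent.Lib.MP_1a91b9_ntMC

open Finset Pool.Agent.Lib.MP_1a91b9_ntH Pool.Agent.Lib.MP_1a91b9_ntK Pool.Agent.Lib.MP_1a91b9_ntK.Da
open Pool.Agent.Lib.MP_1a91b9_ntN
open Pool.Agent.Lib.MP_1a91b9_ntMN (Yh)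
open Pool.Agent.Lib.MP_1a91b9_ntQ (Mz)
open Pool.Agent.Lib.MP_1a91b9_ntS3.DG (Mz3)

noncomputable section

variable {ι : Type} [DecidableEq ι] [PS ι]

/-- **The engine for the total weight `h`.** -/
theorem engMD_dtB {D : Dat3b ι} (hD : D.OKb) {C₂ : ℝ} (hC₂ : ∀ Y : ℕ, ((Sx ι Y).card : ℝ) ≤ C₂ * Y)
    (B : Finset ι) : EngMD (dtB D B) (SxT B) := by
  classical
  intro L C _ _ col Phi n h M Us c hW ε hε
  have hn : ∀ (v : C) (q : ι), ‖(fun (_ : C) (_ : ι) => (1 : ℂ)) v q‖ = 1 := fun _ _ => norm_one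
  have hdi : Tdi D (fun (_ : C) (_ : ι) => (1 : ℂ)) (fun _ => 1) := fun _ => Or.inl ⟨0, 0, fun q => by
    rw [zero_mul, zero_mul, add_zero, e3_zero, mul_one]⟩
  have hOK := LSB_OK hD B hW c hn (mU := fun U => if ∀ x ∈ U, c x = 0 then 1 else 0)
    (N := fun X => ((NZ (SxT B) h X : ℝ) : ℂ)) (by
      intro U hU δ hδ
      by_cases hc : ∀ x ∈ U, c x = 0
      · refine ⟨0, fun X _ => ?_⟩
        rw [if_pos hc, one_mul]
        have e : ∑ S ∈ SxT B X, ∏ q ∈ S, ∑ l ∈ U, (n l : ℂ) * ((1 : ℂ) * e3 ((dtB D B).lin (c l) q)) =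
            ((NZ (SxT B) h X : ℝ) : ℂ) := by
          unfold NZ
          rw [Complex.ofReal_sum]
          refine sum_congr rfl fun S _ => ?_
          have e1 : ∀ q ∈ S, ∑ l ∈ U, (n l : ℂ) * ((1 : ℂ) * e3 ((dtB D B).lin (c l) q)) = (h : ℂ) := by
            intro q _
            have e2 : ∀ l ∈ U, (n l : ℂ) * ((1 : ℂ) * e3 ((dtB D B).lin (c l) q)) = (n l : ℂ) := by
              intro l hl
              have e4 : (dtB D B).lin (c l) q = 0 := by
                unfold Dt.lin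
                exact sum_eq_zero fun j _ => by rw [hc l hl, Pi.zero_apply, zero_mul]
              rw [e4, e3_zero, mul_one, mul_one]
            rw [sum_congr rfl e2, ← Complex.ofReal_sum, hW.sum U hU, Complex.ofReal_natCast]
          rw [prod_congr rfl e1, prod_const]
          push_cast
          rfl
        rw [e, sub_self, norm_zero]
        exact mul_nonneg hδ.le (Pool.Agent.Lib.MP_1a91b9_ntMN.Yh_nonneg h X)
      · push Not at hc
        obtain ⟨x₀, hx₀, hne⟩ := hc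
        have hm : Mz ∅ (offB B (fun q => (fun (_ : C) (_ : ι) => (1 : ℂ)) (col x₀) q *
            e3 ((dtB D B).lin (c x₀) q))) := by
          have h1 := mz_lin hD B hne
          simp only [one_mul]
          exact h1
        obtain ⟨X₀, h3⟩ := main_small hD B c hW hn hU hx₀ hdi hm δ hδ
        refine ⟨X₀, fun X hX => ?_⟩
        rw [if_neg fun h0 => hne (h0 x₀ hx₀), zero_mul, sub_zero]
        exact h3 X hX)
  obtain ⟨X₀, h1⟩ := engH3 D.toDat3 hD.ok _ hOK ε hε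
  refine ⟨X₀, fun X hX => ?_⟩
  have h2 := h1 X hX
  rw [LSB_sum] at h2
  simp only [mul_one] at h2
  rw [sum_boole] at h2
  exact h2

/-- The engine with a twist, the hypothesis only for the ratios by `τ v₀`. -/
theorem engMV_dtB' {D : Dat3b ι} (hD : D.OKb) {C₂ : ℝ} (hC₂ : ∀ Y : ℕ, ((Sx ι Y).card : ℝ) ≤ C₂ * Y)
    (B : Finset ι) {C : Type} (τ : C → ι → ℂ) (hn : ∀ v q, ‖τ v q‖ = 1) (v₀ : C)
    (hz : Mz3 D (τ v₀))
    (hd : ∀ v, (∃ c c' : ZMod 3, ∀ q, τ v q = τ v₀ q * e3 (c * D.a q + c' * D.b q)) ∨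
      Mz3 D fun q => τ v q * (starRingEnd ℂ) (τ v₀ q)) : EngMV (dtB D B) (SxT B) τ := by
  classical
  intro L _ _ col Phi n h M Us c hW hcol ε hε
  have hOK := LSB_OK hD B hW c hn (mU := fun _ => 0) (N := fun _ => 0) (by
      intro U hU δ hδ
      obtain ⟨x₀, hx₀, hcx⟩ := hcol U hU v₀
      have hm : Mz ∅ (offB B (fun q => τ (col x₀) q * e3 ((dtB D B).lin (c x₀) q))) := by
        refine mz_offB fun δ hδ => ?_
        obtain ⟨X₀, h3⟩ := hz B (xB B (c x₀)) (c x₀ (Sum.inl false)) (c x₀ (Sum.inl true)) δ hδ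
        refine ⟨X₀, fun X hX => ?_⟩
        refine le_trans (le_of_eq ?_) (h3 X hX)
        unfold SxT
        refine congrArg norm (sum_congr (filter_congr fun _ _ => Iff.rfl) fun S _ =>
          prod_congr rfl fun q _ => ?_)
        rw [hcx, dtB_lin]
      obtain ⟨X₀, h3⟩ := main_small hD B c hW hn hU hx₀ (by rw [hcx]; exact hd) hm δ hδ
      refine ⟨X₀, fun X hX => ?_⟩
      rw [mul_zero, sub_zero]
      exact h3 X hX)
  obtain ⟨X₀, h1⟩ := engH3 D.toDat3 hD.ok _ hOK ε hε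
  refine ⟨X₀, fun X hX => ?_⟩
  have h2 := h1 X hX
  rw [LSB_sum, mul_zero, sub_zero] at h2
  exact h2

/-- **The engine with a twist.** -/
theorem engMV_dtB {D : Dat3b ι} (hD : D.OKb) {C₂ : ℝ} (hC₂ : ∀ Y : ℕ, ((Sx ι Y).card : ℝ) ≤ C₂ * Y)
    (B : Finset ι) {C : Type} (τ : C → ι → ℂ) (hn : ∀ v q, ‖τ v q‖ = 1)
    (hdi : ∀ v v' : C, (∃ c c' : ZMod 3, ∀ q, τ v q = τ v' q * e3 (c * D.a q + c' * D.b q)) ∨
      Mz3 D (fun q => τ v q * (starRingEnd ℂ) (τ v' q)))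
    (v₀ : C) (hz : Mz3 D (τ v₀)) : EngMV (dtB D B) (SxT B) τ :=
  engMV_dtB' hD hC₂ B τ hn v₀ hz fun v => hdi v v₀

end

end Pool.Agent.Lib.MP_1a91b9_ntMC
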