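import Pool.Agent.Lib.MP_1a91b9_ntMC.C3
import Pool.Agent.Lib.MP_1a91b9_ntMN.LBh
import Pool.Agent.Lib.MP_1a91b9_ntCC.DMix

/-!
# MP_1a91b9_nt (all the multicubic fields): the change of the parameter
-/

set_option autoImplicit false
set_option linter.unusedSectionVars false

namespace Pool.Agent.Lib.MP_1a91b9_ntMC

open Finset Pool.Agent.Lib.MP_1a91b9_ntH Pool.Agent.Lib.MP_1a91b9_ntK Pool.Agent.Lib.MP_1a91b9_ntK.Da
open Pool.Agent.Lib.MP_1a91b9_ntN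
open Pool.Agent.Lib.MP_1a91b9_ntMN (Yh)

noncomputable section

variable {β : Type}

open Classical in
/-- The set `B (T n)` if `T n` has the value `n` of the parameter, otherwise the empty set. -/
def RP (h : ℕ) (B : ℕ → Finset β) (T : ℕ → ℕ) (n : ℕ) : Finset β :=
  if ⌈Yh h (T n)⌉₊ = n then B (T n) else ∅

/-- (For `n` larger than the values `⌈Yh h X⌉₊`, `X < X₀`, the number `T n` is at least `X₀`, and `Yh h (T n) ≤ n`.) -/
theorem MV_RP {h : ℕ} {B : ℕ → Finset β} {f : β → ℝ} {v : ℝ} (hm : MVY h B f v) (T : ℕ → ℕ) :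
    MV (RP h B T) f v := by
  classical
  intro ε hε
  obtain ⟨X₀, hX₀⟩ := hm ε hε
  refine ⟨∑ X ∈ range X₀, ⌈Yh h X⌉₊ + 1, fun n hn => ?_⟩
  unfold RP
  split_ifs with h1
  · have h2 : X₀ ≤ T n := by
      by_contra hcon
      have h3 : ⌈Yh h (T n)⌉₊ ≤ ∑ X ∈ range X₀, ⌈Yh h X⌉₊ :=
        single_le_sum (f := fun X => ⌈Yh h X⌉₊) (fun _ _ => Nat.zero_le _)
          (mem_range.2 (not_le.1 hcon))
      omega
    refine (hX₀ _ h2).trans (mul_le_mul_of_nonneg_left ?_ hε.le)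
    have h4 := Nat.le_ceil (Yh h (T n))
    rw [h1] at h4
    exact h4
  · rw [sum_empty, card_empty, Nat.cast_zero, mul_zero, sub_zero, abs_zero]
    positivity

/-- (By contradiction: choose for `T n` a number `X` with `⌈Yh h X⌉₊ = n` for which the inequality fails, if there is
one; `n ≤ 2 * Yh h X` for `n ≥ 2`; `Yh h X ≥ X` by `le_Yh`.) -/
theorem lower_RP {h : ℕ} {B : ℕ → Finset β} {κ₀ : ℝ} {P : β → Prop} [DecidablePred P]
    (H : ∀ (T : ℕ → ℕ) (ε : ℝ), 0 < ε → ∃ n₀ : ℕ, ∀ n : ℕ, n₀ ≤ n →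
      κ₀ * ((RP h B T n).card : ℝ) - ε * n ≤ (((RP h B T n).filter P).card : ℝ)) (ε : ℝ) (hε : 0 < ε) :
    ∃ X₀ : ℕ, ∀ X : ℕ, X₀ ≤ X →
      κ₀ * ((B X).card : ℝ) - ε * Yh h X ≤ (((B X).filter P).card : ℝ) := by
  classical
  by_contra hcon
  push Not at hcon
  obtain ⟨T, hT⟩ : ∃ T : ℕ → ℕ, ∀ n, (∃ X, ⌈Yh h X⌉₊ = n ∧
      (((B X).filter P).card : ℝ) < κ₀ * ((B X).card : ℝ) - ε * Yh h X) →
      ⌈Yh h (T n)⌉₊ = n ∧
        (((B (T n)).filter P).card : ℝ) < κ₀ * ((B (T n)).card : ℝ) - ε * Yh h (T n) := by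
    have h1 : ∀ n, ∃ t, (∃ X, ⌈Yh h X⌉₊ = n ∧
      (((B X).filter P).card : ℝ) < κ₀ * ((B X).card : ℝ) - ε * Yh h X) →
      ⌈Yh h t⌉₊ = n ∧
        (((B t).filter P).card : ℝ) < κ₀ * ((B t).card : ℝ) - ε * Yh h t := by
      intro n
      by_cases h2 : ∃ X, ⌈Yh h X⌉₊ = n ∧
        (((B X).filter P).card : ℝ) < κ₀ * ((B X).card : ℝ) - ε * Yh h X
      · obtain ⟨X, hX⟩ := h2
        exact ⟨X, fun _ => hX⟩
      · exact ⟨0, fun h3 => absurd h3 h2⟩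
    choose T hT using h1
    exact ⟨T, hT⟩
  obtain ⟨n₀, hn₀⟩ := H T (ε / 2) (half_pos hε)
  obtain ⟨X, hX, hbad⟩ := hcon (max n₀ 3)
  obtain ⟨n, hn⟩ : ∃ n : ℕ, n = ⌈Yh h X⌉₊ := ⟨_, rfl⟩
  have hX3 : 3 ≤ X := (le_max_right _ _).trans hX
  have hXn : X ≤ n := by
    have h1 := (Pool.Agent.Lib.MP_1a91b9_ntMN.le_Yh h X hX3).trans (Nat.le_ceil _)
    rw [hn]
    exact_mod_cast h1
  obtain ⟨h1, h2⟩ := hT n ⟨X, hn.symm, hbad⟩
  have h3 := hn₀ n (((le_max_left _ _).trans hX).trans hXn)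
  unfold RP at h3
  rw [if_pos h1] at h3
  have h4 : (n : ℝ) < Yh h (T n) + 1 := by
    have h5 := Nat.ceil_lt_add_one (Pool.Agent.Lib.MP_1a91b9_ntMN.Yh_nonneg h (T n))
    rw [h1] at h5
    exact h5
  have h6 : (3 : ℝ) ≤ n := by exact_mod_cast hX3.trans hXn
  nlinarith

private theorem J1_card (I : Type) [Fintype I] [DecidableEq I] : Fintype.card (Nz I) = hN I := by
  classical
  unfold Nz hN
  rw [Fintype.card_subtype_compl, Fintype.card_subtype_eq, Fintype.card_fun, ZMod.card]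

private theorem J1_Dn : ∃ c₀ : ℝ, 0 < c₀ ∧
    Pool.Agent.Lib.MP_1a91b9_ntMN.Dn Pool.Agent.Lib.MP_1a91b9_ntK.P3 c₀ := by
  classical
  obtain ⟨c, hc, X₁, h1⟩ := Pool.Agent.Lib.MP_1a91b9_ntK.Prm.card_ge Pool.Agent.Lib.MP_1a91b9_ntK2.D9.md3
  refine ⟨min c (1 / (X₁ + 1)), lt_min hc (by positivity), fun Y hY => ?_⟩
  by_cases h2 : X₁ ≤ Y
  · exact (mul_le_mul_of_nonneg_right (min_le_left _ _) (Nat.cast_nonneg _)).trans (h1 Y h2)
  · have h3 : (Y : ℝ) ≤ X₁ := by exact_mod_cast (not_le.1 h2).le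
    have h4 : (1 : ℝ) ≤ ((Sx Pool.Agent.Lib.MP_1a91b9_ntK.P3 Y).card : ℝ) := by
      have h5 : (∅ : Finset Pool.Agent.Lib.MP_1a91b9_ntK.P3) ∈ Sx Pool.Agent.Lib.MP_1a91b9_ntK.P3 Y := by
        rw [mem_Sx]
        simpa [nm] using hY
      exact_mod_cast card_pos.2 ⟨_, h5⟩
    refine (mul_le_mul_of_nonneg_right (min_le_right _ _) (Nat.cast_nonneg _)).trans (le_trans ?_ h4)
    rw [one_div, inv_mul_le_iff₀ (by positivity)]
    linarith

/-- The number of all the colourings is at least a constant times `Yh` (`MN.Nh_lower`; the lower bound for the number of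
the sets of primes `Sx P3` is in the older folders of this problem). -/
theorem BX_ge (I : Type) [Fintype I] [DecidableEq I] [Nonempty I] : ∃ c : ℝ, 0 < c ∧ ∃ X₀ : ℕ, ∀ X : ℕ, X₀ ≤ X →
    c * Yh (hN I) X ≤ ((BX I (SxT (∅ : Finset Pool.Agent.Lib.MP_1a91b9_ntK.P3)) X).card : ℝ) := by
  classical
  obtain ⟨c₀, hc₀, hD⟩ := J1_Dn
  obtain ⟨C1, h1⟩ := Pool.Agent.Lib.MP_1a91b9_ntK.cheb3
  obtain ⟨C2, h2⟩ := Pool.Agent.Lib.MP_1a91b9_ntK.zt3
  obtain ⟨k, hk⟩ : ∃ k : ℕ, hN I = k + 1 := by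
    have h3 : 3 ^ 1 ≤ 3 ^ Fintype.card I := Nat.pow_le_pow_right (by norm_num) Fintype.card_pos
    refine ⟨hN I - 1, ?_⟩
    unfold hN
    omega
  obtain ⟨c, hc, hlow⟩ := Pool.Agent.Lib.MP_1a91b9_ntMN.Nh_lower hc₀ hD h1 h2 k
  refine ⟨c, hc, 1, fun X hX => ?_⟩
  have h4 : ((BX I (SxT (∅ : Finset Pool.Agent.Lib.MP_1a91b9_ntK.P3)) X).card : ℝ) =
      Pool.Agent.Lib.MP_1a91b9_ntMN.Nh Pool.Agent.Lib.MP_1a91b9_ntK.P3 (hN I) X := by
    have h5 := sum_BX (Z := SxT (∅ : Finset Pool.Agent.Lib.MP_1a91b9_ntK.P3)) (X := X)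
      (fun _ : Cb Pool.Agent.Lib.MP_1a91b9_ntK.P3 I => (1 : ℝ))
    rw [sum_const, nsmul_eq_mul, mul_one] at h5
    rw [h5]
    unfold Pool.Agent.Lib.MP_1a91b9_ntMN.Nh
    have h6 : SxT (∅ : Finset Pool.Agent.Lib.MP_1a91b9_ntK.P3) X =
        Sx Pool.Agent.Lib.MP_1a91b9_ntK.P3 X := by
      unfold SxT
      exact filter_true_of_mem fun S _ => disjoint_empty_right S
    rw [h6]
    refine sum_congr rfl fun S _ => ?_
    rw [sum_const, card_univ, Fintype.card_fun, Fintype.card_coe, J1_card, nsmul_eq_mul, mul_one]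
    push_cast
    rfl
  rw [h4, hk]
  refine le_trans (mul_le_mul_of_nonneg_left ?_ hc.le) (hlow X hX)
  unfold Yh
  rw [Nat.add_sub_cancel]
  refine mul_le_mul_of_nonneg_left ?_ (Nat.cast_nonneg _)
  exact pow_le_pow_left₀ (Real.log_natCast_nonneg X) (by linarith) k

end

end Pool.Agent.Lib.MP_1a91b9_ntMC
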