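import Pool.Agent.Lib.MP_1a91b9_ntMC.C2
import Pool.Agent.Lib.MP_1a91b9_ntCC.DCond
import Pool.Agent.Lib.MP_1a91b9_ntCC.DDich

/-!
# MP_1a91b9_nt (all the multicubic fields): the four matrices of a label for a set of primes with signs

`S1`, `S2`: the primes with the exponents `1` and `2`. `xoM`: as `xo` in `ntCC/DX`, for the symbols with the signs `e`.
-/

set_option autoImplicit false
set_option linter.unusedSectionVars false

namespace Pool.Agent.Lib.MP_1a91b9_ntMC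

open NumberField Finset Pool.Agent.Lib.MP_1a91b9_ntT Pool.Agent.Lib.MP_1a91b9_ntK
  Pool.Agent.Lib.MP_1a91b9_ntK.Da Pool.Agent.Lib.MP_1a91b9_ntK2 Pool.Agent.Lib.MP_1a91b9_ntK2.D9
  Pool.Agent.Lib.MP_1a91b9_ntN Pool.Agent.Lib.MP_1a91b9_ntN.H
open Pool.Agent.Lib.MP_1a91b9_ntCC

noncomputable section

/-! ### The matrices with signs -/

section Sg

variable {ι : Type} [DecidableEq ι]

theorem sg_lin {κ : Type} [Fintype κ] (D : Dt ι κ) (e : ι → ZMod 3) (c : κ → ZMod 3) (q : ι) :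
    (sgD D e).lin c q = e q * D.lin c q := by
  unfold Dt.lin
  rw [mul_sum]
  refine sum_congr rfl fun j _ => ?_
  show c j * (e q * D.a q j) = e q * (c j * D.a q j)
  ring

theorem sg_bd {κ E : Type} [Fintype κ] (D : Dt ι κ) (e : ι → ZMod 3) (P : κ → E → ZMod 3) (q : ι)
    (f : E) : (sgD D e).bd P q f = e q * D.bd P q f := by
  unfold Dt.bd
  rw [mul_sum]
  refine sum_congr rfl fun j _ => ?_
  show P j f * (e q * D.a q j) = e q * (P j f * D.a q j)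
  ring

variable {D : Dat3b ι} {e e' : ι → ZMod 3} {τ σ κ₀ : ZMod 3} {B Ba S : Finset ι}

theorem cJ_congr (h : ∀ p ∈ Ba, e p = e' p) : cJ e τ σ B Ba = cJ e' τ σ B Ba := by
  funext j
  rcases j with x | p
  · rfl
  · show (if (p : ι) ∈ Ba then e p else 0) = (if (p : ι) ∈ Ba then e' p else 0)
    by_cases hp : (p : ι) ∈ Ba
    · rw [if_pos hp, if_pos hp, h p hp]
    · rw [if_neg hp, if_neg hp]

theorem PJ_congr {E' : Type} [Fintype E'] [DecidableEq E'] (h : ∀ p ∈ Ba, e p = e' p) :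
    PJ e B Ba E' = PJ e' B Ba E' := by
  funext j f
  rcases f with p | u
  · rcases j with x | p'
    · rfl
    · show (if (p' : ι) = p then -e p else 0) = (if (p' : ι) = p then -e' p else 0)
      rw [h p p.2]
  · rfl

theorem RJ_congr {E' : Type} [Fintype E'] [DecidableEq E'] (h : ∀ p ∈ Ba, e p = e' p)
    (γ : Bool ⊕ B → ZMod 3) : RJ D e τ σ κ₀ B Ba E' γ = RJ D e' τ σ κ₀ B Ba E' γ := by
  funext x y
  rcases x with p | u <;> rcases y with p' | u'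
  · show (if p = p' then e p * (τ * D.a p + σ * D.b p) + e p * xB B γ p +
      ∑ l ∈ Ba.erase p, e p * e l * D.s p l else -(e p * e p' * D.s p p')) =
      (if p = p' then e' p * (τ * D.a p + σ * D.b p) + e' p * xB B γ p +
      ∑ l ∈ Ba.erase p, e' p * e' l * D.s p l else -(e' p * e' p' * D.s p p'))
    rw [h p p.2, h p' p'.2]
    have h1 : ∑ l ∈ Ba.erase (p : ι), e' p * e l * D.s p l =
        ∑ l ∈ Ba.erase (p : ι), e' p * e' l * D.s p l :=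
      sum_congr rfl fun l hl => by rw [h l (mem_of_mem_erase hl)]
    rw [h1]
  · show e p * D.a p = e' p * D.a p
    rw [h p p.2]
  · show e p' * D.a p' = e' p' * D.a p'
    rw [h p' p'.2]
  · rfl

theorem sg_SS (he : ∀ p, e' p * e' p = 1) (hBa : Ba ⊆ B) (hS : Disjoint S Ba)
    (hee : ∀ q ∈ S, e q = e' q) {q q' : ι} (hq : q ∈ S) (hq' : q' ∈ S) :
    (sgD (dtB D B) e).N (cJ e' τ σ B Ba) S ⟨q, hq⟩ ⟨q', hq'⟩ =
      e' q * (D.tw τ σ).N e' 1 (S ∪ Ba) ⟨q, mem_union_left _ hq⟩ ⟨q', mem_union_left _ hq'⟩ *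
        e' q' := by
  unfold Dt.N Dat3.N
  by_cases h : q = q'
  · subst h
    rw [if_pos rfl, if_pos rfl, sg_lin, lin_cJ hBa]
    have h1 : (S ∪ Ba).erase q = S.erase q ∪ Ba := by
      rw [erase_union_distrib, erase_eq_of_notMem fun h => disjoint_left.1 hS hq h]
    show e q * (τ * D.a q + σ * D.b q + ∑ p ∈ Ba, D.s q p * e' p) +
      ∑ l ∈ S.erase q, e q * e l * D.s q l =
      e' q * (e' q * (1 * (τ * D.a q + σ * D.b q) + ∑ l ∈ (S ∪ Ba).erase q, D.s q l * e' l)) *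
        e' q
    rw [h1, sum_union (disjoint_of_subset_left (erase_subset _ _) hS)]
    have h2 : ∑ l ∈ S.erase q, e q * e l * D.s q l =
        e' q * ∑ l ∈ S.erase q, D.s q l * e' l := by
      rw [mul_sum]
      refine sum_congr rfl fun l hl => ?_
      rw [hee q hq, hee l (mem_of_mem_erase hl)]
      ring
    rw [h2, hee q hq]
    linear_combination (-(e' q * (τ * D.a q + σ * D.b q + ∑ p ∈ Ba, D.s q p * e' p +
      ∑ l ∈ S.erase q, D.s q l * e' l))) * he q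
  · rw [if_neg fun h' => h (congrArg Subtype.val h'), if_neg fun h' => h (congrArg Subtype.val h')]
    show -(e q * e q' * D.s q q') = e' q * -D.s q q' * e' q'
    rw [hee q hq, hee q' hq']
    ring

theorem sg_BB (hs : D.Sym) (he : ∀ p, e' p * e' p = 1) (hS : Disjoint S Ba) {E' : Type}
    [Fintype E'] [DecidableEq E'] {γ : Bool ⊕ B → ZMod 3}
    (hγ : ∀ p ∈ Ba, xB B γ p = ∑ q ∈ S, e' q * D.s q p) (p p' : Ba) :
    RJ D e' τ σ κ₀ B Ba E' γ (Sum.inl p) (Sum.inl p') =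
      e' p * (D.tw τ σ).N e' 1 (S ∪ Ba) ⟨p, mem_union_right _ p.2⟩ ⟨p', mem_union_right _ p'.2⟩ *
        e' p' := by
  show (if p = p' then _ else _) = _
  unfold Dat3.N
  by_cases h : p = p'
  · subst h
    rw [if_pos rfl, if_pos rfl, hγ p p.2]
    have h0 : (p : ι) ∉ S := fun h => disjoint_left.1 hS h p.2
    have h1 : (S ∪ Ba).erase (p : ι) = S ∪ Ba.erase (p : ι) := by
      rw [erase_union_distrib, erase_eq_of_notMem h0]
    show _ = e' p * (e' p * (1 * (τ * D.a p + σ * D.b p) +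
      ∑ l ∈ (S ∪ Ba).erase (p : ι), D.s p l * e' l)) * e' p
    rw [h1, sum_union (disjoint_of_subset_right (erase_subset _ _) hS)]
    have h2 : ∑ l ∈ S, D.s p l * e' l = ∑ q ∈ S, e' q * D.s q p :=
      sum_congr rfl fun l hl => by
        rw [mul_comm, hs p l fun h' => h0 (h' ▸ hl)]
    have h3 : ∑ l ∈ Ba.erase (p : ι), e' p * e' l * D.s p l =
        e' p * ∑ l ∈ Ba.erase (p : ι), D.s p l * e' l := by
      rw [mul_sum]
      exact sum_congr rfl fun l _ => by ring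
    rw [h2, h3]
    have h4 := he p
    linear_combination (-(e' p * (τ * D.a p + σ * D.b p + ∑ q ∈ S, e' q * D.s q p +
      ∑ l ∈ Ba.erase (p : ι), D.s p l * e' l))) * h4
  · rw [if_neg h, if_neg fun h' => h (Subtype.ext (congrArg (fun z : ↥(S ∪ Ba) => (z : ι)) h'))]
    show -(e' p * e' p' * D.s p p') = e' p * -D.s p p' * e' p'
    ring

/-- The signs of the rows. -/
def sgS (e' : ι → ZMod 3) (S Ba : Finset ι) (E' : Type) : S ⊕ (Ba ⊕ E') → ZMod 3 :=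
  Sum.elim (fun q => e' q) (Sum.elim (fun p => e' p) fun _ => 1)

/-- The matrix without the border, up to the signs. -/
theorem sg_unbordered (hs : D.Sym) (he : ∀ p, e' p * e' p = 1) (hee : ∀ q ∈ S, e q = e' q)
    (hBa : Ba ⊆ B) (hS : Disjoint S Ba) (E' : Type) [Fintype E'] [DecidableEq E'] [IsEmpty E']
    {γ : Bool ⊕ B → ZMod 3} (hγ : ∀ p ∈ Ba, xB B γ p = ∑ q ∈ S, e' q * D.s q p) :
    (sgD (dtB D B) e).kB (cJ e' τ σ B Ba) (PJ e' B Ba E') (RJ D e' τ σ κ₀ B Ba E' γ) S =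
      (D.tw τ σ).kc e' 1 (S ∪ Ba) := by
  refine card_ker_eq _ _ (phU hS E') (sgS e' S Ba E') ?_ ?_
  · rintro (q | p | u)
    · exact he q
    · exact he p
    · exact one_mul 1
  · rintro (⟨q, hq⟩ | ⟨p, hp⟩ | u) (⟨q', hq'⟩ | ⟨p', hp'⟩ | u')
    · show (sgD (dtB D B) e).N (cJ e' τ σ B Ba) S ⟨q, hq⟩ ⟨q', hq'⟩ =
        e' q * (D.tw τ σ).N e' 1 (S ∪ Ba)
        (Equiv.Finset.union S Ba hS (Sum.inl ⟨q, hq⟩))
        (Equiv.Finset.union S Ba hS (Sum.inl ⟨q', hq'⟩)) * e' q'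
      rw [sg_SS he hBa hS hee, Equiv.Finset.union_inl, Equiv.Finset.union_inl]
    · show (sgD (dtB D B) e).bd (PJ e' B Ba E') q (Sum.inl ⟨p', hp'⟩) =
        e' q * (D.tw τ σ).N e' 1 (S ∪ Ba)
        (Equiv.Finset.union S Ba hS (Sum.inl ⟨q, hq⟩))
        (Equiv.Finset.union S Ba hS (Sum.inr ⟨p', hp'⟩)) * e' p'
      rw [sg_bd, bd_inl hBa, Equiv.Finset.union_inl, Equiv.Finset.union_inr, N_SB hS hq hp',
        hee q hq]
      ring
    · exact (IsEmpty.false u').elim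
    · show (sgD (dtB D B) e).bd (PJ e' B Ba E') q' (Sum.inl ⟨p, hp⟩) =
        e' p * (D.tw τ σ).N e' 1 (S ∪ Ba)
        (Equiv.Finset.union S Ba hS (Sum.inr ⟨p, hp⟩))
        (Equiv.Finset.union S Ba hS (Sum.inl ⟨q', hq'⟩)) * e' q'
      rw [sg_bd, bd_inl hBa, Equiv.Finset.union_inl, Equiv.Finset.union_inr, N_BS hS hq' hp,
        hs p q' fun h => disjoint_left.1 hS hq' (h ▸ hp), hee q' hq']
      ring
    · show RJ D e' τ σ κ₀ B Ba E' γ (Sum.inl ⟨p, hp⟩) (Sum.inl ⟨p', hp'⟩) =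
        e' p * (D.tw τ σ).N e' 1 (S ∪ Ba)
        (Equiv.Finset.union S Ba hS (Sum.inr ⟨p, hp⟩))
        (Equiv.Finset.union S Ba hS (Sum.inr ⟨p', hp'⟩)) * e' p'
      rw [sg_BB hs he hS hγ, Equiv.Finset.union_inr, Equiv.Finset.union_inr]
    · exact (IsEmpty.false u').elim
    · exact (IsEmpty.false u).elim
    · exact (IsEmpty.false u).elim
    · exact (IsEmpty.false u).elim

/-- The bordered matrix, up to the signs. -/
theorem sg_bordered (hs : D.Sym) (he : ∀ p, e' p * e' p = 1) (hee : ∀ q ∈ S, e q = e' q)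
    (hBa : Ba ⊆ B) (hS : Disjoint S Ba) (E' : Type) [Fintype E'] [DecidableEq E'] [Unique E']
    {γ : Bool ⊕ B → ZMod 3} (hγ : ∀ p ∈ Ba, xB B γ p = ∑ q ∈ S, e' q * D.s q p) :
    (sgD (dtB D B) e).kB (cJ e' τ σ B Ba) (PJ e' B Ba E') (RJ D e' τ σ κ₀ B Ba E' γ) S =
      D.kB e' τ σ κ₀ (S ∪ Ba) := by
  refine card_ker_eq _ _ (phB hS E') (sgS e' S Ba E') ?_ ?_
  · rintro (q | p | u)
    · exact he q
    · exact he p
    · exact one_mul 1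
  · rintro (⟨q, hq⟩ | ⟨p, hp⟩ | u) (⟨q', hq'⟩ | ⟨p', hp'⟩ | u')
    · show (sgD (dtB D B) e).N (cJ e' τ σ B Ba) S ⟨q, hq⟩ ⟨q', hq'⟩ =
        e' q * (D.tw τ σ).N e' 1 (S ∪ Ba)
        (Equiv.Finset.union S Ba hS (Sum.inl ⟨q, hq⟩))
        (Equiv.Finset.union S Ba hS (Sum.inl ⟨q', hq'⟩)) * e' q'
      rw [sg_SS he hBa hS hee, Equiv.Finset.union_inl, Equiv.Finset.union_inl]
    · show (sgD (dtB D B) e).bd (PJ e' B Ba E') q (Sum.inl ⟨p', hp'⟩) =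
        e' q * (D.tw τ σ).N e' 1 (S ∪ Ba)
        (Equiv.Finset.union S Ba hS (Sum.inl ⟨q, hq⟩))
        (Equiv.Finset.union S Ba hS (Sum.inr ⟨p', hp'⟩)) * e' p'
      rw [sg_bd, bd_inl hBa, Equiv.Finset.union_inl, Equiv.Finset.union_inr, N_SB hS hq hp',
        hee q hq]
      ring
    · show (sgD (dtB D B) e).bd (PJ e' B Ba E') q (Sum.inr u') =
        e' q * D.a ((Equiv.Finset.union S Ba hS (Sum.inl ⟨q, hq⟩) : ↥(S ∪ Ba)) : ι) * 1
      rw [sg_bd, bd_inr, Equiv.Finset.union_inl, mul_one, hee q hq]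
    · show (sgD (dtB D B) e).bd (PJ e' B Ba E') q' (Sum.inl ⟨p, hp⟩) =
        e' p * (D.tw τ σ).N e' 1 (S ∪ Ba)
        (Equiv.Finset.union S Ba hS (Sum.inr ⟨p, hp⟩))
        (Equiv.Finset.union S Ba hS (Sum.inl ⟨q', hq'⟩)) * e' q'
      rw [sg_bd, bd_inl hBa, Equiv.Finset.union_inl, Equiv.Finset.union_inr, N_BS hS hq' hp,
        hs p q' fun h => disjoint_left.1 hS hq' (h ▸ hp), hee q' hq']
      ring
    · show RJ D e' τ σ κ₀ B Ba E' γ (Sum.inl ⟨p, hp⟩) (Sum.inl ⟨p', hp'⟩) =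
        e' p * (D.tw τ σ).N e' 1 (S ∪ Ba)
        (Equiv.Finset.union S Ba hS (Sum.inr ⟨p, hp⟩))
        (Equiv.Finset.union S Ba hS (Sum.inr ⟨p', hp'⟩)) * e' p'
      rw [sg_BB hs he hS hγ, Equiv.Finset.union_inr, Equiv.Finset.union_inr]
    · show e' p * D.a p =
        e' p * D.a ((Equiv.Finset.union S Ba hS (Sum.inr ⟨p, hp⟩) : ↥(S ∪ Ba)) : ι) * 1
      rw [Equiv.Finset.union_inr, mul_one]
    · show (sgD (dtB D B) e).bd (PJ e' B Ba E') q' (Sum.inr u) =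
        1 * D.a ((Equiv.Finset.union S Ba hS (Sum.inl ⟨q', hq'⟩) : ↥(S ∪ Ba)) : ι) * e' q'
      rw [sg_bd, bd_inr, Equiv.Finset.union_inl, hee q' hq']
      ring
    · show e' p' * D.a p' =
        1 * D.a ((Equiv.Finset.union S Ba hS (Sum.inr ⟨p', hp'⟩) : ↥(S ∪ Ba)) : ι) * e' p'
      rw [Equiv.Finset.union_inr]
      ring
    · show κ₀ = 1 * κ₀ * 1
      ring

end Sg

/-- The primes `S1`, `S2` in the fine class `γ` (the class of the product of the primes of `S1` and of the squares of the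
primes of `S2`) and a label. -/
structure CxM (P T B : Finset P3) (γ : Bool ⊕ B → ZMod 3) (S1 S2 : Finset P3) : Prop where
  hB : P ∪ T ⊆ B
  hPT : Disjoint P T
  hS : Disjoint S1 S2
  hSB : Disjoint (S1 ∪ S2) B
  hγS : ∀ j, ∑ q ∈ S1, (dtB d3b B).a q j - ∑ q ∈ S2, (dtB d3b B).a q j = γ j
  hne : (S1 ∪ S2).Nonempty

open Classical in
/-- The size of the kernel of the matrix `ρ` of the label, divided by `3` if there is a trivial vector. -/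
def xoM (k j : Fin 3) (P T B : Finset P3) (γ : Bool ⊕ B → ZMod 3) (ρ : Option (ZMod 3)) (e : P3 → ZMod 3)
    (S : Finset P3) : ℕ :=
  if Triv (cO k j P T B) (PO P T B ρ) (RO k j P T B γ ρ) γ then
    kz (sgD (dtB d3b B) e) (cO k j P T B) (PO P T B ρ) (RO k j P T B γ ρ) S
  else (sgD (dtB d3b B) e).kB (cO k j P T B) (PO P T B ρ) (RO k j P T B γ ρ) S

variable {P T B : Finset P3} {γ : Bool ⊕ B → ZMod 3} {S1 S2 : Finset P3} {e : P3 → ZMod 3}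

/-! ### The signs and the classes -/

theorem CxM.hSb (h : CxM P T B γ S1 S2) : Disjoint (S1 ∪ S2) (P ∪ T) :=
  disjoint_of_subset_right h.hB h.hSB

theorem CxM.n2 (h : CxM P T B γ S1 S2) {p : P3} (hp : p ∈ P ∪ T) : p ∉ S2 := fun h2 =>
  disjoint_left.1 h.hSb (mem_union_right _ h2) hp

theorem CxM.nT (h : CxM P T B γ S1 S2) {q : P3} (hq : q ∈ S1 ∪ S2) : q ∉ T := fun h2 =>
  disjoint_left.1 h.hSb hq (mem_union_right _ h2)

theorem CxM.e1 (h : CxM P T B γ S1 S2) {q : P3} (hq : q ∈ S1) : eT (S2 ∪ T) q = 1 :=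
  if_neg fun h1 => (mem_union.1 h1).elim (fun h2 => disjoint_left.1 h.hS hq h2)
    (h.nT (mem_union_left _ hq))

theorem CxM.e2 (_h : CxM P T B γ S1 S2) {q : P3} (hq : q ∈ S2) : eT (S2 ∪ T) q = -1 :=
  if_pos (mem_union_left _ hq)

theorem CxM.hee (h : CxM P T B γ S1 S2) (h1 : ∀ q ∈ S1, e q = 1) (h2 : ∀ q ∈ S2, e q = 2) :
    ∀ q ∈ S1 ∪ S2, e q = eT (S2 ∪ T) q := by
  intro q hq
  rcases mem_union.1 hq with h3 | h3
  · rw [h1 q h3, h.e1 h3]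
  · rw [h2 q h3, h.e2 h3]
    rfl

theorem CxM.hlab (h : CxM P T B γ S1 S2) : ∀ p ∈ P ∪ T, eT T p = eT (S2 ∪ T) p := by
  intro p hp
  unfold eT
  by_cases hT : p ∈ T
  · rw [if_pos hT, if_pos (mem_union_right _ hT)]
  · rw [if_neg hT, if_neg fun h1 => (mem_union.1 h1).elim (h.n2 hp) hT]

theorem CxM.hsum (h : CxM P T B γ S1 S2) (f : P3 → ZMod 3) :
    ∑ q ∈ S1 ∪ S2, eT (S2 ∪ T) q * f q = ∑ q ∈ S1, f q - ∑ q ∈ S2, f q := by
  rw [sum_union h.hS, sub_eq_add_neg, ← sum_neg_distrib]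
  congr 1
  · exact sum_congr rfl fun q hq => by rw [h.e1 hq, one_mul]
  · exact sum_congr rfl fun q hq => by rw [h.e2 hq, neg_mul, one_mul]

theorem CxM.hγ (h : CxM P T B γ S1 S2) :
    ∀ p ∈ P ∪ T, xB B γ p = ∑ q ∈ S1 ∪ S2, eT (S2 ∪ T) q * d3b.s q p := by
  intro p hp
  rw [xB, dif_pos (h.hB hp), h.hsum fun q => d3b.s q p, ← h.hγS]
  rfl

theorem CxM.hα (h : CxM P T B γ S1 S2) :
    ∑ q ∈ (S1 ∪ S2) ∪ (P ∪ T), eT (S2 ∪ T) q * d3b.a q = αO P T B γ := by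
  rw [sum_union h.hSb, αO, h.hsum fun q => d3b.a q]
  congr 1
  · rw [← h.hγS]
    rfl
  · exact sum_congr rfl fun q hq => by rw [h.hlab q hq]

theorem CxM.hβ (h : CxM P T B γ S1 S2) :
    ∑ q ∈ (S1 ∪ S2) ∪ (P ∪ T), eT (S2 ∪ T) q * d3b.b q = βO P T B γ := by
  rw [sum_union h.hSb, βO, h.hsum fun q => d3b.b q]
  congr 1
  · rw [← h.hγS]
    rfl
  · exact sum_congr rfl fun q hq => by rw [h.hlab q hq]

/-! ### The sizes of the kernels of the four matrices -/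

theorem CxM.kB_none (h : CxM P T B γ S1 S2) (h1 : ∀ q ∈ S1, e q = 1) (h2 : ∀ q ∈ S2, e q = 2)
    (k j : Fin 3) :
    (sgD (dtB d3b B) e).kB (cO k j P T B) (PO P T B none) (RO k j P T B γ none) (S1 ∪ S2) =
      (d3b.tw (k : ZMod 3) (j : ZMod 3)).kc (eT (S2 ∪ T)) 1 ((S1 ∪ S2) ∪ (P ∪ T)) := by
  have hE : IsEmpty (Bo none) := ⟨fun u => by simpa using u.2⟩
  show (sgD (dtB d3b B) e).kB (cJ (eT T) (k : ZMod 3) (j : ZMod 3) B (P ∪ T))
    (PJ (eT T) B (P ∪ T) (Bo none))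
    (RJ d3b (eT T) (k : ZMod 3) (j : ZMod 3) (Option.getD none 0) B (P ∪ T) (Bo none) γ)
    (S1 ∪ S2) = _
  rw [cJ_congr h.hlab, PJ_congr h.hlab, RJ_congr h.hlab]
  exact sg_unbordered d3b_OK.ok.sym (eT_mul _) (h.hee h1 h2) h.hB h.hSb (Bo none) h.hγ

theorem CxM.kB_some (h : CxM P T B γ S1 S2) (h1 : ∀ q ∈ S1, e q = 1) (h2 : ∀ q ∈ S2, e q = 2)
    (k j : Fin 3) (κ : ZMod 3) :
    (sgD (dtB d3b B) e).kB (cO k j P T B) (PO P T B (some κ)) (RO k j P T B γ (some κ))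
      (S1 ∪ S2) =
      d3b.kB (eT (S2 ∪ T)) (k : ZMod 3) (j : ZMod 3) κ ((S1 ∪ S2) ∪ (P ∪ T)) := by
  let _ : Unique (Bo (some κ)) := ⟨⟨⟨(), rfl⟩⟩, fun u => Subsingleton.elim _ _⟩
  show (sgD (dtB d3b B) e).kB (cJ (eT T) (k : ZMod 3) (j : ZMod 3) B (P ∪ T))
    (PJ (eT T) B (P ∪ T) (Bo (some κ)))
    (RJ d3b (eT T) (k : ZMod 3) (j : ZMod 3) κ B (P ∪ T) (Bo (some κ)) γ)
    (S1 ∪ S2) = _
  rw [cJ_congr h.hlab, PJ_congr h.hlab, RJ_congr h.hlab]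
  exact sg_bordered d3b_OK.ok.sym (eT_mul _) (h.hee h1 h2) h.hB h.hSb (Bo (some κ)) h.hγ

theorem xoM_nt {k j : Fin 3} {ρ : Option (ZMod 3)} {S : Finset P3}
    (ht : ¬ Triv (cO k j P T B) (PO P T B ρ) (RO k j P T B γ ρ) γ) :
    xoM k j P T B γ ρ e S =
      (sgD (dtB d3b B) e).kB (cO k j P T B) (PO P T B ρ) (RO k j P T B γ ρ) S :=
  if_neg ht

theorem CxM.xoM_t (h : CxM P T B γ S1 S2) (h1 : ∀ q ∈ S1, e q = 1) (h2 : ∀ q ∈ S2, e q = 2)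
    {k j : Fin 3} {ρ : Option (ZMod 3)}
    (ht : Triv (cO k j P T B) (PO P T B ρ) (RO k j P T B γ ρ) γ) :
    (sgD (dtB d3b B) e).kB (cO k j P T B) (PO P T B ρ) (RO k j P T B γ ρ) (S1 ∪ S2) =
      3 * xoM k j P T B γ ρ e (S1 ∪ S2) := by
  have h3 : xoM k j P T B γ ρ e (S1 ∪ S2) = kz (sgD (dtB d3b B) e) (cO k j P T B) (PO P T B ρ)
    (RO k j P T B γ ρ) (S1 ∪ S2) := if_pos ht
  rw [h3]
  obtain ⟨γ', h4, h5⟩ := ht
  refine kz_mul _ (nonempty_iff_ne_empty.1 h.hne) h4 fun f => ?_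
  have h6 : ∀ i, ∑ q ∈ S1 ∪ S2, (sgD (dtB d3b B) e).a q i = γ i := by
    intro i
    rw [← h.hγS, ← h.hsum fun q => (dtB d3b B).a q i]
    refine sum_congr rfl fun q hq => ?_
    show e q * (dtB d3b B).a q i = _
    rw [h.hee h1 h2 q hq]
  simp only [h6]
  exact h5 f

/-- `j ≠ 0`, no border -/
theorem CxM.xoM_none_j (h : CxM P T B γ S1 S2) (h1 : ∀ q ∈ S1, e q = 1) (h2 : ∀ q ∈ S2, e q = 2)
    (k : Fin 3) {j : Fin 3} (hj : (j : ZMod 3) ≠ 0) :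
    xoM k j P T B γ none e (S1 ∪ S2) =
      (d3b.tw (k : ZMod 3) (j : ZMod 3)).kc (eT (S2 ∪ T)) 1 ((S1 ∪ S2) ∪ (P ∪ T)) := by
  rw [← h.kB_none h1 h2]
  exact xoM_nt (not_triv_s hj _ γ)

/-- `j ≠ 0`, with border -/
theorem CxM.xoM_some_j (h : CxM P T B γ S1 S2) (h1 : ∀ q ∈ S1, e q = 1) (h2 : ∀ q ∈ S2, e q = 2)
    (k : Fin 3) {j : Fin 3} (hj : (j : ZMod 3) ≠ 0) (κ : ZMod 3) :
    xoM k j P T B γ (some κ) e (S1 ∪ S2) =
      d3b.kB (eT (S2 ∪ T)) (k : ZMod 3) (j : ZMod 3) κ ((S1 ∪ S2) ∪ (P ∪ T)) := by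
  rw [← h.kB_some h1 h2]
  exact xoM_nt (not_triv_s hj _ γ)

/-- `k ≠ 0`, no border -/
theorem CxM.xoM_none_k (h : CxM P T B γ S1 S2) (h1 : ∀ q ∈ S1, e q = 1) (h2 : ∀ q ∈ S2, e q = 2)
    {k : Fin 3} (hk : (k : ZMod 3) ≠ 0) (j : Fin 3) :
    xoM k j P T B γ none e (S1 ∪ S2) =
      (d3b.tw (k : ZMod 3) (j : ZMod 3)).kc (eT (S2 ∪ T)) 1 ((S1 ∪ S2) ∪ (P ∪ T)) := by
  rw [← h.kB_none h1 h2]
  have hE : IsEmpty (Bo none) := ⟨fun u => by simpa using u.2⟩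
  exact xoM_nt (not_triv_t hk hE _ γ)

/-- `k = j = 0`, no border -/
theorem CxM.xoM_none_0 (h : CxM P T B γ S1 S2) (h1 : ∀ q ∈ S1, e q = 1) (h2 : ∀ q ∈ S2, e q = 2) :
    (d3b.tw 0 0).kc (eT (S2 ∪ T)) 1 ((S1 ∪ S2) ∪ (P ∪ T)) =
      3 * xoM 0 0 P T B γ none e (S1 ∪ S2) := by
  have hE : IsEmpty (Bo none) := ⟨fun u => by simpa using u.2⟩
  have h3 : Triv (cO 0 0 P T B) (PO P T B none) (RO 0 0 P T B γ none) γ :=
    triv_zero h.hB fun u => (hE.false u).elim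
  exact (h.kB_none h1 h2 0 0).symm.trans (h.xoM_t h1 h2 h3)

/-- `k = j = 0`, `α = 0`, with border -/
theorem CxM.xoM_some_0 (h : CxM P T B γ S1 S2) (h1 : ∀ q ∈ S1, e q = 1) (h2 : ∀ q ∈ S2, e q = 2)
    (hα : αO P T B γ = 0) (κ : ZMod 3) :
    d3b.kB (eT (S2 ∪ T)) 0 0 κ ((S1 ∪ S2) ∪ (P ∪ T)) =
      3 * xoM 0 0 P T B γ (some κ) e (S1 ∪ S2) := by
  have h3 : Triv (cO 0 0 P T B) (PO P T B (some κ)) (RO 0 0 P T B γ (some κ)) γ :=
    triv_zero h.hB fun _ => hα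
  exact (h.kB_some h1 h2 0 0 κ).symm.trans (h.xoM_t h1 h2 h3)

/-! ### The conditions on the matrices -/

theorem CxM.hd (h : CxM P T B γ S1 S2) : Disjoint (S1 ∪ P) (S2 ∪ T) := by
  rw [disjoint_left]
  intro q hq hq'
  rcases mem_union.1 hq with h1 | h1
  · rcases mem_union.1 hq' with h2 | h2
    · exact disjoint_left.1 h.hS h1 h2
    · exact h.nT (mem_union_left _ h1) h2
  · rcases mem_union.1 hq' with h2 | h2
    · exact h.n2 (mem_union_left _ h1) h2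
    · exact disjoint_left.1 h.hPT h1 h2

theorem CxM.hU (_h : CxM P T B γ S1 S2) : (S1 ∪ P) ∪ (S2 ∪ T) = (S1 ∪ S2) ∪ (P ∪ T) := by
  ext q
  simp only [mem_union]
  tauto

theorem CxM.hU' (_h : CxM P T B γ S1 S2) : (S2 ∪ T) ∪ (S1 ∪ P) = (S1 ∪ S2) ∪ (P ∪ T) := by
  ext q
  simp only [mem_union]
  tauto

theorem CxM.hα' (h : CxM P T B γ S1 S2) : cl3 (DD3 (S1 ∪ P) * DD3 (S2 ∪ T) ^ 2) = αO P T B γ := by
  rw [← cls_a h.hd, ← h.hα]
  unfold Dat3b.cA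
  rw [h.hU]

theorem CxM.hβ' (h : CxM P T B γ S1 S2) : cn3 (DD3 (S1 ∪ P) * DD3 (S2 ∪ T) ^ 2) = βO P T B γ := by
  rw [← cls_b h.hd, ← h.hβ]
  unfold Dat3b.cB
  rw [h.hU]

theorem CxM.he (h : CxM P T B γ S1 S2) :
    ∀ q ∈ S1 ∪ S2 ∪ (P ∪ T), eT (S1 ∪ P) q = -eT (S2 ∪ T) q := by
  intro q hq
  by_cases hT : q ∈ S2 ∪ T
  · have h1 : q ∉ S1 ∪ P := fun h2 => disjoint_left.1 h.hd h2 hT
    rw [eT, eT, if_neg h1, if_pos hT, neg_neg]
  · have h1 : q ∈ S1 ∪ P := by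
      rw [← h.hU] at hq
      exact (mem_union.1 hq).resolve_right hT
    rw [eT, eT, if_pos h1, if_neg hT]

theorem CxM.hα2 (h : CxM P T B γ S1 S2) : cl3 (DD3 (S2 ∪ T) * DD3 (S1 ∪ P) ^ 2) = -αO P T B γ := by
  rw [← cls_a h.hd.symm, ← h.hα]
  unfold Dat3b.cA
  rw [h.hU', ← sum_neg_distrib]
  exact sum_congr rfl fun q hq => by rw [h.he q hq, neg_mul]

theorem CxM.hβ2 (h : CxM P T B γ S1 S2) : cn3 (DD3 (S2 ∪ T) * DD3 (S1 ∪ P) ^ 2) = -βO P T B γ := by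
  rw [← cls_b h.hd.symm, ← h.hβ]
  unfold Dat3b.cB
  rw [h.hU', ← sum_neg_distrib]
  exact sum_congr rfl fun q hq => by rw [h.he q hq, neg_mul]

theorem CxM.hne' (h : CxM P T B γ S1 S2) : (S1 ∪ S2 ∪ (P ∪ T)).Nonempty := h.hne.mono subset_union_left

/-- **`D` is good** if the matrix `r0` has the minimal kernel. -/
theorem gd_x0M (h : CxM P T B γ S1 S2) (h1 : ∀ q ∈ S1, e q = 1) (h2 : ∀ q ∈ S2, e q = 2) {k j : Fin 3}
    (hx : xoM k j P T B γ (r0 k j (αO P T B γ) (βO P T B γ)) e (S1 ∪ S2) = 1) :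
    Gd9 k j (S1 ∪ P) (S2 ∪ T) := by
  rw [Gd9, h.hα', h.hβ']
  rcases fin3_cases j with hj | hj | hj
  · subst hj
    by_cases hk : k = 0
    · subst hk
      by_cases hα : αO P T B γ = 0
      · have hr : r0 0 0 (αO P T B γ) (βO P T B γ) = some (βO P T B γ) := by
          rw [r0, if_neg f3_01, if_pos ⟨rfl, rfl, hα⟩]
        rw [hr] at hx
        have h1 := h.xoM_some_0 h1 h2 hα (βO P T B γ)
        rw [hx] at h1
        refine Or.inr (Or.inl ⟨rfl, rfl, hα, ?_, ?_⟩)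
        · rw [h.hU]
          exact h.hne'
        · show d3b.kB (eT (S2 ∪ T)) 0 0 (βO P T B γ) (S1 ∪ P ∪ (S2 ∪ T)) = 3
          rw [h.hU]
          exact h1
      · have hr : r0 0 0 (αO P T B γ) (βO P T B γ) = none := by
          rw [r0, if_neg f3_01, if_neg fun h => hα h.2.2]
        rw [hr] at hx
        have h1 := h.xoM_none_0 h1 h2
        rw [hx] at h1
        refine Or.inl ⟨rfl, Or.inr ⟨rfl, ?_, ?_⟩⟩
        · rw [h.hU]
          have h2 : ∑ q ∈ S1 ∪ S2 ∪ (P ∪ T), eT (S2 ∪ T) q * d3.a q = αO P T B γ := h.hα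
          rw [h2]
          exact hα
        · rw [h.hU, ← d3_kc 0 (eT (S2 ∪ T)) (S1 ∪ S2 ∪ (P ∪ T))]
          exact h1
    · have hr : r0 k 0 (αO P T B γ) (βO P T B γ) = none := by
        rw [r0, if_neg f3_01, if_neg fun h => hk h.2.1]
      rw [hr, h.xoM_none_k h1 h2 hk] at hx
      refine Or.inl ⟨rfl, Or.inl ⟨hk, ?_⟩⟩
      have h2 := det_of_ker _ hx
      have h3 := N_tw (k : ZMod 3) (eT (S2 ∪ T)) (S1 ∪ S2 ∪ (P ∪ T))
      rw [h.hU, ← h3]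
      exact h2
  · subst hj
    have hr : r0 k 1 (αO P T B γ) (βO P T B γ) = some (k : ZMod 3) := if_pos rfl
    rw [hr] at hx
    refine Or.inr (Or.inr (Or.inl ⟨rfl, ?_⟩))
    have h1 : d3b.kB (eT (S2 ∪ T)) (k : ZMod 3) 1 (k : ZMod 3) (S1 ∪ S2 ∪ (P ∪ T)) = 1 :=
      (h.xoM_some_j h1 h2 k (j := 1) z3_one (k : ZMod 3)).symm.trans hx
    have h2 := det_of_ker _ h1
    show (d3b.NB (eT (S2 ∪ T)) (k : ZMod 3) 1 (k : ZMod 3) (S1 ∪ P ∪ (S2 ∪ T))).det ≠ 0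
    rw [h.hU]
    exact h2
  · subst hj
    have hr : r0 k 2 (αO P T B γ) (βO P T B γ) = none := by
      rw [r0, if_neg f3_21, if_neg fun h => f3_20 h.1]
    rw [hr] at hx
    refine Or.inr (Or.inr (Or.inr ⟨rfl, ?_⟩))
    have h1 : (d3b.tw (k : ZMod 3) 2).kc (eT (S2 ∪ T)) 1 (S1 ∪ S2 ∪ (P ∪ T)) = 1 :=
      (h.xoM_none_j h1 h2 k (j := 2) z3_two).symm.trans hx
    have h2 := det_of_ker _ h1
    show ((d3b.tw (k : ZMod 3) 2).N (eT (S2 ∪ T)) 1 (S1 ∪ P ∪ (S2 ∪ T))).det ≠ 0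
    rw [h.hU]
    exact h2

/-- **`D ^ 2` is good** if the matrix `r1` has the minimal kernel. -/
theorem gd_x1M (h : CxM P T B γ S1 S2) (h1 : ∀ q ∈ S1, e q = 1) (h2 : ∀ q ∈ S2, e q = 2) {k j : Fin 3}
    (hx : xoM k j P T B γ (r1 k j (αO P T B γ) (βO P T B γ)) e (S1 ∪ S2) = 1) :
    Gd9 (-k) (-j) (S2 ∪ T) (S1 ∪ P) := by
  rw [Gd9, h.hα2, h.hβ2]
  rcases fin3_cases j with hj | hj | hj
  · subst hj
    by_cases hk : k = 0
    · subst hk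
      by_cases hα : αO P T B γ = 0
      · have hr : r1 0 0 (αO P T B γ) (βO P T B γ) = some (-βO P T B γ) := by
          rw [r1, if_neg f3_20.symm, if_pos ⟨rfl, rfl, hα⟩]
        rw [hr] at hx
        have h1 := h.xoM_some_0 h1 h2 hα (-βO P T B γ)
        rw [hx] at h1
        refine Or.inr (Or.inl ⟨f3_neg0, f3_neg0, ?_, ?_, ?_⟩)
        · show -αO P T B γ = 0
          rw [hα, neg_zero]
        · rw [h.hU']
          exact h.hne'
        · show d3b.kB (eT (S1 ∪ P)) 0 0 (-βO P T B γ) (S2 ∪ T ∪ (S1 ∪ P)) = 3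
          rw [h.hU', kB_neg h.he (neg_zero (G := ZMod 3)).symm (neg_zero (G := ZMod 3)).symm]
          exact h1
      · have hr : r1 0 0 (αO P T B γ) (βO P T B γ) = none := by
          rw [r1, if_neg f3_20.symm, if_neg fun h => hα h.2.2]
        rw [hr] at hx
        have h1 := h.xoM_none_0 h1 h2
        rw [hx] at h1
        refine Or.inl ⟨f3_neg0, Or.inr ⟨f3_neg0, ?_, ?_⟩⟩
        · rw [h.hU']
          have h2 : ∑ q ∈ S1 ∪ S2 ∪ (P ∪ T), eT (S1 ∪ P) q * d3.a q = -αO P T B γ := by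
            rw [← h.hα, ← sum_neg_distrib]
            exact sum_congr rfl fun q hq => by
              rw [h.he q hq, neg_mul]
              rfl
          rw [h2]
          exact neg_ne_zero.2 hα
        · rw [h.hU', ← d3_kc 0 (eT (S1 ∪ P)) (S1 ∪ S2 ∪ (P ∪ T)),
            kc_neg h.he (neg_zero (G := ZMod 3)).symm (neg_zero (G := ZMod 3)).symm]
          exact h1
    · have hr : r1 k 0 (αO P T B γ) (βO P T B γ) = none := by
        rw [r1, if_neg f3_20.symm, if_neg fun h => hk h.2.1]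
      rw [hr, h.xoM_none_k h1 h2 hk] at hx
      refine Or.inl ⟨f3_neg0, Or.inl ⟨f3_neg_ne k hk, ?_⟩⟩
      have h2 := det_of_ker _ hx
      have h3 := N_tw (-(k : ZMod 3)) (eT (S1 ∪ P)) (S1 ∪ S2 ∪ (P ∪ T))
      have h4 := N_neg (R := S1 ∪ S2 ∪ (P ∪ T)) h.he (τ := (k : ZMod 3)) (σ := 0) rfl
        (neg_zero (G := ZMod 3)).symm
      show (d3.N (eT (S1 ∪ P)) (-(k : ZMod 3)) (S2 ∪ T ∪ (S1 ∪ P))).det ≠ 0
      rw [h.hU']
      exact fun h5 => h2 ((congrArg Matrix.det (h4.symm.trans h3)).trans h5)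
  · subst hj
    have hr : r1 k 1 (αO P T B γ) (βO P T B γ) = none := by
      rw [r1, if_neg f3_21.symm, if_neg fun h => f3_01.symm h.1]
    rw [hr] at hx
    refine Or.inr (Or.inr (Or.inr ⟨f3_neg1, ?_⟩))
    have h1 : (d3b.tw (k : ZMod 3) 1).kc (eT (S2 ∪ T)) 1 (S1 ∪ S2 ∪ (P ∪ T)) = 1 :=
      (h.xoM_none_j h1 h2 k (j := 1) z3_one).symm.trans hx
    have h2 := det_of_ker _ h1
    have h4 := N_neg (R := S1 ∪ S2 ∪ (P ∪ T)) h.he (τ := (k : ZMod 3)) (σ := 1)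
      (τ' := -(k : ZMod 3)) (σ' := 2) rfl (by decide)
    show ((d3b.tw (-(k : ZMod 3)) 2).N (eT (S1 ∪ P)) 1 (S2 ∪ T ∪ (S1 ∪ P))).det ≠ 0
    rw [h.hU']
    exact fun h5 => h2 ((congrArg Matrix.det h4.symm).trans h5)
  · subst hj
    have hr : r1 k 2 (αO P T B γ) (βO P T B γ) = some (-(k : ZMod 3)) := if_pos rfl
    rw [hr] at hx
    refine Or.inr (Or.inr (Or.inl ⟨f3_neg2, ?_⟩))
    have h1 : d3b.kB (eT (S2 ∪ T)) (k : ZMod 3) 2 (-(k : ZMod 3)) (S1 ∪ S2 ∪ (P ∪ T)) = 1 :=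
      (h.xoM_some_j h1 h2 k (j := 2) z3_two (-(k : ZMod 3))).symm.trans hx
    have h2 := det_of_ker _ h1
    have h4 := NB_neg (R := S1 ∪ S2 ∪ (P ∪ T)) h.he (τ := (k : ZMod 3)) (σ := 2)
      (τ' := -(k : ZMod 3)) (σ' := 1) rfl (by decide) (-(k : ZMod 3))
    show (d3b.NB (eT (S1 ∪ P)) (-(k : ZMod 3)) 1 (-(k : ZMod 3)) (S2 ∪ T ∪ (S1 ∪ P))).det ≠ 0
    rw [h.hU']
    exact fun h5 => h2 ((congrArg Matrix.det h4.symm).trans h5)


/-! ### The dichotomy -/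

/-- **The dichotomy.** -/
theorem dich_xoM (h : CxM P T B γ S1 S2) (h1 : ∀ q ∈ S1, e q = 1) (h2 : ∀ q ∈ S2, e q = 2) {k j : Fin 3}
    (hc : j ≠ 0 ∨ (j = 0 ∧ k = 0 ∧ αO P T B γ = 0)) :
    Dich fun ρ => xoM k j P T B γ ρ e (S1 ∪ S2) = 1 := by
  have hs : d3b.Sym := d3b_OK.ok.sym
  by_cases hj : j = 0
  · obtain ⟨-, hk, hα⟩ := hc.resolve_left fun h => h hj
    subst hj hk
    have he : ∀ q, eT (S2 ∪ T) q * eT (S2 ∪ T) q = 1 := eT_mul (S2 ∪ T)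
    have hM := N_mul_e (R := S1 ∪ S2 ∪ (P ∪ T)) he
    have ha : vA (S1 ∪ S2 ∪ (P ∪ T)) ⬝ᵥ vE (eT (S2 ∪ T)) (S1 ∪ S2 ∪ (P ∪ T)) = 0 := by
      show ∑ i : ↥(S1 ∪ S2 ∪ (P ∪ T)), d3b.a i * eT (S2 ∪ T) i = 0
      rw [sum_coe_sort (S1 ∪ S2 ∪ (P ∪ T)) fun q => d3b.a q * eT (S2 ∪ T) q]
      rw [← hα, ← h.hα]
      exact sum_congr rfl fun q _ => mul_comm _ _
    have hR : (S1 ∪ S2 ∪ (P ∪ T)).Nonempty := h.hne.mono subset_union_left
    refine Dich.congr (fun ρ => ?_) (db_lin _ (N_symm (e := eT (S2 ∪ T)) (τ := 0) (σ := 0) hs)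
      (vA (S1 ∪ S2 ∪ (P ∪ T))) (Submodule.span (ZMod 3) {vE (eT (S2 ∪ T)) (S1 ∪ S2 ∪ (P ∪ T))})
      (fun v hv => ?_) fun v hv => ?_)
    · cases ρ with
      | none => exact (three_mul_iff (h.xoM_none_0 h1 h2)).trans (kc_three_iff he hR hM)
      | some κ => exact (three_mul_iff (h.xoM_some_0 h1 h2 hα κ)).trans (kB_three_iff he hR hM ha)
    · obtain ⟨c, rfl⟩ := Submodule.mem_span_singleton.1 hv
      rw [Matrix.mulVec_smul, hM, smul_zero]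
    · obtain ⟨c, rfl⟩ := Submodule.mem_span_singleton.1 hv
      rw [dotProduct_smul, ha, smul_zero]
  · have hj' : (j : ZMod 3) ≠ 0 := f3_ne j hj
    refine Dich.congr (fun ρ => ?_) (db_lin _ (N_symm (e := eT (S2 ∪ T)) (τ := (k : ZMod 3))
      (σ := (j : ZMod 3)) (R := S1 ∪ S2 ∪ (P ∪ T)) hs)
      (vA (S1 ∪ S2 ∪ (P ∪ T))) ⊥ (fun v hv => ?_) fun v hv => ?_)
    · cases ρ with
      | none =>
        have h1 := h.xoM_none_j h1 h2 k hj'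
        exact (iff_of_eq (congrArg (· = 1) h1)).trans kc_one_iff
      | some κ =>
        have h1 := h.xoM_some_j h1 h2 k hj' κ
        exact (iff_of_eq (congrArg (· = 1) h1)).trans kB_one_iff
    · rw [(Submodule.mem_bot _).1 hv, Matrix.mulVec_zero]
    · rw [(Submodule.mem_bot _).1 hv, dotProduct_zero]

end

end Pool.Agent.Lib.MP_1a91b9_ntMC
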