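import Pool.Agent.Lib.MP_1a91b9_ntMC.M6
import Pool.Agent.Lib.MP_1a91b9_ntMC.J1
import Pool.Agent.Lib.MP_1a91b9_ntMC.J2

/-!
# MP_1a91b9_nt (all the multicubic fields): the colourings with good labels in a fine class
-/

set_option autoImplicit false
set_option linter.unusedSectionVars false

namespace Pool.Agent.Lib.MP_1a91b9_ntMC

open NumberField Finset Pool.Agent.Lib.MP_1a91b9_ntT Pool.Agent.Lib.MP_1a91b9_ntK
  Pool.Agent.Lib.MP_1a91b9_ntK.Da Pool.Agent.Lib.MP_1a91b9_ntK2 Pool.Agent.Lib.MP_1a91b9_ntK2.D9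
  Pool.Agent.Lib.MP_1a91b9_ntN Pool.Agent.Lib.MP_1a91b9_ntN.H Pool.Agent.Lib.MP_1a91b9_ntZ
  Pool.Agent.Lib.MP_1a91b9_ntCC
open Pool.Agent.Lib.MP_1a91b9_ntH (PS nm Sx mem_Sx)
open Pool.Agent.Lib.MP_1a91b9_ntS3.G (G9 c9 dich3_9)
open Pool.Agent.Lib.MP_1a91b9_ntS3.DG (Dich3)
open Pool.Agent.Lib.MP_1a91b9_ntMN (Yh)

noncomputable section

/-! ### The colourings without a trivial product -/

section NR

variable {I A : Type} [Fintype I] [DecidableEq I] [Fintype A] [DecidableEq A] {ι : Type} [DecidableEq ι]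
  {κ : Type} [Fintype κ] [DecidableEq κ] {E : A → Type} [∀ a, Fintype (E a)] [∀ a, DecidableEq (E a)]

open Classical in
/-- The colourings for which no product is trivial. -/
def NR (phi : A → I → ZMod 3) (Y : Finset (Cb ι I)) : Finset (Cb ι I) :=
  Y.filter fun b => ∀ a, (Rx (phi a) b).Nonempty

theorem mem_NR {phi : A → I → ZMod 3} {Y : Finset (Cb ι I)} {b : Cb ι I} :
    b ∈ NR phi Y ↔ b ∈ Y ∧ ∀ a, (Rx (phi a) b).Nonempty := by
  classical
  unfold NR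
  rw [mem_filter]

private theorem J3_le (D : Dt ι κ) (phi : A → I → ZMod 3) (c : A → κ → ZMod 3)
    (P : ∀ a, κ → E a → ZMod 3) (R : ∀ a, Matrix (E a) (E a) (ZMod 3)) (γ : I → κ → ZMod 3) (a : A)
    (b : Cb ι I) : xPM D phi c P R γ a b ≤ kBM D phi c P R a b := by
  classical
  have h1 : 1 ≤ kBM D phi c P R a b := by
    unfold kBM
    obtain ⟨r, hr⟩ := Pool.Agent.Lib.MP_1a91b9_ntN.kB_pow (sgD D (cx (phi a) b)) (c a) (P a) (R a)
      (Rx (phi a) b)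
    rw [hr]
    exact Nat.one_le_pow _ _ (by norm_num)
  unfold xPM xP
  split_ifs with h
  · unfold kz
    split_ifs with h2
    · exact h1
    · exact Nat.div_le_self _ _
  · exact le_rfl

theorem rareM_off {ι : Type} [DecidableEq ι] [PS ι] {D : Dat3b ι} (hD : D.OKb) {C₂ : ℝ}
    (hC₂ : ∀ Y : ℕ, ((Sx ι Y).card : ℝ) ≤ C₂ * Y) (B : Finset ι) [Nonempty I] {phi : A → I → ZMod 3}
    {c : A → Bool ⊕ B → ZMod 3} (hs : Sp3 phi c) (P : ∀ a, Bool ⊕ B → E a → ZMod 3)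
    (R : ∀ a, Matrix (E a) (E a) (ZMod 3)) (k : A → ℕ) (Y : ℕ → Finset (Cb ι I))
    (hY : ∀ X, Y X ⊆ BX I (SxT B) X) (F : Cb ι I → ℝ) (h0 : ∀ b, 0 ≤ F b)
    (hF : ∀ b, F b ≤ kPM (dtB D B) phi c P R k b) (ε : ℝ) (hε : 0 < ε) :
    ∃ X₀ : ℕ, ∀ X : ℕ, X₀ ≤ X → |∑ b ∈ Y X, F b - ∑ b ∈ NR phi (Y X), F b| ≤ ε * Yh (hN I) X := by
  classical
  obtain ⟨X0, hX0⟩ := rare_kPM hD hC₂ B hs P R k ε hε
  refine ⟨X0, fun X hX => ?_⟩
  have h1 := hX0 X hX
  have h2 : ∑ b ∈ Y X, F b - ∑ b ∈ NR phi (Y X), F b =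
      ∑ b ∈ (Y X).filter (fun b => ¬ ∀ a, (Rx (phi a) b).Nonempty), F b := by
    have h3 := sum_filter_add_sum_filter_not (Y X) (fun b => ∀ a, (Rx (phi a) b).Nonempty) F
    rw [← h3]
    unfold NR
    ring
  have h3 : 0 ≤ ∑ b ∈ (Y X).filter (fun b => ¬ ∀ a, (Rx (phi a) b).Nonempty), F b :=
    sum_nonneg fun b _ => h0 b
  rw [h2, abs_of_nonneg h3]
  refine le_trans ?_ h1
  have h4 : ‖∑ b ∈ (BX I (SxT B) X).filter (fun b => ∃ a, Rx (phi a) b = ∅),
      (kPM (dtB D B) phi c P R k b : ℂ)‖ =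
      ∑ b ∈ (BX I (SxT B) X).filter (fun b => ∃ a, Rx (phi a) b = ∅),
        (kPM (dtB D B) phi c P R k b : ℝ) := by
    have h5 : ∑ b ∈ (BX I (SxT B) X).filter (fun b => ∃ a, Rx (phi a) b = ∅),
        (kPM (dtB D B) phi c P R k b : ℂ) =
        ((∑ b ∈ (BX I (SxT B) X).filter (fun b => ∃ a, Rx (phi a) b = ∅),
          (kPM (dtB D B) phi c P R k b : ℝ) : ℝ) : ℂ) := by
      push_cast
      rfl
    rw [h5, Complex.norm_real, Real.norm_eq_abs, abs_of_nonneg (sum_nonneg fun b _ => Nat.cast_nonneg _)]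
  rw [h4]
  refine (sum_le_sum fun b _ => hF b).trans ?_
  refine sum_le_sum_of_subset_of_nonneg (fun b hb => ?_) fun b _ _ => Nat.cast_nonneg _
  rw [mem_filter] at hb ⊢
  refine ⟨hY X hb.1, ?_⟩
  have h6 := hb.2
  push Not at h6
  exact h6

private theorem J3_pow (D : Dt ι κ) (phi : A → I → ZMod 3) (c : A → κ → ZMod 3)
    (P : ∀ a, κ → E a → ZMod 3) (R : ∀ a, Matrix (E a) (E a) (ZMod 3)) (γ : I → κ → ZMod 3) (k : A → ℕ)
    (b : Cb ι I) : ∏ a, (xPM D phi c P R γ a b : ℝ) ^ k a ≤ kPM D phi c P R k b := by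
  rw [kPM]
  push_cast
  refine prod_le_prod (fun a _ => by positivity) fun a _ => ?_
  exact pow_le_pow_left₀ (Nat.cast_nonneg _) (by exact_mod_cast J3_le D phi c P R γ a b) _

/-- The joint moments over the colourings without a trivial product. -/
theorem mom_xPGN {ι : Type} [DecidableEq ι] [PS ι] {D : Dat3b ι} (hD : D.OKb) {C₂ : ℝ}
    (hC₂ : ∀ Y : ℕ, ((Sx ι Y).card : ℝ) ≤ C₂ * Y) (B : Finset ι) {G : Type} [AddCommGroup G] [Finite G]
    {cl : ι → G} (hdi : Dich3 D cl) [Nonempty I] {phi : A → I → ZMod 3} {c : A → Bool ⊕ B → ZMod 3}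
    (hs : Sp3 phi c)
    {P : ∀ a, Bool ⊕ B → E a → ZMod 3} {R : ∀ a, Matrix (E a) (E a) (ZMod 3)}
    (hR : ∀ a e f, R a e f = R a f e)
    (hP : ∀ a, ∀ x : E a → ZMod 3, (∀ j, ∑ e, P a j e * x e = 0) → x = 0)
    (γ : I → Bool ⊕ B → ZMod 3) (g : I → G) (k : A → ℕ) :
    MVY (hN I) (fun X => NR phi (ClM cl g (SGM (dtB D B) (SxT B) γ X)))
      (fun b => ∏ a, (xPM (dtB D B) phi c P R γ a b : ℝ) ^ k a) (∏ a, (Nk3 (k a) : ℝ)) := by
  classical
  intro ε hε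
  obtain ⟨ν, hν⟩ : ∃ ν : ℝ, ν = ∏ a, (Nk3 (k a) : ℝ) := ⟨_, rfl⟩
  have hν0 : 0 ≤ ν := by
    rw [hν]
    exact prod_nonneg fun a _ => Nat.cast_nonneg _
  have hsub : ∀ X, ClM cl g (SGM (dtB D B) (SxT B) γ X) ⊆ BX I (SxT B) X := by
    intro X b hb
    rw [mem_BX]
    exact (mem_SGM.1 (mem_ClM.1 hb).1).1
  obtain ⟨X1, h1⟩ := mom_xPGM hD hC₂ B hdi hs hR hP γ g k (ε / 3) (by positivity)
  obtain ⟨X2, h2⟩ := rareM_off hD hC₂ B hs P R k (fun X => ClM cl g (SGM (dtB D B) (SxT B) γ X)) hsub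
    (fun b => ∏ a, (xPM (dtB D B) phi c P R γ a b : ℝ) ^ k a) (fun b => by positivity)
    (fun b => J3_pow _ _ _ _ _ _ _ _) (ε / 3) (by positivity)
  obtain ⟨X3, h3⟩ := rareM_off hD hC₂ B hs P R (fun _ => 0)
    (fun X => ClM cl g (SGM (dtB D B) (SxT B) γ X)) hsub
    (fun _ => 1) (fun b => zero_le_one)
    (fun b => by
      rw [kPM]
      simp only [pow_zero, prod_const_one, Nat.cast_one, le_refl]) (ε / (3 * (ν + 1))) (by positivity)
  refine ⟨X1 + X2 + X3, fun X hX => ?_⟩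
  have e1 := h1 X (by omega)
  have e2 := h2 X (by omega)
  have e3' := h3 X (by omega)
  simp only [sum_const, nsmul_eq_mul, mul_one] at e3'
  rw [← hν] at e1 ⊢
  have hY : 0 ≤ Yh (hN I) X := Pool.Agent.Lib.MP_1a91b9_ntMN.Yh_nonneg _ _
  have h6 : ν * (ε / (3 * (ν + 1)) * Yh (hN I) X) ≤ ε / 3 * Yh (hN I) X := by
    rw [← mul_assoc]
    refine mul_le_mul_of_nonneg_right ?_ hY
    rw [mul_div_assoc', div_le_div_iff₀ (by positivity) (by positivity)]
    nlinarith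
  have e4 := mul_le_mul_of_nonneg_left e3' hν0
  rw [← abs_of_nonneg hν0, ← abs_mul, abs_of_nonneg hν0] at e4
  rw [abs_le] at e1 e2 e4 ⊢
  constructor <;> nlinarith [e1.1, e1.2, e2.1, e2.2, e4.1, e4.2]

end NR

/-! ### The primes of a product -/

section Rv

variable {I : Type} [Fintype I] [DecidableEq I] {ι : Type} [DecidableEq ι]

theorem Rv_union (χ : I → ZMod 3) (b : Cb ι I) : Rv 1 χ b ∪ Rv 2 χ b = Rx χ b := by
  have h3 : ∀ z : ZMod 3, (z = 1 ∨ z = 2) ↔ z ≠ 0 := by decide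
  ext q
  unfold Rv Rx
  rw [mem_union, mem_filter, mem_filter, mem_filter, ← and_or_left, h3]

theorem Rv_disj (χ : I → ZMod 3) (b : Cb ι I) : Disjoint (Rv 1 χ b) (Rv 2 χ b) := by
  unfold Rv
  rw [disjoint_filter]
  intro q _ h1 h2
  rw [h1] at h2
  exact absurd h2 (by decide)

theorem cxM_of {P T B : Finset P3} (hP : P ⊆ B) (hT : T ⊆ B) (hPT : Disjoint P T)
    {γ : I → Bool ⊕ B → ZMod 3} {X : ℕ} {b : Cb P3 I} (hb : b ∈ SGM (dtB d3b B) (SxT B) γ X)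
    (χ : I → ZMod 3) (hne : (Rx χ b).Nonempty) :
    CxM P T B (fun j => ∑ i, χ i * γ i j) (Rv 1 χ b) (Rv 2 χ b) where
  hB := union_subset hP hT
  hPT := hPT
  hS := Rv_disj χ b
  hSB := by
    rw [Rv_union]
    exact disjoint_of_subset_left (filter_subset _ _) (mem_SxT.1 (mem_SGM.1 hb).1).2
  hγS := fun j => by
    have h1 := (mem_SGM.1 hb).2
    have h3 : ∀ z y : ZMod 3, (if z = 1 then y else 0) - (if z = 2 then y else 0) = z * y := by decide
    unfold Rv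
    rw [sum_filter, sum_filter, ← sum_sub_distrib, sum_congr rfl fun q _ => h3 (cx χ b q) _]
    have h4 : ∀ q, cx χ b q * (dtB d3b B).a q j = ∑ i, χ i * (cz b q i * (dtB d3b B).a q j) := by
      intro q
      unfold cx
      rw [dotProduct, sum_mul]
      exact sum_congr rfl fun i _ => by ring
    rw [sum_congr rfl fun q _ => h4 q, sum_comm]
    refine sum_congr rfl fun i _ => ?_
    rw [← mul_sum, h1 i j]
  hne := by
    rw [Rv_union]
    exact hne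

end Rv

/-! ### The law in a fine class -/

section Fine

variable {I Q : Type} [Fintype I] [DecidableEq I] [Fintype Q] [DecidableEq Q]

open Classical in
/-- **The colourings which are good for at least `t` blocks of labels with types, in a fine class.** -/
theorem gd_fineQ (n : ℕ) {k : ℕ} [Nonempty I] (phi : Fin k × Q → I → ZMod 3)
    (ty kk jj : Fin k × Q → Fin 3) (P T : Fin k × Q → Finset P3) {B : Finset P3}
    (hP : ∀ a, P a ⊆ B) (hT : ∀ a, T a ⊆ B) (hPT : ∀ a, Disjoint (P a) (T a))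
    (hs : Sp3 phi fun a => cO (kk a) (jj a) (P a) (T a) B) (γ : I → Bool ⊕ B → ZMod 3)
    (g : I → G9 n) (t : ℕ) {w : ℝ} (hw0 : 0 ≤ w) (hw1 : w ≤ 1) (hw : ∀ a, ty a = 2 → w ≤ 2 / 3)
    {κ₀ : ℝ} (hκ : κ₀ < bn k t ((w * cinf3) ^ Fintype.card Q)) (ε : ℝ) (hε : 0 < ε) :
    ∃ X₀ : ℕ, ∀ X : ℕ, X₀ ≤ X →
      κ₀ * ((NR phi (ClM (c9 n) g (SGM (dtB d3b B) (SxT B) γ X))).card : ℝ) - ε * Yh (hN I) X ≤
        (((NR phi (ClM (c9 n) g (SGM (dtB d3b B) (SxT B) γ X))).filter fun b =>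
          Atl t fun i => ∀ q, GdT (ty (i, q)) (kk (i, q)) (jj (i, q))
            (Rv 1 (phi (i, q)) b ∪ P (i, q)) (Rv 2 (phi (i, q)) b ∪ T (i, q))).card : ℝ) := by
  let _ : Fintype (G9 n) := Fintype.ofFinite _
  have hB : ∀ a, P a ∪ T a ⊆ B := fun a => union_subset (hP a) (hT a)
  have hc0 := cinf3_pos
  have hc1 := cinf3_lt_one
  obtain ⟨γ', hγ'⟩ : ∃ γ' : Fin k × Q → Bool ⊕ B → ZMod 3, γ' = ga phi γ := ⟨_, rfl⟩
  obtain ⟨p0, hp0⟩ : ∃ p0 : Fin k × Q → Option (ZMod 3), p0 = fun a =>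
    q0 (ty a) (kk a) (jj a) (αO (P a) (T a) B (γ' a)) (βO (P a) (T a) B (γ' a)) := ⟨_, rfl⟩
  obtain ⟨p1, hp1⟩ : ∃ p1 : Fin k × Q → Option (ZMod 3), p1 = fun a =>
    q1 (ty a) (kk a) (jj a) (αO (P a) (T a) B (γ' a)) (βO (P a) (T a) B (γ' a)) := ⟨_, rfl⟩
  obtain ⟨Bc, hBc⟩ : ∃ Bc : ℕ → Finset (Cb P3 I), Bc = fun X =>
    NR phi (ClM (c9 n) g (SGM (dtB d3b B) (SxT B) γ X)) := ⟨_, rfl⟩
  obtain ⟨x, hx⟩ : ∃ x : Fin k × Q → Option (ZMod 3) → Cb P3 I → ℕ, x = fun a ρ b =>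
    xoM (kk a) (jj a) (P a) (T a) B (γ' a) ρ (cx (phi a) b) (Rx (phi a) b) := ⟨_, rfl⟩
  refine lower_RP (fun T₀ ε' hε' => ?_) ε hε
  have hy : ∀ f : Fin k × Q → Option (ZMod 3), ∀ J : Finset (Fin k × Q), J.Nonempty →
      Mn (RP (hN I) Bc T₀) (fun b => ∏ a ∈ J, if x a (f a) b = 1 then (1 : ℝ) else 0)
        (cinf3 ^ J.card) := by
    intro f J hJ
    have h1 := ind_sub3 (A := Fin k × Q) (B := RP (hN I) Bc T₀)
      (x := fun a b => xPM (dtB d3b B) phi (fun a => cO (kk a) (jj a) (P a) (T a) B)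
        (fun a => PO (P a) (T a) B (f a)) (fun a => RO (kk a) (jj a) (P a) (T a) B (γ' a) (f a)) γ a b)
      (fun a b => xP_pow _ _ _ _ _ a _)
      (fun k' => by
        rw [hBc]
        exact MV_RP (mom_xPGN d3b_OK card_P3 B (dich3_9 n) hs
          (fun a => RJ_symm d3b_OK.ok.sym (γ' a))
          (fun a => PJ_inj (eT_mul _) (hB a) fun u u' => Subsingleton.elim _ _) γ g k') T₀)
      J hJ
    rw [hx, hγ']
    rw [hγ'] at h1
    exact h1
  have hmix := fun J : Finset (Fin k × Q) => da_mix (B := RP (hN I) Bc T₀) (c := cinf3)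
    (y := fun a ρ b => if x a ρ b = 1 then (1 : ℝ) else 0) hy (fun a => wt (p0 a) (p1 a)) J
  have hsum : ∀ a, w * cinf3 ≤ (∑ ρ, wt (p0 a) (p1 a) ρ) * cinf3 ∧
      (∑ ρ, wt (p0 a) (p1 a) ρ) * cinf3 ≤ 1 := by
    intro a
    rw [wt_sum]
    split_ifs with h
    · exact ⟨mul_le_mul_of_nonneg_right hw1 hc0.le, by linarith⟩
    · have hty : ty a = 2 := q_ty (k := kk a) (j := jj a) (α := αO (P a) (T a) B (γ' a))
        (β := βO (P a) (T a) B (γ' a)) (by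
          rw [hp0, hp1] at h
          exact h)
      exact ⟨mul_le_mul_of_nonneg_right (hw a hty) hc0.le, by linarith⟩
  have hcx : ∀ X, ∀ b ∈ Bc X, ∀ a, CxM (P a) (T a) B (γ' a) (Rv 1 (phi a) b) (Rv 2 (phi a) b) := by
    intro X b hb a
    rw [hBc] at hb
    rw [hγ']
    exact cxM_of (hP a) (hT a) (hPT a) (mem_ClM.1 (mem_NR.1 hb).1).1 (phi a) ((mem_NR.1 hb).2 a)
  have hv1 : ∀ (χ : I → ZMod 3) (b : Cb P3 I), ∀ q ∈ Rv 1 χ b, cx χ b q = 1 := fun χ b q hq => by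
    unfold Rv at hq
    exact (mem_filter.1 hq).2
  have hv2 : ∀ (χ : I → ZMod 3) (b : Cb P3 I), ∀ q ∈ Rv 2 χ b, cx χ b q = 2 := fun χ b q hq => by
    unfold Rv at hq
    exact (mem_filter.1 hq).2
  have key := Mn.lower (B := RP (hN I) Bc T₀)
    (F := fun i b => if ∀ l, x (i, l) (p0 (i, l)) b = 1 ∧ x (i, l) (p1 (i, l)) b = 1 then (1 : ℝ)
      else 0)
    (v := fun i => ∏ l : Q, (∑ ρ, wt (p0 (i, l)) (p1 (i, l)) ρ) * cinf3)
    (P := fun i b => ∀ l, x (i, l) (p0 (i, l)) b = 1 ∧ x (i, l) (p1 (i, l)) b = 1)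
    (fun i b => by split_ifs <;> norm_num) (fun i b => by split_ifs <;> norm_num)
    (fun i b h => if_neg h)
    (fun J hJ => by
      have h1 := hmix (J ×ˢ (univ : Finset Q))
      refine h1.congr (fun n' b hb => ?_) ?_
      · have hb' : ∃ X, b ∈ Bc X := by
          unfold RP at hb
          split_ifs at hb with h
          · exact ⟨_, hb⟩
          · exact absurd hb (notMem_empty _)
        obtain ⟨X, hb'⟩ := hb'
        rw [prod_product]
        refine prod_congr rfl fun i _ => ?_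
        have h3 : ∀ l : Q, (∑ ρ, wt (p0 (i, l)) (p1 (i, l)) ρ *
            (if x (i, l) ρ b = 1 then (1 : ℝ) else 0)) =
            if x (i, l) (p0 (i, l)) b = 1 ∧ x (i, l) (p1 (i, l)) b = 1 then 1 else 0 := by
          intro l
          refine wt_ind' (p0 (i, l)) (p1 (i, l)) (fun ρ => x (i, l) ρ b = 1) fun hq => ?_
          rw [hx]
          have h4 := dich_xoM (hcx X b hb' (i, l)) (hv1 _ _) (hv2 _ _) (k := kk (i, l))
            (j := jj (i, l)) (by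
              rw [hp0, hp1] at hq
              exact q_hard hq)
          rw [Rv_union] at h4
          exact h4
        rw [prod_congr rfl fun l _ => h3 l]
        split_ifs with h
        · exact (prod_eq_one fun l _ => if_pos (h l)).symm
        · push Not at h
          obtain ⟨l, hl⟩ := h
          exact (prod_eq_zero (mem_univ l) (if_neg fun h => hl h.1 h.2)).symm
      · rw [prod_product])
    (g := (w * cinf3) ^ Fintype.card Q) (by positivity)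
    (fun i => by
      calc (w * cinf3) ^ Fintype.card Q = ∏ _l : Q, (w * cinf3) := by
            rw [prod_const, card_univ]
        _ ≤ _ := prod_le_prod (fun _ _ => by positivity) fun l _ => (hsum (i, l)).1)
    (fun i => prod_le_one (fun l _ => le_trans (by positivity) (hsum (i, l)).1)
      fun l _ => (hsum (i, l)).2) t (by rw [Fintype.card_fin]; exact hκ) ε' hε'
  obtain ⟨n₀, h0⟩ := key
  refine ⟨n₀, fun m hm => ?_⟩
  have h4 : (RP (hN I) Bc T₀ m).filter (fun b => Atl t fun i => ∀ l,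
      x (i, l) (p0 (i, l)) b = 1 ∧ x (i, l) (p1 (i, l)) b = 1) ⊆
      (RP (hN I) Bc T₀ m).filter (fun b =>
          Atl t fun i => ∀ q, GdT (ty (i, q)) (kk (i, q)) (jj (i, q))
            (Rv 1 (phi (i, q)) b ∪ P (i, q)) (Rv 2 (phi (i, q)) b ∪ T (i, q))) := by
    intro b hb
    rw [mem_filter] at hb ⊢
    have hb' : ∃ X, b ∈ Bc X := by
      have hb1 := hb.1
      unfold RP at hb1
      split_ifs at hb1 with h
      · exact ⟨_, hb1⟩
      · exact absurd hb1 (notMem_empty _)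
    obtain ⟨X, hb'⟩ := hb'
    refine ⟨hb.1, hb.2.mono fun i hi l => ?_⟩
    obtain ⟨h5, h6⟩ := hi l
    rw [hx, hp0] at h5
    rw [hx, hp1] at h6
    have hcx' := hcx X b hb' (i, l)
    refine ⟨fun h7 => ?_, fun h7 => ?_⟩
    · refine gd_x0M hcx' (hv1 _ _) (hv2 _ _) ?_
      rw [Rv_union]
      simp only [q0, if_neg h7] at h5
      exact h5
    · refine gd_x1M hcx' (hv1 _ _) (hv2 _ _) ?_
      rw [Rv_union]
      simp only [q1, if_neg h7] at h6
      exact h6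
  have h5 : (((RP (hN I) Bc T₀ m).filter (fun b => Atl t fun i => ∀ l,
      x (i, l) (p0 (i, l)) b = 1 ∧ x (i, l) (p1 (i, l)) b = 1)).card : ℝ) ≤
      (((RP (hN I) Bc T₀ m).filter (fun b =>
          Atl t fun i => ∀ q, GdT (ty (i, q)) (kk (i, q)) (jj (i, q))
            (Rv 1 (phi (i, q)) b ∪ P (i, q)) (Rv 2 (phi (i, q)) b ∪ T (i, q)))).card : ℝ) := by
    exact_mod_cast card_le_card h4
  have h6 := (h0 m hm).trans h5
  rw [hBc] at h6
  exact h6

end Fine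

end

end Pool.Agent.Lib.MP_1a91b9_ntMC
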