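import Pool.Agent.Lib.MP_1a91b9_ntMC.C1

/-!
# MP_1a91b9_nt (all the multicubic fields): the layers of the unlinked sets of labels

`mkM v w` is the label with the colour `v` and the part of `w` on the support of `v`. `cmp v U` is the completed layer of the
colour `v`: the `w` with `mkM v w ∈ U` and `(w a).2 = 0` outside of the support. It is unlinked if `U` is, so it has at most
`∏ 3 ^ k a` elements; this gives the hypotheses `WS3` of the engine.
-/

set_option autoImplicit false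
set_option linter.unusedSectionVars false

namespace Pool.Agent.Lib.MP_1a91b9_ntMC

open Finset Pool.Agent.Lib.MP_1a91b9_ntH Pool.Agent.Lib.MP_1a91b9_ntK Pool.Agent.Lib.MP_1a91b9_ntK.Da
open Pool.Agent.Lib.MP_1a91b9_ntN

noncomputable section

variable {I A : Type} [Fintype I] [DecidableEq I] [Fintype A] [DecidableEq A]
  {phi : A → I → ZMod 3} {k : A → ℕ}

/-- The part of an element on the support of the vector `v`. -/
def rst (phi : A → I → ZMod 3) (v : I → ZMod 3) (w : LabP k) : LabP k := fun a =>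
  if phi a ⬝ᵥ v = 0 then 0 else w a

theorem rst_zero {v : I → ZMod 3} {w : LabP k} {a : A} (h : phi a ⬝ᵥ v = 0) : rst phi v w a = 0 := if_pos h

theorem rst_on {v : I → ZMod 3} {w : LabP k} {a : A} (h : phi a ⬝ᵥ v ≠ 0) : rst phi v w a = w a := if_neg h

/-- The label with the colour `v` and the part of `w` on its support. -/
def mkM (phi : A → I → ZMod 3) (v : Nz I) (w : LabP k) : LbM phi k :=
  ⟨(v, rst phi v.1 w), fun _ ha => rst_zero ha⟩

theorem mkM_col (v : Nz I) (w : LabP k) : (mkM phi v w).col = v := rfl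

theorem mkM_v (v : Nz I) (w : LabP k) (a : A) : (mkM phi v w).v a = rst phi v.1 w a := rfl

theorem LbM.ext' {x y : LbM phi k} (h1 : x.col = y.col) (h2 : ∀ a, x.v a = y.v a) : x = y :=
  Subtype.ext (Prod.ext h1 (funext h2))

theorem LbM.v_zero (x : LbM phi k) {a : A} (h : phi a ⬝ᵥ x.col.1 = 0) : x.v a = 0 := x.2 a h

theorem mkM_self (x : LbM phi k) : mkM phi x.col (fun a => x.v a) = x := by
  refine LbM.ext' rfl fun a => ?_
  rw [mkM_v]
  by_cases h : phi a ⬝ᵥ x.col.1 = 0
  · rw [rst_zero h, x.v_zero h]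
  · rw [rst_on h]

/-- The symmetric exponent. -/
theorem PM_add (x y : LbM phi k) : PM x y + PM y x =
    ∑ a, (phi a ⬝ᵥ x.col.1) * (phi a ⬝ᵥ y.col.1) * Q3 (x.v a - y.v a) := by
  unfold PM
  rw [← sum_add_distrib]
  refine sum_congr rfl fun a _ => ?_
  rw [← Phi3_add]
  ring

theorem sq_one {x : ZMod 3} (h : x ≠ 0) : x * x = 1 := by
  revert h
  revert x
  decide

/-- The exponent of two labels of the same colour as a value of the quadratic form. -/
theorem QP_mkM (v : Nz I) {w w' : LabP k} (h : ∀ a, phi a ⬝ᵥ v.1 = 0 → (w a).2 = 0)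
    (h' : ∀ a, phi a ⬝ᵥ v.1 = 0 → (w' a).2 = 0) :
    PM (mkM phi v w) (mkM phi v w') + PM (mkM phi v w') (mkM phi v w) = QP (w - w') := by
  rw [PM_add, QP]
  refine sum_congr rfl fun a _ => ?_
  rw [mkM_v, mkM_v, mkM_col, mkM_col]
  by_cases h1 : phi a ⬝ᵥ v.1 = 0
  · rw [h1, Q3]
    have h2 : ((w - w') a).2 = 0 := by
      rw [Pi.sub_apply, Prod.snd_sub, h a h1, h' a h1, sub_zero]
    rw [Q3, h2, dotProduct_zero]
    ring
  · rw [sq_one h1, rst_on h1, rst_on h1, one_mul]
    rfl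

open Classical in
/-- The completed layer of the colour `v`. -/
def cmp (v : Nz I) (U : Finset (LbM phi k)) : Finset (LabP k) :=
  univ.filter fun w => mkM phi v w ∈ U ∧ ∀ a, phi a ⬝ᵥ v.1 = 0 → (w a).2 = 0

theorem mem_cmp {v : Nz I} {U : Finset (LbM phi k)} {w : LabP k} :
    w ∈ cmp v U ↔ mkM phi v w ∈ U ∧ ∀ a, phi a ⬝ᵥ v.1 = 0 → (w a).2 = 0 := by
  classical
  unfold cmp
  rw [mem_filter]
  exact ⟨fun h => h.2, fun h => ⟨mem_univ _, h⟩⟩

theorem mem_cmpE {v : Nz I} {U : Finset (LbM phi k)} {l : LabP k} : l ∈ cmp v U ↔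
    (∃ z ∈ U, z.col = v ∧ ∀ a, phi a ⬝ᵥ v.1 ≠ 0 → z.v a = l a) ∧
    ∀ a, phi a ⬝ᵥ v.1 = 0 → (l a).2 = 0 := by
  rw [mem_cmp]
  refine and_congr_left fun _ => ?_
  constructor
  · intro h
    exact ⟨_, h, rfl, fun a ha => by rw [mkM_v, rst_on ha]⟩
  · rintro ⟨z, hz, hc, hv⟩
    have h1 : mkM phi v l = z := by
      subst hc
      refine LbM.ext' rfl fun a => ?_
      rw [mkM_v]
      by_cases h : phi a ⬝ᵥ z.col.1 = 0
      · rw [rst_zero h, z.v_zero h]
      · rw [rst_on h, hv a h]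
    rw [h1]
    exact hz

/-- Unlinked sets of labels. -/
def UnlM (U : Finset (LbM phi k)) : Prop := ∀ x ∈ U, ∀ y ∈ U, PM x y + PM y x = 0

theorem UnlM.cmp {U : Finset (LbM phi k)} (h : UnlM U) (v : Nz I) : UnlP (cmp v U) := by
  intro l hl m hm
  rw [mem_cmp] at hl hm
  rw [← QP_mkM v hl.2 hm.2]
  exact h _ hl.1 _ hm.1

theorem card_snd_zero (n : ℕ) : ((univ : Finset (Lab3 n)).filter fun l => l.2 = 0).card = 3 ^ n := by
  classical
  have h1 : (univ : Finset (Lab3 n)).filter (fun l => l.2 = 0) =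
      (univ : Finset (Fin n → ZMod 3)).image fun x => (x, 0) := by
    ext l
    rw [mem_filter, mem_image]
    constructor
    · rintro ⟨_, h⟩
      exact ⟨l.1, mem_univ _, Prod.ext rfl h.symm⟩
    · rintro ⟨x, _, rfl⟩
      exact ⟨mem_univ _, rfl⟩
  rw [h1, card_image_of_injective _ (fun x y h => (Prod.mk.inj h).1), card_univ, card_V3]

open Classical in
/-- The size of a completed layer. -/
theorem card_cmp (v : Nz I) (U : Finset (LbM phi k)) :
    (cmp v U).card = (U.filter fun x => x.col = v).card * ∏ a, if phi a ⬝ᵥ v.1 = 0 then 3 ^ k a else 1 := by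
  rw [card_eq_sum_card_fiberwise (f := fun w => mkM phi v w) (t := U.filter fun x => x.col = v)]
  · rw [sum_const_nat]
    intro x hx
    rw [mem_filter] at hx
    obtain ⟨hxU, rfl⟩ := hx
    have h1 : (cmp x.col U).filter (fun w => mkM phi x.col w = x) = Fintype.piFinset fun a =>
        if phi a ⬝ᵥ x.col.1 = 0 then (univ : Finset (Lab3 (k a))).filter fun l => l.2 = 0 else {x.v a} := by
      ext w
      rw [mem_filter, mem_cmp, Fintype.mem_piFinset]
      constructor
      · rintro ⟨⟨_, h2⟩, h3⟩ a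
        by_cases h4 : phi a ⬝ᵥ x.col.1 = 0
        · rw [if_pos h4, mem_filter]
          exact ⟨mem_univ _, h2 a h4⟩
        · rw [if_neg h4, mem_singleton]
          have h5 : (mkM phi x.col w).v a = x.v a := by rw [h3]
          rw [mkM_v, rst_on h4] at h5
          exact h5
      · intro h2
        have h3 : mkM phi x.col w = x := by
          refine LbM.ext' rfl fun a => ?_
          rw [mkM_v]
          by_cases h4 : phi a ⬝ᵥ x.col.1 = 0
          · rw [rst_zero h4, x.v_zero h4]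
          · have h5 := h2 a
            rw [if_neg h4, mem_singleton] at h5
            rw [rst_on h4, h5]
        refine ⟨⟨by rw [h3]; exact hxU, fun a h4 => ?_⟩, h3⟩
        have h5 := h2 a
        rw [if_pos h4, mem_filter] at h5
        exact h5.2
    rw [h1, Fintype.card_piFinset]
    refine prod_congr rfl fun a _ => ?_
    by_cases h4 : phi a ⬝ᵥ x.col.1 = 0
    · rw [if_pos h4, if_pos h4, card_snd_zero]
    · rw [if_neg h4, if_neg h4, card_singleton]
  · intro w hw
    rw [mem_coe, mem_cmp] at hw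
    rw [mem_coe, mem_filter]
    exact ⟨hw.1, rfl⟩

/-- The product of the sizes. -/
def DM (k : A → ℕ) : ℝ := ∏ a, (3 : ℝ) ^ k a

theorem DM_pos (k : A → ℕ) : 0 < DM k := prod_pos fun _ _ => by positivity

theorem DM_eq (k : A → ℕ) : DM k = ((∏ a, 3 ^ k a : ℕ) : ℝ) := by
  unfold DM
  push_cast
  rfl

open Classical in
/-- The weight of a layer. -/
theorem sum_layer (v : Nz I) (U : Finset (LbM phi k)) :
    ∑ x ∈ U.filter (fun x => x.col = v), nM x = ((cmp v U).card : ℝ) / DM k := by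
  have h1 : ∀ x ∈ U.filter (fun x => x.col = v), nM x =
      ∏ a, if phi a ⬝ᵥ v.1 = 0 then 1 else ((3 : ℝ) ^ k a)⁻¹ := by
    intro x hx
    rw [mem_filter] at hx
    unfold nM
    rw [hx.2]
  rw [sum_congr rfl h1, sum_const, nsmul_eq_mul, card_cmp, Nat.cast_mul, mul_div_assoc]
  refine congrArg₂ (· * ·) rfl ?_
  rw [DM, Nat.cast_prod, ← prod_div_distrib]
  refine prod_congr rfl fun a _ => ?_
  split_ifs
  · push_cast
    rw [div_self (by positivity)]
  · rw [Nat.cast_one, one_div]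

/-- The whole weight. -/
theorem sum_nM (U : Finset (LbM phi k)) : ∑ x ∈ U, nM x = (∑ v, ((cmp v U).card : ℝ)) / DM k := by
  classical
  rw [← sum_fiberwise U (fun x => x.col) (fun x => nM x), sum_div]
  exact sum_congr rfl fun v _ => sum_layer v U

theorem card_Nz (I : Type) [Fintype I] [DecidableEq I] : Fintype.card (Nz I) = hN I := by
  unfold hN Nz
  rw [Fintype.card_subtype_compl, Fintype.card_subtype_eq, Fintype.card_fun, ZMod.card]

theorem card_leM {U : Finset (LbM phi k)} (h : UnlM U) (v : Nz I) : (cmp v U).card ≤ ∏ a, 3 ^ k a :=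
  K1P (UnlM.cmp h v)

theorem sum_leM {U : Finset (LbM phi k)} (h : UnlM U) :
    ∑ v : Nz I, (cmp v U).card ≤ hN I * ∏ a, 3 ^ k a := by
  rw [← card_Nz, ← smul_eq_mul, ← card_univ]
  exact sum_le_card_nsmul _ _ _ fun v _ => card_leM h v

/-- The layers of the maximal sets are full. -/
theorem full_cmp {U : Finset (LbM phi k)} (hU : U ∈ UsM phi k) (v : Nz I) :
    (cmp v U).card = ∏ a, 3 ^ k a := by
  rw [mem_UsM] at hU
  obtain ⟨h1, h2⟩ := hU
  have hu : UnlM U := h1
  by_contra hne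
  have hlt : (cmp v U).card < ∏ a, 3 ^ k a := lt_of_le_of_ne (card_leM hu v) hne
  have h3 : ∑ v : Nz I, (cmp v U).card < hN I * ∏ a, 3 ^ k a := by
    rw [← card_Nz, ← smul_eq_mul, ← card_univ, ← sum_const]
    exact sum_lt_sum (fun v _ => card_leM hu v) ⟨v, mem_univ _, hlt⟩
  rw [sum_nM, div_eq_iff (DM_pos k).ne', DM_eq] at h2
  have h4 : ((∑ v : Nz I, (cmp v U).card : ℕ) : ℝ) = ((hN I * ∏ a, 3 ^ k a : ℕ) : ℝ) := by
    rw [Nat.cast_sum, h2, Nat.cast_mul]
  have h5 : ∑ v : Nz I, (cmp v U).card = hN I * ∏ a, 3 ^ k a := by exact_mod_cast h4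
  omega

theorem usM_unl {U : Finset (LbM phi k)} (hU : U ∈ UsM phi k) : UnlM U := (mem_UsM.1 hU).1

theorem cmp_unl {U : Finset (LbM phi k)} (hU : U ∈ UsM phi k) (v : Nz I) : UnlP (cmp v U) :=
  UnlM.cmp (usM_unl hU) v

theorem cmp_card {U : Finset (LbM phi k)} (hU : U ∈ UsM phi k) (v : Nz I) :
    (cmp v U).card = ∏ a, 3 ^ k a := full_cmp hU v

theorem cmp_nonempty {U : Finset (LbM phi k)} (hU : U ∈ UsM phi k) (v : Nz I) : (cmp v U).Nonempty := by
  rw [← Finset.card_pos, full_cmp hU]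
  exact prod_pos fun a _ => by positivity

/-- A maximal set contains labels of every colour. -/
theorem usM_col {U : Finset (LbM phi k)} (hU : U ∈ UsM phi k) (v : Nz I) : ∃ x ∈ U, x.col = v := by
  obtain ⟨w, hw⟩ := cmp_nonempty hU v
  exact ⟨mkM phi v w, (mem_cmp.1 hw).1, rfl⟩

theorem MM_eq (k : A → ℕ) : (MM k : ℝ) = 2 * DM k := by
  unfold MM
  rw [DM_eq, prod_three_pow]
  push_cast
  ring

/-- **The labels satisfy the hypotheses of the engine.** -/
theorem wsM [Nonempty I] (phi : A → I → ZMod 3) (k : A → ℕ) :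
    WS3 (LbM.col (phi := phi) (k := k)) PM nM (hN I) (MM k) (UsM phi k) where
  self := fun x => by
    unfold PM
    exact sum_eq_zero fun a _ => by rw [Phi3_self, mul_zero]
  pos := fun x => by
    rw [MM_eq]
    have h1 : (2 : ℝ) / (2 * DM k) = ∏ a, ((3 : ℝ) ^ k a)⁻¹ := by
      have h2 : (2 : ℝ) / (2 * DM k) = (DM k)⁻¹ := by
        have h3 := (DM_pos k).ne'
        field_simp
      rw [h2, DM, prod_inv_distrib]
    rw [h1]
    unfold nM
    refine prod_le_prod (fun a _ => by positivity) fun a _ => ?_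
    split_ifs
    · exact inv_le_one_of_one_le₀ (one_le_pow₀ (by norm_num))
    · exact le_rfl
  le_one := fun x => by
    unfold nM
    refine prod_le_one (fun a _ => ?_) fun a _ => ?_
    · split_ifs <;> positivity
    · split_ifs
      · exact le_rfl
      · exact inv_le_one_of_one_le₀ (one_le_pow₀ (by norm_num))
  two := by
    unfold MM
    have h1 : 1 ≤ 3 ^ ∑ a, k a := Nat.one_le_pow _ _ (by norm_num)
    omega
  hp := by
    unfold hN
    have h1 : 1 ≤ Fintype.card I := Fintype.card_pos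
    have h2 : 3 ^ 1 ≤ 3 ^ Fintype.card I := Nat.pow_le_pow_right (by norm_num) h1
    omega
  unl := fun U hU => (mem_UsM.1 hU).1
  sum := fun U hU => (mem_UsM.1 hU).2
  small := fun Z hZ hZU => by
    have hu : UnlM Z := hZ
    have h1 := sum_leM hu
    have h2 : ∑ v : Nz I, (cmp v Z).card ≠ hN I * ∏ a, 3 ^ k a := by
      intro h3
      refine hZU (mem_UsM.2 ⟨hZ, ?_⟩)
      rw [sum_nM, div_eq_iff (DM_pos k).ne', DM_eq]
      rw [← Nat.cast_sum, h3, Nat.cast_mul]
    have h3 : ∑ v : Nz I, (cmp v Z).card + 1 ≤ hN I * ∏ a, 3 ^ k a := by omega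
    have h4 : (∑ v : Nz I, ((cmp v Z).card : ℝ)) + 1 ≤ hN I * DM k := by
      rw [DM_eq, ← Nat.cast_sum, ← Nat.cast_mul]
      exact_mod_cast h3
    rw [sum_nM, MM_eq, div_le_iff₀ (DM_pos k), sub_mul]
    have h5 : 1 / (2 * DM k) * DM k = 1 / 2 := by
      have := (DM_pos k).ne'
      field_simp
    rw [h5]
    linarith
  ex := fun U hU m hm => by
    by_contra hcon
    push Not at hcon
    refine hm ?_
    obtain ⟨l0, hl0⟩ := cmp_nonempty hU m.col
    have h1 : (fun a => m.v a) ∈ cmp m.col U := by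
      refine K2P ((usM_unl hU).cmp m.col) (full_cmp hU m.col) (QP (l0 - fun a => m.v a)) fun l hl => ?_
      have h2 : ∀ a, phi a ⬝ᵥ m.col.1 = 0 → (m.v a).2 = 0 := fun a ha => by
        rw [m.v_zero ha]
        rfl
      rw [mem_cmp] at hl hl0
      rw [← QP_mkM m.col hl.2 h2, ← QP_mkM m.col hl0.2 h2, mkM_self]
      exact hcon _ hl.1 _ hl0.1 rfl
    rw [mem_cmp, mkM_self] at h1
    exact h1.1

end

end Pool.Agent.Lib.MP_1a91b9_ntMC
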