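import Pool.Agent.Lib.MP_1a91b9_ntMC.C1

/-!
# MP_1a91b9_nt (all the multicubic fields): the products are maximal sets, and their number
-/

set_option autoImplicit false
set_option linter.unusedSectionVars false

namespace Pool.Agent.Lib.MP_1a91b9_ntMC

open Finset Pool.Agent.Lib.MP_1a91b9_ntH Pool.Agent.Lib.MP_1a91b9_ntK Pool.Agent.Lib.MP_1a91b9_ntK.Da
open Pool.Agent.Lib.MP_1a91b9_ntN

noncomputable section

variable {I A : Type} [Fintype I] [DecidableEq I] [Fintype A] [DecidableEq A]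
  {phi : A → I → ZMod 3} {k : A → ℕ}

/-- The labels whose components all lie in `V`. -/
def prM (phi : A → I → ZMod 3) (V : ∀ a, Finset (Lab3 (k a))) : Finset (LbM phi k) := by
  classical exact univ.filter fun z => ∀ a, phi a ⬝ᵥ z.col.1 ≠ 0 → z.v a ∈ V a

theorem mem_prM {V : ∀ a, Finset (Lab3 (k a))} {z : LbM phi k} :
    z ∈ prM phi V ↔ ∀ a, phi a ⬝ᵥ z.col.1 ≠ 0 → z.v a ∈ V a := by
  classical
  rw [prM, mem_filter]
  exact ⟨fun h => h.2, fun h => ⟨mem_univ _, h⟩⟩

/-- A label. -/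
private def K3_mk (v : Nz I) (l : LabP k) (h : ∀ a, phi a ⬝ᵥ v.1 = 0 → l a = 0) : LbM phi k :=
  Subtype.mk (v, l) h

private theorem K3_col (v : Nz I) (l : LabP k) (h : ∀ a, phi a ⬝ᵥ v.1 = 0 → l a = 0) :
    (K3_mk v l h : LbM phi k).col = v := rfl

private theorem K3_v (v : Nz I) (l : LabP k) (h : ∀ a, phi a ⬝ᵥ v.1 = 0 → l a = 0) (a : A) :
    (K3_mk v l h : LbM phi k).v a = l a := rfl

private theorem K3_ext {z z' : LbM phi k} (h1 : z.col = z'.col) (h2 : ∀ a, z.v a = z'.v a) : z = z' :=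
  Subtype.ext (Prod.ext h1 (funext h2))

private theorem K3_zero (z : LbM phi k) (a : A) (h : phi a ⬝ᵥ z.col.1 = 0) : z.v a = 0 := z.2 a h

private theorem K3_card (I : Type) [Fintype I] [DecidableEq I] : Fintype.card (Nz I) = hN I := by
  classical
  unfold Nz hN
  rw [Fintype.card_subtype_compl, Fintype.card_subtype_eq, Fintype.card_fun, ZMod.card]

/-- The components allowed for the colour `v`. -/
private def K3_W (phi : A → I → ZMod 3) (V : ∀ a, Finset (Lab3 (k a))) (v : Nz I) (a : A) :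
    Finset (Lab3 (k a)) := if phi a ⬝ᵥ v.1 = 0 then {0} else V a

private theorem K3_sum {V : ∀ a, Finset (Lab3 (k a))} (hV : ∀ a, (V a).card = 3 ^ k a) :
    ∑ x ∈ prM phi V, nM x = (hN I : ℝ) := by
  classical
  have h1 : ∑ x ∈ prM phi V, nM x =
      ∑ p ∈ (univ : Finset (Nz I)).sigma fun v => Fintype.piFinset (K3_W phi V v),
        ∏ a, if phi a ⬝ᵥ p.1.1 = 0 then (1 : ℝ) else ((3 : ℝ) ^ k a)⁻¹ := by
    refine sum_bij' (fun z _ => ⟨z.col, fun a => z.v a⟩)
      (fun p hp => K3_mk p.1 p.2 fun a ha => ?_) ?_ ?_ ?_ ?_ ?_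
    · have h2 := Fintype.mem_piFinset.1 (mem_sigma.1 hp).2 a
      rw [K3_W, if_pos ha, mem_singleton] at h2
      exact h2
    · intro z hz
      rw [mem_sigma]
      refine ⟨mem_univ _, Fintype.mem_piFinset.2 fun a => ?_⟩
      rw [mem_prM] at hz
      show z.v a ∈ K3_W phi V z.col a
      rw [K3_W]
      split_ifs with h
      · rw [mem_singleton]
        exact K3_zero z a h
      · exact hz a h
    · intro p hp
      rw [mem_prM]
      intro a ha
      rw [K3_col] at ha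
      have h2 := Fintype.mem_piFinset.1 (mem_sigma.1 hp).2 a
      rw [K3_W, if_neg ha] at h2
      exact h2
    · intro z hz
      exact K3_ext rfl fun a => rfl
    · intro p hp
      rfl
    · intro z hz
      rfl
  rw [h1, sum_sigma]
  have h3 : ∀ v : Nz I, ∑ _l ∈ Fintype.piFinset (K3_W phi V v),
      (∏ a, if phi a ⬝ᵥ v.1 = 0 then (1 : ℝ) else ((3 : ℝ) ^ k a)⁻¹) = 1 := by
    intro v
    rw [sum_const, Fintype.card_piFinset, nsmul_eq_mul, Nat.cast_prod, ← prod_mul_distrib]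
    refine prod_eq_one fun a _ => ?_
    rw [K3_W]
    split_ifs with h
    · rw [card_singleton]
      norm_num
    · rw [hV a]
      push_cast
      exact mul_inv_cancel₀ (by positivity)
  rw [sum_congr rfl fun v _ => h3 v, sum_const, card_univ, K3_card, nsmul_eq_mul, mul_one]

variable {κ : Type} [Fintype κ] [DecidableEq κ] {E : A → Type} [∀ a, Fintype (E a)]
  [∀ a, DecidableEq (E a)] {c : A → κ → ZMod 3} {P : ∀ a, κ → E a → ZMod 3}
  {m : ∀ a, E a → Lab3 (k a)} {ψ : I → κ → ZMod 3}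

/-- **The products are maximal sets.** -/
theorem prM_mem {V : ∀ a, Finset (Lab3 (k a))} {y : A → κ → ZMod 3}
    (hy : ∀ i j, ∑ a, phi a i * y a j = -ψ i j)
    (hV : ∀ a, V a ∈ MsE (c a) (P a) (m a) (y a)) : prM phi V ∈ MsM phi k c P m ψ := by
  classical
  have hV' : ∀ a, Unl3 (V a) ∧ (V a).card = 3 ^ k a ∧
      ∀ l ∈ V a, cE (c a) (P a) (m a) l = y a := fun a => mem_MsE.1 (hV a)
  rw [MsM, mem_filter, mem_UsM]
  refine ⟨⟨?_, K3_sum fun a => (hV' a).2.1⟩, ?_⟩
  · intro x hx z hz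
    rw [mem_prM] at hx hz
    unfold PM
    rw [← sum_add_distrib]
    refine sum_eq_zero fun a _ => ?_
    have h1 : (phi a ⬝ᵥ x.col.1) * (phi a ⬝ᵥ z.col.1) * Phi3 (x.v a) (z.v a) +
        (phi a ⬝ᵥ z.col.1) * (phi a ⬝ᵥ x.col.1) * Phi3 (z.v a) (x.v a) =
        (phi a ⬝ᵥ x.col.1) * (phi a ⬝ᵥ z.col.1) * Q3 (x.v a - z.v a) := by
      rw [← Phi3_add]
      ring
    rw [h1]
    by_cases h2 : phi a ⬝ᵥ x.col.1 = 0
    · rw [h2, zero_mul, zero_mul]
    · by_cases h3 : phi a ⬝ᵥ z.col.1 = 0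
      · rw [h3, mul_zero, zero_mul]
      · rw [(hV' a).1 _ (hx a h2) _ (hz a h3), mul_zero]
  · intro x hx
    rw [mem_prM] at hx
    funext j
    show ∑ a, (phi a ⬝ᵥ x.col.1) * cE (c a) (P a) (m a) (x.v a) j + ∑ i, x.col.1 i * ψ i j = 0
    have h1 : ∀ a, (phi a ⬝ᵥ x.col.1) * cE (c a) (P a) (m a) (x.v a) j =
        ∑ i, x.col.1 i * (phi a i * y a j) := by
      intro a
      have h2 : (phi a ⬝ᵥ x.col.1) * cE (c a) (P a) (m a) (x.v a) j = (phi a ⬝ᵥ x.col.1) * y a j := by
        by_cases h3 : phi a ⬝ᵥ x.col.1 = 0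
        · rw [h3, zero_mul, zero_mul]
        · rw [(hV' a).2.2 _ (hx a h3)]
      rw [h2, dotProduct, sum_mul]
      exact sum_congr rfl fun i _ => by ring
    rw [sum_congr rfl fun a _ => h1 a, sum_comm, ← sum_add_distrib]
    refine sum_eq_zero fun i _ => ?_
    rw [← mul_sum, hy i j]
    ring

/-- The components of the labels of a set. -/
private def K3_rc (U : Finset (LbM phi k)) (a : A) : Finset (Lab3 (k a)) := by
  classical exact (U.filter fun z => phi a ⬝ᵥ z.col.1 ≠ 0).image fun z => z.v a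

private theorem K3_rc_prM {V : ∀ a, Finset (Lab3 (k a))} (hV : ∀ a, (V a).Nonempty) {a : A}
    (ha : phi a ≠ 0) : K3_rc (prM phi V) a = V a := by
  classical
  ext x
  rw [K3_rc, mem_image]
  constructor
  · rintro ⟨z, hz, rfl⟩
    rw [mem_filter, mem_prM] at hz
    exact hz.1 a hz.2
  · intro hx
    obtain ⟨i, hi⟩ := Function.ne_iff.1 ha
    choose w hw using hV
    have h1 : (Pi.single i 1 : I → ZMod 3) ≠ 0 := by
      intro h0
      have h2 := congrFun h0 i
      rw [Pi.single_eq_same] at h2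
      exact one_ne_zero h2
    have h3 : phi a ⬝ᵥ (Pi.single i 1 : I → ZMod 3) ≠ 0 := by
      rw [dotProduct_single, mul_one]
      exact hi
    refine ⟨K3_mk ⟨Pi.single i 1, h1⟩ (fun b => if phi b ⬝ᵥ (Pi.single i 1 : I → ZMod 3) = 0 then 0
      else Function.update w a x b) (fun b hb => if_pos hb), ?_, ?_⟩
    · rw [mem_filter, mem_prM]
      refine ⟨fun b hb => ?_, h3⟩
      rw [K3_v]
      rw [K3_col] at hb
      rw [if_neg hb]
      by_cases hba : b = a
      · subst hba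
        rw [Function.update_self]
        exact hx
      · rw [Function.update_of_ne hba]
        exact hw b
    · rw [K3_v, if_neg h3, Function.update_self]

/-- **The number of the maximal sets, if they are products.** -/
theorem card_of (hs : Sp3 phi c)
    (H : ∀ U ∈ MsM phi k c P m ψ, ∃ (y : A → κ → ZMod 3) (V : ∀ a, Finset (Lab3 (k a))),
      (∀ i j, ∑ a, phi a i * y a j = -ψ i j) ∧ (∀ a, V a ∈ MsE (c a) (P a) (m a) (y a)) ∧
        U = prM phi V) :
    (MsM phi k c P m ψ).card = ∑ y : A → κ → ZMod 3,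
      if ∀ i j, ∑ a, phi a i * y a j = -ψ i j then ∏ a, (MsE (c a) (P a) (m a) (y a)).card else 0 := by
  classical
  have h1 : MsM phi k c P m ψ =
      (univ.filter fun y : A → κ → ZMod 3 => ∀ i j, ∑ a, phi a i * y a j = -ψ i j).biUnion fun y =>
      (Fintype.piFinset fun a => MsE (c a) (P a) (m a) (y a)).image fun V => prM phi V := by
    ext U
    rw [mem_biUnion]
    constructor
    · intro hU
      obtain ⟨y, V, hy, hV, rfl⟩ := H U hU
      exact ⟨y, mem_filter.2 ⟨mem_univ _, hy⟩, mem_image.2 ⟨V, Fintype.mem_piFinset.2 hV, rfl⟩⟩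
    · rintro ⟨y, hy, hV⟩
      rw [mem_image] at hV
      obtain ⟨V, hV, rfl⟩ := hV
      exact prM_mem (mem_filter.1 hy).2 (Fintype.mem_piFinset.1 hV)
  have hrec : ∀ (y : A → κ → ZMod 3) (V : ∀ a, Finset (Lab3 (k a))),
      V ∈ (Fintype.piFinset fun a => MsE (c a) (P a) (m a) (y a)) → ∀ a,
      K3_rc (prM phi V) a = V a := fun y V hV a =>
    K3_rc_prM (fun b => nonempty_MsE (Fintype.mem_piFinset.1 hV b)) (hs.ne a)
  rw [h1, card_biUnion, sum_filter]
  · refine sum_congr rfl fun y _ => ?_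
    split_ifs with hy
    · rw [card_image_of_injOn, Fintype.card_piFinset]
      intro V hV V' hV' hVV
      funext a
      rw [← hrec y V (mem_coe.1 hV) a, ← hrec y V' (mem_coe.1 hV') a]
      exact congrArg (fun s : Finset (LbM phi k) => K3_rc s a) hVV
    · rfl
  · intro y _ y' _ hne
    refine disjoint_left.2 fun U h2 h3 => hne ?_
    rw [mem_image] at h2 h3
    obtain ⟨V, hV, rfl⟩ := h2
    obtain ⟨V', hV', hVV⟩ := h3
    funext a
    have h4 : V a = V' a := by
      rw [← hrec y V hV a, ← hrec y' V' hV' a, hVV]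
    have h5 := Fintype.mem_piFinset.1 hV a
    have h6 := Fintype.mem_piFinset.1 hV' a
    rw [← h4] at h6
    obtain ⟨x, hx⟩ := nonempty_MsE h5
    rw [← (mem_MsE.1 h5).2.2 x hx, (mem_MsE.1 h6).2.2 x hx]

end

end Pool.Agent.Lib.MP_1a91b9_ntMC
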