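import Pool.Agent.Lib.MP_1a91b9_ntMC.K1
import Pool.Agent.Lib.MP_1a91b9_ntMC.K3

/-!
# MP_1a91b9_nt (all the multicubic fields): the maximal unlinked sets with zero class vector are products
-/

set_option autoImplicit false
set_option linter.unusedSectionVars false

namespace Pool.Agent.Lib.MP_1a91b9_ntMC

open Finset Pool.Agent.Lib.MP_1a91b9_ntH Pool.Agent.Lib.MP_1a91b9_ntK Pool.Agent.Lib.MP_1a91b9_ntK.Da
open Pool.Agent.Lib.MP_1a91b9_ntN

noncomputable section

namespace KH

section Gen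

variable {A : Type} [Fintype A] [DecidableEq A] {k : A → ℕ}

/-- Functions which preserve `W` and separate `a` from the other points. -/
theorem fm_sep {W : Finset (LabP k)} (h : MxP W) (a : A)
    (H : ∀ b, b ≠ a → ∃ f : A → ZMod 3, (∀ x ∈ W, fm f x ∈ W) ∧ f a ≠ f b) {x : LabP k}
    (hx : x ∈ W) : fm (ia a) x ∈ W := by
  have h0 : ∀ z : ZMod 3, ∀ x ∈ W, fm (fun _ => z) x ∈ W := by
    intro z x hx
    rw [fm_const]
    exact h.smul_mem z hx
  choose f hf hne using H
  set g : A → A → ZMod 3 := fun b =>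
    if hb : b ≠ a then (fun _ => (f b hb a - f b hb b)⁻¹) * (f b hb + fun _ => -f b hb b) else 1 with hg
  have h3 : ia a = ∏ b, g b := by
    funext a'
    rw [Finset.prod_apply]
    by_cases ha : a' = a
    · subst ha
      rw [ia, Pi.single_eq_same, prod_eq_one]
      intro b _
      by_cases hb : b ≠ a'
      · simp only [hg, dif_pos hb]
        show (f b hb a' - f b hb b)⁻¹ * (f b hb a' + -f b hb b) = 1
        rw [← sub_eq_add_neg]
        exact inv_mul_cancel₀ (sub_ne_zero.2 (hne b hb))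
      · simp only [hg, dif_neg hb]
        rfl
    · rw [ia, Pi.single_eq_of_ne ha]
      refine (prod_eq_zero (mem_univ a') ?_).symm
      simp only [hg, dif_pos (show a' ≠ a from ha)]
      show (f a' ha a - f a' ha a')⁻¹ * (f a' ha a' + -f a' ha a') = 0
      rw [add_neg_cancel, mul_zero]
  have h4 : ∀ s : Finset A, ∀ x ∈ W, fm (∏ b ∈ s, g b) x ∈ W := by
    intro s
    induction s using Finset.induction_on with
    | empty =>
      intro x hx
      rw [prod_empty, fm_one]
      exact hx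
    | insert b s hb ih =>
      intro x hx
      rw [prod_insert hb, fm_mul]
      by_cases hb' : b ≠ a
      · simp only [hg, dif_pos hb', fm_mul, fm_add]
        exact h0 _ _ (h.add_mem (hf b hb' _ (ih x hx)) (h0 _ _ (ih x hx)))
      · simp only [hg, dif_neg hb', fm_one]
        exact ih x hx
  rw [h3]
  exact h4 _ x hx

theorem fm_ia (a : A) (x : LabP k) : fm (ia a) x = Pi.single a (x a) := by
  funext b
  show ia a b • x b = _
  by_cases hb : b = a
  · subst hb
    rw [ia, Pi.single_eq_same, Pi.single_eq_same, one_smul]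
  · rw [ia, Pi.single_eq_of_ne hb, Pi.single_eq_of_ne hb, zero_smul]

theorem QP_single (a : A) (x : Lab3 (k a)) : QP (Pi.single a x : LabP k) = Q3 x := by
  rw [QP, sum_eq_single a]
  · rw [Pi.single_eq_same]
  · intro b _ hb
    rw [Pi.single_eq_of_ne hb, Q3_zero]
  · exact fun h => absurd (mem_univ _) h

theorem BP_single (a : A) (x : Lab3 (k a)) (w : LabP k) :
    BP (Pi.single a x : LabP k) w = B3 x (w a) := by
  rw [BP, sum_eq_single a]
  · rw [Pi.single_eq_same]
  · intro b _ hb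
    rw [Pi.single_eq_of_ne hb]
    simp [B3]
  · exact fun h => absurd (mem_univ _) h

theorem sum_mem_W {W : Finset (LabP k)} (h : MxP W) (s : Finset A) (x : A → LabP k)
    (hx : ∀ a ∈ s, x a ∈ W) : ∑ a ∈ s, x a ∈ W := by
  induction s using Finset.induction_on with
  | empty =>
    rw [sum_empty]
    exact h.zero
  | insert b s hb ih =>
    rw [sum_insert hb]
    exact h.add_mem (hx b (mem_insert_self _ _)) (ih fun a ha => hx a (mem_insert_of_mem ha))

end Gen

section Lin

variable {I : Type} [Fintype I] [DecidableEq I]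

/-- Two vectors which are independent: one of them vanishes at a vector at which the other one does not. -/
theorem exists_sep {f g : I → ZMod 3} (hf : f ≠ 0) (hg : g ≠ 0) (h1 : f ≠ g) (h2 : f ≠ -g) :
    ∃ v : I → ZMod 3, f ⬝ᵥ v ≠ 0 ∧ g ⬝ᵥ v = 0 := by
  by_contra hcon
  push Not at hcon
  obtain ⟨i0, hi0⟩ := Function.ne_iff.1 hg
  have hi0' : g i0 ≠ 0 := hi0
  have h3 : ∀ i, g i0 * f i = g i * f i0 := by
    intro i
    have h4 := hcon (Pi.single i (g i0) - Pi.single i0 (g i))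
    rw [dotProduct_sub, dotProduct_sub, dotProduct_single, dotProduct_single, dotProduct_single,
      dotProduct_single] at h4
    by_contra h5
    refine h4 (fun h6 => h5 ?_) (by ring)
    linear_combination h6
  have h4 : ∀ t : ZMod 3, t = 0 ∨ t = 1 ∨ t = -1 := by decide
  have h5 : ∀ i, f i = (f i0 * (g i0)⁻¹) * g i := by
    intro i
    have h6 := h3 i
    field_simp
    linear_combination h6
  rcases h4 (f i0 * (g i0)⁻¹) with h | h | h
  · exact hf (funext fun i => by rw [h5 i, h, zero_mul]; rfl)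
  · exact h1 (funext fun i => by rw [h5 i, h, one_mul])
  · exact h2 (funext fun i => by rw [h5 i, h, neg_one_mul]; rfl)

end Lin

variable {I A : Type} [Fintype I] [DecidableEq I] [Fintype A] [DecidableEq A]
  {phi : A → I → ZMod 3} {k : A → ℕ}

theorem mem_cmp' {v : Nz I} {U : Finset (LbM phi k)} {l : LabP k} : l ∈ cmp v U ↔
    (∃ z ∈ U, z.col = v ∧ ∀ a, phi a ⬝ᵥ v.1 ≠ 0 → z.v a = l a) ∧
    ∀ a, phi a ⬝ᵥ v.1 = 0 → (l a).2 = 0 := by
  rw [mem_cmp]
  refine and_congr ⟨fun h => ⟨_, h, mkM_col v l, fun a ha => by rw [mkM_v, rst_on ha]⟩, ?_⟩ Iff.rfl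
  rintro ⟨z, hz, hzc, hzv⟩
  have h1 : z = mkM phi v l := by
    refine LbM.ext' hzc fun a => ?_
    rw [mkM_v]
    by_cases ha : phi a ⬝ᵥ v.1 = 0
    · rw [rst_zero ha]
      exact z.2 a (show phi a ⬝ᵥ z.col.1 = 0 by rw [hzc]; exact ha)
    · rw [rst_on ha]
      exact hzv a ha
  rw [← h1]
  exact hz

/-- The value of `phi` at a colour. -/
def sv (phi : A → I → ZMod 3) (v : Nz I) (a : A) : ZMod 3 := phi a ⬝ᵥ v.1

theorem PM_add (z y : LbM phi k) :
    PM z y + PM y z = ∑ a, sv phi z.col a * sv phi y.col a * Q3 (z.v a - y.v a) := by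
  unfold PM
  rw [← sum_add_distrib]
  refine sum_congr rfl fun a _ => ?_
  rw [← Phi3_add]
  simp only [sv]
  ring

theorem v_zero (z : LbM phi k) {a : A} (h : sv phi z.col a = 0) : z.v a = 0 := z.2 a h

theorem ext_LbM {z z' : LbM phi k} (h1 : z.col = z'.col) (h2 : ∀ a, sv phi z.col a ≠ 0 → z.v a = z'.v a) :
    z = z' := by
  refine Subtype.ext (Prod.ext h1 (funext fun a => ?_))
  by_cases h : sv phi z.col a = 0
  · have e1 := v_zero z h
    have e2 := v_zero z' (h1 ▸ h)
    exact e1.trans e2.symm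
  · exact h2 a h

/-- The layer of the colour of `u`, completed and shifted to zero. -/
def lw (U : Finset (LbM phi k)) (u : LbM phi k) : Finset (LabP k) := (cmp u.col U).image fun l => l - u.v

theorem mem_lw {U : Finset (LbM phi k)} {u : LbM phi k} {x : LabP k} : x ∈ lw U u ↔
    (∃ z ∈ U, z.col = u.col ∧ ∀ a, sv phi u.col a ≠ 0 → z.v a = x a + u.v a) ∧
      ∀ a, sv phi u.col a = 0 → (x a).2 = 0 := by
  have h1 : x ∈ lw U u ↔ x + u.v ∈ cmp u.col U := by
    rw [lw, mem_image]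
    constructor
    · rintro ⟨l, hl, rfl⟩
      rw [sub_add_cancel]
      exact hl
    · intro h
      exact ⟨x + u.v, h, add_sub_cancel_right x _⟩
  rw [h1, mem_cmp']
  refine and_congr Iff.rfl (forall_congr' fun a => forall_congr' fun ha => ?_)
  have h2 : u.v a = 0 := v_zero u ha
  show ((x a + u.v a).2 = 0) ↔ _
  rw [h2, add_zero]

variable {U : Finset (LbM phi k)}

theorem lw_mx (hU : U ∈ UsM phi k) {u : LbM phi k} (hu : u ∈ U) : MxP (lw U u) := by
  refine ⟨?_, ?_, ?_⟩
  · intro x hx y hy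
    rw [lw, mem_image] at hx hy
    obtain ⟨l, hl, rfl⟩ := hx
    obtain ⟨l', hl', rfl⟩ := hy
    rw [sub_sub_sub_cancel_right]
    exact (usM_unl hU).cmp u.col l hl l' hl'
  · rw [lw, card_image_of_injective _ sub_left_injective, full_cmp hU]
  · rw [mem_lw]
    refine ⟨⟨u, hu, rfl, fun a _ => ?_⟩, fun a _ => rfl⟩
    show u.v a = 0 + u.v a
    rw [zero_add]

theorem unlinked (hU : U ∈ UsM phi k) {z y : LbM phi k} (hz : z ∈ U) (hy : y ∈ U) :
    ∑ a, sv phi z.col a * sv phi y.col a * Q3 (z.v a - y.v a) = 0 := by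
  rw [← PM_add]
  exact (mem_UsM.1 hU).1 z hz y hy

/-- The second difference over two colours. -/
theorem tr_mem (hU : U ∈ UsM phi k) {u u' : LbM phi k} (hu : u ∈ U) (hu' : u' ∈ U) {x : LabP k}
    (hx : x ∈ lw U u) : fm (sv phi u.col * sv phi u'.col) x ∈ lw U u' := by
  rw [(lw_mx hU hu').mem_iff]
  intro y hy
  rw [BP_fm]
  obtain ⟨z, hz, hzc, hzv⟩ := (mem_lw.1 hx).1
  obtain ⟨z', hz', hzc', hzv'⟩ := (mem_lw.1 hy).1
  have e1 := unlinked hU hz hz'
  have e2 := unlinked hU hz hu'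
  have e3 := unlinked hU hu hz'
  have e4 := unlinked hU hu hu'
  rw [hzc, hzc'] at e1
  rw [hzc] at e2
  rw [hzc'] at e3
  have h1 : ∑ a, (sv phi u.col * sv phi u'.col) a * B3 (x a) (y a) =
      -(∑ a, sv phi u.col a * sv phi u'.col a * Q3 (z.v a - z'.v a)) +
      (∑ a, sv phi u.col a * sv phi u'.col a * Q3 (z.v a - u'.v a)) +
      (∑ a, sv phi u.col a * sv phi u'.col a * Q3 (u.v a - z'.v a)) -
      ∑ a, sv phi u.col a * sv phi u'.col a * Q3 (u.v a - u'.v a) := by
    rw [← sum_neg_distrib, ← sum_add_distrib, ← sum_add_distrib, ← sum_sub_distrib]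
    refine sum_congr rfl fun a _ => ?_
    show sv phi u.col a * sv phi u'.col a * _ = _
    by_cases ha : sv phi u.col a = 0
    · rw [ha]
      ring
    by_cases ha' : sv phi u'.col a = 0
    · rw [ha']
      ring
    rw [hzv a ha, hzv' a ha']
    have e5 : x a + u.v a - (y a + u'.v a) = (u.v a - u'.v a) + x a - y a := by abel
    have e6 : x a + u.v a - u'.v a = (u.v a - u'.v a) + x a := by abel
    have e7 : u.v a - (y a + u'.v a) = (u.v a - u'.v a) - y a := by abel
    rw [e5, e6, e7, Q3_sub (u.v a - u'.v a + x a), Q3_sub (u.v a - u'.v a) (y a), Q3_add,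
      B3_add' (u.v a - u'.v a) (x a) (y a)]
    ring
  rw [h1, e1, e2, e3, e4]
  ring

variable {κ : Type} [Fintype κ] [DecidableEq κ] {E : A → Type} [∀ a, Fintype (E a)]
  [∀ a, DecidableEq (E a)] {c : A → κ → ZMod 3} {P : ∀ a, κ → E a → ZMod 3}
  {m : ∀ a, E a → Lab3 (k a)} {ψ : I → κ → ZMod 3}

theorem mem_MsM : U ∈ MsM phi k c P m ψ ↔ U ∈ UsM phi k ∧ ∀ x ∈ U, cM phi c P m ψ x = 0 := by
  classical
  unfold MsM
  rw [mem_filter]

theorem cM_zero (hM : U ∈ MsM phi k c P m ψ) {z : LbM phi k} (hz : z ∈ U) (j : κ) :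
    ∑ a, sv phi z.col a * cE (c a) (P a) (m a) (z.v a) j = -∑ i, z.col.1 i * ψ i j := by
  have h1 := congrFun ((mem_MsM.1 hM).2 z hz) j
  have h2 : ∑ a, sv phi z.col a * cE (c a) (P a) (m a) (z.v a) j + ∑ i, z.col.1 i * ψ i j = 0 := h1
  linear_combination h2

/-- The multiplication with the class vector. -/
theorem cl_mem (hM : U ∈ MsM phi k c P m ψ) {u : LbM phi k} (hu : u ∈ U) (j : κ) {x : LabP k}
    (hx : x ∈ lw U u) : fm (sv phi u.col * fun a => c a j) x ∈ lw U u := by
  have hU := (mem_MsM.1 hM).1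
  have hW := lw_mx hU hu
  rw [hW.mem_iff]
  intro y hy
  rw [BP_fm]
  obtain ⟨z1, hz1, hc1, hv1⟩ := (mem_lw.1 hx).1
  obtain ⟨z2, hz2, hc2, hv2⟩ := (mem_lw.1 hy).1
  obtain ⟨z3, hz3, hc3, hv3⟩ := (mem_lw.1 (hW.add_mem hx hy)).1
  have e0 := cM_zero hM hu j
  have e1 := cM_zero hM hz1 j
  have e2 := cM_zero hM hz2 j
  have e3 := cM_zero hM hz3 j
  rw [hc1] at e1
  rw [hc2] at e2
  rw [hc3] at e3
  have h1 : ∑ a, (sv phi u.col * fun a => c a j) a * B3 (x a) (y a) =
      (∑ a, sv phi u.col a * cE (c a) (P a) (m a) (z3.v a) j) -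
      (∑ a, sv phi u.col a * cE (c a) (P a) (m a) (z1.v a) j) -
      (∑ a, sv phi u.col a * cE (c a) (P a) (m a) (z2.v a) j) +
      ∑ a, sv phi u.col a * cE (c a) (P a) (m a) (u.v a) j := by
    rw [← sum_sub_distrib, ← sum_sub_distrib, ← sum_add_distrib]
    refine sum_congr rfl fun a _ => ?_
    show sv phi u.col a * c a j * _ = _
    by_cases ha : sv phi u.col a = 0
    · rw [ha]
      ring
    rw [hv1 a ha, hv2 a ha, hv3 a ha]
    have e5 : (x + y) a + u.v a = u.v a + x a + y a := by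
      show x a + y a + u.v a = _
      abel
    rw [e5, add_comm (x a), add_comm (y a), mul_assoc, ← cE_four (c a) (P a) (m a) (u.v a) (x a) (y a) j]
    ring
  rw [h1, e0, e1, e2, e3]
  ring

theorem exists_col (hU : U ∈ UsM phi k) (v : Nz I) : ∃ z ∈ U, z.col = v := by
  have h1 : 0 < (cmp v U).card := by
    rw [full_cmp hU]
    exact prod_pos fun a _ => by positivity
  obtain ⟨l, hl⟩ := card_pos.1 h1
  obtain ⟨z, hz, hzc, -⟩ := (mem_cmp'.1 hl).1
  exact ⟨z, hz, hzc⟩

theorem sq_one {t : ZMod 3} (h : t ≠ 0) : t * t = 1 := by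
  revert t
  decide

/-- The layers are products. -/
theorem ia_mem (hs : Sp3 phi c) (hM : U ∈ MsM phi k c P m ψ) {u : LbM phi k} (hu : u ∈ U) {a : A}
    (ha : sv phi u.col a ≠ 0) {x : LabP k} (hx : x ∈ lw U u) : Pi.single a (x a) ∈ lw U u := by
  have hU := (mem_MsM.1 hM).1
  have hW := lw_mx hU hu
  rw [← fm_ia]
  refine fm_sep hW a (fun b hb => ?_) hx
  by_cases hb0 : sv phi u.col b = 0
  · refine ⟨sv phi u.col * sv phi u.col, fun x hx => tr_mem hU hu hu hx, ?_⟩
    show sv phi u.col a * sv phi u.col a ≠ sv phi u.col b * sv phi u.col b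
    rw [sq_one ha, hb0]
    decide
  by_cases hab : phi a = phi b
  · obtain ⟨j, hj⟩ := Function.ne_iff.1 (hs.inj a b hb.symm hab)
    refine ⟨sv phi u.col * fun a => c a j, fun x hx => cl_mem hM hu j hx, ?_⟩
    show sv phi u.col a * c a j ≠ sv phi u.col b * c b j
    have h1 : sv phi u.col b = sv phi u.col a := by
      unfold sv
      rw [hab]
    rw [h1]
    exact fun h => hj (mul_left_cancel₀ ha h)
  · obtain ⟨v, hv1, hv2⟩ := exists_sep (hs.ne a) (hs.ne b) hab (hs.neg a b)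
    have hv0 : v ≠ 0 := by
      rintro rfl
      exact hv1 (dotProduct_zero _)
    obtain ⟨u', hu', hcu'⟩ := exists_col hU ⟨v, hv0⟩
    refine ⟨(sv phi u'.col * sv phi u.col) * (sv phi u.col * sv phi u'.col), fun x hx => ?_, ?_⟩
    · rw [fm_mul]
      exact tr_mem hU hu' hu (tr_mem hU hu hu' hx)
    · have e1 : sv phi u'.col a ≠ 0 := by
        rw [hcu']
        exact hv1
      have e2 : sv phi u'.col b = 0 := by
        rw [hcu']
        exact hv2
      show sv phi u'.col a * sv phi u.col a * (sv phi u.col a * sv phi u'.col a) ≠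
        sv phi u'.col b * sv phi u.col b * (sv phi u.col b * sv phi u'.col b)
      rw [e2, zero_mul, zero_mul]
      exact mul_ne_zero (mul_ne_zero e1 ha) (mul_ne_zero ha e1)

/-- The components do not depend on the colour. -/
theorem single_mem (hs : Sp3 phi c) (hM : U ∈ MsM phi k c P m ψ) {u u' : LbM phi k} (hu : u ∈ U)
    (hu' : u' ∈ U) {a : A} (ha : sv phi u.col a ≠ 0) (ha' : sv phi u'.col a ≠ 0) {x : LabP k}
    (hx : x ∈ lw U u) : Pi.single a (x a) ∈ lw U u' := by
  have hU := (mem_MsM.1 hM).1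
  have h1 := ia_mem hs hM hu' ha' (tr_mem hU hu hu' hx)
  have h2 := (lw_mx hU hu').smul_mem (sv phi u.col a * sv phi u'.col a)⁻¹ h1
  have h3 : (sv phi u.col a * sv phi u'.col a)⁻¹ • (Pi.single a (fm (sv phi u.col * sv phi u'.col) x a) :
      LabP k) = Pi.single a (x a) := by
    rw [← fm_ia, ← fm_ia]
    funext b
    show (sv phi u.col a * sv phi u'.col a)⁻¹ • ia a b • ((sv phi u.col b * sv phi u'.col b) • x b) =
      ia a b • x b
    by_cases hb : b = a
    · subst hb
      rw [ia, Pi.single_eq_same, one_smul, one_smul, smul_smul, inv_mul_cancel₀ (mul_ne_zero ha ha'),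
        one_smul]
    · rw [ia, Pi.single_eq_of_ne hb, zero_smul, zero_smul, smul_zero]
  rwa [h3] at h2

theorem pj_mx (hs : Sp3 phi c) (hM : U ∈ MsM phi k c P m ψ) {u : LbM phi k} (hu : u ∈ U) {a : A}
    (ha : sv phi u.col a ≠ 0) : Mx3 (pj (lw U u) a) := by
  have hU := (mem_MsM.1 hM).1
  have hW := lw_mx hU hu
  have hunl : ∀ b, Unl3 (pj (lw U u) b) := by
    intro b x hx y hy
    obtain ⟨l, hl, rfl⟩ := mem_pj.1 hx
    obtain ⟨l', hl', rfl⟩ := mem_pj.1 hy
    by_cases hb : sv phi u.col b = 0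
    · have e1 := (mem_lw.1 hl).2 b hb
      have e2 := (mem_lw.1 hl').2 b hb
      have e3 : (l b - l' b).2 = 0 := by
        rw [Prod.snd_sub, e1, e2, sub_zero]
      rw [Q3, e3, dotProduct_zero]
    · have h1 := hW.Q (ia_mem hs hM hu hb (hW.sub_mem hl hl'))
      rw [QP_single] at h1
      exact h1
  have hle : ∀ b, (pj (lw U u) b).card ≤ 3 ^ k b := fun b => K1 (hunl b)
  have hpos : ∀ b, 0 < (pj (lw U u) b).card := fun b => card_pos.2 ⟨(0 : LabP k) b, mem_pj.2 ⟨0, hW.zero, rfl⟩⟩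
  have hsub : lw U u ⊆ Fintype.piFinset (pj (lw U u)) := by
    intro l hl
    rw [Fintype.mem_piFinset]
    exact fun b => mem_pj.2 ⟨l, hl, rfl⟩
  have hcd := card_le_card hsub
  rw [Fintype.card_piFinset, hW.card] at hcd
  refine ⟨hunl a, ?_, mem_pj.2 ⟨0, hW.zero, rfl⟩⟩
  by_contra hcon
  have h5 : ∏ b, (pj (lw U u) b).card < ∏ b, 3 ^ k b :=
    prod_lt_prod (fun b _ => hpos b) (fun b _ => hle b) ⟨a, mem_univ a, lt_of_le_of_ne (hle a) hcon⟩
  exact absurd hcd (not_le.2 h5)

theorem pj_eq (hs : Sp3 phi c) (hM : U ∈ MsM phi k c P m ψ) {u u' : LbM phi k} (hu : u ∈ U)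
    (hu' : u' ∈ U) {a : A} (ha : sv phi u.col a ≠ 0) (ha' : sv phi u'.col a ≠ 0) {x : Lab3 (k a)}
    (hx : x ∈ pj (lw U u) a) : x ∈ pj (lw U u') a := by
  obtain ⟨l, hl, rfl⟩ := mem_pj.1 hx
  exact mem_pj.2 ⟨_, single_mem hs hM hu hu' ha ha' hl, Pi.single_eq_same _ _⟩

/-- A label of `U` with one component changed. -/
theorem exists_upd (hs : Sp3 phi c) (hM : U ∈ MsM phi k c P m ψ) {u : LbM phi k} (hu : u ∈ U) {a : A}
    (ha : sv phi u.col a ≠ 0) {x : Lab3 (k a)} (hx : x ∈ pj (lw U u) a) :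
    ∃ z ∈ U, z.col = u.col ∧ z.v a = x + u.v a ∧ ∀ b, b ≠ a → z.v b = u.v b := by
  obtain ⟨l, hl, rfl⟩ := mem_pj.1 hx
  obtain ⟨z, hz, hzc, hzv⟩ := (mem_lw.1 (ia_mem hs hM hu ha hl)).1
  refine ⟨z, hz, hzc, ?_, fun b hb => ?_⟩
  · rw [hzv a ha, Pi.single_eq_same]
  · by_cases hb0 : sv phi u.col b = 0
    · rw [v_zero u hb0, v_zero z (by rw [hzc]; exact hb0)]
    · rw [hzv b hb0, Pi.single_eq_of_ne hb, zero_add]

/-- The cosets do not depend on the colour. -/
theorem sub_mem_pj (hs : Sp3 phi c) (hM : U ∈ MsM phi k c P m ψ) {u u' : LbM phi k} (hu : u ∈ U)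
    (hu' : u' ∈ U) {a : A} (ha : sv phi u.col a ≠ 0) (ha' : sv phi u'.col a ≠ 0) :
    u'.v a - u.v a ∈ pj (lw U u) a := by
  have hU := (mem_MsM.1 hM).1
  have hX := pj_mx hs hM hu ha
  rw [hX.mem_iff]
  intro w hw
  obtain ⟨z, hz, hzc, hza, hzb⟩ := exists_upd hs hM hu ha hw
  have e1 := unlinked hU hz hu'
  have e2 := unlinked hU hu hu'
  rw [hzc] at e1
  rw [← add_sum_erase _ _ (mem_univ a)] at e1 e2
  have h1 : ∑ b ∈ univ.erase a, sv phi u.col b * sv phi u'.col b * Q3 (z.v b - u'.v b) =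
      ∑ b ∈ univ.erase a, sv phi u.col b * sv phi u'.col b * Q3 (u.v b - u'.v b) :=
    sum_congr rfl fun b hb => by rw [hzb b (ne_of_mem_erase hb)]
  rw [h1] at e1
  have h2 : sv phi u.col a * sv phi u'.col a * (Q3 (z.v a - u'.v a) - Q3 (u.v a - u'.v a)) = 0 := by
    linear_combination e1 - e2
  have h3 := (mul_eq_zero.1 h2).resolve_left (mul_ne_zero ha ha')
  have h4 : z.v a - u'.v a = w + (u.v a - u'.v a) := by
    rw [hza]
    abel
  rw [h4, Q3_add, hX.unl.Q hX.zero hw] at h3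
  have h5 : B3 w (u.v a - u'.v a) = 0 := by linear_combination h3
  have h6 : u'.v a - u.v a = -(u.v a - u'.v a) := by abel
  rw [h6, B3_comm, B3_neg, h5, neg_zero]

/-- The components of the labels in `U`. -/
def Vc (U : Finset (LbM phi k)) (a : A) : Finset (Lab3 (k a)) := by
  classical exact univ.filter fun x => ∃ z ∈ U, sv phi z.col a ≠ 0 ∧ z.v a = x

theorem mem_Vc {a : A} {x : Lab3 (k a)} : x ∈ Vc U a ↔ ∃ z ∈ U, sv phi z.col a ≠ 0 ∧ z.v a = x := by
  classical
  unfold Vc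
  rw [mem_filter]
  exact ⟨fun h => h.2, fun h => ⟨mem_univ _, h⟩⟩

theorem mem_Vc_iff (hs : Sp3 phi c) (hM : U ∈ MsM phi k c P m ψ) {u : LbM phi k} (hu : u ∈ U) {a : A}
    (ha : sv phi u.col a ≠ 0) {x : Lab3 (k a)} : x ∈ Vc U a ↔ x - u.v a ∈ pj (lw U u) a := by
  rw [mem_Vc]
  constructor
  · rintro ⟨z, hz, hza, rfl⟩
    exact sub_mem_pj hs hM hu hz ha hza
  · intro hx
    obtain ⟨z, hz, hzc, hza, -⟩ := exists_upd hs hM hu ha hx
    exact ⟨z, hz, by rw [hzc]; exact ha, by rw [hza, sub_add_cancel]⟩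

theorem exists_sv (hs : Sp3 phi c) (hU : U ∈ UsM phi k) (a : A) : ∃ u ∈ U, sv phi u.col a ≠ 0 := by
  obtain ⟨i, hi⟩ := Function.ne_iff.1 (hs.ne a)
  have h0 : (Pi.single i 1 : I → ZMod 3) ≠ 0 := by
    intro h
    have h1 := congrFun h i
    rw [Pi.single_eq_same] at h1
    exact one_ne_zero h1
  obtain ⟨u, hu, huc⟩ := exists_col hU ⟨Pi.single i 1, h0⟩
  refine ⟨u, hu, ?_⟩
  rw [huc]
  show phi a ⬝ᵥ Pi.single i 1 ≠ 0
  rw [dotProduct_single, mul_one]
  exact hi

/-- The class vector is constant on the components. -/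
theorem cE_Vc (hs : Sp3 phi c) (hM : U ∈ MsM phi k c P m ψ) {a : A} {x y : Lab3 (k a)} (hx : x ∈ Vc U a)
    (hy : y ∈ Vc U a) : cE (c a) (P a) (m a) x = cE (c a) (P a) (m a) y := by
  obtain ⟨u, hu, hua, rfl⟩ := mem_Vc.1 hy
  obtain ⟨z, hz, hzc, hza, hzb⟩ := exists_upd hs hM hu hua ((mem_Vc_iff hs hM hu hua).1 hx)
  rw [sub_add_cancel] at hza
  funext j
  have e1 := cM_zero hM hz j
  have e2 := cM_zero hM hu j
  rw [hzc] at e1
  rw [← e2, ← add_sum_erase _ _ (mem_univ a), ← add_sum_erase _ _ (mem_univ a), hza] at e1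
  have h1 : ∑ b ∈ univ.erase a, sv phi u.col b * cE (c b) (P b) (m b) (z.v b) j =
      ∑ b ∈ univ.erase a, sv phi u.col b * cE (c b) (P b) (m b) (u.v b) j :=
    sum_congr rfl fun b hb => by rw [hzb b (ne_of_mem_erase hb)]
  rw [h1] at e1
  exact mul_left_cancel₀ hua (add_right_cancel e1)

/-- **The sets of the main terms are products.** -/
theorem hard_MsM (hs : Sp3 phi c) (hM : U ∈ MsM phi k c P m ψ) :
    ∃ (y : A → κ → ZMod 3) (V : ∀ a, Finset (Lab3 (k a))),
      (∀ i j, ∑ a, phi a i * y a j = -ψ i j) ∧ (∀ a, V a ∈ MsE (c a) (P a) (m a) (y a)) ∧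
        U = prM phi V := by
  classical
  have hU := (mem_MsM.1 hM).1
  choose u hu hua using exists_sv hs hU
  refine ⟨fun a => cE (c a) (P a) (m a) ((u a).v a), Vc U, fun i j => ?_, fun a => ?_, ?_⟩
  · have h0 : (Pi.single i 1 : I → ZMod 3) ≠ 0 := by
      intro h
      have h1 := congrFun h i
      rw [Pi.single_eq_same] at h1
      exact one_ne_zero h1
    obtain ⟨z, hz, hzc⟩ := exists_col hU ⟨Pi.single i 1, h0⟩
    have e1 := cM_zero hM hz j
    rw [hzc] at e1
    have h2 : ∑ i', (Pi.single i 1 : I → ZMod 3) i' * ψ i' j = ψ i j := by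
      rw [sum_eq_single i]
      · rw [Pi.single_eq_same, one_mul]
      · intro b _ hb
        rw [Pi.single_eq_of_ne hb, zero_mul]
      · exact fun h => absurd (mem_univ _) h
    have h3 : ∑ a, sv phi ⟨Pi.single i 1, h0⟩ a * cE (c a) (P a) (m a) (z.v a) j =
        ∑ a, phi a i * cE (c a) (P a) (m a) ((u a).v a) j := by
      refine sum_congr rfl fun a _ => ?_
      have h4 : sv phi ⟨Pi.single i 1, h0⟩ a = phi a i := by
        show phi a ⬝ᵥ Pi.single i 1 = _
        rw [dotProduct_single, mul_one]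
      rw [h4]
      by_cases h5 : phi a i = 0
      · rw [h5, zero_mul, zero_mul]
      · have h6 : z.v a ∈ Vc U a := mem_Vc.2 ⟨z, hz, by rw [hzc, h4]; exact h5, rfl⟩
        have h7 : (u a).v a ∈ Vc U a := mem_Vc.2 ⟨u a, hu a, hua a, rfl⟩
        rw [cE_Vc hs hM h6 h7]
    rw [← h3, e1]
    congr 1
  · have hX := pj_mx hs hM (hu a) (hua a)
    have h1 : Vc U a = (pj (lw U (u a)) a).image fun x => x + (u a).v a := by
      ext x
      rw [mem_Vc_iff hs hM (hu a) (hua a), mem_image]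
      constructor
      · intro h
        exact ⟨_, h, sub_add_cancel _ _⟩
      · rintro ⟨y, hy, rfl⟩
        rw [add_sub_cancel_right]
        exact hy
    rw [mem_MsE]
    refine ⟨?_, ?_, fun l hl => cE_Vc hs hM hl (mem_Vc.2 ⟨u a, hu a, hua a, rfl⟩)⟩
    · intro x hx y hy
      rw [mem_Vc_iff hs hM (hu a) (hua a)] at hx hy
      have h2 := hX.unl _ hx _ hy
      rwa [sub_sub_sub_cancel_right] at h2
    · rw [h1, card_image_of_injective _ (add_left_injective _), hX.card]
  · ext z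
    rw [mem_prM]
    constructor
    · exact fun hz a ha => mem_Vc.2 ⟨z, hz, ha, rfl⟩
    · intro hz
      obtain ⟨w, hw, hwc⟩ := exists_col hU z.col
      have hW := lw_mx hU hw
      have h1 : z.v - w.v ∈ lw U w := by
        have h2 : z.v - w.v = ∑ a ∈ univ.filter (fun a => sv phi w.col a ≠ 0),
            (Pi.single a (z.v a - w.v a) : LabP k) := by
          funext b
          rw [Finset.sum_apply]
          by_cases hb : sv phi w.col b = 0
          · show z.v b - w.v b = _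
            rw [v_zero w hb, v_zero z (by rw [← hwc]; exact hb), sub_zero]
            refine (sum_eq_zero fun a ha => ?_).symm
            rw [Pi.single_eq_of_ne]
            rintro rfl
            exact (mem_filter.1 ha).2 hb
          · rw [sum_eq_single b]
            · rw [Pi.single_eq_same]
              rfl
            · intro a _ hab
              rw [Pi.single_eq_of_ne hab.symm]
            · intro h
              exact absurd (show b ∈ univ.filter (fun a => sv phi w.col a ≠ 0) from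
                mem_filter.2 ⟨mem_univ _, hb⟩) h
        rw [h2]
        refine sum_mem_W hW _ _ fun a ha => ?_
        have ha' := (mem_filter.1 ha).2
        have h3 := (mem_Vc_iff hs hM hw ha').1 (hz a (by
          have : sv phi z.col a ≠ 0 := by rw [← hwc]; exact ha'
          exact this))
        obtain ⟨l, hl, hl2⟩ := mem_pj.1 h3
        rw [← hl2]
        exact ia_mem hs hM hw ha' hl
      obtain ⟨z', hz', hzc', hzv'⟩ := (mem_lw.1 h1).1
      have h4 : z' = z := by
        refine ext_LbM (hzc'.trans hwc) fun a ha => ?_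
        rw [hzv' a (by rw [← hzc']; exact ha)]
        show z.v a - w.v a + w.v a = z.v a
        rw [sub_add_cancel]
      rw [← h4]
      exact hz'

end KH

variable {I A : Type} [Fintype I] [DecidableEq I] [Fintype A] [DecidableEq A] {phi : A → I → ZMod 3}
  {k : A → ℕ} {κ : Type} [Fintype κ] [DecidableEq κ] {E : A → Type} [∀ a, Fintype (E a)]
  [∀ a, DecidableEq (E a)]

open Classical in
/-- **The number of the main terms.** -/
theorem card_MsM {c : A → κ → ZMod 3} (hs : Sp3 phi c) (P : ∀ a, κ → E a → ZMod 3)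
    (m : ∀ a, E a → Lab3 (k a)) (ψ : I → κ → ZMod 3) :
    (MsM phi k c P m ψ).card = ∑ y : A → κ → ZMod 3,
      if ∀ i j, ∑ a, phi a i * y a j = -ψ i j then ∏ a, (MsE (c a) (P a) (m a) (y a)).card else 0 := by
  rw [card_of hs fun U hM => KH.hard_MsM hs hM]

end

end Pool.Agent.Lib.MP_1a91b9_ntMC
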