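import Pool.Agent.Lib.MP_1a91b9_ntMC.K1
import Pool.Agent.Lib.MP_1a91b9_ntMC.K2

/-!
# MP_1a91b9_nt (all the multicubic fields): the maximal unlinked sets of labels

`wsM`, `usM_col` (K1) and `card_MsM` (K2).
-/
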