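import Pool.Agent.Lib.MP_1a91b9_ntMC.C2

/-!
# MP_1a91b9_nt (all the multicubic fields): the expansion of the products of the powers of the kernel sizes
-/

set_option autoImplicit false
set_option linter.unusedSectionVars false

namespace Pool.Agent.Lib.MP_1a91b9_ntMC

open Finset Pool.Agent.Lib.MP_1a91b9_ntH Pool.Agent.Lib.MP_1a91b9_ntK Pool.Agent.Lib.MP_1a91b9_ntK.Da
open Pool.Agent.Lib.MP_1a91b9_ntN

noncomputable section

section One

variable {ι : Type} [DecidableEq ι] {κ : Type} [Fintype κ] [DecidableEq κ] {k : ℕ}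

/-- The exponent of a labelling with the signs `e`. -/
def eE (D : Dt ι κ) (e : ι → ZMod 3) (c : Lab3 k → κ → ZMod 3) (S : Finset ι) (g : S → Lab3 k) : ZMod 3 :=
  ∑ q : S, e q * D.lin (c (g q)) q + ∑ q : S, ∑ p : S, e q * e p * Phi3 (g q) (g p) * D.s q p

private theorem M1_lin (D : Dt ι κ) (e : ι → ZMod 3) (c : κ → ZMod 3) (q : ι) :
    (sgD D e).lin c q = e q * D.lin c q := by
  unfold Dt.lin sgD
  rw [mul_sum]
  exact sum_congr rfl fun j _ => by ring

/-- The extension of a labelling by zero. -/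
private def M1_ext (e : ι → ZMod 3) (S : Finset ι) (g : ↥(S.filter fun q => e q ≠ 0) → Lab3 k) (q : S) :
    Lab3 k := if h : e q ≠ 0 then g ⟨q, mem_filter.2 ⟨q.2, h⟩⟩ else 0

private theorem M1_eL (D : Dt ι κ) (e : ι → ZMod 3) (c : Lab3 k → κ → ZMod 3) (S : Finset ι)
    (g : ↥(S.filter fun q => e q ≠ 0) → Lab3 k) :
    (sgD D e).eL Phi3 c (S.filter fun q => e q ≠ 0) g = eE D e c S (M1_ext e S g) := by
  classical
  have h1 : ∀ (F : ↥(S.filter fun q => e q ≠ 0) → ZMod 3) (G : S → ZMod 3),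
      (∀ q : ↥(S.filter fun q => e q ≠ 0), F q = G ⟨q, (mem_filter.1 q.2).1⟩) →
      (∀ q : S, e q = 0 → G q = 0) →
      ∑ q : ↥(S.filter fun q => e q ≠ 0), F q = ∑ q : S, G q := by
    intro F G hF hG
    have h2 : ∑ q : S, G q = ∑ q ∈ (univ : Finset ↥S).filter (fun q : ↥S => e (q : ι) ≠ 0), G q := by
      rw [sum_filter]
      refine sum_congr rfl fun q _ => ?_
      split_ifs with h
      · rfl
      · exact hG q (not_not.1 h)
    rw [h2]
    refine sum_bij' (fun q _ => ⟨q.1, (mem_filter.1 q.2).1⟩)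
      (fun q hq => ⟨q.1, mem_filter.2 ⟨q.2, (mem_filter.1 hq).2⟩⟩) (fun q _ => ?_) (fun q _ => mem_univ _)
      (fun q _ => rfl) (fun q _ => rfl) (fun q _ => hF q)
    exact mem_filter.2 ⟨mem_univ _, (mem_filter.1 q.2).2⟩
  have hx : ∀ q : ↥(S.filter fun q => e q ≠ 0),
      M1_ext e S g ⟨q, (mem_filter.1 q.2).1⟩ = g q := by
    intro q
    unfold M1_ext
    rw [dif_pos (mem_filter.1 q.2).2]
  unfold Dt.eL eE
  congr 1
  · refine h1 _ _ (fun q => ?_) fun q hq => by rw [hq, zero_mul]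
    rw [M1_lin, hx]
  · refine h1 _ _ (fun q => ?_) fun q hq => sum_eq_zero fun p _ => by rw [hq]; ring
    refine h1 _ _ (fun p => ?_) fun p hp => by rw [hp]; ring
    rw [hx, hx]
    show _ * (e q * e p * D.s q p) = _
    ring

/-- The sum over the labellings of the primes with `e q ≠ 0`. -/
theorem sum_ext (D : Dt ι κ) (e : ι → ZMod 3) (c : Lab3 k → κ → ZMod 3) (S : Finset ι) :
    ∑ g : ↥(S.filter fun q => e q ≠ 0) → Lab3 k,
      e3 ((sgD D e).eL Phi3 c (S.filter fun q => e q ≠ 0) g) =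
    ∑ g : S → Lab3 k, if ∀ q : S, e q = 0 → g q = 0 then e3 (eE D e c S g) else 0 := by
  classical
  rw [← sum_filter]
  refine sum_bij' (fun g _ => M1_ext e S g) (fun g _ q => g ⟨q, (mem_filter.1 q.2).1⟩) (fun g _ => ?_)
    (fun g _ => mem_univ _) (fun g _ => ?_) (fun g hg => ?_) (fun g _ => by rw [M1_eL])
  · refine mem_filter.2 ⟨mem_univ _, fun q hq => ?_⟩
    unfold M1_ext
    rw [dif_neg (not_not.2 hq)]
  · funext q
    show M1_ext e S g ⟨q, (mem_filter.1 q.2).1⟩ = g q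
    unfold M1_ext
    rw [dif_pos (mem_filter.1 q.2).2]
  · funext q
    have h := (mem_filter.1 hg).2
    unfold M1_ext
    split_ifs with h1
    · rfl
    · exact (h q (not_not.1 h1)).symm

end One

end

end Pool.Agent.Lib.MP_1a91b9_ntMC
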