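import Pool.Agent.Lib.MP_1a91b9_ntMC.M1

/-!
# MP_1a91b9_nt (all the multicubic fields): the expansion over the labels
-/

set_option autoImplicit false
set_option linter.unusedSectionVars false

namespace Pool.Agent.Lib.MP_1a91b9_ntMC

open Finset Pool.Agent.Lib.MP_1a91b9_ntH Pool.Agent.Lib.MP_1a91b9_ntK Pool.Agent.Lib.MP_1a91b9_ntK.Da
open Pool.Agent.Lib.MP_1a91b9_ntN

noncomputable section

variable {I A : Type} [Fintype I] [DecidableEq I] [Fintype A] [DecidableEq A] {ι : Type} [DecidableEq ι]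
  {κ : Type} [Fintype κ] [DecidableEq κ] {E : A → Type} [∀ a, Fintype (E a)] [∀ a, DecidableEq (E a)]
  {phi : A → I → ZMod 3} {k : A → ℕ}

theorem cz_mk {S : Finset ι} (f : S → Nz I) (q : S) : cz (⟨S, f⟩ : Cb ι I) q = (f q).1 := by
  unfold cz
  exact dif_pos q.2

theorem cx_mk (χ : I → ZMod 3) {S : Finset ι} (f : S → Nz I) (q : S) :
    cx χ (⟨S, f⟩ : Cb ι I) q = χ ⬝ᵥ (f q).1 := by
  unfold cx
  rw [cz_mk]

variable (c : A → κ → ZMod 3) (P : ∀ a, κ → E a → ZMod 3) (R : ∀ a, Matrix (E a) (E a) (ZMod 3))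

/-- The expansion for one matrix. -/
theorem kBM_one (D : Dt ι κ) (a : A) {S : Finset ι} (f₀ : S → Nz I) :
    (kBM D phi c P R a ⟨S, f₀⟩ : ℂ) ^ k a *
      (3 ^ k a) ^ ((Rx (phi a) (⟨S, f₀⟩ : Cb ι I)).card + Fintype.card (E a)) =
    ∑ m : E a → Lab3 (k a), e3 (RF (R a) m) * ∑ g : S → Lab3 (k a),
      if ∀ q : S, phi a ⬝ᵥ (f₀ q).1 = 0 → g q = 0 then
        e3 (eE D (cx (phi a) ⟨S, f₀⟩) (cE (c a) (P a) m) S g) else 0 := by
  classical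
  rw [kBM, Pool.Agent.Lib.MP_1a91b9_ntN.kB_pow_mul]
  refine sum_congr rfl fun m _ => ?_
  congr 1
  have h := sum_ext D (cx (phi a) (⟨S, f₀⟩ : Cb ι I)) (cE (c a) (P a) m) S
  refine h.trans (sum_congr rfl fun g _ => ?_)
  refine if_congr (forall_congr' fun q => ?_) rfl rfl
  rw [cx_mk]

/-- A labelling of the primes with given colours. -/
abbrev GS (phi : A → I → ZMod 3) (k : A → ℕ) {S : Finset ι} (f₀ : S → Nz I) : Type :=
  {g : S → LabP k // ∀ q a, phi a ⬝ᵥ (f₀ q).1 = 0 → g q a = 0}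

open Classical in
instance fintypeGS (phi : A → I → ZMod 3) (k : A → ℕ) {S : Finset ι} (f₀ : S → Nz I) :
    Fintype (GS phi k f₀) := Subtype.fintype _

/-- The labels of a labelling with given colours. -/
def mkL {S : Finset ι} (f₀ : S → Nz I) (g : GS phi k f₀) (q : S) : LbM phi k :=
  ⟨(f₀ q, g.1 q), fun a h => g.2 q a h⟩

/-- The labellings by labels. -/
def eqL (phi : A → I → ZMod 3) (k : A → ℕ) (S : Finset ι) :
    (Σ f₀ : S → Nz I, GS phi k f₀) ≃ (S → LbM phi k) where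
  toFun p := mkL p.1 p.2
  invFun f := ⟨fun q => (f q).1.1, ⟨fun q => (f q).1.2, fun q a h => (f q).2 a h⟩⟩
  left_inv _ := rfl
  right_inv _ := rfl

theorem sum_LbM {S : Finset ι} (F : (S → LbM phi k) → ℂ) :
    ∑ f : S → LbM phi k, F f = ∑ f₀ : S → Nz I, ∑ g : GS phi k f₀, F (mkL f₀ g) := by
  classical
  rw [← (eqL phi k S).sum_comp, Fintype.sum_sigma]
  rfl

private theorem M2_w (a : A) {S : Finset ι} (f₀ : S → Nz I) :
    ∏ q : S, (if phi a ⬝ᵥ (f₀ q).1 = 0 then (1 : ℂ) else ((3 : ℂ) ^ k a)⁻¹) =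
      (((3 : ℂ) ^ k a)⁻¹) ^ (Rx (phi a) (⟨S, f₀⟩ : Cb ι I)).card := by
  classical
  have h1 : (Rx (phi a) (⟨S, f₀⟩ : Cb ι I)).card =
      ((univ : Finset ↥S).filter fun q : ↥S => ¬ phi a ⬝ᵥ (f₀ q).1 = 0).card := by
    refine card_bij' (fun q hq => ⟨q, (mem_filter.1 hq).1⟩) (fun q _ => q.1) (fun q hq => ?_)
      (fun q hq => ?_) (fun q _ => rfl) (fun q _ => rfl)
    · refine mem_filter.2 ⟨mem_univ _, ?_⟩
      have h2 := (mem_filter.1 hq).2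
      have h3 := cx_mk (phi a) f₀ ⟨q, (mem_filter.1 hq).1⟩
      rw [← h3]
      exact h2
    · refine mem_filter.2 ⟨q.2, ?_⟩
      rw [cx_mk]
      exact (mem_filter.1 hq).2
  rw [h1, prod_ite, prod_const_one, one_mul, prod_const]

theorem prod_nM {S : Finset ι} (f₀ : S → Nz I) (g : GS phi k f₀) :
    ∏ q : S, (nM (mkL f₀ g q) : ℂ) =
      ∏ a, (((3 : ℂ) ^ k a)⁻¹) ^ (Rx (phi a) (⟨S, f₀⟩ : Cb ι I)).card := by
  have h1 : ∀ q : S, (nM (mkL f₀ g q) : ℂ) =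
      ∏ a, if phi a ⬝ᵥ (f₀ q).1 = 0 then (1 : ℂ) else ((3 : ℂ) ^ k a)⁻¹ := by
    intro q
    unfold nM
    push_cast
    refine prod_congr rfl fun a _ => ?_
    have h2 : (mkL f₀ g q).col = f₀ q := rfl
    rw [h2]
    split_ifs <;> push_cast <;> rfl
  rw [prod_congr rfl fun q _ => h1 q, prod_comm]
  exact prod_congr rfl fun a _ => M2_w a f₀

/-- The exponent of a labelling. -/
theorem eL_mkL (D : Dt ι κ) (m : ∀ a, E a → Lab3 (k a)) (ψ : I → κ → ZMod 3) {S : Finset ι}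
    (f₀ : S → Nz I) (g : GS phi k f₀) :
    D.eL PM (cM phi c P m ψ) S (mkL f₀ g) =
      ∑ a, eE D (cx (phi a) ⟨S, f₀⟩) (cE (c a) (P a) (m a)) S (fun q => g.1 q a) +
        twM D ψ ⟨S, f₀⟩ := by
  have hc : ∀ q : S, (mkL f₀ g q).col = f₀ q := fun _ => rfl
  have hv : ∀ (q : S) (a : A), (mkL f₀ g q).v a = g.1 q a := fun _ _ => rfl
  have h1 : ∀ q : S, D.lin (cM phi c P m ψ (mkL f₀ g q)) q =
      ∑ a, cx (phi a) ⟨S, f₀⟩ q * D.lin (cE (c a) (P a) (m a) (g.1 q a)) q +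
        ∑ i, (f₀ q).1 i * D.lin (ψ i) q := by
    intro q
    have h2 : ∀ j, cM phi c P m ψ (mkL f₀ g q) j = ∑ a, (phi a ⬝ᵥ (f₀ q).1) *
        cE (c a) (P a) (m a) (g.1 q a) j + ∑ i, (f₀ q).1 i * ψ i j := fun _ => rfl
    unfold Dt.lin
    simp only [h2, cx_mk, add_mul, sum_add_distrib, sum_mul, mul_sum]
    congr 1
    · rw [sum_comm]
      exact sum_congr rfl fun a _ => sum_congr rfl fun j _ => by ring
    · rw [sum_comm]
      exact sum_congr rfl fun a _ => sum_congr rfl fun j _ => by ring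
  have h3 : ∑ q : S, ∑ i, (f₀ q).1 i * D.lin (ψ i) q = twM D ψ ⟨S, f₀⟩ := by
    unfold twM
    rw [← sum_coe_sort S fun q => ∑ i, cz (⟨S, f₀⟩ : Cb ι I) q i * D.lin (ψ i) q]
    exact sum_congr rfl fun q _ => sum_congr rfl fun i _ => by rw [cz_mk]
  have h4 : ∀ q p : S, PM (mkL f₀ g q) (mkL f₀ g p) * D.s q p = ∑ a,
      cx (phi a) ⟨S, f₀⟩ q * cx (phi a) ⟨S, f₀⟩ p * Phi3 (g.1 q a) (g.1 p a) * D.s q p := by
    intro q p
    unfold PM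
    rw [sum_mul]
    refine sum_congr rfl fun a _ => ?_
    rw [hc, hc, hv, hv, cx_mk, cx_mk]
  unfold Dt.eL eE
  simp only [h1, h4, sum_add_distrib]
  rw [h3, sum_comm (s := (univ : Finset ↥S)) (t := (univ : Finset A))]
  have h5 : ∑ q : S, ∑ p : S, ∑ a, cx (phi a) ⟨S, f₀⟩ q * cx (phi a) ⟨S, f₀⟩ p *
      Phi3 (g.1 q a) (g.1 p a) * D.s q p = ∑ a, ∑ q : S, ∑ p : S, cx (phi a) ⟨S, f₀⟩ q *
      cx (phi a) ⟨S, f₀⟩ p * Phi3 (g.1 q a) (g.1 p a) * D.s q p := by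
    rw [sum_comm (s := (univ : Finset A))]
    exact sum_congr rfl fun q _ => sum_comm
  rw [h5]
  ring

/-- **The expansion for one colouring.** -/
theorem kBM_exp (D : Dt ι κ) (ψ : I → κ → ZMod 3) {S : Finset ι} (f₀ : S → Nz I) :
    e3 (twM D ψ ⟨S, f₀⟩) * (∏ a, (kBM D phi c P R a ⟨S, f₀⟩ : ℂ) ^ k a) *
      ∏ a, ((3 : ℂ) ^ k a) ^ Fintype.card (E a) =
    ∑ m : (∀ a, E a → Lab3 (k a)), (∏ a, e3 (RF (R a) (m a))) * ∑ g : GS phi k f₀,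
      (∏ q : S, (nM (mkL f₀ g q) : ℂ)) * e3 (D.eL PM (cM phi c P m ψ) S (mkL f₀ g)) := by
  classical
  obtain ⟨b, hb⟩ : ∃ b : Cb ι I, b = ⟨S, f₀⟩ := ⟨_, rfl⟩
  have h0 : ∀ a, ((3 : ℂ) ^ k a) ^ (Rx (phi a) b).card ≠ 0 := fun a =>
    pow_ne_zero _ (pow_ne_zero _ (by norm_num))
  have h1 : ∀ a, (kBM D phi c P R a ⟨S, f₀⟩ : ℂ) ^ k a * ((3 : ℂ) ^ k a) ^ Fintype.card (E a) =
      (((3 : ℂ) ^ k a)⁻¹) ^ (Rx (phi a) b).card *
        ∑ m : E a → Lab3 (k a), e3 (RF (R a) m) * ∑ g : S → Lab3 (k a),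
        if ∀ q : S, phi a ⬝ᵥ (f₀ q).1 = 0 → g q = 0 then
          e3 (eE D (cx (phi a) ⟨S, f₀⟩) (cE (c a) (P a) m) S g) else 0 := by
    intro a
    rw [← kBM_one (k := k) c P R D a f₀, ← hb, pow_add, inv_pow]
    field_simp [h0 a]
  rw [mul_assoc, ← prod_mul_distrib, prod_congr rfl fun a _ => h1 a, prod_mul_distrib]
  rw [Finset.prod_univ_sum, Fintype.piFinset_univ, mul_sum, mul_sum]
  refine sum_congr rfl fun m _ => ?_
  rw [prod_mul_distrib, Finset.prod_univ_sum, Fintype.piFinset_univ]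
  have h2 : ∀ g : (∀ a, S → Lab3 (k a)), (∏ a, if ∀ q : S, phi a ⬝ᵥ (f₀ q).1 = 0 → g a q = 0 then
      e3 (eE D (cx (phi a) ⟨S, f₀⟩) (cE (c a) (P a) (m a)) S (g a)) else 0) =
      if ∀ q a, phi a ⬝ᵥ (f₀ q).1 = 0 → g a q = 0 then
        e3 (∑ a, eE D (cx (phi a) ⟨S, f₀⟩) (cE (c a) (P a) (m a)) S (g a)) else 0 := by
    intro g
    by_cases h : ∀ q a, phi a ⬝ᵥ (f₀ q).1 = 0 → g a q = 0
    · rw [if_pos h, e3_sum]
      exact prod_congr rfl fun a _ => if_pos fun q => h q a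
    · rw [if_neg h]
      push Not at h
      obtain ⟨q, a, h3, h4⟩ := h
      exact prod_eq_zero (mem_univ a) (if_neg fun h5 => h4 (h5 q h3))
  rw [sum_congr rfl fun g _ => h2 g,
    ← Equiv.sum_comp (Equiv.piComm fun (_ : S) (a : A) => Lab3 (k a))]
  have h3 : ∑ g : S → LabP k, (if ∀ q a, phi a ⬝ᵥ (f₀ q).1 = 0 → g q a = 0 then
      e3 (∑ a, eE D (cx (phi a) ⟨S, f₀⟩) (cE (c a) (P a) (m a)) S (fun q => g q a)) else 0) =
      ∑ g : GS phi k f₀, e3 (∑ a, eE D (cx (phi a) ⟨S, f₀⟩) (cE (c a) (P a) (m a)) S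
        (fun q => g.1 q a)) := by
    rw [← sum_filter]
    exact sum_subtype _ (fun g => by simp) fun g : S → LabP k =>
      e3 (∑ a, eE D (cx (phi a) ⟨S, f₀⟩) (cE (c a) (P a) (m a)) S (fun q => g q a))
  have h4 : ∀ g : GS phi k f₀, (∏ q : S, (nM (mkL f₀ g q) : ℂ)) *
      e3 (D.eL PM (cM phi c P m ψ) S (mkL f₀ g)) =
      (∏ a, (((3 : ℂ) ^ k a)⁻¹) ^ (Rx (phi a) b).card) * e3 (twM D ψ ⟨S, f₀⟩) *
        e3 (∑ a, eE D (cx (phi a) ⟨S, f₀⟩) (cE (c a) (P a) (m a)) S (fun q => g.1 q a)) := by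
    intro g
    rw [prod_nM, eL_mkL, e3_add, hb]
    ring
  rw [sum_congr rfl fun g _ => h4 g, ← mul_sum, ← h3]
  have h5 : ∑ x : S → LabP k, (if ∀ q a, phi a ⬝ᵥ (f₀ q).1 = 0 →
      (Equiv.piComm fun (_ : S) (a : A) => Lab3 (k a)) x a q = 0 then
      e3 (∑ a, eE D (cx (phi a) ⟨S, f₀⟩) (cE (c a) (P a) (m a)) S
        ((Equiv.piComm fun (_ : S) (a : A) => Lab3 (k a)) x a)) else 0) =
      ∑ g : S → LabP k, (if ∀ q a, phi a ⬝ᵥ (f₀ q).1 = 0 → g q a = 0 then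
      e3 (∑ a, eE D (cx (phi a) ⟨S, f₀⟩) (cE (c a) (P a) (m a)) S (fun q => g q a)) else 0) := rfl
  rw [h5]
  ring

end

end Pool.Agent.Lib.MP_1a91b9_ntMC
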