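import Pool.Agent.Lib.MP_1a91b9_ntMC.M2
import Pool.Agent.Lib.MP_1a91b9_ntMC.C3
import Pool.Agent.Lib.MP_1a91b9_ntMC.KM

/-!
# MP_1a91b9_nt (all the multicubic fields): the joint moments in the fine classes
-/

set_option autoImplicit false
set_option linter.unusedSectionVars false

namespace Pool.Agent.Lib.MP_1a91b9_ntMC

open Finset Pool.Agent.Lib.MP_1a91b9_ntH Pool.Agent.Lib.MP_1a91b9_ntK Pool.Agent.Lib.MP_1a91b9_ntK.Da
open Pool.Agent.Lib.MP_1a91b9_ntN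
open Pool.Agent.Lib.MP_1a91b9_ntMN (Yh)

noncomputable section

variable {I A : Type} [Fintype I] [DecidableEq I] [Fintype A] [DecidableEq A] {ι : Type} [DecidableEq ι]
  {κ : Type} [Fintype κ] [DecidableEq κ] {E : A → Type} [∀ a, Fintype (E a)] [∀ a, DecidableEq (E a)]
  {phi : A → I → ZMod 3} {k : A → ℕ}

/-! ### The main terms -/

/-- The main term of the characters `ψ`. -/
def TEPM (phi : A → I → ZMod 3) (k : A → ℕ) (c : A → κ → ZMod 3) (P : ∀ a, κ → E a → ZMod 3)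
    (R : ∀ a, Matrix (E a) (E a) (ZMod 3)) (ψ : I → κ → ZMod 3) : ℂ :=
  ∑ m : (∀ a, E a → Lab3 (k a)), (∏ a, e3 (RF (R a) (m a))) * ((MsM phi k c P m ψ).card : ℂ)

open Classical in
/-- The main term is the convolution product of the single main terms. -/
theorem TEPM_eq {c : A → κ → ZMod 3} (hs : Sp3 phi c) (P : ∀ a, κ → E a → ZMod 3)
    (R : ∀ a, Matrix (E a) (E a) (ZMod 3)) (ψ : I → κ → ZMod 3) :
    TEPM phi k c P R ψ = ∑ y : A → κ → ZMod 3, if ∀ i j, ∑ a, phi a i * y a j = -ψ i j then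
      ∏ a, TE (k a) (c a) (P a) (R a) (y a) else 0 := by
  have h1 : ∀ m : (∀ a, E a → Lab3 (k a)), (∏ a, e3 (RF (R a) (m a))) *
      ((MsM phi k c P m ψ).card : ℂ) =
      ∑ y : A → κ → ZMod 3, if ∀ i j, ∑ a, phi a i * y a j = -ψ i j then
        ∏ a, (e3 (RF (R a) (m a)) * ((MsE (c a) (P a) (m a) (y a)).card : ℂ)) else 0 := by
    intro m
    rw [card_MsM hs, Nat.cast_sum, mul_sum]
    refine sum_congr rfl fun y _ => ?_
    split_ifs
    · rw [Nat.cast_prod, prod_mul_distrib]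
    · rw [Nat.cast_zero, mul_zero]
  rw [TEPM, sum_congr rfl fun m _ => h1 m, sum_comm]
  refine sum_congr rfl fun y _ => ?_
  split_ifs
  · simp only [TE]
    rw [Finset.prod_univ_sum, Fintype.piFinset_univ]
  · exact sum_const_zero

/-- **The sum of the main terms is the product of the single sums.** -/
theorem TEPM_sum {c : A → κ → ZMod 3} (hs : Sp3 phi c) (P : ∀ a, κ → E a → ZMod 3)
    (R : ∀ a, Matrix (E a) (E a) (ZMod 3)) (γ : I → κ → ZMod 3) :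
    ∑ ψ : I → κ → ZMod 3, e3 (∑ i, ∑ j, -ψ i j * γ i j) * TEPM phi k c P R ψ =
      ∏ a, ∑ c0 : κ → ZMod 3, e3 (∑ j, c0 j * ga phi γ a j) * TE (k a) (c a) (P a) (R a) c0 := by
  classical
  have h1 : ∀ ψ : I → κ → ZMod 3, e3 (∑ i, ∑ j, -ψ i j * γ i j) * TEPM phi k c P R ψ =
      ∑ y : A → κ → ZMod 3, if ψ = (fun i j => -∑ a, phi a i * y a j) then
        e3 (∑ i, ∑ j, -ψ i j * γ i j) * ∏ a, TE (k a) (c a) (P a) (R a) (y a) else 0 := by
    intro ψ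
    rw [TEPM_eq hs, mul_sum]
    refine sum_congr rfl fun y _ => ?_
    have h2 : (∀ i j, ∑ a, phi a i * y a j = -ψ i j) ↔ ψ = (fun i j => -∑ a, phi a i * y a j) := by
      constructor
      · intro h
        funext i j
        rw [h i j, neg_neg]
      · intro h i j
        rw [h, neg_neg]
    by_cases h : ∀ i j, ∑ a, phi a i * y a j = -ψ i j
    · rw [if_pos h, if_pos (h2.1 h)]
    · rw [if_neg h, if_neg fun h3 => h (h2.2 h3), mul_zero]
  rw [sum_congr rfl fun ψ _ => h1 ψ, sum_comm, Finset.prod_univ_sum, Fintype.piFinset_univ]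
  refine sum_congr rfl fun y _ => ?_
  rw [sum_ite_eq', if_pos (mem_univ _), prod_mul_distrib, ← e3_sum]
  congr 2
  simp only [neg_neg, ga, sum_mul, mul_sum]
  rw [sum_comm' (s := univ) (t := fun _ => univ) (t' := univ) (s' := fun _ => univ)
    (f := fun i j => ∑ a, phi a i * y a j * γ i j) (fun _ _ => by simp)]
  have h3 : ∀ j, ∑ i, ∑ a, phi a i * y a j * γ i j = ∑ a, ∑ i, y a j * (phi a i * γ i j) := by
    intro j
    rw [sum_comm]
    exact sum_congr rfl fun a _ => sum_congr rfl fun i _ => by ring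
  rw [sum_congr rfl fun j _ => h3 j, sum_comm]

/-! ### The expansion -/

variable (c : A → κ → ZMod 3) (P : ∀ a, κ → E a → ZMod 3) (R : ∀ a, Matrix (E a) (E a) (ZMod 3))

/-- The weighted mean values. -/
def MoPM (phi : A → I → ZMod 3) (D : Dt ι κ) (Z : ℕ → Finset (Finset ι)) (k : A → ℕ)
    (ψ : I → κ → ZMod 3) (X : ℕ) : ℂ :=
  ∑ b ∈ BX I Z X, e3 (twM D ψ b) * (kPM D phi c P R k b : ℂ)

theorem MoPM_eq (D : Dt ι κ) (Z : ℕ → Finset (Finset ι)) (ψ : I → κ → ZMod 3) (X : ℕ) :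
    MoPM c P R phi D Z k ψ X * ∏ a, ((3 : ℂ) ^ k a) ^ Fintype.card (E a) =
      ∑ m : (∀ a, E a → Lab3 (k a)), (∏ a, e3 (RF (R a) (m a))) * ∑ S ∈ Z X,
        ∑ f : S → LbM phi k, (∏ j : S, (nM (f j) : ℂ)) * e3 (D.eL PM (cM phi c P m ψ) S f) := by
  rw [MoPM, sum_BX, sum_mul]
  have h1 : ∀ S ∈ Z X, (∑ f₀ : S → Nz I, e3 (twM D ψ ⟨S, f₀⟩) * (kPM D phi c P R k ⟨S, f₀⟩ : ℂ)) *
      ∏ a, ((3 : ℂ) ^ k a) ^ Fintype.card (E a) =
      ∑ m : (∀ a, E a → Lab3 (k a)), (∏ a, e3 (RF (R a) (m a))) *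
        ∑ f : S → LbM phi k, (∏ j : S, (nM (f j) : ℂ)) * e3 (D.eL PM (cM phi c P m ψ) S f) := by
    intro S _
    rw [sum_mul]
    have h2 : ∀ f₀ : S → Nz I, e3 (twM D ψ ⟨S, f₀⟩) * (kPM D phi c P R k ⟨S, f₀⟩ : ℂ) *
        ∏ a, ((3 : ℂ) ^ k a) ^ Fintype.card (E a) =
        ∑ m : (∀ a, E a → Lab3 (k a)), (∏ a, e3 (RF (R a) (m a))) * ∑ g : GS phi k f₀,
          (∏ q : S, (nM (mkL f₀ g q) : ℂ)) * e3 (D.eL PM (cM phi c P m ψ) S (mkL f₀ g)) := by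
      intro f₀
      rw [← kBM_exp, kPM]
      push_cast
      rfl
    rw [sum_congr rfl fun f₀ _ => h2 f₀, sum_comm]
    refine sum_congr rfl fun m _ => ?_
    rw [sum_LbM, mul_sum]
  rw [sum_congr rfl h1, sum_comm]
  exact sum_congr rfl fun m _ => (mul_sum _ _ _).symm

/-- The limit of the weighted mean values. -/
theorem MoPM_lim [Nonempty I] {D : Dt ι κ} {Z : ℕ → Finset (Finset ι)} (hD : EngMD D Z)
    (ψ : I → κ → ZMod 3) (ε : ℝ) (hε : 0 < ε) : ∃ X₀ : ℕ, ∀ X : ℕ, X₀ ≤ X →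
    ‖MoPM c P R phi D Z k ψ X * ∏ a, ((3 : ℂ) ^ k a) ^ Fintype.card (E a) -
      TEPM phi k c P R ψ * (NZ Z (hN I) X : ℂ)‖ ≤ ε * Yh (hN I) X := by
  classical
  have hN0 : (0 : ℝ) < Fintype.card (∀ a, E a → Lab3 (k a)) := by
    exact_mod_cast Fintype.card_pos
  choose X0 h0 using fun m : (∀ a, E a → Lab3 (k a)) =>
    hD (LbM phi k) (Nz I) LbM.col PM nM (hN I) (MM k) (UsM phi k) (cM phi c P m ψ) (wsM phi k)
      (ε / Fintype.card (∀ a, E a → Lab3 (k a))) (by positivity)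
  refine ⟨∑ m, X0 m, fun X hX => ?_⟩
  have hXt : ∀ m, X0 m ≤ X := fun m =>
    (single_le_sum (fun _ _ => Nat.zero_le _) (mem_univ m)).trans hX
  rw [MoPM_eq, TEPM, sum_mul, ← sum_sub_distrib]
  calc ‖∑ m : (∀ a, E a → Lab3 (k a)), ((∏ a, e3 (RF (R a) (m a))) * ∑ S ∈ Z X,
        ∑ f : S → LbM phi k, (∏ j : S, (nM (f j) : ℂ)) * e3 (D.eL PM (cM phi c P m ψ) S f) -
        (∏ a, e3 (RF (R a) (m a))) * ((MsM phi k c P m ψ).card : ℂ) * (NZ Z (hN I) X : ℂ))‖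
      ≤ ∑ _m : (∀ a, E a → Lab3 (k a)),
          ε / Fintype.card (∀ a, E a → Lab3 (k a)) * Yh (hN I) X := by
        refine (norm_sum_le _ _).trans (sum_le_sum fun m _ => ?_)
        have h2 := h0 m X (hXt m)
        rw [mul_assoc, ← mul_sub, norm_mul, norm_prod, prod_congr rfl fun a _ => norm_e3 _,
          prod_const_one, one_mul]
        exact h2
    _ = ε * Yh (hN I) X := by
        rw [sum_const, card_univ, nsmul_eq_mul]
        field_simp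

/-! ### The fine classes -/

theorem sum_SGM (D : Dt ι κ) (Z : ℕ → Finset (Finset ι)) (γ : I → κ → ZMod 3) (X : ℕ)
    (F : Cb ι I → ℂ) : (3 ^ (Fintype.card I * Fintype.card κ) : ℂ) * ∑ b ∈ SGM D Z γ X, F b =
      ∑ ψ : I → κ → ZMod 3, e3 (∑ i, ∑ j, -ψ i j * γ i j) *
        ∑ b ∈ BX I Z X, e3 (twM D ψ b) * F b := by
  classical
  have h1 : ∀ b : Cb ι I, ∑ ψ : I → κ → ZMod 3, e3 (∑ i, ∑ j, -ψ i j * γ i j) *
      (e3 (twM D ψ b) * F b) =
      if ∀ i j, ∑ q ∈ b.1, cz b q i * D.a q j = γ i j then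
        (3 ^ (Fintype.card I * Fintype.card κ) : ℂ) * F b else 0 := by
    intro b
    have h2 : ∀ ψ : I × κ → ZMod 3, e3 (∑ i, ∑ j, -(Equiv.curry I κ (ZMod 3) ψ) i j * γ i j) *
        (e3 (twM D (Equiv.curry I κ (ZMod 3) ψ) b) * F b) =
        e3 (ψ ⬝ᵥ fun p => ∑ q ∈ b.1, cz b q p.1 * D.a q p.2 - γ p.1 p.2) * F b := by
      intro ψ
      rw [← mul_assoc, ← e3_add]
      congr 2
      unfold twM Dt.lin
      rw [dotProduct, Fintype.sum_prod_type]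
      have h3 : ∑ q ∈ b.1, ∑ i, cz b q i * ∑ j, (Equiv.curry I κ (ZMod 3) ψ) i j * D.a q j =
          ∑ i, ∑ j, ψ (i, j) * ∑ q ∈ b.1, cz b q i * D.a q j := by
        rw [sum_comm]
        refine sum_congr rfl fun i _ => ?_
        simp only [mul_sum]
        rw [sum_comm]
        refine sum_congr rfl fun j _ => sum_congr rfl fun q _ => ?_
        show cz b q i * (ψ (i, j) * D.a q j) = _
        ring
      rw [h3, ← sum_add_distrib]
      refine sum_congr rfl fun i _ => ?_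
      rw [← sum_add_distrib]
      refine sum_congr rfl fun j _ => ?_
      show -ψ (i, j) * γ i j + _ = _
      ring
    rw [← (Equiv.curry I κ (ZMod 3)).sum_comp, sum_congr rfl fun ψ _ => h2 ψ, ← sum_mul, sum_dotR]
    have h3 : (fun p : I × κ => ∑ q ∈ b.1, cz b q p.1 * D.a q p.2 - γ p.1 p.2) = 0 ↔
        ∀ i j, ∑ q ∈ b.1, cz b q i * D.a q j = γ i j := by
      constructor
      · intro h i j
        exact sub_eq_zero.1 (congrFun h (i, j))
      · intro h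
        funext p
        exact sub_eq_zero.2 (h p.1 p.2)
    by_cases h : ∀ i j, ∑ q ∈ b.1, cz b q i * D.a q j = γ i j
    · rw [if_pos h, if_pos (h3.2 h), Fintype.card_prod]
    · rw [if_neg h, if_neg fun h4 => h (h3.1 h4), zero_mul]
  simp only [mul_sum (s := BX I Z X)]
  rw [sum_comm, sum_congr rfl fun b _ => h1 b, SGM, ← sum_filter, mul_sum]

theorem nuP_zero (α : κ → ZMod 3) (a : A) : nuP c P R α (fun _ => 0) a = 1 := by
  rw [nuP]
  simp [Nk3]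

variable {c P R}

/-- The moments in the fine classes. -/
theorem fine_lim [Nonempty I] {D : Dt ι κ} {Z : ℕ → Finset (Finset ι)} (hD : EngMD D Z)
    (hs : Sp3 phi c) (hR : ∀ a e f, R a e f = R a f e)
    (hP : ∀ a, ∀ x : E a → ZMod 3, (∀ j, ∑ e, P a j e * x e = 0) → x = 0) (γ : I → κ → ZMod 3)
    (k : A → ℕ) (ε : ℝ) (hε : 0 < ε) : ∃ X₀ : ℕ, ∀ X : ℕ, X₀ ≤ X →
      |3 ^ (Fintype.card I * Fintype.card κ) * ∑ b ∈ SGM D Z γ X, (kPM D phi c P R k b : ℝ) -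
        (∏ a, nuP c P R (ga phi γ a) k a) * NZ Z (hN I) X| ≤ ε * Yh (hN I) X := by
  classical
  have hN0 : (0 : ℝ) < Fintype.card (I → κ → ZMod 3) := by exact_mod_cast Fintype.card_pos
  choose X0 h0 using fun ψ : I → κ → ZMod 3 => MoPM_lim (k := k) c P R (phi := phi) hD ψ
    (ε / Fintype.card (I → κ → ZMod 3)) (by positivity)
  refine ⟨∑ ψ, X0 ψ, fun X hX => ?_⟩
  have hXt : ∀ ψ, X0 ψ ≤ X := fun ψ =>
    (single_le_sum (fun _ _ => Nat.zero_le _) (mem_univ ψ)).trans hX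
  obtain ⟨W, hW⟩ : ∃ W : ℝ, W = ∏ a, ((3 : ℝ) ^ k a) ^ Fintype.card (E a) := ⟨_, rfl⟩
  have hWc : ∏ a, ((3 : ℂ) ^ k a) ^ Fintype.card (E a) = (W : ℂ) := by
    rw [hW]
    push_cast
    rfl
  have hW1 : 1 ≤ W := by
    rw [hW]
    calc (1 : ℝ) = ∏ _a : A, (1 : ℝ) := prod_const_one.symm
      _ ≤ _ := prod_le_prod (fun _ _ => zero_le_one) fun a _ =>
        one_le_pow₀ (one_le_pow₀ (by norm_num))
  obtain ⟨ν, hν⟩ : ∃ ν : ℝ, ν = ∏ a, nuP c P R (ga phi γ a) k a := ⟨_, rfl⟩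
  have e1 := sum_SGM D Z γ X fun b => (kPM D phi c P R k b : ℂ)
  have e2 : ∑ ψ : I → κ → ZMod 3, e3 (∑ i, ∑ j, -ψ i j * γ i j) * TEPM phi k c P R ψ =
      (W : ℂ) * ν := by
    rw [TEPM_sum hs, hν, ← hWc]
    have h1 : ∀ a, ∑ c0 : κ → ZMod 3, e3 (∑ j, c0 j * ga phi γ a j) * TE (k a) (c a) (P a) (R a) c0 =
        ((3 : ℂ) ^ k a) ^ Fintype.card (E a) * ((nuP c P R (ga phi γ a) k a : ℝ) : ℂ) := fun a => by
      rw [TE_sum (hR a) (hP a) (ga phi γ a), nuP]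
      push_cast
      split_ifs <;> push_cast <;> rfl
    rw [prod_congr rfl fun a _ => h1 a, prod_mul_distrib]
    push_cast
    rfl
  have e3' : (3 ^ (Fintype.card I * Fintype.card κ) : ℂ) *
      (∑ b ∈ SGM D Z γ X, (kPM D phi c P R k b : ℂ)) * W - W * ν * (NZ Z (hN I) X : ℂ) =
      ∑ ψ : I → κ → ZMod 3, e3 (∑ i, ∑ j, -ψ i j * γ i j) *
        (MoPM c P R phi D Z k ψ X * W - TEPM phi k c P R ψ * (NZ Z (hN I) X : ℂ)) := by
    rw [e1, sum_mul, ← e2, sum_mul, ← sum_sub_distrib]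
    refine sum_congr rfl fun ψ _ => ?_
    rw [MoPM]
    ring
  have h5 : ‖(3 ^ (Fintype.card I * Fintype.card κ) : ℂ) *
      (∑ b ∈ SGM D Z γ X, (kPM D phi c P R k b : ℂ)) * W - W * ν * (NZ Z (hN I) X : ℂ)‖ ≤
      ε * Yh (hN I) X := by
    rw [e3']
    refine (norm_sum_le _ _).trans ?_
    calc ∑ ψ : I → κ → ZMod 3, ‖e3 (∑ i, ∑ j, -ψ i j * γ i j) *
        (MoPM c P R phi D Z k ψ X * W - TEPM phi k c P R ψ * (NZ Z (hN I) X : ℂ))‖
        ≤ ∑ _ψ : I → κ → ZMod 3, ε / Fintype.card (I → κ → ZMod 3) * Yh (hN I) X := by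
          refine sum_le_sum fun ψ _ => ?_
          rw [norm_mul, norm_e3, one_mul, ← hWc]
          exact h0 ψ X (hXt ψ)
      _ = ε * Yh (hN I) X := by
          rw [sum_const, card_univ, nsmul_eq_mul]
          field_simp
  have h6 : (3 ^ (Fintype.card I * Fintype.card κ) : ℂ) *
      (∑ b ∈ SGM D Z γ X, (kPM D phi c P R k b : ℂ)) * W - W * ν * (NZ Z (hN I) X : ℂ) =
      ((W * (3 ^ (Fintype.card I * Fintype.card κ) * ∑ b ∈ SGM D Z γ X, (kPM D phi c P R k b : ℝ) -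
        ν * NZ Z (hN I) X) : ℝ) : ℂ) := by
    push_cast
    ring
  rw [h6, Complex.norm_real, Real.norm_eq_abs, abs_mul, abs_of_pos (by linarith : 0 < W), hν] at h5
  exact (le_mul_of_one_le_left (abs_nonneg _) hW1).trans h5

/-- **The joint moments in the fine classes.** -/
theorem mom_kPM [Nonempty I] {D : Dt ι κ} {Z : ℕ → Finset (Finset ι)} (hD : EngMD D Z)
    {c : A → κ → ZMod 3} (hs : Sp3 phi c) {P : ∀ a, κ → E a → ZMod 3}
    {R : ∀ a, Matrix (E a) (E a) (ZMod 3)} (hR : ∀ a e f, R a e f = R a f e)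
    (hP : ∀ a, ∀ x : E a → ZMod 3, (∀ j, ∑ e, P a j e * x e = 0) → x = 0) (γ : I → κ → ZMod 3)
    (k : A → ℕ) :
    MVY (hN I) (SGM D Z γ) (fun b => (kPM D phi c P R k b : ℝ)) (∏ a, nuP c P R (ga phi γ a) k a) := by
  classical
  intro ε hε
  obtain ⟨ν, hν⟩ : ∃ ν : ℝ, ν = ∏ a, nuP c P R (ga phi γ a) k a := ⟨_, rfl⟩
  have hν0 : 0 ≤ ν := by
    rw [hν]
    refine prod_nonneg fun a _ => ?_
    rw [nuP]
    split_ifs <;> positivity
  obtain ⟨X1, h1⟩ := fine_lim hD hs hR hP γ k (ε / 2) (by positivity)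
  obtain ⟨X2, h2⟩ := fine_lim hD hs hR hP γ (fun _ => 0) (ε / (2 * (ν + 1))) (by positivity)
  refine ⟨max X1 X2, fun X hX => ?_⟩
  have h3 := h1 X ((le_max_left _ _).trans hX)
  have h4 := h2 X ((le_max_right _ _).trans hX)
  have h5 : ∀ b : Cb ι I, kPM D phi c P R (fun _ => 0) b = 1 := fun b =>
    prod_eq_one fun a _ => pow_zero _
  simp only [h5, nuP_zero, prod_const_one, Nat.cast_one, one_mul, sum_const, nsmul_eq_mul,
    mul_one] at h4
  rw [← hν] at h3 ⊢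
  obtain ⟨W, hW⟩ : ∃ W : ℝ, W = 3 ^ (Fintype.card I * Fintype.card κ) := ⟨_, rfl⟩
  have hW1 : 1 ≤ W := by
    rw [hW]
    exact one_le_pow₀ (by norm_num)
  rw [← hW] at h3 h4
  have hY : 0 ≤ Yh (hN I) X := Pool.Agent.Lib.MP_1a91b9_ntMN.Yh_nonneg _ _
  have h6 : ν * (ε / (2 * (ν + 1)) * Yh (hN I) X) ≤ ε / 2 * Yh (hN I) X := by
    rw [← mul_assoc]
    refine mul_le_mul_of_nonneg_right ?_ hY
    rw [mul_div_assoc', div_le_div_iff₀ (by positivity) (by positivity)]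
    nlinarith
  have h7 : |W * (∑ b ∈ SGM D Z γ X, (kPM D phi c P R k b : ℝ) - ν * (SGM D Z γ X).card)| ≤
      ε * Yh (hN I) X := by
    have e : W * (∑ b ∈ SGM D Z γ X, (kPM D phi c P R k b : ℝ) - ν * (SGM D Z γ X).card) =
        (W * ∑ b ∈ SGM D Z γ X, (kPM D phi c P R k b : ℝ) - ν * NZ Z (hN I) X) -
        ν * (W * (SGM D Z γ X).card - NZ Z (hN I) X) := by ring
    rw [e]
    refine (abs_sub _ _).trans ?_
    rw [abs_mul, abs_of_nonneg hν0]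
    have h8 := mul_le_mul_of_nonneg_left h4 hν0
    linarith
  rw [abs_mul, abs_of_pos (by linarith : 0 < W)] at h7
  exact (le_mul_of_one_le_left (abs_nonneg _) hW1).trans h7

/-- A bound for the moments. -/
theorem bnd_kPM [Nonempty I] {D : Dt ι κ} {Z : ℕ → Finset (Finset ι)} (hD : EngMD D Z) {K : ℝ}
    (hK : ∃ X₀ : ℕ, ∀ X : ℕ, X₀ ≤ X → NZ Z (hN I) X ≤ K * Yh (hN I) X) (phi : A → I → ZMod 3)
    (c : A → κ → ZMod 3) (P : ∀ a, κ → E a → ZMod 3) (R : ∀ a, Matrix (E a) (E a) (ZMod 3)) (k : A → ℕ) :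
    ∃ C : ℝ, 0 ≤ C ∧ ∃ X₀ : ℕ, ∀ X : ℕ, X₀ ≤ X →
      ∑ b ∈ BX I Z X, (kPM D phi c P R k b : ℝ) ≤ C * Yh (hN I) X := by
  classical
  obtain ⟨X1, h1⟩ := MoPM_lim (k := k) (phi := phi) c P R hD 0 1 one_pos
  obtain ⟨X2, h2⟩ := hK
  refine ⟨‖TEPM phi k c P R 0‖ * |K| + 1, by positivity, max X1 X2, fun X hX => ?_⟩
  have h3 := h1 X ((le_max_left _ _).trans hX)
  have h4 := h2 X ((le_max_right _ _).trans hX)
  have hY : 0 ≤ Yh (hN I) X := Pool.Agent.Lib.MP_1a91b9_ntMN.Yh_nonneg _ _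
  have hNZ : 0 ≤ NZ Z (hN I) X := sum_nonneg fun _ _ => by positivity
  have h5 : MoPM c P R phi D Z k 0 X = ((∑ b ∈ BX I Z X, (kPM D phi c P R k b : ℝ) : ℝ) : ℂ) := by
    rw [MoPM]
    push_cast
    refine sum_congr rfl fun b _ => ?_
    have h6 : twM D (0 : I → κ → ZMod 3) b = 0 := by
      unfold twM Dt.lin
      refine sum_eq_zero fun q _ => sum_eq_zero fun i _ => ?_
      rw [sum_eq_zero fun j _ => by rw [Pi.zero_apply, Pi.zero_apply, zero_mul], mul_zero]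
    rw [h6, e3_zero, one_mul]
  obtain ⟨T, hT⟩ : ∃ T : ℝ, T = ∑ b ∈ BX I Z X, (kPM D phi c P R k b : ℝ) := ⟨_, rfl⟩
  have hT0 : 0 ≤ T := by
    rw [hT]
    exact sum_nonneg fun b _ => Nat.cast_nonneg _
  rw [h5, ← hT] at h3
  rw [← hT]
  have h7 : 1 ≤ ‖∏ a, ((3 : ℂ) ^ k a) ^ Fintype.card (E a)‖ := by
    rw [norm_prod]
    calc (1 : ℝ) = ∏ _a : A, (1 : ℝ) := prod_const_one.symm
      _ ≤ _ := prod_le_prod (fun _ _ => zero_le_one) fun a _ => by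
        rw [norm_pow, norm_pow, Complex.norm_ofNat]
        exact one_le_pow₀ (one_le_pow₀ (by norm_num))
  have h8 : T ≤ ‖(T : ℂ) * ∏ a, ((3 : ℂ) ^ k a) ^ Fintype.card (E a)‖ := by
    rw [norm_mul, Complex.norm_real, Real.norm_eq_abs, abs_of_nonneg hT0]
    exact le_mul_of_one_le_right hT0 h7
  have h9 : ‖TEPM phi k c P R 0 * (NZ Z (hN I) X : ℂ)‖ ≤
      ‖TEPM phi k c P R 0‖ * (|K| * Yh (hN I) X) := by
    rw [norm_mul, Complex.norm_real, Real.norm_eq_abs, abs_of_nonneg hNZ]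
    exact mul_le_mul_of_nonneg_left (h4.trans (mul_le_mul_of_nonneg_right (le_abs_self K) hY))
      (norm_nonneg _)
  have h10 := norm_sub_norm_le ((T : ℂ) * ∏ a, ((3 : ℂ) ^ k a) ^ Fintype.card (E a))
    (TEPM phi k c P R 0 * (NZ Z (hN I) X : ℂ))
  nlinarith

end

end Pool.Agent.Lib.MP_1a91b9_ntMC
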