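import Pool.Agent.Lib.MP_1a91b9_ntMC.M3
import Pool.Agent.Lib.MP_1a91b9_ntMC.EM

/-!
# MP_1a91b9_nt (all the multicubic fields): the matrices in the fine classes, and the colourings for which one of the
products is trivial
-/

set_option autoImplicit false
set_option linter.unusedSectionVars false

namespace Pool.Agent.Lib.MP_1a91b9_ntMC

open Finset Pool.Agent.Lib.MP_1a91b9_ntH Pool.Agent.Lib.MP_1a91b9_ntK Pool.Agent.Lib.MP_1a91b9_ntK.Da
open Pool.Agent.Lib.MP_1a91b9_ntN
open Pool.Agent.Lib.MP_1a91b9_ntMN (Yh Yh_nonneg ubh0)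

noncomputable section

variable {I A : Type} [Fintype I] [DecidableEq I] [Fintype A] [DecidableEq A] {ι : Type} [DecidableEq ι]
  {κ : Type} [Fintype κ] [DecidableEq κ] {E : A → Type} [∀ a, Fintype (E a)] [∀ a, DecidableEq (E a)]
  {phi : A → I → ZMod 3}

/-- The matrices of the colourings in a fine class. -/
theorem kBM_mul {D : Dt ι κ} {Z : ℕ → Finset (Finset ι)} {c : A → κ → ZMod 3}
    {P : ∀ a, κ → E a → ZMod 3} {R : ∀ a, Matrix (E a) (E a) (ZMod 3)} {γ : I → κ → ZMod 3} {X : ℕ}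
    {b : Cb ι I} (hb : b ∈ SGM D Z γ X) (a : A) (hne : (Rx (phi a) b).Nonempty) :
    kBM D phi c P R a b = tP c P R (ga phi γ a) a * xPM D phi c P R γ a b := by
  classical
  have h1 := (mem_SGM.1 hb).2
  have h2 : Rx (phi a) b ∈ SG (sgD D (cx (phi a) b)) (fun _ => {Rx (phi a) b}) (ga phi γ a) X := by
    refine mem_SG.2 ⟨mem_singleton_self _, fun j => ?_⟩
    have e1 : ∑ q ∈ Rx (phi a) b, (sgD D (cx (phi a) b)).a q j = ∑ q ∈ b.1, cx (phi a) b q * D.a q j := by
      unfold Rx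
      rw [sum_filter]
      refine sum_congr rfl fun q _ => ?_
      show (if cx (phi a) b q ≠ 0 then cx (phi a) b q * D.a q j else 0) = _
      split_ifs with h
      · rfl
      · rw [not_not.1 h, zero_mul]
    rw [e1]
    unfold ga
    have e2 : ∀ i, phi a i * γ i j = ∑ q ∈ b.1, phi a i * (cz b q i * D.a q j) := by
      intro i
      rw [← h1 i j, mul_sum]
    rw [sum_congr rfl fun i _ => e2 i, sum_comm]
    refine sum_congr rfl fun q _ => ?_
    unfold cx dotProduct
    rw [sum_mul]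
    exact sum_congr rfl fun i _ => mul_assoc _ _ _
  exact xP_mul h2 (nonempty_iff_ne_empty.1 hne) a

private theorem M4_cardNz (I : Type) [Fintype I] [DecidableEq I] : Fintype.card (Nz I) = hN I := by
  unfold Nz hN
  rw [Fintype.card_subtype_compl, Fintype.card_fun, ZMod.card, Fintype.card_subtype_eq]

open Classical in
/-- The number of the colours orthogonal to `χ`. -/
private def M4_m {I : Type} [Fintype I] [DecidableEq I] (χ : I → ZMod 3) : ℕ :=
  ((univ : Finset (Nz I)).filter fun v => χ ⬝ᵥ v.1 = 0).card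

private theorem M4_m_lt {I : Type} [Fintype I] [DecidableEq I] {χ : I → ZMod 3} (hχ : χ ≠ 0) :
    M4_m χ + 1 ≤ hN I := by
  classical
  obtain ⟨i, hi⟩ := Function.ne_iff.1 hχ
  rw [← M4_cardNz I, ← card_univ]
  have h1 : (Pi.single i 1 : I → ZMod 3) ≠ 0 := by
    intro h
    have h2 := congrFun h i
    rw [Pi.single_eq_same, Pi.zero_apply] at h2
    exact one_ne_zero h2
  refine card_lt_card (Finset.ssubset_iff_subset_ne.2 ⟨filter_subset _ _, fun h => ?_⟩)
  have h3 := (mem_filter.1 (h.symm ▸ mem_univ (⟨Pi.single i 1, h1⟩ : Nz I))).2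
  rw [dotProduct_single, mul_one] at h3
  exact hi h3

open Classical in
private theorem M4_count {χ : I → ZMod 3} (Z : ℕ → Finset (Finset ι)) (X : ℕ) :
    ((BX I Z X).filter fun b => Rx χ b = ∅).card = ∑ S ∈ Z X, M4_m χ ^ S.card := by
  rw [card_eq_sum_ones, sum_filter, sum_BX]
  refine sum_congr rfl fun S _ => ?_
  rw [← sum_filter, ← card_eq_sum_ones]
  have h1 : (univ.filter fun f : S → Nz I => Rx χ (⟨S, f⟩ : Cb ι I) = ∅) =
      Fintype.piFinset fun _ : S => (univ : Finset (Nz I)).filter fun v => χ ⬝ᵥ v.1 = 0 := by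
    ext f
    rw [mem_filter, Fintype.mem_piFinset]
    constructor
    · rintro ⟨-, h⟩ q
      refine mem_filter.2 ⟨mem_univ _, ?_⟩
      by_contra h2
      have h3 : (q : ι) ∈ Rx χ (⟨S, f⟩ : Cb ι I) := mem_filter.2 ⟨q.2, by rw [cx_mk]; exact h2⟩
      rw [h] at h3
      exact notMem_empty _ h3
    · intro h
      refine ⟨mem_univ _, ?_⟩
      rw [eq_empty_iff_forall_notMem]
      intro q hq
      unfold Rx at hq
      obtain ⟨h2, h3⟩ := mem_filter.1 hq
      have h4 := cx_mk χ f ⟨q, h2⟩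
      exact h3 (h4.trans (mem_filter.1 (h ⟨q, h2⟩)).2)
  rw [h1, Fintype.card_piFinset, prod_const, card_univ, Fintype.card_coe]
  rfl

section Pr

variable {ι : Type} [DecidableEq ι] [PS ι]

open Classical in
/-- There are few colourings for which one of the products is trivial. -/
theorem rare_card {D : Dat3b ι} (hD : D.OKb) (B : Finset ι)
    [Nonempty I] {χ : I → ZMod 3} (hχ : χ ≠ 0) :
    SmY (hN I) (fun X => (BX I (SxT B) X).filter fun b => Rx χ b = ∅) fun _ => 1 := by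
  obtain ⟨C1, h1⟩ := hD.ok.cheb
  obtain ⟨C2, h2⟩ := hD.ok.zt
  have hm := M4_m_lt hχ
  have h3 : 2 ≤ hN I := by
    unfold hN
    have h4 : 3 ^ 1 ≤ 3 ^ Fintype.card I := Nat.pow_le_pow_right (by norm_num) Fintype.card_pos
    omega
  obtain ⟨K, hK, hub⟩ := ubh0 h1 h2 (hN I - 1) (by omega)
  intro ε hε
  obtain ⟨N, hN'⟩ := Filter.eventually_atTop.1
    ((Real.tendsto_log_atTop.comp tendsto_natCast_atTop_atTop).eventually_ge_atTop (K / ε))
  refine ⟨max N 2, fun X hX => ?_⟩
  have hX2 : 2 ≤ X := le_trans (le_max_right _ _) hX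
  have hXr : (2 : ℝ) ≤ X := by exact_mod_cast hX2
  have hl : 0 ≤ Real.log X := Real.log_nonneg (by linarith)
  have h5 : K / ε ≤ Real.log X := hN' X (le_trans (le_max_left _ _) hX)
  rw [div_le_iff₀ hε] at h5
  rw [sum_const, nsmul_eq_mul, mul_one, Complex.norm_natCast, M4_count]
  have h6 := hub (fun _ => (M4_m χ : ℝ)) (fun q => ⟨Nat.cast_nonneg _, by
    exact_mod_cast (by omega : M4_m χ ≤ hN I - 1)⟩) X hX2
  simp only [prod_const] at h6
  have h7 : ((∑ S ∈ SxT B X, M4_m χ ^ S.card : ℕ) : ℝ) ≤ ∑ S ∈ Sx ι X, (M4_m χ : ℝ) ^ S.card := by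
    push_cast
    exact sum_le_sum_of_subset_of_nonneg (filter_subset _ _) fun _ _ _ => pow_nonneg (Nat.cast_nonneg _) _
  refine (h7.trans h6).trans ?_
  have h8 : Yh (hN I) X = Yh (hN I - 1) X * Real.log X := by
    unfold Yh
    have e : hN I - 1 = hN I - 1 - 1 + 1 := by omega
    rw [show Real.log (X : ℝ) ^ (hN I - 1) = Real.log X ^ (hN I - 1 - 1 + 1) by rw [← e], pow_succ]
    ring
  rw [h8]
  calc K * Yh (hN I - 1) X ≤ (Real.log X * ε) * Yh (hN I - 1) X :=
        mul_le_mul_of_nonneg_right h5 (Yh_nonneg _ _)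
    _ = ε * (Yh (hN I - 1) X * Real.log X) := by ring

/-- The bound for the main term of the engine. -/
theorem NZ_le {D : Dat3b ι} (hD : D.OKb) (B : Finset ι) (h : ℕ)
    (hh : 1 ≤ h) : ∃ K : ℝ, 0 < K ∧ ∀ X : ℕ, 2 ≤ X → NZ (SxT B) h X ≤ K * Yh h X := by
  obtain ⟨C1, h1⟩ := hD.ok.cheb
  obtain ⟨C2, h2⟩ := hD.ok.zt
  obtain ⟨K, hK, hub⟩ := ubh0 h1 h2 h hh
  refine ⟨K, hK, fun X hX => ?_⟩
  have h6 := hub (fun _ => (h : ℝ)) (fun q => ⟨Nat.cast_nonneg _, le_rfl⟩) X hX
  simp only [prod_const] at h6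
  refine le_trans ?_ h6
  exact sum_le_sum_of_subset_of_nonneg (filter_subset _ _) fun _ _ _ => pow_nonneg (Nat.cast_nonneg _) _

open Classical in
/-- The moments over the colourings for which one of the products is trivial are small. -/
theorem rare_kPM {D : Dat3b ι} (hD : D.OKb) {C₂ : ℝ}
    (hC₂ : ∀ Y : ℕ, ((Sx ι Y).card : ℝ) ≤ C₂ * Y) (B : Finset ι) [Nonempty I]
    {c : A → Bool ⊕ B → ZMod 3} (hs : Sp3 phi c) (P : ∀ a, Bool ⊕ B → E a → ZMod 3)
    (R : ∀ a, Matrix (E a) (E a) (ZMod 3)) (k : A → ℕ) :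
    SmY (hN I) (fun X => (BX I (SxT B) X).filter fun b => ∃ a, Rx (phi a) b = ∅)
      fun b => (kPM (dtB D B) phi c P R k b : ℂ) := by
  have hh : 1 ≤ hN I := by
    unfold hN
    have h4 : 3 ^ 1 ≤ 3 ^ Fintype.card I := Nat.pow_le_pow_right (by norm_num) Fintype.card_pos
    omega
  obtain ⟨K, hK, hKb⟩ := NZ_le hD B (hN I) hh
  obtain ⟨C, hC, X1, hC1⟩ := bnd_kPM (engMD_dtB hD hC₂ B) ⟨2, fun X hX => hKb X hX⟩ phi c P R
    (fun a => 2 * k a)
  intro ε hε
  set n : ℝ := Fintype.card A + 1 with hn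
  have hn1 : 1 ≤ n := by
    rw [hn]
    linarith [(Nat.cast_nonneg (Fintype.card A) : (0 : ℝ) ≤ Fintype.card A)]
  have hn0 : 0 < n := by linarith
  set δ : ℝ := (ε / n) ^ 2 / (C + 1) with hδ
  have hδ0 : 0 < δ := by positivity
  choose X2 hX2 using fun a => rare_card hD B (hs.ne a) δ hδ0
  refine ⟨X1 + ∑ a, X2 a, fun X hX => ?_⟩
  have hXX1 : X1 ≤ X := by omega
  have hXX2 : ∀ a, X2 a ≤ X := fun a =>
    (single_le_sum (fun _ _ => Nat.zero_le _) (mem_univ a)).trans (by omega)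
  have hY := Yh_nonneg (hN I) X
  -- one label
  have key : ∀ a, ∑ b ∈ (BX I (SxT B) X).filter (fun b => Rx (phi a) b = ∅),
      (kPM (dtB D B) phi c P R k b : ℝ) ≤ ε / n * Yh (hN I) X := by
    intro a
    have h1 := hX2 a X (hXX2 a)
    rw [sum_const, nsmul_eq_mul, mul_one, Complex.norm_natCast] at h1
    have h2 := hC1 X hXX1
    have h3 : ∑ b ∈ (BX I (SxT B) X).filter (fun b => Rx (phi a) b = ∅),
        (kPM (dtB D B) phi c P R k b : ℝ) ^ 2 ≤ C * Yh (hN I) X := by
      refine le_trans ?_ h2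
      refine (sum_le_sum_of_subset_of_nonneg (filter_subset _ _) fun _ _ _ => sq_nonneg _).trans
        (le_of_eq (sum_congr rfl fun b _ => ?_))
      unfold kPM
      push_cast
      rw [← prod_pow]
      exact prod_congr rfl fun a _ => by rw [← pow_mul, mul_comm]
    have h4 := sum_mul_sq_le_sq_mul_sq ((BX I (SxT B) X).filter fun b => Rx (phi a) b = ∅)
      (fun _ => (1 : ℝ)) fun b => (kPM (dtB D B) phi c P R k b : ℝ)
    simp only [one_mul, one_pow, sum_const, nsmul_eq_mul, mul_one] at h4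
    refine (sq_le_sq₀ (sum_nonneg fun _ _ => Nat.cast_nonneg _) (by positivity)).1 ?_
    refine h4.trans ?_
    calc _ ≤ (δ * Yh (hN I) X) * (C * Yh (hN I) X) :=
          mul_le_mul h1 h3 (sum_nonneg fun _ _ => sq_nonneg _) (by positivity)
      _ ≤ (δ * Yh (hN I) X) * ((C + 1) * Yh (hN I) X) :=
          mul_le_mul_of_nonneg_left (mul_le_mul_of_nonneg_right (by linarith) hY) (by positivity)
      _ = (ε / n * Yh (hN I) X) ^ 2 := by
          rw [hδ]
          have : (C + 1) ≠ 0 := by linarith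
          field_simp
  have hre : ‖∑ b ∈ (BX I (SxT B) X).filter (fun b => ∃ a, Rx (phi a) b = ∅),
      (kPM (dtB D B) phi c P R k b : ℂ)‖ ≤
      ∑ b ∈ (BX I (SxT B) X).filter (fun b => ∃ a, Rx (phi a) b = ∅),
        (kPM (dtB D B) phi c P R k b : ℝ) := by
    refine (norm_sum_le _ _).trans (le_of_eq (sum_congr rfl fun b _ => ?_))
    exact Complex.norm_natCast _
  refine hre.trans ?_
  have hsum : ∑ b ∈ (BX I (SxT B) X).filter (fun b => ∃ a, Rx (phi a) b = ∅),
      (kPM (dtB D B) phi c P R k b : ℝ) ≤ ∑ a, ∑ b ∈ (BX I (SxT B) X).filter (fun b => Rx (phi a) b = ∅),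
        (kPM (dtB D B) phi c P R k b : ℝ) := by
    simp only [sum_filter]
    rw [sum_comm]
    refine sum_le_sum fun b _ => ?_
    split_ifs with h
    · obtain ⟨a, ha⟩ := h
      refine le_trans (le_of_eq ?_) (single_le_sum (f := fun a => if Rx (phi a) b = ∅ then
        (kPM (dtB D B) phi c P R k b : ℝ) else 0) (fun a _ => ?_) (mem_univ a))
      · show _ = if Rx (phi a) b = ∅ then (kPM (dtB D B) phi c P R k b : ℝ) else 0
        rw [if_pos ha]
      · show 0 ≤ if Rx (phi a) b = ∅ then (kPM (dtB D B) phi c P R k b : ℝ) else 0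
        split_ifs
        · exact Nat.cast_nonneg _
        · exact le_rfl
    · refine sum_nonneg fun a _ => ?_
      split_ifs
      · exact Nat.cast_nonneg _
      · exact le_rfl
  refine hsum.trans ((sum_le_sum fun a _ => key a).trans ?_)
  rw [sum_const, card_univ, nsmul_eq_mul]
  calc (Fintype.card A : ℝ) * (ε / n * Yh (hN I) X) ≤ n * (ε / n * Yh (hN I) X) := by
        refine mul_le_mul_of_nonneg_right ?_ (by positivity)
        rw [hn]
        linarith
    _ = ε * Yh (hN I) X := by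
        field_simp

end Pr

end

end Pool.Agent.Lib.MP_1a91b9_ntMC
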