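import Pool.Agent.Lib.MP_1a91b9_ntMC.M3

/-!
# MP_1a91b9_nt (all the multicubic fields): the moments in the fine classes with a twist
-/

set_option autoImplicit false
set_option linter.unusedSectionVars false

namespace Pool.Agent.Lib.MP_1a91b9_ntMC

open Finset Pool.Agent.Lib.MP_1a91b9_ntH Pool.Agent.Lib.MP_1a91b9_ntK Pool.Agent.Lib.MP_1a91b9_ntK.Da
open Pool.Agent.Lib.MP_1a91b9_ntN
open Pool.Agent.Lib.MP_1a91b9_ntMN (Yh)

noncomputable section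

variable {I A : Type} [Fintype I] [DecidableEq I] [Fintype A] [DecidableEq A] {ι : Type} [DecidableEq ι]
  {κ : Type} [Fintype κ] [DecidableEq κ] {E : A → Type} [∀ a, Fintype (E a)] [∀ a, DecidableEq (E a)]
  {phi : A → I → ZMod 3} {k : A → ℕ}

theorem wT_mkL (τ : Nz I → ι → ℂ) {S : Finset ι} (f₀ : S → Nz I) (g : GS phi k f₀) :
    wT τ ⟨S, f₀⟩ = ∏ q : S, τ (mkL f₀ g q).col q := rfl

variable (c : A → κ → ZMod 3) (P : ∀ a, κ → E a → ZMod 3) (R : ∀ a, Matrix (E a) (E a) (ZMod 3))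

/-- The weighted mean values with a twist. -/
theorem MoPMt_eq (D : Dt ι κ) (Z : ℕ → Finset (Finset ι)) (τ : Nz I → ι → ℂ) (ψ : I → κ → ZMod 3)
    (X : ℕ) :
    (∑ b ∈ BX I Z X, e3 (twM D ψ b) * (wT τ b * (kPM D phi c P R k b : ℂ))) *
        ∏ a, ((3 : ℂ) ^ k a) ^ Fintype.card (E a) =
      ∑ m : (∀ a, E a → Lab3 (k a)), (∏ a, e3 (RF (R a) (m a))) * ∑ S ∈ Z X,
        ∑ f : S → LbM phi k, (∏ j : S, (nM (f j) : ℂ) * τ (LbM.col (f j)) j) *
          e3 (D.eL PM (cM phi c P m ψ) S f) := by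
  rw [sum_BX, sum_mul]
  have h1 : ∀ S ∈ Z X, (∑ f₀ : S → Nz I, e3 (twM D ψ ⟨S, f₀⟩) *
      (wT τ ⟨S, f₀⟩ * (kPM D phi c P R k ⟨S, f₀⟩ : ℂ))) *
      ∏ a, ((3 : ℂ) ^ k a) ^ Fintype.card (E a) =
      ∑ m : (∀ a, E a → Lab3 (k a)), (∏ a, e3 (RF (R a) (m a))) *
        ∑ f : S → LbM phi k, (∏ j : S, (nM (f j) : ℂ) * τ (LbM.col (f j)) j) *
          e3 (D.eL PM (cM phi c P m ψ) S f) := by
    intro S _
    rw [sum_mul]
    have h2 : ∀ f₀ : S → Nz I, e3 (twM D ψ ⟨S, f₀⟩) *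
        (wT τ ⟨S, f₀⟩ * (kPM D phi c P R k ⟨S, f₀⟩ : ℂ)) *
        ∏ a, ((3 : ℂ) ^ k a) ^ Fintype.card (E a) =
        ∑ m : (∀ a, E a → Lab3 (k a)), (∏ a, e3 (RF (R a) (m a))) * ∑ g : GS phi k f₀,
          (∏ q : S, (nM (mkL f₀ g q) : ℂ) * τ (LbM.col (mkL f₀ g q)) q) *
            e3 (D.eL PM (cM phi c P m ψ) S (mkL f₀ g)) := by
      intro f₀
      have h3 : e3 (twM D ψ ⟨S, f₀⟩) * (wT τ ⟨S, f₀⟩ * (kPM D phi c P R k ⟨S, f₀⟩ : ℂ)) *
          ∏ a, ((3 : ℂ) ^ k a) ^ Fintype.card (E a) =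
          wT τ ⟨S, f₀⟩ * (e3 (twM D ψ ⟨S, f₀⟩) *
            (∏ a, (kBM D phi c P R a ⟨S, f₀⟩ : ℂ) ^ k a) *
            ∏ a, ((3 : ℂ) ^ k a) ^ Fintype.card (E a)) := by
        rw [kPM]
        push_cast
        ring
      rw [h3, kBM_exp, mul_sum]
      refine sum_congr rfl fun m _ => ?_
      rw [mul_left_comm, mul_sum]
      congr 1
      refine sum_congr rfl fun g _ => ?_
      rw [prod_mul_distrib, wT_mkL τ f₀ g]
      ring
    rw [sum_congr rfl fun f₀ _ => h2 f₀, sum_comm]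
    refine sum_congr rfl fun m _ => ?_
    rw [sum_LbM, mul_sum]
  rw [sum_congr rfl h1, sum_comm]
  exact sum_congr rfl fun m _ => (mul_sum _ _ _).symm

/-- The weighted mean values with the twist are small. -/
theorem MoPMt_lim [Nonempty I] {D : Dt ι κ} {Z : ℕ → Finset (Finset ι)} {τ : Nz I → ι → ℂ}
    (hV : EngMV D Z τ) (ψ : I → κ → ZMod 3) (ε : ℝ) (hε : 0 < ε) : ∃ X₀ : ℕ, ∀ X : ℕ, X₀ ≤ X →
    ‖∑ b ∈ BX I Z X, e3 (twM D ψ b) * (wT τ b * (kPM D phi c P R k b : ℂ))‖ ≤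
      ε * Yh (hN I) X := by
  classical
  have hN0 : (0 : ℝ) < Fintype.card (∀ a, E a → Lab3 (k a)) := by
    exact_mod_cast Fintype.card_pos
  choose X0 h0 using fun m : (∀ a, E a → Lab3 (k a)) =>
    hV (LbM phi k) LbM.col PM nM (hN I) (MM k) (UsM phi k) (cM phi c P m ψ) (wsM phi k)
      (fun _ hU v => usM_col hU v) (ε / Fintype.card (∀ a, E a → Lab3 (k a))) (by positivity)
  refine ⟨∑ m, X0 m, fun X hX => ?_⟩
  have hXt : ∀ m, X0 m ≤ X := fun m =>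
    (single_le_sum (fun _ _ => Nat.zero_le _) (mem_univ m)).trans hX
  have h7 : 1 ≤ ‖∏ a, ((3 : ℂ) ^ k a) ^ Fintype.card (E a)‖ := by
    rw [norm_prod]
    calc (1 : ℝ) = ∏ _a : A, (1 : ℝ) := prod_const_one.symm
      _ ≤ _ := prod_le_prod (fun _ _ => zero_le_one) fun a _ => by
        rw [norm_pow, norm_pow, Complex.norm_ofNat]
        exact one_le_pow₀ (one_le_pow₀ (by norm_num))
  refine (le_mul_of_one_le_right (norm_nonneg _) h7).trans ?_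
  rw [← norm_mul, MoPMt_eq]
  calc ‖∑ m : (∀ a, E a → Lab3 (k a)), (∏ a, e3 (RF (R a) (m a))) * ∑ S ∈ Z X,
        ∑ f : S → LbM phi k, (∏ j : S, (nM (f j) : ℂ) * τ (LbM.col (f j)) j) *
          e3 (D.eL PM (cM phi c P m ψ) S f)‖
      ≤ ∑ _m : (∀ a, E a → Lab3 (k a)),
          ε / Fintype.card (∀ a, E a → Lab3 (k a)) * Yh (hN I) X := by
        refine (norm_sum_le _ _).trans (sum_le_sum fun m _ => ?_)
        rw [norm_mul, norm_prod, prod_congr rfl fun a _ => norm_e3 _, prod_const_one, one_mul]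
        exact h0 m X (hXt m)
    _ = ε * Yh (hN I) X := by
        rw [sum_const, card_univ, nsmul_eq_mul]
        field_simp

/-- **The moments with a twist.** -/
theorem van_kPM [Nonempty I] {D : Dt ι κ} {Z : ℕ → Finset (Finset ι)} {τ : Nz I → ι → ℂ}
    (hV : EngMV D Z τ) (phi : A → I → ZMod 3) (c : A → κ → ZMod 3) (P : ∀ a, κ → E a → ZMod 3)
    (R : ∀ a, Matrix (E a) (E a) (ZMod 3)) (k : A → ℕ) (γ : I → κ → ZMod 3) :
    SmY (hN I) (SGM D Z γ) fun b => wT τ b * (kPM D phi c P R k b : ℂ) := by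
  classical
  intro ε hε
  have hN0 : (0 : ℝ) < Fintype.card (I → κ → ZMod 3) := by exact_mod_cast Fintype.card_pos
  choose X0 h0 using fun ψ : I → κ → ZMod 3 => MoPMt_lim (phi := phi) (k := k) c P R hV ψ
    (ε / Fintype.card (I → κ → ZMod 3)) (by positivity)
  refine ⟨∑ ψ, X0 ψ, fun X hX => ?_⟩
  have hXt : ∀ ψ, X0 ψ ≤ X := fun ψ =>
    (single_le_sum (fun _ _ => Nat.zero_le _) (mem_univ ψ)).trans hX
  have h1 : 1 ≤ ‖(3 ^ (Fintype.card I * Fintype.card κ) : ℂ)‖ := by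
    rw [norm_pow, Complex.norm_ofNat]
    exact one_le_pow₀ (by norm_num)
  refine (le_mul_of_one_le_left (norm_nonneg _) h1).trans ?_
  rw [← norm_mul, sum_SGM]
  refine (norm_sum_le _ _).trans ?_
  calc ∑ ψ : I → κ → ZMod 3, ‖e3 (∑ i, ∑ j, -ψ i j * γ i j) *
        ∑ b ∈ BX I Z X, e3 (twM D ψ b) * (wT τ b * (kPM D phi c P R k b : ℂ))‖
      ≤ ∑ _ψ : I → κ → ZMod 3, ε / Fintype.card (I → κ → ZMod 3) * Yh (hN I) X := by
        refine sum_le_sum fun ψ _ => ?_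
        rw [norm_mul, norm_e3, one_mul]
        exact h0 ψ X (hXt ψ)
    _ = ε * Yh (hN I) X := by
        rw [sum_const, card_univ, nsmul_eq_mul]
        field_simp

end

end Pool.Agent.Lib.MP_1a91b9_ntMC
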