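import Pool.Agent.Lib.MP_1a91b9_ntMC.NR
import Pool.Agent.Lib.MP_1a91b9_ntMC.M4
import Pool.Agent.Lib.MP_1a91b9_ntMC.M5
import Pool.Agent.Lib.MP_1a91b9_ntMC.EM

/-!
# MP_1a91b9_nt (all the multicubic fields): the joint moments of the normalised sizes in the classes
-/

set_option autoImplicit false
set_option linter.unusedSectionVars false

namespace Pool.Agent.Lib.MP_1a91b9_ntMC

open Finset Pool.Agent.Lib.MP_1a91b9_ntH Pool.Agent.Lib.MP_1a91b9_ntK Pool.Agent.Lib.MP_1a91b9_ntK.Da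
open Pool.Agent.Lib.MP_1a91b9_ntN Pool.Agent.Lib.MP_1a91b9_ntN.H
open Pool.Agent.Lib.MP_1a91b9_ntMN (Yh)
open Pool.Agent.Lib.MP_1a91b9_ntS3.DG (Mz3 Dich3)

noncomputable section

/-! ### The characters which are not near -/

section Chr

variable {I : Type} [Fintype I] [DecidableEq I] {ι : Type} [DecidableEq ι] {G : Type} [AddCommGroup G]

/-- The character of a colour. -/
private def M6_ch (ψ : I → AddChar G ℂ) (v : Nz I) : AddChar G ℂ := ∏ i, ψ i ^ (v.1 i).val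

private theorem M6_ap (cl : ι → G) (ψ : I → AddChar G ℂ) (v : Nz I) (q : ι) :
    twc cl ψ v q = M6_ch ψ v (cl q) := by
  unfold twc M6_ch
  rw [AddChar.prod_apply]
  refine prod_congr rfl fun i _ => ?_
  rw [AddChar.pow_apply, AddChar.map_nsmul_eq_pow]

theorem norm_twc [Finite G] (cl : ι → G) (ψ : I → AddChar G ℂ) (v : Nz I) (q : ι) :
    ‖twc cl ψ v q‖ = 1 := by
  rw [M6_ap, AddChar.norm_apply]

theorem norm_wT_twc [Finite G] (cl : ι → G) (ψ : I → AddChar G ℂ) (b : Cb ι I) :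
    ‖wT (twc cl ψ) b‖ = 1 := by
  unfold wT
  rw [norm_prod]
  exact prod_eq_one fun q _ => norm_twc cl ψ _ _

/-- The engine with the twist of characters one of which is not near. -/
theorem far_EngMV [PS ι] [Finite G] {D : Dat3b ι} (hD : D.OKb) {C₂ : ℝ}
    (hC₂ : ∀ Y : ℕ, ((Sx ι Y).card : ℝ) ≤ C₂ * Y) (B : Finset ι) {cl : ι → G} (hdi : Dich3 D cl)
    {ψ : I → AddChar G ℂ} {i₀ : I}
    (h0 : ¬ ∃ c c' : ZMod 3, ∀ q, ψ i₀ (cl q) = e3 (c * D.a q + c' * D.b q)) :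
    EngMV (dtB D B) (SxT B) (twc cl ψ) := by
  have hne : (Pi.single i₀ 1 : I → ZMod 3) ≠ 0 := by
    intro h
    have h1 := congrFun h i₀
    rw [Pi.single_eq_same, Pi.zero_apply] at h1
    exact one_ne_zero h1
  refine engMV_dtB hD hC₂ B _ (norm_twc cl ψ) (fun v v' => ?_) ⟨Pi.single i₀ 1, hne⟩ ?_
  · have h1 : ∀ q, (M6_ch ψ v * (M6_ch ψ v')⁻¹) (cl q) =
        twc cl ψ v q * (starRingEnd ℂ) (twc cl ψ v' q) := by
      intro q
      rw [M6_ap, M6_ap, AddChar.mul_apply, AddChar.inv_apply, AddChar.map_neg_eq_conj]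
    rcases hdi (M6_ch ψ v * (M6_ch ψ v')⁻¹) with ⟨c, c', h⟩ | h
    · refine Or.inl ⟨c, c', fun q => ?_⟩
      have h2 : twc cl ψ v' q * (starRingEnd ℂ) (twc cl ψ v' q) = 1 := by
        rw [Complex.mul_conj, Complex.normSq_eq_norm_sq, norm_twc, one_pow, Complex.ofReal_one]
      rw [← h q, h1, mul_left_comm, h2, mul_one]
    · right
      have h3 : (fun q => (M6_ch ψ v * (M6_ch ψ v')⁻¹) (cl q)) =
          fun q => twc cl ψ v q * (starRingEnd ℂ) (twc cl ψ v' q) := funext h1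
      rw [← h3]
      exact h
  · have h1 : (fun q => twc cl ψ ⟨Pi.single i₀ 1, hne⟩ q) = fun q => ψ i₀ (cl q) := by
      funext q
      unfold twc
      rw [prod_eq_single i₀]
      · show ψ i₀ (((Pi.single i₀ 1 : I → ZMod 3) i₀).val • cl q) = _
        rw [Pi.single_eq_same, ZMod.val_one, one_nsmul]
      · intro i _ hi
        show ψ i (((Pi.single i₀ 1 : I → ZMod 3) i).val • cl q) = 1
        rw [Pi.single_eq_of_ne hi, ZMod.val_zero, zero_nsmul, AddChar.map_zero_eq_one]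
      · intro h
        exact absurd (mem_univ _) h
    show Mz3 D (fun q => twc cl ψ ⟨Pi.single i₀ 1, hne⟩ q)
    rw [h1]
    exact (hdi (ψ i₀)).resolve_left h0

end Chr

/-! ### The normalised sizes -/

variable {I A : Type} [Fintype I] [DecidableEq I] [Fintype A] [DecidableEq A] {ι : Type} [DecidableEq ι]
  {κ : Type} [Fintype κ] [DecidableEq κ] {E : A → Type} [∀ a, Fintype (E a)] [∀ a, DecidableEq (E a)]
  {phi : A → I → ZMod 3}

private theorem M6_xP_le (D : Dt ι κ) (c : A → κ → ZMod 3) (P : ∀ a, κ → E a → ZMod 3)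
    (R : ∀ a, Matrix (E a) (E a) (ZMod 3)) (α : κ → ZMod 3) (a : A) (S : Finset ι) :
    xP D c P R α a S ≤ D.kB (c a) (P a) (R a) S := by
  classical
  unfold xP
  split_ifs
  · unfold kz
    split_ifs with h
    · exact h.ge
    · exact Nat.div_le_self _ _
  · exact le_rfl

private theorem M6_T1 (c : A → κ → ZMod 3) (P : ∀ a, κ → E a → ZMod 3)
    (R : ∀ a, Matrix (E a) (E a) (ZMod 3)) (γ : I → κ → ZMod 3) (k : A → ℕ) :
    (1 : ℝ) ≤ ∏ a, (tP c P R (ga phi γ a) a : ℝ) ^ k a := by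
  classical
  have ht1 : ∀ a, (1 : ℝ) ≤ tP c P R (ga phi γ a) a := by
    intro a
    rw [tP]
    split_ifs <;> norm_num
  calc (1 : ℝ) = ∏ _a : A, (1 : ℝ) := prod_const_one.symm
    _ ≤ _ := prod_le_prod (fun _ _ => zero_le_one) fun a _ => one_le_pow₀ (ht1 a)

open Classical in
/-- The passage to the normalised sizes. -/
theorem SmY_xPM {D : Dt ι κ} {Z : ℕ → Finset (Finset ι)} {c : A → κ → ZMod 3}
    {P : ∀ a, κ → E a → ZMod 3} {R : ∀ a, Matrix (E a) (E a) (ZMod 3)} {k : A → ℕ}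
    {γ : I → κ → ZMod 3}
    (hr : SmY (hN I) (fun X => (BX I Z X).filter fun b => ∃ a, Rx (phi a) b = ∅)
      fun b => (kPM D phi c P R k b : ℂ))
    {w : Cb ι I → ℂ} (hw : ∀ b, ‖w b‖ = 1) {v : ℝ}
    (h : SmY (hN I) (SGM D Z γ) fun b => w b * ((kPM D phi c P R k b : ℂ) -
      (((∏ a, (tP c P R (ga phi γ a) a : ℝ) ^ k a) * v : ℝ) : ℂ))) :
    SmY (hN I) (SGM D Z γ) fun b =>
      w b * (((∏ a, (xPM D phi c P R γ a b : ℝ) ^ k a : ℝ) : ℂ) - v) := by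
  intro ε hε
  obtain ⟨T, hT⟩ : ∃ T : ℝ, T = ∏ a, (tP c P R (ga phi γ a) a : ℝ) ^ k a := ⟨_, rfl⟩
  have hT1 : 1 ≤ T := by
    rw [hT]
    exact M6_T1 c P R γ k
  have hT0 : 0 < T := by linarith
  obtain ⟨F, hF⟩ : ∃ F : Cb ι I → ℝ, F = fun b => ∏ a, (xPM D phi c P R γ a b : ℝ) ^ k a :=
    ⟨_, rfl⟩
  obtain ⟨K, hK⟩ : ∃ K : Cb ι I → ℝ, K = fun b => (kPM D phi c P R k b : ℝ) := ⟨_, rfl⟩
  have hF0 : ∀ b, 0 ≤ F b := fun b => by
    rw [hF]
    exact prod_nonneg fun a _ => pow_nonneg (Nat.cast_nonneg _) _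
  have hK0 : ∀ b, 0 ≤ K b := fun b => by
    rw [hK]
    exact Nat.cast_nonneg _
  have hFK : ∀ b, F b ≤ K b := by
    intro b
    rw [hF, hK]
    show (∏ a, (xPM D phi c P R γ a b : ℝ) ^ k a) ≤ ((∏ a, kBM D phi c P R a b ^ k a : ℕ) : ℝ)
    push_cast
    refine prod_le_prod (fun a _ => pow_nonneg (Nat.cast_nonneg _) _) fun a _ => ?_
    refine pow_le_pow_left₀ (Nat.cast_nonneg _) ?_ _
    exact_mod_cast M6_xP_le (sgD D (cx (phi a) b)) c P R (ga phi γ a) a (Rx (phi a) b)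
  have hmul : ∀ X : ℕ, ∀ b ∈ SGM D Z γ X, (¬ ∃ a, Rx (phi a) b = ∅) → K b = T * F b := by
    intro X b hb hne
    rw [hK, hT, hF]
    show ((∏ a, kBM D phi c P R a b ^ k a : ℕ) : ℝ) = _ * ∏ a, (xPM D phi c P R γ a b : ℝ) ^ k a
    rw [← prod_mul_distrib]
    push_cast
    refine prod_congr rfl fun a _ => ?_
    rw [kBM_mul hb a (nonempty_iff_ne_empty.2 fun h5 => hne ⟨a, h5⟩)]
    push_cast
    rw [mul_pow]
  obtain ⟨X1, h1⟩ := hr (ε / (2 * T)) (by positivity)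
  obtain ⟨X2, h2⟩ := h (ε / 2) (by positivity)
  refine ⟨max X1 X2, fun X hX => ?_⟩
  have g1 := h1 X ((le_max_left _ _).trans hX)
  have g2 := h2 X ((le_max_right _ _).trans hX)
  have hpt : ∀ b ∈ SGM D Z γ X, ‖w b * ((T * F b - K b : ℝ) : ℂ)‖ ≤
      if ∃ a, Rx (phi a) b = ∅ then T * K b else 0 := by
    intro b hb
    rw [norm_mul, hw, one_mul, Complex.norm_real, Real.norm_eq_abs]
    split_ifs with hc
    · rw [abs_le]
      have e1 := hF0 b
      have e2 := hK0 b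
      have e3 := mul_le_mul_of_nonneg_left (hFK b) hT0.le
      have e4 := le_mul_of_one_le_left e2 hT1
      have e5 := mul_nonneg hT0.le e1
      constructor <;> linarith
    · rw [hmul X b hb hc, sub_self, abs_zero]
  have e1 : (T : ℂ) * ∑ b ∈ SGM D Z γ X, w b * ((F b : ℂ) - v) =
      (∑ b ∈ SGM D Z γ X, w b * ((T * F b - K b : ℝ) : ℂ)) +
      ∑ b ∈ SGM D Z γ X, w b * ((K b : ℂ) - ((T * v : ℝ) : ℂ)) := by
    rw [mul_sum, ← sum_add_distrib]
    refine sum_congr rfl fun b _ => ?_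
    push_cast
    ring
  have e2 : ‖∑ b ∈ SGM D Z γ X, w b * ((T * F b - K b : ℝ) : ℂ)‖ ≤ ε / 2 * Yh (hN I) X := by
    refine (norm_sum_le _ _).trans ((sum_le_sum hpt).trans ?_)
    rw [← sum_filter, ← mul_sum]
    have h3 : ∑ b ∈ (SGM D Z γ X).filter (fun b => ∃ a, Rx (phi a) b = ∅), K b ≤
        ∑ b ∈ (BX I Z X).filter (fun b => ∃ a, Rx (phi a) b = ∅), K b := by
      refine sum_le_sum_of_subset_of_nonneg (fun b hb => ?_) fun b _ _ => hK0 b
      rw [mem_filter] at hb ⊢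
      exact ⟨mem_BX.2 (mem_SGM.1 hb.1).1, hb.2⟩
    have h4 : ∑ b ∈ (BX I Z X).filter (fun b => ∃ a, Rx (phi a) b = ∅), K b ≤
        ε / (2 * T) * Yh (hN I) X := by
      have h5 : ∑ b ∈ (BX I Z X).filter (fun b => ∃ a, Rx (phi a) b = ∅),
          (kPM D phi c P R k b : ℂ) =
          ((∑ b ∈ (BX I Z X).filter (fun b => ∃ a, Rx (phi a) b = ∅), K b : ℝ) : ℂ) := by
        rw [hK]
        push_cast
        rfl
      rw [h5, Complex.norm_real, Real.norm_eq_abs] at g1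
      exact (le_abs_self _).trans g1
    calc T * ∑ b ∈ (SGM D Z γ X).filter (fun b => ∃ a, Rx (phi a) b = ∅), K b
        ≤ T * (ε / (2 * T) * Yh (hN I) X) := mul_le_mul_of_nonneg_left (h3.trans h4) hT0.le
      _ = ε / 2 * Yh (hN I) X := by field_simp
  have e3 : ‖∑ b ∈ SGM D Z γ X, w b * ((K b : ℂ) - ((T * v : ℝ) : ℂ))‖ ≤ ε / 2 * Yh (hN I) X := by
    rw [← hT] at g2
    refine le_trans (le_of_eq ?_) g2
    rw [hK]
    push_cast
    rfl
  have e4 : ‖(T : ℂ) * ∑ b ∈ SGM D Z γ X, w b * ((F b : ℂ) - v)‖ ≤ ε * Yh (hN I) X := by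
    rw [e1]
    refine (norm_add_le _ _).trans ?_
    linarith
  rw [norm_mul, Complex.norm_real, Real.norm_eq_abs, abs_of_pos hT0, hF] at e4
  exact (le_mul_of_one_le_left (norm_nonneg _) hT1).trans e4

/-- **The joint moments of the normalised sizes in the classes.** -/
theorem mom_xPGM {ι : Type} [DecidableEq ι] [PS ι] {D : Dat3b ι} (hD : D.OKb) {C₂ : ℝ}
    (hC₂ : ∀ Y : ℕ, ((Sx ι Y).card : ℝ) ≤ C₂ * Y) (B : Finset ι) {G : Type} [AddCommGroup G] [Finite G]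
    {cl : ι → G} (hdi : Dich3 D cl) [Nonempty I] {c : A → Bool ⊕ B → ZMod 3} (hs : Sp3 phi c)
    {P : ∀ a, Bool ⊕ B → E a → ZMod 3} {R : ∀ a, Matrix (E a) (E a) (ZMod 3)}
    (hR : ∀ a e f, R a e f = R a f e)
    (hP : ∀ a, ∀ x : E a → ZMod 3, (∀ j, ∑ e, P a j e * x e = 0) → x = 0)
    (γ : I → Bool ⊕ B → ZMod 3) (g : I → G) (k : A → ℕ) :
    MVY (hN I) (fun X => ClM cl g (SGM (dtB D B) (SxT B) γ X))
      (fun b => ∏ a, (xPM (dtB D B) phi c P R γ a b : ℝ) ^ k a) (∏ a, (Nk3 (k a) : ℝ)) := by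
  classical
  haveI := Fintype.ofFinite G
  refine MVY_ClM (fun ψ => ?_) g
  obtain ⟨v, hv⟩ : ∃ v : ℝ, v = ∏ a, (Nk3 (k a) : ℝ) := ⟨_, rfl⟩
  rw [← hv]
  obtain ⟨T, hT⟩ : ∃ T : ℝ, T = ∏ a, (tP c P R (ga phi γ a) a : ℝ) ^ k a := ⟨_, rfl⟩
  have hv0 : 0 ≤ v := by
    rw [hv]
    exact prod_nonneg fun a _ => Nat.cast_nonneg _
  have hT1 : 1 ≤ T := by
    rw [hT]
    exact M6_T1 c P R γ k
  have hnu : ∏ a, nuP c P R (ga phi γ a) k a = T * v := by
    rw [hT, hv, ← prod_mul_distrib]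
    refine prod_congr rfl fun a _ => ?_
    rw [nuP, tP]
    split_ifs
    · push_cast
      ring
    · rw [Nat.cast_one, one_pow, one_mul, mul_one]
  refine SmY_xPM (rare_kPM hD hC₂ B hs P R k) (norm_wT_twc cl ψ) ?_
  rw [← hT]
  by_cases hn : ∀ i, ∃ c c' : ZMod 3, ∀ q, ψ i (cl q) = e3 (c * D.a q + c' * D.b q)
  · obtain ⟨u, hu, hwu⟩ := near_wT B hn γ
    intro ε hε
    obtain ⟨X0, h0⟩ := mom_kPM (engMD_dtB hD hC₂ B) hs hR hP γ k ε hε
    refine ⟨X0, fun X hX => ?_⟩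
    have h3 := h0 X hX
    rw [hnu] at h3
    have h4 : ∑ b ∈ SGM (dtB D B) (SxT B) γ X, wT (twc cl ψ) b *
        ((kPM (dtB D B) phi c P R k b : ℂ) - ((T * v : ℝ) : ℂ)) =
        u * ((∑ b ∈ SGM (dtB D B) (SxT B) γ X, (kPM (dtB D B) phi c P R k b : ℝ) -
          T * v * (SGM (dtB D B) (SxT B) γ X).card : ℝ) : ℂ) := by
      rw [sum_congr rfl fun b hb => by rw [hwu X b hb], ← mul_sum, sum_sub_distrib, sum_const,
        nsmul_eq_mul]
      push_cast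
      ring
    rw [h4, norm_mul, hu, one_mul, Complex.norm_real, Real.norm_eq_abs]
    exact h3
  · push Not at hn
    obtain ⟨i₀, hi⟩ := hn
    have hV : EngMV (dtB D B) (SxT B) (twc cl ψ) := far_EngMV hD hC₂ B hdi (i₀ := i₀) (by
      rintro ⟨c1, c2, h⟩
      obtain ⟨q, hq⟩ := hi c1 c2
      exact hq (h q))
    intro ε hε
    have hTv : 0 ≤ T * v := mul_nonneg (by linarith) hv0
    obtain ⟨X1, h1⟩ := van_kPM hV phi c P R k γ (ε / 2) (by positivity)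
    obtain ⟨X2, h2⟩ := van_kPM hV phi c P R (fun _ => 0) γ (ε / (2 * (T * v + 1))) (by positivity)
    refine ⟨max X1 X2, fun X hX => ?_⟩
    have g1 := h1 X ((le_max_left _ _).trans hX)
    have g2 := h2 X ((le_max_right _ _).trans hX)
    have h5 : ∀ b : Cb ι I, kPM (dtB D B) phi c P R (fun _ => 0) b = 1 := fun b =>
      prod_eq_one fun a _ => pow_zero _
    simp only [h5, Nat.cast_one, mul_one] at g2
    have hY : 0 ≤ Yh (hN I) X := Pool.Agent.Lib.MP_1a91b9_ntMN.Yh_nonneg _ _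
    have e : ∑ b ∈ SGM (dtB D B) (SxT B) γ X, wT (twc cl ψ) b *
        ((kPM (dtB D B) phi c P R k b : ℂ) - ((T * v : ℝ) : ℂ)) =
        ∑ b ∈ SGM (dtB D B) (SxT B) γ X, wT (twc cl ψ) b * (kPM (dtB D B) phi c P R k b : ℂ) -
          ((T * v : ℝ) : ℂ) * ∑ b ∈ SGM (dtB D B) (SxT B) γ X, wT (twc cl ψ) b := by
      rw [mul_sum, ← sum_sub_distrib]
      exact sum_congr rfl fun b _ => by ring
    rw [e]
    refine (norm_sub_le _ _).trans ?_
    have e4 : ‖((T * v : ℝ) : ℂ) * ∑ b ∈ SGM (dtB D B) (SxT B) γ X, wT (twc cl ψ) b‖ ≤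
        ε / 2 * Yh (hN I) X := by
      rw [norm_mul, Complex.norm_real, Real.norm_eq_abs, abs_of_nonneg hTv]
      calc T * v * ‖∑ b ∈ SGM (dtB D B) (SxT B) γ X, wT (twc cl ψ) b‖
          ≤ (T * v + 1) * (ε / (2 * (T * v + 1)) * Yh (hN I) X) :=
            mul_le_mul (by linarith) g2 (norm_nonneg _) (by positivity)
        _ = ε / 2 * Yh (hN I) X := by field_simp
    linarith

end

end Pool.Agent.Lib.MP_1a91b9_ntMC
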