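import Pool.Agent.Lib.MP_1a91b9_ntMC.CS

/-!
# MP_1a91b9_nt (all the multicubic fields): characters which are constant on the fine classes
-/

set_option autoImplicit false
set_option linter.unusedSectionVars false

namespace Pool.Agent.Lib.MP_1a91b9_ntMC

open Finset Pool.Agent.Lib.MP_1a91b9_ntH Pool.Agent.Lib.MP_1a91b9_ntK Pool.Agent.Lib.MP_1a91b9_ntK.Da
open Pool.Agent.Lib.MP_1a91b9_ntN
open Pool.Agent.Lib.MP_1a91b9_ntMN (Yh)

noncomputable section

variable {I : Type} [Fintype I] [DecidableEq I] {ι : Type} [DecidableEq ι] {G : Type} [AddCommGroup G]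

private theorem NR_nat (n : ℕ) (x : ZMod 3) : e3 (n * x) = e3 x ^ n := by
  induction n with
  | zero => rw [Nat.cast_zero, zero_mul, e3_zero, pow_zero]
  | succ n ih => rw [Nat.cast_succ, add_mul, one_mul, e3_add, ih, pow_succ]

private theorem NR_sum {T : Type} (s : Finset T) (f : T → ZMod 3) :
    ∏ q ∈ s, e3 (f q) = e3 (∑ q ∈ s, f q) := by
  classical
  induction s using Finset.induction_on with
  | empty => rw [sum_empty, prod_empty, e3_zero]
  | insert a s ha ih => rw [sum_insert ha, prod_insert ha, e3_add, ih]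

private theorem NR_ch {T : Type} (ψ : AddChar G ℂ) (s : Finset T) (f : T → G) :
    ψ (∑ q ∈ s, f q) = ∏ q ∈ s, ψ (f q) := by
  classical
  induction s using Finset.induction_on with
  | empty => rw [sum_empty, prod_empty, AddChar.map_zero_eq_one]
  | insert a s ha ih => rw [sum_insert ha, prod_insert ha, AddChar.map_add_eq_mul, ih]

/-- **The near case**: the twist is constant on the fine classes. -/
theorem near_wT [PS ι] {D : Dat3b ι} (B : Finset ι) {cl : ι → G} {ψ : I → AddChar G ℂ}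
    (h : ∀ i, ∃ c c' : ZMod 3, ∀ q, ψ i (cl q) = e3 (c * D.a q + c' * D.b q))
    (γ : I → Bool ⊕ B → ZMod 3) :
    ∃ u : ℂ, ‖u‖ = 1 ∧ ∀ X, ∀ b ∈ SGM (dtB D B) (SxT B) γ X, wT (twc cl ψ) b = u := by
  classical
  choose c c' hc using h
  refine ⟨∏ i, e3 (c i * γ i (Sum.inl false) + c' i * γ i (Sum.inl true)), ?_, fun X b hb => ?_⟩
  · rw [norm_prod]
    exact prod_eq_one fun i _ => norm_e3 _
  · rw [wT_twc]
    refine prod_congr rfl fun i _ => ?_
    rw [mem_SGM] at hb
    have h1 : ∑ q ∈ b.1, cz b q i * D.a q = γ i (Sum.inl false) := hb.2 i (Sum.inl false)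
    have h2 : ∑ q ∈ b.1, cz b q i * D.b q = γ i (Sum.inl true) := hb.2 i (Sum.inl true)
    unfold clb
    rw [NR_ch]
    have h3 : ∀ q, ψ i ((cz b q i).val • cl q) =
        e3 (c i * (cz b q i * D.a q) + c' i * (cz b q i * D.b q)) := by
      intro q
      rw [AddChar.map_nsmul_eq_pow, hc, ← NR_nat, ZMod.natCast_zmod_val]
      congr 1
      ring
    rw [prod_congr rfl fun q _ => h3 q, NR_sum, sum_add_distrib, ← mul_sum, ← mul_sum, h1, h2]

end

end Pool.Agent.Lib.MP_1a91b9_ntMC
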