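import Pool.Agent.Lib.MP_1a91b9_ntMC.A2
import Pool.Agent.Lib.MP_1a91b9_ntMC.A4

/-!
# MP_1a91b9_nt (random (Z/3)^r-extensions), block P4b: division of the points by powers of three
-/

set_option autoImplicit false

namespace Pool.Agent.Lib.MP_1a91b9_ntMC

open NumberField WeierstrassCurve

open Pool.Agent.Lib.MP_1a91b9_ntCC (Ed rnX rnY three_fin)

noncomputable section

open Classical in
/-- The points with a given multiple by a power of three. -/
theorem pow_three_fin {K L : Type} [Field K] [Field L] [Algebra K L] {v : L}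
    (hv : v ^ 2 + v + 1 = 0) (hv1 : v ≠ 1) (d : K) (m : ℕ) (R : (Ed L d).toAffine.Point) :
    {P : (Ed L d).toAffine.Point | 3 ^ m • P = R}.Finite := by
  induction m generalizing R with
  | zero =>
    refine (Set.finite_singleton R).subset ?_
    intro P hP
    have h : 3 ^ 0 • P = R := hP
    rw [pow_zero, one_smul] at h
    exact h
  | succ m ih =>
    refine ((ih R).biUnion fun Q _ => three_fin hv hv1 d Q).subset ?_
    intro P hP
    have h : 3 ^ (m + 1) • P = R := hP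
    rw [pow_succ, mul_smul] at h
    rw [Set.mem_iUnion₂]
    exact ⟨3 • P, h, rfl⟩

/-- Finitely many classes modulo `n`. -/
theorem reps_n3 {A : Type} [AddCommGroup A] (hA : AddGroup.FG A) {n : ℕ} (hn : n ≠ 0) :
    ∃ s : Set A, s.Finite ∧ ∀ x : A, ∃ r ∈ s, ∃ y : A, x = r + n • y := by
  have h1 : Module.Finite ℤ A := Module.Finite.iff_addGroup_fg.2 hA
  let N : Submodule ℤ A := LinearMap.range (LinearMap.lsmul ℤ A (n : ℤ))
  have h2 : Finite (A ⧸ N) := by
    refine Module.finite_of_fg_torsion _ ?_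
    intro x
    refine ⟨⟨(n : ℤ), mem_nonZeroDivisors_of_ne_zero (by exact_mod_cast hn)⟩, ?_⟩
    induction x using Submodule.Quotient.induction_on with
    | H x =>
      show (n : ℤ) • (Submodule.Quotient.mk x : A ⧸ N) = 0
      rw [← Submodule.Quotient.mk_smul, Submodule.Quotient.mk_eq_zero]
      exact ⟨x, rfl⟩
  refine ⟨Set.range fun q : A ⧸ N => q.out, Set.finite_range _, fun x => ?_⟩
  refine ⟨_, ⟨Submodule.Quotient.mk x, rfl⟩, ?_⟩
  have h3 : (Submodule.Quotient.mk x : A ⧸ N) =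
      Submodule.Quotient.mk (Submodule.Quotient.mk x : A ⧸ N).out := by
    exact (Quotient.out_eq _).symm
  rw [Submodule.Quotient.eq] at h3
  obtain ⟨y, hy⟩ := h3
  refine ⟨y, ?_⟩
  have hy' : (n : ℤ) • y = x - (Submodule.Quotient.mk x : A ⧸ N).out := hy
  have h4 : n • y = x - (Submodule.Quotient.mk x : A ⧸ N).out := by
    rw [← hy', natCast_zsmul]
  rw [h4]
  abel

/-- An element of `N` outside of `F` generates a field with a cube root of some `e^χ`, `χ ≠ 0`. -/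
theorem MCx.field_of {F N : Type} [Field F] [NumberField F] [Field N] [NumberField N] [Algebra F N]
    {w : F} (hw : IsPrimitiveRoot w 3) {r : ℕ} {e : Fin r → F} {x : Fin r → N} (h : MCx e x)
    (he : ∀ i, e i ≠ 0) (hind : ∀ χ : Fin r → ZMod 3, χ ≠ 0 → ¬ ∃ c : F, c ^ 3 = chp χ e) {z : N}
    (hz : ¬ ∃ c : F, algebraMap F N c = z) : ∃ χ : Fin r → ZMod 3, χ ≠ 0 ∧
      ∃ y ∈ IntermediateField.adjoin F {z}, y ^ 3 = algebraMap F N (chp χ e) := by
  have h1 := h.inter hw he hind (IntermediateField.adjoin F {z})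
  by_contra hcon
  -- all the cube roots are in `F`
  have h2 : ∀ y ∈ {y : IntermediateField.adjoin F {z} | ∃ χ : Fin r → ZMod 3,
      y ^ 3 = algebraMap F (IntermediateField.adjoin F {z}) (chp χ e)},
      y ∈ (⊥ : IntermediateField F (IntermediateField.adjoin F {z})) := by
    rintro y ⟨χ, hy⟩
    by_cases hχ : χ = 0
    · rw [hχ, chp_zero, map_one] at hy
      obtain ⟨v, hv⟩ : ∃ v : IntermediateField.adjoin F {z}, v = algebraMap F _ w := ⟨_, rfl⟩
      have hvp : IsPrimitiveRoot v 3 := by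
        rw [hv]
        exact hw.map_of_injective (algebraMap F (IntermediateField.adjoin F {z})).injective
      have : NeZero 3 := ⟨three_ne_zero⟩
      obtain ⟨i, -, hi⟩ := hvp.eq_pow_of_pow_eq_one hy
      rw [IntermediateField.mem_bot]
      exact ⟨w ^ i, by rw [map_pow, ← hv, hi]⟩
    · exfalso
      refine hcon ⟨χ, hχ, (y : N), y.2, ?_⟩
      have h3 := congrArg (fun t : IntermediateField.adjoin F {z} => (t : N)) hy
      exact h3
  have h3 : (⊤ : IntermediateField F (IntermediateField.adjoin F {z})) ≤ ⊥ := by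
    rw [← h1]
    exact IntermediateField.adjoin_le_iff.2 h2
  have h4 : (⟨z, IntermediateField.mem_adjoin_simple_self F z⟩ : IntermediateField.adjoin F {z}) ∈
      (⊥ : IntermediateField F (IntermediateField.adjoin F {z})) := h3 IntermediateField.mem_top
  rw [IntermediateField.mem_bot] at h4
  obtain ⟨c, hc⟩ := h4
  refine hz ⟨c, ?_⟩
  exact congrArg (fun t : IntermediateField.adjoin F {z} => (t : N)) hc

open Classical in
/-- **P4b**. Division. -/
theorem div_mc3 {F : Type} [Field F] [NumberField F] {w : F} (hw : IsPrimitiveRoot w 3) {a : F}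
    (ha : a ≠ 0) (r m : ℕ) :
    ∃ B : Finset F, (∀ β ∈ B, β ≠ 0) ∧ 1 ∈ B ∧ ∀ (N : Type) [Field N] [NumberField N] [Algebra F N]
      (e : Fin r → F) (x : Fin r → N), (∀ i, e i ≠ 0) → MCx e x →
      (∀ χ : Fin r → ZMod 3, χ ≠ 0 → ∀ β ∈ B, ∀ c : F, c ^ 3 * chp χ e ≠ β) →
      ∀ (P : (Ed N a).toAffine.Point) (Q : (Ed F a).toAffine.Point),
        3 ^ m • P = Affine.Point.map (W' := (⟨0, 0, a, 0, 0⟩ : WeierstrassCurve F)) (Algebra.ofId F N) Q →
        ∃ Q' : (Ed F a).toAffine.Point,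
          P = Affine.Point.map (W' := (⟨0, 0, a, 0, 0⟩ : WeierstrassCurve F)) (Algebra.ofId F N) Q' := by
  obtain ⟨W, hW⟩ : ∃ W : WeierstrassCurve F, W = ⟨0, 0, a, 0, 0⟩ := ⟨_, rfl⟩
  have hΔ : W.Δ ≠ 0 := by
    have h4 : W.Δ = -27 * a ^ 4 := by
      rw [hW]
      simp only [WeierstrassCurve.Δ, WeierstrassCurve.b₂, WeierstrassCurve.b₄,
        WeierstrassCurve.b₆, WeierstrassCurve.b₈]
      ring
    rw [h4]
    exact mul_ne_zero (by norm_num) (pow_ne_zero 4 ha)
  have hell : W.IsElliptic := ⟨isUnit_iff_ne_zero.2 hΔ⟩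
  have hellF : (W.baseChange F).IsElliptic :=
    inferInstanceAs (W.map (algebraMap F F)).IsElliptic
  have hw3 : w ^ 3 = 1 := hw.pow_eq_one
  have hw1 : w ≠ 1 := hw.ne_one (by norm_num)
  have hw2 : w ^ 2 + w + 1 = 0 := by
    have h3 : (w - 1) * (w ^ 2 + w + 1) = 0 := by linear_combination hw3
    exact (mul_eq_zero.1 h3).resolve_left (sub_ne_zero.2 hw1)
  -- representatives
  obtain ⟨s, hs, hrep⟩ := reps_n3 (Pool.Agent.Lib.MP_17a322_nt.VJ.mordell_weil (W.baseChange F))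
    (n := 3 ^ m) (pow_ne_zero _ three_ne_zero)
  subst hW
  -- the parts over the algebraic closure
  let Fb := AlgebraicClosure F
  obtain ⟨wb, hwb⟩ : ∃ wb : Fb, wb = algebraMap F Fb w := ⟨_, rfl⟩
  have hwb2 : wb ^ 2 + wb + 1 = 0 := by
    rw [hwb, ← map_pow, ← map_add, ← map_one (algebraMap F Fb), ← map_add, hw2, map_zero]
  have hwb1 : wb ≠ 1 := by
    rw [hwb]
    intro h
    apply hw1
    apply (algebraMap F Fb).injective
    rw [h, map_one]
  let Qs : Set (Ed Fb a).toAffine.Point :=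
    ⋃ q ∈ s, {P | 3 ^ m • P = Affine.Point.map (W' := (⟨0, 0, a, 0, 0⟩ : WeierstrassCurve F))
      (Algebra.ofId F Fb) q}
  have hQs : Qs.Finite := hs.biUnion fun q _ => pow_three_fin hwb2 hwb1 a _ _
  let C : Set Fb := (rnX '' Qs) ∪ (rnY '' Qs)
  have hC : C.Finite := (hQs.image _).union (hQs.image _)
  obtain ⟨B₂, hB₂0, hB₂⟩ := ker_adj3 hw hC
  refine ⟨insert 1 (B₂.image fun β => β ^ 2), ?_, Finset.mem_insert_self _ _, ?_⟩
  · intro β hβ
    rw [Finset.mem_insert, Finset.mem_image] at hβ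
    rcases hβ with rfl | ⟨γ, hγ, rfl⟩
    · exact one_ne_zero
    · exact pow_ne_zero 2 (hB₂0 γ hγ)
  intro N _ _ _ e x he h hB P R hR
  have hind : ∀ χ : Fin r → ZMod 3, χ ≠ 0 → ¬ ∃ c : F, c ^ 3 = chp χ e := by
    rintro χ hχ ⟨c, hc⟩
    have hc0 : chp χ e ≠ 0 := chp_ne_zero χ he
    refine hB χ hχ 1 (Finset.mem_insert_self _ _) c⁻¹ ?_
    rw [inv_pow, hc, inv_mul_cancel₀ hc0]
  obtain ⟨r₀, hr₀, T, hT⟩ := hrep R
  obtain ⟨P', hP'⟩ : ∃ P', P' = P - Affine.Point.map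
    (W' := (⟨0, 0, a, 0, 0⟩ : WeierstrassCurve F)) (Algebra.ofId F N) T := ⟨_, rfl⟩
  have h2P' : 3 ^ m • P' = Affine.Point.map
      (W' := (⟨0, 0, a, 0, 0⟩ : WeierstrassCurve F)) (Algebra.ofId F N) r₀ := by
    rw [hP', smul_sub, hR, hT, map_add, map_nsmul]
    abel
  -- into the algebraic closure
  let φ : N →ₐ[F] Fb := IsAlgClosed.lift
  have m1 : Affine.Point.map (W' := (⟨0, 0, a, 0, 0⟩ : WeierstrassCurve F)) φ P' ∈ Qs := by
    refine Set.mem_biUnion hr₀ ?_
    show 3 ^ m • Affine.Point.map (W' := (⟨0, 0, a, 0, 0⟩ : WeierstrassCurve F)) φ P' = _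
    rw [← map_nsmul, h2P']
    rcases r₀ with _ | ⟨x, y, h⟩
    · rfl
    · change Affine.Point.some _ _ _ = Affine.Point.some _ _ _
      rw [Affine.Point.some.injEq]
      exact ⟨φ.commutes x, φ.commutes y⟩
  have hmem : ∀ z : N, φ z ∈ C → ∃ c : F, algebraMap F N c = z := by
    intro z hz
    by_contra hcon
    obtain ⟨χ, hχ, y, hy, hy2⟩ := h.field_of hw he hind hcon
    have h0 : chp χ e ≠ 0 := chp_ne_zero χ he
    obtain ⟨β, hβ, c, hc⟩ := hB₂ N φ z _ hz h0 ⟨y, hy, hy2⟩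
    have hβ0 := hB₂0 β hβ
    have hc0 : c ^ 3 ≠ 0 := by
      rw [hc]
      exact mul_ne_zero h0 hβ0
    refine hB χ hχ (β ^ 2) (Finset.mem_insert_of_mem (Finset.mem_image.2 ⟨β, hβ, rfl⟩)) (β / c) ?_
    rw [div_pow, hc]
    field_simp
  have hQ : ∃ Q' : (Ed F a).toAffine.Point,
      P' = Affine.Point.map (W' := (⟨0, 0, a, 0, 0⟩ : WeierstrassCurve F)) (Algebra.ofId F N) Q' := by
    clear hP' h2P'
    rcases P' with _ | ⟨x', y', h'⟩
    · exact ⟨0, rfl⟩
    · obtain ⟨x₀, rfl⟩ := hmem x' (Or.inl ⟨_, m1, rfl⟩)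
      obtain ⟨y₀, rfl⟩ := hmem y' (Or.inr ⟨_, m1, rfl⟩)
      exact ⟨Affine.Point.some x₀ y₀ ((Affine.baseChange_nonsingular
        (⟨0, 0, a, 0, 0⟩ : WeierstrassCurve F).toAffine
        (Algebra.ofId F N).injective _ _).mp h'), rfl⟩
  obtain ⟨Q', hQ'⟩ := hQ
  refine ⟨Q' + T, ?_⟩
  rw [map_add, ← hQ', hP', sub_add_cancel]

end

end Pool.Agent.Lib.MP_1a91b9_ntMC
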