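import Pool.Agent.Lib.MP_1a91b9_ntMC.P4a
import Pool.Agent.Lib.MP_1a91b9_ntMC.P4b

/-!
# MP_1a91b9_nt (random (Z/3)^r-extensions), block P4: no new points
-/

set_option autoImplicit false

namespace Pool.Agent.Lib.MP_1a91b9_ntMC

open NumberField WeierstrassCurve
open Pool.Agent.Lib.MP_1a91b9_ntCC (Ed)

noncomputable section

open Classical in
/-- **No new points** over `N = F(∛e_1, .., ∛e_r)`. -/
theorem nn_mc {F : Type} [Field F] [NumberField F] {w : F} (hw : IsPrimitiveRoot w 3) {a : F} (ha : a ≠ 0)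
    (r : ℕ) :
    ∃ B : Finset F, (∀ β ∈ B, β ≠ 0) ∧ 1 ∈ B ∧ ∀ (N : Type) [Field N] [NumberField N] [Algebra F N]
      (e : Fin r → F) (x : Fin r → N), (∀ i, e i ≠ 0) → MCx e x →
      (∀ χ : Fin r → ZMod 3, χ ≠ 0 →
        Finite (⟨0, 0, chp χ e * a, 0, 0⟩ : WeierstrassCurve F).toAffine.Point) →
      (∀ χ : Fin r → ZMod 3, χ ≠ 0 → ∀ β ∈ B, ∀ c : F, c ^ 3 * chp χ e ≠ β) →
      ∀ x' y' : N, ((⟨0, 0, a, 0, 0⟩ : WeierstrassCurve F).map (algebraMap F N)).toAffine.Equation x' y' →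
        ∃ x₀ y₀ : F, algebraMap F N x₀ = x' ∧ algebraMap F N y₀ = y' := by
  obtain ⟨B₁, hB₁0, hB₁1, hB₁⟩ := pow_mc hw ha r
  obtain ⟨B₂, hB₂0, hB₂1, hB₂⟩ := div_mc3 hw ha r r
  refine ⟨B₁ ∪ B₂, ?_, Finset.mem_union_left _ hB₁1, ?_⟩
  · intro β hβ
    rcases Finset.mem_union.1 hβ with hβ | hβ
    · exact hB₁0 β hβ
    · exact hB₂0 β hβ
  intro N _ _ _ e x he h hf hB x' y' heq
  have hΔ' : (Ed N a).Δ ≠ 0 := by
    change ((⟨0, 0, a, 0, 0⟩ : WeierstrassCurve F).map (algebraMap F N)).Δ ≠ 0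
    rw [WeierstrassCurve.map_Δ]
    refine (_root_.map_ne_zero _).2 ?_
    have h4 : (⟨0, 0, a, 0, 0⟩ : WeierstrassCurve F).Δ = -27 * a ^ 4 := by
      simp only [WeierstrassCurve.Δ, WeierstrassCurve.b₂, WeierstrassCurve.b₄,
        WeierstrassCurve.b₆, WeierstrassCurve.b₈]
      ring
    rw [h4]
    exact mul_ne_zero (by norm_num) (pow_ne_zero 4 ha)
  have hns : (Ed N a).toAffine.Nonsingular x' y' := by
    rw [← Affine.equation_iff_nonsingular_of_Δ_ne_zero hΔ']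
    exact heq
  obtain ⟨R, hR⟩ := hB₁ N e x he h hf (fun χ hχ β hβ => hB χ hχ β (Finset.mem_union_left _ hβ))
    (Affine.Point.some x' y' hns)
  obtain ⟨Q, hQ⟩ := hB₂ N e x he h (fun χ hχ β hβ => hB χ hχ β (Finset.mem_union_right _ hβ))
    (Affine.Point.some x' y' hns) R hR
  rcases Q with _ | ⟨x₀, y₀, h₀⟩
  · cases hQ
  · change Affine.Point.some _ _ _ = Affine.Point.some _ _ _ at hQ
    rw [Affine.Point.some.injEq] at hQ
    exact ⟨x₀, y₀, hQ.1.symm, hQ.2.symm⟩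

end

end Pool.Agent.Lib.MP_1a91b9_ntMC
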