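import Pool.Agent.Lib.MP_1a91b9_ntMC.A2

/-!
# MP_1a91b9_nt (random (Z/3)^r-extensions), block P4a: `3 ^ r P` is over `F`
-/

set_option autoImplicit false

namespace Pool.Agent.Lib.MP_1a91b9_ntMC

open NumberField WeierstrassCurve Pool.Agent.Lib.MP_1a91b9_nt
open Pool.Agent.Lib.MP_1a91b9_ntCC (Ed tors_y exists_mu rn_eq)

noncomputable section

/-- The points `(c t, y)`, `c, y` in `K`, are finitely many if the twist by `t ^ 3` has finitely many points. -/
private theorem P4a_fin {K L : Type} [Field K] [Field L] [Algebra K L] [DecidableEq L] [DecidableEq K] (d c : K)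
    (t : L) (ht : t ≠ 0) (htc : t ^ 3 = algebraMap K L c)
    (S S' : WeierstrassCurve K) (hS : S = ⟨0, 0, d, 0, 0⟩) (hS' : S' = ⟨0, 0, c * d, 0, 0⟩)
    (hfin : Finite S'.toAffine.Point) :
    {P : (S.baseChange L).toAffine.Point | ∀ x y h, P = Affine.Point.some x y h →
      (∃ c₁ : K, x = algebraMap K L c₁ * t) ∧ ∃ y₁ : K, y = algebraMap K L y₁}.Finite := by
  have hbc : S'.baseChange K = S' := S'.map_id
  have hf0 : Finite (S'.baseChange K).toAffine.Point := by rw [hbc]; exact hfin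
  let f : (S'.baseChange K).toAffine.Point →ₗ[ℤ] (S'.baseChange L).toAffine.Point :=
    (WeierstrassCurve.Affine.Point.map (W' := S') (Algebra.ofId K L)).toIntLinearMap
  obtain ⟨e, he⟩ := twist_equiv (S.baseChange L) (S'.baseChange L)
    ⟨(Units.mk0 t ht)⁻¹, 0, 0, 0⟩ (by
      rw [hS, hS']
      refine WeierstrassCurve.ext ?_ ?_ ?_ ?_ ?_
      · simp [variableChange_a₁, WeierstrassCurve.baseChange]
      · simp [variableChange_a₂, WeierstrassCurve.baseChange]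
      · rw [variableChange_a₃]
        change algebraMap K L (c * d) = _
        rw [map_mul, ← htc]
        simp [WeierstrassCurve.baseChange]
      · simp [variableChange_a₄, WeierstrassCurve.baseChange]
      · simp [variableChange_a₆, WeierstrassCurve.baseChange])
  have he' : ∀ (x y : L) (h : (S'.baseChange L).toAffine.Nonsingular x y), ∃ h',
      e (WeierstrassCurve.Affine.Point.some x y h) =
        WeierstrassCurve.Affine.Point.some (t⁻¹ ^ 2 * x) (t⁻¹ ^ 3 * y) h' := by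
    intro x y h
    obtain ⟨h', hh⟩ := he x y h
    have e1 : (((⟨(Units.mk0 t ht)⁻¹, 0, 0, 0⟩ : WeierstrassCurve.VariableChange L).u : Lˣ) : L) ^ 2
        * x + 0 = t⁻¹ ^ 2 * x := by simp
    have e2 : (((⟨(Units.mk0 t ht)⁻¹, 0, 0, 0⟩ : WeierstrassCurve.VariableChange L).u : Lˣ) : L) ^ 3
        * y + (((⟨(Units.mk0 t ht)⁻¹, 0, 0, 0⟩ : WeierstrassCurve.VariableChange L).u : Lˣ) : L) ^ 2
        * 0 * x + 0 = t⁻¹ ^ 3 * y := by simp
    have h'' : (S.baseChange L).toAffine.Nonsingular (t⁻¹ ^ 2 * x) (t⁻¹ ^ 3 * y) := by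
      rw [← e1, ← e2]
      exact h'
    refine ⟨h'', ?_⟩
    rw [hh, WeierstrassCurve.Affine.Point.some.injEq]
    exact ⟨e1, e2⟩
  let g : (S'.baseChange K).toAffine.Point → (S.baseChange L).toAffine.Point := fun Q => e (f Q)
  refine (Set.finite_range g).subset ?_
  intro P hP
  obtain ⟨Q, rfl⟩ := e.surjective P
  rcases Q with _ | ⟨x, y, hxy⟩
  · refine ⟨0, ?_⟩
    show e (f 0) = _
    rw [map_zero]
    rfl
  · obtain ⟨h', hh⟩ := he' x y hxy
    obtain ⟨⟨c₁, h1⟩, y₁, h2⟩ := hP _ _ _ hh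
    have hx : x = algebraMap K L (c₁ * c) := by
      rw [map_mul, ← htc]
      have h3 : x = t ^ 2 * (t⁻¹ ^ 2 * x) := by field_simp
      rw [h3, h1]
      ring
    have hy : y = algebraMap K L (y₁ * c) := by
      rw [map_mul, ← htc]
      have h3 : y = t ^ 3 * (t⁻¹ ^ 3 * y) := by field_simp
      rw [h3, h2]
      ring
    subst hx hy
    exact ⟨WeierstrassCurve.Affine.Point.some (c₁ * c) (y₁ * c)
      ((WeierstrassCurve.Affine.baseChange_nonsingular S'.toAffine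
        (Algebra.ofId K L).injective _ _).mp hxy), rfl⟩

/-- The powers of `μ`. -/
private def P4a_M {E : Type} [AddCommGroup E] (μ : E →+ E) (s : ZMod 3) : E →+ E :=
  if s = 0 then AddMonoidHom.id E else if s = 1 then μ else μ.comp μ

private theorem P4a_M_add {E : Type} [AddCommGroup E] {μ : E →+ E} (hμ : ∀ a, μ (μ (μ a)) = a) (s t : ZMod 3)
    (Q : E) : P4a_M μ (s + t) Q = P4a_M μ s (P4a_M μ t Q) := by
  have h : ∀ s : ZMod 3, s = 0 ∨ s = 1 ∨ s = 2 := by decide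
  have n1 : (1 : ZMod 3) ≠ 0 := by decide
  have n2 : (2 : ZMod 3) ≠ 0 := by decide
  have n3 : (2 : ZMod 3) ≠ 1 := by decide
  have M0 : ∀ Q, P4a_M μ 0 Q = Q := fun Q => by
    unfold P4a_M
    rw [if_pos rfl]
    rfl
  have M1 : ∀ Q, P4a_M μ 1 Q = μ Q := fun Q => by
    unfold P4a_M
    rw [if_neg n1, if_pos rfl]
  have M2 : ∀ Q, P4a_M μ 2 Q = μ (μ Q) := fun Q => by
    unfold P4a_M
    rw [if_neg n2, if_neg n3]
    rfl
  rcases h s with rfl | rfl | rfl
  · rw [zero_add, M0]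
  · rcases h t with rfl | rfl | rfl
    · rw [add_zero, M0]
    · rw [show (1 : ZMod 3) + 1 = 2 by decide, M1, M1, M2]
    · rw [show (1 : ZMod 3) + 2 = 0 by decide, M1, M2, M0, hμ]
  · rcases h t with rfl | rfl | rfl
    · rw [add_zero, M0]
    · rw [show (2 : ZMod 3) + 1 = 0 by decide, M1, M2, M0, hμ]
    · rw [show (2 : ZMod 3) + 2 = 1 by decide, M1, M2, M2, hμ]

private theorem P4a_M_zero {E : Type} [AddCommGroup E] (μ : E →+ E) (Q : E) : P4a_M μ 0 Q = Q := by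
  unfold P4a_M
  rw [if_pos rfl]
  rfl

private theorem P4a_M_one {E : Type} [AddCommGroup E] (μ : E →+ E) (Q : E) : P4a_M μ 1 Q = μ Q := by
  unfold P4a_M
  rw [if_neg (by decide), if_pos rfl]

/-- The group theory: `3 ^ r P` is in `H`. -/
private theorem P4a_grp {E : Type} [AddCommGroup E] {r : ℕ} (μ : E →+ E) (hμ : ∀ a, μ (μ (μ a)) = a)
    (ρ : (Fin r → ZMod 3) → E →+ E) (hρ : ∀ a b Q, ρ (a + b) Q = ρ a (ρ b Q))
    (hρ0 : ∀ Q, ρ 0 Q = Q)
    (hc : ∀ a Q, ρ a (μ Q) = μ (ρ a Q)) (H : AddSubgroup E) (h0 : ∀ Q, (∀ a, ρ a Q = Q) → Q ∈ H)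
    (h1 : ∀ Q, μ Q = Q → Q ∈ H)
    (h2 : ∀ χ : Fin r → ZMod 3, χ ≠ 0 → ∀ Q, (∀ a, ρ a Q = P4a_M μ (χ ⬝ᵥ a) Q) → Q ∈ H) (P : E) :
    3 ^ r • P ∈ H := by
  classical
  have hMc : ∀ s a Q, ρ a (P4a_M μ s Q) = P4a_M μ s (ρ a Q) := by
    intro s a Q
    unfold P4a_M
    split_ifs
    · rfl
    · exact hc a Q
    · show ρ a (μ (μ Q)) = μ (μ (ρ a Q))
      rw [hc, hc]
  -- the components
  have hP : ∀ χ : Fin r → ZMod 3, ∑ a, P4a_M μ (-(χ ⬝ᵥ a)) (ρ a P) ∈ H := by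
    intro χ
    have hb : ∀ b, ρ b (∑ a, P4a_M μ (-(χ ⬝ᵥ a)) (ρ a P)) =
        P4a_M μ (χ ⬝ᵥ b) (∑ a, P4a_M μ (-(χ ⬝ᵥ a)) (ρ a P)) := by
      intro b
      rw [map_sum, map_sum, ← Equiv.sum_comp (Equiv.addRight b) fun a => P4a_M μ (χ ⬝ᵥ b)
        (P4a_M μ (-(χ ⬝ᵥ a)) (ρ a P))]
      refine Finset.sum_congr rfl fun a _ => ?_
      rw [hMc, ← hρ, ← P4a_M_add hμ, Equiv.coe_addRight, dotProduct_add, add_comm b a]
      congr 2
      ring
    by_cases hχ : χ = 0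
    · refine h0 _ fun b => ?_
      rw [hb b, hχ, zero_dotProduct, P4a_M_zero]
    · exact h2 χ hχ _ hb
  have hT : ∀ a : Fin r → ZMod 3, a ≠ 0 → ∑ χ : Fin r → ZMod 3, P4a_M μ (-(χ ⬝ᵥ a)) (ρ a P) ∈ H := by
    intro a ha
    refine h1 _ ?_
    obtain ⟨i, hi⟩ := Function.ne_iff.1 ha
    have h3 : ∀ z : ZMod 3, z ≠ 0 → ∃ u : ZMod 3, -(u * z) = 1 := by decide
    obtain ⟨u, hu⟩ := h3 (a i) hi
    rw [map_sum, ← Equiv.sum_comp (Equiv.addRight (Pi.single i u : Fin r → ZMod 3)) fun χ =>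
      P4a_M μ (-(χ ⬝ᵥ a)) (ρ a P)]
    refine Finset.sum_congr rfl fun χ _ => ?_
    rw [Equiv.coe_addRight, add_dotProduct, single_dotProduct, neg_add, hu, add_comm, P4a_M_add hμ, P4a_M_one]
  -- the sum
  have hs : 3 ^ r • P = ∑ χ : Fin r → ZMod 3, ∑ a, P4a_M μ (-(χ ⬝ᵥ a)) (ρ a P) -
      ∑ a ∈ Finset.univ.erase (0 : Fin r → ZMod 3), ∑ χ : Fin r → ZMod 3, P4a_M μ (-(χ ⬝ᵥ a)) (ρ a P) := by
    rw [Finset.sum_comm, ← Finset.add_sum_erase Finset.univ _ (Finset.mem_univ (0 : Fin r → ZMod 3)),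
      add_sub_cancel_right]
    simp only [dotProduct_zero, neg_zero, P4a_M_zero, hρ0]
    rw [Finset.sum_const, Finset.card_univ, Fintype.card_fun, ZMod.card, Fintype.card_fin]
  rw [hs]
  exact H.sub_mem (H.sum_mem fun χ _ => hP χ) (H.sum_mem fun a ha => hT a (Finset.ne_of_mem_erase ha))

open Classical in
/-- **P4a.** `3 ^ r P` is over `F`. -/
theorem pow_mc {F : Type} [Field F] [NumberField F] {w : F} (hw : IsPrimitiveRoot w 3) {a : F} (ha : a ≠ 0)
    (r : ℕ) :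
    ∃ B : Finset F, (∀ β ∈ B, β ≠ 0) ∧ 1 ∈ B ∧ ∀ (N : Type) [Field N] [NumberField N] [Algebra F N]
      (e : Fin r → F) (x : Fin r → N), (∀ i, e i ≠ 0) → MCx e x →
      (∀ χ : Fin r → ZMod 3, χ ≠ 0 →
        Finite (⟨0, 0, chp χ e * a, 0, 0⟩ : WeierstrassCurve F).toAffine.Point) →
      (∀ χ : Fin r → ZMod 3, χ ≠ 0 → ∀ β ∈ B, ∀ c : F, c ^ 3 * chp χ e ≠ β) →
      ∀ P : (Ed N a).toAffine.Point, ∃ Q : (Ed F a).toAffine.Point,
        3 ^ r • P = Affine.Point.map (W' := (⟨0, 0, a, 0, 0⟩ : WeierstrassCurve F)) (Algebra.ofId F N) Q := by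
  have hw3 : w ^ 3 = 1 := hw.pow_eq_one
  have hw1 : w ≠ 1 := hw.ne_one (by norm_num)
  have hw2 : w ^ 2 + w + 1 = 0 := by
    have h3 : (w - 1) * (w ^ 2 + w + 1) = 0 := by linear_combination hw3
    exact (mul_eq_zero.1 h3).resolve_left (sub_ne_zero.2 hw1)
  obtain ⟨Y, hY⟩ := tors_y ha
  have hB1 : {β : F | β ≠ 0 ∧ ∃ y ∈ Y, β = y ^ 2 + a * y}.Finite := by
    refine Set.Finite.subset (Y.finite_toSet.image fun y => y ^ 2 + a * y) ?_
    rintro β ⟨_, y, hy, rfl⟩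
    exact ⟨y, hy, rfl⟩
  refine ⟨insert 1 hB1.toFinset, ?_, Finset.mem_insert_self _ _, ?_⟩
  · intro β hβ
    rcases Finset.mem_insert.1 hβ with rfl | hβ
    · exact one_ne_zero
    · rw [Set.Finite.mem_toFinset] at hβ
      exact hβ.1
  intro N _ _ _ e x he hx hfin hB P
  have hB1' : ∀ χ : Fin r → ZMod 3, χ ≠ 0 → ∀ y ∈ Y, ∀ c : F, c ^ 3 * chp χ e = y ^ 2 + a * y → c = 0 := by
    intro χ hχ y hy c hc
    by_contra h0
    refine hB χ hχ (c ^ 3 * chp χ e) (Finset.mem_insert_of_mem ?_) c rfl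
    rw [Set.Finite.mem_toFinset]
    exact ⟨mul_ne_zero (pow_ne_zero 3 h0) (chp_ne_zero χ he), y, hy, hc⟩
  have hind : ∀ χ : Fin r → ZMod 3, χ ≠ 0 → ¬ ∃ c : F, c ^ 3 = chp χ e := by
    rintro χ hχ ⟨c, hc⟩
    have h1 : chp χ e ≠ 0 := chp_ne_zero χ he
    have hc0 : c ≠ 0 := by
      rintro rfl
      rw [zero_pow three_ne_zero] at hc
      exact h1 hc.symm
    refine hB χ hχ 1 (Finset.mem_insert_self _ _) c⁻¹ ?_
    rw [← hc, inv_pow, inv_mul_cancel₀ (pow_ne_zero 3 hc0)]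
  obtain ⟨σ, hσa, hσx, hfix⟩ := hx.gal hw he hind
  obtain ⟨v, hv⟩ : ∃ v : N, v = algebraMap F N w := ⟨_, rfl⟩
  have hv2 : v ^ 2 + v + 1 = 0 := by
    rw [hv, ← map_pow, ← map_add, ← map_one (algebraMap F N), ← map_add, hw2, map_zero]
  have hv3 : v ^ 3 = 1 := by linear_combination (v - 1) * hv2
  have hv1 : v ≠ 1 := by
    rw [hv]
    intro h
    apply hw1
    apply (algebraMap F N).injective
    rw [h, map_one]
  have hv0 : v ≠ 0 := by
    rintro rfl
    rw [zero_pow three_ne_zero] at hv3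
    exact zero_ne_one hv3
  rw [← hv] at hσx
  have hσv : ∀ b, σ b v = v := fun b => by rw [hv, AlgEquiv.commutes]
  have hE : ∀ x y : N, (Ed N a).toAffine.Nonsingular x y →
      y ^ 2 + algebraMap F N a * y = x ^ 3 := fun x y h => (rn_eq a x y).1 h.1
  have hx0 : ∀ i, x i ≠ 0 := by
    intro i h
    have h1 := hx.cu i
    rw [h, zero_pow three_ne_zero] at h1
    exact he i ((map_eq_zero _).1 h1.symm)
  -- the products
  have hθ0 : ∀ χ : Fin r → ZMod 3, chp χ x ≠ 0 := fun χ => chp_ne_zero χ hx0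
  have hθ3 : ∀ χ : Fin r → ZMod 3, chp χ x ^ 3 = algebraMap F N (chp χ e) := by
    intro χ
    rw [← chp_pow]
    have h1 : (fun i => x i ^ 3) = fun i => (algebraMap F N).toMonoidHom (e i) := funext hx.cu
    rw [h1, chp_map]
    rfl
  have hvp : ∀ n : ℕ, v ^ n = v ^ ((n : ZMod 3).val) := by
    intro n
    rw [ZMod.val_natCast]
    exact pow_eq_pow_mod n hv3
  have hσθ : ∀ (χ b : Fin r → ZMod 3), σ b (chp χ x) = v ^ (χ ⬝ᵥ b).val * chp χ x := by
    intro χ b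
    unfold chp
    rw [map_prod]
    have h1 : ∀ i, σ b (x i ^ (χ i).val) = v ^ ((χ i).val * (b i).val) * x i ^ (χ i).val := by
      intro i
      rw [map_pow, hσx, mul_pow, ← pow_mul, mul_comm (b i).val]
    rw [Finset.prod_congr rfl fun i _ => h1 i, Finset.prod_mul_distrib, Finset.prod_pow_eq_pow_sum, hvp]
    congr 3
    push_cast
    unfold dotProduct
    refine Finset.sum_congr rfl fun i _ => ?_
    rw [ZMod.natCast_zmod_val, ZMod.natCast_zmod_val]
  -- the automorphisms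
  obtain ⟨μ, hμ', hμ3, hμ1, hμf⟩ := exists_mu (K := F) (L := N) hv2 hv1 a
  let ρ : (Fin r → ZMod 3) → (Ed N a).toAffine.Point →+ (Ed N a).toAffine.Point := fun b =>
    (galRho (M := N) (⟨0, 0, a, 0, 0⟩ : WeierstrassCurve F) (σ b)).toAddMonoidHom
  have hρ' : ∀ (b : Fin r → ZMod 3) (X Y : N) (h : (Ed N a).toAffine.Nonsingular X Y), ∃ h',
      ρ b (WeierstrassCurve.Affine.Point.some X Y h) =
        WeierstrassCurve.Affine.Point.some (σ b X) (σ b Y) h' := fun b X Y h => ⟨_, rfl⟩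
  have hρadd : ∀ b c Q, ρ (b + c) Q = ρ b (ρ c Q) := by
    intro b c Q
    rcases Q with _ | ⟨X, Y, h⟩
    · show ρ (b + c) 0 = ρ b (ρ c 0)
      rw [map_zero, map_zero, map_zero]
    · obtain ⟨g1, e1⟩ := hρ' (b + c) X Y h
      obtain ⟨g2, e2⟩ := hρ' c X Y h
      obtain ⟨g3, e3⟩ := hρ' b _ _ g2
      rw [e1, e2, e3, WeierstrassCurve.Affine.Point.some.injEq]
      exact ⟨hσa b c X, hσa b c Y⟩
  have hσ0 : ∀ z, σ 0 z = z := by
    intro z
    have h1 := hσa 0 0 z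
    rw [add_zero] at h1
    exact (σ 0).injective h1.symm
  have hρ0 : ∀ Q, ρ 0 Q = Q := by
    intro Q
    rcases Q with _ | ⟨X, Y, h⟩
    · exact map_zero (ρ 0)
    · obtain ⟨g1, e1⟩ := hρ' 0 X Y h
      rw [e1, WeierstrassCurve.Affine.Point.some.injEq]
      exact ⟨hσ0 X, hσ0 Y⟩
  have hcomm : ∀ b Q, ρ b (μ Q) = μ (ρ b Q) := by
    intro b Q
    rcases Q with _ | ⟨X, Y, h⟩
    · show ρ b (μ 0) = μ (ρ b 0)
      rw [map_zero, map_zero, map_zero]
    · obtain ⟨g1, e1⟩ := hρ' b X Y h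
      obtain ⟨g2, e2⟩ := hμ' _ _ g1
      obtain ⟨g3, e3⟩ := hμ' X Y h
      obtain ⟨g4, e4⟩ := hρ' b _ _ g3
      rw [e1, e2, e3, e4, WeierstrassCurve.Affine.Point.some.injEq]
      exact ⟨by rw [map_mul, hσv], rfl⟩
  -- the points over `F`
  obtain ⟨H, hH⟩ : ∃ H : AddSubgroup (Ed N a).toAffine.Point, H =
      (Affine.Point.map (W' := (⟨0, 0, a, 0, 0⟩ : WeierstrassCurve F)) (Algebra.ofId F N)).range := ⟨_, rfl⟩
  have hHxy : ∀ (X Y : F) (h : (Ed N a).toAffine.Nonsingular (algebraMap F N X) (algebraMap F N Y)),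
      Affine.Point.some _ _ h ∈ H := by
    intro X Y h
    rw [hH]
    exact ⟨Affine.Point.some X Y ((Affine.baseChange_nonsingular
        (⟨0, 0, a, 0, 0⟩ : WeierstrassCurve F).toAffine
        (Algebra.ofId F N).injective _ _).mp h), rfl⟩
  have h0 : ∀ Q, (∀ b, ρ b Q = Q) → Q ∈ H := by
    rintro (_ | ⟨X, Y, h⟩) hQ
    · exact H.zero_mem
    · have hXY : ∀ b, σ b X = X ∧ σ b Y = Y := by
        intro b
        have h1 := hQ b
        obtain ⟨h', e1⟩ := hρ' b X Y h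
        rw [e1, Affine.Point.some.injEq] at h1
        exact h1
      obtain ⟨X, rfl⟩ := hfix X fun b => (hXY b).1
      obtain ⟨Y, rfl⟩ := hfix Y fun b => (hXY b).2
      exact hHxy X Y h
  have hm0 : ∀ (Y : F) (h : (Ed N a).toAffine.Nonsingular 0 (algebraMap F N Y)),
      Affine.Point.some 0 _ h ∈ H := by
    intro Y h
    have h2 : (Ed N a).toAffine.Nonsingular (algebraMap F N 0) (algebraMap F N Y) := by
      rw [map_zero]
      exact h
    have h1 := hHxy 0 Y h2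
    have e1 : Affine.Point.some _ _ h2 = Affine.Point.some 0 (algebraMap F N Y) h := by
      rw [Affine.Point.some.injEq]
      exact ⟨map_zero _, rfl⟩
    rw [e1] at h1
    exact h1
  have h1 : ∀ Q, μ Q = Q → Q ∈ H := by
    intro Q hQ
    rcases hμ1 Q hQ with rfl | ⟨y, h, rfl⟩
    · exact H.zero_mem
    · exact hm0 y h
  -- a point of finite order with ordinate in `F`
  have htor : ∀ (x : N) (y : F) (h : (Ed N a).toAffine.Nonsingular x (algebraMap F N y)),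
      IsOfFinAddOrder (Affine.Point.some _ _ h) → y ∈ Y := by
    intro x y h hfin
    have key : ∀ V : WeierstrassCurve N, V = ⟨0, 0, algebraMap F N a, 0, 0⟩ →
        ∀ h : V.toAffine.Nonsingular x (algebraMap F N y),
          IsOfFinAddOrder (Affine.Point.some _ _ h) → y ∈ Y := by
      rintro _ rfl h hfin
      exact hY N x y h hfin
    refine key (Ed N a) ?_ h hfin
    exact WeierstrassCurve.ext (map_zero _) (map_zero _) rfl (map_zero _) (map_zero _)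
  -- the powers of `μ`
  have hM : ∀ (s : ZMod 3) (X Y : N) (h : (Ed N a).toAffine.Nonsingular X Y), ∃ h',
      P4a_M μ s (Affine.Point.some X Y h) = Affine.Point.some (v ^ s.val * X) Y h' := by
    intro s X Y h
    have hs : ∀ s : ZMod 3, s = 0 ∨ s = 1 ∨ s = 2 := by decide
    obtain ⟨g1, e1⟩ := hμ' X Y h
    obtain ⟨g2, e2⟩ := hμ' _ _ g1
    rcases hs s with rfl | rfl | rfl
    · have e4 : v ^ (0 : ZMod 3).val * X = X := by rw [ZMod.val_zero, pow_zero, one_mul]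
      refine ⟨by rw [e4]; exact h, ?_⟩
      rw [P4a_M_zero, Affine.Point.some.injEq]
      exact ⟨e4.symm, rfl⟩
    · have e4 : v ^ (1 : ZMod 3).val * X = v * X := by
        rw [show (1 : ZMod 3).val = 1 from rfl, pow_one]
      refine ⟨by rw [e4]; exact g1, ?_⟩
      rw [P4a_M_one, e1, Affine.Point.some.injEq]
      exact ⟨e4.symm, rfl⟩
    · have e4 : v ^ (2 : ZMod 3).val * X = v * (v * X) := by
        rw [show (2 : ZMod 3).val = 2 from rfl]
        ring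
      refine ⟨by rw [e4]; exact g2, ?_⟩
      have e5 : P4a_M μ 2 (Affine.Point.some X Y h) = μ (μ (Affine.Point.some X Y h)) := by
        rw [show (2 : ZMod 3) = 1 + 1 by decide, P4a_M_add hμ3, P4a_M_one, P4a_M_one]
      rw [e5, e1, e2, Affine.Point.some.injEq]
      exact ⟨e4.symm, rfl⟩
  have hco : ∀ (χ : Fin r → ZMod 3) (X Y : N) (h : (Ed N a).toAffine.Nonsingular X Y),
      (∀ b, ρ b (Affine.Point.some X Y h) = P4a_M μ (χ ⬝ᵥ b) (Affine.Point.some X Y h)) →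
      (∃ c : F, X = algebraMap F N c * chp χ x) ∧ ∃ y : F, Y = algebraMap F N y := by
    intro χ X Y h hQ
    have h3 : ∀ b, σ b X = v ^ (χ ⬝ᵥ b).val * X ∧ σ b Y = Y := by
      intro b
      have h4 := hQ b
      obtain ⟨g1, e1⟩ := hρ' b X Y h
      obtain ⟨g2, e2⟩ := hM (χ ⬝ᵥ b) X Y h
      rw [e1, e2, Affine.Point.some.injEq] at h4
      exact h4
    obtain ⟨y, hy⟩ := hfix Y fun b => (h3 b).2
    obtain ⟨c, hc⟩ := hfix (X / chp χ x) fun b => by
      rw [map_div₀, (h3 b).1, hσθ, mul_div_mul_left _ _ (pow_ne_zero _ hv0)]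
    refine ⟨⟨c, ?_⟩, y, hy.symm⟩
    rw [hc, div_mul_cancel₀ _ (hθ0 χ)]
  have h2 : ∀ χ : Fin r → ZMod 3, χ ≠ 0 → ∀ Q, (∀ b, ρ b Q = P4a_M μ (χ ⬝ᵥ b) Q) → Q ∈ H := by
    intro χ hχ Q hQ
    have hf := P4a_fin a (chp χ e) (chp χ x) (hθ0 χ) (hθ3 χ) (⟨0, 0, a, 0, 0⟩ : WeierstrassCurve F)
      (⟨0, 0, chp χ e * a, 0, 0⟩ : WeierstrassCurve F) rfl rfl (hfin χ hχ)
    have ho : IsOfFinAddOrder Q := by
      let G : AddSubgroup (Ed N a).toAffine.Point := ⨅ b, (ρ b - P4a_M μ (χ ⬝ᵥ b)).ker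
      have hG : ∀ R, R ∈ G ↔ ∀ b, ρ b R = P4a_M μ (χ ⬝ᵥ b) R := by
        intro R
        show R ∈ ⨅ b, (ρ b - P4a_M μ (χ ⬝ᵥ b)).ker ↔ _
        rw [AddSubgroup.mem_iInf]
        refine forall_congr' fun b => ?_
        rw [AddMonoidHom.mem_ker, AddMonoidHom.sub_apply, sub_eq_zero]
      have hGf : Finite G := by
        refine Set.Finite.to_subtype (hf.subset fun R hR X Y h e1 => ?_)
        have h5 := (hG R).1 hR
        rw [e1] at h5
        exact hco χ X Y h h5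
      have h6 : IsOfFinAddOrder (⟨Q, (hG Q).2 hQ⟩ : G) := isOfFinAddOrder_of_finite _
      exact AddMonoidHom.isOfFinAddOrder G.subtype h6
    rcases Q with _ | ⟨X, Y', h⟩
    · exact H.zero_mem
    · obtain ⟨⟨c, rfl⟩, y, rfl⟩ := hco χ X Y' h hQ
      have h3 := htor _ y h ho
      have h4 := hE _ _ h
      have h5 : c ^ 3 * chp χ e = y ^ 2 + a * y := by
        apply (algebraMap F N).injective
        rw [map_mul, map_pow, ← hθ3, map_add, map_pow, map_mul, h4]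
        ring
      have h6 := hB1' χ hχ y h3 c h5
      subst h6
      have e4 : algebraMap F N 0 * chp χ x = 0 := by rw [map_zero, zero_mul]
      have h' : (Ed N a).toAffine.Nonsingular 0 (algebraMap F N y) := by
        rw [← e4]
        exact h
      have e5 : Affine.Point.some _ _ h = Affine.Point.some 0 (algebraMap F N y) h' := by
        rw [Affine.Point.some.injEq]
        exact ⟨e4, rfl⟩
      rw [e5]
      exact hm0 y h'
  have hfinal := P4a_grp μ hμ3 ρ hρadd hρ0 hcomm H h0 h1 h2 P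
  rw [hH] at hfinal
  obtain ⟨Q, hQ⟩ := hfinal
  exact ⟨Q, hQ.symm⟩

end

end Pool.Agent.Lib.MP_1a91b9_ntMC
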