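import Pool.Agent.Lib.MP_1a91b9_ntMC.C0

/-!
# MP_1a91b9_nt (all the multicubic fields): colourings, the rules for the laws

`mkC S z`: the colouring with the values `z` on `S`. `gl w b`: the values `w` on `B`, the values of `b` outside.
-/

set_option autoImplicit false
set_option linter.unusedSectionVars false

namespace Pool.Agent.Lib.MP_1a91b9_ntMC

open Finset Pool.Agent.Lib.MP_1a91b9_ntK Pool.Agent.Lib.MP_1a91b9_ntK.Da
open Pool.Agent.Lib.MP_1a91b9_ntH (PS nm Sx mem_Sx nm_union one_le_nm nm_empty)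

noncomputable section

section Col

variable {ι I : Type} [DecidableEq ι]

theorem cz_of_mem {b : Cb ι I} {q : ι} (h : q ∈ b.1) : cz b q = (b.2 ⟨q, h⟩).1 := dif_pos h

theorem cz_of_not {b : Cb ι I} {q : ι} (h : q ∉ b.1) : cz b q = 0 := dif_neg h

theorem cz_ne {b : Cb ι I} {q : ι} : cz b q ≠ 0 ↔ q ∈ b.1 := by
  by_cases h : q ∈ b.1
  · rw [cz_of_mem h]
    exact ⟨fun _ => h, fun _ => (b.2 ⟨q, h⟩).2⟩
  · rw [cz_of_not h]
    exact ⟨fun h1 => absurd rfl h1, fun h1 => absurd h1 h⟩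

/-- A colouring is determined by its values. -/
theorem ext_cz {b b' : Cb ι I} (h : ∀ q, cz b q = cz b' q) : b = b' := by
  obtain ⟨S, f⟩ := b
  obtain ⟨S', f'⟩ := b'
  have hS : S = S' := by
    ext q
    have h1 : q ∈ (⟨S, f⟩ : Cb ι I).1 ↔ q ∈ (⟨S', f'⟩ : Cb ι I).1 := by
      rw [← cz_ne, ← cz_ne, h q]
    exact h1
  subst hS
  have hf : f = f' := by
    funext q
    apply Subtype.ext
    have h1 := h q.1
    rw [cz_of_mem (b := ⟨S, f⟩) q.2, cz_of_mem (b := ⟨S, f'⟩) q.2] at h1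
    exact h1
  rw [hf]

open Classical in
/-- The colouring of the primes of `S` with the values `z`, where they are different from zero. -/
def mkC (S : Finset ι) (z : ι → I → ZMod 3) : Cb ι I :=
  ⟨S.filter fun q => z q ≠ 0, fun q => ⟨z q.1, (mem_filter.1 q.2).2⟩⟩

theorem mem_mkC {S : Finset ι} {z : ι → I → ZMod 3} {q : ι} :
    q ∈ (mkC S z).1 ↔ q ∈ S ∧ z q ≠ 0 := by
  classical
  unfold mkC
  exact mem_filter

theorem cz_mkC (S : Finset ι) (z : ι → I → ZMod 3) (q : ι) :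
    cz (mkC S z) q = if q ∈ S then z q else 0 := by
  by_cases h : q ∈ (mkC S z).1
  · rw [cz_of_mem h, if_pos (mem_mkC.1 h).1]
    rfl
  · rw [cz_of_not h]
    split_ifs with h1
    · by_contra h2
      exact h (mem_mkC.2 ⟨h1, fun h3 => h2 h3.symm⟩)
    · rfl

/-- The colouring with the values `w` on `B` and the values of `b` outside. -/
def gl {B : Finset ι} (w : B → I → ZMod 3) (b : Cb ι I) : Cb ι I :=
  mkC (b.1 ∪ B) fun q => if h : q ∈ B then w ⟨q, h⟩ else cz b q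

/-- The colouring with the values `w` on `B`. -/
def wB {B : Finset ι} (w : B → I → ZMod 3) : Cb ι I :=
  mkC B fun q => if h : q ∈ B then w ⟨q, h⟩ else 0

theorem cz_gl {B : Finset ι} (w : B → I → ZMod 3) (b : Cb ι I) (q : ι) :
    cz (gl w b) q = if h : q ∈ B then w ⟨q, h⟩ else cz b q := by
  unfold gl
  rw [cz_mkC]
  by_cases h : q ∈ B
  · rw [if_pos (mem_union_right _ h)]
  · rw [dif_neg h]
    split_ifs with h1
    · rfl
    · rw [mem_union, not_or] at h1
      rw [cz_of_not h1.1]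

theorem cz_wB {B : Finset ι} (w : B → I → ZMod 3) (q : ι) :
    cz (wB w) q = if h : q ∈ B then w ⟨q, h⟩ else 0 := by
  unfold wB
  rw [cz_mkC]
  by_cases h : q ∈ B
  · rw [if_pos h]
  · rw [dif_neg h, if_neg h]

theorem wB_sub {B : Finset ι} (w : B → I → ZMod 3) : (wB w).1 ⊆ B := by
  intro q hq
  exact (mem_mkC.1 hq).1

theorem gl_fst {B : Finset ι} (w : B → I → ZMod 3) {b : Cb ι I} (hb : Disjoint b.1 B) :
    (gl w b).1 = b.1 ∪ (wB w).1 := by
  ext q
  rw [mem_union, ← cz_ne, ← cz_ne, ← cz_ne, cz_gl, cz_wB]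
  by_cases h : q ∈ B
  · rw [dif_pos h, dif_pos h, cz_of_not (disjoint_right.1 hb h)]
    exact ⟨Or.inr, fun h1 => h1.resolve_left fun h2 => h2 rfl⟩
  · rw [dif_neg h, dif_neg h]
    exact ⟨Or.inl, fun h1 => h1.resolve_right fun h2 => h2 rfl⟩

variable [Fintype I]

theorem clb_eq {G : Type} [AddCommGroup G] (a : ι → G) {b : Cb ι I} {U : Finset ι}
    (hU : b.1 ⊆ U) (i : I) : clb a b i = ∑ q ∈ U, (cz b q i).val • a q := by
  unfold clb
  refine sum_subset hU fun q _ hq => ?_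
  rw [cz_of_not hq, Pi.zero_apply, ZMod.val_zero, zero_nsmul]

/-- The class of a composed colouring. -/
theorem clb_gl {G : Type} [AddCommGroup G] (a : ι → G) {B : Finset ι} (w : B → I → ZMod 3)
    {b : Cb ι I} (hb : Disjoint b.1 B) (i : I) :
    clb a (gl w b) i = clb a b i + clb a (wB w) i := by
  have h1 : (gl w b).1 ⊆ b.1 ∪ B := by
    rw [gl_fst w hb]
    exact union_subset_union_right (wB_sub w)
  rw [clb_eq a h1, clb_eq a (wB_sub w), sum_union hb]
  refine congrArg₂ (· + ·) ?_ ?_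
  · unfold clb
    refine sum_congr rfl fun q hq => ?_
    rw [cz_gl, dif_neg (disjoint_left.1 hb hq)]
  · refine sum_congr rfl fun q hq => ?_
    rw [cz_gl, cz_wB, dif_pos hq, dif_pos hq]

theorem mem_Rv {e : ZMod 3} {χ : I → ZMod 3} {b : Cb ι I} {q : ι} :
    q ∈ Rv e χ b ↔ q ∈ b.1 ∧ cx χ b q = e := by
  unfold Rv
  exact mem_filter

variable [DecidableEq I]

section Rules

variable [PS ι]

/-- All the colourings from the colourings outside `B`. -/
theorem card_gl (B : Finset ι) (P : Cb ι I → Prop) [DecidablePred P] (X : ℕ) :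
    ((BX I (SxT (∅ : Finset ι)) X).filter P).card =
      ∑ w : B → I → ZMod 3,
        ((BX I (SxT B) (X / nm (wB w).1)).filter fun b => P (gl w b)).card := by
  classical
  rw [← card_sigma]
  refine card_bij'
    (fun b _ => (⟨fun q => cz b q.1, mkC (b.1 \ B) (cz b)⟩ :
      Σ _ : (B → I → ZMod 3), Cb ι I))
    (fun p _ => gl p.1 p.2) ?_ ?_ ?_ ?_
  · intro b hb
    rw [mem_filter, mem_BX, mem_SxT] at hb
    have e1 : gl (fun q : B => cz b q.1) (mkC (b.1 \ B) (cz b)) = b := by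
      refine ext_cz fun q => ?_
      rw [cz_gl, cz_mkC]
      by_cases h : q ∈ B
      · rw [dif_pos h]
      · rw [dif_neg h]
        split_ifs with h1
        · rfl
        · rw [mem_sdiff, not_and, not_not] at h1
          rw [cz_of_not fun h2 => h (h1 h2)]
    have e2 : (mkC (b.1 \ B) (cz b)).1 = b.1 \ B := by
      ext q
      rw [mem_mkC]
      exact ⟨fun h => h.1, fun h => ⟨h, cz_ne.2 (mem_sdiff.1 h).1⟩⟩
    have hd : Disjoint (mkC (b.1 \ B) (cz b)).1 B := by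
      rw [e2]
      exact disjoint_sdiff_self_left
    rw [mem_sigma, mem_filter, mem_BX, mem_SxT, mem_Sx]
    refine ⟨mem_univ _, ⟨?_, hd⟩, ?_⟩
    · show nm (mkC (b.1 \ B) (cz b)).1 ≤ X / nm (wB fun q : B => cz b q.1).1
      rw [Nat.le_div_iff_mul_le (one_le_nm _), ← nm_union (disjoint_of_subset_right (wB_sub _) hd),
        ← gl_fst _ hd, e1]
      exact mem_Sx.1 hb.1.1
    · show P (gl (fun q : B => cz b q.1) (mkC (b.1 \ B) (cz b)))
      rw [e1]
      exact hb.2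
  · rintro ⟨w, b⟩ hp
    rw [mem_sigma, mem_filter, mem_BX, mem_SxT, mem_Sx] at hp
    obtain ⟨-, ⟨h1, h2⟩, h3⟩ := hp
    have h1' : nm b.1 ≤ X / nm (wB w).1 := h1
    have h2' : Disjoint b.1 B := h2
    rw [mem_filter, mem_BX, mem_SxT, mem_Sx]
    refine ⟨⟨?_, disjoint_empty_right _⟩, h3⟩
    show nm (gl w b).1 ≤ X
    rw [gl_fst w h2', nm_union (disjoint_of_subset_right (wB_sub _) h2')]
    exact (Nat.le_div_iff_mul_le (one_le_nm _)).1 h1'
  · intro b hb
    refine ext_cz fun q => ?_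
    show cz (gl (fun q : B => cz b q.1) (mkC (b.1 \ B) (cz b))) q = cz b q
    rw [cz_gl, cz_mkC]
    by_cases h : q ∈ B
    · rw [dif_pos h]
    · rw [dif_neg h]
      split_ifs with h1
      · rfl
      · rw [mem_sdiff, not_and, not_not] at h1
        rw [cz_of_not fun h2 => h (h1 h2)]
  · rintro ⟨w, b⟩ hp
    rw [mem_sigma, mem_filter, mem_BX, mem_SxT, mem_Sx] at hp
    obtain ⟨-, ⟨-, h2⟩, -⟩ := hp
    have h2' : Disjoint b.1 B := h2
    have e1 : (fun q : B => cz (gl w b) q.1) = w := by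
      funext q
      rw [cz_gl, dif_pos q.2]
    have e2 : mkC ((gl w b).1 \ B) (cz (gl w b)) = b := by
      refine ext_cz fun q => ?_
      rw [cz_mkC]
      by_cases h : q ∈ B
      · rw [if_neg fun h3 => (mem_sdiff.1 h3).2 h, cz_of_not (disjoint_right.1 h2' h)]
      · by_cases h3 : q ∈ (gl w b).1
        · rw [if_pos (mem_sdiff.2 ⟨h3, h⟩), cz_gl, dif_neg h]
        · rw [if_neg fun h4 => h3 (mem_sdiff.1 h4).1]
          have h5 : cz (gl w b) q = 0 := cz_of_not h3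
          rw [cz_gl, dif_neg h] at h5
          exact h5.symm
    show (⟨fun q : B => cz (gl w b) q.1, mkC ((gl w b).1 \ B) (cz (gl w b))⟩ :
      Σ _ : (B → I → ZMod 3), Cb ι I) = ⟨w, b⟩
    rw [e1, e2]

variable {G : Type} [AddCommGroup G] {a : ι → G}

theorem CovL3.mono {B : Finset ι} {c : ℝ} {P Q : Cb ι I → Prop} (h : CovL3 a I B c P)
    (hPQ : ∀ b, Disjoint b.1 B → P b → Q b) : CovL3 a I B c Q := by
  classical
  intro g ε hε
  obtain ⟨X₀, hX₀⟩ := h g ε hε
  refine ⟨X₀, fun X hX => (hX₀ X hX).trans (Nat.cast_le.2 (card_le_card fun b hb => ?_))⟩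
  rw [mem_filter, mem_BX, mem_SxT] at hb ⊢
  exact ⟨hb.1, hb.2.1, hPQ b hb.1.2 hb.2.2⟩

theorem CovL3.anti {B : Finset ι} {c c' : ℝ} {P : Cb ι I → Prop} (h : CovL3 a I B c P)
    (hc : c' ≤ c) : CovL3 a I B c' P := by
  classical
  intro g ε hε
  obtain ⟨X₀, hX₀⟩ := h g ε hε
  refine ⟨X₀, fun X hX => le_trans ?_ (hX₀ X hX)⟩
  have h2 := mul_le_mul_of_nonneg_right hc
    (Nat.cast_nonneg (α := ℝ) ((BX I (SxT B) X).filter fun b => ∀ i, clb a b i = g i).card)
  linarith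

theorem BX_card_mono {X Y : ℕ} (h : X ≤ Y) :
    ((BX I (SxT (∅ : Finset ι)) X).card : ℝ) ≤ ((BX I (SxT (∅ : Finset ι)) Y).card : ℝ) := by
  refine Nat.cast_le.2 (card_le_card fun b hb => ?_)
  rw [mem_BX, mem_SxT, mem_Sx] at hb ⊢
  exact ⟨hb.1.trans h, hb.2⟩

/-- **From the colourings outside `B` to all the colourings.** -/
theorem CovL3.glue {B : Finset ι} {c : ℝ} {P : Cb ι I → Prop}
    (h : ∀ w : B → I → ZMod 3, CovL3 a I B c fun b => P (gl w b)) : CovL3 a I ∅ c P := by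
  classical
  intro g ε hε
  obtain ⟨n, hn⟩ : ∃ n : ℝ, n = (Fintype.card (B → I → ZMod 3) : ℝ) + 1 := ⟨_, rfl⟩
  have hn0 : 0 < n := by
    rw [hn]
    positivity
  have hε' : 0 < ε / n := by positivity
  choose X₀ hX₀ using fun w : B → I → ZMod 3 => h w (fun i => g i - clb a (wB w) i) (ε / n) hε'
  refine ⟨∑ w, X₀ w * nm (wB w).1, fun X hX => ?_⟩
  have e1 : (((BX I (SxT (∅ : Finset ι)) X).filter fun b => ∀ i, clb a b i = g i).card : ℝ) =
      ∑ w : B → I → ZMod 3, (((BX I (SxT B) (X / nm (wB w).1)).filter fun b =>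
        ∀ i, clb a (gl w b) i = g i).card : ℝ) := by
    have h1 := card_gl B (fun b : Cb ι I => ∀ i, clb a b i = g i) X
    exact_mod_cast h1
  have e2 : (((BX I (SxT (∅ : Finset ι)) X).filter fun b =>
      (∀ i, clb a b i = g i) ∧ P b).card : ℝ) =
      ∑ w : B → I → ZMod 3, (((BX I (SxT B) (X / nm (wB w).1)).filter fun b =>
        (∀ i, clb a (gl w b) i = g i) ∧ P (gl w b)).card : ℝ) := by
    have h1 := card_gl B (fun b : Cb ι I => (∀ i, clb a b i = g i) ∧ P b) X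
    exact_mod_cast h1
  rw [e1, e2, mul_sum, tsub_le_iff_right]
  have key : ∀ w : B → I → ZMod 3,
      c * (((BX I (SxT B) (X / nm (wB w).1)).filter fun b => ∀ i, clb a (gl w b) i = g i).card : ℝ) ≤
      (((BX I (SxT B) (X / nm (wB w).1)).filter fun b =>
        (∀ i, clb a (gl w b) i = g i) ∧ P (gl w b)).card : ℝ) +
      ε / n * ((BX I (SxT (∅ : Finset ι)) X).card : ℝ) := by
    intro w
    have h0 : X₀ w ≤ X / nm (wB w).1 := by
      rw [Nat.le_div_iff_mul_le (one_le_nm _)]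
      exact (single_le_sum (f := fun w => X₀ w * nm (wB w).1) (fun _ _ => Nat.zero_le _)
        (mem_univ w)).trans hX
    have h1 := hX₀ w _ h0
    have hcl : ∀ b ∈ BX I (SxT B) (X / nm (wB w).1),
        ((∀ i, clb a (gl w b) i = g i) ↔ ∀ i, clb a b i = g i - clb a (wB w) i) := by
      intro b hb
      rw [mem_BX, mem_SxT] at hb
      refine forall_congr' fun i => ?_
      rw [clb_gl a w hb.2, eq_sub_iff_add_eq]
    have h2 : ((BX I (SxT B) (X / nm (wB w).1)).filter fun b => ∀ i, clb a (gl w b) i = g i) =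
        (BX I (SxT B) (X / nm (wB w).1)).filter fun b => ∀ i, clb a b i = g i - clb a (wB w) i :=
      filter_congr hcl
    have h3 : ((BX I (SxT B) (X / nm (wB w).1)).filter fun b =>
        (∀ i, clb a (gl w b) i = g i) ∧ P (gl w b)) =
        (BX I (SxT B) (X / nm (wB w).1)).filter fun b =>
          (∀ i, clb a b i = g i - clb a (wB w) i) ∧ P (gl w b) :=
      filter_congr fun b hb => and_congr_left' (hcl b hb)
    have h4 := mul_le_mul_of_nonneg_left (BX_card_mono (ι := ι) (I := I)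
      (Nat.div_le_self X (nm (wB w).1))) hε'.le
    rw [h2, h3]
    linarith
  refine (sum_le_sum fun w _ => key w).trans ?_
  rw [sum_add_distrib, sum_const, nsmul_eq_mul, card_univ]
  have h6 : (0 : ℝ) ≤ ((BX I (SxT (∅ : Finset ι)) X).card : ℝ) := Nat.cast_nonneg _
  have h5 : (Fintype.card (B → I → ZMod 3) : ℝ) *
      (ε / n * ((BX I (SxT (∅ : Finset ι)) X).card : ℝ)) ≤
      ε * ((BX I (SxT (∅ : Finset ι)) X).card : ℝ) := by
    rw [← mul_assoc]
    refine mul_le_mul_of_nonneg_right ?_ h6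
    rw [mul_div_assoc', div_le_iff₀ hn0, hn]
    nlinarith
  linarith

/-- The law for finite sets with the given elements. -/
theorem CovL3.fin {B : Finset ι} {c : ℝ} {P : Cb ι I → Prop} (h : CovL3 a I B c P) (g : I → G)
    {ε : ℝ} (hε : 0 < ε) : ∃ X₀ : ℕ, ∀ X : ℕ, X₀ ≤ X → ∀ s t : Finset (Cb ι I),
      (∀ b, b ∈ s ↔ b ∈ BX I (SxT B) X ∧ ∀ i, clb a b i = g i) →
      (∀ b, b ∈ t ↔ b ∈ BX I (SxT B) X ∧ (∀ i, clb a b i = g i) ∧ P b) →
      c * (s.card : ℝ) - ε * ((BX I (SxT (∅ : Finset ι)) X).card : ℝ) ≤ (t.card : ℝ) := by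
  classical
  obtain ⟨X₀, h0⟩ := h g ε hε
  refine ⟨X₀, fun X hX s t hs ht => ?_⟩
  have h1 := h0 X hX
  have e1 : s = (BX I (SxT B) X).filter fun b => ∀ i, clb a b i = g i := by
    ext b
    rw [hs, mem_filter]
  have e2 : t = (BX I (SxT B) X).filter fun b => (∀ i, clb a b i = g i) ∧ P b := by
    ext b
    rw [ht, mem_filter]
  rw [e1, e2]
  exact_mod_cast h1

theorem CovPos3.fin (h : CovPos3 a I) (g : I → G) : ∃ κ : ℝ, 0 < κ ∧ ∃ X₀ : ℕ, ∀ X : ℕ, X₀ ≤ X →
    ∀ s : Finset (Cb ι I), (∀ b, b ∈ s ↔ b ∈ BX I (SxT (∅ : Finset ι)) X ∧ ∀ i, clb a b i = g i) →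
      κ * ((BX I (SxT (∅ : Finset ι)) X).card : ℝ) ≤ (s.card : ℝ) := by
  classical
  obtain ⟨κ, hκ, X₀, h0⟩ := h g
  refine ⟨κ, hκ, X₀, fun X hX s hs => ?_⟩
  have h1 := h0 X hX
  have e1 : s = (BX I (SxT (∅ : Finset ι)) X).filter fun b => ∀ i, clb a b i = g i := by
    ext b
    rw [hs, mem_filter]
  rw [e1]
  exact_mod_cast h1

theorem BX_pos {X : ℕ} (h : 1 ≤ X) : 0 < ((BX I (SxT (∅ : Finset ι)) X).card : ℝ) := by
  refine Nat.cast_pos.2 (card_pos.2 ⟨mkC ∅ fun _ => 0, ?_⟩)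
  rw [mem_BX, mem_SxT, mem_Sx]
  have e : (mkC (∅ : Finset ι) fun _ => (0 : I → ZMod 3)).1 = ∅ := by
    ext q
    rw [mem_mkC]
    simp
  rw [e, nm_empty]
  exact ⟨h, disjoint_empty_right _⟩

end Rules

end Col

end

end Pool.Agent.Lib.MP_1a91b9_ntMC
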