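import Pool.Agent.Lib.MP_1a91b9_ntMC.T1

/-!
# MP_1a91b9_nt (all the multicubic fields): the tuples of cube-free elements

`pe j b`: the tuple for the types `j` (sign, power of `w`, power of `s3`) and the colouring `b`.
-/

set_option autoImplicit false
set_option linter.unusedSectionVars false

namespace Pool.Agent.Lib.MP_1a91b9_ntMC

open NumberField Finset Pool.Agent.Lib.MP_1a91b9_ntT Pool.Agent.Lib.MP_1a91b9_ntK
  Pool.Agent.Lib.MP_1a91b9_ntK.Da Pool.Agent.Lib.MP_1a91b9_ntK2 Pool.Agent.Lib.MP_1a91b9_ntK2.D9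
  Pool.Agent.Lib.MP_1a91b9_ntN Pool.Agent.Lib.MP_1a91b9_ntN.H
open Pool.Agent.Lib.MP_1a91b9_ntH (wO s3 Nz_mul Nz_eq_zero Nz_s3 Sx mem_Sx nm one_le_nm prime_s3
  abs_norm_le)
open Pool.Agent.Lib.MP_1a91b9_ntS3.G (G9 c9 Q9 g9 g9_mul g9_one g9_eq_iff)

noncomputable section

/-- The types: the sign, the power of `w`, the power of `s3`. -/
abbrev TT : Type := Bool × Fin 3 × Fin 3

variable {r : ℕ}

/-- The tuple for the types `j` and the colouring `b`. -/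
def pe (j : Fin r → TT) (b : Cb P3 (Fin r)) (i : Fin r) : 𝓞 K :=
  pf (j i).1 (j i).2.1 (j i).2.2 (PE (fun q => cz b q i) b.1)

/-! ### The products of powers -/

theorem PE_sub {e : P3 → ZMod 3} {R R' : Finset P3} (h : R ⊆ R') (h0 : ∀ q ∈ R', q ∉ R → e q = 0) :
    PE e R = PE e R' := by
  unfold PE
  exact prod_subset h fun q hq hq' => by rw [h0 q hq hq', ZMod.val_zero, pow_zero]

theorem T2_disj (e : P3 → ZMod 3) (R : Finset P3) :
    Disjoint (R.filter fun q => e q = 1) (R.filter fun q => e q = 2) := by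
  rw [disjoint_filter]
  intro q _ h1 h2
  rw [h1] at h2
  exact absurd h2 (by decide)

theorem PE_cf (e : P3 → ZMod 3) (R : Finset P3) : CF (PE e R) := by
  rw [PE_split]
  exact prm3.pp_cf (T2_disj e R)

theorem PE_in3 (e : P3 → ZMod 3) (R : Finset P3) : In3 (PE e R) := by
  rw [PE_split]
  exact in3_pair _ _

theorem T2_g9_congr (n : ℕ) {x y : 𝓞 K} (hx : In3 x) (hy : In3 y) (h : x = y) :
    g9 n x hx = g9 n y hy := by
  subst h
  rfl

theorem T2_pow_in3 {x : 𝓞 K} (hx : In3 x) (k : ℕ) : In3 (x ^ k) := by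
  induction k with
  | zero =>
    rw [pow_zero]
    exact ⟨0, by ring⟩
  | succ k ih =>
    rw [pow_succ]
    exact ih.mul hx

theorem T2_g9_pow (n : ℕ) {x : 𝓞 K} (hx : In3 x) (k : ℕ) :
    g9 n (x ^ k) (T2_pow_in3 hx k) = k • g9 n x hx := by
  induction k with
  | zero =>
    rw [zero_nsmul, ← g9_one n]
    exact T2_g9_congr n _ _ (pow_zero x)
  | succ k ih =>
    rw [succ_nsmul, ← ih, ← g9_mul n (T2_pow_in3 hx k) hx]
    exact T2_g9_congr n _ _ (pow_succ x k)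

/-- The class of a product of powers. -/
theorem g9_PE (n : ℕ) (e : P3 → ZMod 3) (R : Finset P3) (h : In3 (PE e R)) :
    g9 n (PE e R) h = ∑ q ∈ R, (e q).val • c9 n q := by
  classical
  induction R using Finset.induction_on with
  | empty =>
    rw [sum_empty, ← g9_one n]
    exact T2_g9_congr n _ _ prod_empty
  | insert q R hq ih =>
    have h1 : PE e (insert q R) = q.1 ^ (e q).val * PE e R := prod_insert hq
    rw [sum_insert hq, ← ih (PE_in3 e R)]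
    have h2 : (e q).val • c9 n q = g9 n (q.1 ^ (e q).val) (T2_pow_in3 q.in3 _) :=
      (T2_g9_pow n q.in3 _).symm
    rw [h2, ← g9_mul n (T2_pow_in3 q.in3 _) (PE_in3 e R)]
    exact T2_g9_congr n _ _ h1

/-- **The class of an entry.** -/
theorem g9_pe (n : ℕ) (b : Cb P3 (Fin r)) (i : Fin r) (h : In3 (PE (fun q => cz b q i) b.1)) :
    g9 n (PE (fun q => cz b q i) b.1) h = clb (c9 n) b i := g9_PE n _ _ h

/-! ### The tuples -/

theorem pf_cf {b : Bool} {k j : Fin 3} {y : 𝓞 K} (h1 : CF y) (h2 : In3 y) : CF (pf b k j y) :=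
  ph_cf (i := (b, k, j, cl3 y, cn3 y)) ⟨h1, h2, rfl, rfl⟩

theorem pf_inj {b b' : Bool} {k k' j j' : Fin 3} {y y' : 𝓞 K} (h1 : CF y) (h2 : In3 y)
    (h1' : CF y') (h2' : In3 y') (h : pf b k j y = pf b' k' j' y') :
    b = b' ∧ k = k' ∧ j = j' ∧ y = y' := by
  obtain ⟨h3, h4⟩ := ph_inj (i := (b, k, j, cl3 y, cn3 y)) (i' := (b', k', j', cl3 y', cn3 y'))
    (y := y) (y' := y') ⟨h1, h2, rfl, rfl⟩ ⟨h1', h2', rfl, rfl⟩ h
  simp only [Prod.mk.injEq] at h3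
  exact ⟨h3.1, h3.2.1, h3.2.2.1, h4⟩

theorem pe_cf (j : Fin r → TT) (b : Cb P3 (Fin r)) (i : Fin r) : CF (pe j b i) :=
  pf_cf (PE_cf _ _) (PE_in3 _ _)

theorem pe_inj {j j' : Fin r → TT} {b b' : Cb P3 (Fin r)} (h : pe j b = pe j' b') :
    j = j' ∧ b = b' := by
  have h1 : ∀ i, j i = j' i ∧
      PE (fun q => cz b q i) b.1 = PE (fun q => cz b' q i) b'.1 := by
    intro i
    obtain ⟨e1, e2, e3, e4⟩ := pf_inj (PE_cf _ _) (PE_in3 _ _) (PE_cf _ _) (PE_in3 _ _)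
      (congrFun h i)
    exact ⟨Prod.ext e1 (Prod.ext e2 e3), e4⟩
  refine ⟨funext fun i => (h1 i).1, ext_cz fun q => funext fun i => ?_⟩
  have h2 := (h1 i).2
  rw [PE_split, PE_split] at h2
  obtain ⟨h3, h4⟩ := prm3.pp_inj (T2_disj (fun q => cz b q i) b.1) (T2_disj (fun q => cz b' q i) b'.1)
    (Associated.of_eq h2)
  have h5 : ∀ (b : Cb P3 (Fin r)) (e : ZMod 3), e ≠ 0 →
      (cz b q i = e ↔ q ∈ b.1.filter fun q => cz b q i = e) := by
    intro b e he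
    rw [mem_filter]
    refine ⟨fun h => ⟨cz_ne.1 fun h0 => he ?_, h⟩, fun h => h.2⟩
    rw [← h, h0]
    rfl
  refine z3_ext ?_ ?_
  · rw [h5 b 1 (by decide), h5 b' 1 (by decide), h3]
  · rw [h5 b 2 (by decide), h5 b' 2 (by decide), h4]

/-- Every tuple of cube-free elements. -/
theorem exists_pe {d : Fin r → 𝓞 K} (h : ∀ i, CF (d i)) :
    ∃ (j : Fin r → TT) (b : Cb P3 (Fin r)), pe j b = d := by
  classical
  have h1 : ∀ i, ∃ (t : TT) (S T : Finset P3), Disjoint S T ∧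
      pf t.1 t.2.1 t.2.2 (DD3 S * DD3 T ^ 2) = d i := by
    intro i
    obtain ⟨x, y, ⟨h4, h5, _, _⟩, h6⟩ := exists_ph (h i)
    obtain ⟨S, T, hST, hy⟩ := prm3.exists_pp (MP_1a91b9_ntH.Nz y) le_rfl h5 h4
    have hy' : DD3 S * DD3 T ^ 2 = y := hy
    refine ⟨(x.1, x.2.1, x.2.2.1), S, T, hST, ?_⟩
    rw [hy', ← h6]
    rfl
  choose j S T hST hd using h1
  refine ⟨j, mkC (univ.biUnion fun i => S i ∪ T i) (fun q i => ez (S i) (T i) q), funext fun i => ?_⟩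
  rw [← hd i]
  unfold pe
  congr 1
  obtain ⟨U, hU⟩ : ∃ U : Finset P3, U = univ.biUnion fun i => S i ∪ T i := ⟨_, rfl⟩
  rw [← hU]
  have hSU : ∀ i, S i ∪ T i ⊆ U := fun i => by
    rw [hU]
    exact subset_biUnion_of_mem (fun i => S i ∪ T i) (mem_univ i)
  have e1 : (mkC U fun q i => ez (S i) (T i) q).1 ⊆ U := fun q hq => (mem_mkC.1 hq).1
  rw [PE_sub e1 fun q _ hq => by rw [cz_of_not hq]; rfl]
  rw [← PE_pair (hST i) (subset_union_left.trans (hSU i)) (subset_union_right.trans (hSU i))]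
  refine PE_congr fun q hq => ?_
  rw [cz_mkC, if_pos hq]

/-! ### The norms -/

open Classical in
/-- The factor `3` for the tuples with an entry divisible by `s3`. -/
def bt (j : Fin r → TT) : ℕ := if ∃ i, (j i).2.2 ≠ 0 then 3 else 1

theorem bt_pos (j : Fin r → TT) : 0 < bt j := by
  unfold bt
  split_ifs <;> norm_num

theorem Nz_dvd_le {x y : 𝓞 K} (h : x ∣ y) (hy : y ≠ 0) :
    MP_1a91b9_ntH.Nz x ≤ MP_1a91b9_ntH.Nz y := by
  obtain ⟨z, rfl⟩ := h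
  rw [Nz_mul]
  exact Nat.le_mul_of_pos_right _ (Nat.pos_of_ne_zero fun h =>
    hy (by rw [Nz_eq_zero.1 h, mul_zero]))

theorem DD3_dvd {S : Finset P3} {A : 𝓞 K} (h : ∀ q ∈ S, q.1 ∣ A) : DD3 S ∣ A := by
  unfold DD3
  refine Finset.prod_dvd_of_coprime (fun q _ p _ hqp => ?_) h
  exact (q.2.1.irreducible.coprime_iff_not_dvd).2 fun h1 => prm3.ndvd q p hqp h1

theorem Nz_DD3 (S : Finset P3) : MP_1a91b9_ntH.Nz (DD3 S) = nm S := prm3.Nz_pd S

theorem T2_val_le (x : ZMod 3) : x.val ≤ 2 := by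
  have := ZMod.val_lt x
  omega

/-- **The norm condition.** -/
theorem pe_norm (j : Fin r → TT) (b : Cb P3 (Fin r)) (X : ℝ) :
    (∃ A : 𝓞 K, A ≠ 0 ∧ ((|Algebra.norm ℤ A| : ℤ) : ℝ) ≤ X ∧ ∀ i, pe j b i ∣ A ^ 2) ↔
      ((bt j * nm b.1 : ℕ) : ℝ) ≤ X := by
  constructor
  · rintro ⟨A, hA0, hA, hd⟩
    rw [abs_norm_le] at hA
    refine le_trans (Nat.cast_le.2 ?_) hA
    have h1 : DD3 b.1 ∣ A := by
      refine DD3_dvd fun q hq => ?_
      have h2 : cz b q ≠ 0 := cz_ne.2 hq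
      obtain ⟨i, hi⟩ := Function.ne_iff.1 h2
      refine q.2.1.dvd_of_dvd_pow (n := 2) (Dvd.dvd.trans ?_ (hd i))
      have h3 : q.1 ∣ PE (fun q => cz b q i) b.1 := by
        refine Dvd.dvd.trans (dvd_pow_self _ ?_)
          (dvd_prod_of_mem (fun q : P3 => q.1 ^ (cz b q i).val) hq)
        intro h0
        exact hi ((ZMod.val_eq_zero _).1 h0)
      unfold pe pf
      exact (h3.mul_left _).mul_left _
    unfold bt
    split_ifs with hj
    · obtain ⟨i, hi⟩ := hj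
      have h2 : s3 ∣ A := by
        refine prime_s3.dvd_of_dvd_pow (n := 2) (Dvd.dvd.trans ?_ (hd i))
        unfold pe pf
        refine Dvd.dvd.mul_left (Dvd.dvd.mul_right (dvd_pow_self _ ?_) _) _
        intro h0
        exact hi (Fin.ext h0)
      have h3 : IsCoprime s3 (DD3 b.1) :=
        (prime_s3.irreducible.coprime_iff_not_dvd).2 (DD3_in3 b.1).not_s3
      have h4 := Nz_dvd_le (h3.mul_dvd h2 h1) hA0
      rwa [Nz_mul, Nz_s3, Nz_DD3] at h4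
    · have h4 := Nz_dvd_le h1 hA0
      rwa [Nz_DD3, ← one_mul (nm b.1)] at h4
  · intro h
    have hPE : ∀ i, PE (fun q => cz b q i) b.1 ∣ DD3 b.1 ^ 2 := by
      intro i
      unfold PE DD3
      rw [← prod_pow]
      exact prod_dvd_prod_of_dvd _ _ fun q _ => pow_dvd_pow _ (T2_val_le _)
    unfold bt at h
    split_ifs at h with hj
    · refine ⟨s3 * DD3 b.1, mul_ne_zero prime_s3.ne_zero (MP_1a91b9_ntN.DD3_ne _), ?_, fun i => ?_⟩
      · rw [abs_norm_le, Nz_mul, Nz_s3, Nz_DD3]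
        exact h
      · unfold pe pf
        rw [(isUnit_un _ _).mul_left_dvd, mul_pow]
        refine mul_dvd_mul (pow_dvd_pow _ ?_) (hPE i)
        have := (j i).2.2.2
        omega
    · refine ⟨DD3 b.1, MP_1a91b9_ntN.DD3_ne _, ?_, fun i => ?_⟩
      · rw [abs_norm_le, Nz_DD3]
        rwa [one_mul] at h
      · unfold pe pf
        have h0 : (j i).2.2 = 0 := by
          by_contra h0
          exact hj ⟨i, h0⟩
        rw [(isUnit_un _ _).mul_left_dvd, h0]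
        show s3 ^ 0 * _ ∣ _
        rw [pow_zero, one_mul]
        exact hPE i

/-! ### The number of the tuples -/

open Classical in
/-- **The number of the tuples.** -/
theorem card_pe (X : ℝ) (hX : 0 ≤ X) (P : (Fin r → 𝓞 K) → Prop) :
    Nat.card {d : Fin r → 𝓞 K // ((∀ i, ∀ p, Prime p → ¬ p ^ 3 ∣ d i) ∧ ∃ A : 𝓞 K, A ≠ 0 ∧
      ((|Algebra.norm ℤ A| : ℤ) : ℝ) ≤ X ∧ ∀ i, d i ∣ A ^ 2) ∧ P d} =
      ∑ j : Fin r → TT, ((BX (Fin r) (SxT (∅ : Finset P3)) ⌊X / bt j⌋₊).filter fun b =>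
        P (pe j b)).card := by
  obtain ⟨F, hF⟩ : ∃ F : Finset (Σ _ : Fin r → TT, Cb P3 (Fin r)),
      F = univ.sigma fun j => (BX (Fin r) (SxT (∅ : Finset P3)) ⌊X / bt j⌋₊).filter fun b =>
        P (pe j b) := ⟨_, rfl⟩
  rw [← card_sigma, ← hF]
  have hmem : ∀ (j : Fin r → TT) (b : Cb P3 (Fin r)),
      (⟨j, b⟩ : Σ _ : Fin r → TT, Cb P3 (Fin r)) ∈ F ↔ ((bt j * nm b.1 : ℕ) : ℝ) ≤ X ∧ P (pe j b) := by
    intro j b
    rw [hF, mem_sigma, mem_filter, mem_BX, mem_SxT, mem_Sx]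
    have h1 : (nm b.1 ≤ ⌊X / (bt j : ℝ)⌋₊) ↔ ((bt j * nm b.1 : ℕ) : ℝ) ≤ X := by
      rw [Nat.le_floor_iff (by positivity), le_div_iff₀ (by exact_mod_cast bt_pos j)]
      push_cast
      rw [mul_comm]
    constructor
    · rintro ⟨-, ⟨h2, -⟩, h3⟩
      exact ⟨h1.1 h2, h3⟩
    · rintro ⟨h2, h3⟩
      exact ⟨mem_univ _, ⟨h1.2 h2, disjoint_empty_right _⟩, h3⟩
  obtain ⟨f, hf⟩ : ∃ f : (Σ _ : Fin r → TT, Cb P3 (Fin r)) → Fin r → 𝓞 K,
      f = fun p => pe p.1 p.2 := ⟨_, rfl⟩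
  have hinj : Function.Injective f := by
    rintro ⟨j, b⟩ ⟨j', b'⟩ e
    rw [hf] at e
    obtain ⟨rfl, rfl⟩ := pe_inj e
    rfl
  have hset : {d : Fin r → 𝓞 K | ((∀ i, ∀ p, Prime p → ¬ p ^ 3 ∣ d i) ∧ ∃ A : 𝓞 K, A ≠ 0 ∧
      ((|Algebra.norm ℤ A| : ℤ) : ℝ) ≤ X ∧ ∀ i, d i ∣ A ^ 2) ∧ P d} =
      ((F.image f : Finset (Fin r → 𝓞 K)) : Set (Fin r → 𝓞 K)) := by
    ext d
    rw [mem_coe, mem_image]
    constructor
    · rintro ⟨⟨h1, h2⟩, h3⟩
      obtain ⟨j, b, rfl⟩ := exists_pe fun i => (CF_iff (d i)).2 (h1 i)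
      exact ⟨⟨j, b⟩, (hmem j b).2 ⟨(pe_norm j b X).1 h2, h3⟩, by rw [hf]⟩
    · rintro ⟨⟨j, b⟩, hp, rfl⟩
      obtain ⟨h1, h2⟩ := (hmem j b).1 hp
      rw [hf]
      exact ⟨⟨fun i => (CF_iff _).1 (pe_cf j b i), (pe_norm j b X).2 h1⟩, h2⟩
  have e1 : Nat.card {d : Fin r → 𝓞 K // ((∀ i, ∀ p, Prime p → ¬ p ^ 3 ∣ d i) ∧ ∃ A : 𝓞 K,
      A ≠ 0 ∧ ((|Algebra.norm ℤ A| : ℤ) : ℝ) ≤ X ∧ ∀ i, d i ∣ A ^ 2) ∧ P d} =
      {d : Fin r → 𝓞 K | ((∀ i, ∀ p, Prime p → ¬ p ^ 3 ∣ d i) ∧ ∃ A : 𝓞 K, A ≠ 0 ∧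
      ((|Algebra.norm ℤ A| : ℤ) : ℝ) ≤ X ∧ ∀ i, d i ∣ A ^ 2) ∧ P d}.ncard := rfl
  rw [e1, hset, Set.ncard_coe_finset, card_image_of_injective _ hinj]

end

end Pool.Agent.Lib.MP_1a91b9_ntMC
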