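import Pool.Agent.Lib.MP_1a91b9_ntMC.T2

/-!
# MP_1a91b9_nt (all the multicubic fields): from the colourings to the tuples of elements
-/

set_option autoImplicit false
set_option linter.unusedSectionVars false

namespace Pool.Agent.Lib.MP_1a91b9_ntMC

open NumberField Finset Pool.Agent.Lib.MP_1a91b9_ntT Pool.Agent.Lib.MP_1a91b9_ntK
  Pool.Agent.Lib.MP_1a91b9_ntK.Da Pool.Agent.Lib.MP_1a91b9_ntK2 Pool.Agent.Lib.MP_1a91b9_ntK2.D9
  Pool.Agent.Lib.MP_1a91b9_ntN Pool.Agent.Lib.MP_1a91b9_ntN.H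
open Pool.Agent.Lib.MP_1a91b9_ntH (s3 Sx mem_Sx nm one_le_nm prime_s3)
open Pool.Agent.Lib.MP_1a91b9_ntS3.G (G9 c9 Q9 g9 g9_eq_iff exists_cfG_class existsG_ph)

noncomputable section

variable {n r : ℕ}

/-- The classes of the primary factors of the elements of the class of `u i`. -/
def W3 (n : ℕ) (m : 𝓞 K) (u : Fin r → 𝓞 K) (t : TT) (i : Fin r) (g : G9 n) : Prop :=
  ∃ (y : 𝓞 K) (hy : In3 y), g9 n y hy = g ∧ m ∣ pf t.1 t.2.1 t.2.2 y - u i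

theorem hW3 {m : 𝓞 K} (hm : m ∣ Q9 n) (u : Fin r → 𝓞 K) (j : Fin r → TT) (b : Cb P3 (Fin r))
    (i : Fin r) : m ∣ pe j b i - u i ↔ W3 n m u (j i) i (clb (c9 n) b i) := by
  constructor
  · intro h
    exact ⟨PE (fun q => cz b q i) b.1, PE_in3 _ _, g9_pe n b i _, h⟩
  · rintro ⟨y, hy, h1, h2⟩
    rw [← g9_pe n b i (PE_in3 _ _), g9_eq_iff] at h1
    have h3 : m ∣ pf (j i).1 (j i).2.1 (j i).2.2 y - pe j b i := by
      refine hm.trans ?_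
      unfold pe pf
      rw [← mul_sub, ← mul_sub]
      exact (h1.mul_left _).mul_left _
    have e : pe j b i - u i = (pf (j i).1 (j i).2.1 (j i).2.2 y - u i) -
        (pf (j i).1 (j i).2.1 (j i).2.2 y - pe j b i) := by ring
    rw [e]
    exact dvd_sub h2 h3

open Classical in
/-- The families: the types and the classes. -/
def Jf3 (n : ℕ) [Fintype (G9 n)] (m : 𝓞 K) (u : Fin r → 𝓞 K) :
    Finset ((Fin r → TT) × (Fin r → G9 n)) :=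
  univ.filter fun p => ∀ i, W3 n m u (p.1 i) i (p.2 i)

theorem mem_Jf3 [Fintype (G9 n)] {m : 𝓞 K} {u : Fin r → 𝓞 K}
    {p : (Fin r → TT) × (Fin r → G9 n)} : p ∈ Jf3 n m u ↔ ∀ i, W3 n m u (p.1 i) i (p.2 i) := by
  unfold Jf3
  simp only [mem_filter, mem_univ, true_and]

open Classical in
/-- The number of the tuples with the congruences. -/
theorem card_pem [Fintype (G9 n)] {m : 𝓞 K} (hm : m ∣ Q9 n) (u : Fin r → 𝓞 K) (X : ℝ) (hX : 0 ≤ X)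
    (P : (Fin r → 𝓞 K) → Prop) :
    Nat.card {d : Fin r → 𝓞 K // ((∀ i, ∀ p, Prime p → ¬ p ^ 3 ∣ d i) ∧ ∃ A : 𝓞 K, A ≠ 0 ∧
      ((|Algebra.norm ℤ A| : ℤ) : ℝ) ≤ X ∧ ∀ i, d i ∣ A ^ 2) ∧ (∀ i, m ∣ d i - u i) ∧ P d} =
      ∑ p ∈ Jf3 n m u, ((BX (Fin r) (SxT (∅ : Finset P3)) ⌊X / bt p.1⌋₊).filter fun b =>
        (∀ i, clb (c9 n) b i = p.2 i) ∧ P (pe p.1 b)).card := by
  obtain ⟨P', hP'⟩ : ∃ P' : (Fin r → 𝓞 K) → Prop, ∀ d, P' d ↔ (∀ i, m ∣ d i - u i) ∧ P d :=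
    ⟨fun d => (∀ i, m ∣ d i - u i) ∧ P d, fun _ => Iff.rfl⟩
  have h0 : Nat.card {d : Fin r → 𝓞 K // ((∀ i, ∀ p, Prime p → ¬ p ^ 3 ∣ d i) ∧ ∃ A : 𝓞 K,
      A ≠ 0 ∧ ((|Algebra.norm ℤ A| : ℤ) : ℝ) ≤ X ∧ ∀ i, d i ∣ A ^ 2) ∧
      (∀ i, m ∣ d i - u i) ∧ P d} =
      Nat.card {d : Fin r → 𝓞 K // ((∀ i, ∀ p, Prime p → ¬ p ^ 3 ∣ d i) ∧ ∃ A : 𝓞 K,
      A ≠ 0 ∧ ((|Algebra.norm ℤ A| : ℤ) : ℝ) ≤ X ∧ ∀ i, d i ∣ A ^ 2) ∧ P' d} :=
    Nat.card_congr (Equiv.subtypeEquivRight fun d => and_congr_right fun _ => (hP' d).symm)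
  rw [h0, card_pe X hX P']
  have h1 : ∀ j : Fin r → TT, ∀ Y : ℕ,
      ((BX (Fin r) (SxT (∅ : Finset P3)) Y).filter fun b => P' (pe j b)).card =
      ∑ g : Fin r → G9 n, if ∀ i, W3 n m u (j i) i (g i) then
        ((BX (Fin r) (SxT (∅ : Finset P3)) Y).filter fun b =>
          (∀ i, clb (c9 n) b i = g i) ∧ P (pe j b)).card else 0 := by
    intro j Y
    rw [card_eq_sum_card_fiberwise (f := fun (b : Cb P3 (Fin r)) (i : Fin r) => clb (c9 n) b i)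
      (t := (univ : Finset (Fin r → G9 n))) (fun _ _ => mem_coe.2 (mem_univ _))]
    refine sum_congr rfl fun g _ => ?_
    rw [filter_filter]
    split_ifs with hg
    · congr 1
      refine filter_congr fun b _ => ?_
      rw [hP']
      constructor
      · rintro ⟨⟨-, h2⟩, h3⟩
        exact ⟨fun i => congrFun h3 i, h2⟩
      · rintro ⟨h3, h2⟩
        refine ⟨⟨fun i => (hW3 hm u j b i).2 ?_, h2⟩, funext h3⟩
        rw [h3 i]
        exact hg i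
    · rw [card_eq_zero, filter_eq_empty_iff]
      rintro b _ ⟨h2, h3⟩
      obtain ⟨h4, -⟩ := (hP' _).1 h2
      refine hg fun i => ?_
      rw [← congrFun h3 i]
      exact (hW3 hm u j b i).1 (h4 i)
  rw [sum_congr rfl fun j _ => h1 j _]
  have h2 : ∀ j : Fin r → TT, ∀ Y : ℕ, ∑ g : Fin r → G9 n,
      (if ∀ i, W3 n m u (j i) i (g i) then
        ((BX (Fin r) (SxT (∅ : Finset P3)) Y).filter fun b =>
          (∀ i, clb (c9 n) b i = g i) ∧ P (pe j b)).card else 0) =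
      ∑ g ∈ (univ : Finset (Fin r → G9 n)).filter (fun g => ∀ i, W3 n m u (j i) i (g i)),
        ((BX (Fin r) (SxT (∅ : Finset P3)) Y).filter fun b =>
          (∀ i, clb (c9 n) b i = g i) ∧ P (pe j b)).card := by
    intro j Y
    rw [sum_filter]
  rw [sum_congr rfl fun j _ => h2 j _]
  rw [sum_sigma']
  refine sum_bij' (fun p _ => (p.1, p.2)) (fun p _ => ⟨p.1, p.2⟩) ?_ ?_ ?_ ?_ ?_
  · rintro ⟨j, g⟩ hp
    rw [mem_sigma, mem_filter] at hp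
    exact mem_Jf3.2 hp.2.2
  · rintro ⟨j, g⟩ hp
    rw [mem_sigma, mem_filter]
    exact ⟨mem_univ _, mem_univ _, mem_Jf3.1 hp⟩
  · rintro ⟨j, g⟩ _
    rfl
  · rintro ⟨j, g⟩ _
    rfl
  · rintro ⟨j, g⟩ _
    rfl

theorem Jf3_ne [Fintype (G9 n)] {m : 𝓞 K} {u : Fin r → 𝓞 K} (hm : m ∣ Q9 n)
    (hu : ∀ i, ¬ (s3 ^ 3 ∣ m ∧ s3 ^ 3 ∣ u i)) : (Jf3 n m u).Nonempty := by
  have h1 : ∀ i, ∃ (t : TT) (g : G9 n), W3 n m u t i g := by
    intro i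
    obtain ⟨x, hx, hxm⟩ := exists_cfG_class hm (hu i)
    obtain ⟨i', y, ⟨-, h3, h4⟩, h5⟩ := existsG_ph (n := n) hx
    refine ⟨(i'.1, i'.2.1, i'.2.2.1), i'.2.2.2, y, h3, h4, ?_⟩
    have e : pf i'.1 i'.2.1 i'.2.2.1 y = x := h5
    rw [e]
    exact hxm
  choose t g h using h1
  exact ⟨(t, g), mem_Jf3.2 h⟩

open Classical in
/-- **The law for the tuples of elements.** -/
theorem lawC3 (hpos : CovPos3 (c9 n) (Fin r)) {m : 𝓞 K} {u : Fin r → 𝓞 K} (hm : m ∣ Q9 n)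
    (hu : ∀ i, ¬ (s3 ^ 3 ∣ m ∧ s3 ^ 3 ∣ u i)) (P : (Fin r → 𝓞 K) → Prop) (c : ℝ)
    (hP : ∀ j : Fin r → TT, CovL3 (c9 n) (Fin r) ∅ c fun b => P (pe j b)) :
    CovG3 (𝓞 K) r m u P c := by
  let _ : Fintype (G9 n) := Fintype.ofFinite _
  intro ε hε
  obtain ⟨p₀, hp₀, hmin⟩ := exists_min_image (Jf3 n m u) (fun p => bt p.1) (Jf3_ne hm hu)
  have hb₀ : 0 < bt p₀.1 := bt_pos _
  obtain ⟨κ, hκ, X₁, hX₁⟩ := hpos.fin p₀.2
  obtain ⟨N, hN⟩ : ∃ N : ℝ, N = ((Jf3 n m u).card : ℝ) + 1 := ⟨_, rfl⟩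
  have hN0 : 0 < N := by
    rw [hN]
    positivity
  have hη : 0 < ε * κ / N := by positivity
  choose X₀ hX₀ using fun p : (Fin r → TT) × (Fin r → G9 n) => (hP p.1).fin p.2 hη
  have htend : ∀ p : (Fin r → TT) × (Fin r → G9 n),
      Filter.Tendsto (fun X : ℝ => ⌊X / (bt p.1 : ℝ)⌋₊) Filter.atTop Filter.atTop := by
    intro p
    have h0 : (0 : ℝ) < (bt p.1 : ℝ) := by exact_mod_cast bt_pos p.1
    exact tendsto_nat_floor_atTop.comp (Filter.tendsto_id.atTop_div_const h0)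
  have hev : ∀ᶠ X : ℝ in Filter.atTop, ∀ p ∈ Jf3 n m u, X₀ p ≤ ⌊X / (bt p.1 : ℝ)⌋₊ := by
    rw [Filter.eventually_all_finset]
    exact fun p _ => (htend p).eventually_ge_atTop (X₀ p)
  filter_upwards [hev, (htend p₀).eventually_ge_atTop (max X₁ 1),
    Filter.eventually_ge_atTop (0 : ℝ)] with X hX hX2 hX0
  have hc1 := card_pem hm u X hX0 P
  have hc2 := card_pem hm u X hX0 fun _ => True
  simp only [and_true] at hc2
  rw [hc1, hc2]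
  push_cast
  obtain ⟨D, hD⟩ : ∃ D : (Fin r → TT) × (Fin r → G9 n) → ℝ, D = fun p =>
      (((BX (Fin r) (SxT (∅ : Finset P3)) ⌊X / bt p.1⌋₊).filter fun b =>
        ∀ i, clb (c9 n) b i = p.2 i).card : ℝ) := ⟨_, rfl⟩
  obtain ⟨F, hF⟩ : ∃ F : (Fin r → TT) × (Fin r → G9 n) → ℝ, F = fun p =>
      (((BX (Fin r) (SxT (∅ : Finset P3)) ⌊X / bt p.1⌋₊).filter fun b =>
        (∀ i, clb (c9 n) b i = p.2 i) ∧ P (pe p.1 b)).card : ℝ) := ⟨_, rfl⟩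
  have hDe : ∑ p ∈ Jf3 n m u, (((BX (Fin r) (SxT (∅ : Finset P3)) ⌊X / bt p.1⌋₊).filter fun b =>
        ∀ i, clb (c9 n) b i = p.2 i).card : ℝ) = ∑ p ∈ Jf3 n m u, D p := by rw [hD]
  have hFe : ∑ p ∈ Jf3 n m u, (((BX (Fin r) (SxT (∅ : Finset P3)) ⌊X / bt p.1⌋₊).filter fun b =>
        (∀ i, clb (c9 n) b i = p.2 i) ∧ P (pe p.1 b)).card : ℝ) = ∑ p ∈ Jf3 n m u, F p := by rw [hF]
  obtain ⟨M, hM⟩ : ∃ M : ℝ, M =
      ((BX (Fin r) (SxT (∅ : Finset P3)) ⌊X / bt p₀.1⌋₊).card : ℝ) := ⟨_, rfl⟩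
  have hM0 : 0 < M := by
    rw [hM]
    exact BX_pos ((le_max_right _ _).trans hX2)
  have hD0 : κ * M ≤ D p₀ := by
    rw [hM, hD]
    exact hX₁ _ ((le_max_left _ _).trans hX2) _ fun b => mem_filter
  have hDnn : ∀ p, 0 ≤ D p := fun p => by
    rw [hD]
    exact Nat.cast_nonneg _
  have hDs : D p₀ ≤ ∑ p ∈ Jf3 n m u, D p := single_le_sum (fun p _ => hDnn p) hp₀
  have hkey : ∀ p ∈ Jf3 n m u, c * D p - ε * κ / N * M ≤ F p := by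
    intro p hp
    have h1 := hX₀ p _ (hX p hp)
      ((BX (Fin r) (SxT (∅ : Finset P3)) ⌊X / bt p.1⌋₊).filter fun b =>
        ∀ i, clb (c9 n) b i = p.2 i)
      ((BX (Fin r) (SxT (∅ : Finset P3)) ⌊X / bt p.1⌋₊).filter fun b =>
        (∀ i, clb (c9 n) b i = p.2 i) ∧ P (pe p.1 b)) (fun b => mem_filter) fun b => mem_filter
    have h2 : ((BX (Fin r) (SxT (∅ : Finset P3)) ⌊X / (bt p.1 : ℝ)⌋₊).card : ℝ) ≤ M := by
      rw [hM]
      refine BX_card_mono (Nat.floor_le_floor ?_)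
      have h3 : (0 : ℝ) < (bt p₀.1 : ℝ) := by exact_mod_cast hb₀
      exact div_le_div_of_nonneg_left hX0 h3 (by exact_mod_cast hmin p hp)
    have h4 := mul_le_mul_of_nonneg_left h2 hη.le
    rw [hD, hF]
    show c * (((BX (Fin r) (SxT (∅ : Finset P3)) ⌊X / bt p.1⌋₊).filter fun b =>
        ∀ i, clb (c9 n) b i = p.2 i).card : ℝ) - ε * κ / N * M ≤
      (((BX (Fin r) (SxT (∅ : Finset P3)) ⌊X / bt p.1⌋₊).filter fun b =>
        (∀ i, clb (c9 n) b i = p.2 i) ∧ P (pe p.1 b)).card : ℝ)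
    linarith
  rw [hDe, hFe]
  have hDpos : 0 < ∑ p ∈ Jf3 n m u, D p := lt_of_lt_of_le (lt_of_lt_of_le (mul_pos hκ hM0) hD0) hDs
  rw [le_div_iff₀ hDpos]
  have h5 := sum_le_sum hkey
  rw [sum_sub_distrib, ← mul_sum, sum_const, nsmul_eq_mul] at h5
  have h6 : ((Jf3 n m u).card : ℝ) * (ε * κ / N * M) ≤ ε * (κ * M) := by
    have h7 : ((Jf3 n m u).card : ℝ) * (ε * κ / N * M) =
        ((Jf3 n m u).card : ℝ) / N * (ε * (κ * M)) := by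
      field_simp
    rw [h7]
    have h8 : ((Jf3 n m u).card : ℝ) / N ≤ 1 := by
      rw [div_le_one hN0, hN]
      linarith
    have h9 : 0 ≤ ε * (κ * M) := by positivity
    nlinarith
  have h10 : ε * (κ * M) ≤ ε * ∑ p ∈ Jf3 n m u, D p :=
    mul_le_mul_of_nonneg_left (hD0.trans hDs) hε.le
  rw [sub_mul]
  linarith

end

end Pool.Agent.Lib.MP_1a91b9_ntMC
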