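import Pool.Agent.Lib.MP_1a91b9_ntMC.J1
import Pool.Agent.Lib.MP_1a91b9_ntMC.T3
import Pool.Agent.Lib.MP_1a91b9_ntMC.T5

/-!
# MP_1a91b9_nt (all the multicubic fields): the tuples with an entry `1`
-/

set_option autoImplicit false
set_option linter.unusedSectionVars false

namespace Pool.Agent.Lib.MP_1a91b9_ntMC

open NumberField Finset Pool.Agent.Lib.MP_1a91b9_ntT Pool.Agent.Lib.MP_1a91b9_ntK
  Pool.Agent.Lib.MP_1a91b9_ntK.Da Pool.Agent.Lib.MP_1a91b9_ntK2 Pool.Agent.Lib.MP_1a91b9_ntK2.D9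
  Pool.Agent.Lib.MP_1a91b9_ntN Pool.Agent.Lib.MP_1a91b9_ntN.H
open Pool.Agent.Lib.MP_1a91b9_ntH (s3 PS Sx mem_Sx nm one_le_nm prime_s3)
open Pool.Agent.Lib.MP_1a91b9_ntS3.G (G9 c9 Q9)
open Pool.Agent.Lib.MP_1a91b9_ntMN (Yh Yh_nonneg ubh0)

noncomputable section

private theorem T6_card (I : Type) [Fintype I] [DecidableEq I] : Fintype.card (Nz I) = hN I := by
  classical
  unfold Nz hN
  rw [Fintype.card_subtype_compl, Fintype.card_subtype_eq, Fintype.card_fun, ZMod.card]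

/-- The number of the colours whose entry `i` is zero. -/
def nz0 {I : Type} [Fintype I] [DecidableEq I] (i : I) : ℕ :=
  ((univ : Finset (Nz I)).filter fun v => v.1 i = 0).card

theorem nz0_le {I : Type} [Fintype I] [DecidableEq I] (i : I) : nz0 i ≤ hN I - 1 := by
  have h1 : nz0 i < Fintype.card (Nz I) := by
    unfold nz0
    refine card_lt_univ_of_notMem (x := ⟨Pi.single i 1, fun h => ?_⟩) ?_
    · have h2 := congrFun h i
      rw [Pi.single_eq_same] at h2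
      exact (by decide : (1 : ZMod 3) ≠ 0) h2
    · rw [mem_filter, not_and]
      intro _
      show ¬ (Pi.single i 1 : I → ZMod 3) i = 0
      rw [Pi.single_eq_same]
      decide
  rw [T6_card] at h1
  omega

open Classical in
/-- The colourings whose entry `i` vanishes. -/
theorem card_zero {ι I : Type} [DecidableEq ι] [PS ι] [Fintype I] [DecidableEq I] (i : I) (Y : ℕ) :
    (((BX I (SxT (∅ : Finset ι)) Y).filter fun b => ∀ q ∈ b.1, cz b q i = 0).card : ℝ) ≤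
      ∑ S ∈ Sx ι Y, ∏ _q ∈ S, (nz0 i : ℝ) := by
  have h1 : ((BX I (SxT (∅ : Finset ι)) Y).filter fun b => ∀ q ∈ b.1, cz b q i = 0) ⊆
      (Sx ι Y).sigma fun S => Fintype.piFinset fun _ : S =>
        (univ : Finset (Nz I)).filter fun v => v.1 i = 0 := by
    intro b hb
    rw [mem_filter, mem_BX, mem_SxT] at hb
    rw [mem_sigma, Fintype.mem_piFinset]
    refine ⟨hb.1.1, fun q => mem_filter.2 ⟨mem_univ _, ?_⟩⟩
    have h2 := hb.2 q.1 q.2
    rw [cz_of_mem q.2] at h2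
    exact h2
  have h2 := card_le_card h1
  rw [card_sigma] at h2
  have h3 : ∀ S ∈ Sx ι Y, (Fintype.piFinset fun _ : S =>
        (univ : Finset (Nz I)).filter fun v => v.1 i = 0).card = nz0 i ^ S.card := by
    intro S _
    rw [Fintype.card_piFinset, prod_const, card_univ, Fintype.card_coe]
    rfl
  rw [sum_congr rfl h3] at h2
  have h4 : ((((BX I (SxT (∅ : Finset ι)) Y).filter fun b => ∀ q ∈ b.1, cz b q i = 0).card : ℕ) : ℝ) ≤
      ((∑ S ∈ Sx ι Y, nz0 i ^ S.card : ℕ) : ℝ) := Nat.cast_le.2 h2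
  refine h4.trans (le_of_eq ?_)
  push_cast
  exact sum_congr rfl fun S _ => by rw [prod_const]

variable {n r : ℕ}

theorem pe_one {j : Fin r → TT} {b : Cb P3 (Fin r)} {i : Fin r} (h : pe j b i = 1) :
    ∀ q ∈ b.1, cz b q i = 0 := by
  intro q hq
  by_contra h0
  have h3 : q.1 ∣ PE (fun q => cz b q i) b.1 := by
    refine Dvd.dvd.trans (dvd_pow_self _ ?_)
      (dvd_prod_of_mem (fun q : P3 => q.1 ^ (cz b q i).val) hq)
    intro h1
    exact h0 ((ZMod.val_eq_zero _).1 h1)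
  have h4 : q.1 ∣ pe j b i := by
    unfold pe pf
    exact (h3.mul_left _).mul_left _
  rw [h] at h4
  exact q.2.1.not_isUnit (isUnit_of_dvd_one h4)

theorem bt_le (j : Fin r → TT) : bt j ≤ 3 := by
  unfold bt
  split_ifs <;> norm_num

/-- The comparison of the sizes. -/
theorem T6_log {h : ℕ} (hh : 2 ≤ h) {Y Y' : ℕ} (hY : Y' = Y / 3) (h4 : 4 ≤ Y') :
    Yh (h - 1) Y ≤ 4 * 2 ^ (h - 2) * (Y' * Real.log Y' ^ (h - 2)) := by
  have hY4 : (4 : ℝ) ≤ Y' := by exact_mod_cast h4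
  have hle : (Y : ℝ) ≤ 4 * Y' := by
    have h1 : Y ≤ 4 * Y' := by omega
    exact_mod_cast h1
  have hY0 : (0 : ℝ) ≤ Real.log Y := Real.log_natCast_nonneg Y
  have hY1 : (1 : ℝ) ≤ Y := by
    have h1 : 1 ≤ Y := by omega
    exact_mod_cast h1
  have hl : Real.log Y ≤ 2 * Real.log Y' := by
    have h5 : (Y : ℝ) ≤ (Y' : ℝ) ^ 2 := by nlinarith
    have h6 := Real.log_le_log (by linarith) h5
    rwa [Real.log_pow, Nat.cast_ofNat] at h6
  unfold Yh
  have e : h - 1 - 1 = h - 2 := by omega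
  rw [e]
  calc (Y : ℝ) * Real.log Y ^ (h - 2) ≤ (4 * Y') * (2 * Real.log Y') ^ (h - 2) :=
        mul_le_mul hle (pow_le_pow_left₀ hY0 hl _) (by positivity) (by positivity)
    _ = 4 * 2 ^ (h - 2) * (Y' * Real.log Y' ^ (h - 2)) := by
        rw [mul_pow]
        ring

open Classical in
/-- **The tuples with an entry `1` have proportion zero.** -/
theorem sm3_of (hpos : ∀ n r, CovPos3 (c9 n) (Fin r)) {m : 𝓞 K} {u : Fin r → 𝓞 K} (hm : m ∣ Q9 n)
    (hu : ∀ i, ¬ (s3 ^ 3 ∣ m ∧ s3 ^ 3 ∣ u i)) : Sm3 (𝓞 K) r m u := by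
  let _ : Fintype (G9 n) := Fintype.ofFinite _
  intro i ε hε
  have hne : Nonempty (Fin r) := ⟨i⟩
  obtain ⟨h, hh⟩ : ∃ h : ℕ, h = hN (Fin r) := ⟨_, rfl⟩
  have hh2 : 2 ≤ h := by
    have h3 : 3 ^ 1 ≤ 3 ^ Fintype.card (Fin r) := Nat.pow_le_pow_right (by norm_num) Fintype.card_pos
    rw [hh]
    unfold hN
    omega
  obtain ⟨p₀, hp₀⟩ := Jf3_ne (r := r) (u := u) hm hu
  obtain ⟨κ, hκ, X₁, hX₁⟩ := (hpos n r).fin p₀.2
  obtain ⟨c, hc, X₂, hX₂⟩ := BX_ge (Fin r)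
  obtain ⟨C1, hC1⟩ := cheb3
  obtain ⟨C2, hC2⟩ := zt3
  obtain ⟨M, hM, hub⟩ := ubh0 hC1 hC2 (h - 1) (by omega)
  obtain ⟨L, hL⟩ : ∃ L : ℝ, L = (Fintype.card (Fin r → TT) : ℝ) + 1 := ⟨_, rfl⟩
  have hL0 : 0 < L := by
    rw [hL]
    positivity
  have htend : Filter.Tendsto (fun X : ℝ => ⌊X⌋₊ / 3) Filter.atTop Filter.atTop :=
    (Nat.tendsto_div_const_atTop three_ne_zero).comp tendsto_nat_floor_atTop
  have hlog : Filter.Tendsto (fun X : ℝ => Real.log ((⌊X⌋₊ / 3 : ℕ) : ℝ)) Filter.atTop Filter.atTop :=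
    Real.tendsto_log_atTop.comp (tendsto_natCast_atTop_atTop.comp htend)
  filter_upwards [htend.eventually_ge_atTop (X₁ + X₂ + 4), Filter.eventually_ge_atTop (0 : ℝ),
    hlog.eventually_ge_atTop (L * M * (4 * 2 ^ (h - 2)) / (ε * κ * c))] with X hX hX0 hXl
  obtain ⟨Y, hY⟩ : ∃ Y : ℕ, Y = ⌊X⌋₊ := ⟨_, rfl⟩
  obtain ⟨Y', hY'⟩ : ∃ Y' : ℕ, Y' = Y / 3 := ⟨_, rfl⟩
  rw [← hY, ← hY'] at hX hXl
  -- the upper bound
  have hup : ({d : Fin r → 𝓞 K | d ∈ lc3 (𝓞 K) r X ∧ d i = 1}.ncard : ℝ) ≤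
      L * (M * Yh (h - 1) Y) := by
    have h1 := card_pe (r := r) X hX0 fun d => d i = 1
    have h2 : {d : Fin r → 𝓞 K | d ∈ lc3 (𝓞 K) r X ∧ d i = 1}.ncard =
        ∑ j : Fin r → TT, ((BX (Fin r) (SxT (∅ : Finset P3)) ⌊X / bt j⌋₊).filter fun b =>
          pe j b i = 1).card := h1
    rw [h2]
    push_cast
    have h3 : ∀ j : Fin r → TT, (((BX (Fin r) (SxT (∅ : Finset P3)) ⌊X / bt j⌋₊).filter fun b =>
          pe j b i = 1).card : ℝ) ≤ M * Yh (h - 1) Y := by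
      intro j
      have h4 : (((BX (Fin r) (SxT (∅ : Finset P3)) ⌊X / bt j⌋₊).filter fun b =>
          pe j b i = 1).card : ℝ) ≤
          (((BX (Fin r) (SxT (∅ : Finset P3)) Y).filter fun b =>
            ∀ q ∈ b.1, cz b q i = 0).card : ℝ) := by
        refine Nat.cast_le.2 (card_le_card fun b hb => ?_)
        rw [mem_filter, mem_BX, mem_SxT, mem_Sx] at hb
        rw [mem_filter, mem_BX, mem_SxT, mem_Sx]
        refine ⟨⟨hb.1.1.trans ?_, hb.1.2⟩, pe_one hb.2⟩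
        rw [hY, Nat.floor_div_natCast]
        exact Nat.div_le_self _ _
      refine h4.trans ((card_zero i Y).trans ?_)
      have h5 := hub (fun _ => (nz0 i : ℝ)) (fun q => ⟨Nat.cast_nonneg _, ?_⟩) Y (by omega)
      · exact h5
      · exact Nat.cast_le.2 ((nz0_le i).trans (le_of_eq (by rw [hh])))
    refine (sum_le_sum fun j _ => h3 j).trans ?_
    rw [sum_const, nsmul_eq_mul, card_univ]
    have h6 : 0 ≤ M * Yh (h - 1) Y := mul_nonneg hM.le (Yh_nonneg _ _)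
    refine mul_le_mul_of_nonneg_right ?_ h6
    rw [hL]
    linarith
  -- the lower bound
  have hlow : κ * (c * Yh h Y') ≤
      ({d : Fin r → 𝓞 K | d ∈ lc3 (𝓞 K) r X ∧ ∀ k, m ∣ d k - u k}.ncard : ℝ) := by
    have h1 := card_pem hm u X hX0 fun _ => True
    simp only [and_true] at h1
    have h2 : {d : Fin r → 𝓞 K | d ∈ lc3 (𝓞 K) r X ∧ ∀ k, m ∣ d k - u k}.ncard =
        ∑ p ∈ Jf3 n m u, ((BX (Fin r) (SxT (∅ : Finset P3)) ⌊X / bt p.1⌋₊).filter fun b =>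
          ∀ i, clb (c9 n) b i = p.2 i).card := h1
    rw [h2]
    push_cast
    obtain ⟨D, hD⟩ : ∃ D : (Fin r → TT) × (Fin r → G9 n) → ℝ, D = fun p =>
        (((BX (Fin r) (SxT (∅ : Finset P3)) ⌊X / bt p.1⌋₊).filter fun b =>
          ∀ i, clb (c9 n) b i = p.2 i).card : ℝ) := ⟨_, rfl⟩
    have hDe : ∑ p ∈ Jf3 n m u, (((BX (Fin r) (SxT (∅ : Finset P3)) ⌊X / bt p.1⌋₊).filter fun b =>
          ∀ i, clb (c9 n) b i = p.2 i).card : ℝ) = ∑ p ∈ Jf3 n m u, D p := by rw [hD]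
    rw [hDe]
    have hDs : D p₀ ≤ ∑ p ∈ Jf3 n m u, D p := single_le_sum (fun p _ => by
      rw [hD]
      exact Nat.cast_nonneg _) hp₀
    refine le_trans ?_ hDs
    have hb : Y' ≤ ⌊X / (bt p₀.1 : ℝ)⌋₊ := by
      rw [Nat.floor_div_natCast, ← hY, hY']
      exact Nat.div_le_div_left (bt_le _) (bt_pos _)
    have h3 : κ * ((BX (Fin r) (SxT (∅ : Finset P3)) ⌊X / (bt p₀.1 : ℝ)⌋₊).card : ℝ) ≤ D p₀ := by
      rw [hD]
      exact hX₁ _ (by omega) _ fun b => mem_filter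
    refine le_trans (mul_le_mul_of_nonneg_left ?_ hκ.le) h3
    refine le_trans ?_ (BX_card_mono hb)
    rw [hh]
    exact hX₂ Y' (by omega)
  refine hup.trans (le_trans ?_ (mul_le_mul_of_nonneg_left hlow hε.le))
  have h7 := T6_log hh2 hY' (by omega)
  have h8 : L * (M * Yh (h - 1) Y) ≤
      L * M * (4 * 2 ^ (h - 2)) * (Y' * Real.log Y' ^ (h - 2)) := by
    calc L * (M * Yh (h - 1) Y) ≤ L * (M * (4 * 2 ^ (h - 2) * (Y' * Real.log Y' ^ (h - 2)))) :=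
          mul_le_mul_of_nonneg_left (mul_le_mul_of_nonneg_left h7 hM.le) hL0.le
      _ = _ := by ring
  refine h8.trans ?_
  rw [div_le_iff₀ (by positivity)] at hXl
  have hl0 : 0 ≤ Real.log Y' := Real.log_natCast_nonneg Y'
  have h9 : 0 ≤ (Y' : ℝ) * Real.log Y' ^ (h - 2) := by positivity
  have h10 := mul_le_mul_of_nonneg_right hXl h9
  refine h10.trans (le_of_eq ?_)
  have e : h - 1 = h - 2 + 1 := by omega
  unfold Yh
  rw [e, pow_succ]
  ring

end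

end Pool.Agent.Lib.MP_1a91b9_ntMC
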